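import Pool.Agent.H37.LM.Fun

/-!
# Algebra: definitions

`A = F⟦X⟧` (variable `x`), `OO = F⟦X⟧⟦X⟧` (outer variable `w`, inner variable `x`).

* `cD δ` : coefficientwise extension of a derivation `δ` of `R` to `R⟦X⟧`.
* `th R` : the derivation `x d/dx` of `R⟦X⟧`.
* `D1 D = cD D`, `D2 D = cD (cD D)` for `D : Derivation ℤ F F`.
* `Qh e f = e f + x ∂ₓ f`, `Wh f = ∂_w f`.
* `locP p P` : the power series of `P (w + p, x)`.
* `formP n a = ∑ a (n - j) j w ^ j`.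
* `CodimTwo S` : `S` holds on an `F`-subspace of codimension at most `2`.
-/

noncomputable section

open PowerSeries

namespace H37.LM

section base

variable {R : Type*} [CommRing R]

/-- An additive map satisfying the Leibniz rule. -/
def IsDer (δ : R →+ R) : Prop := ∀ a b, δ (a * b) = a * δ b + b * δ a

theorem IsDer.one {δ : R →+ R} (h : IsDer δ) : δ 1 = 0 := by
  have := h 1 1
  simpa using this

theorem IsDer.nat {δ : R →+ R} (h : IsDer δ) (n : ℕ) : δ (n : R) = 0 := by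
  rw [← nsmul_one, map_nsmul, h.one, nsmul_zero]

theorem IsDer.sq {δ : R →+ R} (h : IsDer δ) (a : R) : δ (a ^ 2) = 2 * a * δ a := by
  rw [pow_two, h a a]; ring

theorem IsDer.pow {δ : R →+ R} (h : IsDer δ) (a : R) (n : ℕ) :
    δ (a ^ n) = n * a ^ (n - 1) * δ a := by
  induction n with
  | zero => simp [h.one]
  | succ n ih =>
    rw [pow_succ, h, ih]
    rcases n with _ | n
    · simp
    · push_cast
      ring

theorem IsDer.nat_mul {δ : R →+ R} (h : IsDer δ) (n : ℕ) (a : R) :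
    δ ((n : R) * a) = n * δ a := by
  rw [h, h.nat]; ring

/-- Derivations preserve divisibility by elements with zero derivative. -/
theorem IsDer.dvd {δ : R →+ R} (h : IsDer δ) {a b : R} (ha : δ a = 0) (hb : a ∣ b) :
    a ∣ δ b := by
  obtain ⟨c, rfl⟩ := hb
  rw [h, ha, mul_zero, add_zero]
  exact dvd_mul_right _ _

/-- Coefficientwise extension of an additive map to power series. -/
def cD (δ : R →+ R) : R⟦X⟧ →+ R⟦X⟧ where
  toFun := fun f => PowerSeries.mk fun n => δ (coeff n f)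
  map_zero' := by ext n; simp
  map_add' := fun f g => by ext n; simp

@[simp] theorem coeff_cD (δ : R →+ R) (f : R⟦X⟧) (n : ℕ) :
    coeff n (cD δ f) = δ (coeff n f) := by
  simp [cD]

theorem cD_isDer {δ : R →+ R} (h : IsDer δ) : IsDer (cD δ) := by
  intro f g
  ext n
  rw [coeff_cD, map_add, coeff_mul, coeff_mul, coeff_mul, map_sum]
  rw [← Finset.Nat.sum_antidiagonal_swap (f := fun p => coeff p.1 g * coeff p.2 (cD δ f)),
    ← Finset.sum_add_distrib]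
  refine Finset.sum_congr rfl fun p _ => ?_
  rw [h, coeff_cD, Prod.fst_swap, Prod.snd_swap, coeff_cD]

@[simp] theorem cD_C (δ : R →+ R) (r : R) : cD δ (C r) = C (δ r) := by
  ext n
  rw [coeff_cD, coeff_C, coeff_C]
  split_ifs <;> simp

theorem cD_X {δ : R →+ R} (h : IsDer δ) : cD δ (X : R⟦X⟧) = 0 := by
  ext n
  rw [coeff_cD, coeff_X]
  split_ifs <;> simp [h.one]

/-- The derivation `x d/dx`. -/
def th (R : Type*) [CommRing R] : R⟦X⟧ →+ R⟦X⟧ where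
  toFun := fun f => X * PowerSeries.derivative R f
  map_zero' := by simp
  map_add' := fun f g => by rw [map_add, mul_add]

theorem th_apply (f : R⟦X⟧) : th R f = X * PowerSeries.derivative R f := rfl

theorem th_isDer : IsDer (th R) := by
  intro f g
  rw [th_apply, th_apply, th_apply, Derivation.leibniz]
  simp only [smul_eq_mul]
  ring

@[simp] theorem coeff_th (f : R⟦X⟧) (n : ℕ) : coeff n (th R f) = n * coeff n f := by
  rw [th_apply]
  rcases n with _ | n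
  · simp
  · rw [coeff_succ_X_mul, coeff_derivative]
    push_cast
    ring

@[simp] theorem th_C (r : R) : th R (C r) = 0 := by
  ext n
  rw [coeff_th, coeff_C]
  split_ifs with h
  · simp [h]
  · simp

@[simp] theorem th_X : th R (X : R⟦X⟧) = X := by
  rw [th_apply]; simp

end base

variable {F : Type*} [Field F]

/-- Coefficientwise derivation of `F⟦X⟧`. -/
def D1 (D : Derivation ℤ F F) : F⟦X⟧ →+ F⟦X⟧ := cD (D : F →+ F)

/-- Coefficientwise derivation of `F⟦X⟧⟦X⟧`. -/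
def D2 (D : Derivation ℤ F F) : F⟦X⟧⟦X⟧ →+ F⟦X⟧⟦X⟧ := cD (D1 D)

/-- `x ∂ₓ` on `F⟦X⟧⟦X⟧`. -/
def th2 (F : Type*) [Field F] : F⟦X⟧⟦X⟧ →+ F⟦X⟧⟦X⟧ := cD (th F)

theorem D1_isDer (D : Derivation ℤ F F) : IsDer (D1 D) :=
  cD_isDer fun a b => by
    simp

theorem D2_isDer (D : Derivation ℤ F F) : IsDer (D2 D) := cD_isDer (D1_isDer D)

theorem th2_isDer : IsDer (th2 F) := cD_isDer th_isDer

@[simp] theorem coeff_D1 (D : Derivation ℤ F F) (f : F⟦X⟧) (n : ℕ) :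
    coeff n (D1 D f) = D (coeff n f) := coeff_cD _ _ _

@[simp] theorem coeff_D2 (D : Derivation ℤ F F) (f : F⟦X⟧⟦X⟧) (n : ℕ) :
    coeff n (D2 D f) = D1 D (coeff n f) := coeff_cD _ _ _

@[simp] theorem coeff_th2 (f : F⟦X⟧⟦X⟧) (n : ℕ) :
    coeff n (th2 F f) = th F (coeff n f) := coeff_cD _ _ _

@[simp] theorem D1_C (D : Derivation ℤ F F) (r : F) : D1 D (C r) = C (D r) := cD_C _ _

@[simp] theorem D2_C (D : Derivation ℤ F F) (r : F⟦X⟧) : D2 D (C r) = C (D1 D r) := cD_C _ _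

@[simp] theorem th2_C (r : F⟦X⟧) : th2 F (C r) = C (th F r) := cD_C _ _

@[simp] theorem D1_X (D : Derivation ℤ F F) : D1 D (X : F⟦X⟧) = 0 :=
  cD_X fun a b => by
    simp

@[simp] theorem D2_X (D : Derivation ℤ F F) : D2 D (X : F⟦X⟧⟦X⟧) = 0 := cD_X (D1_isDer D)

@[simp] theorem th2_X : th2 F (X : F⟦X⟧⟦X⟧) = 0 := cD_X th_isDer

/-- `e f + x ∂ₓ f`. -/
def Qh (e : ℕ) (f : F⟦X⟧⟦X⟧) : F⟦X⟧⟦X⟧ := (e : F⟦X⟧⟦X⟧) * f + th2 F f

/-- `∂_w f`. -/
def Wh (f : F⟦X⟧⟦X⟧) : F⟦X⟧⟦X⟧ := PowerSeries.derivative F⟦X⟧ f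

/-- The coefficient of `x ^ i * w ^ j`. -/
def cf (f : F⟦X⟧⟦X⟧) (i j : ℕ) : F := coeff i (coeff j f)

theorem cf_ext {f g : F⟦X⟧⟦X⟧} (h : ∀ i j, cf f i j = cf g i j) : f = g := by
  ext j i
  exact h i j

/-- The coefficients of `Qh e f`. -/
theorem cf_Qh (e : ℕ) (f : F⟦X⟧⟦X⟧) (i j : ℕ) :
    cf (Qh e f) i j = ((e : F) + i) * cf f i j := by
  have h : ((e : ℕ) : F⟦X⟧⟦X⟧) * f = e • f := by rw [nsmul_eq_mul]
  unfold cf Qh
  rw [h, map_add, map_add, coeff_th2, coeff_th, map_nsmul, map_nsmul, nsmul_eq_mul]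
  ring

/-- The coefficients of `Wh f`. -/
theorem cf_Wh (f : F⟦X⟧⟦X⟧) (i j : ℕ) :
    cf (Wh f) i j = ((j : F) + 1) * cf f i (j + 1) := by
  unfold cf Wh
  rw [coeff_derivative]
  have h : coeff (j + 1) f * ((j : F⟦X⟧) + 1) = (j + 1) • coeff (j + 1) f := by
    rw [nsmul_eq_mul]; push_cast; ring
  rw [h, map_nsmul, nsmul_eq_mul]
  push_cast
  ring

theorem cf_D2 (D : Derivation ℤ F F) (f : F⟦X⟧⟦X⟧) (i j : ℕ) :
    cf (D2 D f) i j = D (cf f i j) := by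
  unfold cf
  rw [coeff_D2, coeff_D1]

/-- The map `D ↦ D1 D v` is linear. -/
def evD (v : F⟦X⟧) : Derivation ℤ F F →ₗ[F] F⟦X⟧ where
  toFun D := D1 D v
  map_add' D D' := by ext n; simp
  map_smul' c D := by ext n; simp

@[simp] theorem evD_apply (v : F⟦X⟧) (D : Derivation ℤ F F) : evD v D = D1 D v := rfl

/-- `S` holds on an `F`-linear subspace of codimension at most two. -/
def CodimTwo (F : Type*) [Field F] (S : Derivation ℤ F F → Prop) : Prop :=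
  ∃ O : Derivation ℤ F F →ₗ[F] (Fin 2 → F), ∀ D, O D = 0 → S D

theorem CodimTwo.mono {S S' : Derivation ℤ F F → Prop} (h : CodimTwo F S)
    (h' : ∀ D, S D → S' D) : CodimTwo F S' := by
  obtain ⟨O, hO⟩ := h
  exact ⟨O, fun D hD => h' D (hO D hD)⟩

theorem CodimTwo.of_forall {S : Derivation ℤ F F → Prop} (h : ∀ D, S D) : CodimTwo F S :=
  ⟨0, fun D _ => h D⟩

section poly

open Polynomial

/-- The homogeneous component of degree `n`, dehomogenised: `∑ a (n - j) j w ^ j`. -/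
def formP (n : ℕ) (a : ℕ → ℕ → F) : F[X] :=
  ∑ j ∈ Finset.range (n + 1), monomial j (a (n - j) j)

/-- Recentring at `w = p`, with coefficients in `F⟦X⟧`. -/
def locA (p : F) : F[X][X] →+* F⟦X⟧[X] :=
  (mapRingHom (Polynomial.coeToPowerSeries.ringHom (R := F))).comp
    (Polynomial.compRingHom (Polynomial.X + Polynomial.C (Polynomial.C p)))

/-- Recentring at `w = p`, as a power series in `w` and `x`. -/
def locP (p : F) : F[X][X] →+* F⟦X⟧⟦X⟧ :=
  (Polynomial.coeToPowerSeries.ringHom (R := F⟦X⟧)).comp (locA p)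

theorem locP_apply (p : F) (P : F[X][X]) : locP p P = ((locA p P : F⟦X⟧[X]) : F⟦X⟧⟦X⟧) := rfl

/-- `h` as a polynomial (outer variable `y`, inner variable `x`). -/
def hP (K : ℕ) (a : ℕ → ℕ → F) : F[X][X] :=
  ∑ i ∈ Finset.range (K + 1), ∑ j ∈ Finset.range (K + 1),
    monomial j (monomial i (a i j))

/-- `∂h/∂x`. -/
def hxP (K : ℕ) (a : ℕ → ℕ → F) : F[X][X] :=
  ∑ i ∈ Finset.range (K + 1), ∑ j ∈ Finset.range (K + 1),
    monomial j (monomial (i - 1) ((i : F) * a i j))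

/-- `∂h/∂y`. -/
def hyP (K : ℕ) (a : ℕ → ℕ → F) : F[X][X] :=
  ∑ i ∈ Finset.range (K + 1), ∑ j ∈ Finset.range (K + 1),
    monomial (j - 1) (monomial i ((j : F) * a i j))

/-- `∂²h/∂y²`. -/
def hyyP (K : ℕ) (a : ℕ → ℕ → F) : F[X][X] :=
  ∑ i ∈ Finset.range (K + 1), ∑ j ∈ Finset.range (K + 1),
    monomial (j - 2) (monomial i ((j : F) * ((j : F) - 1) * a i j))

/-- The distinguished polynomials. -/
def Dist (P : F⟦X⟧[X]) : Prop :=
  P.Monic ∧ ∀ i < P.natDegree, PowerSeries.constantCoeff (P.coeff i) = 0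

/-- No distinguished polynomial of positive degree divides `Qh e f` and `Wh f`. -/
def G3loc (e : ℕ) (f : F⟦X⟧⟦X⟧) : Prop :=
  ∀ P : F⟦X⟧[X], Dist P → 0 < P.natDegree →
    ¬ ((P : F⟦X⟧⟦X⟧) ∣ Qh e f ∧ (P : F⟦X⟧⟦X⟧) ∣ Wh f)

end poly

/-- No smooth curve `w = η (x)` with contact `9`. -/
def G2loc (f : F⟦X⟧⟦X⟧) : Prop :=
  ∀ η : F⟦X⟧, constantCoeff η = 0 →
    ¬ (f ∈ Ideal.span {(X : F⟦X⟧⟦X⟧) - C η, C (X ^ 9)} ∧
      Wh f ∈ Ideal.span {(X : F⟦X⟧⟦X⟧) - C η, C (X ^ 6)} ∧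
      Wh (Wh f) ∈ Ideal.span {(X : F⟦X⟧⟦X⟧) - C η, C (X ^ 3)})

/-- The conditions (G1), (G2), (G3) on a polynomial `∑ a i j x ^ i y ^ j`. -/
structure Good (K e : ℕ) (a : ℕ → ℕ → F) : Prop where
  high : ∀ i j, K < i + j → a i j = 0
  low : ∀ i j, i + j < e → a i j = 0
  one_le : 1 ≤ e
  le_six : e ≤ 6
  inf : a 0 e ≠ 0
  g1 : ∀ p : F, ¬ ((formP 6 a).eval p = 0 ∧ (Polynomial.derivative (formP 6 a)).eval p = 0)
  g2 : ∀ p c1 c2 : F, (formP e a).eval p = 0 →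
    ¬ ((Polynomial.X ^ 12 ∣ (hP K a).eval (Polynomial.C p * Polynomial.X +
        Polynomial.C c1 * Polynomial.X ^ 2 + Polynomial.C c2 * Polynomial.X ^ 3)) ∧
      (Polynomial.X ^ 8 ∣ (hyP K a).eval (Polynomial.C p * Polynomial.X +
        Polynomial.C c1 * Polynomial.X ^ 2 + Polynomial.C c2 * Polynomial.X ^ 3)) ∧
      (Polynomial.X ^ 4 ∣ (hyyP K a).eval (Polynomial.C p * Polynomial.X +
        Polynomial.C c1 * Polynomial.X ^ 2 + Polynomial.C c2 * Polynomial.X ^ 3)))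
  g3 : ∀ P Q1 Q2 : Polynomial (Polynomial F), hxP K a = P * Q1 → hyP K a = P * Q2 → P ≠ 0 →
    P.evalEval 0 0 ≠ 0

end H37.LM
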