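import Pool.Agent.H37.LM.Alg0

/-!
# Recentring   [H37 LM Recen]

`locP p (monomial j (monomial k c)) = C (C c * X ^ k) * (X + C (C p)) ^ j`.

* `cf_locP`: both sides are additive in `a`; the coefficient of `x ^ i` in `FtP K e a` is
  `∑_{i' + j' = e + i} a i' j' w ^ j'` (use `low` for the terms with `i' + j' < e`, where the
  exponent `i' + j' - e` is truncated to `0`, and `high` for the range), which is
  `formP (e + i) a`; then replace `w` by `w + p`.
* `locP_QfP`: compare coefficients: `(i' + j') = e + (i' + j' - e)` if `e ≤ i' + j'`.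
* `locP_WfP`: `∂_w` of `(X + C (C p)) ^ j`.
* `locP_D`: `D2 D (C (C c * X ^ k) * (X + C (C p)) ^ j) =
  C (C (D c) * X ^ k) * (X + C (C p)) ^ j + C (C c * X ^ k) * j * (X + C (C p)) ^ (j - 1) * C (C (D p))`
  (`D2_isDer`, `IsDer.pow`, `D2_C`, `D2_X`, `D1_X`, `D1_C`).
-/

noncomputable section

open Polynomial

namespace H37.LM

variable {F : Type*} [Field F]

open scoped PowerSeries

/-- the recentring of a monomial -/
theorem locP_mono (p : F) (j k : ℕ) (c : F) :
    locP p (monomial j (monomial k c)) =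
      PowerSeries.C (PowerSeries.C c * PowerSeries.X ^ k) *
        (PowerSeries.X + PowerSeries.C (PowerSeries.C p)) ^ j := by
  rw [locP_apply]
  have h1 : locA p (monomial j (monomial k c)) =
      C (PowerSeries.C c * PowerSeries.X ^ k) * (X + C (PowerSeries.C p)) ^ j := by
    unfold locA
    rw [RingHom.comp_apply, coe_compRingHom_apply, monomial_comp, coe_mapRingHom,
      Polynomial.map_mul, Polynomial.map_pow, Polynomial.map_add, map_X, map_C, map_C,
      coeToPowerSeries.ringHom_apply, coeToPowerSeries.ringHom_apply, coe_C]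
    congr 2
    rw [coe_monomial, PowerSeries.monomial_eq_mk, PowerSeries.X_pow_eq]
    ext n
    rw [PowerSeries.coeff_mk, PowerSeries.coeff_C_mul, PowerSeries.coeff_monomial]
    split_ifs <;> simp
  rw [h1]
  simp only [coe_mul, coe_C, coe_pow, coe_add, coe_X]

/-- coefficients -/
theorem cf_mono (p : F) (j k : ℕ) (c : F) (i l : ℕ) :
    cf (locP p (monomial j (monomial k c))) i l =
      if i = k then c * ((X + C p) ^ j : F[X]).coeff l else 0 := by
  rw [locP_mono]
  unfold cf
  rw [PowerSeries.coeff_C_mul]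
  have h1 : ((PowerSeries.X : F⟦X⟧⟦X⟧) + PowerSeries.C (PowerSeries.C p)) ^ j =
      (((X + C (PowerSeries.C p)) ^ j : F⟦X⟧[X]) : F⟦X⟧⟦X⟧) := by
    simp only [coe_pow, coe_add, coe_X, coe_C]
  have h2 : ((X + C (PowerSeries.C p)) ^ j : F⟦X⟧[X]) =
      ((X + C p) ^ j : F[X]).map (PowerSeries.C (R := F)) := by
    rw [Polynomial.map_pow, Polynomial.map_add, map_X, map_C]
  rw [h1, coeff_coe, h2, coeff_map, mul_assoc, PowerSeries.coeff_C_mul, mul_comm (PowerSeries.X ^ k),
    PowerSeries.coeff_C_mul, PowerSeries.coeff_X_pow]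
  split_ifs <;> simp

theorem cf_sum {ι : Type*} (s : Finset ι) (f : ι → F⟦X⟧⟦X⟧) (i j : ℕ) :
    cf (∑ t ∈ s, f t) i j = ∑ t ∈ s, cf (f t) i j := by
  unfold cf
  rw [map_sum, map_sum]

theorem cf_locP (p : F) (K e : ℕ) (a : ℕ → ℕ → F) (high : ∀ i j, K < i + j → a i j = 0)
    (low : ∀ i j, i + j < e → a i j = 0) (i j : ℕ) :
    cf (locP p (FtP K e a)) i j = ((formP (e + i) a).comp (X + C p)).coeff j := by
  unfold FtP formP
  simp only [map_sum, cf_sum, cf_mono]
  have hR : ((∑ y ∈ Finset.range (e + i + 1), (monomial y) (a (e + i - y) y)).comp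
      (X + C p)).coeff j =
      ∑ y ∈ Finset.range (e + i + 1), a (e + i - y) y * ((X + C p) ^ y : F[X]).coeff j := by
    rw [← coe_compRingHom_apply, map_sum, finsetSum_coeff]
    refine Finset.sum_congr rfl fun y _ => ?_
    rw [coe_compRingHom_apply, monomial_comp, coeff_C_mul]
  rw [hR, Finset.sum_comm]
  have hin : ∀ y, ∑ x ∈ Finset.range (K + 1), (if i = x + y - e then
      a x y * ((X + C p) ^ y : F[X]).coeff j else 0) =
      if y ≤ e + i then a (e + i - y) y * ((X + C p) ^ y : F[X]).coeff j else 0 := by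
    intro y
    have h1 : ∀ x, (if i = x + y - e then a x y * ((X + C p) ^ y : F[X]).coeff j else 0) =
        if x + y = e + i then a x y * ((X + C p) ^ y : F[X]).coeff j else 0 := by
      intro x
      by_cases h : x + y < e
      · rw [low x y h]
        simp
      · have h2 : i = x + y - e ↔ x + y = e + i := by omega
        simp only [h2]
    simp only [h1]
    split_ifs with hy
    · have h2 : ∀ x, (x + y = e + i) ↔ (e + i - y = x) := by
        intro x
        omega
      simp only [h2]
      rw [Finset.sum_ite_eq]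
      split_ifs with h3
      · rfl
      · rw [Finset.mem_range, not_lt] at h3
        rw [high _ _ (by omega), zero_mul]
    · refine Finset.sum_eq_zero fun x _ => if_neg ?_
      omega
  simp only [hin]
  have hL1 : ∑ y ∈ Finset.range (K + 1), (if y ≤ e + i then
      a (e + i - y) y * ((X + C p) ^ y : F[X]).coeff j else 0) =
      ∑ y ∈ Finset.range (K + e + i + 1), (if y ≤ e + i then
      a (e + i - y) y * ((X + C p) ^ y : F[X]).coeff j else 0) := by
    refine Finset.sum_subset (Finset.range_mono (by omega)) fun y _ hy => ?_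
    rw [Finset.mem_range, not_lt] at hy
    split_ifs with h
    · rw [high _ _ (by omega), zero_mul]
    · rfl
  have hL2 : ∑ y ∈ Finset.range (e + i + 1), a (e + i - y) y * ((X + C p) ^ y : F[X]).coeff j =
      ∑ y ∈ Finset.range (K + e + i + 1), (if y ≤ e + i then
      a (e + i - y) y * ((X + C p) ^ y : F[X]).coeff j else 0) := by
    rw [← Finset.sum_subset (Finset.range_mono (by omega : e + i + 1 ≤ K + e + i + 1))]
    · refine Finset.sum_congr rfl fun y hy => ?_
      rw [Finset.mem_range] at hy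
      rw [if_pos (by omega)]
    · intro y _ hy
      rw [Finset.mem_range, not_lt] at hy
      rw [if_neg (by omega)]
  rw [hL1, hL2]

theorem locP_QfP (p : F) (K e : ℕ) (a : ℕ → ℕ → F) (low : ∀ i j, i + j < e → a i j = 0) :
    locP p (QfP K e a) = Qh e (locP p (FtP K e a)) := by
  apply cf_ext
  intro i l
  rw [cf_Qh]
  unfold FtP QfP
  simp only [map_sum, cf_sum, cf_mono, Finset.mul_sum]
  refine Finset.sum_congr rfl fun i' _ => Finset.sum_congr rfl fun j' _ => ?_
  split_ifs with h
  · by_cases h' : i' + j' < e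
    · simp [low i' j' h']
    · have h2 : (e : F) + i = i' + j' := by
        have h3 : e + i = i' + j' := by omega
        rw [← Nat.cast_add, h3, Nat.cast_add]
      rw [h2]
      ring
  · rw [mul_zero]

theorem locP_WfP (p : F) (K e : ℕ) (a : ℕ → ℕ → F) :
    locP p (WfP K e a) = Wh (locP p (FtP K e a)) := by
  have h0 : ∀ f g : F⟦X⟧⟦X⟧, Wh (f + g) = Wh f + Wh g := fun f g => map_add _ f g
  have h1 : ∀ (s : Finset ℕ) (f : ℕ → F⟦X⟧⟦X⟧), Wh (∑ t ∈ s, f t) = ∑ t ∈ s, Wh (f t) :=
    fun s f => map_sum _ f s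
  unfold FtP WfP
  simp only [map_sum, h1]
  refine Finset.sum_congr rfl fun i' _ => Finset.sum_congr rfl fun j' _ => ?_
  have h2 : ∀ (P : F[X][X]), Wh (locP p P) = locP p (derivative P) := by
    intro P
    rw [locP_apply, locP_apply]
    have h3 : Wh ((locA p P : F⟦X⟧[X]) : F⟦X⟧⟦X⟧) =
        ((derivative (locA p P) : F⟦X⟧[X]) : F⟦X⟧⟦X⟧) := PowerSeries.derivative_coe _
    rw [h3]
    congr 1
    unfold locA
    rw [RingHom.comp_apply, RingHom.comp_apply, coe_compRingHom_apply, coe_compRingHom_apply,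
      coe_mapRingHom, derivative_map, derivative_comp]
    simp
  rw [h2, derivative_monomial]
  congr 2
  rw [← C_eq_natCast, monomial_mul_C, mul_comm]

theorem D2_sum {ι : Type*} (D : Derivation ℤ F F) (s : Finset ι) (f : ι → F⟦X⟧⟦X⟧) :
    D2 D (∑ t ∈ s, f t) = ∑ t ∈ s, D2 D (f t) := map_sum _ _ _

theorem locP_D (p : F) (K e : ℕ) (a : ℕ → ℕ → F) (D : Derivation ℤ F F) :
    locP p (FtP K e (fun i j => D (a i j))) =
      D2 D (locP p (FtP K e a)) -
        PowerSeries.C (PowerSeries.C (D p)) * Wh (locP p (FtP K e a)) := by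
  rw [← locP_WfP, eq_sub_iff_add_eq]
  unfold FtP WfP
  simp only [map_sum, Finset.mul_sum, ← Finset.sum_add_distrib]
  refine Finset.sum_congr rfl fun i' _ => Finset.sum_congr rfl fun j' _ => ?_
  rw [locP_mono, locP_mono, locP_mono]
  rw [D2_isDer D, D2_C, (D2_isDer D).pow, map_add, D2_X, D2_C, D1_C, D1_isDer D, D1_C,
    (D1_isDer D).pow, D1_X]
  simp only [mul_zero, zero_add, map_mul, map_natCast, map_pow]
  ring

end H37.LM
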