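import Pool.Agent.H37.LM.Alg0

/-!
# Weierstrass preparation and division over `F⟦X⟧`   [H37 LM Wei]

* `instAdicPS`: `F⟦X⟧` is a local ring with maximal ideal `span {X}`
  (`PowerSeries.maximalIdeal_eq_span_X`); it is Hausdorff (`X ^ n ∣ f` for all `n` implies `f = 0`,
  `PowerSeries.X_pow_dvd_iff`) and precomplete: a Cauchy sequence `f n` has the limit
  `mk fun n => coeff n (f (n + 1))`.
* `wei_prep`, `wei_div`, `wei_zero`: `PowerSeries.exists_isWeierstrassFactorization`,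
  `PowerSeries.exists_isWeierstrassDivision`, `PowerSeries.IsWeierstrassDivision.eq_zero` (file
  `Mathlib/RingTheory/PowerSeries/WeierstrassPreparation.lean`); the residue field of `F⟦X⟧` is `F`
  via `constantCoeff`, so `cf g 0 j` (`j < n`) `= 0`, `cf g 0 n ≠ 0` say that the image of `g` over
  the residue field has order `n`.  `Dist P` is `P.IsDistinguishedAt (maximalIdeal F⟦X⟧)`.
* `lin_div`, `lin_zero`, `quad_div`, `quad_zero`: special cases with `P = X - C c`,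
  `P = (X - C c) ^ 2 - C κ` (a remainder of degree `< 2` is `C s0 + C s1 * X`, rewrite it as
  `C r0 + C r1 * (X - C c)`).
* `isUnit_iff_cf`: `PowerSeries.isUnit_iff_constantCoeff` twice.
-/

noncomputable section

open PowerSeries

namespace H37.LM

variable {F : Type*} [Field F]

/-- elements of the maximal ideal -/
theorem wei_mem_max (f : F⟦X⟧) : f ∈ IsLocalRing.maximalIdeal F⟦X⟧ ↔ constantCoeff f = 0 := by
  rw [maximalIdeal_eq_span_X, Ideal.mem_span_singleton, X_dvd_iff]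

theorem wei_smodEq (f g : F⟦X⟧) (n : ℕ) :
    f ≡ g [SMOD (IsLocalRing.maximalIdeal F⟦X⟧ ^ n • ⊤ : Submodule F⟦X⟧ F⟦X⟧)] ↔
      X ^ n ∣ f - g := by
  rw [SModEq.sub_mem, smul_eq_mul, Ideal.mul_top, maximalIdeal_eq_span_X,
    Ideal.span_singleton_pow, Ideal.mem_span_singleton]

instance instAdicPS : IsAdicComplete (IsLocalRing.maximalIdeal F⟦X⟧) F⟦X⟧ where
  haus' := by
    intro x hx
    ext n
    have h := (wei_smodEq x 0 (n + 1)).1 (hx (n + 1))
    rw [sub_zero, X_pow_dvd_iff] at h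
    rw [h n (Nat.lt_succ_self n), map_zero]
  prec' := by
    intro f hf
    refine ⟨PowerSeries.mk fun n => coeff n (f (n + 1)), fun n => ?_⟩
    rw [wei_smodEq, X_pow_dvd_iff]
    intro m hm
    rw [map_sub, coeff_mk]
    have h := (wei_smodEq (f (m + 1)) (f n) (m + 1)).1 (hf hm)
    rw [X_pow_dvd_iff] at h
    have h2 := h m (Nat.lt_succ_self m)
    rw [map_sub, sub_eq_zero] at h2
    rw [h2, sub_self]

theorem isUnit_iff_cf (g : F⟦X⟧⟦X⟧) : IsUnit g ↔ cf g 0 0 ≠ 0 := by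
  unfold cf
  rw [isUnit_iff_constantCoeff, isUnit_iff_constantCoeff, coeff_zero_eq_constantCoeff_apply,
    coeff_zero_eq_constantCoeff_apply, isUnit_iff_ne_zero]

theorem wei_cf_mem (g : F⟦X⟧⟦X⟧) (j : ℕ) :
    coeff j (g.map (Ideal.Quotient.mk (IsLocalRing.maximalIdeal F⟦X⟧))) = 0 ↔ cf g 0 j = 0 := by
  rw [coeff_map, Ideal.Quotient.eq_zero_iff_mem, wei_mem_max]
  unfold cf
  rw [coeff_zero_eq_constantCoeff_apply]

theorem wei_order (g : F⟦X⟧⟦X⟧) (n : ℕ) (h0 : ∀ j < n, cf g 0 j = 0) (hn : cf g 0 n ≠ 0) :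
    (g.map (Ideal.Quotient.mk (IsLocalRing.maximalIdeal F⟦X⟧))).order = n := by
  rw [order_eq_nat]
  exact ⟨fun h => hn ((wei_cf_mem g n).1 h), fun i hi => (wei_cf_mem g i).2 (h0 i hi)⟩

theorem wei_map_ne (g : F⟦X⟧⟦X⟧) (n : ℕ) (hn : cf g 0 n ≠ 0) :
    g.map (IsLocalRing.residue F⟦X⟧) ≠ 0 := by
  intro h
  have h1 := congrArg (coeff n) h
  rw [map_zero] at h1
  exact hn ((wei_cf_mem g n).1 h1)

theorem wei_dist (P : Polynomial F⟦X⟧) :
    Dist P ↔ P.IsDistinguishedAt (IsLocalRing.maximalIdeal F⟦X⟧) := by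
  constructor
  · rintro ⟨h1, h2⟩
    exact { monic := h1, mem := fun {n} hn => (wei_mem_max _).2 (h2 n hn) }
  · intro h
    exact ⟨h.monic, fun i hi => (wei_mem_max _).1 (h.mem hi)⟩

theorem wei_dist_order (P : Polynomial F⟦X⟧) (hP : Dist P) :
    ((P : F⟦X⟧⟦X⟧).map (Ideal.Quotient.mk (IsLocalRing.maximalIdeal F⟦X⟧))).order =
      P.natDegree := by
  apply wei_order
  · intro j hj
    unfold cf
    rw [Polynomial.coeff_coe, coeff_zero_eq_constantCoeff_apply, hP.2 j hj]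
  · unfold cf
    rw [Polynomial.coeff_coe, hP.1.coeff_natDegree, coeff_zero_one]
    exact one_ne_zero

theorem wei_dist_ne (P : Polynomial F⟦X⟧) (hP : Dist P) :
    (P : F⟦X⟧⟦X⟧).map (IsLocalRing.residue F⟦X⟧) ≠ 0 := by
  apply wei_map_ne _ P.natDegree
  unfold cf
  rw [Polynomial.coeff_coe, hP.1.coeff_natDegree, coeff_zero_one]
  exact one_ne_zero

theorem wei_prep (g : F⟦X⟧⟦X⟧) (n : ℕ) (h0 : ∀ j < n, cf g 0 j = 0) (hn : cf g 0 n ≠ 0) :
    ∃ (P : Polynomial F⟦X⟧) (u : F⟦X⟧⟦X⟧), Dist P ∧ P.natDegree = n ∧ IsUnit u ∧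
      g = (P : F⟦X⟧⟦X⟧) * u := by
  obtain ⟨P, u, h⟩ := exists_isWeierstrassFactorization (wei_map_ne g n hn)
  refine ⟨P, u, (wei_dist P).2 h.isDistinguishedAt, ?_, h.isUnit, h.eq_mul⟩
  rw [h.natDegree_eq_toNat_order_map_of_ne_top (IsLocalRing.maximalIdeal.isMaximal _).ne_top,
    wei_order g n h0 hn]
  rfl

theorem wei_div (P : Polynomial F⟦X⟧) (hP : Dist P) (g : F⟦X⟧⟦X⟧) :
    ∃ (q : F⟦X⟧⟦X⟧) (r : Polynomial F⟦X⟧), r.degree < P.degree ∧
      g = (P : F⟦X⟧⟦X⟧) * q + (r : F⟦X⟧⟦X⟧) := by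
  obtain ⟨q, r, h⟩ := exists_isWeierstrassDivision g (wei_dist_ne P hP)
  refine ⟨q, r, ?_, h.eq_mul_add⟩
  have h1 := h.degree_lt
  rw [wei_dist_order P hP] at h1
  rw [Polynomial.degree_eq_natDegree hP.1.ne_zero]
  exact h1

theorem wei_zero (P : Polynomial F⟦X⟧) (hP : Dist P) (q : F⟦X⟧⟦X⟧) (r : Polynomial F⟦X⟧)
    (hr : r.degree < P.degree) (h : (r : F⟦X⟧⟦X⟧) = (P : F⟦X⟧⟦X⟧) * q) : r = 0 := by
  have h1 : IsWeierstrassDivision 0 (P : F⟦X⟧⟦X⟧) (-q) r := by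
    refine ⟨?_, ?_⟩
    · rw [wei_dist_order P hP]
      rw [Polynomial.degree_eq_natDegree hP.1.ne_zero] at hr
      exact hr
    · rw [h]
      ring
  exact (IsWeierstrassDivision.eq_zero (wei_dist_ne P hP) h1).2

theorem wei_lin_dist (c : F⟦X⟧) (hc : constantCoeff c = 0) :
    Dist (Polynomial.X - Polynomial.C c) := by
  refine ⟨Polynomial.monic_X_sub_C c, fun i hi => ?_⟩
  rw [Polynomial.natDegree_X_sub_C, Nat.lt_one_iff] at hi
  subst hi
  simp [hc]

theorem lin_div (c : F⟦X⟧) (hc : constantCoeff c = 0) (g : F⟦X⟧⟦X⟧) :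
    ∃ (q : F⟦X⟧⟦X⟧) (r0 : F⟦X⟧), g = C r0 + (X - C c) * q := by
  obtain ⟨q, r, hr, h⟩ := wei_div _ (wei_lin_dist c hc) g
  rw [Polynomial.degree_X_sub_C] at hr
  have h1 : r = Polynomial.C (r.coeff 0) := Polynomial.eq_C_of_degree_le_zero
    (Nat.WithBot.lt_one_iff_le_zero.1 hr)
  refine ⟨q, r.coeff 0, ?_⟩
  rw [h]
  conv_lhs => rw [h1]
  simp only [Polynomial.coe_sub, Polynomial.coe_X, Polynomial.coe_C]
  ring

theorem lin_zero (c : F⟦X⟧) (hc : constantCoeff c = 0) (q : F⟦X⟧⟦X⟧) (r0 : F⟦X⟧)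
    (h : C r0 = (X - C c) * q) : r0 = 0 := by
  have h1 := wei_zero _ (wei_lin_dist c hc) q (Polynomial.C r0) (by
    rw [Polynomial.degree_X_sub_C]
    exact lt_of_le_of_lt Polynomial.degree_C_le (by norm_num)) (by
      simp only [Polynomial.coe_sub, Polynomial.coe_X, Polynomial.coe_C]
      exact h)
  exact Polynomial.C_eq_zero.1 h1

/-- the quadratic polynomial -/
def weiQ (c κ : F⟦X⟧) : Polynomial F⟦X⟧ :=
  Polynomial.C 1 * Polynomial.X ^ 2 + Polynomial.C (-(2 * c)) * Polynomial.X +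
    Polynomial.C (c ^ 2 - κ)

theorem weiQ_dist (c κ : F⟦X⟧) (hc : constantCoeff c = 0) (hκ : constantCoeff κ = 0) :
    Dist (weiQ c κ) := by
  have hd : (weiQ c κ).natDegree = 2 := Polynomial.natDegree_quadratic one_ne_zero
  refine ⟨?_, fun i hi => ?_⟩
  · exact Polynomial.leadingCoeff_quadratic one_ne_zero
  · rw [hd] at hi
    unfold weiQ
    have hb : constantCoeff (-(2 * c)) = 0 := by
      rw [map_neg, map_mul, hc, mul_zero, neg_zero]
    have hd : constantCoeff (c ^ 2 - κ) = 0 := by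
      rw [map_sub, map_pow, hc, hκ]
      simp
    generalize -(2 * c) = b at hb ⊢
    generalize c ^ 2 - κ = d at hd ⊢
    interval_cases i
    · simp [hd]
    · simp [hb, Polynomial.coeff_C]

theorem weiQ_degree (c κ : F⟦X⟧) : (weiQ c κ).degree = 2 :=
  Polynomial.degree_quadratic one_ne_zero

theorem weiQ_coe (c κ : F⟦X⟧) :
    ((weiQ c κ : Polynomial F⟦X⟧) : F⟦X⟧⟦X⟧) = (X - C c) ^ 2 - C κ := by
  unfold weiQ
  simp only [Polynomial.coe_add, Polynomial.coe_mul, Polynomial.coe_C, Polynomial.coe_X,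
    Polynomial.coe_pow]
  simp only [map_sub, map_neg, map_mul, map_pow, map_one, map_ofNat]
  ring

theorem quad_div (c κ : F⟦X⟧) (hc : constantCoeff c = 0) (hκ : constantCoeff κ = 0)
    (g : F⟦X⟧⟦X⟧) :
    ∃ (q : F⟦X⟧⟦X⟧) (r0 r1 : F⟦X⟧),
      g = C r0 + C r1 * (X - C c) + ((X - C c) ^ 2 - C κ) * q := by
  obtain ⟨q, r, hr, h⟩ := wei_div _ (weiQ_dist c κ hc hκ) g
  rw [weiQ_degree] at hr
  have hr' : r.natDegree ≤ 1 := by
    by_cases hr0 : r = 0
    · rw [hr0]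
      simp
    · rw [Polynomial.degree_eq_natDegree hr0] at hr
      have : r.natDegree < 2 := by exact_mod_cast hr
      omega
  obtain ⟨a, b, hab⟩ := Polynomial.exists_eq_X_add_C_of_natDegree_le_one hr'
  refine ⟨q, b + a * c, a, ?_⟩
  rw [h, weiQ_coe, hab]
  simp only [Polynomial.coe_add, Polynomial.coe_mul, Polynomial.coe_C, Polynomial.coe_X, map_add,
    map_mul]
  ring

theorem quad_zero (c κ : F⟦X⟧) (hc : constantCoeff c = 0) (hκ : constantCoeff κ = 0)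
    (q : F⟦X⟧⟦X⟧) (r0 r1 : F⟦X⟧)
    (h : C r0 + C r1 * (X - C c) = ((X - C c) ^ 2 - C κ) * q) : r0 = 0 ∧ r1 = 0 := by
  have h1 := wei_zero _ (weiQ_dist c κ hc hκ) q
    (Polynomial.C r1 * Polynomial.X + Polynomial.C (r0 - r1 * c)) (by
      rw [weiQ_degree]
      exact lt_of_le_of_lt Polynomial.degree_linear_le (by norm_num)) (by
      rw [weiQ_coe, ← h]
      simp only [Polynomial.coe_add, Polynomial.coe_mul, Polynomial.coe_C, Polynomial.coe_X]
      simp only [map_sub, map_mul]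
      ring)
  have h2 := congrArg (fun p => Polynomial.coeff p 1) h1
  have h3 := congrArg (fun p => Polynomial.coeff p 0) h1
  simp at h2 h3
  refine ⟨?_, h2⟩
  rw [h2, zero_mul, sub_zero] at h3
  exact h3

end H37.LM
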