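import Pool.Agent.H37.LM.PolyGcd
import Pool.Agent.H37.LM.Recen
import Pool.Agent.H37.LM.Wei

/-!
# Condition (G3) locally   [H37 LM GThree]

Proof.  Let `P ∈ F⟦X⟧[X]` be distinguished of positive degree, dividing `Qh e f` and `Wh f` in
`F⟦X⟧⟦X⟧`, `f = locP p (FtP K e a)`.
1. `Qh e f = locP p (QfP K e a)`, `Wh f = locP p (WfP K e a)` (`locP_QfP`, `locP_WfP`) come from the
   polynomials `locA p (QfP ..)`, `locA p (WfP ..) ∈ F⟦X⟧[X]`; dividing them by the monic `P`
   (`Polynomial.modByMonic`) the remainder is zero by `wei_zero`: so `P` divides them in `F⟦X⟧[X]`.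
2. Let `Ω` be an algebraic closure of the fraction field of `F⟦X⟧`, `z ∈ Ω` a root of `P`, and
   `φ : F[X][X] →+* Ω`, inner variable `x ↦ x` (i.e. via `F[X] → F⟦X⟧ → Ω`), outer variable
   `y ↦ x * (p + z)`.  `φ` is injective on `F[X]`.  With `w = p + z`, the identities
   `x * h_y (x, x w) = x ^ e * W (w, x)`, `x * h_x (x, x w) + x w * h_y (x, x w) = x ^ e * Q (w, x)`
   (as in `evX_evY_chart`; they use `low`) and step 1 give `φ (hyP K a) = 0`, `φ (hxP K a) = 0`.
3. `poly_gcd`: a common divisor `P' ≠ 0` with `φ P' = 0` (if `hxP = hyP = 0` take `P' = X`; then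
   `g3` is violated directly, as `P'.evalEval 0 0 = 0`).  By `g3`, `c := P'.evalEval 0 0 ≠ 0`.  But
   `P' - C (C c)` is in the ideal generated by the two variables, so `0 = φ P' = c + x * s` with
   `s` in the subring generated by `F⟦X⟧` and `z`, hence integral over `F⟦X⟧` (`z` is a root of the monic
   `P`).  Then `t = - s / c` is integral over `F⟦X⟧` and `x * t = 1`; multiplying an equation
   `t ^ n + b_{n-1} t ^ (n-1) + ... = 0` by `x ^ n` gives `1 + x * (..) = 0` in `F⟦X⟧`: contradiction.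
-/

noncomputable section

open Polynomial

namespace H37.LM

variable {F : Type*} [Field F]

open scoped PowerSeries

theorem gth_dvd_of_coe {P G : F⟦X⟧[X]} (hP : Dist P) (h : (P : F⟦X⟧⟦X⟧) ∣ (G : F⟦X⟧⟦X⟧)) :
    P ∣ G := by
  obtain ⟨q, hq⟩ := h
  rw [← modByMonic_eq_zero_iff_dvd hP.1]
  refine wei_zero P hP (q - ((G /ₘ P : F⟦X⟧[X]) : F⟦X⟧⟦X⟧)) _ (degree_modByMonic_lt G hP.1) ?_
  have h1 := modByMonic_add_div G P
  have h2 := congrArg (fun H : F⟦X⟧[X] => (H : F⟦X⟧⟦X⟧)) h1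
  simp only [coe_add, coe_mul] at h2
  rw [hq] at h2
  rw [mul_sub, ← h2]
  ring

section

variable {Ω : Type*} [Field Ω] [Algebra F⟦X⟧ Ω]

/-- the constants in `Ω` -/
def gthC (F : Type*) [Field F] (Ω : Type*) [Field Ω] [Algebra F⟦X⟧ Ω] : F →+* Ω :=
  (algebraMap F⟦X⟧ Ω).comp (PowerSeries.C (R := F))

/-- `x` in `Ω` -/
def gthX (F : Type*) [Field F] (Ω : Type*) [Field Ω] [Algebra F⟦X⟧ Ω] : Ω :=
  algebraMap F⟦X⟧ Ω PowerSeries.X

/-- evaluation of `F[X][X]`: inner variable `x`, outer variable `w` -/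
def gthE (F : Type*) [Field F] {Ω : Type*} [Field Ω] [Algebra F⟦X⟧ Ω] (w : Ω) : F[X][X] →+* Ω :=
  eval₂RingHom ((algebraMap F⟦X⟧ Ω).comp (coeToPowerSeries.ringHom (R := F))) w

theorem gthE_monomial (w : Ω) (j k : ℕ) (c : F) :
    gthE F w (monomial j (monomial k c)) = gthC F Ω c * gthX F Ω ^ k * w ^ j := by
  unfold gthE gthC gthX
  rw [coe_eval₂RingHom, eval₂_monomial, RingHom.comp_apply, coeToPowerSeries.ringHom_apply,
    RingHom.comp_apply, ← map_pow, ← map_mul]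
  congr 2
  rw [coe_monomial, PowerSeries.monomial_eq_mk, PowerSeries.X_pow_eq]
  ext n
  rw [PowerSeries.coeff_mk, PowerSeries.coeff_C_mul, PowerSeries.coeff_monomial]
  split_ifs <;> simp

theorem gthE_C_const (w : Ω) (r : F[X]) :
    gthE F w (Polynomial.C r) = algebraMap F⟦X⟧ Ω (r : F⟦X⟧) := by
  unfold gthE
  rw [coe_eval₂RingHom, eval₂_C]
  rfl

theorem gthE_X (w : Ω) : gthE F w (X : F[X][X]) = w := by
  unfold gthE
  rw [coe_eval₂RingHom, eval₂_X]

/-- evaluation of the recentred polynomial -/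
theorem gthE_locA (p : F) (z : Ω) (P : F[X][X]) :
    eval₂ (algebraMap F⟦X⟧ Ω) z (locA p P) = gthE F (z + gthC F Ω p) P := by
  have h : (eval₂RingHom (algebraMap F⟦X⟧ Ω) z).comp (locA p) = gthE F (z + gthC F Ω p) := by
    refine Polynomial.ringHom_ext (fun r => ?_) ?_
    · rw [gthE_C_const, RingHom.comp_apply]
      unfold locA
      rw [RingHom.comp_apply, coe_compRingHom_apply, C_comp, coe_mapRingHom, map_C,
        coe_eval₂RingHom, eval₂_C]
      rfl
    · rw [gthE_X, RingHom.comp_apply]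
      unfold locA
      rw [RingHom.comp_apply, coe_compRingHom_apply, X_comp, coe_mapRingHom, Polynomial.map_add,
        map_X, map_C, coe_eval₂RingHom, eval₂_add, eval₂_X, eval₂_C]
      unfold gthC
      rw [RingHom.comp_apply, coeToPowerSeries.ringHom_apply, coe_C]
  rw [← h]
  rfl

/-- `x * h_y (x, x w) = x ^ e * W (w, x)` -/
theorem gth_hy (K e : ℕ) (a : ℕ → ℕ → F) (low : ∀ i j, i + j < e → a i j = 0) (w : Ω) :
    gthX F Ω * gthE F (gthX F Ω * w) (hyP K a) = gthX F Ω ^ e * gthE F w (WfP K e a) := by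
  unfold hyP WfP
  simp only [map_sum, Finset.mul_sum, gthE_monomial]
  refine Finset.sum_congr rfl fun i _ => Finset.sum_congr rfl fun j _ => ?_
  by_cases h : i + j < e
  · simp [low i j h]
  · rcases Nat.eq_zero_or_pos j with h0 | h0
    · subst h0
      simp
    · have e1 : gthX F Ω * (gthX F Ω ^ i * gthX F Ω ^ (j - 1)) =
          gthX F Ω ^ e * gthX F Ω ^ (i + j - e) := by
        rw [← pow_add, ← pow_add, ← pow_succ']
        congr 1
        omega
      rw [mul_pow]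
      linear_combination (gthC F Ω ((j : F) * a i j) * w ^ (j - 1)) * e1

/-- `x * h_x (x, x w) + x w * h_y (x, x w) = x ^ e * Q (w, x)` -/
theorem gth_hx (K e : ℕ) (a : ℕ → ℕ → F) (low : ∀ i j, i + j < e → a i j = 0) (w : Ω) :
    gthX F Ω * gthE F (gthX F Ω * w) (hxP K a) +
      gthX F Ω * w * gthE F (gthX F Ω * w) (hyP K a) = gthX F Ω ^ e * gthE F w (QfP K e a) := by
  unfold hyP QfP hxP
  simp only [map_sum, Finset.mul_sum, gthE_monomial, ← Finset.sum_add_distrib]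
  refine Finset.sum_congr rfl fun i _ => Finset.sum_congr rfl fun j _ => ?_
  by_cases h : i + j < e
  · simp [low i j h]
  · have e1 : gthX F Ω ^ i * gthX F Ω ^ j = gthX F Ω ^ e * gthX F Ω ^ (i + j - e) := by
      rw [← pow_add, ← pow_add]
      congr 1
      omega
    have e2 : gthC F Ω (i : F) * (gthX F Ω * gthX F Ω ^ (i - 1)) =
        gthC F Ω (i : F) * gthX F Ω ^ i := by
      rcases Nat.eq_zero_or_pos i with h0 | h0
      · simp [h0]
      · rw [← pow_succ']
        congr 2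
        omega
    have e3 : gthC F Ω (j : F) * (gthX F Ω * w * (gthX F Ω * w) ^ (j - 1)) =
        gthC F Ω (j : F) * (gthX F Ω * w) ^ j := by
      rcases Nat.eq_zero_or_pos j with h0 | h0
      · simp [h0]
      · rw [← pow_succ']
        congr 2
        omega
    simp only [map_mul, map_add]
    rw [mul_pow] at e3
    linear_combination (gthC F Ω (a i j) * (gthX F Ω * w) ^ j) * e2 +
      (gthC F Ω (a i j) * gthX F Ω ^ i) * e3 +
      (gthC F Ω (a i j) * (gthC F Ω (i : F) + gthC F Ω (j : F)) * w ^ j) * e1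

theorem gth_int_poly (w : Ω) (hw : IsIntegral F⟦X⟧ w) (P : F[X][X]) :
    IsIntegral F⟦X⟧ (gthE F w P) := by
  unfold gthE
  rw [coe_eval₂RingHom, eval₂_eq_sum_range]
  refine IsIntegral.sum _ fun i _ => ?_
  exact (isIntegral_algebraMap (x := ((P.coeff i : F[X]) : F⟦X⟧))).mul (hw.pow i)

/-- `φ P = P (0, 0) + x * s`, `s` integral -/
theorem gth_split (w : Ω) (hw : IsIntegral F⟦X⟧ w) (P : F[X][X]) :
    ∃ s : Ω, IsIntegral F⟦X⟧ s ∧
      gthE F (gthX F Ω * w) P = gthC F Ω (P.evalEval 0 0) + gthX F Ω * s := by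
  have hxw : IsIntegral F⟦X⟧ (gthX F Ω * w) := isIntegral_algebraMap.mul hw
  refine ⟨algebraMap F⟦X⟧ Ω ((P.coeff 0).divX : F[X]) +
    w * gthE F (gthX F Ω * w) P.divX, isIntegral_algebraMap.add
      (hw.mul (gth_int_poly _ hxw _)), ?_⟩
  have h1 : gthE F (gthX F Ω * w) P = gthX F Ω * w * gthE F (gthX F Ω * w) P.divX +
      algebraMap F⟦X⟧ Ω ((P.coeff 0 : F[X]) : F⟦X⟧) := by
    conv_lhs => rw [← divX_mul_X_add P]
    rw [map_add, map_mul, gthE_X, gthE_C_const]
    ring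
  have h2 : algebraMap F⟦X⟧ Ω ((P.coeff 0 : F[X]) : F⟦X⟧) =
      gthX F Ω * algebraMap F⟦X⟧ Ω (((P.coeff 0).divX : F[X]) : F⟦X⟧) +
      gthC F Ω ((P.coeff 0).coeff 0) := by
    conv_lhs => rw [← divX_mul_X_add (P.coeff 0)]
    rw [coe_add, coe_mul, coe_X, coe_C, map_add, map_mul]
    unfold gthC gthX
    rw [RingHom.comp_apply]
    ring
  have h3 : P.evalEval 0 0 = (P.coeff 0).coeff 0 := by
    rw [evalEval, C_0, ← coeff_zero_eq_eval_zero, ← coeff_zero_eq_eval_zero]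
  rw [h1, h2, h3]
  ring

end

theorem g3loc_of_good (K e : ℕ) (a : ℕ → ℕ → F) (low : ∀ i j, i + j < e → a i j = 0)
    (he : 1 ≤ e)
    (g3 : ∀ P Q1 Q2 : F[X][X], hxP K a = P * Q1 → hyP K a = P * Q2 → P ≠ 0 →
      P.evalEval 0 0 ≠ 0) (p : F) :
    G3loc e (locP p (FtP K e a)) := by
  intro P hP hdeg hdvd
  obtain ⟨hQ, hW⟩ := hdvd
  rw [← locP_QfP p K e a low, locP_apply] at hQ
  rw [← locP_WfP p K e a, locP_apply] at hW
  have hQ' := gth_dvd_of_coe hP hQ
  have hW' := gth_dvd_of_coe hP hW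
  -- a root of `P`
  let Ω := AlgebraicClosure (FractionRing F⟦X⟧)
  have hinjΩ : Function.Injective (algebraMap F⟦X⟧ Ω) := by
    rw [IsScalarTower.algebraMap_eq F⟦X⟧ (FractionRing F⟦X⟧) Ω]
    exact (algebraMap (FractionRing F⟦X⟧) Ω).injective.comp (IsFractionRing.injective _ _)
  obtain ⟨z, hz⟩ : ∃ z : Ω, eval₂ (algebraMap F⟦X⟧ Ω) z P = 0 := by
    refine IsAlgClosed.exists_eval₂_eq_zero_of_injective _ hinjΩ P ?_
    rw [degree_eq_natDegree hP.1.ne_zero]
    exact_mod_cast hdeg.ne'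
  have hzint : IsIntegral F⟦X⟧ z := ⟨P, hP.1, hz⟩
  set w : Ω := z + gthC F Ω p with hw
  have hwint : IsIntegral F⟦X⟧ w := hzint.add isIntegral_algebraMap
  have hx : gthX F Ω ≠ 0 := by
    intro h
    have : (PowerSeries.X : F⟦X⟧) = 0 := hinjΩ (by rw [map_zero]; exact h)
    exact PowerSeries.X_ne_zero this
  have hQ0 : gthE F w (QfP K e a) = 0 := by
    rw [hw, ← gthE_locA]
    obtain ⟨q, hq⟩ := hQ'
    rw [hq, eval₂_mul, hz, zero_mul]
  have hW0 : gthE F w (WfP K e a) = 0 := by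
    rw [hw, ← gthE_locA]
    obtain ⟨q, hq⟩ := hW'
    rw [hq, eval₂_mul, hz, zero_mul]
  have hy0 : gthE F (gthX F Ω * w) (hyP K a) = 0 := by
    have h := gth_hy K e a low w
    rw [hW0, mul_zero] at h
    exact (mul_eq_zero.1 h).resolve_left hx
  have hx0 : gthE F (gthX F Ω * w) (hxP K a) = 0 := by
    have h := gth_hx K e a low w
    rw [hQ0, hy0, mul_zero, mul_zero, add_zero] at h
    exact (mul_eq_zero.1 h).resolve_left hx
  by_cases hne : hxP K a ≠ 0 ∨ hyP K a ≠ 0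
  · obtain ⟨P', hP'0, ⟨Q1, hQ1⟩, ⟨Q2, hQ2⟩, hφ⟩ := poly_gcd (gthE F (gthX F Ω * w)) (by
      intro r s hrs
      rw [RingHom.comp_apply, RingHom.comp_apply, gthE_C_const, gthE_C_const] at hrs
      exact Polynomial.coe_injective F (hinjΩ hrs)) (hxP K a) (hyP K a) hx0 hy0 hne
    have hc := g3 P' Q1 Q2 hQ1 hQ2 hP'0
    obtain ⟨s, hs, hsplit⟩ := gth_split w hwint P'
    rw [hφ] at hsplit
    set c := P'.evalEval 0 0 with hc'
    -- `x⁻¹` is integral
    have hinv : (gthX F Ω)⁻¹ = - s * gthC F Ω c⁻¹ := by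
      have hc2 : gthC F Ω c ≠ 0 := by
        rw [Ne, map_eq_zero]
        exact hc
      have hc3 : gthC F Ω c = -(gthX F Ω * s) := by linear_combination -hsplit
      rw [map_inv₀, eq_mul_inv_iff_mul_eq₀ hc2, hc3, mul_neg, ← mul_assoc, inv_mul_cancel₀ hx,
        one_mul]
    have hint : IsIntegral F⟦X⟧ (gthX F Ω)⁻¹ := by
      rw [hinv]
      exact hs.neg.mul isIntegral_algebraMap
    have hfr : (gthX F Ω)⁻¹ = algebraMap (FractionRing F⟦X⟧) Ω
        (algebraMap F⟦X⟧ (FractionRing F⟦X⟧) PowerSeries.X)⁻¹ := by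
      rw [map_inv₀, ← IsScalarTower.algebraMap_apply]
      rfl
    rw [hfr, isIntegral_algebraMap_iff (algebraMap (FractionRing F⟦X⟧) Ω).injective,
      IsIntegrallyClosed.isIntegral_iff] at hint
    obtain ⟨y, hy⟩ := hint
    have hX0 : algebraMap F⟦X⟧ (FractionRing F⟦X⟧) PowerSeries.X ≠ 0 := by
      intro h
      have : (PowerSeries.X : F⟦X⟧) = 0 :=
        IsFractionRing.injective F⟦X⟧ (FractionRing F⟦X⟧) (by rw [map_zero]; exact h)
      exact PowerSeries.X_ne_zero this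
    have hxy : (PowerSeries.X : F⟦X⟧) * y = 1 := by
      apply IsFractionRing.injective F⟦X⟧ (FractionRing F⟦X⟧)
      rw [map_mul, hy, map_one, mul_inv_cancel₀ hX0]
    have := congrArg PowerSeries.constantCoeff hxy
    rw [map_mul, PowerSeries.constantCoeff_X, zero_mul, map_one] at this
    exact zero_ne_one this
  · rw [not_or, not_ne_iff, not_ne_iff] at hne
    refine g3 X 0 0 ?_ ?_ X_ne_zero ?_
    · rw [hne.1, mul_zero]
    · rw [hne.2, mul_zero]
    · rw [evalEval, eval_X, eval_C]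

end H37.LM
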