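import Pool.Agent.H37.LM.Recen

/-!
# Condition (G2) locally   [H37 LM GTwo]

Proof.  Let `f = locP p (FtP K e a)`, `G = locA p (FtP K e a) ∈ F⟦X⟧[X]`, so `f`, `Wh f`, `Wh (Wh f)`
are the power series of `G`, `G'`, `G''` (`PowerSeries.derivative_coe`).
1. Lemma: if `(G : F⟦X⟧⟦X⟧) ∈ span {X - C η, C (X ^ n)}`, `constantCoeff η = 0`, then
   `X ^ n ∣ G.eval η` in `F⟦X⟧`.  (`G = C (G.eval η) + (X - C η) * _`, so
   `C v = (X - C η) * s + C (X ^ n) * t` with `v = G.eval η`; comparing coefficients of `w ^ j`: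
   `v = - η s_0 + X ^ n t_0`, `s_{j-1} = η s_j - X ^ n t_j`; so modulo `X ^ n`, `v ≡ - η ^ (j+1) s_j`.)
2. Suppose `G2loc f` fails for `η`.  Write `η = c1 X + c2 X ^ 2 + X ^ 3 η'`, `η0 = c1 X + c2 X ^ 2`.  By
   Taylor's formula (`Polynomial.taylor`, or `Polynomial.eval_add_of_sq..`, or induction),
   `X ^ 9 ∣ G.eval η0`, `X ^ 6 ∣ G'.eval η0`, `X ^ 3 ∣ G''.eval η0`
   (`G (η - δ) = G η - δ G' η + δ ^ 2 G'' η / 2 + δ ^ 3 (..)` with `X ^ 3 ∣ δ`; in characteristic `0`,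
   or use Hasse derivatives; note that `G'' η / 2` is `X ^ 3 *` something as well).
3. With `c = C p * X + C c1 * X ^ 2 + C c2 * X ^ 3 = X * (C p + η0)` (as power series),
   `h (x, c) = x ^ e * G.eval η0`, `x * h_y (x, c) = x ^ e * G'.eval η0`,
   `x ^ 2 * h_yy (x, c) = x ^ e * G''.eval η0` (as in `ev_chart`, using `low`).  As `3 ≤ e`, this gives
   `X ^ 12 ∣ h (x, c)`, `X ^ 8 ∣ h_y (x, c)`, `X ^ 4 ∣ h_yy (x, c)`: as power series, hence as
   polynomials.  This contradicts `g2`.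
-/

noncomputable section

open Polynomial

namespace H37.LM

variable {F : Type*} [Field F] [CharZero F]

open scoped PowerSeries

section gtw


omit [CharZero F] in
/-- step 1: membership in `(X - C η, C (X ^ n))` -/
theorem gtw_eval (G : F⟦X⟧[X]) (η : F⟦X⟧) (hη : PowerSeries.constantCoeff η = 0) (n : ℕ)
    (h : (G : F⟦X⟧⟦X⟧) ∈ Ideal.span {(PowerSeries.X : F⟦X⟧⟦X⟧) - PowerSeries.C η,
      PowerSeries.C (PowerSeries.X ^ n)}) : (PowerSeries.X : F⟦X⟧) ^ n ∣ G.eval η := by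
  obtain ⟨s, t, hst⟩ := Ideal.mem_span_pair.1 h
  obtain ⟨q, hq⟩ := X_sub_C_dvd_sub_C_eval (p := G) (a := η)
  have h1 : (PowerSeries.C (G.eval η) : F⟦X⟧⟦X⟧) =
      (s - (q : F⟦X⟧⟦X⟧)) * (PowerSeries.X - PowerSeries.C η) +
        t * PowerSeries.C (PowerSeries.X ^ n) := by
    have h2 := congrArg (fun H : F⟦X⟧[X] => (H : F⟦X⟧⟦X⟧)) hq
    simp only [coe_sub, coe_mul, coe_C, coe_X] at h2
    linear_combination -h2 - hst
  set v := G.eval η with hv
  set r := s - (q : F⟦X⟧⟦X⟧) with hr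
  have c0 : v = - η * PowerSeries.coeff 0 r + PowerSeries.X ^ n * PowerSeries.coeff 0 t := by
    have h2 := congrArg (PowerSeries.coeff 0) h1
    rw [map_add, mul_sub, map_sub, PowerSeries.coeff_zero_mul_X, PowerSeries.coeff_mul_C,
      PowerSeries.coeff_mul_C, PowerSeries.coeff_zero_C] at h2
    rw [h2]
    ring
  have cs : ∀ j, 0 = PowerSeries.coeff j r - η * PowerSeries.coeff (j + 1) r +
      PowerSeries.X ^ n * PowerSeries.coeff (j + 1) t := by
    intro j
    have h2 := congrArg (PowerSeries.coeff (j + 1)) h1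
    rw [map_add, mul_sub, map_sub, PowerSeries.coeff_succ_mul_X, PowerSeries.coeff_mul_C,
      PowerSeries.coeff_mul_C, PowerSeries.coeff_C, if_neg (Nat.succ_ne_zero j)] at h2
    rw [h2]
    ring
  have key : ∀ m, (PowerSeries.X : F⟦X⟧) ^ n ∣ v + η ^ (m + 1) * PowerSeries.coeff m r := by
    intro m
    induction m with
    | zero => exact ⟨PowerSeries.coeff 0 t, by linear_combination c0⟩
    | succ m ih =>
      obtain ⟨u, hu⟩ := ih
      exact ⟨u + η ^ (m + 1) * PowerSeries.coeff (m + 1) t, by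
        linear_combination hu + η ^ (m + 1) * cs m⟩
  have hX : (PowerSeries.X : F⟦X⟧) ∣ η := PowerSeries.X_dvd_iff.2 hη
  have h3 : (PowerSeries.X : F⟦X⟧) ^ n ∣ η ^ (n + 1) * PowerSeries.coeff n r :=
    ((pow_dvd_pow_of_dvd hX n).trans (pow_dvd_pow η (Nat.le_succ n))).mul_right _
  exact (dvd_add_left h3).1 (key n)

omit [CharZero F] in
/-- first order Taylor formula -/
theorem gtw_taylor1 (G : F⟦X⟧[X]) (η δ : F⟦X⟧) (hδ : (PowerSeries.X : F⟦X⟧) ^ 3 ∣ δ)
    (h0 : (PowerSeries.X : F⟦X⟧) ^ 6 ∣ G.eval η)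
    (h1 : (PowerSeries.X : F⟦X⟧) ^ 3 ∣ G.derivative.eval η) :
    (PowerSeries.X : F⟦X⟧) ^ 6 ∣ G.eval (η + δ) := by
  obtain ⟨k, hk⟩ := binomExpansion G η δ
  rw [hk]
  have e6 : (PowerSeries.X : F⟦X⟧) ^ 6 = PowerSeries.X ^ 3 * PowerSeries.X ^ 3 := by ring
  refine dvd_add (dvd_add h0 ?_) (Dvd.dvd.mul_left ?_ _)
  · rw [e6]
    exact mul_dvd_mul h1 hδ
  · rw [e6, pow_two]
    exact mul_dvd_mul hδ hδ

/-- second order Taylor formula -/
theorem gtw_taylor2 (G : F⟦X⟧[X]) (η δ : F⟦X⟧) (hδ : (PowerSeries.X : F⟦X⟧) ^ 3 ∣ δ)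
    (h0 : (PowerSeries.X : F⟦X⟧) ^ 9 ∣ G.eval η)
    (h1 : (PowerSeries.X : F⟦X⟧) ^ 6 ∣ G.derivative.eval η)
    (h2 : (PowerSeries.X : F⟦X⟧) ^ 3 ∣ G.derivative.derivative.eval η) :
    (PowerSeries.X : F⟦X⟧) ^ 9 ∣ G.eval (η + δ) := by
  have hT : G.eval (η + δ) = (taylor η G).eval δ := by
    rw [taylor_eval, add_comm]
  have e0 := taylor_coeff_zero η G
  have e1 := taylor_coeff_one η G
  have e2 := taylor_coeff η G 2
  set T := taylor η G with hT'
  have h2' : (PowerSeries.X : F⟦X⟧) ^ 3 ∣ T.coeff 2 := by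
    have h3 : (2 : ℕ) • (hasseDeriv 2 G) = G.derivative.derivative := by
      have h4 := congrFun (factorial_smul_hasseDeriv (R := F⟦X⟧) 2) G
      exact h4
    have h5 : (PowerSeries.C (2 : F) : F⟦X⟧) * T.coeff 2 = G.derivative.derivative.eval η := by
      rw [e2, ← h3, eval_smul, nsmul_eq_mul]
      congr 1
    have h6 : T.coeff 2 = PowerSeries.C (2 : F)⁻¹ * G.derivative.derivative.eval η := by
      rw [← h5, ← mul_assoc, ← map_mul, inv_mul_cancel₀ two_ne_zero, map_one, one_mul]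
    rw [h6]
    exact h2.mul_left _
  have hexp : T.eval δ = T.coeff 0 + δ * T.coeff 1 + δ ^ 2 * T.coeff 2 +
      δ ^ 3 * T.divX.divX.divX.eval δ := by
    have d0 := divX_mul_X_add T
    have d1 := divX_mul_X_add T.divX
    have d2 := divX_mul_X_add T.divX.divX
    have v0 := congrArg (eval δ) d0
    have v1 := congrArg (eval δ) d1
    have v2 := congrArg (eval δ) d2
    rw [eval_add, eval_mul, eval_X, eval_C] at v0 v1 v2
    rw [coeff_divX] at v1 v2
    rw [coeff_divX] at v2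
    linear_combination -v0 - δ * v1 - δ ^ 2 * v2
  rw [hT, hexp, e0, e1]
  have e9 : (PowerSeries.X : F⟦X⟧) ^ 9 = PowerSeries.X ^ 3 * PowerSeries.X ^ 6 := by ring
  have e6 : (PowerSeries.X : F⟦X⟧) ^ 6 = PowerSeries.X ^ 3 * PowerSeries.X ^ 3 := by ring
  refine dvd_add (dvd_add (dvd_add h0 ?_) ?_) ?_
  · rw [e9]
    exact mul_dvd_mul hδ h1
  · rw [e9, mul_comm (PowerSeries.X ^ 3 : F⟦X⟧), e6, pow_two]
    exact mul_dvd_mul (mul_dvd_mul hδ hδ) h2'
  · rw [e9, e6]
    refine Dvd.dvd.mul_right ?_ _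
    have : δ ^ 3 = δ * (δ * δ) := by ring
    rw [this]
    exact mul_dvd_mul hδ (mul_dvd_mul hδ hδ)

omit [CharZero F]

/-- evaluation of `F[X][X]` in `F⟦X⟧`: inner variable `x`, outer variable `w` -/
def gtwE (w : F⟦X⟧) : F[X][X] →+* F⟦X⟧ :=
  eval₂RingHom (coeToPowerSeries.ringHom (R := F)) w

theorem gtwE_monomial (w : F⟦X⟧) (j k : ℕ) (c : F) :
    gtwE w (monomial j (monomial k c)) = PowerSeries.C c * PowerSeries.X ^ k * w ^ j := by
  unfold gtwE
  rw [coe_eval₂RingHom, eval₂_monomial, coeToPowerSeries.ringHom_apply]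
  congr 1
  rw [coe_monomial, PowerSeries.monomial_eq_mk, PowerSeries.X_pow_eq]
  ext n
  rw [PowerSeries.coeff_mk, PowerSeries.coeff_C_mul, PowerSeries.coeff_monomial]
  split_ifs <;> simp

theorem gtwE_eval (c : F[X]) (P : F[X][X]) : gtwE (c : F⟦X⟧) P = ((P.eval c : F[X]) : F⟦X⟧) := by
  unfold gtwE
  rw [coe_eval₂RingHom]
  have h := hom_eval₂ P (RingHom.id F[X]) (coeToPowerSeries.ringHom (R := F)) c
  rw [RingHom.comp_id] at h
  exact h.symm

theorem gtwE_locA (p : F) (z : F⟦X⟧) (P : F[X][X]) :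
    (locA p P).eval z = gtwE (z + PowerSeries.C p) P := by
  have h : (evalRingHom z).comp (locA p) = gtwE (z + PowerSeries.C p) := by
    refine Polynomial.ringHom_ext (fun r => ?_) ?_
    · unfold gtwE
      rw [coe_eval₂RingHom, eval₂_C, RingHom.comp_apply]
      unfold locA
      rw [RingHom.comp_apply, coe_compRingHom_apply, C_comp, coe_mapRingHom, map_C,
        coe_evalRingHom, eval_C]
    · unfold gtwE
      rw [coe_eval₂RingHom, eval₂_X, RingHom.comp_apply]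
      unfold locA
      rw [RingHom.comp_apply, coe_compRingHom_apply, X_comp, coe_mapRingHom, Polynomial.map_add,
        map_X, map_C, coe_evalRingHom, eval_add, eval_X, eval_C,
        coeToPowerSeries.ringHom_apply, coe_C]
  rw [← h]
  rfl

theorem derivative_locA (p : F) (P : F[X][X]) :
    derivative (locA p P) = locA p (derivative P) := by
  unfold locA
  rw [RingHom.comp_apply, RingHom.comp_apply, coe_compRingHom_apply, coe_compRingHom_apply,
    coe_mapRingHom, derivative_map, derivative_comp]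
  simp

theorem derivative_mono2 (j k : ℕ) (c : F) :
    derivative (monomial j (monomial k c) : F[X][X]) = monomial (j - 1) (monomial k ((j : F) * c)) := by
  rw [derivative_monomial]
  congr 1
  rw [mul_comm, ← nsmul_eq_mul, ← map_nsmul, nsmul_eq_mul]

theorem gtw_h0 (K e : ℕ) (a : ℕ → ℕ → F) (low : ∀ i j, i + j < e → a i j = 0) (w : F⟦X⟧) :
    gtwE (PowerSeries.X * w) (hP K a) = PowerSeries.X ^ e * gtwE w (FtP K e a) := by
  unfold hP FtP
  simp only [map_sum, Finset.mul_sum, gtwE_monomial]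
  refine Finset.sum_congr rfl fun i _ => Finset.sum_congr rfl fun j _ => ?_
  by_cases h : i + j < e
  · simp [low i j h]
  · have e1 : (PowerSeries.X : F⟦X⟧) ^ i * PowerSeries.X ^ j =
        PowerSeries.X ^ e * PowerSeries.X ^ (i + j - e) := by
      rw [← pow_add, ← pow_add]
      congr 1
      omega
    rw [mul_pow]
    linear_combination (PowerSeries.C (a i j) * w ^ j) * e1

theorem gtw_h1 (K e : ℕ) (a : ℕ → ℕ → F) (low : ∀ i j, i + j < e → a i j = 0) (w : F⟦X⟧) :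
    PowerSeries.X * gtwE (PowerSeries.X * w) (hyP K a) =
      PowerSeries.X ^ e * gtwE w (derivative (FtP K e a)) := by
  unfold hyP FtP
  simp only [map_sum, Finset.mul_sum, derivative_mono2, gtwE_monomial]
  refine Finset.sum_congr rfl fun i _ => Finset.sum_congr rfl fun j _ => ?_
  by_cases h : i + j < e
  · simp [low i j h]
  · rcases Nat.eq_zero_or_pos j with h0 | h0
    · subst h0
      simp
    · have e1 : (PowerSeries.X : F⟦X⟧) * (PowerSeries.X ^ i * PowerSeries.X ^ (j - 1)) =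
          PowerSeries.X ^ e * PowerSeries.X ^ (i + j - e) := by
        rw [← pow_add, ← pow_add, ← pow_succ']
        congr 1
        omega
      rw [mul_pow]
      linear_combination (PowerSeries.C ((j : F) * a i j) * w ^ (j - 1)) * e1

theorem gtw_h2 (K e : ℕ) (a : ℕ → ℕ → F) (low : ∀ i j, i + j < e → a i j = 0) (w : F⟦X⟧) :
    PowerSeries.X ^ 2 * gtwE (PowerSeries.X * w) (hyyP K a) =
      PowerSeries.X ^ e * gtwE w (derivative (derivative (FtP K e a))) := by
  unfold hyyP FtP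
  simp only [map_sum, Finset.mul_sum, derivative_mono2, gtwE_monomial]
  refine Finset.sum_congr rfl fun i _ => Finset.sum_congr rfl fun j _ => ?_
  by_cases h : i + j < e
  · simp [low i j h]
  · rcases j with _ | _ | j
    · simp
    · simp
    · have e1 : (PowerSeries.X : F⟦X⟧) ^ 2 * (PowerSeries.X ^ i * PowerSeries.X ^ j) =
          PowerSeries.X ^ e * PowerSeries.X ^ (i + (j + 1 + 1) - e) := by
        rw [← pow_add, ← pow_add, ← pow_add]
        congr 1
        omega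
      have e2 : ((j + 1 + 1 : ℕ) : F) * (((j + 1 + 1 : ℕ) : F) - 1) * a i (j + 1 + 1) =
          ((j + 1 + 1 - 1 : ℕ) : F) * (((j + 1 + 1 : ℕ) : F) * a i (j + 1 + 1)) := by
        rw [Nat.add_sub_cancel]
        push_cast
        ring
      have e3 : j + 1 + 1 - 1 - 1 = j := by omega
      have e4 : j + 1 + 1 - 2 = j := by omega
      rw [e2, e3, e4, mul_pow]
      linear_combination (PowerSeries.C (((j + 1 + 1 - 1 : ℕ) : F) *
        (((j + 1 + 1 : ℕ) : F) * a i (j + 1 + 1))) * w ^ j) * e1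

theorem gtw_dvd_poly {n : ℕ} {P : F[X]} (h : (PowerSeries.X : F⟦X⟧) ^ n ∣ (P : F⟦X⟧)) :
    X ^ n ∣ P := by
  rw [X_pow_dvd_iff]
  intro d hd
  have := PowerSeries.X_pow_dvd_iff.1 h d hd
  rwa [coeff_coe] at this

end gtw

theorem g2loc_of_good (K e : ℕ) (a : ℕ → ℕ → F) (low : ∀ i j, i + j < e → a i j = 0)
    (he : 3 ≤ e) (p : F)
    (g2 : ∀ c1 c2 : F,
      ¬ ((X ^ 12 ∣ (hP K a).eval (C p * X + C c1 * X ^ 2 + C c2 * X ^ 3)) ∧
        (X ^ 8 ∣ (hyP K a).eval (C p * X + C c1 * X ^ 2 + C c2 * X ^ 3)) ∧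
        (X ^ 4 ∣ (hyyP K a).eval (C p * X + C c1 * X ^ 2 + C c2 * X ^ 3)))) :
    G2loc (locP p (FtP K e a)) := by
  intro η hη hmem
  obtain ⟨m0, m1, m2⟩ := hmem
  have e1 : Wh (locP p (FtP K e a)) = ((derivative (locA p (FtP K e a)) : F⟦X⟧[X]) : F⟦X⟧⟦X⟧) := by
    rw [locP_apply]
    exact PowerSeries.derivative_coe _
  have e2 : Wh (Wh (locP p (FtP K e a))) =
      ((derivative (derivative (locA p (FtP K e a))) : F⟦X⟧[X]) : F⟦X⟧⟦X⟧) := by
    rw [e1]
    exact PowerSeries.derivative_coe _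
  rw [e2] at m2
  rw [e1] at m1
  rw [locP_apply] at m0
  have v0 := gtw_eval _ η hη 9 m0
  have v1 := gtw_eval _ η hη 6 m1
  have v2 := gtw_eval _ η hη 3 m2
  set G := locA p (FtP K e a) with hG
  -- truncation of `η`
  set c1 := PowerSeries.coeff 1 η with hc1
  set c2 := PowerSeries.coeff 2 η with hc2
  set η0 : F⟦X⟧ := PowerSeries.C c1 * PowerSeries.X + PowerSeries.C c2 * PowerSeries.X ^ 2 with hη0
  have hδ : (PowerSeries.X : F⟦X⟧) ^ 3 ∣ η0 - η := by
    rw [PowerSeries.X_pow_dvd_iff]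
    intro m hm
    rw [hη0, map_sub, map_add, PowerSeries.coeff_C_mul, PowerSeries.coeff_C_mul,
      PowerSeries.coeff_X, PowerSeries.coeff_X_pow]
    interval_cases m
    · have : PowerSeries.coeff 0 η = 0 := by
        rw [PowerSeries.coeff_zero_eq_constantCoeff_apply, hη]
      simp [this]
    · simp [hc1]
    · simp [hc2]
  have hsum : η + (η0 - η) = η0 := by ring
  have w0 := gtw_taylor2 G η (η0 - η) hδ v0 v1 v2
  have w1 := gtw_taylor1 (derivative G) η (η0 - η) hδ v1 v2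
  rw [hsum] at w0 w1
  have w2 : (PowerSeries.X : F⟦X⟧) ^ 3 ∣ (derivative (derivative G)).eval η0 := by
    have h1 : (PowerSeries.X : F⟦X⟧) ^ 3 ∣ (derivative (derivative G)).eval η0 -
        (derivative (derivative G)).eval η := hδ.trans (sub_dvd_eval_sub _ _ _)
    have h2 := dvd_add h1 v2
    rwa [sub_add_cancel] at h2
  rw [hG, gtwE_locA] at w0
  rw [hG, derivative_locA, gtwE_locA] at w1
  rw [hG, derivative_locA, derivative_locA, gtwE_locA] at w2
  set w := η0 + PowerSeries.C p with hw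
  have hc : ((C p * X + C c1 * X ^ 2 + C c2 * X ^ 3 : F[X]) : F⟦X⟧) = PowerSeries.X * w := by
    rw [hw, hη0]
    simp only [coe_add, coe_mul, coe_C, coe_X, coe_pow]
    ring
  have t0 := gtw_h0 K e a low w
  have t1 := gtw_h1 K e a low w
  have t2 := gtw_h2 K e a low w
  rw [← hc, gtwE_eval] at t0 t1 t2
  have hXe : (PowerSeries.X : F⟦X⟧) ^ 3 ∣ PowerSeries.X ^ e := pow_dvd_pow _ he
  have hX : (PowerSeries.X : F⟦X⟧) ≠ 0 := PowerSeries.X_ne_zero
  refine g2 c1 c2 ⟨gtw_dvd_poly ?_, gtw_dvd_poly ?_, gtw_dvd_poly ?_⟩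
  · rw [t0, show (PowerSeries.X : F⟦X⟧) ^ 12 = PowerSeries.X ^ 3 * PowerSeries.X ^ 9 by ring]
    exact mul_dvd_mul hXe w0
  · rw [← mul_dvd_mul_iff_left hX, t1,
      show (PowerSeries.X : F⟦X⟧) * PowerSeries.X ^ 8 = PowerSeries.X ^ 3 * PowerSeries.X ^ 6 by
        ring]
    exact mul_dvd_mul hXe w1
  · rw [← mul_dvd_mul_iff_left (pow_ne_zero 2 hX), t2,
      show (PowerSeries.X : F⟦X⟧) ^ 2 * PowerSeries.X ^ 4 =
        PowerSeries.X ^ 3 * PowerSeries.X ^ 3 by ring]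
    exact mul_dvd_mul hXe w2

end H37.LM
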