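import Pool.Agent.H37.LM.Alg0

/-!
# From power series to polynomials   [H37 LM Krull]

Proof.  `R = F[X][X]` is Noetherian; `m = {P | P.evalEval 0 p = 0}` is the ideal generated by
`X - C (C p)` and `C X`.  Let `M = R ⧸ Ideal.span {Q, W}` (an `R`-module) and let `t ∈ M` be the
class of `T`.
1. For every `n`, `t ∈ m ^ n • ⊤`, i.e. `T ∈ span {Q, W} + m ^ n`: write
   `locP p T = α * locP p Q + β * locP p W`.  Truncate `α, β` to polynomials of degree `< n` in both
   variables (`PowerSeries.trunc` twice); they are images under `locP p` of polynomials `A, B`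
   (recentre back: `P ↦ P.comp (X - C (C p))`).  All coefficients `cf · i j`, `i + j < n`, of
   `locP p (T - A * Q - B * W)` vanish, so `T - A * Q - B * W ∈ m ^ n` (expand it in powers of
   `X - C (C p)` and `C X`).
2. `Ideal.mem_iInf_smul_pow_eq_bot_iff` (Krull, for the Noetherian ring `R` and the finitely
   generated module `M`): there is `r ∈ m` with `r • t = t`, i.e. `(1 - r) * T ∈ span {Q, W}`; take
   `U = 1 - r`, `U.evalEval 0 p = 1`.
-/

noncomputable section

open Polynomial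

namespace H37.LM

variable {F : Type*} [Field F]

open scoped PowerSeries

/-- coercion of polynomials in both variables -/
def kr2 (F : Type*) [Field F] : F[X][X] →+* F⟦X⟧⟦X⟧ :=
  (coeToPowerSeries.ringHom (R := F⟦X⟧)).comp
    (mapRingHom (coeToPowerSeries.ringHom (R := F)))

theorem kr2_cf (P : F[X][X]) (i j : ℕ) : cf (kr2 F P) i j = (P.coeff j).coeff i := by
  unfold cf kr2
  rw [RingHom.comp_apply, coeToPowerSeries.ringHom_apply, coeff_coe, coe_mapRingHom, coeff_map,
    coeToPowerSeries.ringHom_apply, coeff_coe]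

theorem kr_locP (p : F) (P : F[X][X]) : locP p P = kr2 F (P.comp (X + C (C p))) := rfl

theorem kr_comp1 (p : F) (P : F[X][X]) :
    (P.comp (X - C (C p))).comp (X + C (C p)) = P := by
  rw [comp_assoc]
  simp

theorem kr_comp2 (p : F) (P : F[X][X]) :
    (P.comp (X + C (C p))).comp (X - C (C p)) = P := by
  rw [comp_assoc]
  simp

/-- the ideal `(x ^ n, w ^ n)` -/
def krI (F : Type*) [Field F] (n : ℕ) : Ideal F⟦X⟧⟦X⟧ :=
  Ideal.span {PowerSeries.C (PowerSeries.X ^ n), PowerSeries.X ^ n}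

theorem krI_cf (n : ℕ) (z : F⟦X⟧⟦X⟧) (hz : z ∈ krI F n) (i j : ℕ) (hi : i < n) (hj : j < n) :
    cf z i j = 0 := by
  obtain ⟨a, b, hab⟩ := Ideal.mem_span_pair.1 hz
  rw [← hab]
  unfold cf
  rw [map_add, PowerSeries.coeff_mul_C, PowerSeries.coeff_mul_X_pow', if_neg (by omega), add_zero,
    PowerSeries.coeff_mul_X_pow', if_neg (by omega)]

/-- truncation -/
theorem kr_trunc (α : F⟦X⟧⟦X⟧) (n : ℕ) : ∃ A : F[X][X], α - kr2 F A ∈ krI F n := by
  refine ⟨∑ j ∈ Finset.range n, monomial j (PowerSeries.trunc n (PowerSeries.coeff j α)), ?_⟩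
  set A : F[X][X] := ∑ j ∈ Finset.range n, monomial j (PowerSeries.trunc n (PowerSeries.coeff j α))
    with hA
  have hAc : ∀ j, A.coeff j = if j < n then PowerSeries.trunc n (PowerSeries.coeff j α) else 0 := by
    intro j
    rw [hA, finsetSum_coeff]
    simp only [coeff_monomial]
    rw [Finset.sum_ite_eq']
    simp only [Finset.mem_range]
  -- all coefficients with `i, j < n` vanish
  have h0 : ∀ i j, i < n → j < n → cf (α - kr2 F A) i j = 0 := by
    intro i j hi hj
    have h1 : cf (α - kr2 F A) i j = cf α i j - cf (kr2 F A) i j := by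
      unfold cf
      rw [map_sub, map_sub]
    rw [h1, kr2_cf, hAc, if_pos hj, PowerSeries.coeff_trunc, if_pos hi]
    exact sub_self _
  generalize α - kr2 F A = z at h0
  have h2 : ∀ j, j < n → (PowerSeries.X : F⟦X⟧) ^ n ∣ PowerSeries.coeff j z := by
    intro j hj
    rw [PowerSeries.X_pow_dvd_iff]
    exact fun i hi => h0 i j hi hj
  -- `z = C (X ^ n) * z1 + X ^ n * z2`
  have h3 : ∀ j, ∃ y : F⟦X⟧, j < n → PowerSeries.coeff j z = PowerSeries.X ^ n * y := by
    intro j
    by_cases hj : j < n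
    · obtain ⟨y, hy⟩ := h2 j hj
      exact ⟨y, fun _ => hy⟩
    · exact ⟨0, fun h => absurd h hj⟩
  choose y hy using h3
  have h4 : (PowerSeries.X : F⟦X⟧⟦X⟧) ^ n ∣ z - PowerSeries.C (PowerSeries.X ^ n) *
      PowerSeries.mk y := by
    rw [PowerSeries.X_pow_dvd_iff]
    intro j hj
    rw [map_sub, PowerSeries.coeff_C_mul, PowerSeries.coeff_mk, hy j hj, sub_self]
  obtain ⟨z2, hz2⟩ := h4
  exact Ideal.mem_span_pair.2 ⟨PowerSeries.mk y, z2, by linear_combination -hz2⟩

/-- truncation, recentred -/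
theorem kr_trunc' (p : F) (α : F⟦X⟧⟦X⟧) (n : ℕ) : ∃ A : F[X][X], α - locP p A ∈ krI F n := by
  obtain ⟨A, hA⟩ := kr_trunc α n
  refine ⟨A.comp (X - C (C p)), ?_⟩
  rwa [kr_locP, kr_comp1]

/-- the maximal ideal at `(0, p)` -/
def krM (p : F) : Ideal F[X][X] := Ideal.span {X - C (C p), C X}

theorem kr_back (p : F) (S : F[X][X]) (n : ℕ) (h : locP p S ∈ krI F n) : S ∈ krM p ^ n := by
  rw [kr_locP] at h
  set S' := S.comp (X + C (C p)) with hS'
  have h1 : ∀ i j, i < n → j < n → (S'.coeff j).coeff i = 0 := by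
    intro i j hi hj
    rw [← kr2_cf]
    exact krI_cf n _ h i j hi hj
  have hS : S = S'.comp (X - C (C p)) := by
    rw [hS', kr_comp2]
  have hx : (X - C (C p) : F[X][X]) ∈ krM p := Ideal.subset_span (Or.inl rfl)
  have hw : (C X : F[X][X]) ∈ krM p := Ideal.subset_span (Or.inr rfl)
  rw [hS, comp_eq_sum_left, Polynomial.sum_def]
  refine Ideal.sum_mem _ fun j _ => ?_
  by_cases hj : j < n
  · have h2 : (X : F[X]) ^ n ∣ S'.coeff j := by
      rw [X_pow_dvd_iff]
      exact fun i hi => h1 i j hi hj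
    obtain ⟨y, hy⟩ := h2
    rw [hy, map_mul, map_pow]
    exact Ideal.mul_mem_right _ _ (Ideal.mul_mem_right _ _ (Ideal.pow_mem_pow hw n))
  · refine Ideal.mul_mem_left _ _ ?_
    exact Ideal.pow_le_pow_right (not_lt.1 hj) (Ideal.pow_mem_pow hx j)

theorem krM_eval (p : F) (r : F[X][X]) (hr : r ∈ krM p) : r.evalEval 0 p = 0 := by
  obtain ⟨a, b, hab⟩ := Ideal.mem_span_pair.1 hr
  rw [← hab]
  simp [evalEval]

theorem krull (p : F) (T Q W : F[X][X])
    (h : locP p T ∈ Ideal.span {locP p Q, locP p W}) :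
    ∃ A B U : F[X][X], U.evalEval 0 p ≠ 0 ∧ U * T = A * Q + B * W := by
  obtain ⟨α, β, hαβ⟩ := Ideal.mem_span_pair.1 h
  have key : ∀ n, ∃ S ∈ krM p ^ n, T - S ∈ Ideal.span {Q, W} := by
    intro n
    obtain ⟨A, hA⟩ := kr_trunc' p α n
    obtain ⟨B, hB⟩ := kr_trunc' p β n
    refine ⟨T - A * Q - B * W, kr_back p _ n ?_, ?_⟩
    · have e1 : locP p (T - A * Q - B * W) =
          (α - locP p A) * locP p Q + (β - locP p B) * locP p W := by
        rw [map_sub, map_sub, map_mul, map_mul, ← hαβ]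
        ring
      rw [e1]
      exact Ideal.add_mem _ (Ideal.mul_mem_right _ _ hA) (Ideal.mul_mem_right _ _ hB)
    · exact Ideal.mem_span_pair.2 ⟨A, B, by ring⟩
  let M := F[X][X] ⧸ (Ideal.span {Q, W} : Ideal F[X][X])
  let t : M := Ideal.Quotient.mk _ T
  have ht : t ∈ (⨅ i : ℕ, krM p ^ i • ⊤ : Submodule F[X][X] M) := by
    rw [Submodule.mem_iInf]
    intro n
    obtain ⟨S, hS, hTS⟩ := key n
    have h1 : t = S • (1 : M) := by
      have h2 : (Ideal.Quotient.mk (Ideal.span {Q, W}) T) =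
          Ideal.Quotient.mk (Ideal.span {Q, W}) S := Ideal.Quotient.eq.2 hTS
      change Ideal.Quotient.mk _ T = _
      have h3 : (S • (1 : M)) = Ideal.Quotient.mk (Ideal.span {Q, W}) (S * 1) := rfl
      rw [h2, h3, mul_one]
    rw [h1]
    exact Submodule.smul_mem_smul hS trivial
  rw [Ideal.mem_iInf_smul_pow_eq_bot_iff] at ht
  obtain ⟨r, hr⟩ := ht
  have h1 : (1 - (r : F[X][X])) * T ∈ Ideal.span {Q, W} := by
    have h2 : Ideal.Quotient.mk (Ideal.span {Q, W}) ((r : F[X][X]) * T) =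
        Ideal.Quotient.mk (Ideal.span {Q, W}) T := by
      rw [map_mul]
      exact hr
    have h3 := Ideal.Quotient.eq.1 h2.symm
    have h4 : (1 - (r : F[X][X])) * T = T - (r : F[X][X]) * T := by ring
    rw [h4]
    exact h3
  obtain ⟨A, B, hAB⟩ := Ideal.mem_span_pair.1 h1
  refine ⟨A, B, 1 - (r : F[X][X]), ?_, hAB.symm⟩
  have h5 : (1 - (r : F[X][X])).evalEval 0 p = 1 := by
    have h6 := krM_eval p r r.2
    unfold evalEval at h6 ⊢
    rw [eval_sub, eval_sub, h6, sub_zero]
    simp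
  rw [h5]
  exact one_ne_zero

end H37.LM
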