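import Pool.Agent.H37.LM.Loc
import Pool.Agent.H37.LM.GThree
import Pool.Agent.H37.LM.GTwo
import Pool.Agent.H37.LM.Krull

/-!
# The algebraic theorem   [H37 LM AlgMain]

Proof.  For a root `p` of `formP e a` let `f = locP p (FtP K e a)`, `r` its multiplicity (the multiplicity
of `0` as a root of `(formP e a).comp (X + C p)`).  `cf f 0 j = ((formP e a).comp (X + C p)).coeff j`
(`cf_locP`), so `cf f 0 j = 0` for `j < r` and `cf f 0 r ≠ 0`; `r ≤ e` because `formP e a` is nonzero of
degree `≤ e` (the coefficient of `w ^ e` is `a 0 e`).  For multiple roots `2 ≤ r`.  `e = 6` is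
impossible by `g1`.
* `r = 2`: `r2_mem` with `g3loc_of_good`.
* `3 ≤ r` (so `3 ≤ e ≤ 5`): `loc_main` with `g3loc_of_good`, `g2loc_of_good`; `h5`, `h4`: `cf f 1 j`
  (`e = 5`), `cf f 2 j` (`e = 4`), `j = 0, 1` are the value and the derivative of `formP 6 a` at `p`.
  There is at most one root of multiplicity `≥ 3`, since the sum of the multiplicities is `≤ 5`: take the
  linear map `O` of this root (or `O = 0`).
* `D2 D f ∈ span {Qh e f, Wh f}` implies, by `locP_D`, `locP_QfP`, `locP_WfP`,
  `locP p (FtP K e (D ∘ a)) ∈ span {locP p (QfP K e a), locP p (WfP K e a)}`; then `krull`.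
-/

noncomputable section

open Polynomial

namespace H37.LM

variable {F : Type*} [Field F] [CharZero F] [IsAlgClosed F]

section lems

omit [CharZero F] [IsAlgClosed F]

theorem am_coeff0 (P : F[X]) (p : F) : (P.comp (X + C p)).coeff 0 = P.eval p := by
  rw [← taylor_apply, taylor_coeff_zero]

theorem am_coeff1 (P : F[X]) (p : F) : (P.comp (X + C p)).coeff 1 = (derivative P).eval p := by
  rw [← taylor_apply, taylor_coeff_one]

theorem am_dvd (P : F[X]) (p : F) (n : ℕ) (h : ∀ j < n, (P.comp (X + C p)).coeff j = 0) :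
    (X - C p) ^ n ∣ P := by
  obtain ⟨H, hH⟩ := X_pow_dvd_iff.2 h
  refine ⟨H.comp (X - C p), ?_⟩
  have h1 := congrArg (fun q : F[X] => q.comp (X - C p)) hH
  simp only [comp_assoc, add_comp, X_comp, C_comp, sub_add_cancel, comp_X, mul_comp, pow_comp]
    at h1
  exact h1

theorem am_form_coeff (e : ℕ) (a : ℕ → ℕ → F) : (formP e a).coeff e = a 0 e := by
  unfold formP
  rw [finsetSum_coeff, Finset.sum_eq_single e]
  · rw [coeff_monomial, if_pos rfl, Nat.sub_self]
  · intro j _ hj
    rw [coeff_monomial, if_neg hj]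
  · intro h
    exact absurd (Finset.mem_range.2 (Nat.lt_succ_self e)) h

theorem am_form_natDegree_le (e : ℕ) (a : ℕ → ℕ → F) : (formP e a).natDegree ≤ e := by
  unfold formP
  refine natDegree_sum_le_of_forall_le _ _ fun j hj => ?_
  refine (natDegree_monomial_le _).trans ?_
  rw [Finset.mem_range] at hj
  omega

theorem am_form_natDegree (e : ℕ) (a : ℕ → ℕ → F) (h : a 0 e ≠ 0) :
    (formP e a).natDegree = e := by
  refine le_antisymm (am_form_natDegree_le e a) (le_natDegree_of_ne_zero ?_)
  rw [am_form_coeff]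
  exact h

/-- two triple roots are impossible for `e ≤ 5` -/
theorem am_two (e : ℕ) (he : e ≤ 5) (a : ℕ → ℕ → F) (h : a 0 e ≠ 0) (p q : F) (hpq : p ≠ q)
    (hp : ∀ j < 3, ((formP e a).comp (X + C p)).coeff j = 0)
    (hq : ∀ j < 3, ((formP e a).comp (X + C q)).coeff j = 0) : False := by
  have h1 := am_dvd _ p 3 hp
  have h2 := am_dvd _ q 3 hq
  have hco : IsCoprime ((X - C p) ^ 3 : F[X]) ((X - C q) ^ 3) :=
    (pairwise_coprime_X_sub_C (Function.injective_id (α := F)) hpq).pow
  have h3 := hco.mul_dvd h1 h2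
  have hne : formP e a ≠ 0 := by
    intro h0
    have := am_form_coeff e a
    rw [h0, coeff_zero] at this
    exact h this.symm
  have h4 := natDegree_le_of_dvd h3 hne
  rw [am_form_natDegree e a h, ((monic_X_sub_C p).pow 3).natDegree_mul ((monic_X_sub_C q).pow 3),
    natDegree_pow, natDegree_pow, natDegree_X_sub_C, natDegree_X_sub_C] at h4
  omega

/-- the order of the recentred form -/
theorem am_order (e : ℕ) (a : ℕ → ℕ → F) (h : a 0 e ≠ 0) (p : F) :
    ∃ r, r ≤ e ∧ (∀ j < r, ((formP e a).comp (X + C p)).coeff j = 0) ∧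
      ((formP e a).comp (X + C p)).coeff r ≠ 0 := by
  classical
  have hdeg : ((formP e a).comp (X + C p)).natDegree = e := by
    rw [natDegree_comp, natDegree_X_add_C, mul_one, am_form_natDegree e a h]
  have hlead : ((formP e a).comp (X + C p)).coeff e ≠ 0 := by
    have h1 : ((formP e a).comp (X + C p)).leadingCoeff = (formP e a).leadingCoeff := by
      rw [leadingCoeff_comp (by rw [natDegree_X_add_C]; exact one_ne_zero),
        (monic_X_add_C p).leadingCoeff, one_pow, mul_one]
    rw [leadingCoeff, hdeg, leadingCoeff, am_form_natDegree e a h, am_form_coeff] at h1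
    rw [h1]
    exact h
  have hex : ∃ r, ((formP e a).comp (X + C p)).coeff r ≠ 0 := ⟨e, hlead⟩
  refine ⟨Nat.find hex, Nat.find_min' hex hlead, fun j hj => ?_, Nat.find_spec hex⟩
  exact not_not.1 (Nat.find_min hex hj)

end lems

open scoped PowerSeries in
omit [CharZero F] [IsAlgClosed F] in
theorem am_krull (K e : ℕ) (a : ℕ → ℕ → F) (hG : Good K e a) (D : Derivation ℤ F F) (p : F)
    (h : D2 D (locP p (FtP K e a)) ∈
      Ideal.span {Qh e (locP p (FtP K e a)), Wh (locP p (FtP K e a))}) :
    ∃ A B U : F[X][X], U.evalEval 0 p ≠ 0 ∧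
        U * FtP K e (fun i j => D (a i j)) = A * QfP K e a + B * WfP K e a := by
  apply krull
  rw [locP_D, locP_QfP p K e a hG.low, locP_WfP p K e a]
  refine Ideal.sub_mem _ h (Ideal.mul_mem_left _ _ (Ideal.subset_span ?_))
  right
  rfl

theorem alg_main (K e : ℕ) (a : ℕ → ℕ → F) (hG : Good K e a) :
    CodimTwo F (fun D => ∀ p : F, (formP e a).eval p = 0 →
      (derivative (formP e a)).eval p = 0 →
      ∃ A B U : F[X][X], U.evalEval 0 p ≠ 0 ∧
        U * FtP K e (fun i j => D (a i j)) = A * QfP K e a + B * WfP K e a) := by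
  rcases Nat.eq_or_lt_of_le hG.le_six with he6 | he6
  · -- `e = 6`
    subst he6
    exact CodimTwo.of_forall fun D p h1 h2 => absurd ⟨h1, h2⟩ (hG.g1 p)
  have he5 : e ≤ 5 := by omega
  have hcf : ∀ p i j, cf (locP p (FtP K e a)) i j = ((formP (e + i) a).comp (X + C p)).coeff j :=
    fun p i j => cf_locP p K e a hG.high hG.low i j
  have hG3 : ∀ p, G3loc e (locP p (FtP K e a)) := fun p =>
    g3loc_of_good K e a hG.low hG.one_le hG.g3 p
  -- double roots which are not triple
  have hdouble : ∀ (D : Derivation ℤ F F) (p : F), (formP e a).eval p = 0 →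
      (derivative (formP e a)).eval p = 0 → ((formP e a).comp (X + C p)).coeff 2 ≠ 0 →
      ∃ A B U : F[X][X], U.evalEval 0 p ≠ 0 ∧
        U * FtP K e (fun i j => D (a i j)) = A * QfP K e a + B * WfP K e a := by
    intro D p h1 h2 h3
    apply am_krull K e a hG D p
    refine r2_mem e hG.one_le _ ?_ ?_ (hG3 p) D
    · intro j hj
      rw [hcf, add_zero]
      interval_cases j
      · rw [am_coeff0, h1]
      · rw [am_coeff1, h2]
    · rw [hcf, add_zero]
      exact h3
  by_cases hex : ∃ p, ∀ j < 3, ((formP e a).comp (X + C p)).coeff j = 0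
  · obtain ⟨p0, hp0⟩ := hex
    obtain ⟨r, hre, hr0, hr1⟩ := am_order e a hG.inf p0
    have h3r : 3 ≤ r := by
      by_contra hlt
      exact hr1 (hp0 r (by omega))
    have hroot : (formP e a).eval p0 = 0 := by
      rw [← am_coeff0]
      exact hp0 0 (by norm_num)
    obtain ⟨O, hO⟩ := loc_main e r h3r hre he5 (locP p0 (FtP K e a))
      (fun j hj => by rw [hcf, add_zero]; exact hr0 j hj)
      (by rw [hcf, add_zero]; exact hr1) (hG3 p0)
      (g2loc_of_good K e a hG.low (by omega) p0 (fun c1 c2 => hG.g2 p0 c1 c2 hroot))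
      (fun h5 => by
        rw [hcf, hcf, am_coeff0, am_coeff1, h5, ← not_and_or]
        exact hG.g1 p0)
      (fun h4 => by
        rw [hcf, hcf, am_coeff0, am_coeff1, h4, ← not_and_or]
        exact hG.g1 p0)
    refine ⟨O, fun D hD p h1 h2 => ?_⟩
    by_cases hpp : p = p0
    · subst hpp
      exact am_krull K e a hG D p (hO D hD)
    · apply hdouble D p h1 h2
      intro h3
      refine am_two e he5 a hG.inf p p0 hpp (fun j hj => ?_) hp0
      interval_cases j
      · rw [am_coeff0, h1]
      · rw [am_coeff1, h2]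
      · exact h3
  · refine CodimTwo.of_forall fun D p h1 h2 => hdouble D p h1 h2 fun h3 => hex ⟨p, fun j hj => ?_⟩
    interval_cases j
    · rw [am_coeff0, h1]
    · rw [am_coeff1, h2]
    · exact h3

end H37.LM
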