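import Pool.Agent.H37.LM.Fun

/-!
# Local fields from a solution in the blow-up chart   [H37 LM Chart]

Proof.  Put `w0 = u.2 / u.1`.  By `ContDiffAt.exists_lipschitzOnWith` the functions `α, β` are
Lipschitz (and bounded) on a ball of radius `η` around `(0, w0, 0)`, on which also `heq` and the
conditions `hlow`, `hlowb` hold.  For small `r`, every `p ∈ cone u r` has `p.1 ≠ 0`,
`‖p‖ ≤ (2 / ‖u.1‖) ‖p.1‖` (from `‖ ‖p‖⁻¹ p.1 - u.1 ‖ < r ≤ ‖u.1‖ / 2`), `|p.2 / p.1 - w0| < η`.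
Take `ξ t p = (x α, x (w α + β))` with `x = p.1`, `w = p.2 / p.1`, `α = α (t, w, x)`,
`β = β (t, w, x)`.
* `|w - w'| ≤ C ‖p - q‖ / max ‖p‖ ‖q‖` for `w = p.2/p.1`, `w' = q.2/q.1`, so
  `|x α - x' α'| ≤ |x - x'| |α| + |x'| Lip (|w - w'| + |x - x'|)` (wlog `|x'| ≤ |x|`...).
* The equation: `ev_chart` and `evX_evY_chart` with `p = (x, x w)`.
* Continuity in `t`: `α` is Lipschitz in `(t, w, x)`.
-/

noncomputable section

open Set Filter Topology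
open scoped ContDiff

namespace H37.LM

/-- Elementary facts about points of the cone. -/
theorem cone_facts {u : ℂ × ℂ} (hu : ‖u‖ = 1) {r : ℝ} (hr : r ≤ ‖u.1‖ / 2)
    {p : ℂ × ℂ} (hp : p ∈ cone u r) :
    ‖u.1‖ / 2 * ‖p‖ ≤ ‖p.1‖ ∧ ‖p.2 / p.1 - u.2 / u.1‖ * ‖u.1‖ ^ 2 ≤ 4 * r := by
  obtain ⟨h0, h1, h2⟩ := hp
  have hr0 : 0 < r := h0.trans h1
  have hc : 0 < ‖u.1‖ := by linarith
  have hu1 : u.1 ≠ 0 := norm_pos_iff.1 hc
  have h3 : ‖((‖p‖⁻¹ : ℝ) : ℂ) * p.1 - u.1‖ < r := by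
    refine lt_of_le_of_lt ?_ h2
    have := norm_fst_le ((‖p‖⁻¹ : ℝ) • p - u)
    simpa using this
  have h4 : ‖((‖p‖⁻¹ : ℝ) : ℂ) * p.2 - u.2‖ < r := by
    refine lt_of_le_of_lt ?_ h2
    have := norm_snd_le ((‖p‖⁻¹ : ℝ) • p - u)
    simpa using this
  set s : ℂ := ((‖p‖⁻¹ : ℝ) : ℂ) with hs
  have hsn : ‖s‖ = ‖p‖⁻¹ := by
    rw [hs, Complex.norm_real, Real.norm_of_nonneg (inv_nonneg.2 h0.le)]
  have hs0 : s ≠ 0 := by
    rw [← norm_pos_iff, hsn]; exact inv_pos.2 h0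
  have h5 : ‖u.1‖ / 2 ≤ ‖s * p.1‖ := by
    have := norm_sub_norm_le u.1 (s * p.1)
    rw [norm_sub_rev] at this
    linarith
  have h6 : ‖u.1‖ / 2 * ‖p‖ ≤ ‖p.1‖ := by
    rw [norm_mul, hsn] at h5
    calc ‖u.1‖ / 2 * ‖p‖ ≤ (‖p‖⁻¹ * ‖p.1‖) * ‖p‖ :=
          mul_le_mul_of_nonneg_right h5 h0.le
      _ = ‖p.1‖ := by field_simp
  refine ⟨h6, ?_⟩
  have hp1 : p.1 ≠ 0 := by
    rw [← norm_pos_iff]
    have : 0 < ‖u.1‖ / 2 * ‖p‖ := by positivity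
    linarith
  have h7 : (p.2 / p.1 - u.2 / u.1) * ((s * p.1) * u.1)
      = (s * p.2 - u.2) * u.1 - u.2 * (s * p.1 - u.1) := by
    field_simp
    ring
  have h8 : ‖p.2 / p.1 - u.2 / u.1‖ * (‖s * p.1‖ * ‖u.1‖) ≤ 2 * r := by
    rw [← norm_mul, ← norm_mul, h7]
    have hu1' : ‖u.1‖ ≤ 1 := by rw [← hu]; exact norm_fst_le u
    have hu2' : ‖u.2‖ ≤ 1 := by rw [← hu]; exact norm_snd_le u
    calc ‖(s * p.2 - u.2) * u.1 - u.2 * (s * p.1 - u.1)‖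
        ≤ ‖(s * p.2 - u.2) * u.1‖ + ‖u.2 * (s * p.1 - u.1)‖ := norm_sub_le _ _
      _ = ‖s * p.2 - u.2‖ * ‖u.1‖ + ‖u.2‖ * ‖s * p.1 - u.1‖ := by rw [norm_mul, norm_mul]
      _ ≤ r * 1 + 1 * r := by
          have hA : ‖s * p.2 - u.2‖ * ‖u.1‖ ≤ r * 1 :=
            mul_le_mul h4.le hu1' (norm_nonneg _) hr0.le
          have hB : ‖u.2‖ * ‖s * p.1 - u.1‖ ≤ 1 * r :=
            mul_le_mul hu2' h3.le (norm_nonneg _) zero_le_one
          linarith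
      _ = 2 * r := by ring
  have h9 : ‖p.2 / p.1 - u.2 / u.1‖ * (‖u.1‖ / 2 * ‖u.1‖) ≤
      ‖p.2 / p.1 - u.2 / u.1‖ * (‖s * p.1‖ * ‖u.1‖) := by
    refine mul_le_mul_of_nonneg_left ?_ (norm_nonneg _)
    exact mul_le_mul_of_nonneg_right h5 (norm_nonneg _)
  nlinarith [h8, h9]

/-- Lipschitz estimate for one scalar function in the chart. -/
theorem chart_lip {g : ℝ × ℂ × ℂ → ℂ} {S : Set (ℝ × ℂ × ℂ)} {L : ℝ} (hL : 0 ≤ L)
    (hg : ∀ z ∈ S, ∀ z' ∈ S, ‖g z - g z'‖ ≤ L * dist z z')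
    {t c : ℝ} (hc : 0 < c) {p q : ℂ × ℂ}
    (hp : p.1 ≠ 0) (hq : q.1 ≠ 0) (hcp : c / 2 * ‖p‖ ≤ ‖p.1‖) (hq1 : ‖q‖ ≤ 1)
    (hpS : (t, p.2 / p.1, p.1) ∈ S) (hqS : (t, q.2 / q.1, q.1) ∈ S) :
    ‖q.1‖ * ‖g (t, p.2 / p.1, p.1) - g (t, q.2 / q.1, q.1)‖ ≤ L * (2 / c + 2) * ‖p - q‖ := by
  have h1 := hg _ hpS _ hqS
  have hd : dist ((t, p.2 / p.1, p.1) : ℝ × ℂ × ℂ) (t, q.2 / q.1, q.1)
      ≤ ‖p.2 / p.1 - q.2 / q.1‖ + ‖p.1 - q.1‖ := by
    rw [Prod.dist_eq, Prod.dist_eq]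
    simp only [dist_self]
    refine max_le (by positivity) (max_le ?_ ?_)
    · rw [dist_eq_norm]; linarith [norm_nonneg (p.1 - q.1)]
    · rw [dist_eq_norm]; linarith [norm_nonneg (p.2 / p.1 - q.2 / q.1)]
  have hx : ‖p.1 - q.1‖ ≤ ‖p - q‖ := norm_fst_le (p - q)
  have hy : ‖p.2 - q.2‖ ≤ ‖p - q‖ := norm_snd_le (p - q)
  have hw : ‖p.2 / p.1‖ ≤ 2 / c := by
    rw [norm_div, div_le_div_iff₀ (norm_pos_iff.2 hp) hc]
    have : ‖p.2‖ ≤ ‖p‖ := norm_snd_le p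
    nlinarith
  have h2 : ‖q.1‖ * ‖p.2 / p.1 - q.2 / q.1‖ ≤ (2 / c + 1) * ‖p - q‖ := by
    rw [← norm_mul]
    have : q.1 * (p.2 / p.1 - q.2 / q.1) = (q.1 - p.1) * (p.2 / p.1) + (p.2 - q.2) := by
      field_simp
      ring
    rw [this]
    calc ‖(q.1 - p.1) * (p.2 / p.1) + (p.2 - q.2)‖
        ≤ ‖(q.1 - p.1) * (p.2 / p.1)‖ + ‖p.2 - q.2‖ := norm_add_le _ _
      _ = ‖p.1 - q.1‖ * ‖p.2 / p.1‖ + ‖p.2 - q.2‖ := by rw [norm_mul, norm_sub_rev]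
      _ ≤ ‖p - q‖ * (2 / c) + ‖p - q‖ := by
          have := mul_le_mul hx hw (norm_nonneg _) (norm_nonneg _)
          linarith
      _ = (2 / c + 1) * ‖p - q‖ := by ring
  have h3 : ‖q.1‖ * ‖p.1 - q.1‖ ≤ ‖p - q‖ := by
    have h4 : ‖q.1‖ ≤ 1 := (norm_fst_le q).trans hq1
    calc ‖q.1‖ * ‖p.1 - q.1‖ ≤ 1 * ‖p - q‖ :=
          mul_le_mul h4 hx (norm_nonneg _) zero_le_one
      _ = ‖p - q‖ := one_mul _
  calc ‖q.1‖ * ‖g (t, p.2 / p.1, p.1) - g (t, q.2 / q.1, q.1)‖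
      ≤ ‖q.1‖ * (L * (‖p.2 / p.1 - q.2 / q.1‖ + ‖p.1 - q.1‖)) := by
        refine mul_le_mul_of_nonneg_left (h1.trans ?_) (norm_nonneg _)
        exact mul_le_mul_of_nonneg_left hd hL
    _ = L * (‖q.1‖ * ‖p.2 / p.1 - q.2 / q.1‖ + ‖q.1‖ * ‖p.1 - q.1‖) := by ring
    _ ≤ L * ((2 / c + 1) * ‖p - q‖ + ‖p - q‖) :=
        mul_le_mul_of_nonneg_left (add_le_add h2 h3) hL
    _ = L * (2 / c + 2) * ‖p - q‖ := by ring

theorem chart_locField (K e : ℕ) (a b : ℝ → ℕ → ℕ → ℂ)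
    (hlow : ∀ᶠ t in 𝓝 (0 : ℝ), ∀ i j, i + j < e → a t i j = 0)
    (hlowb : ∀ᶠ t in 𝓝 (0 : ℝ), ∀ i j, i + j < e → b t i j = 0)
    (u : ℂ × ℂ) (hu : ‖u‖ = 1) (hu1 : u.1 ≠ 0) (α β : ℝ × ℂ × ℂ → ℂ)
    (hα : ContDiffAt ℝ 1 α ((0 : ℝ), u.2 / u.1, (0 : ℂ)))
    (hβ : ContDiffAt ℝ 1 β ((0 : ℝ), u.2 / u.1, (0 : ℂ)))
    (heq : ∀ᶠ z in 𝓝 ((0 : ℝ), u.2 / u.1, (0 : ℂ)),
      Ft K e (b z.1) z.2.1 z.2.2 + α z * Qf K e (a z.1) z.2.1 z.2.2 +
        β z * Wf K e (a z.1) z.2.1 z.2.2 = 0) :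
    LocField (fun t => ev K (b t)) (fun t => evX K (a t)) (fun t => evY K (a t)) u := by
  obtain ⟨Kα, Sα, hSα, hLα⟩ := hα.exists_lipschitzOnWith
  obtain ⟨Kβ, Sβ, hSβ, hLβ⟩ := hβ.exists_lipschitzOnWith
  set z0 : ℝ × ℂ × ℂ := ((0 : ℝ), u.2 / u.1, (0 : ℂ)) with hz0
  have hev : ∀ᶠ z in 𝓝 z0, z ∈ Sα ∧ z ∈ Sβ ∧
      Ft K e (b z.1) z.2.1 z.2.2 + α z * Qf K e (a z.1) z.2.1 z.2.2 +
        β z * Wf K e (a z.1) z.2.1 z.2.2 = 0 := by
    filter_upwards [hSα, hSβ, heq] with z h1 h2 h3 using ⟨h1, h2, h3⟩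
  obtain ⟨η1, hη1, hball⟩ := Metric.eventually_nhds_iff_ball.1 hev
  obtain ⟨η2, hη2, hlo⟩ := Metric.eventually_nhds_iff_ball.1 (hlow.and hlowb)
  set η := min η1 (min η2 1) with hη
  have hηpos : 0 < η := lt_min hη1 (lt_min hη2 one_pos)
  have hc : 0 < ‖u.1‖ := norm_pos_iff.2 hu1
  set c := ‖u.1‖ with hcdef
  set r := min (c / 2) (min η (η * c ^ 2 / 5)) with hr
  have hrpos : 0 < r := by
    refine lt_min (by positivity) (lt_min hηpos (by positivity))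
  have hrc : r ≤ c / 2 := min_le_left _ _
  have hrη : r ≤ η := (min_le_right _ _).trans (min_le_left _ _)
  have hrη2 : r ≤ η * c ^ 2 / 5 := (min_le_right _ _).trans (min_le_right _ _)
  have hη1' : η ≤ η1 := min_le_left _ _
  have hη2' : η ≤ η2 := (min_le_right _ _).trans (min_le_left _ _)
  have hηone : η ≤ 1 := (min_le_right _ _).trans (min_le_right _ _)
  have hmem : ∀ t ∈ Ioo (-r) r, ∀ p ∈ cone u r,
      ((t, p.2 / p.1, p.1) : ℝ × ℂ × ℂ) ∈ Metric.ball z0 η := by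
    intro t ht p hp
    obtain ⟨f1, f2⟩ := cone_facts hu hrc hp
    rw [Metric.mem_ball, hz0, Prod.dist_eq, Prod.dist_eq]
    refine max_lt ?_ (max_lt ?_ ?_)
    · simp only [Real.dist_eq, sub_zero]
      exact (abs_lt.2 ht).trans_le hrη
    · rw [dist_eq_norm]
      have h1 : ‖p.2 / p.1 - u.2 / u.1‖ * c ^ 2 < η * c ^ 2 := by
        have : 4 * r ≤ 4 * (η * c ^ 2 / 5) := by linarith
        have h2 : 0 < η * c ^ 2 := by positivity
        linarith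
      exact lt_of_mul_lt_mul_right h1 (by positivity)
    · rw [dist_eq_norm, sub_zero]
      exact ((norm_fst_le p).trans_lt hp.2.1).trans_le hrη
  have hsub : Metric.ball z0 η ⊆ Metric.ball z0 η1 := Metric.ball_subset_ball hη1'
  have hz0mem : z0 ∈ Metric.ball z0 η := Metric.mem_ball_self hηpos
  set L : ℝ := max (Kα : ℝ) (Kβ : ℝ) with hL
  have hL0 : 0 ≤ L := le_max_of_le_left Kα.2
  have hgα : ∀ z ∈ Metric.ball z0 η, ∀ z' ∈ Metric.ball z0 η, ‖α z - α z'‖ ≤ L * dist z z' := by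
    intro z hz z' hz'
    have := hLα.dist_le_mul z (hball z (hsub hz)).1 z' (hball z' (hsub hz')).1
    rw [dist_eq_norm] at this
    exact this.trans (mul_le_mul_of_nonneg_right (le_max_left _ _) dist_nonneg)
  have hgβ : ∀ z ∈ Metric.ball z0 η, ∀ z' ∈ Metric.ball z0 η, ‖β z - β z'‖ ≤ L * dist z z' := by
    intro z hz z' hz'
    have := hLβ.dist_le_mul z (hball z (hsub hz)).2.1 z' (hball z' (hsub hz')).2.1
    rw [dist_eq_norm] at this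
    exact this.trans (mul_le_mul_of_nonneg_right (le_max_right _ _) dist_nonneg)
  set M : ℝ := max (‖α z0‖ + L) (‖β z0‖ + L) with hM
  have hM0 : 0 ≤ M := le_max_of_le_left (by positivity)
  have hbα : ∀ z ∈ Metric.ball z0 η, ‖α z‖ ≤ M := by
    intro z hz
    have h1 := hgα z hz z0 hz0mem
    have h2 : ‖α z‖ ≤ ‖α z0‖ + ‖α z - α z0‖ := by
      have := norm_add_le (α z0) (α z - α z0)
      simpa using this
    have h3 : L * dist z z0 ≤ L * 1 :=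
      mul_le_mul_of_nonneg_left ((Metric.mem_ball.1 hz).le.trans hηone) hL0
    refine le_trans ?_ (le_max_left _ _)
    linarith
  have hbβ : ∀ z ∈ Metric.ball z0 η, ‖β z‖ ≤ M := by
    intro z hz
    have h1 := hgβ z hz z0 hz0mem
    have h2 : ‖β z‖ ≤ ‖β z0‖ + ‖β z - β z0‖ := by
      have := norm_add_le (β z0) (β z - β z0)
      simpa using this
    have h3 : L * dist z z0 ≤ L * 1 :=
      mul_le_mul_of_nonneg_left ((Metric.mem_ball.1 hz).le.trans hηone) hL0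
    refine le_trans ?_ (le_max_right _ _)
    linarith
  have hp1ne : ∀ p ∈ cone u r, p.1 ≠ 0 := by
    intro p hp
    obtain ⟨f1, _⟩ := cone_facts hu hrc hp
    rw [← norm_pos_iff]
    have : 0 < c / 2 * ‖p‖ := mul_pos (by positivity) hp.1
    linarith
  set D : ℝ := L * (2 / c + 2) with hD
  have hD0 : 0 ≤ D := by positivity
  set C : ℝ := 2 * M + D * (2 / c + 1) with hC
  have hC0 : 0 ≤ C := by positivity
  have hDC : M + D ≤ C := by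
    have : 0 ≤ D * (2 / c) := by positivity
    rw [hC]; nlinarith
  refine ⟨r, hrpos, C, hC0, fun t p => (p.1 * α (t, p.2 / p.1, p.1),
    p.1 * (p.2 / p.1 * α (t, p.2 / p.1, p.1) + β (t, p.2 / p.1, p.1))), ?_, ?_, ?_, ?_⟩
  · intro t ht p hp
    have hz := hmem t ht p hp
    have h1 := hbα _ hz
    have h2 := hbβ _ hz
    have hne := hp1ne p hp
    have hx : ‖p.1‖ ≤ ‖p‖ := norm_fst_le p
    have hy : ‖p.2‖ ≤ ‖p‖ := norm_snd_le p
    have hMC : 2 * M ≤ C := by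
      have : 0 ≤ D * (2 / c + 1) := by positivity
      rw [hC]; linarith
    refine norm_prod_le_iff.2 ⟨?_, ?_⟩
    · rw [norm_mul]
      calc ‖p.1‖ * ‖α (t, p.2 / p.1, p.1)‖ ≤ ‖p‖ * M :=
            mul_le_mul hx h1 (norm_nonneg _) (norm_nonneg _)
        _ ≤ C * ‖p‖ := by nlinarith [norm_nonneg p]
    · have : p.1 * (p.2 / p.1 * α (t, p.2 / p.1, p.1) + β (t, p.2 / p.1, p.1))
          = p.2 * α (t, p.2 / p.1, p.1) + p.1 * β (t, p.2 / p.1, p.1) := by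
        field_simp
      show ‖p.1 * (p.2 / p.1 * α (t, p.2 / p.1, p.1) + β (t, p.2 / p.1, p.1))‖ ≤ C * ‖p‖
      rw [this]
      calc ‖p.2 * α (t, p.2 / p.1, p.1) + p.1 * β (t, p.2 / p.1, p.1)‖
          ≤ ‖p.2 * α (t, p.2 / p.1, p.1)‖ + ‖p.1 * β (t, p.2 / p.1, p.1)‖ := norm_add_le _ _
        _ = ‖p.2‖ * ‖α (t, p.2 / p.1, p.1)‖ + ‖p.1‖ * ‖β (t, p.2 / p.1, p.1)‖ := by
            rw [norm_mul, norm_mul]
        _ ≤ ‖p‖ * M + ‖p‖ * M := add_le_add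
            (mul_le_mul hy h1 (norm_nonneg _) (norm_nonneg _))
            (mul_le_mul hx h2 (norm_nonneg _) (norm_nonneg _))
        _ ≤ C * ‖p‖ := by nlinarith [norm_nonneg p]
  · intro t ht p hp q hq
    have hzp := hmem t ht p hp
    have hzq := hmem t ht q hq
    have h1 := hbα _ hzp
    have h2 := hbβ _ hzp
    have hnep := hp1ne p hp
    have hneq := hp1ne q hq
    have fp := (cone_facts hu hrc hp).1
    have fq := (cone_facts hu hrc hq).1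
    have hq1 : ‖q‖ ≤ 1 := (hq.2.1.le.trans hrη).trans hηone
    have hx : ‖p.1 - q.1‖ ≤ ‖p - q‖ := norm_fst_le (p - q)
    have hy : ‖p.2 - q.2‖ ≤ ‖p - q‖ := norm_snd_le (p - q)
    have lα := chart_lip hL0 hgα hc hnep hneq fp hq1 hzp hzq
    have lβ := chart_lip hL0 hgβ hc hnep hneq fp hq1 hzp hzq
    rw [← hD] at lα lβ
    have hq2 : ‖q.2‖ * ‖α (t, p.2 / p.1, p.1) - α (t, q.2 / q.1, q.1)‖
        ≤ 2 / c * (D * ‖p - q‖) := by
      have h3 : ‖q.2‖ ≤ 2 / c * ‖q.1‖ := by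
        have h4 : ‖q.2‖ ≤ ‖q‖ := norm_snd_le q
        rw [div_mul_eq_mul_div, le_div_iff₀ hc]
        nlinarith
      calc ‖q.2‖ * ‖α (t, p.2 / p.1, p.1) - α (t, q.2 / q.1, q.1)‖
          ≤ (2 / c * ‖q.1‖) * ‖α (t, p.2 / p.1, p.1) - α (t, q.2 / q.1, q.1)‖ :=
            mul_le_mul_of_nonneg_right h3 (norm_nonneg _)
        _ = 2 / c * (‖q.1‖ * ‖α (t, p.2 / p.1, p.1) - α (t, q.2 / q.1, q.1)‖) := by ring
        _ ≤ 2 / c * (D * ‖p - q‖) := mul_le_mul_of_nonneg_left lα (by positivity)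
    have gen : ∀ (X Y A B : ℂ), ‖X * A - Y * B‖ ≤ ‖X - Y‖ * ‖A‖ + ‖Y‖ * ‖A - B‖ := by
      intro X Y A B
      have : X * A - Y * B = (X - Y) * A + Y * (A - B) := by ring
      rw [this]
      refine (norm_add_le _ _).trans ?_
      rw [norm_mul, norm_mul]
    refine norm_prod_le_iff.2 ⟨?_, ?_⟩
    · refine (gen p.1 q.1 _ _).trans ?_
      have h5 := mul_le_mul hx h1 (norm_nonneg _) (norm_nonneg _)
      have h6 : (M + D) * ‖p - q‖ ≤ C * ‖p - q‖ :=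
        mul_le_mul_of_nonneg_right hDC (norm_nonneg _)
      linarith
    · have hP : p.1 * (p.2 / p.1 * α (t, p.2 / p.1, p.1) + β (t, p.2 / p.1, p.1))
          = p.2 * α (t, p.2 / p.1, p.1) + p.1 * β (t, p.2 / p.1, p.1) := by
        field_simp
      have hQ : q.1 * (q.2 / q.1 * α (t, q.2 / q.1, q.1) + β (t, q.2 / q.1, q.1))
          = q.2 * α (t, q.2 / q.1, q.1) + q.1 * β (t, q.2 / q.1, q.1) := by
        field_simp
      show ‖p.1 * (p.2 / p.1 * α (t, p.2 / p.1, p.1) + β (t, p.2 / p.1, p.1)) -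
        q.1 * (q.2 / q.1 * α (t, q.2 / q.1, q.1) + β (t, q.2 / q.1, q.1))‖ ≤ C * ‖p - q‖
      rw [hP, hQ]
      have hsplit : p.2 * α (t, p.2 / p.1, p.1) + p.1 * β (t, p.2 / p.1, p.1) -
          (q.2 * α (t, q.2 / q.1, q.1) + q.1 * β (t, q.2 / q.1, q.1))
          = (p.2 * α (t, p.2 / p.1, p.1) - q.2 * α (t, q.2 / q.1, q.1)) +
          (p.1 * β (t, p.2 / p.1, p.1) - q.1 * β (t, q.2 / q.1, q.1)) := by ring
      rw [hsplit]
      refine (norm_add_le _ _).trans ?_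
      have g1 := gen p.2 q.2 (α (t, p.2 / p.1, p.1)) (α (t, q.2 / q.1, q.1))
      have g2 := gen p.1 q.1 (β (t, p.2 / p.1, p.1)) (β (t, q.2 / q.1, q.1))
      have h5 := mul_le_mul hy h1 (norm_nonneg _) (norm_nonneg _)
      have h6 := mul_le_mul hx h2 (norm_nonneg _) (norm_nonneg _)
      have h7 : C * ‖p - q‖ = ‖p - q‖ * M + 2 / c * (D * ‖p - q‖) + ‖p - q‖ * M
          + D * ‖p - q‖ := by rw [hC]; ring
      rw [h7]
      linarith
  · intro p hp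
    have hmaps : MapsTo (fun t : ℝ => ((t, p.2 / p.1, p.1) : ℝ × ℂ × ℂ)) (Ioo (-r) r)
        (Metric.ball z0 η) := fun t ht => hmem t ht p hp
    have hcont : Continuous (fun t : ℝ => ((t, p.2 / p.1, p.1) : ℝ × ℂ × ℂ)) := by fun_prop
    have cα : ContinuousOn (fun t : ℝ => α (t, p.2 / p.1, p.1)) (Ioo (-r) r) := by
      refine ContinuousOn.comp (g := α) (t := Metric.ball z0 η) ?_ hcont.continuousOn hmaps
      exact hLα.continuousOn.mono fun z hz => (hball z (hsub hz)).1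
    have cβ : ContinuousOn (fun t : ℝ => β (t, p.2 / p.1, p.1)) (Ioo (-r) r) := by
      refine ContinuousOn.comp (g := β) (t := Metric.ball z0 η) ?_ hcont.continuousOn hmaps
      exact hLβ.continuousOn.mono fun z hz => (hball z (hsub hz)).2.1
    exact (continuousOn_const.mul cα).prodMk
      (continuousOn_const.mul ((continuousOn_const.mul cα).add cβ))
  · intro t ht p hp
    have hz := hmem t ht p hp
    have hne := hp1ne p hp
    have heq' := (hball _ (hsub hz)).2.2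
    have ht2 : t ∈ Metric.ball (0 : ℝ) η2 := by
      rw [Metric.mem_ball, Real.dist_eq, sub_zero]
      exact ((abs_lt.2 ht).trans_le hrη).trans_le hη2'
    obtain ⟨ha, hb⟩ := hlo t ht2
    have hpp : p = (p.1, p.1 * (p.2 / p.1)) := by
      ext
      · rfl
      · simp only
        field_simp
    have e1 := ev_chart (K := K) hb (p.2 / p.1) p.1
    have e2 := evX_evY_chart (K := K) ha (p.2 / p.1) p.1 (α (t, p.2 / p.1, p.1))
      (β (t, p.2 / p.1, p.1))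
    rw [← hpp] at e1 e2
    show ev K (b t) p + evX K (a t) p * (p.1 * α (t, p.2 / p.1, p.1)) +
      evY K (a t) p * (p.1 * (p.2 / p.1 * α (t, p.2 / p.1, p.1) + β (t, p.2 / p.1, p.1))) = 0
    simp only at heq'
    linear_combination e1 + e2 + p.1 ^ e * heq'

end H37.LM
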