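import Pool.Agent.H37.LM.Fun
import Pool.Agent.H37.LM.Chart

/-!
# The direction `x = 0`   [H37 LM ChartInf]

(Proved here by exchanging the two variables and `chart_locField`.)

Proof.  Near the direction `u = (0, u.2)`, `‖u.2‖ = 1`, put `z = x / y`.  With
`G c (z, y) = ∑ c i j z ^ i y ^ (i + j - e)` and `N (z, y) = ∑ (i + j) a i j z ^ i y ^ (i + j - e)`
one has `h_b (z y, y) = y ^ e G b (z, y)` and, by Euler's identity, `x h_x + y h_y = y ^ e N`.  At
`t = 0`, `z = y = 0`: `N = e * a 0 e ≠ 0` (as `e ≤ K` this term is present).  So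
`γ (t, z, y) = - G (b t) / N (a t)` is `C¹` near `(0, 0, 0)`, hence Lipschitz, and
`ξ t p = γ (t, p.1 / p.2, p.2) • p` is the required field (estimates as in `Chart.lean`:
`|p.1 / p.2 - q.1 / q.2| ≤ C ‖p - q‖ / max ‖p‖ ‖q‖`).
-/

noncomputable section

open Set Filter Topology
open scoped ContDiff

namespace H37.LM

private theorem chartInf_norm (p : ℂ × ℂ) : ‖p.swap‖ = ‖p‖ := by
  rw [Prod.norm_def, Prod.norm_def, Prod.fst_swap, Prod.snd_swap, max_comm]

private theorem chartInf_cone {p u : ℂ × ℂ} {r : ℝ} (h : p ∈ cone u r) :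
    p.swap ∈ cone u.swap r := by
  obtain ⟨h1, h2, h3⟩ := h
  refine ⟨by rwa [chartInf_norm], by rwa [chartInf_norm], ?_⟩
  rw [chartInf_norm]
  have : (‖p‖⁻¹ : ℝ) • p.swap - u.swap = ((‖p‖⁻¹ : ℝ) • p - u).swap := rfl
  rw [this, chartInf_norm]
  exact h3

private theorem chartInf_ev (K : ℕ) (a : ℕ → ℕ → ℂ) (p : ℂ × ℂ) :
    ev K (fun i j => a j i) p.swap = ev K a p := by
  unfold ev
  rw [Finset.sum_comm]
  refine Finset.sum_congr rfl fun i _ => Finset.sum_congr rfl fun j _ => ?_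
  simp only [Prod.fst_swap, Prod.snd_swap]
  ring

private theorem chartInf_evX (K : ℕ) (a : ℕ → ℕ → ℂ) (p : ℂ × ℂ) :
    evX K (fun i j => a j i) p.swap = evY K a p := by
  unfold evX evY
  rw [Finset.sum_comm]
  refine Finset.sum_congr rfl fun i _ => Finset.sum_congr rfl fun j _ => ?_
  simp only [Prod.fst_swap, Prod.snd_swap]
  ring

private theorem chartInf_evY (K : ℕ) (a : ℕ → ℕ → ℂ) (p : ℂ × ℂ) :
    evY K (fun i j => a j i) p.swap = evX K a p := by
  unfold evX evY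
  rw [Finset.sum_comm]
  refine Finset.sum_congr rfl fun i _ => Finset.sum_congr rfl fun j _ => ?_
  simp only [Prod.fst_swap, Prod.snd_swap]
  ring

private theorem chartInf_swap (K : ℕ) (a b : ℝ → ℕ → ℕ → ℂ) (u : ℂ × ℂ)
    (h : LocField (fun t => ev K (fun i j => b t j i)) (fun t => evX K (fun i j => a t j i))
      (fun t => evY K (fun i j => a t j i)) u.swap) :
    LocField (fun t => ev K (b t)) (fun t => evX K (a t)) (fun t => evY K (a t)) u := by
  obtain ⟨r, hr, C, hC, ξ, h1, h2, h3, h4⟩ := h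
  refine ⟨r, hr, C, hC, fun t p => (ξ t p.swap).swap, ?_, ?_, ?_, ?_⟩
  · intro t ht p hp
    rw [chartInf_norm, ← chartInf_norm p]
    exact h1 t ht _ (chartInf_cone hp)
  · intro t ht p hp q hq
    have e1 : (ξ t p.swap).swap - (ξ t q.swap).swap = (ξ t p.swap - ξ t q.swap).swap := rfl
    have e2 : ‖p - q‖ = ‖p.swap - q.swap‖ := by
      rw [← chartInf_norm (p - q)]
      rfl
    rw [e1, chartInf_norm, e2]
    exact h2 t ht _ (chartInf_cone hp) _ (chartInf_cone hq)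
  · intro p hp
    exact continuous_swap.comp_continuousOn (h3 _ (chartInf_cone hp))
  · intro t ht p hp
    have h5 := h4 t ht _ (chartInf_cone hp)
    simp only at h5
    rw [chartInf_ev, chartInf_evX, chartInf_evY] at h5
    simp only [Prod.fst_swap, Prod.snd_swap]
    linear_combination h5

theorem chartInf_locField (K e : ℕ) (he : 1 ≤ e) (heK : e ≤ K) (a b : ℝ → ℕ → ℕ → ℂ)
    (ha : ∀ i j, ContDiffAt ℝ 1 (fun t => a t i j) 0)
    (hb : ∀ i j, ContDiffAt ℝ 1 (fun t => b t i j) 0)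
    (hlow : ∀ᶠ t in 𝓝 (0 : ℝ), ∀ i j, i + j < e → a t i j = 0)
    (hlowb : ∀ᶠ t in 𝓝 (0 : ℝ), ∀ i j, i + j < e → b t i j = 0)
    (hinf : a 0 0 e ≠ 0) (u : ℂ × ℂ) (hu : ‖u‖ = 1) (hu1 : u.1 = 0) :
    LocField (fun t => ev K (b t)) (fun t => evX K (a t)) (fun t => evY K (a t)) u := by
  have hu2 : u.2 ≠ 0 := by
    intro h
    have : u = 0 := Prod.ext hu1 h
    rw [this, norm_zero] at hu
    exact zero_ne_one hu
  apply chartInf_swap
  obtain ⟨α, hα⟩ : ∃ α : ℝ × ℂ × ℂ → ℂ, α = fun z =>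
    - Ft K e (fun i j => b z.1 j i) z.2.1 z.2.2 * (Qf K e (fun i j => a z.1 j i) z.2.1 z.2.2)⁻¹ :=
    ⟨_, rfl⟩
  have hpt : ((0 : ℝ), u.swap.2 / u.swap.1, (0 : ℂ)) = ((0 : ℝ), (0 : ℂ), (0 : ℂ)) := by
    rw [Prod.snd_swap, hu1, zero_div]
  have hF : ContDiffAt ℝ 1 (fun z : ℝ × ℂ × ℂ => Ft K e (fun i j => b z.1 j i) z.2.1 z.2.2)
      ((0 : ℝ), (0 : ℂ), (0 : ℂ)) := by
    unfold Ft
    refine ContDiffAt.sum fun i _ => ContDiffAt.sum fun j _ => ?_
    have h1 : ContDiffAt ℝ 1 (fun z : ℝ × ℂ × ℂ => b z.1 j i) ((0 : ℝ), (0 : ℂ), (0 : ℂ)) :=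
      ContDiffAt.comp (g := fun t : ℝ => b t j i) (f := fun z : ℝ × ℂ × ℂ => z.1)
        ((0 : ℝ), (0 : ℂ), (0 : ℂ)) (hb j i) contDiffAt_fst
    exact (h1.mul (by fun_prop)).mul (by fun_prop)
  have hQ : ContDiffAt ℝ 1 (fun z : ℝ × ℂ × ℂ => Qf K e (fun i j => a z.1 j i) z.2.1 z.2.2)
      ((0 : ℝ), (0 : ℂ), (0 : ℂ)) := by
    unfold Qf
    refine ContDiffAt.sum fun i _ => ContDiffAt.sum fun j _ => ?_
    have h1 : ContDiffAt ℝ 1 (fun z : ℝ × ℂ × ℂ => a z.1 j i) ((0 : ℝ), (0 : ℂ), (0 : ℂ)) :=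
      ContDiffAt.comp (g := fun t : ℝ => a t j i) (f := fun z : ℝ × ℂ × ℂ => z.1)
        ((0 : ℝ), (0 : ℂ), (0 : ℂ)) (ha j i) contDiffAt_fst
    exact ((contDiffAt_const.mul h1).mul (by fun_prop)).mul (by fun_prop)
  have hQ0 : Qf K e (fun i j => a 0 j i) 0 0 = e * a 0 0 e := by
    have hl := hlow.self_of_nhds
    unfold Qf
    rw [Finset.sum_eq_single e]
    · rw [Finset.sum_eq_single 0]
      · simp
      · intro j _ hj
        simp [hj]
      · intro h
        exact absurd (Finset.mem_range.2 (Nat.succ_pos _)) h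
    · intro i _ hi
      apply Finset.sum_eq_zero
      intro j _
      rcases Nat.eq_zero_or_pos j with rfl | hj
      · rcases lt_or_gt_of_ne hi with h1 | h1
        · simp [hl 0 i (by omega)]
        · have : i + 0 - e ≠ 0 := by omega
          rw [zero_pow this]
          simp
      · rw [zero_pow hj.ne']
        simp
    · intro h
      exact absurd (Finset.mem_range.2 (by omega)) h
  have hQne : Qf K e (fun i j => a 0 j i) 0 0 ≠ 0 := by
    rw [hQ0]
    have : (e : ℂ) ≠ 0 := by exact_mod_cast (by omega : e ≠ 0)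
    exact mul_ne_zero this hinf
  apply chart_locField K e (fun t i j => a t j i) (fun t i j => b t j i) ?_ ?_ u.swap ?_ hu2 α
    (fun _ => 0) ?_ contDiffAt_const ?_
  · filter_upwards [hlow] with t ht i j hij
    exact ht j i (by omega)
  · filter_upwards [hlowb] with t ht i j hij
    exact ht j i (by omega)
  · rw [chartInf_norm, hu]
  · rw [hpt, hα]
    exact hF.neg.mul (hQ.inv hQne)
  · rw [hpt]
    have h1 := hQ.continuousAt.eventually_ne hQne
    filter_upwards [h1] with z hz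
    rw [hα]
    simp only
    rw [mul_assoc, inv_mul_cancel₀ hz]
    ring

end H37.LM
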