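import Pool.Agent.H37.LM.Kill

/-!
# Polynomials with contact are killed by the functionals   [H37 LM ContactKill]

`contact_kill`: let `c = β x ^ 2 + γ x ^ 3`, `y' = y - c`, `κ = (μ β ^ 2, μ γ, μ β)`, `u = uP κ`, `v = y ^ 2`.
Everything is in `ℂ[X][X]` (outer variable `y`).
1. Taylor: `P = C (P.eval c) + C (P'.eval c) y' + C (P''.eval c / 2) y' ^ 2 + y' ^ 3 A`
   (`P.comp (X + C c)`, divide by `X ^ 3`), so `P = A y' ^ 3 + B x ^ 4 y' ^ 2 + E x ^ 8 y' + G x ^ 12`.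
2. With `b = β - γ x` (a polynomial in `x`), `u = μ (β ^ 2 x ^ 2 - b y)`:
   `b y' = γ ^ 2 x ^ 4 - u / μ`, and
   `β ^ 4 x ^ 4 = (u / μ + b y) ^ 2 = (u / μ) ^ 2 + 2 (u / μ) b y + b ^ 2 v`.
   So `x ^ 4` and `b y'` are in the ideal `(u, v)`; hence `b ^ 3 P ∈ (u, v) ^ 3` and `x ^ 12 ∈ (u, v) ^ 3`.
   Since `β ≠ 0`, there is a polynomial `q (x)` with `b ^ 3 q = 1 - x ^ 12 r (x)` (`b ^ 3` is invertible
   modulo `x ^ 12`).  So `P = q b ^ 3 P + r x ^ 12 P ∈ (u, v) ^ 3 = (u ^ 3, u ^ 2 v, u v ^ 2, v ^ 3)`, on which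
   the functional vanishes.
`contact_zero` (`β = 0`): `[x ^ 0] P''(x, c) = 2 P02`, `[x ^ 3] P'(x, c) = P31 + 2 γ P02`,
   `[x ^ 6] P (x, c) = P60 + γ P31 + γ ^ 2 P02` vanish, so `P60 = 0`; `[x ^ 2] P'' (x, c) = 2 P22`,
   `[x ^ 5] P' (x, c) = P51 + 2 γ P22` vanish, so `P51 = 0` (`Pij = (P.coeff j).coeff i`).
-/

noncomputable section

open Polynomial

namespace H37.LM

/-- division by `X - C c` -/
theorem ck_div (c : ℂ[X]) (P : ℂ[X][X]) : ∃ Q : ℂ[X][X], P = (X - C c) * Q + C (P.eval c) := by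
  obtain ⟨Q, hQ⟩ := X_sub_C_dvd_sub_C_eval (a := c) (p := P)
  exact ⟨Q, by rw [← hQ]; ring⟩

theorem ck_taylor (c : ℂ[X]) (P : ℂ[X][X]) (hP : ContactP P c) :
    ∃ (A : ℂ[X][X]) (B E G : ℂ[X]), P = A * (X - C c) ^ 3 + C (X ^ 4 * B) * (X - C c) ^ 2 +
      C (X ^ 8 * E) * (X - C c) + C (X ^ 12 * G) := by
  obtain ⟨P1, h1⟩ := ck_div c P
  obtain ⟨P2, h2⟩ := ck_div c P1
  obtain ⟨P3, h3⟩ := ck_div c P2
  obtain ⟨⟨G, hG⟩, ⟨E, hE⟩, ⟨B, hB⟩⟩ := hP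
  have d1 : (derivative P).eval c = P1.eval c := by
    conv_lhs => rw [h1]
    simp
  have d2 : (derivative (derivative P)).eval c = 2 * P2.eval c := by
    conv_lhs => rw [h1]
    conv_lhs => rw [h2]
    simp
    ring
  have hB' : P2.eval c = X ^ 4 * (C (2⁻¹ : ℂ) * B) := by
    have h5 : (C (2⁻¹ : ℂ) : ℂ[X]) * 2 = 1 := by
      have h6 : (2 : ℂ[X]) = C (2 : ℂ) := (map_ofNat _ 2).symm
      rw [h6, ← C_mul]
      norm_num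
    have h7 : 2 * P2.eval c = X ^ 4 * B := d2.symm.trans hB
    calc P2.eval c = (C (2⁻¹ : ℂ) * 2) * P2.eval c := by rw [h5, one_mul]
      _ = C (2⁻¹ : ℂ) * (2 * P2.eval c) := by ring
      _ = _ := by rw [h7]; ring
  refine ⟨P3, C (2⁻¹ : ℂ) * B, E, G, ?_⟩
  rw [← hB', ← hE, ← hG, d1]
  conv_lhs => rw [h1]
  conv_lhs => rw [h2]
  conv_lhs => rw [h3]
  ring

theorem ck_ring {R : Type*} [CommRing R] (x Y M M' t t' g u b : R) (hM : M * M' = 1)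
    (ht : t * t' = 1) (hu : u = M * t ^ 2 * x ^ 2 + (M * g * x - M * t) * Y)
    (hb : b = t - g * x) :
    (t' ^ 4 * M' * (M' * u + 2 * b * Y)) * u + (t' ^ 4 * b ^ 2) * Y ^ 2 = x ^ 4 ∧
    b * (Y - (t * x ^ 2 + g * x ^ 3)) = g ^ 2 * x ^ 4 - M' * u := by
  have hs : M' * u = t ^ 2 * x ^ 2 - b * Y := by
    rw [hu, hb]
    linear_combination (t ^ 2 * x ^ 2 + (g * x - t) * Y) * hM
  constructor
  · have h1 : (t' ^ 4 * M' * (M' * u + 2 * b * Y)) * u + (t' ^ 4 * b ^ 2) * Y ^ 2 =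
        t' ^ 4 * (M' * u + b * Y) ^ 2 := by ring
    rw [h1, hs]
    have h2 : t' ^ 4 * (t ^ 2 * x ^ 2 - b * Y + b * Y) ^ 2 = (t * t') ^ 4 * x ^ 4 := by ring
    rw [h2, ht]
    ring
  · rw [hs, hb]
    ring

theorem ck_cube (k0 k1 k2 : ℂ) (φ : ℕ → ℕ → ℂ) (hφ : Kills k0 k1 k2 φ) (p q r w : ℂ[X][X])
    (hp : p ∈ Ideal.span {uP k0 k1 k2, (X ^ 2 : ℂ[X][X])})
    (hq : q ∈ Ideal.span {uP k0 k1 k2, (X ^ 2 : ℂ[X][X])})
    (hr : r ∈ Ideal.span {uP k0 k1 k2, (X ^ 2 : ℂ[X][X])}) : Lf φ (p * q * r * w) = 0 := by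
  rw [Ideal.mem_span_pair] at hp hq hr
  obtain ⟨a1, b1, rfl⟩ := hp
  obtain ⟨a2, b2, rfl⟩ := hq
  obtain ⟨a3, b3, rfl⟩ := hr
  have h : (a1 * uP k0 k1 k2 + b1 * X ^ 2) * (a2 * uP k0 k1 k2 + b2 * X ^ 2) *
      (a3 * uP k0 k1 k2 + b3 * X ^ 2) * w =
      uP k0 k1 k2 ^ 3 * (a1 * a2 * a3 * w) +
      (uP k0 k1 k2 ^ 2 * X ^ 2 * ((a1 * a2 * b3 + a1 * b2 * a3 + b1 * a2 * a3) * w) +
      (uP k0 k1 k2 * X ^ 4 * ((a1 * b2 * b3 + b1 * a2 * b3 + b1 * b2 * a3) * w) +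
      X ^ 6 * (b1 * b2 * b3 * w))) := by ring
  rw [h, Lf_add, Lf_add, Lf_add, (hφ _).1, (hφ _).2.1, (hφ _).2.2.1, (hφ _).2.2.2]
  ring

theorem contact_kill (β γ μ : ℂ) (hβ : β ≠ 0) (hμ : μ ≠ 0) (P : ℂ[X][X])
    (hP : ContactP P (C β * X ^ 2 + C γ * X ^ 3)) (φ : ℕ → ℕ → ℂ)
    (hφ : Kills (μ * β ^ 2) (μ * γ) (μ * β) φ) : Lf φ P = 0 := by
  obtain ⟨A, B, E, G, hT⟩ := ck_taylor _ P hP
  obtain ⟨h1, h2⟩ := ck_ring (C X : ℂ[X][X]) X (C (C μ)) (C (C μ⁻¹)) (C (C β)) (C (C β⁻¹))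
    (C (C γ)) (uP (μ * β ^ 2) (μ * γ) (μ * β)) (C (C β - C γ * X))
    (by rw [← C_mul, ← C_mul, mul_inv_cancel₀ hμ, C_1, C_1])
    (by rw [← C_mul, ← C_mul, mul_inv_cancel₀ hβ, C_1, C_1])
    (by unfold uP; simp only [C_add, C_mul, C_sub, C_pow])
    (by simp only [C_sub, C_mul])
  set I0 : Ideal ℂ[X][X] := Ideal.span {uP (μ * β ^ 2) (μ * γ) (μ * β), (X ^ 2 : ℂ[X][X])} with hI0
  have hu : uP (μ * β ^ 2) (μ * γ) (μ * β) ∈ I0 := Ideal.subset_span (by simp)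
  have hx4 : (C X : ℂ[X][X]) ^ 4 ∈ I0 := by
    rw [hI0, Ideal.mem_span_pair]
    exact ⟨_, _, h1⟩
  have hy : (C (C β - C γ * X) : ℂ[X][X]) * (X - C (C β * X ^ 2 + C γ * X ^ 3)) ∈ I0 := by
    have h3 : (C (C β * X ^ 2 + C γ * X ^ 3) : ℂ[X][X]) =
        C (C β) * C X ^ 2 + C (C γ) * C X ^ 3 := by
      simp only [C_add, C_mul, C_pow]
    rw [h3, h2]
    exact I0.sub_mem (I0.mul_mem_left _ hx4) (I0.mul_mem_left _ hu)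
  have hcop : IsCoprime ((C β - C γ * X) ^ 3 : ℂ[X]) (X ^ 12) := by
    apply IsCoprime.pow
    refine ⟨C β⁻¹, C β⁻¹ * C γ, ?_⟩
    have h4 : (C β⁻¹ : ℂ[X]) * C β = 1 := by
      rw [← C_mul, inv_mul_cancel₀ hβ, C_1]
    linear_combination h4
  obtain ⟨q, r, hqr⟩ := hcop
  have hqr' : (C q : ℂ[X][X]) * C (C β - C γ * X) ^ 3 + C r * C X ^ 12 = 1 := by
    rw [← C_pow, ← C_pow, ← C_mul, ← C_mul, ← C_add, hqr, C_1]
  generalize hyy : (X - C (C β * X ^ 2 + C γ * X ^ 3) : ℂ[X][X]) = yy at hT hy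
  generalize hbb : (C (C β - C γ * X) : ℂ[X][X]) = bb at hy hqr'
  have hT' : P = A * yy ^ 3 + C X ^ 4 * C B * yy ^ 2 + C X ^ 8 * C E * yy + C X ^ 12 * C G := by
    rw [hT]
    simp only [C_mul, C_pow]
  generalize (C X : ℂ[X][X]) = x at hx4 hqr' hT'
  have hfin : P = (bb * yy) * (bb * yy) * (bb * yy) * (C q * A) +
      (x ^ 4 * (bb * yy) * (bb * yy) * (C q * bb * C B) +
      (x ^ 4 * x ^ 4 * (bb * yy) * (C q * bb ^ 2 * C E) +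
      (x ^ 4 * x ^ 4 * x ^ 4 * (C q * bb ^ 3 * C G + C r * P)))) := by
    calc P = (C q * bb ^ 3 + C r * x ^ 12) * P := by rw [hqr', one_mul]
      _ = C q * bb ^ 3 * P + C r * x ^ 12 * P := by ring
      _ = C q * bb ^ 3 * (A * yy ^ 3 + x ^ 4 * C B * yy ^ 2 + x ^ 8 * C E * yy + x ^ 12 * C G) +
          C r * x ^ 12 * P := by rw [← hT']
      _ = _ := by ring
  rw [hfin, Lf_add, Lf_add, Lf_add, ck_cube _ _ _ φ hφ _ _ _ _ hy hy hy,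
    ck_cube _ _ _ φ hφ _ _ _ _ hx4 hy hy, ck_cube _ _ _ φ hφ _ _ _ _ hx4 hx4 hy,
    ck_cube _ _ _ φ hφ _ _ _ _ hx4 hx4 hx4]
  ring

/-- splitting off the first four coefficients -/
theorem ck_split (P : ℂ[X][X]) : ∃ Q : ℂ[X][X], P = C (P.coeff 0) + C (P.coeff 1) * X +
    C (P.coeff 2) * X ^ 2 + C (P.coeff 3) * X ^ 3 + X ^ 4 * Q := by
  refine ⟨P.divX.divX.divX.divX, ?_⟩
  have h0 := P.divX_mul_X_add
  have h1 := P.divX.divX_mul_X_add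
  have h2 := P.divX.divX.divX_mul_X_add
  have h3 := P.divX.divX.divX.divX_mul_X_add
  simp only [coeff_divX, zero_add] at h0 h1 h2 h3
  norm_num at h0 h1 h2 h3
  linear_combination (-1 : ℂ[X][X]) * h0 - X * h1 - X ^ 2 * h2 - X ^ 3 * h3

theorem ck_eval (β γ : ℂ) (P : ℂ[X][X]) :
    (P.eval (C β * X ^ 2 + C γ * X ^ 3)).coeff 0 = (P.coeff 0).coeff 0 ∧
    (P.eval (C β * X ^ 2 + C γ * X ^ 3)).coeff 2 = (P.coeff 0).coeff 2 +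
      β * (P.coeff 1).coeff 0 ∧
    (P.eval (C β * X ^ 2 + C γ * X ^ 3)).coeff 3 = (P.coeff 0).coeff 3 +
      β * (P.coeff 1).coeff 1 + γ * (P.coeff 1).coeff 0 ∧
    (P.eval (C β * X ^ 2 + C γ * X ^ 3)).coeff 5 = (P.coeff 0).coeff 5 +
      β * (P.coeff 1).coeff 3 + γ * (P.coeff 1).coeff 2 + β ^ 2 * (P.coeff 2).coeff 1 +
      2 * β * γ * (P.coeff 2).coeff 0 ∧
    (P.eval (C β * X ^ 2 + C γ * X ^ 3)).coeff 6 = (P.coeff 0).coeff 6 +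
      β * (P.coeff 1).coeff 4 + γ * (P.coeff 1).coeff 3 + β ^ 2 * (P.coeff 2).coeff 2 +
      2 * β * γ * (P.coeff 2).coeff 1 + γ ^ 2 * (P.coeff 2).coeff 0 +
      β ^ 3 * (P.coeff 3).coeff 0 := by
  obtain ⟨Q, hQ⟩ := ck_split P
  obtain ⟨W, hW⟩ : ∃ W : ℂ[X], P.eval (C β * X ^ 2 + C γ * X ^ 3) = P.coeff 0 +
      C β * (P.coeff 1 * X ^ 2) + C γ * (P.coeff 1 * X ^ 3) + C (β ^ 2) * (P.coeff 2 * X ^ 4) +
      C (2 * β * γ) * (P.coeff 2 * X ^ 5) + C (γ ^ 2) * (P.coeff 2 * X ^ 6) +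
      C (β ^ 3) * (P.coeff 3 * X ^ 6) + W * X ^ 7 := by
    refine ⟨P.coeff 3 * (3 * C β ^ 2 * C γ + 3 * C β * C γ ^ 2 * X + C γ ^ 3 * X ^ 2) +
      X * (C β + C γ * X) ^ 4 * Q.eval (C β * X ^ 2 + C γ * X ^ 3), ?_⟩
    conv_lhs => rw [hQ]
    simp only [eval_add, eval_mul, eval_pow, eval_C, eval_X, C_mul, C_pow]
    have h2 : (C (2 : ℂ) : ℂ[X]) = 2 := map_ofNat _ 2
    rw [h2]
    ring
  rw [hW]
  refine ⟨?_, ?_, ?_, ?_, ?_⟩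
  all_goals
    simp only [coeff_add, coeff_C_mul, coeff_mul_X_pow']
    norm_num

theorem ck_der (P : ℂ[X][X]) (n k : ℕ) :
    ((derivative P).coeff n).coeff k = ((n : ℂ) + 1) * (P.coeff (n + 1)).coeff k := by
  rw [coeff_derivative]
  have h : ((n : ℂ[X]) + 1) = C ((n : ℂ) + 1) := by simp
  rw [h, coeff_mul_C]
  ring

theorem ck_dvd {n : ℕ} {p : ℂ[X]} (h : X ^ n ∣ p) {k : ℕ} (hk : k < n) : p.coeff k = 0 :=
  X_pow_dvd_iff.1 h k hk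

theorem contact_zero (γ : ℂ) (P : ℂ[X][X]) (hP : ContactP P (C γ * X ^ 3)) :
    (P.coeff 0).coeff 6 = 0 ∧ (P.coeff 1).coeff 5 = 0 := by
  have hc : (C γ * X ^ 3 : ℂ[X]) = C 0 * X ^ 2 + C γ * X ^ 3 := by simp
  rw [hc] at hP
  obtain ⟨hG, hE, hB⟩ := hP
  obtain ⟨_, _, _, _, e6⟩ := ck_eval 0 γ P
  obtain ⟨_, _, e3, e5, _⟩ := ck_eval 0 γ (derivative P)
  obtain ⟨e0, e2, _, _, _⟩ := ck_eval 0 γ (derivative (derivative P))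
  rw [ck_dvd hG (by norm_num)] at e6
  rw [ck_dvd hE (by norm_num)] at e3 e5
  rw [ck_dvd hB (by norm_num)] at e0 e2
  simp only [ck_der] at e0 e2 e3 e5
  norm_num at e0 e2 e3 e5 e6
  rw [e0] at e3 e6
  rw [e2] at e5
  norm_num at e3 e5 e6
  rw [← e3] at e6
  norm_num at e6
  exact ⟨e6.symm, e5.symm⟩

/-- The coefficients of `x ^ 6` and `x ^ 5` in the contact conditions. -/
theorem contact_low (β γ : ℂ) (P : ℂ[X][X]) (hP : ContactP P (C β * X ^ 2 + C γ * X ^ 3)) :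
    (P.coeff 0).coeff 6 + (P.coeff 1).coeff 4 * β + (P.coeff 1).coeff 3 * γ +
      (P.coeff 2).coeff 2 * β ^ 2 + 2 * (P.coeff 2).coeff 1 * β * γ + (P.coeff 2).coeff 0 * γ ^ 2 +
      (P.coeff 3).coeff 0 * β ^ 3 = 0 ∧
    (P.coeff 1).coeff 5 + 2 * (P.coeff 2).coeff 3 * β + 2 * (P.coeff 2).coeff 2 * γ +
      3 * (P.coeff 3).coeff 1 * β ^ 2 + 6 * (P.coeff 3).coeff 0 * β * γ = 0 := by
  obtain ⟨hG, hE, _⟩ := hP
  obtain ⟨_, _, _, _, e6⟩ := ck_eval β γ P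
  obtain ⟨_, _, _, e5, _⟩ := ck_eval β γ (derivative P)
  rw [ck_dvd hG (by norm_num)] at e6
  rw [ck_dvd hE (by norm_num)] at e5
  simp only [ck_der] at e5
  norm_num at e5
  constructor
  · linear_combination -e6
  · linear_combination -e5

end H37.LM
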