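import Pool.Agent.H37.LM.ContactKill

/-!
# Limits of polynomials with contact   [H37 LM ContactLim]

Write `Pij = ((P n).coeff j).coeff i`; `Pij → g i j` along the ultrafilter `l`.  For an ultrafilter every
property holds eventually or fails eventually, and every eventually bounded complex function
converges (`Ultrafilter.le_nhds_lim` / `IsCompact.ultrafilter_le_nhds`).

Case 1: `‖β‖ ≤ M` and `‖γ‖ ≤ M` eventually, for some `M`.  In `contact_low` all terms except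
`P60`, `P51` tend to `0` (they contain `Pij` with `i + j < 6`, `g i j = 0`).  So `g 6 0 = g 5 1 = 0`.
Case 2: `β = 0` eventually: `contact_zero`, `g 6 0 = g 5 1 = 0`.
Case 3: `β ≠ 0` eventually, and `τ = γ / β ^ 2` is eventually bounded, not Case 1.  Then
`β → ∞` (if `β` is eventually bounded, so is `γ = τ β ^ 2`), `ε = 1 / β → 0`, `τ → τ0`.  `contact_kill`
with `μ = 1 / β ^ 2`: `Lf (fA 1 τ ε) P = Lf (fB 1 τ ε) P = Lf (fC 1 τ ε) P = 0`; write them as finite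
sums (`Lf_sum`, `N = 12`).  The coefficients converge to those of `fA 1 τ0 0` etc., which vanish unless
`i + j = 6`.  Limits:
`τ⁵ g60 - τ⁴ g51 + τ³ g42 - τ² g33 + τ g24 - g15 = 0`, `4 τ³ g60 - 3 τ² g51 + 2 τ g42 - g33 = 0`,
`3 τ g60 - g51 = 0`, equivalent to the second alternative.
Case 4: `β ≠ 0` eventually, `τ` not eventually bounded, not Case 1: `‖τ‖ → ∞`.  Then `γ ≠ 0` eventually and
`γ → ∞` (if `γ` is bounded then `‖β‖ ^ 2 ≤ ‖γ‖ / ‖τ‖` is bounded: Case 1).  Put `s = β ^ 2 / γ = 1 / τ → 0`,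
`δ = β / γ`, `δ ^ 2 = s / γ → 0`.  `contact_kill` with `μ = 1 / γ`, `κ = (s, 1, δ)`.  The coefficient of
`fA s 1 δ` at `(i, j)` is `const * δ ^ (i + j - 6) * s ^ j`: `Lf (fA ..) P → g60`, so `g60 = 0`.  The
combination `- 6 fA + 3 fB - 2 fC` has coefficients `const * δ ^ (i + j - 6) * s ^ j` with
const `= 0` at `(6, 0)` and `(7, 0)`, and `-1` at `(5, 1)`.  Divide by `s`: the terms with `j ≥ 1`,
`(i, j) ≠ (5, 1)`, tend to `0`; the terms with `j = 0`, `i ≥ 8` are `const * δ ^ (i - 8) * (δ ^ 2 / s) * Pi0`,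
`δ ^ 2 / s = 1 / γ → 0`.  So `g51 = 0`.
-/

noncomputable section

open Polynomial Filter Topology

namespace H37.LM

def clS (φ q : ℕ → ℕ → ℂ) : ℂ := ∑ i ∈ Finset.range 12, ∑ j ∈ Finset.range 12, φ i j * q i j

theorem cl_red (φ q : ℕ → ℕ → ℂ) (h : ∀ i j, 6 ≤ j → φ i j = 0) :
    clS φ q = ∑ i ∈ Finset.range 12, ∑ j ∈ Finset.range 6, φ i j * q i j := by
  unfold clS
  refine Finset.sum_congr rfl fun i _ => ?_
  symm
  apply Finset.sum_subset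
  · intro j hj
    rw [Finset.mem_range] at *
    omega
  · intro j _ hj
    rw [Finset.mem_range] at hj
    rw [h i j (by omega), zero_mul]

theorem cl_SC (k0 k1 k2 : ℂ) (q : ℕ → ℕ → ℂ) : clS (fC k0 k1 k2) q =
      3 * k1 * q 6 0 - 3 * k2 * q 7 0 - k0 * q 5 1 := by
  rw [cl_red]
  · simp only [Finset.sum_range_succ, Finset.sum_range_zero, fC]
    norm_num [Nat.choose]
    ring
  · intro i j hj
    unfold fC
    rw [if_neg (by omega)]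

theorem cl_SB (k0 k1 k2 : ℂ) (q : ℕ → ℕ → ℂ) : clS (fB k0 k1 k2) q =
      4 * k1 ^ 3 * q 6 0 - 12 * k2 * k1 ^ 2 * q 7 0 + 12 * k2 ^ 2 * k1 * q 8 0
       - 4 * k2 ^ 3 * q 9 0 - 3 * k1 ^ 2 * k0 * q 5 1 + 6 * k2 * k1 * k0 * q 6 1
       - 3 * k2 ^ 2 * k0 * q 7 1 + 2 * k1 * k0 ^ 2 * q 4 2 - 2 * k2 * k0 ^ 2 * q 5 2
       - k0 ^ 3 * q 3 3 := by
  rw [cl_red]
  · simp only [Finset.sum_range_succ, Finset.sum_range_zero, fB]
    norm_num [Nat.choose]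
    ring
  · intro i j hj
    unfold fB
    rw [if_neg (by omega)]

theorem cl_SA (k0 k1 k2 : ℂ) (q : ℕ → ℕ → ℂ) : clS (fA k0 k1 k2) q =
      k1 ^ 5 * q 6 0 - 5 * k2 * k1 ^ 4 * q 7 0 + 10 * k2 ^ 2 * k1 ^ 3 * q 8 0
       - 10 * k2 ^ 3 * k1 ^ 2 * q 9 0 + 5 * k2 ^ 4 * k1 * q 10 0 - k2 ^ 5 * q 11 0
       - k1 ^ 4 * k0 * q 5 1 + 4 * k2 * k1 ^ 3 * k0 * q 6 1 - 6 * k2 ^ 2 * k1 ^ 2 * k0 * q 7 1
       + 4 * k2 ^ 3 * k1 * k0 * q 8 1 - k2 ^ 4 * k0 * q 9 1 + k1 ^ 3 * k0 ^ 2 * q 4 2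
       - 3 * k2 * k1 ^ 2 * k0 ^ 2 * q 5 2 + 3 * k2 ^ 2 * k1 * k0 ^ 2 * q 6 2
       - k2 ^ 3 * k0 ^ 2 * q 7 2
       - k1 ^ 2 * k0 ^ 3 * q 3 3 + 2 * k2 * k1 * k0 ^ 3 * q 4 3 - k2 ^ 2 * k0 ^ 3 * q 5 3
       + k1 * k0 ^ 4 * q 2 4 - k2 * k0 ^ 4 * q 3 4 - k0 ^ 5 * q 1 5 := by
  rw [cl_red]
  · simp only [Finset.sum_range_succ, Finset.sum_range_zero, fA]
    norm_num [Nat.choose]
    ring
  · intro i j hj
    unfold fA
    rw [if_neg (by omega)]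

theorem cl_bdd {ι : Type*} (l : Ultrafilter ι) (f : ι → ℂ) (M : ℝ)
    (h : ∀ᶠ n in (l : Filter ι), ‖f n‖ ≤ M) : ∃ a, Tendsto f (l : Filter ι) (𝓝 a) := by
  have h1 : ((l.map f : Ultrafilter ℂ) : Filter ℂ) ≤ 𝓟 (Metric.closedBall (0 : ℂ) M) := by
    rw [Filter.le_principal_iff, Ultrafilter.coe_map, Filter.mem_map]
    filter_upwards [h] with n hn
    rw [Set.mem_preimage, Metric.mem_closedBall, dist_zero_right]
    exact hn
  obtain ⟨a, _, ha⟩ := (isCompact_closedBall (0 : ℂ) M).ultrafilter_le_nhds (l.map f) h1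
  exact ⟨a, ha⟩

theorem cl_unb {ι : Type*} (l : Ultrafilter ι) (f : ι → ℂ)
    (h : ¬ ∃ M : ℝ, ∀ᶠ n in (l : Filter ι), ‖f n‖ ≤ M) :
    Tendsto (fun n => ‖f n‖) (l : Filter ι) atTop := by
  rw [tendsto_atTop]
  intro M
  have h1 : ¬ ∀ᶠ n in (l : Filter ι), ‖f n‖ ≤ M := fun h2 => h ⟨M, h2⟩
  rw [← Ultrafilter.eventually_not] at h1
  filter_upwards [h1] with n hn
  exact (not_le.1 hn).le

theorem cl_inv {ι : Type*} (l : Ultrafilter ι) (f : ι → ℂ)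
    (h : Tendsto (fun n => ‖f n‖) (l : Filter ι) atTop) :
    Tendsto (fun n => (f n)⁻¹) (l : Filter ι) (𝓝 0) := by
  rw [tendsto_zero_iff_norm_tendsto_zero]
  simp only [norm_inv]
  exact h.inv_tendsto_atTop

theorem cl_lim {ι X : Type*} [TopologicalSpace X] (l : Ultrafilter ι) (F : X → ℂ)
    (hF : Continuous F) (x : ι → X) (a : X) (hx : Tendsto x (l : Filter ι) (𝓝 a))
    (h0 : ∀ᶠ n in (l : Filter ι), F (x n) = 0) : F a = 0 :=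
  tendsto_nhds_unique ((hF.tendsto a).comp hx)
    (tendsto_const_nhds.congr' (h0.mono fun n hn => hn.symm))

theorem cl_kill {β γ μ : ℂ} (hβ : β ≠ 0) (hμ : μ ≠ 0) {P : ℂ[X][X]}
    (hP : ContactP P (C β * X ^ 2 + C γ * X ^ 3)) {k0 k1 k2 : ℂ} (h0 : μ * β ^ 2 = k0)
    (h1 : μ * γ = k1) (h2 : μ * β = k2) :
    clS (fA k0 k1 k2) (fun i j => (P.coeff j).coeff i) = 0 ∧
    clS (fB k0 k1 k2) (fun i j => (P.coeff j).coeff i) = 0 ∧
    clS (fC k0 k1 k2) (fun i j => (P.coeff j).coeff i) = 0 := by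
  subst h0 h1 h2
  have hA := contact_kill β γ μ hβ hμ P hP _ (killsA _ _ _)
  have hB := contact_kill β γ μ hβ hμ P hP _ (killsB _ _ _)
  have hC := contact_kill β γ μ hβ hμ P hP _ (killsC _ _ _)
  rw [Lf_sum _ 12] at hA hB hC
  · exact ⟨hA, hB, hC⟩
  · intro i j hij
    unfold fC
    split_ifs with h
    · rw [Nat.choose_eq_zero_of_lt (n := 3 - j) (k := i + j - 4) (by omega)]
      simp
    · rfl
  · intro i j hij
    unfold fB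
    split_ifs with h
    · rw [Nat.choose_eq_zero_of_lt (n := 4 - j) (k := i + j - 5) (by omega)]
      simp
    · rfl
  · intro i j hij
    unfold fA
    split_ifs with h
    · rw [Nat.choose_eq_zero_of_lt (n := 5 - j) (k := i + j - 6) (by omega)]
      simp
    · rfl

/-- the combination divided by `s` -/
def clE (s δ ν : ℂ) (q : ℕ → ℕ → ℂ) : ℂ :=
  -24 * ν * q 8 0 + 48 * δ * ν * q 9 0 - 30 * δ ^ 2 * ν * q 10 0 + 6 * δ ^ 3 * ν * q 11 0 - q 5 1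
    - 6 * δ * q 6 1 + 27 * δ ^ 2 * q 7 1 - 24 * δ ^ 3 * q 8 1 + 6 * δ ^ 4 * q 9 1
    + 12 * δ * s * q 5 2 - 18 * δ ^ 2 * s * q 6 2 + 6 * δ ^ 3 * s * q 7 2 + 3 * s ^ 2 * q 3 3
    - 12 * δ * s ^ 2 * q 4 3 + 6 * δ ^ 2 * s ^ 2 * q 5 3 - 6 * s ^ 3 * q 2 4
    + 6 * δ * s ^ 3 * q 3 4 + 6 * s ^ 4 * q 1 5

theorem clE_eq (s δ ν : ℂ) (q : ℕ → ℕ → ℂ) (hδ : δ ^ 2 = s * ν) :
    s * clE s δ ν q = -6 * clS (fA s 1 δ) q + 3 * clS (fB s 1 δ) q - 2 * clS (fC s 1 δ) q := by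
  rw [cl_SA, cl_SB, cl_SC, clE]
  linear_combination (24 * q 8 0 - 48 * δ * q 9 0 + 30 * δ ^ 2 * q 10 0 - 6 * δ ^ 3 * q 11 0) * hδ

theorem cl_case1 {ι : Type*} (l : Ultrafilter ι) (P : ι → ℂ[X][X]) (β γ : ι → ℂ)
    (g : ℕ → ℕ → ℂ)
    (hq : Tendsto (fun n => fun i j => ((P n).coeff j).coeff i) (l : Filter ι) (𝓝 g))
    (hg : ∀ i j, i + j < 6 → g i j = 0)
    (hc : ∀ᶠ n in (l : Filter ι), ContactP (P n) (C (β n) * X ^ 2 + C (γ n) * X ^ 3))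
    (M : ℝ) (hM : ∀ᶠ n in (l : Filter ι), ‖β n‖ ≤ M ∧ ‖γ n‖ ≤ M) :
    g 6 0 = 0 ∧ g 5 1 = 0 := by
  obtain ⟨b, hb⟩ := cl_bdd l β M (hM.mono fun n hn => hn.1)
  obtain ⟨c, hcc⟩ := cl_bdd l γ M (hM.mono fun n hn => hn.2)
  have hx := hb.prodMk_nhds (hcc.prodMk_nhds hq)
  have h1 := cl_lim l (fun x : ℂ × ℂ × (ℕ → ℕ → ℂ) =>
    x.2.2 6 0 + x.2.2 4 1 * x.1 + x.2.2 3 1 * x.2.1 + x.2.2 2 2 * x.1 ^ 2 +
      2 * x.2.2 1 2 * x.1 * x.2.1 + x.2.2 0 2 * x.2.1 ^ 2 + x.2.2 0 3 * x.1 ^ 3)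
    (by fun_prop) _ _ hx (hc.mono fun n hn => (contact_low _ _ _ hn).1)
  have h2 := cl_lim l (fun x : ℂ × ℂ × (ℕ → ℕ → ℂ) =>
    x.2.2 5 1 + 2 * x.2.2 3 2 * x.1 + 2 * x.2.2 2 2 * x.2.1 + 3 * x.2.2 1 3 * x.1 ^ 2 +
      6 * x.2.2 0 3 * x.1 * x.2.1)
    (by fun_prop) _ _ hx (hc.mono fun n hn => (contact_low _ _ _ hn).2)
  simp only at h1 h2
  rw [hg 4 1 (by norm_num), hg 3 1 (by norm_num), hg 2 2 (by norm_num), hg 1 2 (by norm_num),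
    hg 0 2 (by norm_num), hg 0 3 (by norm_num)] at h1
  rw [hg 3 2 (by norm_num), hg 2 2 (by norm_num), hg 1 3 (by norm_num),
    hg 0 3 (by norm_num)] at h2
  constructor
  · linear_combination h1
  · linear_combination h2

theorem cl_case2 {ι : Type*} (l : Ultrafilter ι) (P : ι → ℂ[X][X]) (β γ : ι → ℂ)
    (g : ℕ → ℕ → ℂ)
    (hq : Tendsto (fun n => fun i j => ((P n).coeff j).coeff i) (l : Filter ι) (𝓝 g))
    (hc : ∀ᶠ n in (l : Filter ι), ContactP (P n) (C (β n) * X ^ 2 + C (γ n) * X ^ 3))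
    (h0 : ∀ᶠ n in (l : Filter ι), β n = 0) :
    g 6 0 = 0 ∧ g 5 1 = 0 := by
  have h1 : ∀ᶠ n in (l : Filter ι), ((P n).coeff 0).coeff 6 = 0 ∧ ((P n).coeff 1).coeff 5 = 0 := by
    filter_upwards [hc, h0] with n hn hn0
    apply contact_zero (γ n)
    rw [hn0, map_zero, zero_mul, zero_add] at hn
    exact hn
  constructor
  · exact cl_lim l (fun x : ℕ → ℕ → ℂ => x 6 0) (by fun_prop) _ _ hq (h1.mono fun n hn => hn.1)
  · exact cl_lim l (fun x : ℕ → ℕ → ℂ => x 5 1) (by fun_prop) _ _ hq (h1.mono fun n hn => hn.2)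

theorem cl_case3 {ι : Type*} (l : Ultrafilter ι) (P : ι → ℂ[X][X]) (β γ : ι → ℂ)
    (g : ℕ → ℕ → ℂ)
    (hq : Tendsto (fun n => fun i j => ((P n).coeff j).coeff i) (l : Filter ι) (𝓝 g))
    (hc : ∀ᶠ n in (l : Filter ι), ContactP (P n) (C (β n) * X ^ 2 + C (γ n) * X ^ 3))
    (h0 : ∀ᶠ n in (l : Filter ι), β n ≠ 0)
    (hb : Tendsto (fun n => ‖β n‖) (l : Filter ι) atTop)
    (M : ℝ) (hM : ∀ᶠ n in (l : Filter ι), ‖γ n / β n ^ 2‖ ≤ M) :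
    ∃ τ : ℂ, g 5 1 = 3 * τ * g 6 0 ∧ g 3 3 = 2 * τ * g 4 2 - 5 * τ ^ 3 * g 6 0 ∧
      g 1 5 = τ * g 2 4 - τ ^ 3 * g 4 2 + 3 * τ ^ 5 * g 6 0 := by
  obtain ⟨τ, hτ⟩ := cl_bdd l _ M hM
  have hε := cl_inv l β hb
  have hx := hτ.prodMk_nhds (hε.prodMk_nhds hq)
  have hk : ∀ᶠ n in (l : Filter ι),
      clS (fA 1 (γ n / β n ^ 2) (β n)⁻¹) (fun i j => ((P n).coeff j).coeff i) = 0 ∧
      clS (fB 1 (γ n / β n ^ 2) (β n)⁻¹) (fun i j => ((P n).coeff j).coeff i) = 0 ∧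
      clS (fC 1 (γ n / β n ^ 2) (β n)⁻¹) (fun i j => ((P n).coeff j).coeff i) = 0 := by
    filter_upwards [hc, h0] with n hn hn0
    refine cl_kill (μ := (β n ^ 2)⁻¹) hn0 (inv_ne_zero (pow_ne_zero 2 hn0)) hn ?_ ?_ ?_
    · exact inv_mul_cancel₀ (pow_ne_zero 2 hn0)
    · rw [div_eq_mul_inv, mul_comm]
    · field_simp
  have hA := cl_lim l (fun x : ℂ × ℂ × (ℕ → ℕ → ℂ) => clS (fA 1 x.1 x.2.1) x.2.2)
    (by simp only [cl_SA]; fun_prop) _ _ hx (hk.mono fun n hn => hn.1)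
  have hB := cl_lim l (fun x : ℂ × ℂ × (ℕ → ℕ → ℂ) => clS (fB 1 x.1 x.2.1) x.2.2)
    (by simp only [cl_SB]; fun_prop) _ _ hx (hk.mono fun n hn => hn.2.1)
  have hC := cl_lim l (fun x : ℂ × ℂ × (ℕ → ℕ → ℂ) => clS (fC 1 x.1 x.2.1) x.2.2)
    (by simp only [cl_SC]; fun_prop) _ _ hx (hk.mono fun n hn => hn.2.2)
  simp only [cl_SA, cl_SB, cl_SC] at hA hB hC
  refine ⟨τ, ?_, ?_, ?_⟩
  · linear_combination -hC
  · linear_combination -hB + 3 * τ ^ 2 * hC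
  · linear_combination -hA + τ ^ 2 * hB - (3 * τ ^ 4 - τ ^ 4) * hC

theorem cl_case4 {ι : Type*} (l : Ultrafilter ι) (P : ι → ℂ[X][X]) (β γ : ι → ℂ)
    (g : ℕ → ℕ → ℂ)
    (hq : Tendsto (fun n => fun i j => ((P n).coeff j).coeff i) (l : Filter ι) (𝓝 g))
    (hc : ∀ᶠ n in (l : Filter ι), ContactP (P n) (C (β n) * X ^ 2 + C (γ n) * X ^ 3))
    (h0 : ∀ᶠ n in (l : Filter ι), β n ≠ 0)
    (hτ : Tendsto (fun n => ‖γ n / β n ^ 2‖) (l : Filter ι) atTop)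
    (hγ : Tendsto (fun n => ‖γ n‖) (l : Filter ι) atTop) :
    g 6 0 = 0 ∧ g 5 1 = 0 := by
  have hs := cl_inv l _ hτ
  have hν := cl_inv l _ hγ
  have hγ0 : ∀ᶠ n in (l : Filter ι), γ n ≠ 0 := by
    filter_upwards [hγ.eventually_ge_atTop 1] with n hn h
    rw [h, norm_zero] at hn
    linarith
  have hδ2 : ∀ᶠ n in (l : Filter ι),
      (β n / γ n) ^ 2 = (γ n / β n ^ 2)⁻¹ * (γ n)⁻¹ := by
    filter_upwards [h0, hγ0] with n hn hn'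
    field_simp
  have hδ2l : Tendsto (fun n => (β n / γ n) ^ 2) (l : Filter ι) (𝓝 0) := by
    have h1 := hs.mul hν
    rw [mul_zero] at h1
    exact h1.congr' (hδ2.mono fun n hn => hn.symm)
  have hδ : Tendsto (fun n => β n / γ n) (l : Filter ι) (𝓝 0) := by
    have h1 : ∀ᶠ n in (l : Filter ι), ‖β n / γ n‖ ≤ 1 := by
      have h2 := (tendsto_zero_iff_norm_tendsto_zero.1 hδ2l).eventually
        (eventually_le_nhds (show (0 : ℝ) < 1 by norm_num))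
      filter_upwards [h2] with n hn
      rw [norm_pow] at hn
      exact (pow_le_one_iff_of_nonneg (norm_nonneg _) two_ne_zero).1 hn
    obtain ⟨d, hd⟩ := cl_bdd l _ 1 h1
    have h3 := tendsto_nhds_unique (hd.pow 2) hδ2l
    rw [pow_eq_zero_iff two_ne_zero] at h3
    rw [h3] at hd
    exact hd
  have hx := hs.prodMk_nhds (hδ.prodMk_nhds (hν.prodMk_nhds hq))
  have hk : ∀ᶠ n in (l : Filter ι),
      clS (fA (γ n / β n ^ 2)⁻¹ 1 (β n / γ n)) (fun i j => ((P n).coeff j).coeff i) = 0 ∧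
      clS (fB (γ n / β n ^ 2)⁻¹ 1 (β n / γ n)) (fun i j => ((P n).coeff j).coeff i) = 0 ∧
      clS (fC (γ n / β n ^ 2)⁻¹ 1 (β n / γ n)) (fun i j => ((P n).coeff j).coeff i) = 0 := by
    filter_upwards [hc, h0, hγ0] with n hn hn0 hn1
    refine cl_kill (μ := (γ n)⁻¹) hn0 (inv_ne_zero hn1) hn ?_ ?_ ?_
    · rw [inv_div, div_eq_mul_inv, mul_comm]
    · exact inv_mul_cancel₀ hn1
    · rw [div_eq_mul_inv, mul_comm]
  have hA := cl_lim l (fun x : ℂ × ℂ × ℂ × (ℕ → ℕ → ℂ) => clS (fA x.1 1 x.2.1) x.2.2.2)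
    (by simp only [cl_SA]; fun_prop) _ _ hx (hk.mono fun n hn => hn.1)
  have hE := cl_lim l (fun x : ℂ × ℂ × ℂ × (ℕ → ℕ → ℂ) => clE x.1 x.2.1 x.2.2.1 x.2.2.2)
    (by simp only [clE]; fun_prop) _ _ hx (by
      filter_upwards [hk, hδ2, h0, hγ0] with n hn hn2 hn0 hn1
      have h1 := clE_eq (γ n / β n ^ 2)⁻¹ (β n / γ n) (γ n)⁻¹
        (fun i j => ((P n).coeff j).coeff i) hn2
      rw [hn.1, hn.2.1, hn.2.2, mul_zero, mul_zero, mul_zero, add_zero, sub_zero] at h1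
      rcases mul_eq_zero.1 h1 with h2 | h2
      · exfalso
        rw [inv_eq_zero, div_eq_zero_iff] at h2
        rcases h2 with h3 | h3
        · exact hn1 h3
        · exact hn0 ((pow_eq_zero_iff two_ne_zero).1 h3)
      · exact h2)
  simp only [cl_SA, clE] at hA hE
  constructor
  · linear_combination hA
  · linear_combination -hE

theorem contact_lim {ι : Type*} (l : Ultrafilter ι) (P : ι → ℂ[X][X]) (β γ : ι → ℂ)
    (g : ℕ → ℕ → ℂ)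
    (hP : ∀ i j, Tendsto (fun n => ((P n).coeff j).coeff i) (l : Filter ι) (𝓝 (g i j)))
    (hg : ∀ i j, i + j < 6 → g i j = 0)
    (hc : ∀ᶠ n in (l : Filter ι), ContactP (P n) (C (β n) * X ^ 2 + C (γ n) * X ^ 3)) :
    (g 6 0 = 0 ∧ g 5 1 = 0) ∨
    ∃ τ : ℂ, g 5 1 = 3 * τ * g 6 0 ∧ g 3 3 = 2 * τ * g 4 2 - 5 * τ ^ 3 * g 6 0 ∧
      g 1 5 = τ * g 2 4 - τ ^ 3 * g 4 2 + 3 * τ ^ 5 * g 6 0 := by
  have hq : Tendsto (fun n => fun i j => ((P n).coeff j).coeff i) (l : Filter ι) (𝓝 g) := by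
    rw [tendsto_pi_nhds]
    intro i
    rw [tendsto_pi_nhds]
    intro j
    exact hP i j
  by_cases h1 : ∃ M : ℝ, ∀ᶠ n in (l : Filter ι), ‖β n‖ ≤ M ∧ ‖γ n‖ ≤ M
  · obtain ⟨M, hM⟩ := h1
    exact Or.inl (cl_case1 l P β γ g hq hg hc M hM)
  rcases l.em (fun n => β n = 0) with h2 | h2
  · exact Or.inl (cl_case2 l P β γ g hq hc h2)
  by_cases h3 : ∃ M : ℝ, ∀ᶠ n in (l : Filter ι), ‖γ n / β n ^ 2‖ ≤ M
  · obtain ⟨M, hM⟩ := h3
    right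
    refine cl_case3 l P β γ g hq hc h2 (cl_unb l β ?_) M hM
    rintro ⟨B, hB⟩
    apply h1
    refine ⟨max B (M * B ^ 2), ?_⟩
    filter_upwards [hM, hB, h2] with n hn hn' hn0
    refine ⟨hn'.trans (le_max_left _ _), le_trans ?_ (le_max_right _ _)⟩
    have h4 : γ n = (γ n / β n ^ 2) * β n ^ 2 := by
      field_simp
    have hM0 : 0 ≤ M := (norm_nonneg _).trans hn
    rw [h4, norm_mul, norm_pow]
    exact mul_le_mul hn (pow_le_pow_left₀ (norm_nonneg _) hn' 2) (by positivity) hM0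
  · left
    have hτ := cl_unb l _ h3
    refine cl_case4 l P β γ g hq hc h2 hτ (cl_unb l γ ?_)
    rintro ⟨M, hM⟩
    apply h1
    refine ⟨M + 1, ?_⟩
    filter_upwards [hM, hτ.eventually_ge_atTop 1, h2] with n hn hn1 hn0
    refine ⟨?_, by linarith⟩
    have hb0 : 0 < ‖β n‖ := norm_pos_iff.2 hn0
    rw [norm_div, norm_pow, le_div_iff₀ (by positivity), one_mul] at hn1
    have hM0 : 0 ≤ M := (norm_nonneg _).trans hn
    nlinarith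

end H37.LM
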