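import Mathlib

/-!
# Lipschitz modality of function germs in two variables (MP_0461ca_ag)

Definitions used by the result.

* `Jet k` : polynomials in `x, y` of degree at most `k` without constant term.
* `evalJet c` : the polynomial function on `ℂ × ℂ`.
* `LipEquiv f g` : bi-Lipschitz right equivalence of germs at the origin.
* `IsSemialgebraic S` : semialgebraic subsets of the real vector space `Jet k`.
* `LocalDimGE S c m` : the dimension of `S` at `c` is at least `m`.
* `Lmod k c` : the Lipschitz modality computed in `k`-jets.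
-/

noncomputable section

open Set Filter Topology
open scoped ContDiff

namespace H37.LM

/-- Exponents `(i, j)` of the monomials `x ^ i * y ^ j` with `1 ≤ i + j ≤ k`. -/
abbrev Idx (k : ℕ) : Type :=
  {q : Fin (k + 1) × Fin (k + 1) // 1 ≤ (q.1 : ℕ) + (q.2 : ℕ) ∧ (q.1 : ℕ) + (q.2 : ℕ) ≤ k}

/-- The space of `k`-jets at the origin of germs `(ℂ × ℂ, 0) → (ℂ, 0)`, i.e. polynomials of
degree at most `k` without constant term. -/
abbrev Jet (k : ℕ) : Type := Idx k → ℂ

/-- The coefficient of `x ^ i * y ^ j`. -/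
def coef {k : ℕ} (c : Jet k) (i j : ℕ) : ℂ :=
  if h : 1 ≤ i + j ∧ i + j ≤ k then
    c ⟨(⟨i, by omega⟩, ⟨j, by omega⟩), by simpa using h⟩
  else 0

/-- The polynomial function `∑ a i j * x ^ i * y ^ j` (`i, j ≤ K`). -/
def ev (K : ℕ) (a : ℕ → ℕ → ℂ) (p : ℂ × ℂ) : ℂ :=
  ∑ i ∈ Finset.range (K + 1), ∑ j ∈ Finset.range (K + 1), a i j * p.1 ^ i * p.2 ^ j

/-- The polynomial function on `ℂ × ℂ` represented by a jet. -/
def evalJet {k : ℕ} (c : Jet k) (p : ℂ × ℂ) : ℂ := ev k (coef c) p

/-- Bi-Lipschitz right equivalence of germs at the origin of functions on `ℂ × ℂ`: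
`f = g ∘ φ` near `0` for a germ of bi-Lipschitz homeomorphism `φ` with inverse germ `ψ`. -/
def LipEquiv (f g : ℂ × ℂ → ℂ) : Prop :=
  ∃ (φ ψ : ℂ × ℂ → ℂ × ℂ) (r : ℝ) (K : NNReal), 0 < r ∧ φ 0 = 0 ∧ ψ 0 = 0 ∧
    LipschitzOnWith K φ (Metric.ball 0 r) ∧ LipschitzOnWith K ψ (Metric.ball 0 r) ∧
    ∀ᶠ p in 𝓝 (0 : ℂ × ℂ), ψ (φ p) = p ∧ φ (ψ p) = p ∧ f p = g (φ p)

/-- Real coordinates on `Jet k`. -/
def realCoord {k : ℕ} (c : Jet k) : Idx k × Bool → ℝ :=
  fun q => if q.2 then (c q.1).im else (c q.1).re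

/-- Semialgebraic subsets of `Jet k`, viewed as a real vector space: the smallest family of
sets which contains the sets `P > 0`, for `P` a real polynomial in the real coordinates, and is
closed under complements and finite unions. -/
inductive IsSemialgebraic {k : ℕ} : Set (Jet k) → Prop
  | pos (P : MvPolynomial (Idx k × Bool) ℝ) :
      IsSemialgebraic {c | 0 < MvPolynomial.eval (realCoord c) P}
  | compl {S : Set (Jet k)} : IsSemialgebraic S → IsSemialgebraic Sᶜ
  | union {S T : Set (Jet k)} : IsSemialgebraic S → IsSemialgebraic T → IsSemialgebraic (S ∪ T)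

/-- `S` has dimension at least `m` at `c`: every neighbourhood of `c` contains the image, inside
`S`, of an injective smooth immersion of the open unit ball of `ℝ ^ m`.  (For `m = 0` this says
that `c` lies in the closure of `S`.) -/
def LocalDimGE {k : ℕ} (S : Set (Jet k)) (c : Jet k) (m : ℕ) : Prop :=
  ∀ U ∈ 𝓝 c, ∃ σ : (Fin m → ℝ) → Jet k, ContDiffOn ℝ ∞ σ (Metric.ball 0 1) ∧
    InjOn σ (Metric.ball 0 1) ∧ (∀ s ∈ Metric.ball (0 : Fin m → ℝ) 1,
      Function.Injective (fderiv ℝ σ s)) ∧ ∀ s ∈ Metric.ball (0 : Fin m → ℝ) 1, σ s ∈ S ∩ U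

/-- The elements of `S` are pairwise not bi-Lipschitz right equivalent. -/
def PairwiseInequiv {k : ℕ} (S : Set (Jet k)) : Prop :=
  ∀ c ∈ S, ∀ c' ∈ S, c ≠ c' → ¬ LipEquiv (evalJet c) (evalJet c')

/-- The numbers `m` for which some semialgebraic set `S` of pairwise inequivalent jets has
dimension at least `m` at `c`. -/
def modSet (k : ℕ) (c : Jet k) : Set ℕ :=
  {m | ∃ S : Set (Jet k), IsSemialgebraic S ∧ PairwiseInequiv S ∧ LocalDimGE S c m}

/-- The Lipschitz modality of the jet `c`, computed in the space of `k`-jets. -/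
def Lmod (k : ℕ) (c : Jet k) : ℕ := sSup (modSet k c) / 2

end H37.LM
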