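import Pool.Agent.H37.LM.TTCore

/-!
# All members of a path of nondegenerate forms are equivalent   [H37 LM FG]

Proof of `sextic_path`.  For `t0 ∈ [0, 1]` the family `τ ↦ form at t0 + τ` (and `τ ↦ t0 - τ`)
satisfies the hypotheses of `TT_core` with `K = e = 6`: `b` is the constant form
`x y ^ 5 + y ^ 6` (resp. its negative), `a 0 6` is `-(1 - t)`, which vanishes at `t0 = 1`; so first
apply the linear change `(x, y) ↦ (x + y, y)` (`lipEquiv_linear`) or any other to have a nonzero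
coefficient of `y ^ 6` (for `x → x + y`: `1 + t - (1 - t) = 2 t`; for `x → x + 2 y`:
`64 + 2 t - (1 - t) ≥ 63`, so this one works for all `t`).  In the chart the polynomial
`F(w, 0) = ∑ a (6-j) j w ^ j` has no double root for any `t ∈ [0, 1]`, i.e.
`Ft ≠ 0 ∨ Wf ≠ 0` everywhere: `loc_of_simple`.  (The form `x^6 + t x y^5 - (1-t) y^6` has no double
linear factor: at a critical point `6 x^5 + t y^5 = 0` and `5 t x y^4 - 6 (1-t) y^5 = 0`; if `y = 0`
then `x = 0`; otherwise `5 t x = 6 (1-t) y`, so `t ≠ 0` and `x/y = 6(1-t)/(5t) ≥ 0` is real, but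
`6 (x/y)^5 = -t < 0`, contradiction.)  So the set of `t` with `form 0 ∼ form t` is open and closed
in `[0, 1]` (every `t0` has a neighbourhood in `[0,1]` of `t` with `form t0 ∼ form t`, and
`LipEquiv` is an equivalence relation).
-/

noncomputable section

open Set Filter Topology
open scoped ContDiff

namespace H37.LM

/-- the constant part of the coefficients of `(x + 2 y) ^ 6 + s (x + 2 y) y ^ 5 - (1 - s) y ^ 6` -/
def fgC (i j : ℕ) : ℂ :=
  if i + j = 6 then (Nat.choose 6 j : ℂ) * 2 ^ j - (if j = 6 then 1 else 0) else 0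

/-- the part linear in `s` -/
def fgB (i j : ℕ) : ℂ := if i + j = 6 then (if j = 5 then 1 else if j = 6 then 3 else 0) else 0

def fgA (s : ℝ) (i j : ℕ) : ℂ := fgC i j + (s : ℂ) * fgB i j

theorem fg_ev (s : ℝ) (p : ℂ × ℂ) : ev 6 (fgA s) p =
    (p.1 + 2 * p.2) ^ 6 + s * (p.1 + 2 * p.2) * p.2 ^ 5 - (1 - s) * p.2 ^ 6 := by
  unfold ev fgA fgC fgB
  simp only [Finset.sum_range_succ, Finset.sum_range_zero]
  norm_num [Nat.choose]
  ring

theorem fg_Ft (s : ℝ) (w : ℂ) : Ft 6 6 (fgA s) w 0 =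
    (1 + 2 * w) ^ 6 + s * (1 + 2 * w) * w ^ 5 - (1 - s) * w ^ 6 := by
  unfold Ft fgA fgC fgB
  simp only [Finset.sum_range_succ, Finset.sum_range_zero]
  norm_num [Nat.choose]
  ring

theorem fg_Wf (s : ℝ) (w : ℂ) : Wf 6 6 (fgA s) w 0 =
    2 * (6 * (1 + 2 * w) ^ 5 + s * w ^ 5) + (5 * s * (1 + 2 * w) * w ^ 4 - 6 * (1 - s) * w ^ 5) := by
  unfold Wf fgA fgC fgB
  simp only [Finset.sum_range_succ, Finset.sum_range_zero]
  norm_num [Nat.choose]
  ring

theorem fg_simple (s : ℝ) (h0 : 0 ≤ s) (h1 : s ≤ 1) (w : ℂ) :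
    Ft 6 6 (fgA s) w 0 ≠ 0 ∨ Wf 6 6 (fgA s) w 0 ≠ 0 := by
  by_contra hcon
  push Not at hcon
  obtain ⟨hF, hW⟩ := hcon
  rw [fg_Ft] at hF
  rw [fg_Wf] at hW
  have hx : 6 * (1 + 2 * w) ^ 5 + (s : ℂ) * w ^ 5 = 0 := by
    linear_combination 6 * hF - w * hW
  have hy : 5 * (s : ℂ) * (1 + 2 * w) * w ^ 4 - 6 * (1 - s) * w ^ 5 = 0 := by
    linear_combination hW - 2 * hx
  have hw : w ≠ 0 := by
    rintro rfl
    norm_num at hx
  have hy' : 5 * (s : ℂ) * (1 + 2 * w) = 6 * (1 - s) * w := by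
    have h4 : w ^ 4 ≠ 0 := pow_ne_zero _ hw
    apply mul_right_cancel₀ h4
    linear_combination hy
  have hs : s ≠ 0 := by
    rintro rfl
    simp at hy'
    exact hw hy'
  have hspos : 0 < s := lt_of_le_of_ne h0 (Ne.symm hs)
  have hsC : (s : ℂ) ≠ 0 := by exact_mod_cast hs
  have hu : (1 + 2 * w) = ((6 * (1 - s) / (5 * s) : ℝ) : ℂ) * w := by
    push_cast
    field_simp
    linear_combination hy'
  rw [hu] at hx
  have h5 : w ^ 5 ≠ 0 := pow_ne_zero _ hw
  have hx' : ((6 * (6 * (1 - s) / (5 * s)) ^ 5 + s : ℝ) : ℂ) = 0 := by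
    apply mul_right_cancel₀ h5
    push_cast
    push_cast at hx
    linear_combination hx
  have hx2 : 6 * (6 * (1 - s) / (5 * s)) ^ 5 + s = 0 := by exact_mod_cast hx'
  have hρ : 0 ≤ 6 * (1 - s) / (5 * s) := div_nonneg (by linarith) (by linarith)
  have := pow_nonneg hρ 5
  linarith

theorem fg_low (s : ℝ) (i j : ℕ) (h : i + j < 6) : fgA s i j = 0 := by
  unfold fgA fgC fgB
  rw [if_neg (by omega), if_neg (by omega)]
  simp

theorem fg_dir (x : ℝ) (h0 : 0 ≤ x) (h1 : x ≤ 1) (σ : ℝ) :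
    ∃ ε > 0, ∀ t ∈ Icc (0 : ℝ) ε, LipEquiv (ev 6 (fgA x)) (ev 6 (fgA (x + σ * t))) := by
  have h := TT_core 6 6 (by norm_num) le_rfl (fun t => fgA (x + σ * t))
    (fun _ i j => (σ : ℂ) * fgB i j) ?_ ?_ ?_ ?_ ?_
  · simpa using h
  · intro i j
    refine Eventually.of_forall fun t => ?_
    have e1 : HasDerivAt (fun t : ℝ => ((x + σ * t : ℝ) : ℂ)) (σ : ℂ) t := by
      have := (((hasDerivAt_id t).const_mul σ).const_add x).ofReal_comp
      simpa using this
    exact (e1.mul_const (fgB i j)).const_add (fgC i j)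
  · intro i j
    exact contDiffAt_const
  · exact Eventually.of_forall fun t i j hij => fg_low _ i j hij
  · have e : fgA (x + σ * 0) 0 6 = ((63 + 3 * x : ℝ) : ℂ) := by
      unfold fgA fgC fgB
      norm_num
      ring
    show fgA (x + σ * 0) 0 6 ≠ 0
    rw [e]
    exact_mod_cast (by positivity : (63 + 3 * x : ℝ) ≠ 0)
  · intro w0
    refine loc_of_simple 6 6 (by norm_num) (fun t => fgA (x + σ * t))
      (fun _ i j => (σ : ℂ) * fgB i j) ?_ ?_ w0 ?_ ?_
    · intro i j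
      have e1 : ContDiff ℝ 1 (fun t : ℝ => ((x + σ * t : ℝ) : ℂ)) :=
        Complex.ofRealCLM.contDiff.comp (contDiff_const.add (contDiff_const.mul contDiff_id))
      exact (contDiff_const.add (e1.mul contDiff_const)).contDiffAt
    · intro i j
      exact contDiffAt_const
    · have := fg_simple x h0 h1 w0
      simpa using this
    · intro i j hij
      exact fg_low _ i j hij

theorem fg_path (x y : ℝ) (hx : x ∈ Icc (0 : ℝ) 1) (hy : y ∈ Icc (0 : ℝ) 1) :
    LipEquiv (ev 6 (fgA x)) (ev 6 (fgA y)) := by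
  refine (isPreconnected_Icc (a := (0 : ℝ)) (b := 1)).induction₂
    (fun s t => LipEquiv (ev 6 (fgA s)) (ev 6 (fgA t))) ?_ ?_ ?_ hx hy
  · intro s hs
    obtain ⟨ε1, hε1, h1⟩ := fg_dir s hs.1 hs.2 1
    obtain ⟨ε2, hε2, h2⟩ := fg_dir s hs.1 hs.2 (-1)
    apply eventually_nhdsWithin_of_eventually_nhds
    filter_upwards [Metric.ball_mem_nhds s (lt_min hε1 hε2)] with t ht
    rw [Metric.mem_ball, Real.dist_eq, lt_min_iff] at ht
    rcases le_total s t with h | h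
    · have h3 := h1 (t - s) ⟨by linarith, by linarith [le_abs_self (t - s), ht.1]⟩
      have e : s + 1 * (t - s) = t := by ring
      rwa [e] at h3
    · have h3 := h2 (s - t) ⟨by linarith, by linarith [neg_abs_le (t - s), ht.2]⟩
      have e : s + -1 * (s - t) = t := by ring
      rwa [e] at h3
  · intro a b c _ _ _ hab hbc
    exact hab.trans hbc
  · intro a b _ _ hab
    exact hab.symm

theorem sextic_equiv :
    LipEquiv (fun p : ℂ × ℂ => p.1 ^ 6 - p.2 ^ 6) (fun p : ℂ × ℂ => p.1 ^ 6 + p.1 * p.2 ^ 5) := by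
  have h1 := lipEquiv_linear (fun p : ℂ × ℂ => p.1 ^ 6 - p.2 ^ 6) 1 2 0 1 (by norm_num)
  have h2 := lipEquiv_linear (fun p : ℂ × ℂ => p.1 ^ 6 + p.1 * p.2 ^ 5) 1 2 0 1 (by norm_num)
  have h3 := fg_path 0 1 ⟨le_rfl, zero_le_one⟩ ⟨zero_le_one, le_rfl⟩
  have e1 : ev 6 (fgA 0) = fun p : ℂ × ℂ => (1 * p.1 + 2 * p.2) ^ 6 - (0 * p.1 + 1 * p.2) ^ 6 := by
    funext p
    rw [fg_ev]
    push_cast
    ring
  have e2 : ev 6 (fgA 1) = fun p : ℂ × ℂ =>
      (1 * p.1 + 2 * p.2) ^ 6 + (1 * p.1 + 2 * p.2) * (0 * p.1 + 1 * p.2) ^ 5 := by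
    funext p
    rw [fg_ev]
    push_cast
    ring
  rw [e1, e2] at h3
  exact h1.symm.trans (h3.trans h2)

end H37.LM
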