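import Pool.Agent.H37.LM.LipBasic

/-!
# Flow of a Lipschitz vector field gives a bi-Lipschitz equivalence   [H37 LM Flow]

Proof.  Shrink `δ` so that `C * δ ≤ 1 / 8` (say) and `δ ≤ 1`.  For `‖p‖ < ρ / 4` the
Picard–Lindelöf theorem (`IsPicardLindelof`, on the closed ball of radius `ρ / 4` around `p`; on
`ball 0 ρ` one has `‖X t q‖ ≤ C ‖q‖ ≤ C ρ`) gives a solution `γ_p` of `γ' = X t γ`, `γ 0 = p`, on a
fixed interval `[-ε, ε]`, staying in `ball 0 (ρ / 2)`; by Gronwall (`dist_le_of_trajectories_ODE`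
or `ODE_solution_unique...`) `‖γ_p t - γ_q t‖ ≤ exp (C |t|) ‖p - q‖`, solutions are unique, and
`γ_0 = 0`.  Put `φ p = γ_p t`, and `ψ q =` the value at time `0` of the solution with value `q` at
time `t` (apply the existence statement to the reversed field `s ↦ - X (t - s)` on `[0, t]`).
Both are Lipschitz on a small ball and inverse to each other near `0` by uniqueness.  Finally
`s ↦ h s (γ_p s)` has derivative `L (1, X s (γ_p s)) = 0` on `[0, t]`, so `h 0 p = h t (φ p)`.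
(Existence of the solution at time `t` for all small initial values, by any other method, is fine;
only small `ε` is needed.)
-/

noncomputable section

open Set Filter Topology
open scoped ContDiff

namespace H37.LM

/-- Hypotheses on a time-dependent field on `[0, T]` near the origin. -/
structure FlowHyp (Y : ℝ → ℂ × ℂ → ℂ × ℂ) (T ρ C : ℝ) : Prop where
  zero : ∀ t ∈ Icc 0 T, Y t 0 = 0
  lip : ∀ t ∈ Icc 0 T, ∀ p ∈ Metric.ball (0 : ℂ × ℂ) ρ, ∀ q ∈ Metric.ball (0 : ℂ × ℂ) ρ,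
      ‖Y t p - Y t q‖ ≤ C * ‖p - q‖
  cont : ∀ p ∈ Metric.ball (0 : ℂ × ℂ) ρ, ContinuousOn (fun t => Y t p) (Icc 0 T)

/-- `f` solves the equation on `[0, T]` and stays in the closed ball of radius `ρ / 2`. -/
structure IsSol (Y : ℝ → ℂ × ℂ → ℂ × ℂ) (T ρ : ℝ) (f : ℝ → ℂ × ℂ) : Prop where
  deriv : ∀ s ∈ Icc 0 T, HasDerivWithinAt f (Y s (f s)) (Icc 0 T) s
  mem : ∀ s ∈ Icc 0 T, f s ∈ Metric.closedBall (0 : ℂ × ℂ) (ρ / 2)

lemma FlowHyp.lipschitzOnWith {Y : ℝ → ℂ × ℂ → ℂ × ℂ} {T ρ C : ℝ} (hY : FlowHyp Y T ρ C)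
    (hρ : 0 < ρ) (hC : 0 ≤ C) {t : ℝ} (ht : t ∈ Icc 0 T) :
    LipschitzOnWith (Real.toNNReal C) (Y t) (Metric.closedBall (0 : ℂ × ℂ) (ρ / 2)) := by
  apply LipschitzOnWith.of_dist_le_mul
  intro p hp q hq
  have hp' : p ∈ Metric.ball (0 : ℂ × ℂ) ρ :=
    Metric.closedBall_subset_ball (by linarith) hp
  have hq' : q ∈ Metric.ball (0 : ℂ × ℂ) ρ :=
    Metric.closedBall_subset_ball (by linarith) hq
  rw [dist_eq_norm, dist_eq_norm, Real.coe_toNNReal C hC]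
  exact hY.lip t ht p hp' q hq'

lemma FlowHyp.exists_sol {Y : ℝ → ℂ × ℂ → ℂ × ℂ} {T ρ C : ℝ} (hY : FlowHyp Y T ρ C)
    (hρ : 0 < ρ) (hC : 0 ≤ C) (hT : 0 ≤ T) (hCT : C * T ≤ 1 / 2) {p : ℂ × ℂ}
    (hp : p ∈ Metric.closedBall (0 : ℂ × ℂ) (ρ / 4)) :
    ∃ f : ℝ → ℂ × ℂ, f 0 = p ∧ IsSol Y T ρ f := by
  have hpl : IsPicardLindelof Y (tmin := 0) (tmax := T) ⟨0, ⟨le_refl 0, hT⟩⟩ (0 : ℂ × ℂ)
      (Real.toNNReal (ρ / 2)) (Real.toNNReal (ρ / 4)) (Real.toNNReal (C * (ρ / 2)))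
      (Real.toNNReal C) := by
    have h1 : ((Real.toNNReal (ρ / 2) : NNReal) : ℝ) = ρ / 2 := Real.coe_toNNReal _ (by linarith)
    have h2 : ((Real.toNNReal (ρ / 4) : NNReal) : ℝ) = ρ / 4 := Real.coe_toNNReal _ (by linarith)
    have h3 : ((Real.toNNReal (C * (ρ / 2)) : NNReal) : ℝ) = C * (ρ / 2) :=
      Real.coe_toNNReal _ (by positivity)
    refine ⟨?_, ?_, ?_, ?_⟩
    · intro t ht
      rw [h1]
      exact hY.lipschitzOnWith hρ hC ht
    · intro x hx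
      rw [h1] at hx
      exact hY.cont x (Metric.closedBall_subset_ball (by linarith) hx)
    · intro t ht x hx
      rw [h1] at hx
      rw [h3]
      have hx' : x ∈ Metric.ball (0 : ℂ × ℂ) ρ := Metric.closedBall_subset_ball (by linarith) hx
      have h := hY.lip t ht x hx' 0 (Metric.mem_ball_self hρ)
      rw [hY.zero t ht, sub_zero, sub_zero] at h
      refine h.trans ?_
      have : ‖x‖ ≤ ρ / 2 := by simpa [Metric.mem_closedBall, dist_eq_norm] using hx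
      gcongr
    · rw [h1, h2, h3]
      simp only [sub_zero, sub_self]
      rw [max_eq_left hT]
      nlinarith
  have hp' : p ∈ Metric.closedBall (0 : ℂ × ℂ) (Real.toNNReal (ρ / 4) : NNReal) := by
    rwa [Real.coe_toNNReal _ (by linarith : (0 : ℝ) ≤ ρ / 4)]
  obtain ⟨α, hα⟩ := ODE.FunSpace.exists_isFixedPt_next hpl hp'
  refine ⟨α.compProj, ?_, ?_, ?_⟩
  · have h1 := ODE.FunSpace.compProj_val (α := α) (t := (⟨0, ⟨le_refl 0, hT⟩⟩ : Icc (0 : ℝ) T))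
    have h2 : α (⟨0, ⟨le_refl 0, hT⟩⟩ : Icc (0 : ℝ) T) = p := by
      rw [← hα, ODE.FunSpace.next_apply₀]
    exact h1.trans h2
  · intro t ht
    apply ODE.hasDerivWithinAt_picard_Icc (t₀ := 0) ⟨le_refl 0, hT⟩ hpl.continuousOn_uncurry
      α.continuous_compProj.continuousOn (fun _ ht' ↦ α.compProj_mem_closedBall hpl.mul_max_le)
      p ht |>.congr_of_mem _ ht
    intro t' ht'
    nth_rw 1 [← hα]
    rw [ODE.FunSpace.compProj_of_mem ht', ODE.FunSpace.next_apply]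
  · intro s hs
    have := α.compProj_mem_closedBall hpl.mul_max_le (t := s)
    rwa [Real.coe_toNNReal _ (by linarith : (0 : ℝ) ≤ ρ / 2)] at this

lemma IsSol.ici {Y : ℝ → ℂ × ℂ → ℂ × ℂ} {T ρ : ℝ} {f : ℝ → ℂ × ℂ} (hf : IsSol Y T ρ f) :
    ∀ s ∈ Ico 0 T, HasDerivWithinAt f (Y s (f s)) (Ici s) s := by
  intro s hs
  exact (hf.deriv s (Ico_subset_Icc_self hs)).mono_of_mem_nhdsWithin (Icc_mem_nhdsGE_of_mem hs)

lemma IsSol.continuousOn {Y : ℝ → ℂ × ℂ → ℂ × ℂ} {T ρ : ℝ} {f : ℝ → ℂ × ℂ}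
    (hf : IsSol Y T ρ f) : ContinuousOn f (Icc 0 T) :=
  fun s hs => (hf.deriv s hs).continuousWithinAt

lemma IsSol.dist_le {Y : ℝ → ℂ × ℂ → ℂ × ℂ} {T ρ C : ℝ} (hY : FlowHyp Y T ρ C)
    (hρ : 0 < ρ) (hC : 0 ≤ C) {f g : ℝ → ℂ × ℂ} (hf : IsSol Y T ρ f) (hg : IsSol Y T ρ g)
    {s : ℝ} (hs : s ∈ Icc 0 T) : dist (f s) (g s) ≤ dist (f 0) (g 0) * Real.exp (C * s) := by
  have h := dist_le_of_trajectories_ODE_of_mem (v := Y) (K := Real.toNNReal C)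
    (s := fun _ => Metric.closedBall (0 : ℂ × ℂ) (ρ / 2)) (a := 0) (b := T) (f := f) (g := g)
    (δ := dist (f 0) (g 0))
    (fun t ht => hY.lipschitzOnWith hρ hC (Ico_subset_Icc_self ht)) hf.continuousOn hf.ici
    (fun t ht => hf.mem t (Ico_subset_Icc_self ht)) hg.continuousOn hg.ici
    (fun t ht => hg.mem t (Ico_subset_Icc_self ht)) le_rfl s hs
  rwa [Real.coe_toNNReal C hC, sub_zero] at h

lemma IsSol.eq_of {Y : ℝ → ℂ × ℂ → ℂ × ℂ} {T ρ C : ℝ} (hY : FlowHyp Y T ρ C)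
    (hρ : 0 < ρ) (hC : 0 ≤ C) {f g : ℝ → ℂ × ℂ} (hf : IsSol Y T ρ f) (hg : IsSol Y T ρ g)
    (h0 : f 0 = g 0) {s : ℝ} (hs : s ∈ Icc 0 T) : f s = g s := by
  have h := IsSol.dist_le hY hρ hC hf hg hs
  rw [h0, dist_self, zero_mul] at h
  exact dist_le_zero.mp h

lemma FlowHyp.reverse {Y : ℝ → ℂ × ℂ → ℂ × ℂ} {T ρ C : ℝ} (hY : FlowHyp Y T ρ C) :
    FlowHyp (fun s q => - Y (T - s) q) T ρ C := by
  have hmem : ∀ s ∈ Icc 0 T, T - s ∈ Icc 0 T := fun s hs => ⟨by linarith [hs.2], by linarith [hs.1]⟩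
  refine ⟨?_, ?_, ?_⟩
  · intro s hs
    simp [hY.zero _ (hmem s hs)]
  · intro s hs p hp q hq
    have := hY.lip _ (hmem s hs) p hp q hq
    rwa [neg_sub_neg, norm_sub_rev]
  · intro p hp
    exact ((hY.cont p hp).comp (by fun_prop) hmem).neg

lemma IsSol.reverse {Y : ℝ → ℂ × ℂ → ℂ × ℂ} {T ρ : ℝ} {f : ℝ → ℂ × ℂ} (hf : IsSol Y T ρ f) :
    IsSol (fun s q => - Y (T - s) q) T ρ (fun s => f (T - s)) := by
  have hmem : ∀ s ∈ Icc 0 T, T - s ∈ Icc 0 T := fun s hs => ⟨by linarith [hs.2], by linarith [hs.1]⟩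
  refine ⟨?_, fun s hs => hf.mem _ (hmem s hs)⟩
  intro s hs
  have h1 : HasDerivWithinAt (fun s : ℝ => T - s) (-1) (Icc 0 T) s := by
    simpa using ((hasDerivWithinAt_id s (Icc 0 T)).const_sub T)
  have h2 := (hf.deriv _ (hmem s hs)).scomp s h1 hmem
  have h3 : (-1 : ℝ) • Y (T - s) (f (T - s)) = - Y (T - s) (f (T - s)) := by simp
  rw [h3] at h2
  exact h2

theorem flow_equiv_aux (h : ℝ → ℂ × ℂ → ℂ) (X : ℝ → ℂ × ℂ → ℂ × ℂ) (T ρ C : ℝ)
    (hρ : 0 < ρ) (hT : 0 ≤ T) (hC : 0 ≤ C) (hCT : C * T ≤ 1 / 2) (hX : FlowHyp X T ρ C)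
    (hh : ∀ t ∈ Icc 0 T, ∀ p ∈ Metric.ball (0 : ℂ × ℂ) ρ,
      ∃ L : ℝ × (ℂ × ℂ) →L[ℝ] ℂ,
        HasFDerivAt (fun z : ℝ × (ℂ × ℂ) => h z.1 z.2) L (t, p) ∧ L (1, X t p) = 0) :
    LipEquiv (h 0) (h T) := by
  classical
  set Y : ℝ → ℂ × ℂ → ℂ × ℂ := fun s q => - X (T - s) q with hYdef
  have hY : FlowHyp Y T ρ C := hX.reverse
  have hT' : T ∈ Icc 0 T := ⟨hT, le_refl T⟩
  have h0' : (0 : ℝ) ∈ Icc 0 T := ⟨le_refl 0, hT⟩
  have hYY : (fun s q => - Y (T - s) q) = X := by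
    funext s q
    simp [hYdef]
  have eX : ∀ p ∈ Metric.closedBall (0 : ℂ × ℂ) (ρ / 4), ∃ f : ℝ → ℂ × ℂ, f 0 = p ∧
      IsSol X T ρ f := fun p hp => hX.exists_sol hρ hC hT hCT hp
  have eY : ∀ p ∈ Metric.closedBall (0 : ℂ × ℂ) (ρ / 4), ∃ f : ℝ → ℂ × ℂ, f 0 = p ∧
      IsSol Y T ρ f := fun p hp => hY.exists_sol hρ hC hT hCT hp
  choose! γ hγ0 hγ using eX
  choose! η hη0 hη using eY
  have zeroX : IsSol X T ρ (fun _ => 0) := by
    refine ⟨fun s hs => ?_, fun s hs => Metric.mem_closedBall_self (by linarith)⟩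
    rw [hX.zero s hs]
    exact hasDerivWithinAt_const s _ 0
  have zeroY : IsSol Y T ρ (fun _ => 0) := by
    refine ⟨fun s hs => ?_, fun s hs => Metric.mem_closedBall_self (by linarith)⟩
    rw [hY.zero s hs]
    exact hasDerivWithinAt_const s _ 0
  have hm0 : (0 : ℂ × ℂ) ∈ Metric.closedBall (0 : ℂ × ℂ) (ρ / 4) :=
    Metric.mem_closedBall_self (by linarith)
  have hE : 1 ≤ Real.exp (C * T) := Real.one_le_exp (by positivity)
  have hEpos : 0 < Real.exp (C * T) := Real.exp_pos _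
  -- radius
  set r : ℝ := ρ / 8 / Real.exp (C * T) with hr
  have hrpos : 0 < r := by positivity
  have hr4 : r ≤ ρ / 4 := by
    rw [hr, div_le_iff₀ hEpos]
    nlinarith
  have hsub : Metric.ball (0 : ℂ × ℂ) r ⊆ Metric.closedBall (0 : ℂ × ℂ) (ρ / 4) :=
    fun x hx => Metric.closedBall_subset_closedBall hr4 (Metric.ball_subset_closedBall hx)
  have hφ0 : γ 0 T = 0 :=
    IsSol.eq_of hX hρ hC (hγ 0 hm0) zeroX (hγ0 0 hm0) hT'
  have hψ0 : η 0 T = 0 :=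
    IsSol.eq_of hY hρ hC (hη 0 hm0) zeroY (hη0 0 hm0) hT'
  have lipφ : ∀ p ∈ Metric.closedBall (0 : ℂ × ℂ) (ρ / 4),
      ∀ q ∈ Metric.closedBall (0 : ℂ × ℂ) (ρ / 4),
      dist (γ p T) (γ q T) ≤ Real.exp (C * T) * dist p q := by
    intro p hp q hq
    have := IsSol.dist_le hX hρ hC (hγ p hp) (hγ q hq) hT'
    rw [hγ0 p hp, hγ0 q hq] at this
    linarith
  have lipψ : ∀ p ∈ Metric.closedBall (0 : ℂ × ℂ) (ρ / 4),
      ∀ q ∈ Metric.closedBall (0 : ℂ × ℂ) (ρ / 4),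
      dist (η p T) (η q T) ≤ Real.exp (C * T) * dist p q := by
    intro p hp q hq
    have := IsSol.dist_le hY hρ hC (hη p hp) (hη q hq) hT'
    rw [hη0 p hp, hη0 q hq] at this
    linarith
  have smallφ : ∀ p ∈ Metric.ball (0 : ℂ × ℂ) r, γ p T ∈ Metric.closedBall (0 : ℂ × ℂ) (ρ / 4) := by
    intro p hp
    have := lipφ p (hsub hp) 0 hm0
    rw [hφ0] at this
    rw [Metric.mem_closedBall]
    rw [Metric.mem_ball] at hp
    calc dist (γ p T) 0 ≤ Real.exp (C * T) * dist p 0 := this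
      _ ≤ Real.exp (C * T) * r := by gcongr
      _ = ρ / 8 := by rw [hr]; field_simp
      _ ≤ ρ / 4 := by linarith
  have smallψ : ∀ p ∈ Metric.ball (0 : ℂ × ℂ) r, η p T ∈ Metric.closedBall (0 : ℂ × ℂ) (ρ / 4) := by
    intro p hp
    have := lipψ p (hsub hp) 0 hm0
    rw [hψ0] at this
    rw [Metric.mem_closedBall]
    rw [Metric.mem_ball] at hp
    calc dist (η p T) 0 ≤ Real.exp (C * T) * dist p 0 := this
      _ ≤ Real.exp (C * T) * r := by gcongr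
      _ = ρ / 8 := by rw [hr]; field_simp
      _ ≤ ρ / 4 := by linarith
  refine ⟨fun p => γ p T, fun q => η q T, r, Real.toNNReal (Real.exp (C * T)), hrpos, hφ0, hψ0,
    ?_, ?_, ?_⟩
  · apply LipschitzOnWith.of_dist_le_mul
    intro p hp q hq
    rw [Real.coe_toNNReal _ hEpos.le]
    exact lipφ p (hsub hp) q (hsub hq)
  · apply LipschitzOnWith.of_dist_le_mul
    intro p hp q hq
    rw [Real.coe_toNNReal _ hEpos.le]
    exact lipψ p (hsub hp) q (hsub hq)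
  · filter_upwards [Metric.ball_mem_nhds (0 : ℂ × ℂ) hrpos] with p hp
    refine ⟨?_, ?_, ?_⟩
    · -- ψ (φ p) = p
      have h1 := (hγ p (hsub hp)).reverse
      have h2 := hη (γ p T) (smallφ p hp)
      have h3 := IsSol.eq_of hY hρ hC h2 h1 (by rw [hη0 _ (smallφ p hp)]; simp) hT'
      rw [h3]
      simp [hγ0 p (hsub hp)]
    · have h1 := (hη p (hsub hp)).reverse
      rw [hYY] at h1
      have h2 := hγ (η p T) (smallψ p hp)
      have h3 := IsSol.eq_of hX hρ hC h2 h1 (by rw [hγ0 _ (smallψ p hp)]; simp) hT'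
      rw [h3]
      simp [hη0 p (hsub hp)]
    · have hsol := hγ p (hsub hp)
      have hder : ∀ s ∈ Icc 0 T, HasDerivWithinAt (fun s => h s (γ p s)) 0 (Icc 0 T) s := by
        intro s hs
        have hmem : γ p s ∈ Metric.ball (0 : ℂ × ℂ) ρ :=
          Metric.closedBall_subset_ball (by linarith) (hsol.mem s hs)
        obtain ⟨L, hL, hL0⟩ := hh s hs (γ p s) hmem
        have h1 : HasDerivWithinAt (fun s : ℝ => (s, γ p s)) ((1 : ℝ), X s (γ p s)) (Icc 0 T) s :=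
          (hasDerivWithinAt_id s _).prodMk (hsol.deriv s hs)
        have h2 := hL.comp_hasDerivWithinAt s h1
        rw [hL0] at h2
        exact h2
      have hconst := constant_of_has_deriv_right_zero (f := fun s => h s (γ p s)) (a := 0) (b := T)
        (fun s hs => (hder s hs).continuousWithinAt)
        (fun s hs => (hder s (Ico_subset_Icc_self hs)).mono_of_mem_nhdsWithin
          (Icc_mem_nhdsGE_of_mem hs)) T hT'
      rw [hγ0 p (hsub hp)] at hconst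
      exact hconst.symm

theorem flow_equiv (h : ℝ → ℂ × ℂ → ℂ) (X : ℝ → ℂ × ℂ → ℂ × ℂ) (ρ δ C : ℝ)
    (hρ : 0 < ρ) (hδ : 0 < δ) (hC : 0 ≤ C)
    (hX0 : ∀ t ∈ Ioo (-δ) δ, X t 0 = 0)
    (hXL : ∀ t ∈ Ioo (-δ) δ, ∀ p ∈ Metric.ball (0 : ℂ × ℂ) ρ, ∀ q ∈ Metric.ball (0 : ℂ × ℂ) ρ,
      ‖X t p - X t q‖ ≤ C * ‖p - q‖)
    (hXc : ∀ p ∈ Metric.ball (0 : ℂ × ℂ) ρ, ContinuousOn (fun t => X t p) (Ioo (-δ) δ))
    (hh : ∀ t ∈ Ioo (-δ) δ, ∀ p ∈ Metric.ball (0 : ℂ × ℂ) ρ,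
      ∃ L : ℝ × (ℂ × ℂ) →L[ℝ] ℂ,
        HasFDerivAt (fun z : ℝ × (ℂ × ℂ) => h z.1 z.2) L (t, p) ∧ L (1, X t p) = 0) :
    ∃ ε > 0, ∀ t ∈ Icc 0 ε, LipEquiv (h 0) (h t) := by
  refine ⟨min (δ / 2) (1 / (2 * (C + 1))), by positivity, ?_⟩
  intro t ht
  have ht1 : t ≤ δ / 2 := ht.2.trans (min_le_left _ _)
  have ht2 : t ≤ 1 / (2 * (C + 1)) := ht.2.trans (min_le_right _ _)
  have hsub : Icc 0 t ⊆ Ioo (-δ) δ := fun s hs => ⟨by linarith [hs.1], by linarith [hs.2]⟩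
  have hCt : C * t ≤ 1 / 2 := by
    calc C * t ≤ C * (1 / (2 * (C + 1))) := by gcongr
      _ = (C / (C + 1)) / 2 := by field_simp
      _ ≤ 1 / 2 := by
        have : C / (C + 1) ≤ 1 := by rw [div_le_one (by positivity)]; linarith
        linarith
  exact flow_equiv_aux h X t ρ C hρ ht.1 hC hCt
    ⟨fun s hs => hX0 s (hsub hs), fun s hs => hXL s (hsub hs),
      fun p hp => (hXc p hp).mono hsub⟩ (fun s hs => hh s (hsub hs))

end H37.LM
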