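import Pool.Agent.H37.LM.Defs

/-!
# Functions in the blow-up chart

For `h = ∑ a i j * x ^ i * y ^ j` of multiplicity at least `e` we write
`h (x, x * w) = x ^ e * Ft (w, x)`, `Q = e * Ft + x * ∂ₓ Ft`, `W = ∂_w Ft`.
-/

noncomputable section

open Set Filter Topology
open scoped ContDiff

namespace H37.LM

/-- Partial derivative of `ev K a` in the first variable. -/
def evX (K : ℕ) (a : ℕ → ℕ → ℂ) (p : ℂ × ℂ) : ℂ :=
  ∑ i ∈ Finset.range (K + 1), ∑ j ∈ Finset.range (K + 1), a i j * (i * p.1 ^ (i - 1)) * p.2 ^ j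

/-- Partial derivative of `ev K a` in the second variable. -/
def evY (K : ℕ) (a : ℕ → ℕ → ℂ) (p : ℂ × ℂ) : ℂ :=
  ∑ i ∈ Finset.range (K + 1), ∑ j ∈ Finset.range (K + 1), a i j * p.1 ^ i * (j * p.2 ^ (j - 1))

/-- `h (x, x w) / x ^ e`. -/
def Ft (K e : ℕ) (a : ℕ → ℕ → ℂ) (w x : ℂ) : ℂ :=
  ∑ i ∈ Finset.range (K + 1), ∑ j ∈ Finset.range (K + 1), a i j * w ^ j * x ^ (i + j - e)

/-- `e * Ft + x * ∂ₓ Ft`. -/
def Qf (K e : ℕ) (a : ℕ → ℕ → ℂ) (w x : ℂ) : ℂ :=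
  ∑ i ∈ Finset.range (K + 1), ∑ j ∈ Finset.range (K + 1),
    ((i : ℂ) + j) * a i j * w ^ j * x ^ (i + j - e)

/-- `∂_w Ft`. -/
def Wf (K e : ℕ) (a : ℕ → ℕ → ℂ) (w x : ℂ) : ℂ :=
  ∑ i ∈ Finset.range (K + 1), ∑ j ∈ Finset.range (K + 1),
    a i j * (j * w ^ (j - 1)) * x ^ (i + j - e)

theorem ev_chart {K e : ℕ} {a : ℕ → ℕ → ℂ} (ha : ∀ i j, i + j < e → a i j = 0) (w x : ℂ) :
    ev K a (x, x * w) = x ^ e * Ft K e a w x := by
  unfold ev Ft
  rw [Finset.mul_sum]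
  refine Finset.sum_congr rfl fun i _ => ?_
  rw [Finset.mul_sum]
  refine Finset.sum_congr rfl fun j _ => ?_
  by_cases h : i + j < e
  · simp [ha i j h]
  · have : x ^ i * x ^ j = x ^ e * x ^ (i + j - e) := by
      rw [← pow_add, ← pow_add]; congr 1; omega
    simp only [mul_pow]
    linear_combination (a i j * w ^ j) * this

/-- The differential of `h` in the chart: with `ξ = (x α, x (w α + β))` one has
`h_x ξ₁ + h_y ξ₂ = x ^ e (α Q + β W)`. -/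
theorem evX_evY_chart {K e : ℕ} {a : ℕ → ℕ → ℂ}
    (ha : ∀ i j, i + j < e → a i j = 0) (w x α β : ℂ) :
    evX K a (x, x * w) * (x * α) + evY K a (x, x * w) * (x * (w * α + β)) =
      x ^ e * (α * Qf K e a w x + β * Wf K e a w x) := by
  unfold evX evY Qf Wf
  simp only [Finset.sum_mul, Finset.mul_sum, ← Finset.sum_add_distrib]
  refine Finset.sum_congr rfl fun i _ => ?_
  refine Finset.sum_congr rfl fun j _ => ?_
  by_cases h : i + j < e
  · simp [ha i j h]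
  · have e1 : x ^ i * x ^ j = x ^ e * x ^ (i + j - e) := by
      rw [← pow_add, ← pow_add]; congr 1; omega
    have e2 : (i : ℂ) * (x ^ (i - 1) * x) = i * x ^ i := by
      rcases Nat.eq_zero_or_pos i with h0 | h0
      · simp [h0]
      · rw [← pow_succ]; congr 2; omega
    have e3 : (j : ℂ) * (w ^ (j - 1) * w) = j * w ^ j := by
      rcases Nat.eq_zero_or_pos j with h0 | h0
      · simp [h0]
      · rw [← pow_succ]; congr 2; omega
    have e4 : (j : ℂ) * (x ^ (j - 1) * x) = j * x ^ j := by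
      rcases Nat.eq_zero_or_pos j with h0 | h0
      · simp [h0]
      · rw [← pow_succ]; congr 2; omega
    simp only [mul_pow]
    linear_combination (a i j * α * x ^ j * w ^ j) * e2 +
      (a i j * x ^ i * w ^ (j - 1) * (w * α + β)) * e4 +
      (a i j * α * x ^ i * x ^ j) * e3 +
      (a i j * (α * (i + j) * w ^ j + β * j * w ^ (j - 1))) * e1

theorem hasFDerivAt_ev (K : ℕ) (a : ℕ → ℕ → ℂ) (p : ℂ × ℂ) :
    HasFDerivAt (𝕜 := ℂ) (ev K a)
      (evX K a p • ContinuousLinearMap.fst ℂ ℂ ℂ + evY K a p • ContinuousLinearMap.snd ℂ ℂ ℂ)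
      p := by
  have key : ∀ i j : ℕ, HasFDerivAt (𝕜 := ℂ) (fun p : ℂ × ℂ => a i j * p.1 ^ i * p.2 ^ j)
      ((a i j * (i * p.1 ^ (i - 1)) * p.2 ^ j) • ContinuousLinearMap.fst ℂ ℂ ℂ +
        (a i j * p.1 ^ i * (j * p.2 ^ (j - 1))) • ContinuousLinearMap.snd ℂ ℂ ℂ) p := by
    intro i j
    have h1 : HasFDerivAt (𝕜 := ℂ) (fun p : ℂ × ℂ => p.1 ^ i)
        ((i * p.1 ^ (i - 1)) • ContinuousLinearMap.fst ℂ ℂ ℂ) p :=
      (hasDerivAt_pow i p.1).comp_hasFDerivAt p hasFDerivAt_fst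
    have h2 : HasFDerivAt (𝕜 := ℂ) (fun p : ℂ × ℂ => p.2 ^ j)
        ((j * p.2 ^ (j - 1)) • ContinuousLinearMap.snd ℂ ℂ ℂ) p :=
      (hasDerivAt_pow j p.2).comp_hasFDerivAt p hasFDerivAt_snd
    have h3 := (h1.const_mul (a i j)).mul h2
    refine h3.congr_fderiv ?_
    ext <;> simp <;> ring
  have := HasFDerivAt.fun_sum (u := Finset.range (K + 1)) (x := p) (fun i _ =>
    HasFDerivAt.fun_sum (u := Finset.range (K + 1)) (x := p) (fun j _ => key i j))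
  refine this.congr_fderiv ?_
  unfold evX evY
  ext <;> simp

/-- A cone of directions near `u`. -/
def cone (u : ℂ × ℂ) (r : ℝ) : Set (ℂ × ℂ) :=
  {p | 0 < ‖p‖ ∧ ‖p‖ < r ∧ ‖(‖p‖⁻¹ : ℝ) • p - u‖ < r}

/-- A Lipschitz solution `ξ` of `ℓ + A ξ₁ + B ξ₂ = 0`, `‖ξ‖ ≤ C ‖p‖`, on a cone around the
direction `u`, for small `t`. -/
def LocField (l A B : ℝ → ℂ × ℂ → ℂ) (u : ℂ × ℂ) : Prop :=
  ∃ r > 0, ∃ C ≥ 0, ∃ ξ : ℝ → ℂ × ℂ → ℂ × ℂ,
    (∀ t ∈ Ioo (-r) r, ∀ p ∈ cone u r, ‖ξ t p‖ ≤ C * ‖p‖) ∧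
    (∀ t ∈ Ioo (-r) r, ∀ p ∈ cone u r, ∀ q ∈ cone u r, ‖ξ t p - ξ t q‖ ≤ C * ‖p - q‖) ∧
    (∀ p ∈ cone u r, ContinuousOn (fun t => ξ t p) (Ioo (-r) r)) ∧
    ∀ t ∈ Ioo (-r) r, ∀ p ∈ cone u r, l t p + A t p * (ξ t p).1 + B t p * (ξ t p).2 = 0

open Polynomial in
/-- Polynomial version of `Ft`: outer variable `w`, inner variable `x`. -/
def FtP {R : Type*} [CommRing R] (K e : ℕ) (a : ℕ → ℕ → R) : R[X][X] :=
  ∑ i ∈ Finset.range (K + 1), ∑ j ∈ Finset.range (K + 1),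
    monomial j (monomial (i + j - e) (a i j))

open Polynomial in
/-- Polynomial version of `Qf`. -/
def QfP {R : Type*} [CommRing R] (K e : ℕ) (a : ℕ → ℕ → R) : R[X][X] :=
  ∑ i ∈ Finset.range (K + 1), ∑ j ∈ Finset.range (K + 1),
    monomial j (monomial (i + j - e) (((i : R) + j) * a i j))

open Polynomial in
/-- Polynomial version of `Wf`. -/
def WfP {R : Type*} [CommRing R] (K e : ℕ) (a : ℕ → ℕ → R) : R[X][X] :=
  ∑ i ∈ Finset.range (K + 1), ∑ j ∈ Finset.range (K + 1),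
    monomial (j - 1) (monomial (i + j - e) ((j : R) * a i j))

open Polynomial in
theorem evalEval_FtP (K e : ℕ) (a : ℕ → ℕ → ℂ) (w x : ℂ) :
    (FtP K e a).evalEval x w = Ft K e a w x := by
  unfold FtP Ft
  simp only [evalEval, eval_finsetSum]
  refine Finset.sum_congr rfl fun i _ => ?_
  refine Finset.sum_congr rfl fun j _ => ?_
  simp [eval_monomial]
  ring

open Polynomial in
theorem evalEval_QfP (K e : ℕ) (a : ℕ → ℕ → ℂ) (w x : ℂ) :
    (QfP K e a).evalEval x w = Qf K e a w x := by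
  unfold QfP Qf
  simp only [evalEval, eval_finsetSum]
  refine Finset.sum_congr rfl fun i _ => ?_
  refine Finset.sum_congr rfl fun j _ => ?_
  simp [eval_monomial]
  ring

open Polynomial in
theorem evalEval_WfP (K e : ℕ) (a : ℕ → ℕ → ℂ) (w x : ℂ) :
    (WfP K e a).evalEval x w = Wf K e a w x := by
  unfold WfP Wf
  simp only [evalEval, eval_finsetSum]
  refine Finset.sum_congr rfl fun i _ => ?_
  refine Finset.sum_congr rfl fun j _ => ?_
  simp [eval_monomial]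
  ring

end H37.LM
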