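import Pool.Agent.H37.LM.PolyLoc

/-!
# The field of generic germs of smooth functions: definitions

`G : GenData m` consists of an open set `B ⊆ ℝ ^ m` and an ultrafilter `U` which contains all
dense open subsets of `B`.  `SR B` is the ring of functions which are smooth on some dense open
subset of `B`, `G.nul` the ideal of functions vanishing on a set of `U`, `G.F` the quotient.
-/

noncomputable section

open Set Filter Topology Polynomial
open scoped ContDiff

namespace H37.LM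

variable {m : ℕ}

/-- `Ω` is a dense open subset of `B`. -/
def DenseOpenIn (B Ω : Set (Fin m → ℝ)) : Prop := IsOpen Ω ∧ Ω ⊆ B ∧ B ⊆ closure Ω

theorem DenseOpenIn.inter {B Ω Ω' : Set (Fin m → ℝ)} (h : DenseOpenIn B Ω)
    (h' : DenseOpenIn B Ω') : DenseOpenIn B (Ω ∩ Ω') := by
  refine ⟨h.1.inter h'.1, fun x hx => h.2.1 hx.1, fun x hx => ?_⟩
  rw [mem_closure_iff]
  intro o ho hxo
  obtain ⟨y, hyo, hy⟩ := mem_closure_iff.1 (h.2.2 hx) o ho hxo
  obtain ⟨z, hzo, hz⟩ := mem_closure_iff.1 (h'.2.2 (h.2.1 hy)) (o ∩ Ω) (ho.inter h.1) ⟨hyo, hy⟩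
  exact ⟨z, hzo.1, hzo.2, hz⟩

theorem DenseOpenIn.self {B : Set (Fin m → ℝ)} (h : IsOpen B) : DenseOpenIn B B :=
  ⟨h, le_rfl, subset_closure⟩

/-- An open set with a generic ultrafilter on it. -/
structure GenData (m : ℕ) where
  B : Set (Fin m → ℝ)
  isOpen : IsOpen B
  U : Ultrafilter (Fin m → ℝ)
  mem : ∀ Ω, DenseOpenIn B Ω → Ω ∈ U

/-- Functions which are smooth on a dense open subset of `B` (`B` open). -/
def SR (G : GenData m) : Subring ((Fin m → ℝ) → ℂ) where
  carrier := {f | ∃ Ω, DenseOpenIn G.B Ω ∧ ContDiffOn ℝ ∞ f Ω}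
  mul_mem' := by
    rintro f g ⟨Ω, h, hf⟩ ⟨Ω', h', hg⟩
    exact ⟨Ω ∩ Ω', h.inter h', (hf.mono inter_subset_left).mul (hg.mono inter_subset_right)⟩
  one_mem' := ⟨G.B, DenseOpenIn.self G.isOpen, contDiffOn_const⟩
  add_mem' := by
    rintro f g ⟨Ω, h, hf⟩ ⟨Ω', h', hg⟩
    exact ⟨Ω ∩ Ω', h.inter h', (hf.mono inter_subset_left).add (hg.mono inter_subset_right)⟩
  zero_mem' := ⟨G.B, DenseOpenIn.self G.isOpen, contDiffOn_const⟩
  neg_mem' := by
    rintro f ⟨Ω, h, hf⟩
    exact ⟨Ω, h, hf.neg⟩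

/-- The functions which vanish generically. -/
def GenData.nul (G : GenData m) : Ideal (SR G) where
  carrier := {f | ∀ᶠ s in (G.U : Filter (Fin m → ℝ)), (f : (Fin m → ℝ) → ℂ) s = 0}
  add_mem' := by
    intro f g hf hg
    filter_upwards [hf, hg] with s h1 h2
    simp [h1, h2]
  zero_mem' := Eventually.of_forall fun s => rfl
  smul_mem' := by
    intro c f hf
    filter_upwards [hf] with s h1
    simp [h1]

/-- Open subsets of `B` belonging to the ultrafilter. -/
def GenData.Big (G : GenData m) (V : Set (Fin m → ℝ)) : Prop := IsOpen V ∧ V ⊆ G.B ∧ V ∈ G.U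

theorem GenData.Big.inter {G : GenData m} {V W : Set (Fin m → ℝ)} (hV : G.Big V)
    (hW : G.Big W) : G.Big (V ∩ W) :=
  ⟨hV.1.inter hW.1, fun _ hx => hV.2.1 hx.1, Filter.inter_mem hV.2.2 hW.2.2⟩

theorem GenData.Big.nonempty {G : GenData m} {V : Set (Fin m → ℝ)} (hV : G.Big V) :
    V.Nonempty := G.U.nonempty_of_mem hV.2.2

theorem GenData.big_of_denseOpen {G : GenData m} {V : Set (Fin m → ℝ)}
    (hV : DenseOpenIn G.B V) : G.Big V := ⟨hV.1, hV.2.1, G.mem V hV⟩

theorem GenData.big_biInter {G : GenData m} {ι : Type*} (s : Finset ι)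
    (V : ι → Set (Fin m → ℝ)) (h : ∀ i ∈ s, G.Big (V i)) :
    ∃ W, G.Big W ∧ ∀ i ∈ s, W ⊆ V i := by
  classical
  induction s using Finset.induction_on with
  | empty => exact ⟨G.B, GenData.big_of_denseOpen (DenseOpenIn.self G.isOpen), by simp⟩
  | insert a s ha ih =>
    obtain ⟨W, hW, hsub⟩ := ih fun i hi => h i (Finset.mem_insert_of_mem hi)
    refine ⟨W ∩ V a, hW.inter (h a (Finset.mem_insert_self a s)), fun i hi => ?_⟩
    rcases Finset.mem_insert.1 hi with rfl | hi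
    · exact inter_subset_right
    · exact inter_subset_left.trans (hsub i hi)

/-- Evaluation at a point. -/
def evS (G : GenData m) (s : Fin m → ℝ) : SR G →+* ℂ :=
  (Pi.evalRingHom (fun _ : Fin m → ℝ => ℂ) s).comp (SR G).subtype

@[simp] theorem evS_apply (G : GenData m) (s : Fin m → ℝ) (f : SR G) :
    evS G s f = (f : (Fin m → ℝ) → ℂ) s := rfl

/-- The partial derivative in the direction of the `i`-th basis vector. -/
def pd (G : GenData m) (i : Fin m) (f : SR G) : SR G :=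
  ⟨fun s => fderiv ℝ (f : (Fin m → ℝ) → ℂ) s (Pi.single i 1), by
    obtain ⟨Ω, hΩ, hf⟩ := f.2
    refine ⟨Ω, hΩ, ?_⟩
    have h1 : ContDiffOn ℝ ∞ (fderiv ℝ (f : (Fin m → ℝ) → ℂ)) Ω := by
      refine (contDiffOn_infty_iff_fderiv_of_isOpen hΩ.1).1 hf |>.2
    exact h1.clm_apply contDiffOn_const⟩

end H37.LM
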