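import Pool.Agent.H37.LM.GenField

/-!
# Derivations of the field of generic germs   [H37 LM GenC]

`pd G i` is compatible with the relation defining `G.F`: if `f` vanishes on an open set `V ∈ U`
(`cl_eq_zero_iff`, applied to `f - g`), so does its derivative.  It is additive and satisfies the
Leibniz rule at all points of an open set of `U` where both functions are smooth, hence in `G.F`.
-/

noncomputable section

open Set Filter Topology Polynomial
open scoped ContDiff

namespace H37.LM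

variable {m : ℕ}

theorem cl_pd_congr (G : GenData m) (i : Fin m) {f g : SR G} (h : G.cl f = G.cl g) :
    G.cl (pd G i f) = G.cl (pd G i g) := by
  obtain ⟨V, hV, hfg⟩ := (cl_eq_iff G f g).1 h
  refine (cl_eq_iff G _ _).2 ⟨V, hV, fun s hs => ?_⟩
  have h1 : (f : (Fin m → ℝ) → ℂ) =ᶠ[𝓝 s] (g : (Fin m → ℝ) → ℂ) := by
    filter_upwards [hV.1.mem_nhds hs] with t ht using hfg t ht
  change fderiv ℝ (f : (Fin m → ℝ) → ℂ) s (Pi.single i 1) =
    fderiv ℝ (g : (Fin m → ℝ) → ℂ) s (Pi.single i 1)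
  rw [h1.fderiv_eq]

theorem exists_diff_big (G : GenData m) (f g : SR G) : ∃ V, G.Big V ∧ ∀ s ∈ V,
    DifferentiableAt ℝ (f : (Fin m → ℝ) → ℂ) s ∧ DifferentiableAt ℝ (g : (Fin m → ℝ) → ℂ) s := by
  obtain ⟨V, hV, hf⟩ := smooth_big G f
  obtain ⟨W, hW, hg⟩ := smooth_big G g
  refine ⟨V ∩ W, hV.inter hW, fun s hs => ⟨?_, ?_⟩⟩
  · exact (hf.contDiffAt (hV.1.mem_nhds hs.1)).differentiableAt (by simp)
  · exact (hg.contDiffAt (hW.1.mem_nhds hs.2)).differentiableAt (by simp)

theorem cl_pd_add (G : GenData m) (i : Fin m) (f g : SR G) :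
    G.cl (pd G i (f + g)) = G.cl (pd G i f) + G.cl (pd G i g) := by
  rw [← map_add]
  obtain ⟨V, hV, h⟩ := exists_diff_big G f g
  refine (cl_eq_iff G _ _).2 ⟨V, hV, fun s hs => ?_⟩
  obtain ⟨h1, h2⟩ := h s hs
  change fderiv ℝ ((f : (Fin m → ℝ) → ℂ) + (g : (Fin m → ℝ) → ℂ)) s (Pi.single i 1) =
    fderiv ℝ (f : (Fin m → ℝ) → ℂ) s (Pi.single i 1) +
      fderiv ℝ (g : (Fin m → ℝ) → ℂ) s (Pi.single i 1)
  rw [fderiv_add h1 h2]
  rfl

theorem cl_pd_mul (G : GenData m) (i : Fin m) (f g : SR G) :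
    G.cl (pd G i (f * g)) = G.cl f * G.cl (pd G i g) + G.cl g * G.cl (pd G i f) := by
  rw [← map_mul, ← map_mul, ← map_add]
  obtain ⟨V, hV, h⟩ := exists_diff_big G f g
  refine (cl_eq_iff G _ _).2 ⟨V, hV, fun s hs => ?_⟩
  obtain ⟨h1, h2⟩ := h s hs
  change fderiv ℝ ((f : (Fin m → ℝ) → ℂ) * (g : (Fin m → ℝ) → ℂ)) s (Pi.single i 1) =
    (f : (Fin m → ℝ) → ℂ) s * fderiv ℝ (g : (Fin m → ℝ) → ℂ) s (Pi.single i 1) +
      (g : (Fin m → ℝ) → ℂ) s * fderiv ℝ (f : (Fin m → ℝ) → ℂ) s (Pi.single i 1)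
  rw [fderiv_mul h1 h2]
  rfl

theorem exists_der (G : GenData m) (i : Fin m) :
    ∃ D : Derivation ℤ G.F G.F, ∀ f : SR G, D (G.cl f) = G.cl (pd G i f) := by
  set r : G.F → SR G := Function.surjInv (cl_surjective G) with hr
  have hrc : ∀ x, G.cl (r x) = x := Function.surjInv_eq (cl_surjective G)
  have hd : ∀ f : SR G, G.cl (pd G i (r (G.cl f))) = G.cl (pd G i f) := fun f =>
    cl_pd_congr G i (hrc _)
  let d : G.F →+ G.F :=
    AddMonoidHom.mk' (fun x => G.cl (pd G i (r x))) (by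
      intro x y
      obtain ⟨f, rfl⟩ := cl_surjective G x
      obtain ⟨g, rfl⟩ := cl_surjective G y
      rw [← map_add, hd, hd, hd, cl_pd_add])
  have hl : ∀ x y : G.F, d (x * y) = x * d y + y * d x := by
    intro x y
    obtain ⟨f, rfl⟩ := cl_surjective G x
    obtain ⟨g, rfl⟩ := cl_surjective G y
    change G.cl (pd G i (r (G.cl f * G.cl g))) =
      G.cl f * G.cl (pd G i (r (G.cl g))) + G.cl g * G.cl (pd G i (r (G.cl f)))
    rw [← map_mul, hd, hd, hd, cl_pd_mul]
  have h1 : d 1 = 0 := by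
    have := hl 1 1
    simpa using this
  refine ⟨{ toLinearMap := d.toIntLinearMap
            map_one_eq_zero' := h1
            leibniz' := hl }, fun f => hd f⟩

/-- The `i`-th partial derivative on `G.F`. -/
def GenData.der (G : GenData m) (i : Fin m) : Derivation ℤ G.F G.F := (exists_der G i).choose

theorem der_cl (G : GenData m) (i : Fin m) (f : SR G) :
    G.der i (G.cl f) = G.cl (pd G i f) := (exists_der G i).choose_spec f

/-- The derivation in the direction of the generic vector field `v`. -/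
def GenData.derV (G : GenData m) (v : Fin m → SR G) : Derivation ℤ G.F G.F :=
  ∑ i, G.cl (v i) • G.der i

/-- `derV G v (cl f)` is represented by `s ↦ fderiv ℝ f s (v s)` if `v` is real valued. -/
theorem derV_cl (G : GenData m) (v : Fin m → SR G)
    (hv : ∀ i s, ((v i : (Fin m → ℝ) → ℂ) s).im = 0) (f : SR G) :
    ∃ f' : SR G, G.derV v (G.cl f) = G.cl f' ∧
      ∀ V, IsOpen V → ContDiffOn ℝ ∞ (f : (Fin m → ℝ) → ℂ) V → ∀ s ∈ V,
        (f' : (Fin m → ℝ) → ℂ) s =
          fderiv ℝ (f : (Fin m → ℝ) → ℂ) s (fun i => ((v i : (Fin m → ℝ) → ℂ) s).re) := by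
  refine ⟨∑ i, v i * pd G i f, ?_, ?_⟩
  · unfold GenData.derV
    rw [map_sum]
    simp only [map_mul]
    rw [← Derivation.coeFnAddMonoidHom_apply, map_sum, Finset.sum_apply]
    simp only [Derivation.coeFnAddMonoidHom_apply]
    refine Finset.sum_congr rfl fun i _ => ?_
    rw [Derivation.smul_apply, der_cl, smul_eq_mul]
  · intro V _ _ s _
    have e1 : (fun i => ((v i : (Fin m → ℝ) → ℂ) s).re) =
        ∑ i, ((v i : (Fin m → ℝ) → ℂ) s).re • (Pi.single i (1 : ℝ) : Fin m → ℝ) := by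
      funext j
      simp [Finset.sum_apply, Pi.single_apply]
    rw [e1, map_sum]
    have e2 : ((∑ i, v i * pd G i f : SR G) : (Fin m → ℝ) → ℂ) s =
        ∑ i, (v i : (Fin m → ℝ) → ℂ) s * (pd G i f : (Fin m → ℝ) → ℂ) s := by
      rw [← evS_apply, map_sum]
      simp only [map_mul, evS_apply]
    rw [e2]
    refine Finset.sum_congr rfl fun i _ => ?_
    rw [map_smul]
    have e3 : (v i : (Fin m → ℝ) → ℂ) s = (((v i : (Fin m → ℝ) → ℂ) s).re : ℂ) := by
      apply Complex.ext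
      · simp
      · simp [hv i s]
    rw [e3]
    change _ * fderiv ℝ (f : (Fin m → ℝ) → ℂ) s (Pi.single i 1) = _
    rw [Complex.real_smul]
    simp

end H37.LM
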