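import Pool.Agent.H37.LM.GenField

/-!
# Real linear algebra over the field of generic germs   [H37 LM GenD]

Proof.  The classes of real valued functions form a subfield `R` of `G.F` (the inverse of the class
of a real valued function is the class of a real valued function, see `exists_inv`; alternatively
work with the real and imaginary parts directly).  Every `z ∈ G.F` is `x + I y` with `x, y ∈ R`
(real and imaginary part of a representative).  The condition `∑ v i * o i l = 0` for `l = 0, 1`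
becomes 4 linear equations over the field `R` in `m ≥ 5` unknowns, so there is a nonzero solution
(`Matrix.exists_mulVec_eq_zero_of...` / `LinearMap.exists_ne_zero_of...finrank`); choose real
valued representatives of the `v i`.
-/

noncomputable section

open Set Filter Topology Polynomial
open scoped ContDiff

namespace H37.LM

variable {m : ℕ}

/-- The real part of a generic function. -/
def genDRe (G : GenData m) (f : SR G) : SR G :=
  ⟨fun s => (((f : (Fin m → ℝ) → ℂ) s).re : ℂ), by
    obtain ⟨Ω, hΩ, hf⟩ := f.2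
    refine ⟨Ω, hΩ, ?_⟩
    exact (Complex.ofRealCLM.contDiff.comp Complex.reCLM.contDiff).comp_contDiffOn hf⟩

/-- The imaginary part of a generic function. -/
def genDIm (G : GenData m) (f : SR G) : SR G :=
  ⟨fun s => (((f : (Fin m → ℝ) → ℂ) s).im : ℂ), by
    obtain ⟨Ω, hΩ, hf⟩ := f.2
    refine ⟨Ω, hΩ, ?_⟩
    exact (Complex.ofRealCLM.contDiff.comp Complex.imCLM.contDiff).comp_contDiffOn hf⟩

/-- The constant function `I`. -/
def genDI (G : GenData m) : SR G :=
  ⟨fun _ => Complex.I, G.B, DenseOpenIn.self G.isOpen, contDiffOn_const⟩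

theorem genD_decomp (G : GenData m) (f : SR G) : f = genDRe G f + genDI G * genDIm G f := by
  apply Subtype.ext
  funext s
  show (f : (Fin m → ℝ) → ℂ) s = (((f : (Fin m → ℝ) → ℂ) s).re : ℂ) +
    Complex.I * (((f : (Fin m → ℝ) → ℂ) s).im : ℂ)
  rw [mul_comm Complex.I, Complex.re_add_im]

/-- Real valued functions. -/
def GenDReal (G : GenData m) (f : SR G) : Prop := ∀ s, ((f : (Fin m → ℝ) → ℂ) s).im = 0

theorem genDRe_real (G : GenData m) (f : SR G) : GenDReal G (genDRe G f) := fun s => by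
  show ((((f : (Fin m → ℝ) → ℂ) s).re : ℂ)).im = 0
  exact Complex.ofReal_im _

theorem genDIm_real (G : GenData m) (f : SR G) : GenDReal G (genDIm G f) := fun s => by
  show ((((f : (Fin m → ℝ) → ℂ) s).im : ℂ)).im = 0
  exact Complex.ofReal_im _

theorem genD_inv (G : GenData m) (f : SR G) (hf : GenDReal G f) :
    ∃ g : SR G, GenDReal G g ∧ G.cl g = (G.cl f)⁻¹ := by
  by_cases h0 : G.cl f = 0
  · refine ⟨0, fun s => ?_, ?_⟩
    · show (0 : ℂ).im = 0
      exact Complex.zero_im
    · rw [map_zero, h0, inv_zero]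
  · have hnul : f ∉ G.nul := fun hc => h0 ((cl_eq_zero_iff' G f).2 hc)
    obtain ⟨g, hg⟩ := exists_inv G f hnul
    refine ⟨genDRe G g, genDRe_real G g, ?_⟩
    have h1 : G.cl (f * genDRe G g) = G.cl 1 := by
      rw [cl_eq_iff]
      obtain ⟨V, hV, h2⟩ := (mem_nul_iff G _).1 hg
      refine ⟨V, hV, fun s hs => ?_⟩
      have h3 := h2 s hs
      have h4 : (f : (Fin m → ℝ) → ℂ) s * (g : (Fin m → ℝ) → ℂ) s - 1 = 0 := h3
      have h5 := congrArg Complex.re (sub_eq_zero.1 h4)
      rw [Complex.mul_re, hf s, zero_mul, sub_zero, Complex.one_re] at h5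
      show (f : (Fin m → ℝ) → ℂ) s * (((g : (Fin m → ℝ) → ℂ) s).re : ℂ) = 1
      apply Complex.ext
      · rw [Complex.re_mul_ofReal, h5, Complex.one_re]
      · rw [Complex.im_mul_ofReal, hf s, zero_mul, Complex.one_im]
    rw [map_mul, map_one] at h1
    exact eq_inv_of_mul_eq_one_right h1

/-- The subfield of classes of real valued functions. -/
def genDR (G : GenData m) : Subfield G.F where
  carrier := {z | ∃ f : SR G, GenDReal G f ∧ G.cl f = z}
  mul_mem' := by
    rintro _ _ ⟨f, hf, rfl⟩ ⟨g, hg, rfl⟩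
    refine ⟨f * g, fun s => ?_, map_mul _ _ _⟩
    show ((f : (Fin m → ℝ) → ℂ) s * (g : (Fin m → ℝ) → ℂ) s).im = 0
    rw [Complex.mul_im, hf s, hg s]
    ring
  one_mem' := ⟨1, fun s => by show (1 : ℂ).im = 0; exact Complex.one_im, map_one _⟩
  add_mem' := by
    rintro _ _ ⟨f, hf, rfl⟩ ⟨g, hg, rfl⟩
    refine ⟨f + g, fun s => ?_, map_add _ _ _⟩
    show ((f : (Fin m → ℝ) → ℂ) s + (g : (Fin m → ℝ) → ℂ) s).im = 0
    rw [Complex.add_im, hf s, hg s]
    ring
  zero_mem' := ⟨0, fun s => by show (0 : ℂ).im = 0; exact Complex.zero_im, map_zero _⟩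
  neg_mem' := by
    rintro _ ⟨f, hf, rfl⟩
    refine ⟨-f, fun s => ?_, map_neg _ _⟩
    show (-(f : (Fin m → ℝ) → ℂ) s).im = 0
    rw [Complex.neg_im, hf s, neg_zero]
  inv_mem' := by
    rintro _ ⟨f, hf, rfl⟩
    obtain ⟨g, hg, h⟩ := genD_inv G f hf
    exact ⟨g, hg, h⟩

theorem genD_exists (G : GenData m) (z : G.F) : ∃ x y : genDR G,
    z = (x : G.F) + G.cl (genDI G) * (y : G.F) := by
  obtain ⟨f, rfl⟩ := cl_surjective G z
  refine ⟨⟨G.cl (genDRe G f), genDRe G f, genDRe_real G f, rfl⟩,
    ⟨G.cl (genDIm G f), genDIm G f, genDIm_real G f, rfl⟩, ?_⟩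
  show G.cl f = G.cl (genDRe G f) + G.cl (genDI G) * G.cl (genDIm G f)
  rw [← map_mul, ← map_add, ← genD_decomp]

theorem exists_real_vec (G : GenData m) (hm : 5 ≤ m) (o : Fin m → Fin 2 → G.F) :
    ∃ v : Fin m → SR G, (∀ i s, ((v i : (Fin m → ℝ) → ℂ) s).im = 0) ∧
      (∃ i, G.cl (v i) ≠ 0) ∧ ∀ l, ∑ i, G.cl (v i) * o i l = 0 := by
  choose x y hxy using fun (i : Fin m) (l : Fin 2) => genD_exists G (o i l)
  set M : Matrix (Fin 2 × Fin 2) (Fin m) (genDR G) :=
    fun p i => if p.2 = 0 then x i p.1 else y i p.1 with hM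
  have hker : LinearMap.ker M.mulVecLin ≠ ⊥ := by
    apply LinearMap.ker_ne_bot_of_finrank_lt
    rw [Module.finrank_fintype_fun_eq_card, Module.finrank_fintype_fun_eq_card,
      Fintype.card_prod, Fintype.card_fin, Fintype.card_fin]
    omega
  obtain ⟨u, hu, hu0⟩ := Submodule.exists_mem_ne_zero_of_ne_bot hker
  rw [LinearMap.mem_ker, Matrix.mulVecLin_apply] at hu
  have hrep : ∀ i, ∃ f : SR G, GenDReal G f ∧ G.cl f = (u i : G.F) := fun i => (u i).2
  choose v hv hvu using hrep
  refine ⟨v, fun i => hv i, ?_, ?_⟩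
  · obtain ⟨i, hi⟩ := Function.ne_iff.1 hu0
    refine ⟨i, ?_⟩
    rw [hvu i]
    intro hc
    apply hi
    exact Subtype.ext hc
  · intro l
    have e0 : ∑ i, (x i l : G.F) * (u i : G.F) = 0 := by
      have := congrFun hu (l, 0)
      have h1 : ∑ i, x i l * u i = 0 := by
        simpa [Matrix.mulVec, dotProduct, hM] using this
      have h2 := congrArg (fun z : genDR G => (z : G.F)) h1
      simpa using h2
    have e1 : ∑ i, (y i l : G.F) * (u i : G.F) = 0 := by
      have := congrFun hu (l, 1)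
      have h1 : ∑ i, y i l * u i = 0 := by
        simpa [Matrix.mulVec, dotProduct, hM] using this
      have h2 := congrArg (fun z : genDR G => (z : G.F)) h1
      simpa using h2
    have e2 : ∀ i, G.cl (v i) * o i l = (x i l : G.F) * (u i : G.F) +
        G.cl (genDI G) * ((y i l : G.F) * (u i : G.F)) := by
      intro i
      rw [hvu i, hxy i l]
      ring
    have e3 : ∑ i, G.cl (genDI G) * ((y i l : G.F) * (u i : G.F)) =
        G.cl (genDI G) * ∑ i, ((y i l : G.F) * (u i : G.F)) := (Finset.mul_sum _ _ _).symm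
    rw [Finset.sum_congr rfl (fun i _ => e2 i), Finset.sum_add_distrib, e3, e0, e1,
      mul_zero, add_zero]

end H37.LM
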