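import Pool.Agent.H37.LM.GenField

/-!
# The field of generic germs is algebraically closed   [H37 LM GenE]

Proof.  Let `P` be a monic polynomial over `G.F` of degree `n ≥ 1`; let
`P_s = X ^ n + ∑ c_j(s) X ^ j`, `c_j ∈ SR G` smooth on the dense open set `Ω`.

1. Local claim: every nonempty open `W ⊆ Ω` contains a nonempty open `V` with a smooth function
   `r : V → ℂ`, `P_s (r s) = 0` on `V`.  Choose `s0 ∈ W` and a root `ζ0` of `P_{s0}` such that the
   multiplicity `μ` of `ζ0` is minimal among the multiplicities of all roots of all `P_s`,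
   `s ∈ W`.  The function `Gf (s, ζ) = (d/dζ)^(μ-1) P_s (ζ)` is smooth, `Gf (s0, ζ0) = 0` and its
   `ζ`-derivative does not vanish there: by the inverse function theorem for
   `(s, ζ) ↦ (s, Gf (s, ζ))` there are a smooth function `r` near `s0`, and a neighbourhood of
   `(s0, ζ0)` in which `Gf (s, ζ) = 0` iff `ζ = r s`.  For `s` near `s0`, `P_s` has a root `ζ` close
   to `ζ0` (the product of the distances of `ζ0` to the roots is `‖P_s ζ0‖`, which is small); its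
   multiplicity is at least `μ` by minimality, so `Gf (s, ζ) = 0` and `ζ = r s`.
2. Globalisation: take (Zorn) a maximal family of pairwise disjoint nonempty open sets `V_i ⊆ Ω`
   with smooth root functions `r_i`; its union is dense in `Ω` by 1, hence dense open in `B`; the
   function equal to `r_i` on `V_i` (and `0` elsewhere) is an element of `SR G`, and its class is a
   root of `P`.
-/

noncomputable section

open Set Filter Topology Polynomial
open scoped ContDiff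

namespace H37.LM

variable {m : ℕ}

/-- the polynomial with coefficients `c j s` -/
private def PP {n : ℕ} (c : Fin n → (Fin m → ℝ) → ℂ) (s : Fin m → ℝ) : ℂ[X] :=
  X ^ n + ∑ j, C (c j s) * X ^ (j : ℕ)

private theorem pp_eval {n : ℕ} (c : Fin n → (Fin m → ℝ) → ℂ) (s : Fin m → ℝ) (z : ℂ) :
    (PP c s).eval z = z ^ n + ∑ j, c j s * z ^ (j : ℕ) := by
  unfold PP
  rw [eval_add, eval_pow, eval_X, eval_finsetSum]
  congr 1
  refine Finset.sum_congr rfl fun j _ => ?_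
  rw [eval_mul, eval_C, eval_pow, eval_X]

private theorem pp_degree {n : ℕ} (c : Fin n → (Fin m → ℝ) → ℂ) (s : Fin m → ℝ) :
    (∑ j, C (c j s) * X ^ (j : ℕ) : ℂ[X]).degree < (n : ℕ) := by
  refine lt_of_le_of_lt (degree_sum_le _ _) ?_
  rw [Finset.sup_lt_iff (by exact WithBot.bot_lt_coe n)]
  intro j _
  refine lt_of_le_of_lt (degree_C_mul_X_pow_le _ _) ?_
  exact_mod_cast j.2

private theorem pp_monic {n : ℕ} (c : Fin n → (Fin m → ℝ) → ℂ) (s : Fin m → ℝ) :
    (PP c s).Monic := monic_X_pow_add (pp_degree c s)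

private theorem pp_natDegree {n : ℕ} (c : Fin n → (Fin m → ℝ) → ℂ) (s : Fin m → ℝ) :
    (PP c s).natDegree = n := by
  unfold PP
  rw [natDegree_add_eq_left_of_degree_lt, natDegree_X_pow]
  rw [degree_X_pow]
  exact pp_degree c s

private theorem pp_der {n : ℕ} (c : Fin n → (Fin m → ℝ) → ℂ) (s : Fin m → ℝ) (z : ℂ) (k : ℕ) :
    (derivative^[k] (PP c s)).eval z =
      (n.descFactorial k : ℂ) * z ^ (n - k) +
        ∑ j : Fin n, c j s * (((j : ℕ).descFactorial k : ℂ) * z ^ ((j : ℕ) - k)) := by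
  unfold PP
  rw [iterate_map_add, eval_add, iterate_derivative_X_pow_eq_smul,
    iterate_derivative_sum, eval_finsetSum]
  congr 1
  · simp
  · refine Finset.sum_congr rfl fun j _ => ?_
    rw [iterate_derivative_C_mul, iterate_derivative_X_pow_eq_smul]
    simp
    ring

private theorem pp_smooth {n : ℕ} (c : Fin n → (Fin m → ℝ) → ℂ) {W : Set (Fin m → ℝ)}
    (hW : IsOpen W) (hc : ∀ j, ContDiffOn ℝ ∞ (c j) W) (k : ℕ) {u : (Fin m → ℝ) × ℂ}
    (hu : u.1 ∈ W) :
    ContDiffAt ℝ ∞ (fun v : (Fin m → ℝ) × ℂ => (derivative^[k] (PP c v.1)).eval v.2) u := by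
  have h1 : (fun v : (Fin m → ℝ) × ℂ => (derivative^[k] (PP c v.1)).eval v.2) =
      fun v => (n.descFactorial k : ℂ) * v.2 ^ (n - k) +
        ∑ j : Fin n, c j v.1 * (((j : ℕ).descFactorial k : ℂ) * v.2 ^ ((j : ℕ) - k)) := by
    funext v
    exact pp_der c v.1 v.2 k
  rw [h1]
  refine ContDiffAt.add (contDiffAt_const.mul (contDiffAt_snd.pow _)) ?_
  refine ContDiffAt.sum fun j _ => ?_
  refine ContDiffAt.mul ?_ (contDiffAt_const.mul (contDiffAt_snd.pow _))
  exact ((hc j).contDiffAt (hW.mem_nhds hu)).comp u contDiffAt_fst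

private theorem pp_inv {n : ℕ} (c : Fin n → (Fin m → ℝ) → ℂ) {W : Set (Fin m → ℝ)}
    (hW : IsOpen W) (hc : ∀ j, ContDiffOn ℝ ∞ (c j) W) (k : ℕ) {u : (Fin m → ℝ) × ℂ}
    (hu : u.1 ∈ W) (hne : (derivative^[k + 1] (PP c u.1)).eval u.2 ≠ 0) :
    (fderiv ℝ (fun v : (Fin m → ℝ) × ℂ => (derivative^[k] (PP c v.1)).eval v.2) u ∘L
      .inr ℝ (Fin m → ℝ) ℂ).IsInvertible := by
  set f := fun v : (Fin m → ℝ) × ℂ => (derivative^[k] (PP c v.1)).eval v.2 with hf
  have h1 : HasFDerivAt f (fderiv ℝ f u) u :=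
    ((pp_smooth c hW hc k hu).differentiableAt (by simp)).hasFDerivAt
  have h2 : HasFDerivAt (fun z : ℂ => (u.1, z)) (ContinuousLinearMap.inr ℝ (Fin m → ℝ) ℂ) u.2 :=
    hasFDerivAt_prodMk_right u.1 u.2
  have h3 : HasFDerivAt (fun z : ℂ => f (u.1, z)) (fderiv ℝ f u ∘L .inr ℝ (Fin m → ℝ) ℂ) u.2 :=
    HasFDerivAt.comp u.2 (g := f) h1 h2
  set a : ℂ := (derivative^[k + 1] (PP c u.1)).eval u.2 with ha
  have h4 : HasDerivAt (fun z : ℂ => f (u.1, z)) a u.2 := by
    have h5 := (derivative^[k] (PP c u.1)).hasDerivAt u.2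
    rw [← Function.iterate_succ_apply' derivative k] at h5
    exact h5
  have h5 := h4.hasFDerivAt.restrictScalars ℝ
  have h6 := h3.unique h5
  rw [h6]
  refine ⟨(ContinuousLinearEquiv.unitsEquivAut ℂ (Units.mk0 a hne)).restrictScalars ℝ, ?_⟩
  ext z; simp

private theorem pp_root_near {n : ℕ} (c : Fin n → (Fin m → ℝ) → ℂ)
    {W : Set (Fin m → ℝ)}
    (hW : IsOpen W) (hc : ∀ j, ContDiffOn ℝ ∞ (c j) W) {s0 : Fin m → ℝ} (hs : s0 ∈ W) {z0 : ℂ}
    (h0 : (PP c s0).eval z0 = 0) {δ : ℝ} (hδ : 0 < δ) :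
    ∀ᶠ s in 𝓝 s0, ∃ z, dist z z0 < δ ∧ (PP c s).eval z = 0 := by
  have h1 : ContinuousAt (fun s => (PP c s).eval z0) s0 := by
    have h2 := (pp_smooth c hW hc 0 (u := (s0, z0)) hs).continuousAt
    have h3 : ContinuousAt (fun s : Fin m → ℝ => (s, z0)) s0 := by fun_prop
    exact ContinuousAt.comp (f := fun s : Fin m → ℝ => (s, z0)) (x := s0) h2 h3
  have h2 : Tendsto (fun s => ‖(PP c s).eval z0‖) (𝓝 s0) (𝓝 0) := by
    have := h1.tendsto.norm
    rwa [h0, norm_zero] at this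
  filter_upwards [h2.eventually (gt_mem_nhds (pow_pos hδ n))] with s hs1
  by_contra hcon
  push Not at hcon
  have hsp : (PP c s).Splits := IsAlgClosed.splits _
  have h3 : (PP c s).eval z0 = ((PP c s).roots.map fun a => z0 - a).prod := by
    conv_lhs => rw [hsp.eq_prod_roots_of_monic (pp_monic c s)]
    rw [eval_multiset_prod, Multiset.map_map]
    congr 1
    refine Multiset.map_congr rfl fun a _ => ?_
    simp
  have hcard : (PP c s).roots.card = n := by
    rw [← hsp.natDegree_eq_card_roots, pp_natDegree]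
  have h4 : δ ^ (PP c s).roots.card ≤ ‖((PP c s).roots.map fun a => z0 - a).prod‖ := by
    have key : ∀ M : Multiset ℂ, (∀ a ∈ M, δ ≤ dist a z0) →
        δ ^ M.card ≤ ‖(M.map fun a => z0 - a).prod‖ := by
      intro M
      induction M using Multiset.induction_on with
      | empty => simp
      | cons a M ih =>
        intro hM
        rw [Multiset.card_cons, Multiset.map_cons, Multiset.prod_cons, norm_mul, pow_succ']
        refine mul_le_mul ?_ (ih fun b hb => hM b (Multiset.mem_cons_of_mem hb))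
          (by positivity) (norm_nonneg _)
        have := hM a (Multiset.mem_cons_self a M)
        rwa [dist_comm, dist_eq_norm] at this
    refine key _ fun a ha => ?_
    by_contra hlt
    push Not at hlt
    exact hcon a hlt (isRoot_of_mem_roots ha)
  rw [hcard, ← h3] at h4
  linarith

/-- The local claim. -/
theorem local_root {n : ℕ} (hn : 1 ≤ n) (c : Fin n → (Fin m → ℝ) → ℂ) (W : Set (Fin m → ℝ))
    (hW : IsOpen W) (hne : W.Nonempty) (hc : ∀ j, ContDiffOn ℝ ∞ (c j) W) :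
    ∃ V, IsOpen V ∧ V.Nonempty ∧ V ⊆ W ∧ ∃ r : (Fin m → ℝ) → ℂ, ContDiffOn ℝ ∞ r V ∧
      ∀ s ∈ V, (r s) ^ n + ∑ j, c j s * (r s) ^ (j : ℕ) = 0 := by
  classical
  -- a root of minimal multiplicity
  have hex : ∃ k : ℕ, ∃ s ∈ W, ∃ z : ℂ, (PP c s).eval z = 0 ∧ (PP c s).rootMultiplicity z = k := by
    obtain ⟨s, hs⟩ := hne
    have hd : (PP c s).degree ≠ 0 := by
      rw [degree_eq_natDegree (pp_monic c s).ne_zero, pp_natDegree]
      have : n ≠ 0 := by omega
      exact_mod_cast this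
    obtain ⟨z, hz⟩ := IsAlgClosed.exists_root (PP c s) hd
    exact ⟨_, s, hs, z, hz, rfl⟩
  set μ := Nat.find hex with hμ
  obtain ⟨s0, hs0, z0, hz0, hm0⟩ := Nat.find_spec hex
  have hmin : ∀ s ∈ W, ∀ z, (PP c s).eval z = 0 → μ ≤ (PP c s).rootMultiplicity z := by
    intro s hs z hz
    exact Nat.find_min' hex ⟨s, hs, z, hz, rfl⟩
  have hμ1 : 1 ≤ μ := by
    rw [hμ, ← hm0]
    exact (rootMultiplicity_pos (pp_monic c s0).ne_zero).2 hz0
  obtain ⟨k, hk⟩ : ∃ k, μ = k + 1 := ⟨μ - 1, by omega⟩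
  set f := fun v : (Fin m → ℝ) × ℂ => (derivative^[k] (PP c v.1)).eval v.2 with hf
  set u0 : (Fin m → ℝ) × ℂ := (s0, z0) with hu0
  have hroot : ∀ s ∈ W, ∀ z, (PP c s).eval z = 0 → f (s, z) = 0 := by
    intro s hs z hz
    have h1 := hmin s hs z hz
    have h2 : k < (PP c s).rootMultiplicity z := by omega
    exact isRoot_iterate_derivative_of_lt_rootMultiplicity h2
  have hfu0 : f u0 = 0 := hroot s0 hs0 z0 hz0
  have hder0 : (derivative^[k + 1] (PP c u0.1)).eval u0.2 ≠ 0 := by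
    have h1 : (PP c s0).rootMultiplicity z0 = k + 1 := by rw [hm0, ← hμ, hk]
    have h2 := eval_iterate_derivative_rootMultiplicity (p := PP c s0) (t := z0)
    rw [h1] at h2
    show (derivative^[k + 1] (PP c s0)).eval z0 ≠ 0
    rw [h2, nsmul_eq_mul]
    refine mul_ne_zero (by exact_mod_cast Nat.factorial_ne_zero _) ?_
    rw [← h1]
    exact eval_divByMonic_pow_rootMultiplicity_ne_zero z0 (pp_monic c s0).ne_zero
  have hcd : ∀ u : (Fin m → ℝ) × ℂ, u.1 ∈ W → ContDiffAt ℝ ∞ f u := fun u hu =>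
    pp_smooth c hW hc k hu
  have hcd0 := hcd u0 hs0
  have hin0 := pp_inv c hW hc k (u := u0) hs0 hder0
  have hinf : (∞ : WithTop ℕ∞) ≠ 0 := by simp
  set r := hcd0.implicitFunction hinf hin0 with hr
  have hr0 : r u0.1 = u0.2 := hcd0.implicitFunction_apply_self hinf hin0
  have hrc : ContDiffAt ℝ ∞ r u0.1 := hcd0.contDiffAt_implicitFunction hinf hin0
  have hiff : ∀ᶠ v in 𝓝 u0, f v = f u0 ↔ r v.1 = v.2 :=
    hcd0.eventually_apply_eq_iff_implicitFunction hinf hin0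
  have hrcont : ∀ᶠ s in 𝓝 s0, ContinuousAt r s := by
    have h1 : ContDiffAt ℝ 1 r s0 := hrc.of_le (by simp)
    filter_upwards [h1.eventually (by simp)] with s hs
    exact hs.continuousAt
  have hgood : ∀ᶠ v in 𝓝 u0, v.1 ∈ W ∧ (derivative^[k + 1] (PP c v.1)).eval v.2 ≠ 0 ∧
      ∀ᶠ v' in 𝓝 v, (f v' = f u0 ↔ r v'.1 = v'.2) := by
    have h1 : ∀ᶠ v in 𝓝 u0, v.1 ∈ W :=
      (continuous_fst.tendsto u0).eventually (hW.mem_nhds hs0)
    have h2 : ∀ᶠ v in 𝓝 u0, (derivative^[k + 1] (PP c v.1)).eval v.2 ≠ 0 :=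
      (pp_smooth c hW hc (k + 1) (u := u0) hs0).continuousAt.eventually_ne hder0
    filter_upwards [h1, h2, hiff.eventually_nhds] with v a b d using ⟨a, b, d⟩
  have hpair : Tendsto (fun s => (s, r s)) (𝓝 s0) (𝓝 u0) := by
    have h1 : Tendsto r (𝓝 s0) (𝓝 z0) := by
      have := hrc.continuousAt.tendsto
      rwa [hr0] at this
    exact tendsto_id.prodMk_nhds h1
  have hev : ∀ᶠ s in 𝓝 s0, s ∈ W ∧ ContDiffAt ℝ ∞ r s ∧ (PP c s).eval (r s) = 0 := by
    -- smoothness at nearby points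
    have hA : ∀ᶠ s in 𝓝 s0, ContDiffAt ℝ ∞ r s := by
      filter_upwards [hpair.eventually hgood, hrcont, hpair.eventually hiff] with s h1 h2 h3
      obtain ⟨h1a, h1b, h1c⟩ := h1
      have hcd1 := hcd (s, r s) h1a
      have hin1 := pp_inv c hW hc k (u := (s, r s)) h1a h1b
      have hval : f (s, r s) = f u0 := h3.2 rfl
      have h4 : ∀ᶠ v in 𝓝 (s, r s), f v = f (s, r s) ↔
          hcd1.implicitFunction hinf hin1 v.1 = v.2 :=
        hcd1.eventually_apply_eq_iff_implicitFunction hinf hin1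
      have h5 : Tendsto (fun s' => (s', r s')) (𝓝 s) (𝓝 (s, r s)) :=
        tendsto_id.prodMk_nhds h2.tendsto
      have h6 : hcd1.implicitFunction hinf hin1 =ᶠ[𝓝 s] r := by
        filter_upwards [h5.eventually h4, h5.eventually h1c] with s' h7 h8
        exact h7.1 ((h8.2 rfl).trans hval.symm)
      exact (hcd1.contDiffAt_implicitFunction hinf hin1).congr_of_eventuallyEq h6.symm
    -- the root
    have hB : ∀ᶠ s in 𝓝 s0, (PP c s).eval (r s) = 0 := by
      rw [nhds_prod_eq] at hiff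
      obtain ⟨pa, ha, pb, hb, hab⟩ := eventually_prod_iff.1 hiff
      obtain ⟨δ, hδ, hδ'⟩ := Metric.eventually_nhds_iff.1 hb
      filter_upwards [ha, pp_root_near c hW hc hs0 hz0 hδ, hW.mem_nhds hs0] with s h1 h2 h3
      obtain ⟨z, hz1, hz2⟩ := h2
      have h4 := hab h1 (hδ' hz1)
      have h5 : f (s, z) = f u0 := by rw [hfu0]; exact hroot s h3 z hz2
      have h6 : r s = z := h4.1 h5
      rw [h6]
      exact hz2
    filter_upwards [hW.mem_nhds hs0, hA, hB] with s a b d using ⟨a, b, d⟩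
  obtain ⟨V, hV, hVo, hVs⟩ := eventually_nhds_iff.1 hev
  refine ⟨V, hVo, ⟨s0, hVs⟩, fun s hs => (hV s hs).1, r,
    fun s hs => (hV s hs).2.1.contDiffWithinAt, fun s hs => ?_⟩
  rw [← pp_eval]
  exact (hV s hs).2.2

private theorem denseOpen_finset {B : Set (Fin m → ℝ)} (hB : IsOpen B) {ι : Type*} (s : Finset ι)
    (Ω : ι → Set (Fin m → ℝ)) (h : ∀ i ∈ s, DenseOpenIn B (Ω i)) :
    ∃ O, DenseOpenIn B O ∧ ∀ i ∈ s, O ⊆ Ω i := by
  classical
  induction s using Finset.induction_on with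
  | empty => exact ⟨B, DenseOpenIn.self hB, by simp⟩
  | insert a s ha ih =>
    obtain ⟨O, hO, hsub⟩ := ih fun i hi => h i (Finset.mem_insert_of_mem hi)
    refine ⟨O ∩ Ω a, hO.inter (h a (Finset.mem_insert_self a s)), fun i hi => ?_⟩
    rcases Finset.mem_insert.1 hi with rfl | hi
    · exact inter_subset_right
    · exact inter_subset_left.trans (hsub i hi)

/-- Globalisation of a local root. -/
private theorem global_root {n : ℕ} (hn : 1 ≤ n) (c : Fin n → (Fin m → ℝ) → ℂ)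
    {B Ω : Set (Fin m → ℝ)} (hΩ : DenseOpenIn B Ω) (hc : ∀ j, ContDiffOn ℝ ∞ (c j) Ω) :
    ∃ O, DenseOpenIn B O ∧ ∃ r : (Fin m → ℝ) → ℂ, ContDiffOn ℝ ∞ r O ∧
      ∀ s ∈ O, (r s) ^ n + ∑ j, c j s * (r s) ^ (j : ℕ) = 0 := by
  classical
  set Pr : Set (Fin m → ℝ) → Prop := fun V => IsOpen V ∧ V.Nonempty ∧ V ⊆ Ω ∧
    ∃ r : (Fin m → ℝ) → ℂ, ContDiffOn ℝ ∞ r V ∧
      ∀ s ∈ V, (r s) ^ n + ∑ j, c j s * (r s) ^ (j : ℕ) = 0 with hPr
  set S : Set (Set (Set (Fin m → ℝ))) := {𝒱 | (∀ V ∈ 𝒱, Pr V) ∧ 𝒱.PairwiseDisjoint id} with hS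
  obtain ⟨𝒱, h𝒱⟩ : ∃ 𝒱, Maximal (· ∈ S) 𝒱 := by
    refine zorn_subset S fun C hC hchain => ⟨⋃₀ C, ⟨?_, ?_⟩, fun s hs => subset_sUnion_of_mem hs⟩
    · rintro V ⟨𝒲, h𝒲, hV⟩
      exact (hC h𝒲).1 V hV
    · rintro V ⟨𝒲, h𝒲, hV⟩ V' ⟨𝒲', h𝒲', hV'⟩ hne
      rcases hchain.total h𝒲 h𝒲' with hle | hle
      · exact (hC h𝒲').2 (hle hV) hV' hne
      · exact (hC h𝒲).2 hV (hle hV') hne
  obtain ⟨h1, h2⟩ := h𝒱.prop
  choose! R hR using fun V hV => (h1 V hV).2.2.2
  have hopen : IsOpen (⋃₀ 𝒱) := isOpen_sUnion fun V hV => (h1 V hV).1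
  have hsub : ⋃₀ 𝒱 ⊆ Ω := sUnion_subset fun V hV => (h1 V hV).2.2.1
  refine ⟨⋃₀ 𝒱, ⟨hopen, hsub.trans hΩ.2.1, ?_⟩, ?_⟩
  · intro x hx
    rw [mem_closure_iff]
    intro o ho hxo
    have hne : (o ∩ Ω).Nonempty := mem_closure_iff.1 (hΩ.2.2 hx) o ho hxo
    by_contra hcon
    rw [not_nonempty_iff_eq_empty] at hcon
    obtain ⟨V, hVo, hVn, hVs, r, hr1, hr2⟩ := local_root hn c (o ∩ Ω) (ho.inter hΩ.1) hne
      (fun j => (hc j).mono inter_subset_right)
    have hdis : Disjoint V (⋃₀ 𝒱) := by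
      rw [Set.disjoint_left]
      intro y hy hy'
      have : y ∈ o ∩ ⋃₀ 𝒱 := ⟨(hVs hy).1, hy'⟩
      rw [hcon] at this
      exact this
    have hins : insert V 𝒱 ∈ S := by
      refine ⟨?_, ?_⟩
      · intro V' hV'
        rcases mem_insert_iff.1 hV' with rfl | hV'
        · exact ⟨hVo, hVn, hVs.trans inter_subset_right, r, hr1, hr2⟩
        · exact h1 V' hV'
      · refine h2.insert fun V' hV' _ => ?_
        exact hdis.mono_right (subset_sUnion_of_mem hV')
    have hmem : V ∈ 𝒱 := h𝒱.le_of_ge hins (subset_insert V 𝒱) (mem_insert V 𝒱)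
    obtain ⟨y, hy⟩ := hVn
    exact Set.disjoint_left.1 hdis hy ⟨V, hmem, hy⟩
  · set r : (Fin m → ℝ) → ℂ := fun s =>
      if h : ∃ V ∈ 𝒱, s ∈ V then R h.choose s else 0 with hrdef
    have hre : ∀ V ∈ 𝒱, ∀ s ∈ V, r s = R V s := by
      intro V hV s hs
      have h : ∃ V ∈ 𝒱, s ∈ V := ⟨V, hV, hs⟩
      have h3 : h.choose = V := by
        by_contra hneq
        have h4 := h2 h.choose_spec.1 hV hneq
        exact Set.disjoint_left.1 h4 h.choose_spec.2 hs
      simp only [hrdef]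
      rw [dif_pos h, h3]
    refine ⟨r, ?_, ?_⟩
    · rintro s ⟨V, hV, hs⟩
      have h3 : ContDiffAt ℝ ∞ (R V) s := (hR V hV).1.contDiffAt ((h1 V hV).1.mem_nhds hs)
      refine (h3.congr_of_eventuallyEq ?_).contDiffWithinAt
      filter_upwards [(h1 V hV).1.mem_nhds hs] with s' hs' using hre V hV s' hs'
    · rintro s ⟨V, hV, hs⟩
      rw [hre V hV s hs]
      exact (hR V hV).2 s hs

instance isAlgClosed_F (G : GenData m) : IsAlgClosed G.F := by
  refine IsAlgClosed.of_exists_root _ fun p hp hirr => ?_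
  set n := p.natDegree with hn
  have hn1 : 1 ≤ n := hirr.natDegree_pos
  choose c hc using fun j : Fin n => cl_surjective G (p.coeff j)
  choose Ω hΩ hsm using fun j : Fin n => (c j).2
  obtain ⟨O, hO, hOs⟩ := denseOpen_finset G.isOpen Finset.univ Ω fun j _ => hΩ j
  obtain ⟨O', hO', r, hr1, hr2⟩ := global_root hn1 (fun j => (c j : (Fin m → ℝ) → ℂ)) hO
    (fun j => (hsm j).mono (hOs j (Finset.mem_univ j)))
  set x : SR G := ⟨r, O', hO', hr1⟩ with hx
  refine ⟨G.cl x, ?_⟩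
  have h1 : p.eval (G.cl x) = G.cl (x ^ n + ∑ j, c j * x ^ (j : ℕ)) := by
    conv_lhs => rw [hp.as_sum]
    rw [eval_add, eval_pow, eval_X, eval_finsetSum, map_add, map_pow, map_sum, ← hn,
      ← Fin.sum_univ_eq_sum_range (fun i => eval (G.cl x) (C (p.coeff i) * X ^ i)) n]
    congr 1
    refine Finset.sum_congr rfl fun j _ => ?_
    rw [eval_mul, eval_C, eval_pow, eval_X, map_mul, map_pow, hc j]
  rw [h1, cl_eq_zero_iff]
  refine ⟨O', GenData.big_of_denseOpen hO', fun s hs => ?_⟩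
  have h2 : ((x ^ n + ∑ j, c j * x ^ (j : ℕ) : SR G) : (Fin m → ℝ) → ℂ) s =
      evS G s (x ^ n + ∑ j, c j * x ^ (j : ℕ)) := rfl
  rw [h2, map_add, map_pow, map_sum]
  simp only [map_mul, map_pow, evS_apply]
  exact hr2 s hs

end H37.LM
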