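import Pool.Agent.H37.LM.GenField

/-!
# Transfer of polynomial identities   [H37 LM GenF]

All statements follow from `cl_eq_zero_iff`, `cl_ne_zero_iff`, `smooth_big` applied to the finitely
many coefficients, and `GenData.big_biInter`.  (`G.cl` is surjective, so every polynomial over
`G.F` lifts: `Polynomial.map_surjective`.)
-/

noncomputable section

open Set Filter Topology Polynomial
open scoped ContDiff

namespace H37.LM

variable {m : ℕ}

theorem transfer_poly (G : GenData m) (P : (SR G)[X]) (h : P.map G.cl = 0) :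
    ∃ V, G.Big V ∧ ∀ s ∈ V, P.map (evS G s) = 0 := by
  have h1 : ∀ j, ∃ V, G.Big V ∧ ∀ s ∈ V, ((P.coeff j : SR G) : (Fin m → ℝ) → ℂ) s = 0 := by
    intro j
    rw [← cl_eq_zero_iff]
    have := congrArg (fun Q : G.F[X] => Q.coeff j) h
    simpa using this
  choose V hV hV0 using h1
  obtain ⟨W, hW, hsub⟩ := GenData.big_biInter P.support V (fun j _ => hV j)
  refine ⟨W, hW, fun s hs => ?_⟩
  ext j
  rw [coeff_map, coeff_zero, evS_apply]
  by_cases hj : j ∈ P.support
  · exact hV0 j s (hsub j hj hs)
  · rw [notMem_support_iff.1 hj]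
    rfl

theorem transfer_poly₂ (G : GenData m) (P : (SR G)[X][X]) (h : P.map (mapRingHom G.cl) = 0) :
    ∃ V, G.Big V ∧ ∀ s ∈ V, P.map (mapRingHom (evS G s)) = 0 := by
  have h1 : ∀ j, ∃ V, G.Big V ∧ ∀ s ∈ V, (P.coeff j).map (evS G s) = 0 := by
    intro j
    refine transfer_poly G (P.coeff j) ?_
    have := congrArg (fun Q : G.F[X][X] => Q.coeff j) h
    simpa using this
  choose V hV hV0 using h1
  obtain ⟨W, hW, hsub⟩ := GenData.big_biInter P.support V (fun j _ => hV j)
  refine ⟨W, hW, fun s hs => ?_⟩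
  refine Polynomial.ext fun j => ?_
  rw [coeff_map, coeff_zero, coe_mapRingHom]
  by_cases hj : j ∈ P.support
  · exact hV0 j s (hsub j hj hs)
  · rw [notMem_support_iff.1 hj, Polynomial.map_zero]

theorem lift_poly₂ (G : GenData m) (P : G.F[X][X]) :
    ∃ P' : (SR G)[X][X], P'.map (mapRingHom G.cl) = P := by
  have h1 : Function.Surjective (mapRingHom G.cl) := by
    rw [coe_mapRingHom]
    exact Polynomial.map_surjective G.cl (cl_surjective G)
  exact Polynomial.map_surjective (mapRingHom G.cl) h1 P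

theorem smoothPoly_big (G : GenData m) (P : (SR G)[X][X]) :
    ∃ V, G.Big V ∧ SmoothPoly V (fun s => P.map (mapRingHom (evS G s))) := by
  have hco : ∀ (s : Fin m → ℝ) (i j : ℕ),
      ((P.map (mapRingHom (evS G s))).coeff j).coeff i =
        (((P.coeff j).coeff i : SR G) : (Fin m → ℝ) → ℂ) s := by
    intro s i j
    rw [coeff_map, coe_mapRingHom, coeff_map, evS_apply]
  set M := P.support.sup (fun j => (P.coeff j).natDegree) with hM
  have hz : ∀ i j, P.natDegree + M < i + j → (P.coeff j).coeff i = 0 := by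
    intro i j hij
    by_cases hj : j ∈ P.support
    · have h1 : j ≤ P.natDegree := le_natDegree_of_mem_supp j hj
      have h2 : (P.coeff j).natDegree ≤ M :=
        Finset.le_sup (f := fun j => (P.coeff j).natDegree) hj
      exact coeff_eq_zero_of_natDegree_lt (by omega)
    · rw [notMem_support_iff.1 hj, coeff_zero]
  have h1 : ∀ q : ℕ × ℕ, ∃ V, G.Big V ∧
      ContDiffOn ℝ ∞ (((P.coeff q.2).coeff q.1 : SR G) : (Fin m → ℝ) → ℂ) V := by
    intro q
    obtain ⟨Ω, hΩ, hf⟩ := ((P.coeff q.2).coeff q.1).2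
    exact ⟨Ω, GenData.big_of_denseOpen hΩ, hf⟩
  choose V hV hVc using h1
  obtain ⟨W, hW, hsub⟩ := GenData.big_biInter
    (Finset.range (P.natDegree + M + 1) ×ˢ Finset.range (P.natDegree + M + 1)) V
    (fun q _ => hV q)
  refine ⟨W, hW, ⟨P.natDegree + M, fun s _ i j hij => ?_⟩, fun i j => ?_⟩
  · rw [hco, hz i j hij]
    rfl
  · simp only [hco]
    by_cases hij : i + j ≤ P.natDegree + M
    · have hq : (i, j) ∈ Finset.range (P.natDegree + M + 1) ×ˢ
          Finset.range (P.natDegree + M + 1) := by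
        simp only [Finset.mem_product, Finset.mem_range]
        omega
      exact (hVc (i, j)).mono (hsub (i, j) hq)
    · rw [hz i j (by omega)]
      exact contDiffOn_const (c := (0 : ℂ))

end H37.LM
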