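import Pool.Agent.H37.LM.GenMax

/-!
# The field of generic germs
-/

noncomputable section

open Set Filter Topology Polynomial
open scoped ContDiff

namespace H37.LM

variable {m : ℕ}

instance (G : GenData m) : G.nul.IsMaximal := nul_isMaximal G

/-- The field of generic germs. -/
def GenData.F (G : GenData m) : Type := SR G ⧸ G.nul

instance instFieldF (G : GenData m) : Field G.F := Ideal.Quotient.field G.nul

/-- The class of a function. -/
def GenData.cl (G : GenData m) : SR G →+* G.F := Ideal.Quotient.mk G.nul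

theorem cl_surjective (G : GenData m) : Function.Surjective G.cl :=
  Ideal.Quotient.mk_surjective

theorem cl_eq_zero_iff' (G : GenData m) (f : SR G) : G.cl f = 0 ↔ f ∈ G.nul :=
  Ideal.Quotient.eq_zero_iff_mem

theorem cl_eq_zero_iff (G : GenData m) (f : SR G) :
    G.cl f = 0 ↔ ∃ V, G.Big V ∧ ∀ s ∈ V, (f : (Fin m → ℝ) → ℂ) s = 0 := by
  rw [cl_eq_zero_iff', mem_nul_iff]

theorem cl_ne_zero_iff (G : GenData m) (f : SR G) :
    G.cl f ≠ 0 ↔ ∃ V, G.Big V ∧ ∀ s ∈ V, (f : (Fin m → ℝ) → ℂ) s ≠ 0 := by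
  rw [Ne, cl_eq_zero_iff', not_mem_nul_iff]

theorem cl_eq_iff (G : GenData m) (f g : SR G) :
    G.cl f = G.cl g ↔ ∃ V, G.Big V ∧ ∀ s ∈ V, (f : (Fin m → ℝ) → ℂ) s = (g : _ → ℂ) s := by
  rw [← sub_eq_zero, ← map_sub, cl_eq_zero_iff]
  refine exists_congr fun V => and_congr_right fun _ => forall₂_congr fun s _ => ?_
  exact sub_eq_zero

instance (G : GenData m) : CharZero G.F := by
  refine charZero_of_inj_zero fun n hn => ?_
  have h1 : G.cl (n : SR G) = 0 := by rw [map_natCast, hn]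
  obtain ⟨V, hV, h⟩ := (cl_eq_zero_iff G _).1 h1
  obtain ⟨s, hs⟩ := hV.nonempty
  have h2 : evS G s (n : SR G) = 0 := h s hs
  rw [map_natCast] at h2
  exact_mod_cast h2

end H37.LM
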