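import Pool.Agent.H37.LM.GenF
import Pool.Agent.H37.LM.Alg0

/-!
# Goodness passes to the field of generic germs   [H37 LM GenGood]

Every statement about finitely many elements of `G.F` which holds in `G.F` holds at all points of
some nonempty open `V ⊆ G.B` (`GenData.Big`).
* `high`, `low`: the elements vanish on `G.B`.  `inf`: `a 0 e` vanishes nowhere on `G.B`
  (`cl_ne_zero_iff`).
* `g1`: if `p = G.cl p'` is a double root of `formP 6 (cl ∘ a)`, then `p' s` is a double root of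
  `formP 6 (a s)` on a Big set: contradiction at any of its points.
* `g2`: same, with `p, c1, c2`; the divisibility by `X ^ 12` of a polynomial over `G.F` is the vanishing of
  its coefficients of index `< 12`, which are polynomial expressions in `p, c1, c2, a i j`.
  (Conveniently: define the same polynomials over the ring `SR G`, and map them with `G.cl` and with
  `evS G s`; then use `transfer_poly`.)
* `g3`: lift `P, Q1, Q2` (`lift_poly₂`); the identities and `P.evalEval 0 0 = 0` hold on a Big set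
  (`transfer_poly₂`), and `P s ≠ 0` on a Big set because some coefficient of `P` is nonzero.
-/

noncomputable section

open Set Filter Topology Polynomial
open scoped ContDiff

namespace H37.LM

variable {m : ℕ}

section ringversions

variable {R : Type*} [CommRing R] {F : Type*} [Field F] (φ : R →+* F)

/-- `formP` over a ring -/
def ggForm (n : ℕ) (a : ℕ → ℕ → R) : R[X] :=
  ∑ j ∈ Finset.range (n + 1), monomial j (a (n - j) j)

/-- `hP` over a ring -/
def ggH (K : ℕ) (a : ℕ → ℕ → R) : R[X][X] :=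
  ∑ i ∈ Finset.range (K + 1), ∑ j ∈ Finset.range (K + 1),
    monomial j (monomial i (a i j))

/-- `hxP` over a ring -/
def ggHx (K : ℕ) (a : ℕ → ℕ → R) : R[X][X] :=
  ∑ i ∈ Finset.range (K + 1), ∑ j ∈ Finset.range (K + 1),
    monomial j (monomial (i - 1) ((i : R) * a i j))

/-- `hyP` over a ring -/
def ggHy (K : ℕ) (a : ℕ → ℕ → R) : R[X][X] :=
  ∑ i ∈ Finset.range (K + 1), ∑ j ∈ Finset.range (K + 1),
    monomial (j - 1) (monomial i ((j : R) * a i j))

/-- `hyyP` over a ring -/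
def ggHyy (K : ℕ) (a : ℕ → ℕ → R) : R[X][X] :=
  ∑ i ∈ Finset.range (K + 1), ∑ j ∈ Finset.range (K + 1),
    monomial (j - 2) (monomial i ((j : R) * ((j : R) - 1) * a i j))

theorem ggForm_map (n : ℕ) (a : ℕ → ℕ → R) :
    (ggForm n a).map φ = formP n (fun i j => φ (a i j)) := by
  unfold ggForm formP
  simp only [Polynomial.map_sum, map_monomial]

theorem ggH_map (K : ℕ) (a : ℕ → ℕ → R) :
    (ggH K a).map (mapRingHom φ) = hP K (fun i j => φ (a i j)) := by
  unfold ggH hP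
  simp only [Polynomial.map_sum, map_monomial, coe_mapRingHom]

theorem ggHx_map (K : ℕ) (a : ℕ → ℕ → R) :
    (ggHx K a).map (mapRingHom φ) = hxP K (fun i j => φ (a i j)) := by
  unfold ggHx hxP
  simp only [Polynomial.map_sum, map_monomial, coe_mapRingHom, map_mul, map_natCast]

theorem ggHy_map (K : ℕ) (a : ℕ → ℕ → R) :
    (ggHy K a).map (mapRingHom φ) = hyP K (fun i j => φ (a i j)) := by
  unfold ggHy hyP
  simp only [Polynomial.map_sum, map_monomial, coe_mapRingHom, map_mul, map_natCast]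

theorem ggHyy_map (K : ℕ) (a : ℕ → ℕ → R) :
    (ggHyy K a).map (mapRingHom φ) = hyyP K (fun i j => φ (a i j)) := by
  unfold ggHyy hyyP
  simp only [Polynomial.map_sum, map_monomial, coe_mapRingHom, map_mul, map_natCast, map_sub,
    map_one]

theorem gg_eval (T : R[X]) (p : R) : (T.map φ).eval (φ p) = φ (T.eval p) := by
  rw [eval_map, eval₂_at_apply]

theorem gg_eval₂ (T : R[X][X]) (p c1 c2 : R) :
    (T.eval (C p * X + C c1 * X ^ 2 + C c2 * X ^ 3)).map φ =
      (T.map (mapRingHom φ)).eval (C (φ p) * X + C (φ c1) * X ^ 2 + C (φ c2) * X ^ 3) := by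
  have h1 : (mapRingHom φ) (C p * X + C c1 * X ^ 2 + C c2 * X ^ 3) =
      C (φ p) * X + C (φ c1) * X ^ 2 + C (φ c2) * X ^ 3 := by
    simp
  rw [← h1, eval_map, eval₂_at_apply, coe_mapRingHom]

theorem gg_evalEval (T : R[X][X]) : T.evalEval 0 0 = (T.coeff 0).coeff 0 := by
  unfold evalEval
  rw [C_0, ← coeff_zero_eq_eval_zero, ← coeff_zero_eq_eval_zero]

end ringversions

theorem gg_big (G : GenData m) : G.Big G.B :=
  GenData.big_of_denseOpen (DenseOpenIn.self G.isOpen)

theorem gg_dvd (G : GenData m) (T : (SR G)[X]) (N : ℕ) (h : X ^ N ∣ T.map G.cl) :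
    ∃ V, G.Big V ∧ ∀ s ∈ V, X ^ N ∣ T.map (evS G s) := by
  rw [X_pow_dvd_iff] at h
  have h1 : ∀ d : ℕ, ∃ V, G.Big V ∧ (d < N → ∀ s ∈ V, evS G s (T.coeff d) = 0) := by
    intro d
    by_cases hd : d < N
    · have h2 := h d hd
      rw [coeff_map, cl_eq_zero_iff] at h2
      obtain ⟨V, hV, h3⟩ := h2
      exact ⟨V, hV, fun _ s hs => h3 s hs⟩
    · exact ⟨G.B, gg_big G, fun h => absurd h hd⟩
  choose V hV hV0 using h1
  obtain ⟨W, hW, hsub⟩ := GenData.big_biInter (Finset.range N) V (fun d _ => hV d)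
  refine ⟨W, hW, fun s hs => ?_⟩
  rw [X_pow_dvd_iff]
  intro d hd
  rw [coeff_map]
  exact hV0 d hd s (hsub d (Finset.mem_range.2 hd) hs)

theorem gen_good (G : GenData m) (K e : ℕ) (a : ℕ → ℕ → SR G)
    (h : ∀ s ∈ G.B, Good K e (fun i j => (a i j : (Fin m → ℝ) → ℂ) s)) :
    Good K e (fun i j => G.cl (a i j)) := by
  have h' : ∀ s ∈ G.B, Good K e (fun i j => evS G s (a i j)) := h
  obtain ⟨s₀, hs₀⟩ := (gg_big G).nonempty
  refine ⟨?_, ?_, (h s₀ hs₀).one_le, (h s₀ hs₀).le_six, ?_, ?_, ?_, ?_⟩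
  · intro i j hij
    rw [cl_eq_zero_iff]
    exact ⟨G.B, gg_big G, fun s hs => (h s hs).high i j hij⟩
  · intro i j hij
    rw [cl_eq_zero_iff]
    exact ⟨G.B, gg_big G, fun s hs => (h s hs).low i j hij⟩
  · rw [cl_ne_zero_iff]
    exact ⟨G.B, gg_big G, fun s hs => (h s hs).inf⟩
  · rintro p ⟨h1, h2⟩
    obtain ⟨p', rfl⟩ := cl_surjective G p
    rw [← ggForm_map, gg_eval, cl_eq_zero_iff] at h1
    rw [← ggForm_map, derivative_map, gg_eval, cl_eq_zero_iff] at h2
    obtain ⟨V1, hV1, h1⟩ := h1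
    obtain ⟨V2, hV2, h2⟩ := h2
    obtain ⟨s, hs1, hs2⟩ := (hV1.inter hV2).nonempty
    apply (h' s (hV1.2.1 hs1)).g1 (evS G s p')
    rw [← ggForm_map, gg_eval, derivative_map, gg_eval]
    exact ⟨h1 s hs1, h2 s hs2⟩
  · rintro p c1 c2 h0 ⟨h1, h2, h3⟩
    obtain ⟨p', rfl⟩ := cl_surjective G p
    obtain ⟨c1', rfl⟩ := cl_surjective G c1
    obtain ⟨c2', rfl⟩ := cl_surjective G c2
    rw [← ggForm_map, gg_eval, cl_eq_zero_iff] at h0
    rw [← ggH_map, ← gg_eval₂] at h1
    rw [← ggHy_map, ← gg_eval₂] at h2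
    rw [← ggHyy_map, ← gg_eval₂] at h3
    obtain ⟨V0, hV0, h0⟩ := h0
    obtain ⟨V1, hV1, h1⟩ := gg_dvd G _ _ h1
    obtain ⟨V2, hV2, h2⟩ := gg_dvd G _ _ h2
    obtain ⟨V3, hV3, h3⟩ := gg_dvd G _ _ h3
    obtain ⟨s, ⟨hs0, hs1⟩, hs2, hs3⟩ := ((hV0.inter hV1).inter (hV2.inter hV3)).nonempty
    apply (h' s (hV0.2.1 hs0)).g2 (evS G s p') (evS G s c1') (evS G s c2')
    · rw [← ggForm_map, gg_eval]
      exact h0 s hs0
    · rw [← ggH_map, ← gg_eval₂, ← ggHy_map, ← gg_eval₂, ← ggHyy_map, ← gg_eval₂]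
      exact ⟨h1 s hs1, h2 s hs2, h3 s hs3⟩
  · intro P Q1 Q2 h1 h2 hP h0
    obtain ⟨P', rfl⟩ := lift_poly₂ G P
    obtain ⟨Q1', rfl⟩ := lift_poly₂ G Q1
    obtain ⟨Q2', rfl⟩ := lift_poly₂ G Q2
    have h1' : (ggHx K a - P' * Q1').map (mapRingHom G.cl) = 0 := by
      rw [Polynomial.map_sub, ggHx_map, h1, Polynomial.map_mul, sub_self]
    have h2' : (ggHy K a - P' * Q2').map (mapRingHom G.cl) = 0 := by
      rw [Polynomial.map_sub, ggHy_map, h2, Polynomial.map_mul, sub_self]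
    obtain ⟨V1, hV1, h1''⟩ := transfer_poly₂ G _ h1'
    obtain ⟨V2, hV2, h2''⟩ := transfer_poly₂ G _ h2'
    obtain ⟨i, j, hij⟩ : ∃ i j, G.cl ((P'.coeff j).coeff i) ≠ 0 := by
      by_contra hcon
      push Not at hcon
      apply hP
      ext j i
      rw [coeff_map, coe_mapRingHom, coeff_map, hcon i j, coeff_zero, coeff_zero]
    rw [cl_ne_zero_iff] at hij
    obtain ⟨V3, hV3, h3⟩ := hij
    rw [gg_evalEval, coeff_map, coe_mapRingHom, coeff_map, cl_eq_zero_iff] at h0
    obtain ⟨V4, hV4, h4⟩ := h0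
    obtain ⟨s, ⟨hs1, hs2⟩, hs3, hs4⟩ := ((hV1.inter hV2).inter (hV3.inter hV4)).nonempty
    apply (h' s (hV1.2.1 hs1)).g3 (P'.map (mapRingHom (evS G s))) (Q1'.map (mapRingHom (evS G s)))
      (Q2'.map (mapRingHom (evS G s)))
    · have h5 := h1'' s hs1
      rw [Polynomial.map_sub, ggHx_map, Polynomial.map_mul, sub_eq_zero] at h5
      exact h5
    · have h5 := h2'' s hs2
      rw [Polynomial.map_sub, ggHy_map, Polynomial.map_mul, sub_eq_zero] at h5
      exact h5
    · intro h5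
      apply h3 s hs3
      have h6 := congrArg (fun Q : ℂ[X][X] => (Q.coeff j).coeff i) h5
      simp only [coeff_map, coe_mapRingHom, coeff_zero] at h6
      exact h6
    · rw [gg_evalEval, coeff_map, coe_mapRingHom, coeff_map]
      exact h4 s hs4

end H37.LM
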