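import Pool.Agent.H37.LM.Gen

/-!
# Existence of generic ultrafilters, the basic dichotomy, maximality   [H37 LM GenMax]

`exists_genData`.  The sets containing a dense open subset of `B` form a filter (use
`DenseOpenIn.inter`, `DenseOpenIn.self`), which is proper because `B` is nonempty (a dense open
subset of a nonempty set is nonempty).  Take an ultrafilter below it (`Ultrafilter.of`).

`dichotomy`.  Let `f` be smooth on the dense open set `Ω`.  `V1 = {s ∈ Ω | f s ≠ 0}` is open and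
`V0 = interior {s ∈ Ω | f s = 0}` is open; `V0 ∪ V1` is dense in `Ω`: a point of `Ω` outside of the
closure of `V1` has a neighbourhood in `Ω` where `f = 0`.  So `V0 ∪ V1` is dense open in `B` and
belongs to `U`; hence `V0 ∈ U` or `V1 ∈ U`.

`exists_inv`.  With the same notation, if `f ∉ G.nul` then `V0 ∉ U`, so `V1 ∈ U`; `g = 1 / f` on
`V1` and `g = 0` elsewhere is smooth on the dense open set `V0 ∪ V1`, and `f * g = 1` on `V1`.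
-/

noncomputable section

open Set Filter Topology Polynomial
open scoped ContDiff

namespace H37.LM

variable {m : ℕ}

theorem exists_genData (B : Set (Fin m → ℝ)) (hB : IsOpen B) (hne : B.Nonempty) :
    ∃ G : GenData m, G.B = B := by
  let F : Filter (Fin m → ℝ) :=
    { sets := {S | ∃ Ω, DenseOpenIn B Ω ∧ Ω ⊆ S}
      univ_sets := ⟨B, DenseOpenIn.self hB, subset_univ _⟩
      sets_of_superset := by
        rintro S T ⟨Ω, h1, h2⟩ hST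
        exact ⟨Ω, h1, h2.trans hST⟩
      inter_sets := by
        rintro S T ⟨Ω, h1, h2⟩ ⟨Ω', h1', h2'⟩
        exact ⟨Ω ∩ Ω', h1.inter h1', inter_subset_inter h2 h2'⟩ }
  have hF : F.NeBot := by
    refine ⟨fun h => ?_⟩
    have h0 : (∅ : Set (Fin m → ℝ)) ∈ F := by
      rw [h]
      exact Filter.mem_bot
    obtain ⟨Ω, h1, h2⟩ := h0
    have h3 : Ω = ∅ := subset_empty_iff.1 h2
    obtain ⟨x, hx⟩ := hne
    have h4 := h1.2.2 hx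
    rw [h3, closure_empty] at h4
    exact h4
  refine ⟨⟨B, hB, Ultrafilter.of F, fun Ω hΩ => ?_⟩, rfl⟩
  have h1 : Ω ∈ F := ⟨Ω, hΩ, le_rfl⟩
  exact Ultrafilter.of_le F h1

theorem smooth_big (G : GenData m) (f : SR G) :
    ∃ V, G.Big V ∧ ContDiffOn ℝ ∞ (f : (Fin m → ℝ) → ℂ) V := by
  obtain ⟨Ω, hΩ, hf⟩ := f.2
  exact ⟨Ω, GenData.big_of_denseOpen hΩ, hf⟩

theorem genMax_split (G : GenData m) (f : SR G) :
    ∃ V0 V1 : Set (Fin m → ℝ), IsOpen V0 ∧ IsOpen V1 ∧ V0 ⊆ G.B ∧ V1 ⊆ G.B ∧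
      ContDiffOn ℝ ∞ (f : (Fin m → ℝ) → ℂ) V0 ∧ ContDiffOn ℝ ∞ (f : (Fin m → ℝ) → ℂ) V1 ∧
      (∀ s ∈ V0, (f : (Fin m → ℝ) → ℂ) s = 0) ∧ (∀ s ∈ V1, (f : (Fin m → ℝ) → ℂ) s ≠ 0) ∧
      DenseOpenIn G.B (V0 ∪ V1) := by
  obtain ⟨Ω, hΩ, hf⟩ := f.2
  have hV1o : IsOpen (Ω ∩ (f : (Fin m → ℝ) → ℂ) ⁻¹' ({0}ᶜ : Set ℂ)) :=
    hf.continuousOn.isOpen_inter_preimage hΩ.1 isOpen_compl_singleton
  have hV0s : interior (Ω ∩ {s | (f : (Fin m → ℝ) → ℂ) s = 0}) ⊆ Ω :=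
    interior_subset.trans inter_subset_left
  refine ⟨interior (Ω ∩ {s | (f : (Fin m → ℝ) → ℂ) s = 0}),
    Ω ∩ (f : (Fin m → ℝ) → ℂ) ⁻¹' ({0}ᶜ : Set ℂ), isOpen_interior, hV1o, hV0s.trans hΩ.2.1,
    inter_subset_left.trans hΩ.2.1, hf.mono hV0s, hf.mono inter_subset_left,
    fun s hs => (interior_subset hs).2, fun s hs => hs.2, isOpen_interior.union hV1o,
    union_subset (hV0s.trans hΩ.2.1) (inter_subset_left.trans hΩ.2.1), ?_⟩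
  intro x hx
  rw [mem_closure_iff]
  intro o ho hxo
  obtain ⟨y, hyo, hy⟩ := mem_closure_iff.1 (hΩ.2.2 hx) o ho hxo
  by_cases hc : ∃ z ∈ o ∩ Ω, (f : (Fin m → ℝ) → ℂ) z ≠ 0
  · obtain ⟨z, hz, hz0⟩ := hc
    exact ⟨z, hz.1, Or.inr ⟨hz.2, hz0⟩⟩
  · push Not at hc
    refine ⟨y, hyo, Or.inl ?_⟩
    rw [mem_interior]
    exact ⟨o ∩ Ω, fun z hz => ⟨hz.2, hc z hz⟩, ho.inter hΩ.1, hyo, hy⟩

theorem dichotomy (G : GenData m) (f : SR G) :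
    (∃ V, G.Big V ∧ ContDiffOn ℝ ∞ (f : (Fin m → ℝ) → ℂ) V ∧
      ∀ s ∈ V, (f : (Fin m → ℝ) → ℂ) s = 0) ∨
    (∃ V, G.Big V ∧ ContDiffOn ℝ ∞ (f : (Fin m → ℝ) → ℂ) V ∧
      ∀ s ∈ V, (f : (Fin m → ℝ) → ℂ) s ≠ 0) := by
  obtain ⟨V0, V1, o0, o1, b0, b1, c0, c1, z0, z1, hd⟩ := genMax_split G f
  rcases Ultrafilter.union_mem_iff.1 (G.mem _ hd) with h | h
  · exact Or.inl ⟨V0, ⟨o0, b0, h⟩, c0, z0⟩
  · exact Or.inr ⟨V1, ⟨o1, b1, h⟩, c1, z1⟩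

theorem genMax_absurd (G : GenData m) (f : SR G) (hf : f ∈ G.nul) {V : Set (Fin m → ℝ)}
    (hV : G.Big V) (h : ∀ s ∈ V, (f : (Fin m → ℝ) → ℂ) s ≠ 0) : False := by
  have h1 : ∀ᶠ s in (G.U : Filter (Fin m → ℝ)), (f : (Fin m → ℝ) → ℂ) s = 0 := hf
  have h2 : ∀ᶠ s in (G.U : Filter (Fin m → ℝ)), s ∈ V := hV.2.2
  obtain ⟨s, hs1, hs2⟩ := (h1.and h2).exists
  exact h s hs2 hs1

theorem mem_nul_iff (G : GenData m) (f : SR G) :
    f ∈ G.nul ↔ ∃ V, G.Big V ∧ ∀ s ∈ V, (f : (Fin m → ℝ) → ℂ) s = 0 := by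
  constructor
  · intro hf
    rcases dichotomy G f with ⟨V, hV, _, h⟩ | ⟨V, hV, _, h⟩
    · exact ⟨V, hV, h⟩
    · exact (genMax_absurd G f hf hV h).elim
  · rintro ⟨V, hV, h⟩
    show ∀ᶠ s in (G.U : Filter (Fin m → ℝ)), (f : (Fin m → ℝ) → ℂ) s = 0
    filter_upwards [hV.2.2] with s hs
    exact h s hs

theorem not_mem_nul_iff (G : GenData m) (f : SR G) :
    f ∉ G.nul ↔ ∃ V, G.Big V ∧ ∀ s ∈ V, (f : (Fin m → ℝ) → ℂ) s ≠ 0 := by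
  constructor
  · intro hf
    rcases dichotomy G f with ⟨V, hV, _, h⟩ | ⟨V, hV, _, h⟩
    · exact absurd ((mem_nul_iff G f).2 ⟨V, hV, h⟩) hf
    · exact ⟨V, hV, h⟩
  · rintro ⟨V, hV, h⟩ hf
    exact genMax_absurd G f hf hV h

theorem exists_inv (G : GenData m) (f : SR G) (hf : f ∉ G.nul) : ∃ g : SR G,
    f * g - 1 ∈ G.nul := by
  obtain ⟨V0, V1, o0, o1, b0, b1, c0, c1, z0, z1, hd⟩ := genMax_split G f
  have hsm : ContDiffOn ℝ ∞ (fun s => ((f : (Fin m → ℝ) → ℂ) s)⁻¹) (V0 ∪ V1) := by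
    intro s hs
    rcases hs with hs | hs
    · have h1 : ContDiffAt ℝ ∞ (fun s => ((f : (Fin m → ℝ) → ℂ) s)⁻¹) s := by
        refine contDiffAt_const (c := (0 : ℂ)) |>.congr_of_eventuallyEq ?_
        filter_upwards [o0.mem_nhds hs] with z hz
        rw [z0 z hz, inv_zero]
      exact h1.contDiffWithinAt
    · have h1 : ContDiffAt ℝ ∞ (fun s => ((f : (Fin m → ℝ) → ℂ) s)⁻¹) s :=
        (c1.contDiffAt (o1.mem_nhds hs)).inv (z1 s hs)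
      exact h1.contDiffWithinAt
  refine ⟨⟨fun s => ((f : (Fin m → ℝ) → ℂ) s)⁻¹, V0 ∪ V1, hd, hsm⟩, ?_⟩
  rcases Ultrafilter.union_mem_iff.1 (G.mem _ hd) with h | h
  · exact absurd ((mem_nul_iff G f).2 ⟨V0, ⟨o0, b0, h⟩, z0⟩) hf
  · rw [mem_nul_iff]
    refine ⟨V1, ⟨o1, b1, h⟩, fun s hs => ?_⟩
    show (f : (Fin m → ℝ) → ℂ) s * ((f : (Fin m → ℝ) → ℂ) s)⁻¹ - 1 = 0
    rw [mul_inv_cancel₀ (z1 s hs), sub_self]

theorem nul_isMaximal (G : GenData m) : G.nul.IsMaximal := by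
  rw [Ideal.isMaximal_iff]
  constructor
  · intro h1
    refine genMax_absurd G 1 h1 (GenData.big_of_denseOpen (DenseOpenIn.self G.isOpen)) ?_
    intro s _
    show (1 : ℂ) ≠ 0
    exact one_ne_zero
  · intro J x hJ hx hxJ
    obtain ⟨g, hg⟩ := exists_inv G x hx
    have h1 : x * g - (x * g - 1) ∈ J := J.sub_mem (J.mul_mem_right g hxJ) (hJ hg)
    rwa [sub_sub_cancel] at h1

end H37.LM
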