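import Pool.Agent.H37.LM.GenF
import Pool.Agent.H37.LM.GenE
import Pool.Agent.H37.LM.Alg0

/-!
# Roots of the leading form over the field of generic germs   [H37 LM GenRoots]

`a s i j = (a i j : (Fin m → ℝ) → ℂ) s`.  Proof.  `q = formP e (cl ∘ a)` is a nonzero polynomial over the
algebraically closed field `G.F`, so `q = C c * ∏_{p ∈ R} (X - C p)` (multiset `R` of roots).  Lift the
finitely many roots to elements of `SR G`.  On a Big set `V`:
* `formP e (a s) = C (c s) * ∏ (X - C (p s))`, `c s ≠ 0` (`transfer_poly`): so every root of `formP e (a s)` is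
  one of the `p s`;
* for every simple root `p`: `(derivative (formP e (a s))).eval (p s) ≠ 0`;
* for every multiple root `p` choose `A, B, U` from `hD`, lift them (`lift_poly₂`); on `V` they are
  `SmoothPoly` (`smoothPoly_big`), `(U s).evalEval 0 (p s) ≠ 0`, and the identity holds
  (`transfer_poly₂` applied to `U * T - A * Q - B * W`, where `FtP`, `QfP`, `WfP` over the ring `SR G` map to
  the ones over `G.F` and over `ℂ`).
Finite intersections: `GenData.big_biInter`, `GenData.Big.inter`.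
-/

noncomputable section

open Set Filter Topology Polynomial
open scoped ContDiff

namespace H37.LM

variable {m : ℕ}

theorem formP_coeff {F : Type*} [Field F] (e : ℕ) (a : ℕ → ℕ → F) (n : ℕ) :
    (formP e a).coeff n = if n < e + 1 then a (e - n) n else 0 := by
  unfold formP
  rw [finsetSum_coeff]
  simp only [coeff_monomial]
  rw [Finset.sum_ite_eq']
  simp only [Finset.mem_range]

/-- the form with coefficients in `SR G` -/
def fpS {G : GenData m} (e : ℕ) (a : ℕ → ℕ → SR G) : (SR G)[X] :=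
  ∑ j ∈ Finset.range (e + 1), monomial j (a (e - j) j)

theorem fpS_map_cl {G : GenData m} (e : ℕ) (a : ℕ → ℕ → SR G) :
    (fpS e a).map G.cl = formP e (fun i j => G.cl (a i j)) := by
  unfold fpS formP
  rw [Polynomial.map_sum]
  simp only [map_monomial]

theorem fpS_map_ev {G : GenData m} (e : ℕ) (a : ℕ → ℕ → SR G) (s : Fin m → ℝ) :
    (fpS e a).map (evS G s) = formP e (fun i j => (a i j : (Fin m → ℝ) → ℂ) s) := by
  unfold fpS formP
  rw [Polynomial.map_sum]
  simp only [map_monomial, evS_apply]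

theorem map_FtP {R S : Type*} [CommRing R] [CommRing S] (f : R →+* S) (K e : ℕ)
    (a : ℕ → ℕ → R) : (FtP K e a).map (mapRingHom f) = FtP K e (fun i j => f (a i j)) := by
  unfold FtP
  simp only [Polynomial.map_sum, map_monomial, coe_mapRingHom]

theorem map_QfP {R S : Type*} [CommRing R] [CommRing S] (f : R →+* S) (K e : ℕ)
    (a : ℕ → ℕ → R) : (QfP K e a).map (mapRingHom f) = QfP K e (fun i j => f (a i j)) := by
  unfold QfP
  simp only [Polynomial.map_sum, map_monomial, coe_mapRingHom, map_mul, map_add, map_natCast]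

theorem map_WfP {R S : Type*} [CommRing R] [CommRing S] (f : R →+* S) (K e : ℕ)
    (a : ℕ → ℕ → R) : (WfP K e a).map (mapRingHom f) = WfP K e (fun i j => f (a i j)) := by
  unfold WfP
  simp only [Polynomial.map_sum, map_monomial, coe_mapRingHom, map_mul, map_natCast]

theorem smoothPoly_mono {V W : Set (Fin m → ℝ)} {P : (Fin m → ℝ) → ℂ[X][X]}
    (h : SmoothPoly V P) (hWV : W ⊆ V) : SmoothPoly W P := by
  obtain ⟨⟨N, hN⟩, hs⟩ := h
  exact ⟨⟨N, fun s hs' => hN s (hWV hs')⟩, fun i j => (hs i j).mono hWV⟩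

theorem eval_map_apply_cl {G : GenData m} (P : (SR G)[X]) (x : SR G) :
    (P.map G.cl).eval (G.cl x) = G.cl (P.eval x) := by
  rw [eval_map, eval₂_hom]

theorem eval_map_apply_ev {G : GenData m} (P : (SR G)[X]) (x : SR G) (s : Fin m → ℝ) :
    (P.map (evS G s)).eval (evS G s x) = evS G s (P.eval x) := by
  rw [eval_map, eval₂_hom]

theorem gen_roots (G : GenData m) (K e : ℕ) (a a' : ℕ → ℕ → SR G)
    (hG : Good K e (fun i j => G.cl (a i j)))
    (hD : ∀ p : G.F, (formP e (fun i j => G.cl (a i j))).eval p = 0 →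
      (derivative (formP e (fun i j => G.cl (a i j)))).eval p = 0 →
      ∃ A B U : G.F[X][X], U.evalEval 0 p ≠ 0 ∧
        U * FtP K e (fun i j => G.cl (a' i j)) =
          A * QfP K e (fun i j => G.cl (a i j)) + B * WfP K e (fun i j => G.cl (a i j))) :
    ∃ V, G.Big V ∧ ∀ s ∈ V, ∀ w0 : ℂ,
      (formP e (fun i j => (a i j : (Fin m → ℝ) → ℂ) s)).eval w0 ≠ 0 ∨
      (derivative (formP e (fun i j => (a i j : (Fin m → ℝ) → ℂ) s))).eval w0 ≠ 0 ∨
      ∃ A B U : (Fin m → ℝ) → ℂ[X][X], SmoothPoly V A ∧ SmoothPoly V B ∧ SmoothPoly V U ∧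
        (U s).evalEval 0 w0 ≠ 0 ∧ ∀ s' ∈ V,
          U s' * FtP K e (fun i j => (a' i j : (Fin m → ℝ) → ℂ) s') =
            A s' * QfP K e (fun i j => (a i j : (Fin m → ℝ) → ℂ) s') +
            B s' * WfP K e (fun i j => (a i j : (Fin m → ℝ) → ℂ) s') := by
  classical
  set q : G.F[X] := formP e (fun i j => G.cl (a i j)) with hq
  obtain ⟨σ, hσ⟩ : ∃ σ : G.F → SR G, ∀ x, G.cl (σ x) = x :=
    ⟨Function.surjInv (cl_surjective G), Function.surjInv_eq (cl_surjective G)⟩
  have hq0 : q ≠ 0 := by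
    intro h
    have h1 : q.coeff e = G.cl (a 0 e) := by
      rw [hq, formP_coeff]
      simp
    rw [h, coeff_zero] at h1
    exact hG.inf h1.symm
  have hlc : q.leadingCoeff ≠ 0 := leadingCoeff_ne_zero.2 hq0
  -- the lifted factorisation
  set L : (SR G)[X] := C (σ q.leadingCoeff) *
    (q.roots.map (fun p => X - C (σ p))).prod with hL
  have hLq : L.map G.cl = q := by
    have h1 : q = C q.leadingCoeff * (q.roots.map (fun p => X - C p)).prod :=
      (IsAlgClosed.splits q).eq_prod_roots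
    rw [hL, Polynomial.map_mul, map_C, hσ, Polynomial.map_multiset_prod, Multiset.map_map]
    conv_rhs => rw [h1]
    congr 3
    funext p
    simp [hσ]
  have hsub : (fpS e a - L).map G.cl = 0 := by
    rw [Polynomial.map_sub, fpS_map_cl, hLq, ← hq, sub_self]
  obtain ⟨V1, hV1, h1⟩ := transfer_poly G (fpS e a - L) hsub
  obtain ⟨V2, hV2, h2⟩ := (cl_ne_zero_iff G (σ q.leadingCoeff)).1 (by rw [hσ]; exact hlc)
  have hroot : ∀ s ∈ V1 ∩ V2, ∀ w0 : ℂ,
      (formP e (fun i j => (a i j : (Fin m → ℝ) → ℂ) s)).eval w0 = 0 →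
      ∃ p ∈ q.roots.toFinset, w0 = (σ p : (Fin m → ℝ) → ℂ) s := by
    intro s hs w0 hw
    have h3 := h1 s hs.1
    rw [Polynomial.map_sub, sub_eq_zero, fpS_map_ev] at h3
    rw [h3, hL, Polynomial.map_mul, map_C, Polynomial.map_multiset_prod, Multiset.map_map,
      eval_mul, eval_C, eval_multiset_prod, Multiset.map_map] at hw
    have h4 := (mul_eq_zero.1 hw).resolve_left (h2 s hs.2)
    rw [Multiset.prod_eq_zero_iff, Multiset.mem_map] at h4
    obtain ⟨p, hp, h5⟩ := h4
    refine ⟨p, Multiset.mem_toFinset.2 hp, ?_⟩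
    simp only [Function.comp, Polynomial.map_sub, map_X, map_C, eval_sub, eval_X, eval_C,
      evS_apply] at h5
    exact sub_eq_zero.1 h5
  -- the local data at the roots
  have hloc : ∀ p ∈ q.roots.toFinset, ∃ V, G.Big V ∧ ((∀ s ∈ V,
      (derivative (formP e (fun i j => (a i j : (Fin m → ℝ) → ℂ) s))).eval
        ((σ p : (Fin m → ℝ) → ℂ) s) ≠ 0) ∨
      ∃ A B U : (Fin m → ℝ) → ℂ[X][X], SmoothPoly V A ∧ SmoothPoly V B ∧ SmoothPoly V U ∧
        ∀ s' ∈ V, (U s').evalEval 0 ((σ p : (Fin m → ℝ) → ℂ) s') ≠ 0 ∧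
          U s' * FtP K e (fun i j => (a' i j : (Fin m → ℝ) → ℂ) s') =
            A s' * QfP K e (fun i j => (a i j : (Fin m → ℝ) → ℂ) s') +
            B s' * WfP K e (fun i j => (a i j : (Fin m → ℝ) → ℂ) s')) := by
    intro p hp
    rw [Multiset.mem_toFinset, mem_roots hq0, IsRoot.def] at hp
    by_cases hder : (derivative q).eval p = 0
    · obtain ⟨A, B, U, hU0, hid⟩ := hD p hp hder
      obtain ⟨A', hA'⟩ := lift_poly₂ G A
      obtain ⟨B', hB'⟩ := lift_poly₂ G B
      obtain ⟨U', hU'⟩ := lift_poly₂ G U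
      have h3 : (U' * FtP K e a' - A' * QfP K e a - B' * WfP K e a).map
          (mapRingHom G.cl) = 0 := by
        rw [Polynomial.map_sub, Polynomial.map_sub, Polynomial.map_mul, Polynomial.map_mul,
          Polynomial.map_mul, hA', hB', hU', map_FtP, map_QfP, map_WfP, hid]
        ring
      obtain ⟨W0, hW0, hW0'⟩ := transfer_poly₂ G _ h3
      obtain ⟨W1, hW1, hW1'⟩ := smoothPoly_big G A'
      obtain ⟨W2, hW2, hW2'⟩ := smoothPoly_big G B'
      obtain ⟨W3, hW3, hW3'⟩ := smoothPoly_big G U'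
      have h4 : G.cl (U'.evalEval 0 (σ p)) ≠ 0 := by
        rw [← map_mapRingHom_evalEval, hU', map_zero, hσ]
        exact hU0
      obtain ⟨W4, hW4, hW4'⟩ := (cl_ne_zero_iff G _).1 h4
      refine ⟨W0 ∩ W1 ∩ W2 ∩ W3 ∩ W4, (((hW0.inter hW1).inter hW2).inter hW3).inter hW4,
        Or.inr ⟨fun s => A'.map (mapRingHom (evS G s)), fun s => B'.map (mapRingHom (evS G s)),
          fun s => U'.map (mapRingHom (evS G s)), ?_, ?_, ?_, ?_⟩⟩
      · exact smoothPoly_mono hW1' (fun x hx => hx.1.1.1.2)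
      · exact smoothPoly_mono hW2' (fun x hx => hx.1.1.2)
      · exact smoothPoly_mono hW3' (fun x hx => hx.1.2)
      · intro s hs
        constructor
        · have h5 := hW4' s hs.2
          have h6 := map_mapRingHom_evalEval (evS G s) U' 0 (σ p)
          rw [map_zero, evS_apply, evS_apply] at h6
          beta_reduce
          rw [h6]
          exact h5
        · have h5 := hW0' s hs.1.1.1.1
          rw [Polynomial.map_sub, Polynomial.map_sub, Polynomial.map_mul, Polynomial.map_mul,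
            Polynomial.map_mul, map_FtP, map_QfP, map_WfP] at h5
          simp only [evS_apply] at h5
          beta_reduce
          linear_combination h5
    · have h3 : G.cl ((derivative (fpS e a)).eval (σ p)) ≠ 0 := by
        rw [← eval_map_apply_cl, ← derivative_map, fpS_map_cl, hσ]
        exact hder
      obtain ⟨W4, hW4, hW4'⟩ := (cl_ne_zero_iff G _).1 h3
      refine ⟨W4, hW4, Or.inl fun s hs => ?_⟩
      have h5 := hW4' s hs
      rw [← evS_apply, ← eval_map_apply_ev, ← derivative_map, fpS_map_ev, evS_apply] at h5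
      exact h5
  choose! V hV hV' using hloc
  obtain ⟨W, hW, hWsub⟩ := GenData.big_biInter q.roots.toFinset V hV
  refine ⟨W ∩ (V1 ∩ V2), hW.inter (hV1.inter hV2), fun s hs w0 => ?_⟩
  by_cases hw : (formP e (fun i j => (a i j : (Fin m → ℝ) → ℂ) s)).eval w0 = 0
  · right
    obtain ⟨p, hp, rfl⟩ := hroot s hs.2 w0 hw
    have hsubp : W ∩ (V1 ∩ V2) ⊆ V p := fun x hx => hWsub p hp hx.1
    rcases hV' p hp with h3 | ⟨A, B, U, hA, hB, hU, h3⟩
    · exact Or.inl (h3 s (hsubp hs))
    · right
      exact ⟨A, B, U, smoothPoly_mono hA hsubp, smoothPoly_mono hB hsubp,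
        smoothPoly_mono hU hsubp, (h3 s (hsubp hs)).1, fun s' hs' => (h3 s' (hsubp hs')).2⟩
  · exact Or.inl hw

end H37.LM
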