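import Pool.Agent.H37.LM.Fun

/-!
# Gluing of cone fields   [H37 LM Glue]

Proof.  The unit sphere `Σ = {u | ‖u‖ = 1}` of `ℂ × ℂ` (sup norm) is compact; cover it by
finitely many balls `ball u_i (r_i / 2)`, with fields `ξ_i` (constants `C_i`, radii `r_i`) from
`LocField`.  Put `m_i u = max 0 (r_i - ‖u - u_i‖)`; `m_i` is 1-Lipschitz, bounded, vanishes outside
`ball u_i r_i`; `M u = ∑ m_i u ≥ μ > 0` on `Σ`; `w_i = m_i / M` is Lipschitz and bounded on `Σ`,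
`∑ w_i = 1` on `Σ`.  Define, for `0 < ‖p‖ < ρ := min r_i`,
`X t p = ∑ w_i (‖p‖⁻¹ • p) • ξ_i t p` (only the `i` with `‖p‖⁻¹ • p ∈ ball u_i r_i` contribute), and
`X t 0 = 0`.
* Key estimate: `‖ ‖p‖⁻¹ • p - ‖q‖⁻¹ • q ‖ ≤ 2 ‖p - q‖ / max ‖p‖ ‖q‖`.  Hence for `p, q` in the
  same cone `‖w ξ p - w ξ q‖ ≤ |w p - w q| ‖ξ p‖ + |w q| ‖ξ p - ξ q‖ ≤ C' ‖p - q‖`, and if `q` is
  outside of the cone, `w q = 0` and `‖w p ξ p‖ = |w p - w q| ‖ξ p‖ ≤ C' ‖p - q‖` (use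
  `‖ξ p‖ ≤ C ‖p‖`).  With `q = 0`: `‖X t p‖ ≤ C ‖p‖`.
* The equation is affine in the field and `∑ w_i = 1`.
-/

noncomputable section

open Set Filter Topology
open scoped ContDiff

namespace H37.LM

/-- the direction is Lipschitz with constant `2 / ‖p‖` -/
theorem glue_dir {p q : ℂ × ℂ} (hp : p ≠ 0) (hq : q ≠ 0) :
    ‖(‖p‖⁻¹ : ℝ) • p - (‖q‖⁻¹ : ℝ) • q‖ * ‖p‖ ≤ 2 * ‖p - q‖ := by
  have hp' : ‖p‖ ≠ 0 := norm_ne_zero_iff.2 hp
  have hq' : ‖q‖ ≠ 0 := norm_ne_zero_iff.2 hq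
  have h1 : ‖(‖p‖⁻¹ : ℝ) • p - (‖q‖⁻¹ : ℝ) • q‖ * ‖p‖ =
      ‖(p - q) + (‖q‖ - ‖p‖ : ℝ) • ((‖q‖⁻¹ : ℝ) • q)‖ := by
    rw [mul_comm, ← abs_of_nonneg (norm_nonneg p), ← Real.norm_eq_abs, ← norm_smul]
    congr 1
    rw [Real.norm_eq_abs, abs_of_nonneg (norm_nonneg p), smul_sub, smul_smul,
      mul_inv_cancel₀ hp', one_smul, sub_smul, smul_smul ‖q‖, mul_inv_cancel₀ hq', one_smul]
    abel
  have h2 : ‖(‖q‖⁻¹ : ℝ) • q‖ = 1 := by
    rw [norm_smul, norm_inv, norm_norm, inv_mul_cancel₀ hq']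
  rw [h1]
  refine (norm_add_le _ _).trans ?_
  rw [norm_smul, h2, mul_one, Real.norm_eq_abs]
  have h3 := abs_norm_sub_norm_le q p
  rw [norm_sub_rev q p] at h3
  linarith

theorem glue_dir_norm {p : ℂ × ℂ} (hp : p ≠ 0) : ‖(‖p‖⁻¹ : ℝ) • p‖ = 1 := by
  rw [norm_smul, norm_inv, norm_norm, inv_mul_cancel₀ (norm_ne_zero_iff.2 hp)]

/-- a Lipschitz partition of unity on the unit sphere -/
theorem glue_weights (T : Finset (ℂ × ℂ)) (r : ℂ × ℂ → ℝ) (hr : ∀ u ∈ T, 0 < r u)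
    (hT : ∀ a : ℂ × ℂ, ‖a‖ = 1 → ∃ u ∈ T, ‖a - u‖ < r u / 2) :
    ∃ (w : ℂ × ℂ → ℂ × ℂ → ℝ) (L : ℝ), 0 ≤ L ∧
      (∀ u ∈ T, ∀ a, ‖a‖ = 1 → 0 ≤ w u a ∧ w u a ≤ 1) ∧
      (∀ a, ‖a‖ = 1 → ∑ u ∈ T, w u a = 1) ∧
      (∀ u ∈ T, ∀ a, ‖a‖ = 1 → w u a ≠ 0 → ‖a - u‖ < r u) ∧
      (∀ u ∈ T, ∀ a b, ‖a‖ = 1 → ‖b‖ = 1 → |w u a - w u b| ≤ L * ‖a - b‖) := by
  obtain ⟨u0, hu0, -⟩ := hT ((1 : ℂ), (0 : ℂ)) (by simp [Prod.norm_def])
  have hTn : T.Nonempty := ⟨u0, hu0⟩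
  set m : ℂ × ℂ → ℂ × ℂ → ℝ := fun u a => max 0 (r u - ‖a - u‖) with hm
  set M : ℂ × ℂ → ℝ := fun a => ∑ u ∈ T, m u a with hM
  have hm0 : ∀ u a, 0 ≤ m u a := fun u a => le_max_left _ _
  have hmL : ∀ u a b, |m u a - m u b| ≤ ‖a - b‖ := by
    intro u a b
    have h0 : |m u a - m u b| ≤ |(r u - ‖a - u‖) - (r u - ‖b - u‖)| := by
      simp only [hm]
      rw [max_comm 0 (r u - ‖a - u‖), max_comm 0 (r u - ‖b - u‖)]
      exact abs_max_sub_max_le_abs (r u - ‖a - u‖) (r u - ‖b - u‖) 0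
    refine h0.trans ?_
    have h1 : (0 : ℝ) ≤ ‖a - b‖ := norm_nonneg _
    have h2 : |(r u - ‖a - u‖) - (r u - ‖b - u‖)| ≤ ‖a - b‖ := by
      have h3 := abs_norm_sub_norm_le (b - u) (a - u)
      have h4 : (b - u) - (a - u) = b - a := by abel
      rw [h4, norm_sub_rev b a] at h3
      have h5 : (r u - ‖a - u‖) - (r u - ‖b - u‖) = ‖b - u‖ - ‖a - u‖ := by ring
      rw [h5]
      exact h3
    exact h2
  set μ : ℝ := T.inf' hTn (fun u => r u / 2) with hμ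
  have hμ0 : 0 < μ := by
    rw [hμ, Finset.lt_inf'_iff]
    intro u hu
    have := hr u hu
    linarith
  have hMμ : ∀ a, ‖a‖ = 1 → μ ≤ M a := by
    intro a ha
    obtain ⟨u, hu, hau⟩ := hT a ha
    have h1 : μ ≤ r u / 2 := Finset.inf'_le _ hu
    have h2 : r u / 2 ≤ m u a := le_trans (by linarith) (le_max_right _ _)
    have h3 : m u a ≤ M a := Finset.single_le_sum (f := fun u => m u a) (fun v _ => hm0 v a) hu
    linarith
  have hMle : ∀ u ∈ T, ∀ a, m u a ≤ M a := fun u hu a =>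
    Finset.single_le_sum (f := fun u => m u a) (fun v _ => hm0 v a) hu
  have hML : ∀ a b, |M a - M b| ≤ T.card * ‖a - b‖ := by
    intro a b
    simp only [hM]
    rw [← Finset.sum_sub_distrib]
    refine (Finset.abs_sum_le_sum_abs _ _).trans ?_
    refine (Finset.sum_le_sum fun u _ => hmL u a b).trans ?_
    rw [Finset.sum_const, nsmul_eq_mul]
  refine ⟨fun u a => m u a / M a, (1 + T.card) / μ, by positivity, ?_, ?_, ?_, ?_⟩
  · intro u hu a ha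
    have h1 : 0 < M a := lt_of_lt_of_le hμ0 (hMμ a ha)
    exact ⟨div_nonneg (hm0 u a) h1.le, (div_le_one h1).2 (hMle u hu a)⟩
  · intro a ha
    have h1 : 0 < M a := lt_of_lt_of_le hμ0 (hMμ a ha)
    rw [← Finset.sum_div]
    exact div_self h1.ne'
  · intro u _ a _ hne
    by_contra hcon
    push Not at hcon
    apply hne
    have h1 : m u a = 0 := max_eq_left (by linarith)
    simp only [h1, zero_div]
  · intro u hu a b ha hb
    have h1 : 0 < M a := lt_of_lt_of_le hμ0 (hMμ a ha)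
    have h2 : 0 < M b := lt_of_lt_of_le hμ0 (hMμ b hb)
    have h3 : m u a / M a - m u b / M b =
        (m u a - m u b) / M a + (m u b / M b) * ((M b - M a) / M a) := by
      field_simp
      ring
    rw [h3]
    refine (abs_add_le _ _).trans ?_
    have h4 : |(m u a - m u b) / M a| ≤ ‖a - b‖ / μ := by
      rw [abs_div, abs_of_pos h1]
      exact div_le_div₀ (norm_nonneg _) (hmL u a b) hμ0 (hMμ a ha)
    have h5 : |(m u b / M b) * ((M b - M a) / M a)| ≤ T.card * ‖a - b‖ / μ := by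
      rw [abs_mul, abs_of_nonneg (div_nonneg (hm0 u b) h2.le), abs_div, abs_of_pos h1]
      have h6 : m u b / M b ≤ 1 := (div_le_one h2).2 (hMle u hu b)
      have h7 : |M b - M a| / M a ≤ T.card * ‖a - b‖ / μ := by
        refine div_le_div₀ (by positivity) ?_ hμ0 (hMμ a ha)
        have := hML b a
        rwa [norm_sub_rev b a] at this
      have h8 : 0 ≤ |M b - M a| / M a := by positivity
      calc m u b / M b * (|M b - M a| / M a) ≤ 1 * (|M b - M a| / M a) :=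
            mul_le_mul_of_nonneg_right h6 h8
        _ ≤ T.card * ‖a - b‖ / μ := by rw [one_mul]; exact h7
    have h9 : (1 + (T.card : ℝ)) / μ * ‖a - b‖ = ‖a - b‖ / μ + T.card * ‖a - b‖ / μ := by ring
    rw [h9]
    exact add_le_add h4 h5

/-- one term of the sum is Lipschitz; first case: `p` in the cone -/
theorem glue_term {w : ℂ × ℂ → ℝ} {ξ : ℂ × ℂ → ℂ × ℂ} {u : ℂ × ℂ} {r C L : ℝ} (hC : 0 ≤ C)
    (hL : 0 ≤ L) (h01 : ∀ a, ‖a‖ = 1 → 0 ≤ w a ∧ w a ≤ 1)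
    (hsupp : ∀ a, ‖a‖ = 1 → w a ≠ 0 → ‖a - u‖ < r)
    (hlip : ∀ a b, ‖a‖ = 1 → ‖b‖ = 1 → |w a - w b| ≤ L * ‖a - b‖)
    (hb : ∀ p ∈ cone u r, ‖ξ p‖ ≤ C * ‖p‖)
    (hl : ∀ p ∈ cone u r, ∀ q ∈ cone u r, ‖ξ p - ξ q‖ ≤ C * ‖p - q‖)
    {p q : ℂ × ℂ} (hp : p ≠ 0) (hq : q ≠ 0) (hpr : ‖p‖ < r) (hqr : ‖q‖ < r) :
    ‖w ((‖p‖⁻¹ : ℝ) • p) • ξ p - w ((‖q‖⁻¹ : ℝ) • q) • ξ q‖ ≤ C * (1 + 2 * L) * ‖p - q‖ := by
  have key : ∀ p q : ℂ × ℂ, p ≠ 0 → q ≠ 0 → ‖p‖ < r → ‖q‖ < r → p ∈ cone u r →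
      |w ((‖p‖⁻¹ : ℝ) • p) - w ((‖q‖⁻¹ : ℝ) • q)| * ‖ξ p‖ ≤ C * (2 * L) * ‖p - q‖ := by
    intro p q hp hq _ _ hpc
    have h1 := hlip _ _ (glue_dir_norm hp) (glue_dir_norm hq)
    have h2 := glue_dir hp hq
    have h3 : 0 ≤ ‖p‖ := norm_nonneg p
    calc |w ((‖p‖⁻¹ : ℝ) • p) - w ((‖q‖⁻¹ : ℝ) • q)| * ‖ξ p‖
        ≤ (L * ‖(‖p‖⁻¹ : ℝ) • p - (‖q‖⁻¹ : ℝ) • q‖) * (C * ‖p‖) :=
          mul_le_mul h1 (hb p hpc) (norm_nonneg _) (by positivity)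
      _ = (C * L) * (‖(‖p‖⁻¹ : ℝ) • p - (‖q‖⁻¹ : ℝ) • q‖ * ‖p‖) := by ring
      _ ≤ (C * L) * (2 * ‖p - q‖) := mul_le_mul_of_nonneg_left h2 (by positivity)
      _ = C * (2 * L) * ‖p - q‖ := by ring
  have hout : ∀ q : ℂ × ℂ, q ≠ 0 → ‖q‖ < r → q ∉ cone u r → w ((‖q‖⁻¹ : ℝ) • q) = 0 := by
    intro q hq hqr hqc
    by_contra hne
    exact hqc ⟨norm_pos_iff.2 hq, hqr, hsupp _ (glue_dir_norm hq) hne⟩
  have hpq : 0 ≤ C * ‖p - q‖ := by positivity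
  by_cases hpc : p ∈ cone u r
  · by_cases hqc : q ∈ cone u r
    · have h1 : w ((‖p‖⁻¹ : ℝ) • p) • ξ p - w ((‖q‖⁻¹ : ℝ) • q) • ξ q =
          (w ((‖p‖⁻¹ : ℝ) • p) - w ((‖q‖⁻¹ : ℝ) • q)) • ξ p +
          w ((‖q‖⁻¹ : ℝ) • q) • (ξ p - ξ q) := by
        rw [sub_smul, smul_sub]
        abel
      rw [h1]
      refine (norm_add_le _ _).trans ?_
      rw [norm_smul, norm_smul, Real.norm_eq_abs, Real.norm_eq_abs]
      have h2 := key p q hp hq hpr hqr hpc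
      obtain ⟨h3, h4⟩ := h01 _ (glue_dir_norm hq)
      have h5 : |w ((‖q‖⁻¹ : ℝ) • q)| * ‖ξ p - ξ q‖ ≤ 1 * (C * ‖p - q‖) := by
        rw [abs_of_nonneg h3]
        exact mul_le_mul h4 (hl p hpc q hqc) (norm_nonneg _) zero_le_one
      calc |w ((‖p‖⁻¹ : ℝ) • p) - w ((‖q‖⁻¹ : ℝ) • q)| * ‖ξ p‖ +
            |w ((‖q‖⁻¹ : ℝ) • q)| * ‖ξ p - ξ q‖ ≤ C * (2 * L) * ‖p - q‖ + 1 * (C * ‖p - q‖) :=
            add_le_add h2 h5
        _ = C * (1 + 2 * L) * ‖p - q‖ := by ring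
    · have h0 := hout q hq hqr hqc
      have h2 := key p q hp hq hpr hqr hpc
      rw [h0, zero_smul, sub_zero, norm_smul, Real.norm_eq_abs]
      rw [h0, sub_zero] at h2
      refine h2.trans ?_
      have : C * (1 + 2 * L) * ‖p - q‖ = C * (2 * L) * ‖p - q‖ + C * ‖p - q‖ := by ring
      linarith
  · have h0 := hout p hp hpr hpc
    by_cases hqc : q ∈ cone u r
    · have h2 := key q p hq hp hqr hpr hqc
      rw [h0, zero_smul, zero_sub, norm_neg, norm_smul, Real.norm_eq_abs]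
      rw [h0, sub_zero, norm_sub_rev q p] at h2
      refine h2.trans ?_
      have : C * (1 + 2 * L) * ‖p - q‖ = C * (2 * L) * ‖p - q‖ + C * ‖p - q‖ := by ring
      linarith
    · have h0' := hout q hq hqr hqc
      rw [h0, h0', zero_smul, zero_smul, sub_zero, norm_zero]
      positivity

theorem glue (l A B : ℝ → ℂ × ℂ → ℂ) (hloc : ∀ u : ℂ × ℂ, ‖u‖ = 1 → LocField l A B u) :
    ∃ ρ > 0, ∃ C ≥ 0, ∃ X : ℝ → ℂ × ℂ → ℂ × ℂ,
      (∀ t ∈ Ioo (-ρ) ρ, X t 0 = 0) ∧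
      (∀ t ∈ Ioo (-ρ) ρ, ∀ p ∈ Metric.ball (0 : ℂ × ℂ) ρ, ∀ q ∈ Metric.ball (0 : ℂ × ℂ) ρ,
        ‖X t p - X t q‖ ≤ C * ‖p - q‖) ∧
      (∀ p ∈ Metric.ball (0 : ℂ × ℂ) ρ, ContinuousOn (fun t => X t p) (Ioo (-ρ) ρ)) ∧
      ∀ t ∈ Ioo (-ρ) ρ, ∀ p ∈ Metric.ball (0 : ℂ × ℂ) ρ, p ≠ 0 →
        l t p + A t p * (X t p).1 + B t p * (X t p).2 = 0 := by
  classical
  choose! r hr C hC ξ hb hl hct heq using hloc
  -- finite cover of the sphere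
  have hcomp : IsCompact (Metric.sphere (0 : ℂ × ℂ) 1) := isCompact_sphere 0 1
  obtain ⟨T, hTs, hTc⟩ := hcomp.elim_nhds_subcover (fun u => Metric.ball u (r u / 2))
    (fun u hu => Metric.ball_mem_nhds u (by
      have := hr u (by simpa using hu)
      linarith))
  have hTu : ∀ u ∈ T, ‖u‖ = 1 := fun u hu => by simpa using hTs u hu
  have hT : ∀ a : ℂ × ℂ, ‖a‖ = 1 → ∃ u ∈ T, ‖a - u‖ < r u / 2 := by
    intro a ha
    have h1 := hTc (show a ∈ Metric.sphere (0 : ℂ × ℂ) 1 by simpa using ha)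
    simp only [mem_iUnion, exists_prop] at h1
    obtain ⟨u, hu, hau⟩ := h1
    exact ⟨u, hu, by rwa [Metric.mem_ball, dist_eq_norm] at hau⟩
  obtain ⟨w, L, hL, h01, hsum, hsupp, hlip⟩ := glue_weights T r (fun u hu => hr u (hTu u hu)) hT
  obtain ⟨u0, hu0, -⟩ := hT ((1 : ℂ), (0 : ℂ)) (by simp [Prod.norm_def])
  have hTn : T.Nonempty := ⟨u0, hu0⟩
  set ρ : ℝ := T.inf' hTn r with hρ
  have hρ0 : 0 < ρ := by
    rw [hρ, Finset.lt_inf'_iff]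
    exact fun u hu => hr u (hTu u hu)
  have hρr : ∀ u ∈ T, ρ ≤ r u := fun u hu => Finset.inf'_le _ hu
  have hIoo : ∀ u ∈ T, Ioo (-ρ) ρ ⊆ Ioo (-(r u)) (r u) := fun u hu =>
    Ioo_subset_Ioo (neg_le_neg (hρr u hu)) (hρr u hu)
  -- membership in a cone
  have hcone : ∀ u ∈ T, ∀ p : ℂ × ℂ, p ≠ 0 → ‖p‖ < ρ → w u ((‖p‖⁻¹ : ℝ) • p) ≠ 0 →
      p ∈ cone u (r u) := by
    intro u hu p hp hpρ hne
    exact ⟨norm_pos_iff.2 hp, lt_of_lt_of_le hpρ (hρr u hu),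
      hsupp u hu _ (glue_dir_norm hp) hne⟩
  set X : ℝ → ℂ × ℂ → ℂ × ℂ := fun t p =>
    if p = 0 then 0 else ∑ u ∈ T, w u ((‖p‖⁻¹ : ℝ) • p) • ξ u t p with hX
  have hX0 : ∀ t, X t 0 = 0 := fun t => if_pos rfl
  have hXne : ∀ t p, p ≠ 0 → X t p = ∑ u ∈ T, w u ((‖p‖⁻¹ : ℝ) • p) • ξ u t p :=
    fun t p hp => if_neg hp
  set CC : ℝ := ∑ u ∈ T, C u * (1 + 2 * L) with hCC
  have hCu : ∀ u ∈ T, 0 ≤ C u := fun u hu => hC u (hTu u hu)
  have hCC0 : 0 ≤ CC := Finset.sum_nonneg fun u hu => mul_nonneg (hCu u hu) (by linarith)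
  have hsize : ∀ t ∈ Ioo (-ρ) ρ, ∀ p : ℂ × ℂ, ‖p‖ < ρ → ‖X t p‖ ≤ CC * ‖p‖ := by
    intro t ht p hp
    by_cases hp0 : p = 0
    · rw [hp0, hX0, norm_zero, mul_zero]
    rw [hXne t p hp0]
    refine (norm_sum_le _ _).trans ?_
    rw [hCC, Finset.sum_mul]
    refine Finset.sum_le_sum fun u hu => ?_
    have hp1 : 0 ≤ ‖p‖ := norm_nonneg p
    by_cases hne : w u ((‖p‖⁻¹ : ℝ) • p) = 0
    · rw [hne, zero_smul, norm_zero]
      exact mul_nonneg (mul_nonneg (hCu u hu) (by linarith)) hp1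
    · have h1 := hb u (hTu u hu) t (hIoo u hu ht) p (hcone u hu p hp0 hp hne)
      obtain ⟨h2, h3⟩ := h01 u hu _ (glue_dir_norm hp0)
      rw [norm_smul, Real.norm_eq_abs, abs_of_nonneg h2]
      calc w u ((‖p‖⁻¹ : ℝ) • p) * ‖ξ u t p‖ ≤ 1 * (C u * ‖p‖) :=
            mul_le_mul h3 h1 (norm_nonneg _) zero_le_one
        _ ≤ C u * (1 + 2 * L) * ‖p‖ := by
            have h4 : 0 ≤ C u * ‖p‖ * (2 * L) :=
              mul_nonneg (mul_nonneg (hCu u hu) hp1) (by linarith)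
            nlinarith
  refine ⟨ρ, hρ0, CC, hCC0, X, fun t _ => hX0 t, ?_, ?_, ?_⟩
  · intro t ht p hp q hq
    rw [Metric.mem_ball, dist_zero_right] at hp hq
    by_cases hp0 : p = 0
    · rw [hp0, hX0, zero_sub, zero_sub, norm_neg, norm_neg]
      exact hsize t ht q hq
    by_cases hq0 : q = 0
    · rw [hq0, hX0, sub_zero, sub_zero]
      exact hsize t ht p hp
    rw [hXne t p hp0, hXne t q hq0, ← Finset.sum_sub_distrib]
    refine (norm_sum_le _ _).trans ?_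
    rw [hCC, Finset.sum_mul]
    refine Finset.sum_le_sum fun u hu => ?_
    exact glue_term (hCu u hu) hL (h01 u hu) (hsupp u hu) (hlip u hu)
      (hb u (hTu u hu) t (hIoo u hu ht)) (hl u (hTu u hu) t (hIoo u hu ht)) hp0 hq0
      (lt_of_lt_of_le hp (hρr u hu)) (lt_of_lt_of_le hq (hρr u hu))
  · intro p hp
    rw [Metric.mem_ball, dist_zero_right] at hp
    by_cases hp0 : p = 0
    · rw [hp0]
      simp only [hX0]
      exact continuousOn_const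
    · have h1 : (fun t => X t p) = fun t => ∑ u ∈ T, w u ((‖p‖⁻¹ : ℝ) • p) • ξ u t p := by
        funext t
        exact hXne t p hp0
      rw [h1]
      refine continuousOn_finsetSum _ fun u hu => ?_
      by_cases hne : w u ((‖p‖⁻¹ : ℝ) • p) = 0
      · simp only [hne, zero_smul]
        exact continuousOn_const
      · exact ((hct u (hTu u hu) p (hcone u hu p hp0 hp hne)).mono (hIoo u hu)).const_smul
          (w u ((‖p‖⁻¹ : ℝ) • p))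
  · intro t ht p hp hp0
    rw [Metric.mem_ball, dist_zero_right] at hp
    have h1 : ∀ u ∈ T, (w u ((‖p‖⁻¹ : ℝ) • p) : ℂ) *
        (l t p + A t p * (ξ u t p).1 + B t p * (ξ u t p).2) = 0 := by
      intro u hu
      by_cases hne : w u ((‖p‖⁻¹ : ℝ) • p) = 0
      · rw [hne, Complex.ofReal_zero, zero_mul]
      · rw [heq u (hTu u hu) t (hIoo u hu ht) p (hcone u hu p hp0 hp hne), mul_zero]
    have h2 : (∑ u ∈ T, (w u ((‖p‖⁻¹ : ℝ) • p) : ℂ)) = 1 := by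
      rw [← Complex.ofReal_sum, hsum _ (glue_dir_norm hp0), Complex.ofReal_one]
    have h3 := Finset.sum_eq_zero h1
    rw [hXne t p hp0, Prod.fst_sum, Prod.snd_sum, Finset.mul_sum, Finset.mul_sum]
    calc l t p + ∑ u ∈ T, A t p * (w u ((‖p‖⁻¹ : ℝ) • p) • ξ u t p).1 +
          ∑ u ∈ T, B t p * (w u ((‖p‖⁻¹ : ℝ) • p) • ξ u t p).2
        = (∑ u ∈ T, (w u ((‖p‖⁻¹ : ℝ) • p) : ℂ)) * l t p +
          ∑ u ∈ T, A t p * (w u ((‖p‖⁻¹ : ℝ) • p) • ξ u t p).1 +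
          ∑ u ∈ T, B t p * (w u ((‖p‖⁻¹ : ℝ) • p) • ξ u t p).2 := by rw [h2, one_mul]
      _ = ∑ u ∈ T, (w u ((‖p‖⁻¹ : ℝ) • p) : ℂ) *
          (l t p + A t p * (ξ u t p).1 + B t p * (ξ u t p).2) := by
          rw [Finset.sum_mul, ← Finset.sum_add_distrib, ← Finset.sum_add_distrib]
          refine Finset.sum_congr rfl fun u _ => ?_
          rw [Prod.smul_fst, Prod.smul_snd, Complex.real_smul, Complex.real_smul]
          ring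
      _ = 0 := h3

end H37.LM
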