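import Pool.Agent.H37.LM.Near0

/-!
# The functionals vanish on the cube of the ideal   [H37 LM Kill]

Let `Lf φ` be the functional with values `φ i j` on the monomials `x ^ i y ^ j` (`monomial j (monomial i 1)`).
It is additive and `Lf φ (C (C c) * P) = c * Lf φ P`; multiplication by `x ^ a y ^ b` shifts `φ`.
`Lf φ (uP * x ^ i y ^ j) = k0 φ (i+2) j + k1 φ (i+1) (j+1) - k2 φ i (j+1)` (`rec φ i j` for short).

Identities (finite case checks: `φ i j = 0` unless `j ≤ 5` and `i + 2 j ≤ 11`; Pascal's rule):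
* `rec fA i j = 0`, `rec fB0 i j = 0`, `rec fC0 i j = 0`;
* `rec fB i j = fB0 i (j + 1)`, `rec fC1 i j = fC0 i (j + 1)`, `rec fC i j = fC1 i (j + 1)`;
* `fA i j = 0` for `j ≥ 6`, `fB i j = fB0 i j = 0` for `j ≥ 5`, `fC i j = fC1 i j = fC0 i j = 0` for `j ≥ 4`.
(Checked numerically.)  Hence, by linearity (`P = ∑` of monomials), with `u = uP k0 k1 k2`, `y = X`:
* `Lf fA (u P) = 0`, `Lf fA (y ^ 6 P) = 0`;
* `Lf fB (u P) = Lf fB0 (y P)`, so `Lf fB (u ^ 2 P) = 0`, `Lf fB (u y ^ 4 P) = Lf fB0 (y ^ 5 P) = 0`,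
  `Lf fB (y ^ 6 P) = 0`;
* `Lf fC (u P) = Lf fC1 (y P)`, `Lf fC1 (u P) = Lf fC0 (y P)`, `Lf fC0 (u P) = 0`, so
  `Lf fC (u ^ 3 P) = Lf fC0 (y ^ 2 u P) = 0`, `Lf fC (u ^ 2 y ^ 2 P) = Lf fC0 (y ^ 4 P) = 0`,
  `Lf fC (u y ^ 4 P) = Lf fC1 (y ^ 5 P) = 0`, `Lf fC (y ^ 6 P) = 0`.
-/

noncomputable section

open Polynomial

namespace H37.LM

theorem Lf_add (φ : ℕ → ℕ → ℂ) (P Q : ℂ[X][X]) : Lf φ (P + Q) = Lf φ P + Lf φ Q := by
  unfold Lf
  rw [Polynomial.sum_add_index]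
  · intro j
    exact Polynomial.sum_zero_index _
  · intro j a b
    rw [Polynomial.sum_add_index]
    · intro i
      exact mul_zero _
    · intro i c d
      exact mul_add _ _ _

theorem kl_Lf_monomial (φ : ℕ → ℕ → ℂ) (i j : ℕ) (c : ℂ) :
    Lf φ (monomial j (monomial i c)) = φ i j * c := by
  unfold Lf
  rw [Polynomial.sum_monomial_index, Polynomial.sum_monomial_index]
  · exact mul_zero _
  · exact Polynomial.sum_zero_index _

theorem kl_ind {p : ℂ[X][X] → Prop} (hadd : ∀ P Q, p P → p Q → p (P + Q))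
    (hmon : ∀ i j c, p (monomial j (monomial i c))) (P : ℂ[X][X]) : p P := by
  refine Polynomial.induction_on' P hadd fun j q => ?_
  refine Polynomial.induction_on' (motive := fun q => p (monomial j q)) q ?_ fun i c => hmon i j c
  intro q r hq hr
  rw [map_add]
  exact hadd _ _ hq hr

theorem Lf_sum (φ : ℕ → ℕ → ℂ) (N : ℕ) (P : ℂ[X][X]) (h : ∀ i j, N ≤ i ∨ N ≤ j → φ i j = 0) :
    Lf φ P = ∑ i ∈ Finset.range N, ∑ j ∈ Finset.range N, φ i j * (P.coeff j).coeff i := by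
  refine kl_ind (p := fun P => Lf φ P =
    ∑ i ∈ Finset.range N, ∑ j ∈ Finset.range N, φ i j * (P.coeff j).coeff i) ?_ ?_ P
  · intro P Q hP hQ
    rw [Lf_add, hP, hQ, ← Finset.sum_add_distrib]
    refine Finset.sum_congr rfl fun i _ => ?_
    rw [← Finset.sum_add_distrib]
    refine Finset.sum_congr rfl fun j _ => ?_
    rw [coeff_add, coeff_add, mul_add]
  · intro i0 j0 c
    rw [kl_Lf_monomial]
    by_cases hb : N ≤ i0 ∨ N ≤ j0
    · rw [h i0 j0 hb, zero_mul]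
      symm
      refine Finset.sum_eq_zero fun i hi => Finset.sum_eq_zero fun j hj => ?_
      rw [Finset.mem_range] at hi hj
      rw [coeff_monomial]
      split_ifs with h1
      · rw [coeff_monomial]
        split_ifs with h2
        · omega
        · exact mul_zero _
      · rw [coeff_zero, mul_zero]
    · push Not at hb
      rw [Finset.sum_eq_single i0, Finset.sum_eq_single j0]
      · rw [coeff_monomial, if_pos rfl, coeff_monomial, if_pos rfl]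
      · intro j _ hj
        rw [coeff_monomial, if_neg (Ne.symm hj), coeff_zero, mul_zero]
      · intro hj
        exact absurd (Finset.mem_range.2 hb.2) hj
      · intro i _ hi
        refine Finset.sum_eq_zero fun j _ => ?_
        rw [coeff_monomial]
        split_ifs
        · rw [coeff_monomial, if_neg (Ne.symm hi), mul_zero]
        · rw [coeff_zero, mul_zero]
      · intro hi
        exact absurd (Finset.mem_range.2 hb.1) hi

/-- The functional `Lf φ (uP * _)`. -/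
def klrec (k0 k1 k2 : ℂ) (φ : ℕ → ℕ → ℂ) (i j : ℕ) : ℂ :=
  k0 * φ (i + 2) j + k1 * φ (i + 1) (j + 1) - k2 * φ i (j + 1)

theorem kl_Lf_zero (P : ℂ[X][X]) : Lf (fun _ _ => 0) P = 0 := by
  refine kl_ind (p := fun P => Lf (fun _ _ => 0) P = 0) ?_ ?_ P
  · intro P Q hP hQ
    rw [Lf_add, hP, hQ, add_zero]
  · intro i j c
    rw [kl_Lf_monomial, zero_mul]

theorem kl_Lf_neg (φ : ℕ → ℕ → ℂ) (P : ℂ[X][X]) : Lf φ (-P) = -Lf φ P := by
  have h := Lf_add φ P (-P)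
  have h0 : Lf φ 0 = 0 := by
    unfold Lf
    exact Polynomial.sum_zero_index _
  rw [add_neg_cancel, h0] at h
  linear_combination -h

theorem kl_Lf_uP (k0 k1 k2 : ℂ) (φ : ℕ → ℕ → ℂ) (P : ℂ[X][X]) :
    Lf φ (uP k0 k1 k2 * P) = Lf (klrec k0 k1 k2 φ) P := by
  refine kl_ind (p := fun P => Lf φ (uP k0 k1 k2 * P) = Lf (klrec k0 k1 k2 φ) P) ?_ ?_ P
  · intro P Q hP hQ
    rw [mul_add, Lf_add, Lf_add, hP, hQ]
  · intro i j c
    have h : uP k0 k1 k2 * monomial j (monomial i c) =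
        monomial j (monomial (i + 2) (k0 * c)) + monomial (j + 1) (monomial (i + 1) (k1 * c)) +
          -(monomial (j + 1) (monomial i (k2 * c))) := by
      unfold uP
      simp only [← C_mul_X_pow_eq_monomial, map_mul, map_sub, map_pow, pow_add]
      ring
    rw [h, Lf_add, Lf_add, kl_Lf_neg, kl_Lf_monomial, kl_Lf_monomial, kl_Lf_monomial,
      kl_Lf_monomial, klrec]
    ring

theorem kl_Lf_X (φ : ℕ → ℕ → ℂ) (P : ℂ[X][X]) :
    Lf φ (X * P) = Lf (fun i j => φ i (j + 1)) P := by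
  refine kl_ind (p := fun P => Lf φ (X * P) = Lf (fun i j => φ i (j + 1)) P) ?_ ?_ P
  · intro P Q hP hQ
    rw [mul_add, Lf_add, Lf_add, hP, hQ]
  · intro i j c
    rw [X_mul_monomial, kl_Lf_monomial, kl_Lf_monomial]

theorem kl_Lf_X_pow (φ : ℕ → ℕ → ℂ) (n : ℕ) (P : ℂ[X][X]) :
    Lf φ (X ^ n * P) = Lf (fun i j => φ i (j + n)) P := by
  refine kl_ind (p := fun P => Lf φ (X ^ n * P) = Lf (fun i j => φ i (j + n)) P) ?_ ?_ P
  · intro P Q hP hQ
    rw [mul_add, Lf_add, Lf_add, hP, hQ]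
  · intro i j c
    rw [X_pow_mul_monomial, kl_Lf_monomial, kl_Lf_monomial]

theorem kl_Lf_X_pow_zero (φ : ℕ → ℕ → ℂ) (n : ℕ) (h : ∀ i j, n ≤ j → φ i j = 0) (P : ℂ[X][X]) :
    Lf φ (X ^ n * P) = 0 := by
  rw [kl_Lf_X_pow]
  have : (fun i j => φ i (j + n)) = fun _ _ => 0 := by
    funext i j
    exact h i _ (Nat.le_add_left _ _)
  rw [this, kl_Lf_zero]

section values

variable (k0 k1 k2 : ℂ)

theorem kl_fA_j (i j : ℕ) (h : 6 ≤ j) : fA k0 k1 k2 i j = 0 := by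
  unfold fA
  rw [if_neg (by omega)]

theorem kl_fB0_j (i j : ℕ) (h : 5 ≤ j) : fB0 k0 k1 k2 i j = 0 := by
  unfold fB0
  rw [if_neg (by omega)]

theorem kl_fB_j (i j : ℕ) (h : 5 ≤ j) : fB k0 k1 k2 i j = 0 := by
  unfold fB
  rw [if_neg (by omega)]

theorem kl_fC0_j (i j : ℕ) (h : 4 ≤ j) : fC0 k0 k1 k2 i j = 0 := by
  unfold fC0
  rw [if_neg (by omega)]

theorem kl_fC1_j (i j : ℕ) (h : 4 ≤ j) : fC1 k0 k1 k2 i j = 0 := by
  unfold fC1
  rw [if_neg (by omega)]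

theorem kl_fC_j (i j : ℕ) (h : 4 ≤ j) : fC k0 k1 k2 i j = 0 := by
  unfold fC
  rw [if_neg (by omega)]

theorem kl_fA_i (i j : ℕ) (h : 12 ≤ i + 2 * j) : fA k0 k1 k2 i j = 0 := by
  unfold fA
  split_ifs with h1
  · rw [Nat.choose_eq_zero_of_lt (by omega)]
    simp
  · rfl

theorem kl_fB0_i (i j : ℕ) (h : 10 ≤ i + 2 * j) : fB0 k0 k1 k2 i j = 0 := by
  unfold fB0
  split_ifs with h1
  · rw [Nat.choose_eq_zero_of_lt (by omega)]
    simp
  · rfl

theorem kl_fB_i (i j : ℕ) (h : 10 ≤ i + 2 * j) : fB k0 k1 k2 i j = 0 := by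
  unfold fB
  split_ifs with h1
  · rw [Nat.choose_eq_zero_of_lt (by omega)]
    simp
  · rfl

theorem kl_fC0_i (i j : ℕ) (h : 8 ≤ i + 2 * j) : fC0 k0 k1 k2 i j = 0 := by
  unfold fC0
  split_ifs with h1
  · rw [Nat.choose_eq_zero_of_lt (by omega)]
    simp
  · rfl

theorem kl_fC1_i (i j : ℕ) (h : 8 ≤ i + 2 * j) : fC1 k0 k1 k2 i j = 0 := by
  unfold fC1
  split_ifs with h1
  · rw [Nat.choose_eq_zero_of_lt (by omega)]
    simp
  · rfl

theorem kl_fC_i (i j : ℕ) (h : 8 ≤ i + 2 * j) : fC k0 k1 k2 i j = 0 := by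
  unfold fC
  split_ifs with h1
  · rw [Nat.choose_eq_zero_of_lt (by omega)]
    simp
  · rfl

theorem kl_rec_fA : klrec k0 k1 k2 (fA k0 k1 k2) = fun _ _ => 0 := by
  funext i j
  unfold klrec
  by_cases h : 10 ≤ i + 2 * j
  · rw [kl_fA_i _ _ _ _ _ (by omega), kl_fA_i _ _ _ _ _ (by omega), kl_fA_i _ _ _ _ _ (by omega)]
    ring
  · have hj : j ≤ 4 := by omega
    interval_cases j
    all_goals
      have hi : i ≤ 9 := by omega
      interval_cases i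
      all_goals first | (exfalso; omega) | (simp [fA, Nat.choose]; try ring)

theorem kl_rec_fB0 : klrec k0 k1 k2 (fB0 k0 k1 k2) = fun _ _ => 0 := by
  funext i j
  unfold klrec
  by_cases h : 8 ≤ i + 2 * j
  · rw [kl_fB0_i _ _ _ _ _ (by omega), kl_fB0_i _ _ _ _ _ (by omega),
      kl_fB0_i _ _ _ _ _ (by omega)]
    ring
  · have hj : j ≤ 3 := by omega
    interval_cases j
    all_goals
      have hi : i ≤ 7 := by omega
      interval_cases i
      all_goals first | (exfalso; omega) | (simp [fB0, Nat.choose]; try ring)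

theorem kl_rec_fC0 : klrec k0 k1 k2 (fC0 k0 k1 k2) = fun _ _ => 0 := by
  funext i j
  unfold klrec
  by_cases h : 6 ≤ i + 2 * j
  · rw [kl_fC0_i _ _ _ _ _ (by omega), kl_fC0_i _ _ _ _ _ (by omega),
      kl_fC0_i _ _ _ _ _ (by omega)]
    ring
  · have hj : j ≤ 2 := by omega
    interval_cases j
    all_goals
      have hi : i ≤ 5 := by omega
      interval_cases i
      all_goals first | (exfalso; omega) | (simp [fC0]; try ring)

theorem kl_rec_fB : klrec k0 k1 k2 (fB k0 k1 k2) = fun i j => fB0 k0 k1 k2 i (j + 1) := by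
  funext i j
  unfold klrec
  by_cases h : 8 ≤ i + 2 * j
  · rw [kl_fB_i _ _ _ _ _ (by omega), kl_fB_i _ _ _ _ _ (by omega),
      kl_fB_i _ _ _ _ _ (by omega), kl_fB0_i _ _ _ _ _ (by omega)]
    ring
  · have hj : j ≤ 3 := by omega
    interval_cases j
    all_goals
      have hi : i ≤ 7 := by omega
      interval_cases i
      all_goals first | (exfalso; omega) | (simp [fB, fB0, Nat.choose]; try ring)

theorem kl_rec_fC1 : klrec k0 k1 k2 (fC1 k0 k1 k2) = fun i j => fC0 k0 k1 k2 i (j + 1) := by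
  funext i j
  unfold klrec
  by_cases h : 6 ≤ i + 2 * j
  · rw [kl_fC1_i _ _ _ _ _ (by omega), kl_fC1_i _ _ _ _ _ (by omega),
      kl_fC1_i _ _ _ _ _ (by omega), kl_fC0_i _ _ _ _ _ (by omega)]
    ring
  · have hj : j ≤ 2 := by omega
    interval_cases j
    all_goals
      have hi : i ≤ 5 := by omega
      interval_cases i
      all_goals first | (exfalso; omega) | (simp [fC1, fC0]; try ring)

theorem kl_rec_fC : klrec k0 k1 k2 (fC k0 k1 k2) = fun i j => fC1 k0 k1 k2 i (j + 1) := by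
  funext i j
  unfold klrec
  by_cases h : 6 ≤ i + 2 * j
  · rw [kl_fC_i _ _ _ _ _ (by omega), kl_fC_i _ _ _ _ _ (by omega),
      kl_fC_i _ _ _ _ _ (by omega), kl_fC1_i _ _ _ _ _ (by omega)]
    ring
  · have hj : j ≤ 2 := by omega
    interval_cases j
    all_goals
      have hi : i ≤ 5 := by omega
      interval_cases i
      all_goals first | (exfalso; omega) | (simp [fC, fC1]; try ring)

theorem kl_A (P : ℂ[X][X]) : Lf (fA k0 k1 k2) (uP k0 k1 k2 * P) = 0 := by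
  rw [kl_Lf_uP, kl_rec_fA, kl_Lf_zero]

theorem kl_B0 (P : ℂ[X][X]) : Lf (fB0 k0 k1 k2) (uP k0 k1 k2 * P) = 0 := by
  rw [kl_Lf_uP, kl_rec_fB0, kl_Lf_zero]

theorem kl_C0 (P : ℂ[X][X]) : Lf (fC0 k0 k1 k2) (uP k0 k1 k2 * P) = 0 := by
  rw [kl_Lf_uP, kl_rec_fC0, kl_Lf_zero]

theorem kl_B (P : ℂ[X][X]) :
    Lf (fB k0 k1 k2) (uP k0 k1 k2 * P) = Lf (fB0 k0 k1 k2) (X * P) := by
  rw [kl_Lf_uP, kl_rec_fB, kl_Lf_X]

theorem kl_C1 (P : ℂ[X][X]) :
    Lf (fC1 k0 k1 k2) (uP k0 k1 k2 * P) = Lf (fC0 k0 k1 k2) (X * P) := by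
  rw [kl_Lf_uP, kl_rec_fC1, kl_Lf_X]

theorem kl_C (P : ℂ[X][X]) :
    Lf (fC k0 k1 k2) (uP k0 k1 k2 * P) = Lf (fC1 k0 k1 k2) (X * P) := by
  rw [kl_Lf_uP, kl_rec_fC, kl_Lf_X]

end values

/-- `φ` vanishes on the cube of the ideal `(u, y ^ 2)`. -/
def Kills (k0 k1 k2 : ℂ) (φ : ℕ → ℕ → ℂ) : Prop :=
  ∀ P : ℂ[X][X], Lf φ (uP k0 k1 k2 ^ 3 * P) = 0 ∧ Lf φ (uP k0 k1 k2 ^ 2 * X ^ 2 * P) = 0 ∧
    Lf φ (uP k0 k1 k2 * X ^ 4 * P) = 0 ∧ Lf φ (X ^ 6 * P) = 0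

theorem killsA (k0 k1 k2 : ℂ) : Kills k0 k1 k2 (fA k0 k1 k2) := by
  intro P
  refine ⟨?_, ?_, ?_, ?_⟩
  · have h : uP k0 k1 k2 ^ 3 * P = uP k0 k1 k2 * (uP k0 k1 k2 ^ 2 * P) := by ring
    rw [h, kl_A]
  · have h : uP k0 k1 k2 ^ 2 * X ^ 2 * P = uP k0 k1 k2 * (uP k0 k1 k2 * X ^ 2 * P) := by ring
    rw [h, kl_A]
  · rw [mul_assoc, kl_A]
  · exact kl_Lf_X_pow_zero _ 6 (fun i j h => kl_fA_j k0 k1 k2 i j h) P

theorem killsB (k0 k1 k2 : ℂ) : Kills k0 k1 k2 (fB k0 k1 k2) := by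
  intro P
  refine ⟨?_, ?_, ?_, ?_⟩
  · have h : uP k0 k1 k2 ^ 3 * P = uP k0 k1 k2 * (uP k0 k1 k2 * (uP k0 k1 k2 * P)) := by ring
    have h' : X * (uP k0 k1 k2 * (uP k0 k1 k2 * P)) =
      uP k0 k1 k2 * (X * (uP k0 k1 k2 * P)) := by ring
    rw [h, kl_B, h', kl_B0]
  · have h : uP k0 k1 k2 ^ 2 * X ^ 2 * P = uP k0 k1 k2 * (uP k0 k1 k2 * (X ^ 2 * P)) := by ring
    have h' : X * (uP k0 k1 k2 * (X ^ 2 * P)) = uP k0 k1 k2 * (X ^ 3 * P) := by ring
    rw [h, kl_B, h', kl_B0]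
  · have h' : X * (X ^ 4 * P) = X ^ 5 * P := by ring
    rw [mul_assoc, kl_B, h']
    exact kl_Lf_X_pow_zero _ 5 (fun i j h => kl_fB0_j k0 k1 k2 i j h) P
  · exact kl_Lf_X_pow_zero _ 6 (fun i j h => kl_fB_j k0 k1 k2 i j (by omega)) P

theorem killsC (k0 k1 k2 : ℂ) : Kills k0 k1 k2 (fC k0 k1 k2) := by
  intro P
  refine ⟨?_, ?_, ?_, ?_⟩
  · have h : uP k0 k1 k2 ^ 3 * P = uP k0 k1 k2 * (uP k0 k1 k2 * (uP k0 k1 k2 * P)) := by ring
    have h' : X * (uP k0 k1 k2 * (uP k0 k1 k2 * P)) =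
      uP k0 k1 k2 * (uP k0 k1 k2 * (X * P)) := by ring
    have h2 : X * (uP k0 k1 k2 * (X * P)) = uP k0 k1 k2 * (X ^ 2 * P) := by ring
    rw [h, kl_C, h', kl_C1, h2, kl_C0]
  · have h : uP k0 k1 k2 ^ 2 * X ^ 2 * P = uP k0 k1 k2 * (uP k0 k1 k2 * (X ^ 2 * P)) := by ring
    have h' : X * (uP k0 k1 k2 * (X ^ 2 * P)) = uP k0 k1 k2 * (X ^ 3 * P) := by ring
    have h2 : X * (X ^ 3 * P) = X ^ 4 * P := by ring
    rw [h, kl_C, h', kl_C1, h2]
    exact kl_Lf_X_pow_zero _ 4 (fun i j h => kl_fC0_j k0 k1 k2 i j h) P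
  · have h' : X * (X ^ 4 * P) = X ^ 5 * P := by ring
    rw [mul_assoc, kl_C, h']
    exact kl_Lf_X_pow_zero _ 5 (fun i j h => kl_fC1_j k0 k1 k2 i j (by omega)) P
  · exact kl_Lf_X_pow_zero _ 6 (fun i j h => kl_fC_j k0 k1 k2 i j (by omega)) P

end H37.LM
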