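import Pool.Agent.H37.LM.Fun

/-!
# Basic properties of bi-Lipschitz right equivalence   [H37 LM LipBasic]

* `LipEquiv.symm`: exchange `φ` and `ψ`; `g p = f (ψ p)` near `0` since `φ (ψ p) = p` and
  `f (ψ p) = g (φ (ψ p))` (use `Tendsto ψ (𝓝 0) (𝓝 0)`, which holds because `ψ` is Lipschitz near
  `0` and `ψ 0 = 0`).
* `LipEquiv.trans`: compose; choose a smaller radius `r` with `φ '' ball 0 r ⊆ ball 0 r'` etc.
* `lipEquiv_comp`: `f ∘ Φ` is equivalent to `f` if `Φ` is a germ of `C¹` diffeomorphism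
  fixing `0`: inverse function theorem (`ContDiffAt.toOpenPartialHomeomorph`,
  `ContDiffAt.to_localInverse`), and `ContDiffAt.exists_lipschitzOnWith` for `Φ` and its local
  inverse.
-/

noncomputable section

open Set Filter Topology
open scoped ContDiff

namespace H37.LM

theorem lipBasic_tendsto {φ : ℂ × ℂ → ℂ × ℂ} {r : ℝ} {K : NNReal} (hr : 0 < r) (h0 : φ 0 = 0)
    (h : LipschitzOnWith K φ (Metric.ball 0 r)) : Tendsto φ (𝓝 0) (𝓝 0) := by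
  have h1 : ContinuousAt φ 0 := h.continuousOn.continuousAt (Metric.ball_mem_nhds 0 hr)
  have h2 := h1.tendsto
  rwa [h0] at h2

theorem LipEquiv.refl (f : ℂ × ℂ → ℂ) : LipEquiv f f := by
  refine ⟨id, id, 1, 1, one_pos, rfl, rfl, LipschitzWith.id.lipschitzOnWith,
    LipschitzWith.id.lipschitzOnWith, Eventually.of_forall fun p => ⟨rfl, rfl, rfl⟩⟩

theorem LipEquiv.symm {f g : ℂ × ℂ → ℂ} (h : LipEquiv f g) : LipEquiv g f := by
  obtain ⟨φ, ψ, r, K, hr, hφ0, hψ0, hφ, hψ, hev⟩ := h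
  have ht := lipBasic_tendsto hr hψ0 hψ
  refine ⟨ψ, φ, r, K, hr, hψ0, hφ0, hψ, hφ, ?_⟩
  filter_upwards [hev, ht.eventually hev] with p hp hq
  refine ⟨hp.2.1, hp.1, ?_⟩
  rw [hq.2.2, hp.2.1]

theorem LipEquiv.trans {f g h : ℂ × ℂ → ℂ} (h1 : LipEquiv f g) (h2 : LipEquiv g h) :
    LipEquiv f h := by
  obtain ⟨φ1, ψ1, r1, K1, hr1, hφ10, hψ10, hφ1, hψ1, hev1⟩ := h1
  obtain ⟨φ2, ψ2, r2, K2, hr2, hφ20, hψ20, hφ2, hψ2, hev2⟩ := h2
  have ht1 := lipBasic_tendsto hr1 hφ10 hφ1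
  have ht2 := lipBasic_tendsto hr2 hψ20 hψ2
  have m1 : φ1 ⁻¹' Metric.ball 0 r2 ∈ 𝓝 (0 : ℂ × ℂ) := ht1 (Metric.ball_mem_nhds 0 hr2)
  have m2 : ψ2 ⁻¹' Metric.ball 0 r1 ∈ 𝓝 (0 : ℂ × ℂ) := ht2 (Metric.ball_mem_nhds 0 hr1)
  obtain ⟨s1, hs1, hb1⟩ := Metric.mem_nhds_iff.1 m1
  obtain ⟨s2, hs2, hb2⟩ := Metric.mem_nhds_iff.1 m2
  set r : ℝ := min (min r1 r2) (min s1 s2) with hr
  have hrpos : 0 < r := lt_min (lt_min hr1 hr2) (lt_min hs1 hs2)
  have hrr1 : r ≤ r1 := (min_le_left _ _).trans (min_le_left _ _)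
  have hrr2 : r ≤ r2 := (min_le_left _ _).trans (min_le_right _ _)
  have hrs1 : r ≤ s1 := (min_le_right _ _).trans (min_le_left _ _)
  have hrs2 : r ≤ s2 := (min_le_right _ _).trans (min_le_right _ _)
  have l1 : LipschitzOnWith (K2 * K1) (φ2 ∘ φ1) (Metric.ball 0 r) := by
    refine hφ2.comp (hφ1.mono (Metric.ball_subset_ball hrr1)) ?_
    intro p hp
    exact hb1 (Metric.ball_subset_ball hrs1 hp)
  have l2 : LipschitzOnWith (K1 * K2) (ψ1 ∘ ψ2) (Metric.ball 0 r) := by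
    refine hψ1.comp (hψ2.mono (Metric.ball_subset_ball hrr2)) ?_
    intro p hp
    exact hb2 (Metric.ball_subset_ball hrs2 hp)
  rw [mul_comm] at l1
  refine ⟨φ2 ∘ φ1, ψ1 ∘ ψ2, r, K1 * K2, hrpos, ?_, ?_, l1, l2, ?_⟩
  · rw [Function.comp_apply, hφ10, hφ20]
  · rw [Function.comp_apply, hψ20, hψ10]
  · filter_upwards [hev1, hev2, ht1.eventually hev2, ht2.eventually hev1] with p a1 a2 a3 a4
    refine ⟨?_, ?_, ?_⟩
    · simp only [Function.comp_apply]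
      rw [a3.1, a1.1]
    · simp only [Function.comp_apply]
      rw [a4.2.1, a2.2.1]
    · simp only [Function.comp_apply]
      rw [a1.2.2, a3.2.2]

/-- `f ∘ Φ ∼ f` for a germ of `C¹` diffeomorphism `Φ` with `Φ 0 = 0`. -/
theorem lipEquiv_comp (f : ℂ × ℂ → ℂ) (Φ : ℂ × ℂ → ℂ × ℂ) (h0 : Φ 0 = 0)
    (hΦ : ContDiffAt ℝ 1 Φ 0) (L : (ℂ × ℂ) ≃L[ℝ] (ℂ × ℂ))
    (hL : HasFDerivAt Φ (L : (ℂ × ℂ) →L[ℝ] (ℂ × ℂ)) 0) : LipEquiv (f ∘ Φ) f := by
  have hs : HasStrictFDerivAt Φ (L : (ℂ × ℂ) →L[ℝ] (ℂ × ℂ)) 0 :=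
    hΦ.hasStrictFDerivAt' hL one_ne_zero
  set ψ := hs.localInverse Φ L 0 with hψ
  have hψ0 : ψ 0 = 0 := by
    have := hs.localInverse_apply_image
    rw [h0] at this
    exact this
  have hψd : ContDiffAt ℝ 1 ψ 0 := by
    have := hΦ.to_localInverse hL one_ne_zero
    rw [h0] at this
    exact this
  obtain ⟨K1, t1, ht1, hl1⟩ := hΦ.exists_lipschitzOnWith
  obtain ⟨K2, t2, ht2, hl2⟩ := hψd.exists_lipschitzOnWith
  obtain ⟨r1, hr1, hb1⟩ := Metric.mem_nhds_iff.1 ht1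
  obtain ⟨r2, hr2, hb2⟩ := Metric.mem_nhds_iff.1 ht2
  refine ⟨Φ, ψ, min r1 r2, max K1 K2, lt_min hr1 hr2, h0, hψ0, ?_, ?_, ?_⟩
  · exact (hl1.mono ((Metric.ball_subset_ball (min_le_left _ _)).trans hb1)).weaken
      (le_max_left _ _)
  · exact (hl2.mono ((Metric.ball_subset_ball (min_le_right _ _)).trans hb2)).weaken
      (le_max_right _ _)
  · have e1 := hs.eventually_left_inverse
    have e2 := hs.eventually_right_inverse
    rw [h0] at e2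
    filter_upwards [e1, e2] with p a1 a2
    exact ⟨a1, a2, rfl⟩

/-- Linear changes of coordinates. -/
theorem lipEquiv_linear (f : ℂ × ℂ → ℂ) (a b c d : ℂ) (h : a * d - b * c ≠ 0) :
    LipEquiv (fun p => f (a * p.1 + b * p.2, c * p.1 + d * p.2)) f := by
  set F1 := ContinuousLinearMap.fst ℂ ℂ ℂ with hF1
  set F2 := ContinuousLinearMap.snd ℂ ℂ ℂ with hF2
  set A : (ℂ × ℂ) →L[ℂ] (ℂ × ℂ) := (a • F1 + b • F2).prod (c • F1 + d • F2) with hA
  set δ : ℂ := a * d - b * c with hδ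
  set B : (ℂ × ℂ) →L[ℂ] (ℂ × ℂ) :=
    ((d / δ) • F1 + (-b / δ) • F2).prod ((-c / δ) • F1 + (a / δ) • F2) with hB
  have hA' : ∀ p : ℂ × ℂ, A p = (a * p.1 + b * p.2, c * p.1 + d * p.2) := fun p => by
    simp [hA, hF1, hF2]
  have hB' : ∀ p : ℂ × ℂ, B p = (d / δ * p.1 + -b / δ * p.2, -c / δ * p.1 + a / δ * p.2) :=
    fun p => by simp [hB, hF1, hF2]
  have hBA : ∀ p : ℂ × ℂ, B (A p) = p := by
    intro p
    rw [hB', hA']
    refine Prod.ext ?_ ?_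
    · simp only
      field_simp
      rw [hδ]
      ring
    · simp only
      field_simp
      rw [hδ]
      ring
  have hAB : ∀ p : ℂ × ℂ, A (B p) = p := by
    intro p
    rw [hA', hB']
    refine Prod.ext ?_ ?_
    · simp only
      field_simp
      rw [hδ]
      ring
    · simp only
      field_simp
      rw [hδ]
      ring
  refine ⟨A, B, 1, max ‖A‖₊ ‖B‖₊, one_pos, map_zero A, map_zero B, ?_, ?_, ?_⟩
  · exact (A.lipschitz.weaken (le_max_left _ _)).lipschitzOnWith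
  · exact (B.lipschitz.weaken (le_max_right _ _)).lipschitzOnWith
  · refine Eventually.of_forall fun p => ⟨hBA p, hAB p, ?_⟩
    simp only
    rw [hA']

/-- Equality near the origin is enough. -/
theorem LipEquiv.congr {f f' g g' : ℂ × ℂ → ℂ} (h : LipEquiv f g)
    (hf : f =ᶠ[𝓝 0] f') (hg : g =ᶠ[𝓝 0] g') : LipEquiv f' g' := by
  obtain ⟨φ, ψ, r, K, hr, hφ0, hψ0, hφ, hψ, hev⟩ := h
  have ht := lipBasic_tendsto hr hφ0 hφ
  refine ⟨φ, ψ, r, K, hr, hφ0, hψ0, hφ, hψ, ?_⟩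
  filter_upwards [hev, hf, ht.eventually hg] with p a1 a2 a3
  refine ⟨a1.1, a1.2.1, ?_⟩
  rw [← a2, a1.2.2, a3]

end H37.LM
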