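import Pool.Agent.H37.LM.QuadDef

/-!
# Reduction modulo the critical locus   [H37 LM Mem]

`w' = X - C c`; `D2 D w' = - C (D1 D c)`, `th2 F w' = - C (th F c)` (`D2_X`, `D2_C`, `th2_X`,
`th2_C`), and `D2 D`, `th2 F` are additive and satisfy the Leibniz rule (`D2_isDer`, `th2_isDer`,
`IsDer.sq`, `IsDer.pow`).

* `lin_mem`: `D2 D (w' ^ 2 * H) = w' * (2 * D2 D w' * H + w' * D2 D H)`, same for `th2 F`.
* `quad_mem`: with `P = w' ^ 2 - C κ`,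
  `D2 D f = C (D f0) + C (D g1) (w' ^ 3 - 3 κ w') + C g1 (3 w' ^ 2 (- D c) - 3 (D κ) w' + 3 κ D c)
    + P (2 H (- 2 w' D c - D κ) + P D2 D H)`.
  Modulo `P`: `w' ^ 2 ≡ κ`, `w' ^ 3 ≡ κ w'`, so this is `D f0 + (- 2 κ D g1 - 3 g1 D κ) w'`.
  The same computation for `e f + th2 f`:
  `e (g1 (w' ^ 3 - 3 κ w')) ≡ - 2 e κ g1 w'`.
* `quad_solved`: multiply: `(C s0 + C s1 w') (C q0 + C q1 w') ≡ (q0 s0 + κ q1 s1) +
  (q0 s1 + q1 s0) w'` modulo `P`.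
* `not_both`: if `f = P ^ 2 * H` then `P` divides `Qh e f` and `Wh f`; similarly for `(X - C c) ^ 2 * H`.
-/

noncomputable section

open PowerSeries

namespace H37.LM

variable {F : Type*} [Field F]

theorem mem_deriv_mul {R : Type*} [CommRing R] (a b : R⟦X⟧) :
    PowerSeries.derivative R (a * b) =
      a * PowerSeries.derivative R b + b * PowerSeries.derivative R a := by
  rw [Derivation.leibniz]
  simp only [smul_eq_mul]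

theorem mem_Wh_mul (a b : F⟦X⟧⟦X⟧) : Wh (a * b) = a * Wh b + b * Wh a := mem_deriv_mul a b

theorem mem_lin_gen (δ : F⟦X⟧⟦X⟧ →+ F⟦X⟧⟦X⟧) (hδ : IsDer δ) (d : F⟦X⟧ → F⟦X⟧)
    (hC : ∀ r, δ (C r) = C (d r)) (f : F⟦X⟧⟦X⟧) (c v : F⟦X⟧) (H : F⟦X⟧⟦X⟧)
    (hf : f = C v + (X - C c) ^ 2 * H) :
    ∃ E, δ f = C (d v) + (X - C c) * E := by
  refine ⟨(X - C c) * δ H + 2 * H * δ (X - C c), ?_⟩
  rw [hf, map_add, hC, hδ, hδ.sq]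
  ring

theorem mem_quad_gen (δ : F⟦X⟧⟦X⟧ →+ F⟦X⟧⟦X⟧) (hδ : IsDer δ) (d : F⟦X⟧ → F⟦X⟧)
    (hC : ∀ r, δ (C r) = C (d r)) (f : F⟦X⟧⟦X⟧) (c κ f0 g1 : F⟦X⟧) (H : F⟦X⟧⟦X⟧)
    (hf : f = C f0 + C g1 * ((X - C c) ^ 3 - 3 * C κ * (X - C c)) +
        ((X - C c) ^ 2 - C κ) ^ 2 * H) :
    ∃ E, δ f = C (d f0) + C (-(2 * κ * d g1 + 3 * g1 * d κ)) * (X - C c) +
      ((X - C c) ^ 2 - C κ) * E := by
  set w : F⟦X⟧⟦X⟧ := X - C c with hw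
  have h3 : δ (3 * C κ) = 3 * C (d κ) := by
    have := hδ.nat_mul 3 (C κ)
    rw [hC] at this
    exact_mod_cast this
  have hw3 : δ (w ^ 3) = 3 * w ^ 2 * δ w := by
    have := hδ.pow w 3
    exact_mod_cast this
  have e1 : δ (w ^ 3 - 3 * C κ * w) = 3 * w ^ 2 * δ w - (3 * C κ * δ w + w * (3 * C (d κ))) := by
    rw [map_sub, hδ (3 * C κ) w, h3, hw3]
  have e2 : δ (w ^ 2 - C κ) = 2 * w * δ w - C (d κ) := by
    rw [map_sub, hδ.sq, hC]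
  refine ⟨3 * C g1 * δ w + C (d g1) * w + (w ^ 2 - C κ) * δ H + 2 * H * δ (w ^ 2 - C κ), ?_⟩
  rw [hf, map_add, map_add, hC, hδ (C g1), hC, e1, hδ ((w ^ 2 - C κ) ^ 2) H, hδ.sq, e2]
  simp only [map_neg, map_add, map_mul, map_ofNat]
  ring

theorem lin_mem (e : ℕ) (f : F⟦X⟧⟦X⟧) (c v : F⟦X⟧) (H : F⟦X⟧⟦X⟧)
    (hf : f = C v + (X - C c) ^ 2 * H) :
    (∀ D : Derivation ℤ F F, (X - C c) ∣ D2 D f - C (D1 D v)) ∧
      (X - C c) ∣ Qh e f - C (e * v + th F v) := by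
  constructor
  · intro D
    obtain ⟨E, hE⟩ := mem_lin_gen (D2 D) (D2_isDer D) (D1 D) (D2_C D) f c v H hf
    exact ⟨E, by rw [hE]; ring⟩
  · obtain ⟨E, hE⟩ := mem_lin_gen (th2 F) th2_isDer (th F) th2_C f c v H hf
    refine ⟨E + (e : F⟦X⟧⟦X⟧) * (X - C c) * H, ?_⟩
    unfold Qh
    rw [hE, map_add, map_mul, map_natCast]
    linear_combination (e : F⟦X⟧⟦X⟧) * hf

theorem quad_mem (e : ℕ) (f : F⟦X⟧⟦X⟧) (c κ f0 g1 : F⟦X⟧) (H : F⟦X⟧⟦X⟧)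
    (hf : f = C f0 + C g1 * ((X - C c) ^ 3 - 3 * C κ * (X - C c)) +
        ((X - C c) ^ 2 - C κ) ^ 2 * H) :
    (∀ D : Derivation ℤ F F,
      ((X - C c) ^ 2 - C κ) ∣ D2 D f - (C (D1 D f0) + C (T1q κ g1 D) * (X - C c))) ∧
      ((X - C c) ^ 2 - C κ) ∣ Qh e f - (C (Q0q e f0) + C (Q1q e κ g1) * (X - C c)) := by
  constructor
  · intro D
    obtain ⟨E, hE⟩ := mem_quad_gen (D2 D) (D2_isDer D) (D1 D) (D2_C D) f c κ f0 g1 H hf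
    refine ⟨E, ?_⟩
    unfold T1q
    rw [hE]
    ring
  · obtain ⟨E, hE⟩ := mem_quad_gen (th2 F) th2_isDer (th F) th2_C f c κ f0 g1 H hf
    refine ⟨E + (e : F⟦X⟧⟦X⟧) * (C g1 * (X - C c) + ((X - C c) ^ 2 - C κ) * H), ?_⟩
    unfold Qh Q0q Q1q
    rw [hE]
    simp only [map_neg, map_add, map_mul, map_ofNat, map_natCast]
    linear_combination (e : F⟦X⟧⟦X⟧) * hf

theorem quad_solved (e : ℕ) (f : F⟦X⟧⟦X⟧) (c κ f0 g1 : F⟦X⟧) (H : F⟦X⟧⟦X⟧)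
    (hf : f = C f0 + C g1 * ((X - C c) ^ 3 - 3 * C κ * (X - C c)) +
        ((X - C c) ^ 2 - C κ) ^ 2 * H)
    (D : Derivation ℤ F F) (s0 s1 : F⟦X⟧) (hs : QuadSol e f0 κ g1 s0 s1 D) :
    ((X - C c) ^ 2 - C κ) ∣ D2 D f - (C s0 + C s1 * (X - C c)) * Qh e f := by
  obtain ⟨h1, h2⟩ := quad_mem e f c κ f0 g1 H hf
  obtain ⟨E, hE⟩ := h1 D
  obtain ⟨E', hE'⟩ := h2
  obtain ⟨u1, u2⟩ := hs
  have v1 := congrArg (C (R := F⟦X⟧)) u1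
  have v2 := congrArg (C (R := F⟦X⟧)) u2
  simp only [map_add, map_mul] at v1 v2
  refine ⟨E - (C s0 + C s1 * (X - C c)) * E' - C (Q1q e κ g1) * C s1, ?_⟩
  linear_combination hE - (C s0 + C s1 * (X - C c)) * hE' + v1 + (X - C c) * v2

theorem lin_both (e : ℕ) (f : F⟦X⟧⟦X⟧) (c : F⟦X⟧) (H : F⟦X⟧⟦X⟧)
    (hf : f = (X - C c) ^ 2 * H) : (X - C c) ∣ Qh e f ∧ (X - C c) ∣ Wh f := by
  constructor
  · obtain ⟨-, E, hE⟩ := lin_mem e f c 0 H (by rw [hf, map_zero, zero_add])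
    refine ⟨E, ?_⟩
    rw [← hE]
    simp
  · refine ⟨2 * Wh (X - C c) * H + (X - C c) * Wh H, ?_⟩
    rw [hf, mem_Wh_mul, pow_two, mem_Wh_mul]
    ring

theorem quad_both (e : ℕ) (f : F⟦X⟧⟦X⟧) (c κ : F⟦X⟧) (H : F⟦X⟧⟦X⟧)
    (hf : f = ((X - C c) ^ 2 - C κ) ^ 2 * H) :
    ((X - C c) ^ 2 - C κ) ∣ Qh e f ∧ ((X - C c) ^ 2 - C κ) ∣ Wh f := by
  constructor
  · obtain ⟨-, E, hE⟩ := quad_mem e f c κ 0 0 H (by rw [hf, map_zero, zero_mul]; ring)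
    refine ⟨E, ?_⟩
    rw [← hE]
    unfold Q0q Q1q
    simp
  · refine ⟨2 * Wh ((X - C c) ^ 2 - C κ) * H + ((X - C c) ^ 2 - C κ) * Wh H, ?_⟩
    generalize (X - C c) ^ 2 - C κ = P at hf ⊢
    rw [hf, mem_Wh_mul, pow_two, mem_Wh_mul]
    ring

end H37.LM
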