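import Pool.Agent.H37.LM.QuadE

/-!
# The quadratic system, conclusions   [H37 LM QuadAll]

Every nonzero `f ∈ F⟦X⟧` is `X ^ n * u` with `constantCoeff u ≠ 0`, `n = ord f`.

* `quadOne` (`κ = X * k`, so `A = 1`): let `B = ord f0`, `C' = ord g1` (if nonzero).
  - `f0 ≠ 0`, `g1 = 0`: `quadB` with `A = 1`, `C' := B`; `w1_dvd` gives `X ^ (1 + 2 B) ∣ W1q`.
  - `f0 ≠ 0`, `g1 ≠ 0`, `2 B < 3 + 2 C'`: then `B ≤ C' + 1` and `2 B ≤ 1 + B + C'`: `quadB`, `w1_dvd`.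
  - `g1 ≠ 0` and (`f0 = 0` or `2 B > 3 + 2 C'`): `quadC` with `B := C' + 2` (`X ^ (C' + 2) ∣ f0`), and
    `3 + 2 C' ≤ 1 + (C' + 2) + C'`: `w1_dvd`.
  Then `quadSol_linear`.
* `r3alg`: `C' = 0` (`g1` is a unit).  Let `A = ord κ` if `κ ≠ 0`, `B = ord f0` if `f0 ≠ 0`.
  - `X ^ 6 ∣ κ` (in particular `κ = 0`): then `X ^ 9` does not divide `f0`, so `f0 ≠ 0`, `B ≤ 8`:
    `quadB` with `A := 6`, `2 B < 18`; `X ^ (6 + B) ∣ W1q` and `2 B ≤ (6 + B) + 2`: `codimTwo_of_dvd`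
    with `φ = W1lin`.
  - `1 ≤ A ≤ 5`, `f0 ≠ 0`, `2 B < 3 A`: `quadB`; `2 B ≤ (A + B) + 2` in all cases.
  - `1 ≤ A ≤ 5`, `X ^ B ∣ f0` for some `B` with `2 B > 3 A`; take `B` minimal
    (`A = 1, 2, 3, 4, 5`: `B = 2, 4, 5, 7, 8`): `quadC`; `3 A ≤ (A + B) + 2`.
  - `2 B = 3 A`: `A = 2 m`, `m ∈ {1, 2}`: `κ = X ^ (2 m) * k = (X ^ m * s) ^ 2` with `s ^ 2 = k`
    (`sqrt_ps`): `quadE` (`hG3` for `c` and `- c`).
-/

noncomputable section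

open PowerSeries

namespace H37.LM

variable {F : Type*} [Field F] [CharZero F]

theorem quadOne (e : ℕ) (he : 1 ≤ e) (f0 κ g1 k : F⟦X⟧) (hκ : κ = X * k)
    (hk : constantCoeff k ≠ 0) (h : f0 ≠ 0 ∨ g1 ≠ 0) :
    ∃ S0 S1 : Derivation ℤ F F →ₗ[F] F⟦X⟧, ∀ D, QuadSol e f0 κ g1 (S0 D) (S1 D) D := by
  have hκ1 : κ = X ^ 1 * k := by rw [pow_one]; exact hκ
  have hκd : (X : F⟦X⟧) ^ 1 ∣ κ := ⟨k, hκ1⟩
  suffices H : Dlt e f0 κ g1 ≠ 0 ∧ ∀ D : Derivation ℤ F F,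
      ∃ s0 s1, QuadSol e f0 κ g1 s0 s1 D from quadSol_linear e f0 κ g1 H.1 H.2
  by_cases hg : g1 = 0
  · have hf : f0 ≠ 0 := by
      rcases h with h | h
      · exact h
      · exact absurd hg h
    obtain ⟨B, u, hfu, hu⟩ := exists_ord f0 hf
    have hgd : (X : F⟦X⟧) ^ B ∣ g1 := by rw [hg]; exact dvd_zero _
    obtain ⟨h1, h2⟩ := quadB e he f0 κ g1 u 1 B B hfu hu hκd hgd (by omega)
    exact ⟨h1, fun D => h2 D ((pow_dvd_pow _ (by omega)).trans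
      (w1_dvd e f0 κ g1 1 B B ⟨u, hfu⟩ hκd hgd D))⟩
  · obtain ⟨C', g, hgg, hgc⟩ := exists_ord g1 hg
    have hgd : (X : F⟦X⟧) ^ C' ∣ g1 := ⟨g, hgg⟩
    by_cases hbig : (X : F⟦X⟧) ^ (C' + 2) ∣ f0
    · obtain ⟨h1, h2⟩ := quadC e he f0 κ g1 k g 1 (C' + 2) C' hbig hκ1 hk hgg hgc (by omega)
      exact ⟨h1, fun D => h2 D ((pow_dvd_pow _ (by omega)).trans
        (w1_dvd e f0 κ g1 1 (C' + 2) C' hbig hκd hgd D))⟩
    · have hf : f0 ≠ 0 := by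
        rintro rfl
        exact hbig (dvd_zero _)
      obtain ⟨B, u, hfu, hu⟩ := exists_ord f0 hf
      have hB : B < C' + 2 := by
        by_contra hlt
        exact hbig ((pow_dvd_pow _ (not_lt.1 hlt)).trans ⟨u, hfu⟩)
      obtain ⟨h1, h2⟩ := quadB e he f0 κ g1 u 1 B C' hfu hu hκd hgd (by omega)
      exact ⟨h1, fun D => h2 D ((pow_dvd_pow _ (by omega)).trans
        (w1_dvd e f0 κ g1 1 B C' ⟨u, hfu⟩ hκd hgd D))⟩

theorem r3alg [IsAlgClosed F] (e : ℕ) (he : 1 ≤ e) (f0 κ g1 : F⟦X⟧)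
    (hκ : constantCoeff κ = 0) (hg : constantCoeff g1 ≠ 0) (hG2 : ¬ (X ^ 6 ∣ κ ∧ X ^ 9 ∣ f0))
    (hG3 : ∀ c, c ^ 2 = κ → f0 - 2 * κ * c * g1 ≠ 0) :
    CodimTwo F (fun D => ∃ s0 s1, QuadSol e f0 κ g1 s0 s1 D) := by
  have hg0 : g1 = X ^ 0 * g1 := by rw [pow_zero, one_mul]
  have hgd : (X : F⟦X⟧) ^ 0 ∣ g1 := ⟨g1, hg0⟩
  by_cases h6 : (X : F⟦X⟧) ^ 6 ∣ κ
  · have h9 : ¬ (X : F⟦X⟧) ^ 9 ∣ f0 := fun h => hG2 ⟨h6, h⟩
    have hf : f0 ≠ 0 := by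
      rintro rfl
      exact h9 (dvd_zero _)
    obtain ⟨B, u, hfu, hu⟩ := exists_ord f0 hf
    have hB : B < 9 := by
      by_contra hlt
      exact h9 ((pow_dvd_pow _ (not_lt.1 hlt)).trans ⟨u, hfu⟩)
    obtain ⟨-, h2⟩ := quadB e he f0 κ g1 u 6 B 0 hfu hu h6 hgd (by omega)
    refine codimTwo_of_dvd _ (W1lin e f0 κ g1) (6 + B + 0) (2 * B) (by omega)
      (fun D => ?_) fun D hD => ?_
    · rw [W1lin_apply]
      exact w1_dvd e f0 κ g1 6 B 0 ⟨u, hfu⟩ h6 hgd D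
    · rw [W1lin_apply] at hD
      exact h2 D hD
  · have hκ0 : κ ≠ 0 := by
      rintro rfl
      exact h6 (dvd_zero _)
    obtain ⟨A, k, hκk, hk⟩ := exists_ord κ hκ0
    have hA6 : A < 6 := by
      by_contra hlt
      exact h6 ((pow_dvd_pow _ (not_lt.1 hlt)).trans ⟨k, hκk⟩)
    have hA0 : A ≠ 0 := by
      rintro rfl
      rw [pow_zero, one_mul] at hκk
      rw [hκk] at hκ
      exact hk hκ
    have hκd : (X : F⟦X⟧) ^ A ∣ κ := ⟨k, hκk⟩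
    by_cases hbig : (X : F⟦X⟧) ^ (3 * A / 2 + 1) ∣ f0
    · obtain ⟨-, h2⟩ := quadC e he f0 κ g1 k g1 A (3 * A / 2 + 1) 0 hbig hκk hk hg0 hg (by omega)
      refine codimTwo_of_dvd _ (W1lin e f0 κ g1) (A + (3 * A / 2 + 1) + 0) (3 * A + 2 * 0)
        (by omega) (fun D => ?_) fun D hD => ?_
      · rw [W1lin_apply]
        exact w1_dvd e f0 κ g1 A _ 0 hbig hκd hgd D
      · rw [W1lin_apply] at hD
        exact h2 D hD
    · have hf : f0 ≠ 0 := by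
        rintro rfl
        exact hbig (dvd_zero _)
      obtain ⟨B, u, hfu, hu⟩ := exists_ord f0 hf
      have hB : B < 3 * A / 2 + 1 := by
        by_contra hlt
        exact hbig ((pow_dvd_pow _ (not_lt.1 hlt)).trans ⟨u, hfu⟩)
      by_cases hlt : 2 * B < 3 * A
      · obtain ⟨-, h2⟩ := quadB e he f0 κ g1 u A B 0 hfu hu hκd hgd (by omega)
        refine codimTwo_of_dvd _ (W1lin e f0 κ g1) (A + B + 0) (2 * B) (by omega)
          (fun D => ?_) fun D hD => ?_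
        · rw [W1lin_apply]
          exact w1_dvd e f0 κ g1 A B 0 ⟨u, hfu⟩ hκd hgd D
        · rw [W1lin_apply] at hD
          exact h2 D hD
      · obtain ⟨m, hm⟩ : ∃ m, A = 2 * m := ⟨A / 2, by omega⟩
        obtain ⟨s, hs⟩ := sqrt_ps k hk
        have hsc : constantCoeff s ≠ 0 := by
          intro h0
          rw [← hs, map_pow, h0] at hk
          exact hk (by simp)
        have hc : (X ^ m * s) ^ 2 = κ := by
          rw [mul_pow, hs, hκk, hm, ← pow_mul, mul_comm m 2]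
        have h3 := hG3 (-(X ^ m * s)) (by rw [neg_sq]; exact hc)
        refine quadE e he f0 κ g1 (X ^ m * s) s m rfl hsc (by omega) hc (hG3 _ hc) ?_
        intro h4
        apply h3
        rw [← h4]
        ring

end H37.LM
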