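import Pool.Agent.H37.LM.Wei

/-!
# Quadruple roots, gluing of the two branches   [H37 LM RFourGlue]

Let `P0 = X - C c0`, `P1 = (X - C c1) ^ 2 - C (X * v)`, `π = (c0 - c1) ^ 2 - X * v ∈ F⟦X⟧`, so that
`P1 = C π + P0 * P1'` with `P1' = X + C (c0 - 2 c1)`, and `π = X * unit` (as `X ^ 2 ∣ (c0 - c1) ^ 2`).

1. `sb - sa = m0 * P0 + m1 * P1` for some `m0, m1`: by `lin_div`, `sb - sa = C z0 + P0 * z'`; from
   `cf (sb - sa) 0 0 = 0` one gets `constantCoeff z0 = 0` (`constantCoeff c0 = 0`), so `z0 = y * π`;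
   `C z0 = C y * (P1 - P0 * P1')`.
2. `s := sa + m0 * P0 = sb - m1 * P1` satisfies `P0 ∣ T - s * Q` and `P1 ∣ T - s * Q`.
3. If `P0 ∣ R` and `P1 ∣ R` then `P0 * P1 ∣ R`: `R = P1 * R'`, `R' = C r0 + P0 * R''` (`lin_div`), then
   `P0 ∣ C (π * r0)`, so `π * r0 = 0` by `lin_zero`, `r0 = 0`.
-/

noncomputable section

open PowerSeries

namespace H37.LM

variable {F : Type*} [Field F] [CharZero F]

theorem r4_glue (c0 c1 v : F⟦X⟧) (hc0 : constantCoeff c0 = 0) (hc1 : constantCoeff c1 = 0)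
    (hv : constantCoeff v ≠ 0) (T Q sa sb : F⟦X⟧⟦X⟧) (h : cf sa 0 0 = cf sb 0 0)
    (ha : (X - C c0) ∣ T - sa * Q) (hb : ((X - C c1) ^ 2 - C (X * v)) ∣ T - sb * Q) :
    ∃ s, (X - C c0) * ((X - C c1) ^ 2 - C (X * v)) ∣ T - s * Q := by
  obtain ⟨d0, hd0⟩ := X_dvd_iff.2 hc0
  obtain ⟨d1, hd1⟩ := X_dvd_iff.2 hc1
  set p : F⟦X⟧ := (c0 - c1) ^ 2 - X * v with hp
  have hp1 : p = X * (X * (d0 - d1) ^ 2 - v) := by
    rw [hp, hd0, hd1]; ring
  have hunit : IsUnit (X * (d0 - d1) ^ 2 - v) := by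
    rw [isUnit_iff_constantCoeff]
    simp [hv]
  have hpne : p ≠ 0 := by
    rw [hp1]
    exact mul_ne_zero X_ne_zero hunit.ne_zero
  have hP1 : (X - C c1) ^ 2 - C (X * v) = C p + (X - C c0) * (X + C (c0 - 2 * c1)) := by
    rw [hp]
    simp only [map_sub, map_mul, map_pow, map_ofNat]
    ring
  obtain ⟨z', z0, hz⟩ := lin_div c0 hc0 (sb - sa)
  have hz0 : constantCoeff z0 = 0 := by
    have h1 := congrArg (fun z => constantCoeff (constantCoeff z)) hz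
    have h2 : constantCoeff (constantCoeff (sb - sa)) = 0 := by
      unfold cf at h
      rw [coeff_zero_eq_constantCoeff_apply, coeff_zero_eq_constantCoeff_apply,
        coeff_zero_eq_constantCoeff_apply, coeff_zero_eq_constantCoeff_apply] at h
      rw [map_sub, map_sub, h, sub_self]
    simp only [h2] at h1
    simp [hc0] at h1
    exact h1.symm
  obtain ⟨y0, hy0⟩ := X_dvd_iff.2 hz0
  obtain ⟨w, hw⟩ := hunit
  have hzp : z0 = (y0 * ↑w⁻¹) * p := by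
    rw [hp1, ← hw, hy0]
    have : (y0 * (↑w⁻¹ : F⟦X⟧)) * (X * (↑w : F⟦X⟧)) = X * y0 * ((↑w⁻¹ : F⟦X⟧) * (↑w : F⟦X⟧)) := by
      ring
    rw [this, Units.inv_mul, mul_one]
  set y : F⟦X⟧ := y0 * ↑w⁻¹ with hy
  set P0 : F⟦X⟧⟦X⟧ := X - C c0 with hP0
  set P1 : F⟦X⟧⟦X⟧ := (X - C c1) ^ 2 - C (X * v) with hP1'
  have hsab : sb - sa = (z' - C y * (X + C (c0 - 2 * c1))) * P0 + C y * P1 := by
    rw [hz, hP1, hzp, map_mul]
    ring
  set m0 := z' - C y * (X + C (c0 - 2 * c1)) with hm0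
  refine ⟨sa + m0 * P0, ?_⟩
  have hR0 : P0 ∣ T - (sa + m0 * P0) * Q := by
    have : T - (sa + m0 * P0) * Q = (T - sa * Q) - P0 * (m0 * Q) := by ring
    rw [this]
    exact dvd_sub ha (dvd_mul_right _ _)
  have hR1 : P1 ∣ T - (sa + m0 * P0) * Q := by
    have : T - (sa + m0 * P0) * Q = (T - sb * Q) + P1 * (C y * Q) := by
      have h3 : sa + m0 * P0 = sb - C y * P1 := by
        linear_combination -hsab
      rw [h3]; ring
    rw [this]
    exact dvd_add hb (dvd_mul_right _ _)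
  obtain ⟨R', hR'⟩ := hR1
  obtain ⟨R'', r0, hr⟩ := lin_div c0 hc0 R'
  obtain ⟨t, ht⟩ := hR0
  have h4 : C (p * r0) = P0 * (t - (X + C (c0 - 2 * c1)) * C r0 - P1 * R'') := by
    have h5 : P0 * t = P1 * (C r0 + P0 * R'') := by rw [← ht, hR', hr]
    rw [hP1] at h5
    rw [map_mul, hP1]
    linear_combination -h5
  have h6 := lin_zero c0 hc0 _ _ h4
  have hr0 : r0 = 0 := by
    rcases mul_eq_zero.1 h6 with h7 | h7
    · exact absurd h7 hpne
    · exact h7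
  rw [hR', hr, hr0]
  refine ⟨R'', ?_⟩
  rw [map_zero]
  ring

end H37.LM
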