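import Pool.Agent.H37.LM.RFourFac
import Pool.Agent.H37.LM.RFourGlue
import Pool.Agent.H37.LM.Mem
import Pool.Agent.H37.LM.QuadAll

/-!
# Quadruple roots, case of a nonzero coefficient of `x w ^ 2`   [H37 LM RFour]

`r4_fac`: `Wh f = P0 * P1 * u`, `P0 = X - C c0`, `P1 = (X - C c1) ^ 2 - C (X * v)`.
* `nf_lin` for `P0`: `f = C v0 + P0 ^ 2 * H0`; `v0 ≠ 0` by `G3loc` (`lin_both`); `lin_quot` gives the
  linear map `a` with `D1 D v0 = a D * (e v0 + th v0)`; by `lin_mem`, `P0 ∣ D2 D f - C (a D) * Qh e f`.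
* `nf_quad` for `P1` (`κ = X * v`): `f = C f0 + C g1 (..) + P1 ^ 2 * H1`; `f0 ≠ 0 ∨ g1 ≠ 0` by `G3loc`
  (`quad_both`, for the distinguished polynomial `(X - C c1) ^ 2 - C κ` of degree `2`).  `quadOne` gives
  linear `S0, S1`; by `quad_solved`, `P1 ∣ D2 D f - (C (S0 D) + C (S1 D) * (X - C c1)) * Qh e f`.
* The condition: `constantCoeff (a D) = constantCoeff (S0 D)`, i.e. the vanishing of the linear
  functional `D ↦ coeff 0 (a D) - coeff 0 (S0 D)` (put it in the first of the two coordinates).  Then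
  `r4_glue` with `sa = C (a D)`, `sb = C (S0 D) + C (S1 D) * (X - C c1)`
  (`cf sb 0 0 = constantCoeff (S0 D)` since `constantCoeff c1 = 0`), and `P0 * P1 ∈ span {Qh e f, Wh f}`.
-/

noncomputable section

open PowerSeries

namespace H37.LM

variable {F : Type*} [Field F] [CharZero F] [IsAlgClosed F]

section rfour

omit [CharZero F] [IsAlgClosed F]

theorem r4_v0 (e : ℕ) (f : F⟦X⟧⟦X⟧) (hG3 : G3loc e f) (c : F⟦X⟧) (hc : constantCoeff c = 0)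
    (H : F⟦X⟧⟦X⟧) (hf : f = (X - C c) ^ 2 * H) : False := by
  obtain ⟨d1, d2⟩ := lin_both e f c H hf
  have hcoe : ((Polynomial.X - Polynomial.C c : Polynomial F⟦X⟧) : F⟦X⟧⟦X⟧) = X - C c := by
    rw [Polynomial.coe_sub, Polynomial.coe_X, Polynomial.coe_C]
  refine hG3 _ (wei_lin_dist c hc) (by rw [Polynomial.natDegree_X_sub_C]; exact one_pos) ?_
  rw [hcoe]
  exact ⟨d1, d2⟩

theorem r4_fg (e : ℕ) (f : F⟦X⟧⟦X⟧) (hG3 : G3loc e f) (c κ : F⟦X⟧) (hc : constantCoeff c = 0)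
    (hκ : constantCoeff κ = 0) (H : F⟦X⟧⟦X⟧) (hf : f = ((X - C c) ^ 2 - C κ) ^ 2 * H) :
    False := by
  obtain ⟨d1, d2⟩ := quad_both e f c κ H hf
  refine hG3 _ (weiQ_dist c κ hc hκ) ?_ ?_
  · have h : (weiQ c κ).natDegree = 2 := Polynomial.natDegree_quadratic one_ne_zero
    rw [h]
    norm_num
  · rw [weiQ_coe]
    exact ⟨d1, d2⟩

theorem r4_lin (e : ℕ) (f : F⟦X⟧⟦X⟧) (c v : F⟦X⟧) (H : F⟦X⟧⟦X⟧)
    (hf : f = C v + (X - C c) ^ 2 * H) (D : Derivation ℤ F F) (a : F⟦X⟧)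
    (ha : D1 D v = a * (e * v + th F v)) : (X - C c) ∣ D2 D f - C a * Qh e f := by
  obtain ⟨h1, E2, hE2⟩ := lin_mem e f c v H hf
  obtain ⟨E1, hE1⟩ := h1 D
  have h3 := congrArg (C (R := F⟦X⟧)) ha
  rw [map_mul] at h3
  exact ⟨E1 - C a * E2, by linear_combination hE1 - C a * hE2 + h3⟩

end rfour

theorem r4_mem (e : ℕ) (he : 1 ≤ e) (f : F⟦X⟧⟦X⟧) (h0 : ∀ j < 4, cf f 0 j = 0)
    (h1 : cf f 0 4 ≠ 0) (h2 : cf f 1 1 = 0) (h3 : cf f 1 2 ≠ 0) (hG3 : G3loc e f) :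
    CodimTwo F (fun D => D2 D f ∈ Ideal.span {Qh e f, Wh f}) := by
  obtain ⟨c0, c1, v, u, hc0, hc1, hv, hu, hW⟩ := r4_fac f h0 h1 h2 h3
  have hκ : constantCoeff (X * v) = 0 := by simp
  obtain ⟨v0, H0, hf0⟩ := nf_lin f c0 hc0 ⟨((X - C c1) ^ 2 - C (X * v)) * u, by rw [hW]; ring⟩
  obtain ⟨f0, g1, H1, hf1⟩ := nf_quad f c1 (X * v) hc1 hκ ⟨(X - C c0) * u, by rw [hW]; ring⟩
  have hv0 : v0 ≠ 0 := by
    intro h
    rw [h, map_zero, zero_add] at hf0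
    exact r4_v0 e f hG3 c0 hc0 H0 hf0
  have hfg : f0 ≠ 0 ∨ g1 ≠ 0 := by
    by_contra h
    rw [not_or, not_ne_iff, not_ne_iff] at h
    rw [h.1, h.2, map_zero, zero_mul, zero_add, zero_add] at hf1
    exact r4_fg e f hG3 c1 _ hc1 hκ H1 hf1
  obtain ⟨a, ha⟩ := lin_quot e he v0 hv0
  obtain ⟨S0, S1, hS⟩ := quadOne e he f0 (X * v) g1 v rfl hv hfg
  refine ⟨LinearMap.pi ![(PowerSeries.coeff 0).comp a - (PowerSeries.coeff 0).comp S0, 0],
    fun D hD => ?_⟩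
  have hD0 : constantCoeff (a D) = constantCoeff (S0 D) := by
    have h4 := congrFun hD 0
    simpa [sub_eq_zero] using h4
  obtain ⟨s, E, hE⟩ := r4_glue c0 c1 v hc0 hc1 hv (D2 D f) (Qh e f) (C (a D))
    (C (S0 D) + C (S1 D) * (X - C c1)) (by
      unfold cf
      rw [coeff_zero_C, map_add, coeff_zero_C, coeff_C_mul, map_sub, coeff_zero_X, coeff_zero_C,
        map_add, coeff_zero_eq_constantCoeff_apply, coeff_zero_eq_constantCoeff_apply,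
        coeff_zero_eq_constantCoeff_apply, map_mul, map_sub, hc1, map_zero, sub_zero, mul_zero,
        add_zero, hD0])
    (r4_lin e f c0 v0 H0 hf0 D (a D) (ha D))
    (quad_solved e f c1 (X * v) f0 g1 H1 hf1 D (S0 D) (S1 D) (hS D))
  obtain ⟨u', hu'⟩ := hu.exists_right_inv
  refine Ideal.mem_span_pair.2 ⟨s, u' * E, ?_⟩
  rw [hW]
  linear_combination ((X - C c0) * ((X - C c1) ^ 2 - C (X * v)) * E) * hu' - hE

end H37.LM
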