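import Pool.Agent.H37.LM.NF
import Pool.Agent.H37.LM.Mem
import Pool.Agent.H37.LM.QuadAll

/-!
# Triple roots   [H37 LM RThree]

`prep_quad`: `Wh f = P * u`, `P = (X - C c) ^ 2 - C κ`, `u` a unit; `nf_quad`, `nf_g1`:
`f = C f0 + C g1 * (w' ^ 3 - 3 κ w') + P ^ 2 * H`, `w' = X - C c`, `g1(0) ≠ 0`.  Apply `r3alg`:
* `hG2`: if `X ^ 6 ∣ κ` and `X ^ 9 ∣ f0`, then `G2loc f` fails for `η = c`: modulo `w'` one has
  `f ≡ C f0 + C κ ^ 2 * H`, `Wh f = P u ≡ - C κ * u`,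
  `Wh (Wh f) = 2 w' u + P * Wh u ≡ - C κ * Wh u` (all in `span {w', C (X ^ _)}`).
* `hG3`: if `ρ ^ 2 = κ` and `f0 = 2 κ ρ g1`, then (`constantCoeff ρ = 0`, and)
  `f = C g1 (w' - ρ) ^ 2 (w' + 2 ρ) + (w' - ρ) ^ 2 (w' + ρ) ^ 2 H`, so `lin_both` for `X - C (c + ρ)`
  contradicts `G3loc e f`.
For `D` in the subspace given by `r3alg`, `quad_solved` gives `P ∣ D2 D f - s * Qh e f`, and `P` is in
`span {Qh e f, Wh f}` because `u` is a unit.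
-/

noncomputable section

open PowerSeries

namespace H37.LM

variable {F : Type*} [Field F] [CharZero F] [IsAlgClosed F]

theorem r3_der_mul {R : Type*} [CommRing R] (a b : R⟦X⟧) :
    PowerSeries.derivative R (a * b) =
      a * PowerSeries.derivative R b + b * PowerSeries.derivative R a := by
  rw [Derivation.leibniz]
  simp only [smul_eq_mul]

theorem r3_der_P {R : Type*} [CommRing R] (c κ : R) :
    PowerSeries.derivative R ((X - C c) ^ 2 - C κ) = 2 * (X - C c) := by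
  rw [pow_two, map_sub, r3_der_mul, map_sub, PowerSeries.derivative_X]
  simp only [PowerSeries.derivative_C]
  ring

omit [CharZero F] [IsAlgClosed F] in
theorem r3_Wh_mul (a b : F⟦X⟧⟦X⟧) : Wh (a * b) = a * Wh b + b * Wh a :=
  r3_der_mul a b

omit [CharZero F] [IsAlgClosed F] in
theorem r3_Wh_P (c κ : F⟦X⟧) : Wh ((X - C c) ^ 2 - C κ) = 2 * (X - C c) :=
  r3_der_P c κ

omit [CharZero F] [IsAlgClosed F] in
theorem r3_G2 (f : F⟦X⟧⟦X⟧) (hG2 : G2loc f) (c κ : F⟦X⟧) (u : F⟦X⟧⟦X⟧)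
    (hc : constantCoeff c = 0) (hW : Wh f = ((X - C c) ^ 2 - C κ) * u) (f0 g1 : F⟦X⟧)
    (H : F⟦X⟧⟦X⟧) (hf : f = C f0 + C g1 * ((X - C c) ^ 3 - 3 * C κ * (X - C c)) +
        ((X - C c) ^ 2 - C κ) ^ 2 * H) : ¬ (X ^ 6 ∣ κ ∧ X ^ 9 ∣ f0) := by
  rintro ⟨⟨k, hk⟩, ⟨f', hf'⟩⟩
  apply hG2 c hc
  refine ⟨?_, ?_, ?_⟩
  · rw [Ideal.mem_span_pair]
    refine ⟨C g1 * ((X - C c) ^ 2 - 3 * C κ) + ((X - C c) ^ 3 - 2 * (X - C c) * C κ) * H,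
      C f' + C (X ^ 3 * k ^ 2) * H, ?_⟩
    rw [hf, hf', hk]
    simp only [map_mul, map_pow]
    ring
  · rw [Ideal.mem_span_pair]
    refine ⟨(X - C c) * u, - C k * u, ?_⟩
    rw [hW, hk]
    simp only [map_mul, map_pow]
    ring
  · rw [Ideal.mem_span_pair]
    refine ⟨2 * u + (X - C c) * Wh u, - C (X ^ 3 * k) * Wh u, ?_⟩
    rw [hW, r3_Wh_mul, r3_Wh_P, hk]
    simp only [map_mul, map_pow]
    ring

omit [CharZero F] [IsAlgClosed F] in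
theorem r3_G3 (e : ℕ) (f : F⟦X⟧⟦X⟧) (hG3 : G3loc e f) (c κ : F⟦X⟧)
    (hc : constantCoeff c = 0) (hκ : constantCoeff κ = 0) (f0 g1 : F⟦X⟧)
    (H : F⟦X⟧⟦X⟧) (hf : f = C f0 + C g1 * ((X - C c) ^ 3 - 3 * C κ * (X - C c)) +
        ((X - C c) ^ 2 - C κ) ^ 2 * H) (ρ : F⟦X⟧) (hρ : ρ ^ 2 = κ) :
    f0 - 2 * κ * ρ * g1 ≠ 0 := by
  intro h
  have hf0 : f0 = 2 * κ * ρ * g1 := sub_eq_zero.1 h
  have hρ0 : constantCoeff ρ = 0 := by
    have h1 : (constantCoeff ρ) ^ 2 = 0 := by rw [← map_pow, hρ, hκ]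
    exact pow_eq_zero_iff (two_ne_zero) |>.1 h1
  have hf2 : f = (X - C (c + ρ)) ^ 2 *
      (C g1 * ((X - C c) + 2 * C ρ) + ((X - C c) + C ρ) ^ 2 * H) := by
    rw [hf, hf0, ← hρ]
    simp only [map_mul, map_pow, map_add, map_ofNat]
    ring
  obtain ⟨d1, d2⟩ := lin_both e f (c + ρ) _ hf2
  have hmon : (Polynomial.X - Polynomial.C (c + ρ) : Polynomial F⟦X⟧).Monic :=
    Polynomial.monic_X_sub_C _
  have hdeg : (Polynomial.X - Polynomial.C (c + ρ) : Polynomial F⟦X⟧).natDegree = 1 :=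
    Polynomial.natDegree_X_sub_C _
  have hcoe : ((Polynomial.X - Polynomial.C (c + ρ) : Polynomial F⟦X⟧) : F⟦X⟧⟦X⟧) =
      X - C (c + ρ) := by
    rw [Polynomial.coe_sub, Polynomial.coe_X, Polynomial.coe_C]
  refine hG3 (Polynomial.X - Polynomial.C (c + ρ)) ⟨hmon, ?_⟩ (by rw [hdeg]; exact one_pos) ?_
  · intro i hi
    rw [hdeg] at hi
    have hi0 : i = 0 := by omega
    subst hi0
    simp [hc, hρ0]
  · rw [hcoe]
    exact ⟨d1, d2⟩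

theorem r3_mem (e : ℕ) (he : 1 ≤ e) (f : F⟦X⟧⟦X⟧) (h0 : ∀ j < 3, cf f 0 j = 0)
    (h3 : cf f 0 3 ≠ 0) (hG3 : G3loc e f) (hG2 : G2loc f) :
    CodimTwo F (fun D => D2 D f ∈ Ideal.span {Qh e f, Wh f}) := by
  obtain ⟨c, κ, u, hc, hκ, hu, hW⟩ := prep_quad f h0 h3
  obtain ⟨f0, g1, H, hf⟩ := nf_quad f c κ hc hκ (Dvd.intro _ hW.symm)
  obtain ⟨hg1, hf0⟩ := nf_g1 f h0 h3 c κ hc hκ f0 g1 H hf
  have hG2' := r3_G2 f hG2 c κ u hc hW f0 g1 H hf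
  have hG3' := fun ρ hρ => r3_G3 e f hG3 c κ hc hκ f0 g1 H hf ρ hρ
  refine (r3alg e he f0 κ g1 hκ hg1 hG2' hG3').mono ?_
  rintro D ⟨s0, s1, hs⟩
  obtain ⟨q, hq⟩ := quad_solved e f c κ f0 g1 H hf D s0 s1 hs
  obtain ⟨v, hv⟩ := hu.exists_right_inv
  rw [Ideal.mem_span_pair]
  refine ⟨C s0 + C s1 * (X - C c), v * q, ?_⟩
  rw [hW]
  have h1 : D2 D f = (C s0 + C s1 * (X - C c)) * Qh e f + ((X - C c) ^ 2 - C κ) * q := by
    rw [← hq]; ring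
  rw [h1]
  linear_combination ((X - C c) ^ 2 - C κ) * q * hv

end H37.LM
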