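import Pool.Agent.H37.LM.Stair

/-!
# Type IV: weights (2, 3), degree 8   [H37 LM TypeFour]

`f = α w ^ 4 + b x ^ 2 w + a3 x w ^ 3 + c0 x ^ 3 + (weight ≥ 10)`, weights `wt w = 2`, `wt x = 3`,
`α = cf f 0 4 ≠ 0`, `b = cf f 2 1 ≠ 0`, `a3 = cf f 1 3`, `c0 = cf f 3 0`; here `e = 4`.
`n = (4, 3, 2, 2, 1, 0, ...)` (`n j = (12 - 2 j) / 3`; `St n` = all elements of weight `≥ 10`), with
essential generators `x ^ 4`, `x ^ 3 w`, `x ^ 2 w ^ 2`, `x w ^ 4`, `w ^ 5`.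

Modulo `mm * St n` (`Q = Qh 4 f`, `W = Wh f`; coefficients by `cf_Qh`, `cf_Wh`):
`x ^ 2 W ≡ b x ^ 4`, `x w W ≡ 4 α x w ^ 4 + b x ^ 3 w`, `x Q ≡ 4 α x w ^ 4 + 6 b x ^ 3 w + 7 c0 x ^ 4`,
`w ^ 2 W ≡ 4 α w ^ 5 + 3 a3 x w ^ 4 + b x ^ 2 w ^ 2`,
`w Q ≡ 4 α w ^ 5 + 5 a3 x w ^ 4 + 6 b x ^ 2 w ^ 2 + 7 c0 x ^ 3 w`.
So `St n ≤ span {Q, W}` by `nak_St`.

Weight `8` and `9` parts: `Q = 4 α w ^ 4 + 6 b x ^ 2 w + 5 a3 x w ^ 3 + 7 c0 x ^ 3 + (≥ 10)`,
`w W = 4 α w ^ 4 + b x ^ 2 w + 3 a3 x w ^ 3 + (≥ 10)`, `x W = 4 α x w ^ 3 + b x ^ 3 + (≥ 10)`,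
`D2 D f = Dα w ^ 4 + Db x ^ 2 w + Da3 x w ^ 3 + Dc0 x ^ 3 + (≥ 10)`.
Put `A D = (Db / b - Dα / (4 α)) / 5`, `B D = Dα / (4 α) - A D` and
`O D = b (D a3 - (5 A D + 3 B D) a3) - 4 α (D c0 - 7 (A D) c0)`, a linear functional of `D`.  If
`O D = 0` then `D2 D f - A Q - B w W - λ x W ∈ St n` with `λ = (D c0 - 7 A c0) / b`.
-/

noncomputable section

open PowerSeries

namespace H37.LM

variable {F : Type*} [Field F] [CharZero F]

section tfour

omit [CharZero F]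

theorem t4_cf_add (a b : F⟦X⟧⟦X⟧) (i j : ℕ) : cf (a + b) i j = cf a i j + cf b i j := by
  unfold cf
  rw [map_add, map_add]

theorem t4_cf_sub (a b : F⟦X⟧⟦X⟧) (i j : ℕ) : cf (a - b) i j = cf a i j - cf b i j := by
  unfold cf
  rw [map_sub, map_sub]

/-- the monomial `x ^ n * w ^ m` -/
def t4m (F : Type*) [Field F] (n m : ℕ) : F⟦X⟧⟦X⟧ := C (X ^ n) * X ^ m

/-- multiplication by a constant -/
def t4c (c : F) (z : F⟦X⟧⟦X⟧) : F⟦X⟧⟦X⟧ := C (C c) * z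

theorem t4_cf_const (c : F) (z : F⟦X⟧⟦X⟧) (i j : ℕ) : cf (t4c c z) i j = c * cf z i j := by
  unfold cf t4c
  rw [coeff_C_mul, coeff_C_mul]

theorem t4_cf_x (z : F⟦X⟧⟦X⟧) (i j : ℕ) :
    cf (C X * z) i j = if i = 0 then 0 else cf z (i - 1) j := by
  unfold cf
  rw [coeff_C_mul]
  rcases i with _ | i
  · rw [if_pos rfl, coeff_zero_X_mul]
  · rw [coeff_succ_X_mul, if_neg (Nat.succ_ne_zero i)]
    rfl

theorem t4_cf_w (z : F⟦X⟧⟦X⟧) (i j : ℕ) :
    cf (X * z) i j = if j = 0 then 0 else cf z i (j - 1) := by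
  unfold cf
  rcases j with _ | j
  · rw [if_pos rfl, coeff_zero_X_mul, map_zero]
  · rw [coeff_succ_X_mul, if_neg (Nat.succ_ne_zero j)]
    rfl

theorem t4_cf_mono (n m i j : ℕ) :
    cf (t4m F n m) i j = if i = n ∧ j = m then 1 else 0 := by
  unfold cf t4m
  rw [coeff_C_mul, coeff_X_pow]
  by_cases h : j = m
  · rw [if_pos h, mul_one, coeff_X_pow]
    simp [h]
  · rw [if_neg h, mul_zero, map_zero]
    simp [h]

/-- the staircase -/
def t4n (j : ℕ) : ℕ := (12 - 2 * j) / 3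

theorem t4hn : Antitone t4n := by
  intro a b h
  unfold t4n
  omega

theorem t4_mSt (z : F⟦X⟧⟦X⟧) (h : cf z 0 0 = 0 ∧ cf z 1 0 = 0 ∧ cf z 2 0 = 0 ∧ cf z 3 0 = 0 ∧
    cf z 4 0 = 0 ∧ cf z 0 1 = 0 ∧ cf z 1 1 = 0 ∧ cf z 2 1 = 0 ∧ cf z 3 1 = 0 ∧ cf z 0 2 = 0 ∧
    cf z 1 2 = 0 ∧ cf z 2 2 = 0 ∧ cf z 0 3 = 0 ∧ cf z 1 3 = 0 ∧ cf z 0 4 = 0 ∧ cf z 1 4 = 0 ∧
    cf z 0 5 = 0) : z ∈ mm F * St F t4n t4hn := by
  obtain ⟨a1, a2, a3, a4, a5, b1, b2, b3, b4, c1, c2, c3, d1, d2, e1, e2, f1⟩ := h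
  refine mem_mSt t4n t4hn 5 rfl z ?_ ?_
  · intro i hi
    have hi' : i ≤ 4 := hi
    interval_cases i <;> assumption
  · intro i j hij
    unfold t4n at hij
    have hj : j ≤ 4 := by omega
    interval_cases j
    · have hi : i ≤ 3 := by omega
      interval_cases i <;> assumption
    · have hi : i ≤ 2 := by omega
      interval_cases i <;> assumption
    · have hi : i ≤ 1 := by omega
      interval_cases i <;> assumption
    · have hi : i ≤ 1 := by omega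
      interval_cases i <;> assumption
    · have hi : i ≤ 0 := by omega
      interval_cases i
      assumption

theorem t4_St (z : F⟦X⟧⟦X⟧) (h : cf z 0 0 = 0 ∧ cf z 1 0 = 0 ∧ cf z 2 0 = 0 ∧ cf z 3 0 = 0 ∧
    cf z 0 1 = 0 ∧ cf z 1 1 = 0 ∧ cf z 2 1 = 0 ∧ cf z 0 2 = 0 ∧
    cf z 1 2 = 0 ∧ cf z 0 3 = 0 ∧ cf z 1 3 = 0 ∧ cf z 0 4 = 0) : z ∈ St F t4n t4hn := by
  obtain ⟨a1, a2, a3, a4, b1, b2, b3, c1, c2, d1, d2, e1⟩ := h
  rw [mem_St]
  intro i j hij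
  unfold t4n at hij
  have hj : j ≤ 4 := by omega
  interval_cases j
  · have hi : i ≤ 3 := by omega
    interval_cases i <;> assumption
  · have hi : i ≤ 2 := by omega
    interval_cases i <;> assumption
  · have hi : i ≤ 1 := by omega
    interval_cases i <;> assumption
  · have hi : i ≤ 1 := by omega
    interval_cases i <;> assumption
  · have hi : i ≤ 0 := by omega
    interval_cases i
    assumption

theorem t4_const_mem (I : Ideal F⟦X⟧⟦X⟧) (c : F) (hc : c ≠ 0) (z : F⟦X⟧⟦X⟧)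
    (h : t4c c z ∈ I) : z ∈ I := by
  unfold t4c at h
  have h1 := I.mul_mem_left (C (C c⁻¹)) h
  rw [← mul_assoc, ← map_mul, ← map_mul, inv_mul_cancel₀ hc, map_one, map_one, one_mul] at h1
  exact h1

end tfour

theorem t4_le (f : F⟦X⟧⟦X⟧) (h0 : ∀ j < 4, cf f 0 j = 0)
    (h1 : cf f 0 4 ≠ 0) (h2 : ∀ j ≤ 2, cf f 1 j = 0) (h3 : cf f 2 0 = 0) (h4 : cf f 2 1 ≠ 0) :
    St F t4n t4hn ≤ Ideal.span {Qh 4 f, Wh f} := by
  have h00 := h0 0 (by norm_num)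
  have h01 := h0 1 (by norm_num)
  have h02 := h0 2 (by norm_num)
  have h03 := h0 3 (by norm_num)
  have h10 := h2 0 (by norm_num)
  have h11 := h2 1 (by norm_num)
  have h12 := h2 2 (by norm_num)
  set I : Ideal F⟦X⟧⟦X⟧ := Ideal.span {Qh 4 f, Wh f} with hI
  have hQ : Qh 4 f ∈ I := Ideal.subset_span (Or.inl rfl)
  have hW : Wh f ∈ I := Ideal.subset_span (Or.inr rfl)
  set K : Ideal F⟦X⟧⟦X⟧ := I ⊔ mm F * St F t4n t4hn with hK
  have hIK : I ≤ K := le_sup_left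
  have hmK : mm F * St F t4n t4hn ≤ K := le_sup_right
  -- the five relations
  have r1 : t4c (cf f 2 1) (t4m F 4 0) ∈ K := by
    have hm : C X * (C X * Wh f) - t4c (cf f 2 1) (t4m F 4 0) ∈
        mm F * St F t4n t4hn := by
      apply t4_mSt
      simp only [t4_cf_sub, t4_cf_x, t4_cf_const, t4_cf_mono, cf_Wh, h01, h02, h03, h11, h12]
      norm_num
    have h5 := K.sub_mem (hIK (I.mul_mem_left (C X) (I.mul_mem_left (C X) hW))) (hmK hm)
    rwa [sub_sub_cancel] at h5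
  have r2 : t4c (4 * cf f 0 4) (t4m F 1 4) +
      t4c (cf f 2 1) (t4m F 3 1) ∈ K := by
    have hm : C X * (X * Wh f) - (t4c (4 * cf f 0 4) (t4m F 1 4) +
        t4c (cf f 2 1) (t4m F 3 1)) ∈ mm F * St F t4n t4hn := by
      apply t4_mSt
      simp only [t4_cf_sub, t4_cf_add, t4_cf_x, t4_cf_w, t4_cf_const, t4_cf_mono, cf_Wh, h01, h02, h03,
        h11, h12]
      norm_num
    have h5 := K.sub_mem (hIK (I.mul_mem_left (C X) (I.mul_mem_left X hW))) (hmK hm)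
    rwa [sub_sub_cancel] at h5
  have r3 : t4c (4 * cf f 0 4) (t4m F 1 4) +
      t4c (6 * cf f 2 1) (t4m F 3 1) +
      t4c (7 * cf f 3 0) (t4m F 4 0) ∈ K := by
    have hm : C X * Qh 4 f - (t4c (4 * cf f 0 4) (t4m F 1 4) +
      t4c (6 * cf f 2 1) (t4m F 3 1) +
      t4c (7 * cf f 3 0) (t4m F 4 0)) ∈ mm F * St F t4n t4hn := by
      apply t4_mSt
      simp only [t4_cf_sub, t4_cf_add, t4_cf_x, t4_cf_const, t4_cf_mono, cf_Qh, h00, h01, h02,
        h03, h10, h11, h12, h3]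
      norm_num
    have h5 := K.sub_mem (hIK (I.mul_mem_left (C X) hQ)) (hmK hm)
    rwa [sub_sub_cancel] at h5
  have r4 : t4c (4 * cf f 0 4) (t4m F 0 5) +
      t4c (3 * cf f 1 3) (t4m F 1 4) +
      t4c (cf f 2 1) (t4m F 2 2) ∈ K := by
    have hm : X * (X * Wh f) - (t4c (4 * cf f 0 4) (t4m F 0 5) +
      t4c (3 * cf f 1 3) (t4m F 1 4) +
      t4c (cf f 2 1) (t4m F 2 2)) ∈ mm F * St F t4n t4hn := by
      apply t4_mSt
      simp only [t4_cf_sub, t4_cf_add, t4_cf_x, t4_cf_w, t4_cf_const, t4_cf_mono, cf_Wh, h01, h02, h03,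
        h11, h12]
      norm_num
    have h5 := K.sub_mem (hIK (I.mul_mem_left X (I.mul_mem_left X hW))) (hmK hm)
    rwa [sub_sub_cancel] at h5
  have r5 : t4c (4 * cf f 0 4) (t4m F 0 5) +
      t4c (5 * cf f 1 3) (t4m F 1 4) +
      t4c (6 * cf f 2 1) (t4m F 2 2) +
      t4c (7 * cf f 3 0) (t4m F 3 1) ∈ K := by
    have hm : X * Qh 4 f - (t4c (4 * cf f 0 4) (t4m F 0 5) +
      t4c (5 * cf f 1 3) (t4m F 1 4) +
      t4c (6 * cf f 2 1) (t4m F 2 2) +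
      t4c (7 * cf f 3 0) (t4m F 3 1)) ∈ mm F * St F t4n t4hn := by
      apply t4_mSt
      simp only [t4_cf_sub, t4_cf_add, t4_cf_x, t4_cf_w, t4_cf_const, t4_cf_mono, cf_Qh, h00, h01, h02,
        h03, h10, h11, h12, h3]
      norm_num
    have h5 := K.sub_mem (hIK (I.mul_mem_left X hQ)) (hmK hm)
    rwa [sub_sub_cancel] at h5
  have r6 : t4m F 2 3 ∈ K := by
    apply hmK
    apply t4_mSt
    simp [t4_cf_mono]
  -- solve
  have hcK : ∀ (c : F) (z : F⟦X⟧⟦X⟧), z ∈ K → t4c c z ∈ K := fun c z hz => K.mul_mem_left _ hz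
  have m1 : t4m F 4 0 ∈ K := t4_const_mem K _ h4 _ r1
  have m2 : t4m F 3 1 ∈ K := by
    refine t4_const_mem K (5 * cf f 2 1) (mul_ne_zero (by norm_num) h4) _ ?_
    have h5 := K.sub_mem (K.sub_mem r3 r2) (hcK (7 * cf f 3 0) _ m1)
    have h6 : t4c (5 * cf f 2 1) (t4m F 3 1) =
        t4c (4 * cf f 0 4) (t4m F 1 4) + t4c (6 * cf f 2 1) (t4m F 3 1) +
        t4c (7 * cf f 3 0) (t4m F 4 0) - (t4c (4 * cf f 0 4) (t4m F 1 4) +
        t4c (cf f 2 1) (t4m F 3 1)) - t4c (7 * cf f 3 0) (t4m F 4 0) := by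
      unfold t4c
      simp only [map_mul, map_ofNat]
      ring
    rw [h6]
    exact h5
  have m4 : t4m F 1 4 ∈ K := by
    refine t4_const_mem K (4 * cf f 0 4) (mul_ne_zero (by norm_num) h1) _ ?_
    have h5 := K.sub_mem r2 (hcK (cf f 2 1) _ m2)
    rwa [add_sub_cancel_right] at h5
  have m3 : t4m F 2 2 ∈ K := by
    refine t4_const_mem K (5 * cf f 2 1) (mul_ne_zero (by norm_num) h4) _ ?_
    have h5 := K.sub_mem (K.sub_mem (K.sub_mem r5 r4) (hcK (2 * cf f 1 3) _ m4))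
      (hcK (7 * cf f 3 0) _ m2)
    have h6 : t4c (5 * cf f 2 1) (t4m F 2 2) =
        t4c (4 * cf f 0 4) (t4m F 0 5) + t4c (5 * cf f 1 3) (t4m F 1 4) +
        t4c (6 * cf f 2 1) (t4m F 2 2) + t4c (7 * cf f 3 0) (t4m F 3 1) -
        (t4c (4 * cf f 0 4) (t4m F 0 5) + t4c (3 * cf f 1 3) (t4m F 1 4) +
        t4c (cf f 2 1) (t4m F 2 2)) - t4c (2 * cf f 1 3) (t4m F 1 4) -
        t4c (7 * cf f 3 0) (t4m F 3 1) := by
      unfold t4c
      simp only [map_mul, map_ofNat]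
      ring
    rw [h6]
    exact h5
  have m5 : t4m F 0 5 ∈ K := by
    refine t4_const_mem K (4 * cf f 0 4) (mul_ne_zero (by norm_num) h1) _ ?_
    have h5 := K.sub_mem (K.sub_mem r4 (hcK (cf f 2 1) _ m3)) (hcK (3 * cf f 1 3) _ m4)
    have h6 : t4c (4 * cf f 0 4) (t4m F 0 5) =
        t4c (4 * cf f 0 4) (t4m F 0 5) + t4c (3 * cf f 1 3) (t4m F 1 4) +
        t4c (cf f 2 1) (t4m F 2 2) - t4c (cf f 2 1) (t4m F 2 2) -
        t4c (3 * cf f 1 3) (t4m F 1 4) := by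
      ring
    rw [h6]
    exact h5
  refine nak_St t4n t4hn 5 rfl I fun j hj => ?_
  interval_cases j
  · exact m1
  · exact m2
  · exact m3
  · exact r6
  · exact m4
  · exact m5

theorem typeIV (f : F⟦X⟧⟦X⟧) (h0 : ∀ j < 4, cf f 0 j = 0)
    (h1 : cf f 0 4 ≠ 0) (h2 : ∀ j ≤ 2, cf f 1 j = 0) (h3 : cf f 2 0 = 0) (h4 : cf f 2 1 ≠ 0) :
    CodimTwo F (fun D => D2 D f ∈ Ideal.span {Qh 4 f, Wh f}) := by
  have hle := t4_le f h0 h1 h2 h3 h4
  have h00 := h0 0 (by norm_num)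
  have h01 := h0 1 (by norm_num)
  have h02 := h0 2 (by norm_num)
  have h03 := h0 3 (by norm_num)
  have h10 := h2 0 (by norm_num)
  have h11 := h2 1 (by norm_num)
  have h12 := h2 2 (by norm_num)
  set I : Ideal F⟦X⟧⟦X⟧ := Ideal.span {Qh 4 f, Wh f} with hI
  have hQ : Qh 4 f ∈ I := Ideal.subset_span (Or.inl rfl)
  have hW : Wh f ∈ I := Ideal.subset_span (Or.inr rfl)
  obtain ⟨α, hα⟩ : ∃ x, cf f 0 4 = x := ⟨_, rfl⟩
  obtain ⟨b, hb⟩ : ∃ x, cf f 2 1 = x := ⟨_, rfl⟩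
  obtain ⟨a3, ha3⟩ : ∃ x, cf f 1 3 = x := ⟨_, rfl⟩
  obtain ⟨c0, hc0⟩ : ∃ x, cf f 3 0 = x := ⟨_, rfl⟩
  rw [hα] at h1
  rw [hb] at h4
  -- the functional
  let A : Derivation ℤ F F → F := fun D => (D b / b - D α / (4 * α)) / 5
  let B : Derivation ℤ F F → F := fun D => D α / (4 * α) - A D
  let O1 : Derivation ℤ F F → F := fun D =>
    b * (D a3 - (5 * A D + 3 * B D) * a3) - 4 * α * (D c0 - 7 * A D * c0)
  refine ⟨{ toFun := fun D _ => O1 D, map_add' := ?_, map_smul' := ?_ }, ?_⟩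
  · intro D D'
    funext i
    simp only [O1, A, B, Pi.add_apply, Derivation.add_apply]
    ring
  · intro c D
    funext i
    simp only [O1, A, B, Pi.smul_apply, Derivation.smul_apply, RingHom.id_apply, smul_eq_mul]
    ring
  · intro D hD
    have hO : O1 D = 0 := congrFun hD 0
    have e1 : 4 * α * (A D + B D) = D α := by
      simp only [B]
      field_simp
      ring
    have e2 : 6 * b * A D + b * B D = D b := by
      simp only [A, B]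
      field_simp
      ring
    obtain ⟨l, hl⟩ : ∃ l, l = (D c0 - 7 * A D * c0) / b := ⟨_, rfl⟩
    have e3 : 7 * c0 * A D + b * l = D c0 := by
      rw [hl]
      field_simp
      ring
    have e4 : 5 * a3 * A D + 3 * a3 * B D + 4 * α * l = D a3 := by
      have h5 : b * (5 * a3 * A D + 3 * a3 * B D + 4 * α * l - D a3) = 0 := by
        have h6 : b * l = D c0 - 7 * A D * c0 := by linear_combination e3
        linear_combination (4 * α) * h6 - hO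
      have h6 := (mul_eq_zero.1 h5).resolve_left h4
      linear_combination h6
    have hmem : D2 D f - (t4c (A D) (Qh 4 f) + t4c (B D) (X * Wh f) + t4c l (C X * Wh f)) ∈
        St F t4n t4hn := by
      apply t4_St
      simp only [t4_cf_sub, t4_cf_add, t4_cf_x, t4_cf_w, t4_cf_const, cf_Qh, cf_Wh, cf_D2, h00,
        h01, h02, h03, h10, h11, h12, h3, hα, hb, ha3, hc0, map_zero]
      norm_num
      refine ⟨?_, ?_, ?_, ?_⟩
      · linear_combination -e3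
      · linear_combination -e2
      · linear_combination -e4
      · linear_combination -e1
    have h7 : t4c (A D) (Qh 4 f) + t4c (B D) (X * Wh f) + t4c l (C X * Wh f) ∈ I :=
      I.add_mem (I.add_mem (I.mul_mem_left _ hQ) (I.mul_mem_left _ (I.mul_mem_left _ hW)))
        (I.mul_mem_left _ (I.mul_mem_left _ hW))
    have h8 := I.add_mem (hle hmem) h7
    rw [sub_add_cancel] at h8
    exact h8

end H37.LM
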