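import Pool.Agent.H37.LM.TypeFour

/-!
# Type III: weights (1, 2), degree 4   [H37 LM TypeThree]

`f = α w ^ 4 + b x ^ 2 + ...`, `α = cf f 0 4 ≠ 0`, `b = cf f 2 0 ≠ 0`, weights `wt w = 1`, `wt x = 2`;
all other terms of `f` have weight `≥ 5` (`cf f 1 j = 0` for `j ≤ 2`).  `n = (3, 2, 2, 1, 1, 0, ...)`, i.e.
`n j = (6 - j) / 2` (natural division; `St n` = all elements of weight `≥ 5`), with
essential generators `x ^ 3`, `x ^ 2 w`, `x w ^ 3`, `w ^ 5`.  `V := Qh e f - (e / 4) w Wh f` and `Wh f`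
satisfy, modulo `mm * St n` (check coefficients with `cf_Qh`, `cf_Wh`, `mem_mSt`):
* `x V ≡ (e + 2) b x ^ 3`, `w V ≡ (e + 2) b x ^ 2 w`,
* `x Wh f ≡ 4 α x w ^ 3 + (cf f 2 1) x ^ 3`,
* `w ^ 2 Wh f ≡ 4 α w ^ 5`.
So `St n ≤ span {Qh e f, Wh f}` by `nak_St`.  Finally `D2 D f = D α w ^ 4 + D b x ^ 2 + (weight ≥ 5)`, and
`w Wh f = 4 α w ^ 4 + (weight ≥ 5)`, `V = (e + 2) b x ^ 2 + (weight ≥ 5)` (`mem_St`), so
`D2 D f ∈ span {Qh e f, Wh f}`.
-/

noncomputable section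

open PowerSeries

namespace H37.LM

variable {F : Type*} [Field F] [CharZero F]

section tthree

omit [CharZero F]

/-- the staircase -/
def t3n (j : ℕ) : ℕ := (6 - j) / 2

theorem t3hn : Antitone t3n := by
  intro a b h
  unfold t3n
  omega

theorem t3_mSt (z : F⟦X⟧⟦X⟧) (h : cf z 0 0 = 0 ∧ cf z 1 0 = 0 ∧ cf z 2 0 = 0 ∧ cf z 3 0 = 0 ∧
    cf z 0 1 = 0 ∧ cf z 1 1 = 0 ∧ cf z 2 1 = 0 ∧ cf z 0 2 = 0 ∧ cf z 1 2 = 0 ∧
    cf z 0 3 = 0 ∧ cf z 1 3 = 0 ∧ cf z 0 4 = 0 ∧ cf z 0 5 = 0) :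
    z ∈ mm F * St F t3n t3hn := by
  obtain ⟨a1, a2, a3, a4, b1, b2, b3, c1, c2, d1, d2, e1, f1⟩ := h
  refine mem_mSt t3n t3hn 5 rfl z ?_ ?_
  · intro i hi
    have hi' : i ≤ 3 := hi
    interval_cases i <;> assumption
  · intro i j hij
    unfold t3n at hij
    have hj : j ≤ 4 := by omega
    interval_cases j
    · have hi : i ≤ 2 := by omega
      interval_cases i <;> assumption
    · have hi : i ≤ 1 := by omega
      interval_cases i <;> assumption
    · have hi : i ≤ 1 := by omega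
      interval_cases i <;> assumption
    · have hi : i ≤ 0 := by omega
      interval_cases i
      assumption
    · have hi : i ≤ 0 := by omega
      interval_cases i
      assumption

theorem t3_St (z : F⟦X⟧⟦X⟧) (h : cf z 0 0 = 0 ∧ cf z 1 0 = 0 ∧ cf z 2 0 = 0 ∧
    cf z 0 1 = 0 ∧ cf z 1 1 = 0 ∧ cf z 0 2 = 0 ∧ cf z 1 2 = 0 ∧ cf z 0 3 = 0 ∧ cf z 0 4 = 0) :
    z ∈ St F t3n t3hn := by
  obtain ⟨a1, a2, a3, b1, b2, c1, c2, d1, e1⟩ := h
  rw [mem_St]
  intro i j hij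
  unfold t3n at hij
  have hj : j ≤ 4 := by omega
  interval_cases j
  · have hi : i ≤ 2 := by omega
    interval_cases i <;> assumption
  · have hi : i ≤ 1 := by omega
    interval_cases i <;> assumption
  · have hi : i ≤ 1 := by omega
    interval_cases i <;> assumption
  · have hi : i ≤ 0 := by omega
    interval_cases i
    assumption
  · have hi : i ≤ 0 := by omega
    interval_cases i
    assumption

end tthree

theorem typeIII (e : ℕ) (he : 1 ≤ e) (f : F⟦X⟧⟦X⟧) (h0 : ∀ j < 4, cf f 0 j = 0)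
    (h1 : cf f 0 4 ≠ 0) (h2 : ∀ j ≤ 2, cf f 1 j = 0) (h3 : cf f 2 0 ≠ 0)
    (D : Derivation ℤ F F) :
    D2 D f ∈ Ideal.span {Qh e f, Wh f} := by
  have h00 := h0 0 (by norm_num)
  have h01 := h0 1 (by norm_num)
  have h02 := h0 2 (by norm_num)
  have h03 := h0 3 (by norm_num)
  have h10 := h2 0 (by norm_num)
  have h11 := h2 1 (by norm_num)
  have h12 := h2 2 (by norm_num)
  have he2 : ((e : F) + 2) ≠ 0 := by
    have : ((e + 2 : ℕ) : F) ≠ 0 := Nat.cast_ne_zero.2 (by omega)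
    push_cast at this
    exact this
  set I : Ideal F⟦X⟧⟦X⟧ := Ideal.span {Qh e f, Wh f} with hI
  have hQ : Qh e f ∈ I := Ideal.subset_span (Or.inl rfl)
  have hW : Wh f ∈ I := Ideal.subset_span (Or.inr rfl)
  obtain ⟨V, hV⟩ : ∃ V, V = Qh e f - t4c ((e : F) / 4) (X * Wh f) := ⟨_, rfl⟩
  have hVI : V ∈ I := by
    rw [hV]
    exact I.sub_mem hQ (I.mul_mem_left _ (I.mul_mem_left _ hW))
  set K : Ideal F⟦X⟧⟦X⟧ := I ⊔ mm F * St F t3n t3hn with hK
  have hIK : I ≤ K := le_sup_left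
  have hmK : mm F * St F t3n t3hn ≤ K := le_sup_right
  -- the four relations
  have r1 : t4c (((e : F) + 2) * cf f 2 0) (t4m F 3 0) ∈ K := by
    have hm : C X * V - t4c (((e : F) + 2) * cf f 2 0) (t4m F 3 0) ∈
        mm F * St F t3n t3hn := by
      apply t3_mSt
      rw [hV]
      simp only [t4_cf_sub, t4_cf_x, t4_cf_w, t4_cf_const, t4_cf_mono, cf_Wh, cf_Qh, h00, h01,
        h02, h03, h10, h11, h12]
      norm_num
    have h5 := K.sub_mem (hIK (I.mul_mem_left (C X) hVI)) (hmK hm)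
    rwa [sub_sub_cancel] at h5
  have r2 : t4c (((e : F) + 2) * cf f 2 0) (t4m F 2 1) ∈ K := by
    have hm : X * V - t4c (((e : F) + 2) * cf f 2 0) (t4m F 2 1) ∈
        mm F * St F t3n t3hn := by
      apply t3_mSt
      rw [hV]
      simp only [t4_cf_sub, t4_cf_x, t4_cf_w, t4_cf_const, t4_cf_mono, cf_Wh, cf_Qh, h00, h01,
        h02, h03, h10, h11, h12]
      norm_num
      ring
    have h5 := K.sub_mem (hIK (I.mul_mem_left X hVI)) (hmK hm)
    rwa [sub_sub_cancel] at h5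
  have r3 : t4c (4 * cf f 0 4) (t4m F 1 3) + t4c (cf f 2 1) (t4m F 3 0) ∈ K := by
    have hm : C X * Wh f - (t4c (4 * cf f 0 4) (t4m F 1 3) + t4c (cf f 2 1) (t4m F 3 0)) ∈
        mm F * St F t3n t3hn := by
      apply t3_mSt
      simp only [t4_cf_sub, t4_cf_add, t4_cf_x, t4_cf_w, t4_cf_const, t4_cf_mono, cf_Wh, cf_Qh,
        h00, h01, h02, h03, h10, h11, h12]
      norm_num
    have h5 := K.sub_mem (hIK (I.mul_mem_left (C X) hW)) (hmK hm)
    rwa [sub_sub_cancel] at h5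
  have r4 : t4c (4 * cf f 0 4) (t4m F 0 5) ∈ K := by
    have hm : X * (X * Wh f) - t4c (4 * cf f 0 4) (t4m F 0 5) ∈
        mm F * St F t3n t3hn := by
      apply t3_mSt
      simp only [t4_cf_sub, t4_cf_add, t4_cf_x, t4_cf_w, t4_cf_const, t4_cf_mono, cf_Wh, cf_Qh,
        h00, h01, h02, h03, h10, h11, h12]
      norm_num
    have h5 := K.sub_mem (hIK (I.mul_mem_left X (I.mul_mem_left X hW))) (hmK hm)
    rwa [sub_sub_cancel] at h5
  have r5 : t4m F 2 2 ∈ K := by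
    apply hmK
    apply t3_mSt
    simp [t4_cf_mono]
  have r6 : t4m F 1 4 ∈ K := by
    apply hmK
    apply t3_mSt
    simp [t4_cf_mono]
  have hcK : ∀ (c : F) (z : F⟦X⟧⟦X⟧), z ∈ K → t4c c z ∈ K := fun c z hz => K.mul_mem_left _ hz
  have hb2 : ((e : F) + 2) * cf f 2 0 ≠ 0 := mul_ne_zero he2 h3
  have ha4 : 4 * cf f 0 4 ≠ 0 := mul_ne_zero (by norm_num) h1
  have m1 : t4m F 3 0 ∈ K := t4_const_mem K _ hb2 _ r1
  have m2 : t4m F 2 1 ∈ K := t4_const_mem K _ hb2 _ r2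
  have m3 : t4m F 1 3 ∈ K := by
    refine t4_const_mem K _ ha4 _ ?_
    have h5 := K.sub_mem r3 (hcK (cf f 2 1) _ m1)
    rwa [add_sub_cancel_right] at h5
  have m5 : t4m F 0 5 ∈ K := t4_const_mem K _ ha4 _ r4
  have hle : St F t3n t3hn ≤ I := by
    refine nak_St t3n t3hn 5 rfl I fun j hj => ?_
    interval_cases j
    · exact m1
    · exact m2
    · exact r5
    · exact m3
    · exact r6
    · exact m5
  have hmem : D2 D f - (t4c (D (cf f 2 0) / (((e : F) + 2) * cf f 2 0)) V +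
      t4c (D (cf f 0 4) / (4 * cf f 0 4)) (X * Wh f)) ∈ St F t3n t3hn := by
    apply t3_St
    rw [hV]
    simp only [t4_cf_sub, t4_cf_add, t4_cf_x, t4_cf_w, t4_cf_const, cf_Qh, cf_Wh, cf_D2, h00,
      h01, h02, h03, h10, h11, h12, map_zero]
    norm_num
    constructor
    · field_simp
      ring
    · field_simp
      ring
  have h7 : t4c (D (cf f 2 0) / (((e : F) + 2) * cf f 2 0)) V +
      t4c (D (cf f 0 4) / (4 * cf f 0 4)) (X * Wh f) ∈ I :=
    I.add_mem (I.mul_mem_left _ hVI) (I.mul_mem_left _ (I.mul_mem_left _ hW))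
  have h8 := I.add_mem (hle hmem) h7
  rw [sub_add_cancel] at h8
  exact h8

end H37.LM
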