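import Pool.Agent.H37.LM.Stair

/-!
# Types I and II   [H37 LM Types]

In both cases `D2 D f ∈ St n` (`mem_St`, `cf_D2`: the relevant coefficients of `f` vanish), and
`St n ≤ span {Qh e f, Wh f}` by `nak_St`.  All coefficients of `Qh e f`, `Wh f`: `cf_Qh`, `cf_Wh`.
To prove `C (X ^ n j) * X ^ j ∈ I ⊔ mm * St n` exhibit a combination `z` of multiples of `Qh e f`, `Wh f`
(constants `C (C c)` allowed) with `C (X ^ n j) * X ^ j - z ∈ mm * St n` (`mem_mSt`).  The generators
`C (X ^ n j) * X ^ j` which are multiples (by `x` or `w`) of other generators are in `mm * St n`.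

Type I: `n j = 1` for `j < r - 1` and `n j = 0` for `j ≥ r - 1`; essential generators `x`, `w ^ (r - 1)`.
Modulo `mm * St n`: `Qh e f ≡ (e + 1) (cf f 1 0) x` and
`Wh f ≡ r (cf f 0 r) w ^ (r - 1) + (cf f 1 1) x`.

Type II (`3 ≤ r`): `n 0 = 2`, `n j = 1` for `1 ≤ j < r`, `n j = 0` for `j ≥ r`; essential generators
`x ^ 2`, `x w`, `w ^ r`.  With `α = cf f 0 r`, `β = cf f 1 1`, `γ = cf f 2 0`, modulo `mm * St n`:
`w Wh f ≡ r α w ^ r + β x w`, `Qh e f ≡ e α w ^ r + (e + 1) β x w + (e + 2) γ x ^ 2`, `x Wh f ≡ β x ^ 2`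
(here `r ≥ 3` is used: the term `r α x w ^ (r - 1)` is in `mm * St n`).  The determinant is
`α β ^ 2 (r (e + 1) - e) ≠ 0`.
-/

noncomputable section

open PowerSeries

namespace H37.LM

variable {F : Type*} [Field F] [CharZero F]

omit [CharZero F] in
theorem cf_add' (f g : F⟦X⟧⟦X⟧) (i j : ℕ) : cf (f + g) i j = cf f i j + cf g i j := by
  simp [cf]

omit [CharZero F] in
theorem cf_sub' (f g : F⟦X⟧⟦X⟧) (i j : ℕ) : cf (f - g) i j = cf f i j - cf g i j := by
  simp [cf]

omit [CharZero F] in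
theorem cf_CC_mul (c : F) (f : F⟦X⟧⟦X⟧) (i j : ℕ) : cf (C (C c) * f) i j = c * cf f i j := by
  unfold cf
  rw [coeff_C_mul, coeff_C_mul]

omit [CharZero F] in
theorem cf_gen (a b i j : ℕ) :
    cf (C (X ^ a) * X ^ b : F⟦X⟧⟦X⟧) i j = if i = a ∧ j = b then 1 else 0 := by
  unfold cf
  rw [coeff_C_mul, coeff_X_pow]
  by_cases h : j = b
  · rw [if_pos h, mul_one, coeff_X_pow]
    simp [h]
  · rw [if_neg h, mul_zero]
    simp [h]

omit [CharZero F] in
theorem cf_X_mul_zero (f : F⟦X⟧⟦X⟧) (i : ℕ) : cf (X * f) i 0 = 0 := by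
  unfold cf
  rw [coeff_zero_X_mul, map_zero]

omit [CharZero F] in
theorem cf_X_mul_succ (f : F⟦X⟧⟦X⟧) (i j : ℕ) : cf (X * f) i (j + 1) = cf f i j := by
  unfold cf
  rw [coeff_succ_X_mul]

omit [CharZero F] in
theorem cf_CX_mul_zero (f : F⟦X⟧⟦X⟧) (j : ℕ) : cf (C X * f) 0 j = 0 := by
  unfold cf
  rw [coeff_C_mul, coeff_zero_X_mul]

omit [CharZero F] in
theorem cf_CX_mul_succ (f : F⟦X⟧⟦X⟧) (i j : ℕ) : cf (C X * f) (i + 1) j = cf f i j := by
  unfold cf
  rw [coeff_C_mul, coeff_succ_X_mul]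

omit [CharZero F] in
theorem mem_sup_of_sub {I J : Ideal F⟦X⟧⟦X⟧} (g z : F⟦X⟧⟦X⟧) (hz : z ∈ I) (h : g - z ∈ J) :
    g ∈ I ⊔ J := by
  have : g = z + (g - z) := by ring
  rw [this]
  exact Submodule.add_mem_sup hz h

/-- The staircase of type I. -/
def nI (r : ℕ) (j : ℕ) : ℕ := if j < r - 1 then 1 else 0

theorem nI_antitone (r : ℕ) : Antitone (nI r) := by
  intro a b hab
  unfold nI
  split_ifs <;> omega

/-- The staircase of type II. -/
def nII (r : ℕ) (j : ℕ) : ℕ := if j = 0 then 2 else if j < r then 1 else 0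

theorem nII_antitone (r : ℕ) : Antitone (nII r) := by
  intro a b hab
  unfold nII
  split_ifs <;> omega

theorem typeI (e r : ℕ) (he : 1 ≤ e) (hr : 2 ≤ r) (f : F⟦X⟧⟦X⟧) (h0 : ∀ j < r, cf f 0 j = 0)
    (h1 : cf f 0 r ≠ 0) (h2 : cf f 1 0 ≠ 0) (D : Derivation ℤ F F) :
    D2 D f ∈ Ideal.span {Qh e f, Wh f} := by
  have hQ : Qh e f ∈ Ideal.span {Qh e f, Wh f} := Ideal.subset_span (by simp)
  have hW : Wh f ∈ Ideal.span {Qh e f, Wh f} := Ideal.subset_span (by simp)
  have he1 : ((e : F) + 1) ≠ 0 := by exact_mod_cast Nat.succ_ne_zero e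
  have hr1 : (r : F) ≠ 0 := by exact_mod_cast (by omega : r ≠ 0)
  have hn0 : nI r 0 = 1 := by
    unfold nI
    rw [if_pos (by omega)]
  have hnN : nI r (r - 1) = 0 := by
    unfold nI
    rw [if_neg (by omega)]
  -- membership in the small ideal
  have hmem : ∀ z : F⟦X⟧⟦X⟧, cf z 0 0 = 0 → cf z 1 0 = 0 →
      (∀ j, j + 1 < r → cf z 0 (j + 1) = 0) → z ∈ mm F * St F (nI r) (nI_antitone r) := by
    intro z z0 z1 zj
    refine mem_mSt (nI r) (nI_antitone r) (r - 1) hnN z ?_ ?_
    · intro i hi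
      rw [hn0] at hi
      interval_cases i
      · exact z0
      · exact z1
    · intro i j hij
      have hj : j < r - 1 := by
        by_contra hcon
        have : nI r j = 0 := by
          unfold nI
          rw [if_neg hcon]
        rw [this] at hij
        simp at hij
      have hi : i < nI r j := lt_of_lt_of_le hij (min_le_right _ _)
      unfold nI at hi
      rw [if_pos hj] at hi
      have hi0 : i = 0 := by omega
      subst hi0
      exact zj j (by omega)
  refine nak_St (nI r) (nI_antitone r) (r - 1) hnN _ ?_ ?_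
  · intro j hj
    rcases Nat.eq_zero_or_pos j with rfl | hjpos
    · -- the generator `x`
      rw [hn0]
      refine mem_sup_of_sub _ (C (C (((e : F) + 1) * cf f 1 0)⁻¹) * Qh e f)
        (Ideal.mul_mem_left _ _ hQ) (hmem _ ?_ ?_ ?_)
      · rw [cf_sub', cf_gen, cf_CC_mul, cf_Qh, h0 0 (by omega)]
        simp
      · rw [cf_sub', cf_gen, cf_CC_mul, cf_Qh]
        simp only [and_self, if_true, Nat.cast_one]
        rw [inv_mul_cancel₀ (mul_ne_zero he1 h2), sub_self]
      · intro j hj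
        rw [cf_sub', cf_gen, cf_CC_mul, cf_Qh, h0 (j + 1) hj]
        simp
    · rcases Nat.lt_or_ge j (r - 1) with hlt | hge
      · -- `x w ^ j`
        have hnj : nI r j = 1 := by
          unfold nI
          rw [if_pos hlt]
        rw [hnj]
        refine Submodule.mem_sup_right (hmem _ ?_ ?_ ?_)
        · rw [cf_gen]; simp
        · rw [cf_gen, if_neg (by omega)]
        · intro j' _
          rw [cf_gen]; simp
      · -- `w ^ (r - 1)`
        have hjr : j = r - 1 := by omega
        subst hjr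
        rw [hnN]
        refine mem_sup_of_sub _ (C (C ((r : F) * cf f 0 r)⁻¹) * Wh f -
          C (C (((r : F) * cf f 0 r)⁻¹ * cf f 1 1 * (((e : F) + 1) * cf f 1 0)⁻¹)) * Qh e f)
          (Ideal.sub_mem _ (Ideal.mul_mem_left _ _ hW) (Ideal.mul_mem_left _ _ hQ))
          (hmem _ ?_ ?_ ?_)
        · rw [cf_sub', cf_sub', cf_gen, cf_CC_mul, cf_CC_mul, cf_Qh, cf_Wh, h0 0 (by omega),
            h0 (0 + 1) (by omega), if_neg (by omega)]
          simp
        · rw [cf_sub', cf_sub', cf_gen, cf_CC_mul, cf_CC_mul, cf_Qh, cf_Wh, if_neg (by omega)]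
          simp only [Nat.cast_zero, zero_add, one_mul, Nat.cast_one]
          have h3 : (((e : F) + 1) * cf f 1 0)⁻¹ * (((e : F) + 1) * cf f 1 0) = 1 :=
            inv_mul_cancel₀ (mul_ne_zero he1 h2)
          linear_combination (((r : F) * cf f 0 r)⁻¹ * cf f 1 1) * h3
        · intro j hj
          rw [cf_sub', cf_sub', cf_gen, cf_CC_mul, cf_CC_mul, cf_Qh, cf_Wh, h0 (j + 1) hj]
          rcases Nat.lt_or_ge (j + 1 + 1) r with h4 | h4
          · rw [h0 (j + 1 + 1) h4, if_neg (by omega)]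
            simp
          · have h5 : r = j + 1 + 1 := by omega
            rw [if_pos (by omega)]
            subst h5
            have h3 : (((j + 1 + 1 : ℕ) : F) * cf f 0 (j + 1 + 1))⁻¹ *
                (((j + 1 + 1 : ℕ) : F) * cf f 0 (j + 1 + 1)) = 1 :=
              inv_mul_cancel₀ (mul_ne_zero hr1 h1)
            push_cast at h3 ⊢
            linear_combination -h3
  · rw [mem_St]
    intro i j hij
    rw [cf_D2]
    have hj : j < r - 1 := by
      by_contra hcon
      unfold nI at hij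
      rw [if_neg hcon] at hij
      omega
    have hi : i = 0 := by
      unfold nI at hij
      rw [if_pos hj] at hij
      omega
    subst hi
    rw [h0 j (by omega), map_zero]

theorem typeII (e r : ℕ) (he : 1 ≤ e) (hr : 3 ≤ r) (f : F⟦X⟧⟦X⟧) (h0 : ∀ j < r, cf f 0 j = 0)
    (h1 : cf f 0 r ≠ 0) (h2 : cf f 1 0 = 0) (h3 : cf f 1 1 ≠ 0) (D : Derivation ℤ F F) :
    D2 D f ∈ Ideal.span {Qh e f, Wh f} := by
  have hQ : Qh e f ∈ Ideal.span {Qh e f, Wh f} := Ideal.subset_span (by simp)
  have hW : Wh f ∈ Ideal.span {Qh e f, Wh f} := Ideal.subset_span (by simp)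
  have hdet : ((r : F) * ((e : F) + 1) - e) ≠ 0 := by
    obtain ⟨k, hk, hk0⟩ : ∃ k : ℕ, r * (e + 1) = k + e ∧ k ≠ 0 := by
      refine ⟨r * (e + 1) - e, ?_, ?_⟩
      · have : e ≤ r * (e + 1) := by nlinarith
        omega
      · have : e < r * (e + 1) := by nlinarith
        omega
    have h4 : (r : F) * ((e : F) + 1) = (k : F) + e := by exact_mod_cast hk
    rw [h4, add_sub_cancel_right]
    exact_mod_cast hk0
  have hn0 : nII r 0 = 2 := by simp [nII]
  have hnN : nII r r = 0 := by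
    unfold nII
    rw [if_neg (by omega), if_neg (by omega)]
  have hn1 : ∀ j, 1 ≤ j → j < r → nII r j = 1 := by
    intro j hj hjr
    unfold nII
    rw [if_neg (by omega), if_pos hjr]
  have hmem : ∀ z : F⟦X⟧⟦X⟧, cf z 0 0 = 0 → cf z 1 0 = 0 → cf z 2 0 = 0 → cf z 0 1 = 0 →
      cf z 1 1 = 0 → (∀ j, 2 ≤ j → j ≤ r → cf z 0 j = 0) →
      z ∈ mm F * St F (nII r) (nII_antitone r) := by
    intro z z00 z10 z20 z01 z11 zj
    refine mem_mSt (nII r) (nII_antitone r) r hnN z ?_ ?_
    · intro i hi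
      rw [hn0] at hi
      interval_cases i
      · exact z00
      · exact z10
      · exact z20
    · intro i j hij
      rcases Nat.eq_zero_or_pos j with rfl | hj
      · rw [hn0, hn1 (0 + 1) (by omega) (by omega)] at hij
        have hi : i < 2 := by simpa using hij
        interval_cases i
        · exact z01
        · exact z11
      · rcases Nat.lt_or_ge j r with hjr | hjr
        · rw [hn1 j hj hjr] at hij
          have hi : i = 0 := by
            have := lt_of_lt_of_le hij (min_le_right _ _)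
            omega
          subst hi
          exact zj (j + 1) (by omega) (by omega)
        · have h5 : nII r j = 0 := by
            unfold nII
            rw [if_neg (by omega), if_neg (by omega)]
          rw [h5] at hij
          simp at hij
  -- the three elements
  set α := cf f 0 r with hα
  set β := cf f 1 1 with hβ
  set γ := cf f 2 0 with hγ
  have w00 : cf (Wh f) 0 0 = 0 := by rw [cf_Wh, h0 (0 + 1) (by omega), mul_zero]
  have w10 : cf (Wh f) 1 0 = β := by rw [cf_Wh]; simp [hβ]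
  have w01 : cf (Wh f) 0 1 = 0 := by rw [cf_Wh, h0 (1 + 1) (by omega), mul_zero]
  have w0j : ∀ j, j + 1 < r → cf (Wh f) 0 j = 0 := by
    intro j hj
    rw [cf_Wh, h0 (j + 1) hj, mul_zero]
  have w0r : cf (Wh f) 0 (r - 1) = (r : F) * α := by
    obtain ⟨s, rfl⟩ : ∃ s, r = s + 1 := ⟨r - 1, by omega⟩
    rw [cf_Wh, Nat.add_sub_cancel, hα]
    push_cast
    ring
  have q00 : cf (Qh e f) 0 0 = 0 := by rw [cf_Qh, h0 0 (by omega), mul_zero]
  have q10 : cf (Qh e f) 1 0 = 0 := by rw [cf_Qh, h2, mul_zero]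
  have q20 : cf (Qh e f) 2 0 = ((e : F) + 2) * γ := by
    rw [cf_Qh, hγ]
    push_cast
    ring
  have q01 : cf (Qh e f) 0 1 = 0 := by rw [cf_Qh, h0 1 (by omega), mul_zero]
  have q11 : cf (Qh e f) 1 1 = ((e : F) + 1) * β := by
    rw [cf_Qh, hβ]
    push_cast
    ring
  have q0j : ∀ j, j < r → cf (Qh e f) 0 j = 0 := by
    intro j hj
    rw [cf_Qh, h0 j hj, mul_zero]
  have q0r : cf (Qh e f) 0 r = (e : F) * α := by
    rw [cf_Qh, hα]
    push_cast
    ring
  -- general combination `a * X Wh + b * Qh + c * x Wh`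
  have hcomb : ∀ (p q : ℕ) (a b c : F),
      cf (C (X ^ p) * X ^ q : F⟦X⟧⟦X⟧) 0 0 = 0 → cf (C (X ^ p) * X ^ q : F⟦X⟧⟦X⟧) 1 0 = 0 →
      cf (C (X ^ p) * X ^ q : F⟦X⟧⟦X⟧) 0 1 = 0 →
      (∀ j, 2 ≤ j → j < r → cf (C (X ^ p) * X ^ q : F⟦X⟧⟦X⟧) 0 j = 0) →
      cf (C (X ^ p) * X ^ q : F⟦X⟧⟦X⟧) 2 0 = b * (((e : F) + 2) * γ) + c * β →
      cf (C (X ^ p) * X ^ q : F⟦X⟧⟦X⟧) 1 1 = a * β + b * (((e : F) + 1) * β) →
      cf (C (X ^ p) * X ^ q : F⟦X⟧⟦X⟧) 0 r = a * ((r : F) * α) + b * ((e : F) * α) →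
      (C (X ^ p) * X ^ q : F⟦X⟧⟦X⟧) ∈ Ideal.span {Qh e f, Wh f} ⊔
        mm F * St F (nII r) (nII_antitone r) := by
    intro p q a b c g00 g10 g01 g0j g20 g11 g0r
    refine mem_sup_of_sub _ (C (C a) * (X * Wh f) + C (C b) * Qh e f + C (C c) * (C X * Wh f))
      (Ideal.add_mem _ (Ideal.add_mem _ (Ideal.mul_mem_left _ _ (Ideal.mul_mem_left _ _ hW))
        (Ideal.mul_mem_left _ _ hQ)) (Ideal.mul_mem_left _ _ (Ideal.mul_mem_left _ _ hW)))
      (hmem _ ?_ ?_ ?_ ?_ ?_ ?_)
    · rw [cf_sub', cf_add', cf_add', cf_CC_mul, cf_CC_mul, cf_CC_mul, g00, cf_X_mul_zero, q00,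
        cf_CX_mul_zero]
      ring
    · rw [cf_sub', cf_add', cf_add', cf_CC_mul, cf_CC_mul, cf_CC_mul, g10, cf_X_mul_zero, q10,
        cf_CX_mul_succ _ 0 0, w00]
      ring
    · rw [cf_sub', cf_add', cf_add', cf_CC_mul, cf_CC_mul, cf_CC_mul, g20, cf_X_mul_zero, q20,
        cf_CX_mul_succ _ 1 0, w10]
      ring
    · rw [cf_sub', cf_add', cf_add', cf_CC_mul, cf_CC_mul, cf_CC_mul, g01, cf_X_mul_succ _ 0 0,
        q01, cf_CX_mul_zero, w00]
      ring
    · rw [cf_sub', cf_add', cf_add', cf_CC_mul, cf_CC_mul, cf_CC_mul, g11, cf_X_mul_succ _ 1 0,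
        q11, cf_CX_mul_succ _ 0 1, w01, w10]
      ring
    · intro j hj2 hjr
      obtain ⟨s, rfl⟩ : ∃ s, j = s + 1 := ⟨j - 1, by omega⟩
      rw [cf_sub', cf_add', cf_add', cf_CC_mul, cf_CC_mul, cf_CC_mul, cf_X_mul_succ,
        cf_CX_mul_zero]
      rcases Nat.lt_or_ge (s + 1) r with h4 | h4
      · rw [g0j (s + 1) hj2 h4, w0j s h4, q0j (s + 1) h4]
        ring
      · have h5 : s = r - 1 := by omega
        have h6 : s + 1 = r := by omega
        rw [h6, g0r, q0r, h5, w0r]
        ring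
  refine nak_St (nII r) (nII_antitone r) r hnN _ ?_ ?_
  · intro j hj
    rcases Nat.eq_zero_or_pos j with rfl | hjpos
    · rw [hn0]
      refine hcomb 2 0 0 0 β⁻¹ ?_ ?_ ?_ ?_ ?_ ?_ ?_
      · rw [cf_gen]; simp
      · rw [cf_gen]; simp
      · rw [cf_gen]; simp
      · intro j _ _
        rw [cf_gen]; simp
      · rw [cf_gen]
        simp [h3]
      · rw [cf_gen]; simp
      · rw [cf_gen, if_neg (by omega)]; simp
    · rcases Nat.lt_or_ge j r with hjr | hjr
      · rw [hn1 j hjpos hjr]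
        rcases Nat.lt_or_ge j 2 with h4 | h4
        · have h5 : j = 1 := by omega
          subst h5
          -- `x w`: `(r h2 - e g1) / (r (e+1) - e) / β`
          refine hcomb 1 1 (-(e : F) * (((r : F) * ((e : F) + 1) - e) * β)⁻¹)
            ((r : F) * (((r : F) * ((e : F) + 1) - e) * β)⁻¹)
            (-((r : F) * (((r : F) * ((e : F) + 1) - e) * β)⁻¹ * (((e : F) + 2) * γ)) * β⁻¹)
            ?_ ?_ ?_ ?_ ?_ ?_ ?_
          · rw [cf_gen]; simp
          · rw [cf_gen]; simp
          · rw [cf_gen]; simp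
          · intro j _ _
            rw [cf_gen]; simp
          · rw [cf_gen, if_neg (by omega)]
            field_simp
            ring
          · rw [cf_gen]
            simp only [and_self, if_true]
            field_simp
            ring
          · rw [cf_gen, if_neg (by omega)]
            ring
        · refine Submodule.mem_sup_right (hmem _ ?_ ?_ ?_ ?_ ?_ ?_)
          · rw [cf_gen]; simp
          · rw [cf_gen, if_neg (by omega)]
          · rw [cf_gen, if_neg (by omega)]
          · rw [cf_gen, if_neg (by omega)]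
          · rw [cf_gen, if_neg (by omega)]
          · intro j' _ _
            rw [cf_gen]; simp
      · have h5 : j = r := by omega
        subst h5
        rw [hnN]
        -- `w ^ r`: `((e+1) g1 - h2) / ((r (e+1) - e) α)`
        refine hcomb 0 j (((e : F) + 1) * (((j : F) * ((e : F) + 1) - e) * α)⁻¹)
          (-(((j : F) * ((e : F) + 1) - e) * α)⁻¹)
          ((((j : F) * ((e : F) + 1) - e) * α)⁻¹ * (((e : F) + 2) * γ) * β⁻¹)
          ?_ ?_ ?_ ?_ ?_ ?_ ?_
        · rw [cf_gen, if_neg (by omega)]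
        · rw [cf_gen, if_neg (by omega)]
        · rw [cf_gen, if_neg (by omega)]
        · intro j' _ _
          rw [cf_gen, if_neg (by omega)]
        · rw [cf_gen, if_neg (by omega)]
          field_simp
          ring
        · rw [cf_gen, if_neg (by omega)]
          ring
        · rw [cf_gen]
          simp only [and_self, if_true]
          have h6 : (((j : F) * ((e : F) + 1) - e) * α)⁻¹ * (((j : F) * ((e : F) + 1) - e) * α) =
              1 := inv_mul_cancel₀ (mul_ne_zero hdet h1)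
          linear_combination -h6
  · rw [mem_St]
    intro i j hij
    rw [cf_D2]
    rcases Nat.eq_zero_or_pos j with rfl | hj
    · rw [hn0] at hij
      interval_cases i
      · rw [h0 0 (by omega), map_zero]
      · rw [h2, map_zero]
    · rcases Nat.lt_or_ge j r with hjr | hjr
      · rw [hn1 j hj hjr] at hij
        have hi : i = 0 := by omega
        subst hi
        rw [h0 j hjr, map_zero]
      · unfold nII at hij
        rw [if_neg (by omega), if_neg (by omega)] at hij
        omega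

end H37.LM
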