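import Pool.Agent.H37.LM.RTwo
import Pool.Agent.H37.LM.RThree
import Pool.Agent.H37.LM.RFour
import Pool.Agent.H37.LM.Types
import Pool.Agent.H37.LM.TypeThree
import Pool.Agent.H37.LM.TypeFour

/-!
# The local theorem
-/

noncomputable section

open PowerSeries

namespace H37.LM

variable {F : Type*} [Field F] [CharZero F] [IsAlgClosed F]

theorem loc_main (e r : ℕ) (h3r : 3 ≤ r) (hre : r ≤ e) (he5 : e ≤ 5) (f : F⟦X⟧⟦X⟧)
    (h0 : ∀ j < r, cf f 0 j = 0) (h1 : cf f 0 r ≠ 0) (hG3 : G3loc e f) (hG2 : G2loc f)
    (h5 : e = 5 → cf f 1 0 ≠ 0 ∨ cf f 1 1 ≠ 0) (h4 : e = 4 → cf f 2 0 ≠ 0 ∨ cf f 2 1 ≠ 0) :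
    CodimTwo F (fun D => D2 D f ∈ Ideal.span {Qh e f, Wh f}) := by
  have he : 1 ≤ e := by omega
  by_cases hr3 : r = 3
  · subst hr3
    exact r3_mem e he f h0 h1 hG3 hG2
  by_cases c10 : cf f 1 0 = 0
  · by_cases c11 : cf f 1 1 = 0
    · have he4 : e = 4 := by
        rcases Nat.lt_or_ge e 5 with h | h
        · omega
        · exfalso
          rcases h5 (by omega) with h | h
          · exact h c10
          · exact h c11
      have hr4 : r = 4 := by omega
      subst he4
      subst hr4
      by_cases c12 : cf f 1 2 = 0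
      · have h2 : ∀ j ≤ 2, cf f 1 j = 0 := by
          intro j hj
          interval_cases j
          · exact c10
          · exact c11
          · exact c12
        by_cases c20 : cf f 2 0 = 0
        · have c21 : cf f 2 1 ≠ 0 := by
            rcases h4 rfl with h | h
            · exact absurd c20 h
            · exact h
          exact typeIV f h0 h1 h2 c20 c21
        · exact CodimTwo.of_forall fun D => typeIII 4 he f h0 h1 h2 c20 D
      · exact r4_mem 4 he f h0 h1 c11 c12 hG3
    · exact CodimTwo.of_forall fun D => typeII e r he h3r f h0 h1 c10 c11 D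
  · exact CodimTwo.of_forall fun D => typeI e r he (by omega) f h0 h1 c10 D

end H37.LM
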