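import Pool.Agent.H37.LM.TTCore

/-!
# Simple directions, several parameters   [H37 LM LocSimple]

Same proof as `loc_of_simple` (`TTCore.lean`), with parameter `s` near `s0` instead of `t` near `0`.
At `x = 0`: `Qf K e (c s0) w0 0 = e * Ft K e (c s0) w0 0` by `hlow` (only the terms with `i + j = e`
survive).  If `Ft ≠ 0` then `Qf ≠ 0` near the point: `α = - Ft (b) / Qf (c)`, `β = 0`; if `Wf ≠ 0`:
`α = 0`, `β = - Ft (b) / Wf (c)`.  All functions are finite sums of smooth functions of `s` times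
polynomials in `w, x` (`ContDiffOn.contDiffAt` at `s0`, `hV.mem_nhds hs0`).
-/

noncomputable section

open Set Filter Topology
open scoped ContDiff

namespace H37.LM

section multi

variable {m : ℕ}

theorem contDiffAt_Ft_multi (K e : ℕ) (b : (Fin m → ℝ) → ℕ → ℕ → ℂ) (s0 : Fin m → ℝ)
    (hb : ∀ i j, ContDiffAt ℝ 1 (fun t => b t i j) s0) (w0 : ℂ) :
    ContDiffAt ℝ 1 (fun z : (Fin m → ℝ) × ℂ × ℂ => Ft K e (b z.1) z.2.1 z.2.2)
      (s0, w0, (0 : ℂ)) := by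
  unfold Ft
  refine ContDiffAt.sum fun i _ => ContDiffAt.sum fun j _ => ?_
  have h1 : ContDiffAt ℝ 1 (fun z : (Fin m → ℝ) × ℂ × ℂ => b z.1 i j) (s0, w0, (0 : ℂ)) :=
    ContDiffAt.comp (g := fun t => b t i j) (f := fun z : (Fin m → ℝ) × ℂ × ℂ => z.1)
      (s0, w0, (0 : ℂ)) (hb i j) contDiffAt_fst
  exact (h1.mul (contDiffAt_snd.fst.pow j)).mul (contDiffAt_snd.snd.pow _)

theorem contDiffAt_Qf_multi (K e : ℕ) (b : (Fin m → ℝ) → ℕ → ℕ → ℂ) (s0 : Fin m → ℝ)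
    (hb : ∀ i j, ContDiffAt ℝ 1 (fun t => b t i j) s0) (w0 : ℂ) :
    ContDiffAt ℝ 1 (fun z : (Fin m → ℝ) × ℂ × ℂ => Qf K e (b z.1) z.2.1 z.2.2)
      (s0, w0, (0 : ℂ)) := by
  unfold Qf
  refine ContDiffAt.sum fun i _ => ContDiffAt.sum fun j _ => ?_
  have h1 : ContDiffAt ℝ 1 (fun z : (Fin m → ℝ) × ℂ × ℂ => b z.1 i j) (s0, w0, (0 : ℂ)) :=
    ContDiffAt.comp (g := fun t => b t i j) (f := fun z : (Fin m → ℝ) × ℂ × ℂ => z.1)
      (s0, w0, (0 : ℂ)) (hb i j) contDiffAt_fst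
  exact ((contDiffAt_const.mul h1).mul (contDiffAt_snd.fst.pow j)).mul
    (contDiffAt_snd.snd.pow _)

theorem contDiffAt_Wf_multi (K e : ℕ) (b : (Fin m → ℝ) → ℕ → ℕ → ℂ) (s0 : Fin m → ℝ)
    (hb : ∀ i j, ContDiffAt ℝ 1 (fun t => b t i j) s0) (w0 : ℂ) :
    ContDiffAt ℝ 1 (fun z : (Fin m → ℝ) × ℂ × ℂ => Wf K e (b z.1) z.2.1 z.2.2)
      (s0, w0, (0 : ℂ)) := by
  unfold Wf
  refine ContDiffAt.sum fun i _ => ContDiffAt.sum fun j _ => ?_
  have h1 : ContDiffAt ℝ 1 (fun z : (Fin m → ℝ) × ℂ × ℂ => b z.1 i j) (s0, w0, (0 : ℂ)) :=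
    ContDiffAt.comp (g := fun t => b t i j) (f := fun z : (Fin m → ℝ) × ℂ × ℂ => z.1)
      (s0, w0, (0 : ℂ)) (hb i j) contDiffAt_fst
  exact (h1.mul (contDiffAt_const.mul (contDiffAt_snd.fst.pow _))).mul
    (contDiffAt_snd.snd.pow _)

end multi

theorem loc_simple_multi {m : ℕ} (K e : ℕ) (he : 1 ≤ e) (V : Set (Fin m → ℝ)) (hV : IsOpen V)
    (s0 : Fin m → ℝ) (hs0 : s0 ∈ V) (c b : ℕ → ℕ → (Fin m → ℝ) → ℂ)
    (hc : ∀ i j, ContDiffOn ℝ ∞ (c i j) V) (hb : ∀ i j, ContDiffOn ℝ ∞ (b i j) V) (w0 : ℂ)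
    (h : Ft K e (fun i j => c i j s0) w0 0 ≠ 0 ∨ Wf K e (fun i j => c i j s0) w0 0 ≠ 0)
    (hlow : ∀ i j, i + j < e → c i j s0 = 0) :
    ∃ α β : (Fin m → ℝ) × ℂ × ℂ → ℂ,
      ContDiffAt ℝ 1 α (s0, w0, (0 : ℂ)) ∧ ContDiffAt ℝ 1 β (s0, w0, (0 : ℂ)) ∧
      ∀ᶠ z in 𝓝 (s0, w0, (0 : ℂ)),
        Ft K e (fun i j => b i j z.1) z.2.1 z.2.2 +
          α z * Qf K e (fun i j => c i j z.1) z.2.1 z.2.2 +
          β z * Wf K e (fun i j => c i j z.1) z.2.1 z.2.2 = 0 := by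
  have hca : ∀ i j, ContDiffAt ℝ 1 (fun t => (fun s i j => c i j s) t i j) s0 := fun i j =>
    ((hc i j).contDiffAt (hV.mem_nhds hs0)).of_le (by norm_num)
  have hba : ∀ i j, ContDiffAt ℝ 1 (fun t => (fun s i j => b i j s) t i j) s0 := fun i j =>
    ((hb i j).contDiffAt (hV.mem_nhds hs0)).of_le (by norm_num)
  have hQ : Qf K e (fun i j => c i j s0) w0 0 = e * Ft K e (fun i j => c i j s0) w0 0 := by
    unfold Qf Ft
    rw [Finset.mul_sum]
    refine Finset.sum_congr rfl fun i _ => ?_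
    rw [Finset.mul_sum]
    refine Finset.sum_congr rfl fun j _ => ?_
    rcases lt_trichotomy (i + j) e with hij | hij | hij
    · simp [hlow i j hij]
    · have h1 : (e : ℂ) = (i : ℂ) + j := by rw [← hij]; push_cast; ring
      rw [h1]; ring
    · have h1 : i + j - e ≠ 0 := by omega
      simp [h1]
  have hF := contDiffAt_Ft_multi K e (fun s i j => b i j s) s0 hba w0
  rcases h with h | h
  · have hQ0 : Qf K e (fun i j => c i j s0) w0 0 ≠ 0 := by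
      rw [hQ]
      exact mul_ne_zero (by exact_mod_cast (by omega : e ≠ 0)) h
    have hQc := contDiffAt_Qf_multi K e (fun s i j => c i j s) s0 hca w0
    refine ⟨fun z => -(Ft K e (fun i j => b i j z.1) z.2.1 z.2.2 *
      (Qf K e (fun i j => c i j z.1) z.2.1 z.2.2)⁻¹), fun _ => 0,
      (hF.mul (hQc.inv hQ0)).neg, contDiffAt_const, ?_⟩
    have hne := hQc.continuousAt.eventually_ne hQ0
    filter_upwards [hne] with z hz
    field_simp
    ring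
  · have hWc := contDiffAt_Wf_multi K e (fun s i j => c i j s) s0 hca w0
    refine ⟨fun _ => 0, fun z => -(Ft K e (fun i j => b i j z.1) z.2.1 z.2.2 *
      (Wf K e (fun i j => c i j z.1) z.2.1 z.2.2)⁻¹),
      contDiffAt_const, (hF.mul (hWc.inv h)).neg, ?_⟩
    have hne := hWc.continuousAt.eventually_ne h
    filter_upwards [hne] with z hz
    field_simp
    ring

end H37.LM
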