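import Pool.Agent.H37.LM.LowDef

/-!
# Invariants from the comparison of critical values   [H37 LM LowAlg]

Take `X = X_n = 1 / (n + N)`, and an ultrafilter `l` on `ℕ` below `atTop` (`hyperfilter ℕ`).  Along `l`:
`τ` is constant, `X' / X` is bounded and bounded away from `0`, so `X' / X → ω ≠ 0`, `X' → 0`.
Write `V_σ = Vv c d η σ X`, `V_σ' = Vv c' d' η' (τ σ) X'`.  Dividing by `X ^ 12`:
`V_σ = (X' / X) ^ 12 V_σ' + O(X ^ 3)`.
Note `V_1 + V_{-1} = - 2 + 24 η c ^ 4 X ^ 2` and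
`V_1 - V_{-1} = - 4 c ^ 3 + 2 c d X + (12 η c - d ^ 2 / (6 c)) X ^ 2`.
* `alg0`: sum at order `0`: `- 2 = ω ^ 12 (- 2)`, so `ω ^ 12 = 1`; difference: `c ^ 3 = τ c' ^ 3`.
* `alg1` (`c' = c`): then `τ = 1`.  Sum: `(X' / X) ^ 12 = 1 + O(X ^ 2)`.  Difference:
  `- 4 c ^ 3 + 2 c d X = (X'/X) ^ 12 (- 4 c ^ 3 + 2 c d' X') + O(X ^ 2)`, so
  `2 c d X = 2 c d' X' + O(X ^ 2)`: divide by `2 c X`: `d = ω d'`.
* `alg2` (`c' = c`, `d' = d ≠ 0`): `ω = 1` by `d = ω d`.  `(X' / X) ^ 12 = 1 + O(X ^ 2)` and `X' / X → 1` give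
  `X' / X = 1 + ζ X ^ 2` with `ζ` bounded (`z ^ 12 - 1 = (z - 1) (z ^ 11 + ... + 1)`), `ζ → ζ0` along `l`.
  Sum at order `X ^ 2`: `24 η c ^ 4 = 24 η' c ^ 4 - 24 ζ0`.
  Difference at order `X ^ 2` (`X' = X + O(X ^ 3)`): `12 η c = 12 η' c - 48 ζ0 c ^ 3`.  Hence
  `(η - η') (12 c - 48 c ^ 7) = 0`, and `4 c ^ 6 ≠ 1`.
-/

noncomputable section

open Set Filter Topology

namespace H37.LM

private theorem alg_core0 (c d η c' d' η' : ℂ) (h : ArcRel c d η c' d' η') :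
    ∃ (l : Ultrafilter ℕ) (X z : ℕ → ℂ) (τ ω : ℂ), (∀ n, X n ≠ 0) ∧
      Tendsto X l (𝓝 0) ∧ Tendsto z l (𝓝 ω) ∧ (τ = 1 ∨ τ = -1) ∧
      ∀ σ : ℂ, (σ = 1 ∨ σ = -1) → Tendsto (fun n =>
        (Vv c d η σ (X n) - z n ^ 12 * Vv c' d' η' (τ * σ) (X n * z n)) / X n ^ 2) l (𝓝 0) := by
  obtain ⟨C, hC, ρ, hρ, h⟩ := h
  choose! X' τ' hh using h
  set x : ℕ → ℝ := fun n => ρ / ((n : ℝ) + 2) with hx
  have hx0 : ∀ n, 0 < x n := fun n => div_pos hρ (by positivity)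
  have hx1 : ∀ n, x n < ρ := by
    intro n
    rw [hx]
    simp only
    rw [div_lt_iff₀ (by positivity)]
    have h1 : (0 : ℝ) ≤ n := Nat.cast_nonneg n
    nlinarith
  have hxt : Tendsto x atTop (𝓝 0) :=
    tendsto_const_nhds.div_atTop (tendsto_atTop_add_const_right _ _ tendsto_natCast_atTop_atTop)
  set l : Ultrafilter ℕ := hyperfilter ℕ with hl
  have hla : (l : Filter ℕ) ≤ atTop := Nat.hyperfilter_le_atTop
  have hxl : Tendsto x l (𝓝 0) := hxt.mono_left hla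
  set z : ℕ → ℂ := fun n => X' (x n) / (x n : ℂ) with hz
  have hxc : ∀ n, ((x n : ℝ) : ℂ) ≠ 0 := fun n => by exact_mod_cast (hx0 n).ne'
  have hzC : ∀ n, ‖z n‖ ≤ C := by
    intro n
    rw [hz]
    simp only
    rw [norm_div, Complex.norm_real, Real.norm_eq_abs, abs_of_pos (hx0 n), div_le_iff₀ (hx0 n)]
    exact (hh (x n) (hx0 n) (hx1 n)).2.2.1
  obtain ⟨ω, -, hω⟩ := (isCompact_closedBall (0 : ℂ) C).ultrafilter_le_nhds (l.map z) (by
    rw [Ultrafilter.coe_map, le_principal_iff, mem_map]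
    exact Eventually.of_forall (fun n => by
      show z n ∈ Metric.closedBall (0 : ℂ) C
      rw [mem_closedBall_zero_iff]
      exact hzC n))
  have hzt : Tendsto z l (𝓝 ω) := hω
  have hτ : ∀ᶠ n in (l : Filter ℕ), τ' (x n) = 1 ∨ τ' (x n) = -1 :=
    Eventually.of_forall (fun n => (hh (x n) (hx0 n) (hx1 n)).1)
  have hτ2 : ∃ τ : ℂ, (τ = 1 ∨ τ = -1) ∧ ∀ᶠ n in (l : Filter ℕ), τ' (x n) = τ := by
    rcases Ultrafilter.eventually_or.1 hτ with h1 | h1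
    · exact ⟨1, Or.inl rfl, h1⟩
    · exact ⟨-1, Or.inr rfl, h1⟩
  obtain ⟨τ, hτ1, hτe⟩ := hτ2
  refine ⟨l, fun n => (x n : ℂ), z, τ, ω, hxc, ?_, hzt, hτ1, ?_⟩
  · have h1 : Tendsto (fun n => (x n : ℂ)) l (𝓝 ((0 : ℝ) : ℂ)) :=
      (Complex.continuous_ofReal.tendsto 0).comp hxl
    rwa [Complex.ofReal_zero] at h1
  · intro σ hσ
    have hb : Tendsto (fun n => C * x n) l (𝓝 0) := by simpa using hxl.const_mul C
    refine squeeze_zero_norm' ?_ hb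
    filter_upwards [hτe] with n hn
    have h1 := (hh (x n) (hx0 n) (hx1 n)).2.2.2 σ hσ
    rw [hn] at h1
    have h2 : X' (x n) = (x n : ℂ) * z n := by
      rw [hz]
      simp only
      field_simp [hxc n]
    rw [h2] at h1
    have h3 : (x n : ℂ) ^ 12 * Vv c d η σ (x n) -
        ((x n : ℂ) * z n) ^ 12 * Vv c' d' η' (τ * σ) ((x n : ℂ) * z n)
        = (x n : ℂ) ^ 12 * (Vv c d η σ (x n) - z n ^ 12 * Vv c' d' η' (τ * σ) ((x n : ℂ) * z n)) := by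
      ring
    rw [h3, norm_mul, norm_pow, Complex.norm_real, Real.norm_eq_abs, abs_of_pos (hx0 n)] at h1
    rw [norm_div, norm_pow, Complex.norm_real, Real.norm_eq_abs, abs_of_pos (hx0 n),
      div_le_iff₀ (pow_pos (hx0 n) 2)]
    have h4 : (0 : ℝ) < x n ^ 12 := pow_pos (hx0 n) 12
    refine le_of_mul_le_mul_left ?_ h4
    calc x n ^ 12 * ‖Vv c d η σ (x n) - z n ^ 12 * Vv c' d' η' (τ * σ) ((x n : ℂ) * z n)‖
        ≤ C * x n ^ 15 := h1
      _ = x n ^ 12 * (C * x n * x n ^ 2) := by ring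

private theorem alg_core (c d η c' d' η' : ℂ) (h : ArcRel c d η c' d' η') :
    ∃ (l : Ultrafilter ℕ) (X z : ℕ → ℂ) (τ ω : ℂ), (∀ n, X n ≠ 0) ∧
      Tendsto X l (𝓝 0) ∧ Tendsto z l (𝓝 ω) ∧ (τ = 1 ∨ τ = -1) ∧
      Tendsto (fun n => ((-2 + 24 * η * c ^ 4 * X n ^ 2)
        - z n ^ 12 * (-2 + 24 * η' * c' ^ 4 * (X n * z n) ^ 2)) / X n ^ 2) l (𝓝 0) ∧
      Tendsto (fun n => ((-4 * c ^ 3 + 2 * c * d * X n + (12 * η * c - d ^ 2 / (6 * c)) * X n ^ 2)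
        - z n ^ 12 * (τ * (-4 * c' ^ 3 + 2 * c' * d' * (X n * z n)
          + (12 * η' * c' - d' ^ 2 / (6 * c')) * (X n * z n) ^ 2))) / X n ^ 2) l (𝓝 0) := by
  obtain ⟨l, X, z, τ, ω, hX0, hX, hz, hτ, hV⟩ := alg_core0 c d η c' d' η' h
  have h1 := hV 1 (Or.inl rfl)
  have h2 := hV (-1) (Or.inr rfl)
  have hi : ∀ w : ℂ, w / (6 * c) = 2 * (w / (12 * c)) := by
    intro w
    rw [show (12 : ℂ) * c = 2 * (6 * c) by ring, div_mul_eq_div_div_swap]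
    ring
  have hi' : ∀ w : ℂ, w / (6 * c') = 2 * (w / (12 * c')) := by
    intro w
    rw [show (12 : ℂ) * c' = 2 * (6 * c') by ring, div_mul_eq_div_div_swap]
    ring
  refine ⟨l, X, z, τ, ω, hX0, hX, hz, hτ, ?_, ?_⟩
  · have h3 := h1.add h2
    rw [add_zero] at h3
    refine h3.congr (fun n => ?_)
    rw [← add_div]
    congr 1
    unfold Vv
    rcases hτ with rfl | rfl
    · ring
    · ring
  · have h3 := h1.sub h2
    rw [sub_zero] at h3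
    refine h3.congr (fun n => ?_)
    rw [← sub_div]
    congr 1
    rw [hi, hi']
    unfold Vv
    rcases hτ with rfl | rfl
    · ring
    · ring

theorem alg0 (c d η c' d' η' : ℂ) (h : ArcRel c d η c' d' η') :
    c ^ 3 = c' ^ 3 ∨ c ^ 3 = -c' ^ 3 := by
  obtain ⟨l, X, z, τ, ω, hX0, hX, hz, hτ, hS, hD⟩ := alg_core c d η c' d' η' h
  have hω : ω ^ 12 = 1 := by
    have h1 := hS.mul (hX.pow 2)
    have h2 : Tendsto (fun n => (-2 + 24 * η * c ^ 4 * X n ^ 2)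
        - z n ^ 12 * (-2 + 24 * η' * c' ^ 4 * (X n * z n) ^ 2)) l
        (𝓝 ((-2 + 24 * η * c ^ 4 * 0 ^ 2) - ω ^ 12 * (-2 + 24 * η' * c' ^ 4 * (0 * ω) ^ 2))) :=
      (((hX.pow 2).const_mul _).const_add _).sub
        ((hz.pow 12).mul ((((hX.mul hz).pow 2).const_mul _).const_add _))
    have h3 := tendsto_nhds_unique (h1.congr (fun n => by
      have := hX0 n
      field_simp)) h2
    linear_combination (-1 / 2 : ℂ) * h3
  have hc : c ^ 3 = τ * c' ^ 3 := by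
    have h1 := hD.mul (hX.pow 2)
    have h2 : Tendsto (fun n => (-4 * c ^ 3 + 2 * c * d * X n
        + (12 * η * c - d ^ 2 / (6 * c)) * X n ^ 2)
        - z n ^ 12 * (τ * (-4 * c' ^ 3 + 2 * c' * d' * (X n * z n)
          + (12 * η' * c' - d' ^ 2 / (6 * c')) * (X n * z n) ^ 2))) l
        (𝓝 ((-4 * c ^ 3 + 2 * c * d * 0 + (12 * η * c - d ^ 2 / (6 * c)) * 0 ^ 2)
        - ω ^ 12 * (τ * (-4 * c' ^ 3 + 2 * c' * d' * (0 * ω)
          + (12 * η' * c' - d' ^ 2 / (6 * c')) * (0 * ω) ^ 2)))) :=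
      (((hX.const_mul _).const_add _).add ((hX.pow 2).const_mul _)).sub
        ((hz.pow 12).mul (((((hX.mul hz).const_mul _).const_add _).add
          (((hX.mul hz).pow 2).const_mul _)).const_mul _))
    have h3 := tendsto_nhds_unique (h1.congr (fun n => by
      rw [div_mul_cancel₀ _ (pow_ne_zero 2 (hX0 n))])) h2
    rw [hω] at h3
    linear_combination (1 / 4 : ℂ) * h3
  rcases hτ with rfl | rfl
  · left
    rw [hc, one_mul]
  · right
    rw [hc]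
    ring

private theorem alg_core1 (c d η d' η' : ℂ) (hc : c ≠ 0) (h : ArcRel c d η c d' η') :
    ∃ (l : Ultrafilter ℕ) (X z : ℕ → ℂ) (ω : ℂ), (∀ n, X n ≠ 0) ∧
      Tendsto X l (𝓝 0) ∧ Tendsto z l (𝓝 ω) ∧ ω ^ 12 = 1 ∧ d = ω * d' ∧
      Tendsto (fun n => ((-2 + 24 * η * c ^ 4 * X n ^ 2)
        - z n ^ 12 * (-2 + 24 * η' * c ^ 4 * (X n * z n) ^ 2)) / X n ^ 2) l (𝓝 0) ∧
      Tendsto (fun n => ((-4 * c ^ 3 + 2 * c * d * X n + (12 * η * c - d ^ 2 / (6 * c)) * X n ^ 2)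
        - z n ^ 12 * (-4 * c ^ 3 + 2 * c * d' * (X n * z n)
          + (12 * η' * c - d' ^ 2 / (6 * c)) * (X n * z n) ^ 2)) / X n ^ 2) l (𝓝 0) := by
  obtain ⟨l, X, z, τ, ω, hX0, hX, hz, hτ, hS, hD⟩ := alg_core c d η c d' η' h
  have hω : ω ^ 12 = 1 := by
    have h1 := hS.mul (hX.pow 2)
    have h2 : Tendsto (fun n => (-2 + 24 * η * c ^ 4 * X n ^ 2)
        - z n ^ 12 * (-2 + 24 * η' * c ^ 4 * (X n * z n) ^ 2)) l
        (𝓝 ((-2 + 24 * η * c ^ 4 * 0 ^ 2) - ω ^ 12 * (-2 + 24 * η' * c ^ 4 * (0 * ω) ^ 2))) :=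
      (((hX.pow 2).const_mul _).const_add _).sub
        ((hz.pow 12).mul ((((hX.mul hz).pow 2).const_mul _).const_add _))
    have h3 := tendsto_nhds_unique (h1.congr (fun n => by
      have := hX0 n
      field_simp)) h2
    linear_combination (-1 / 2 : ℂ) * h3
  have hc3 : c ^ 3 = τ * c ^ 3 := by
    have h1 := hD.mul (hX.pow 2)
    have h2 : Tendsto (fun n => (-4 * c ^ 3 + 2 * c * d * X n
        + (12 * η * c - d ^ 2 / (6 * c)) * X n ^ 2)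
        - z n ^ 12 * (τ * (-4 * c ^ 3 + 2 * c * d' * (X n * z n)
          + (12 * η' * c - d' ^ 2 / (6 * c)) * (X n * z n) ^ 2))) l
        (𝓝 ((-4 * c ^ 3 + 2 * c * d * 0 + (12 * η * c - d ^ 2 / (6 * c)) * 0 ^ 2)
        - ω ^ 12 * (τ * (-4 * c ^ 3 + 2 * c * d' * (0 * ω)
          + (12 * η' * c - d' ^ 2 / (6 * c)) * (0 * ω) ^ 2)))) :=
      (((hX.const_mul _).const_add _).add ((hX.pow 2).const_mul _)).sub
        ((hz.pow 12).mul (((((hX.mul hz).const_mul _).const_add _).add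
          (((hX.mul hz).pow 2).const_mul _)).const_mul _))
    have h3 := tendsto_nhds_unique (h1.congr (fun n => by
      rw [div_mul_cancel₀ _ (pow_ne_zero 2 (hX0 n))])) h2
    rw [hω] at h3
    linear_combination (1 / 4 : ℂ) * h3
  have hτ1 : τ = 1 := by
    have h1 : (τ - 1) * c ^ 3 = 0 := by linear_combination -hc3
    rcases mul_eq_zero.1 h1 with h2 | h2
    · exact sub_eq_zero.1 h2
    · exact absurd h2 (pow_ne_zero 3 hc)
  subst hτ1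
  simp only [one_mul] at hD
  refine ⟨l, X, z, ω, hX0, hX, hz, hω, ?_, hS, hD⟩
  have e1 : Tendsto (fun n => 2 * (z n ^ 12 - 1) / X n) l (𝓝 0) := by
    have h2 : Tendsto (fun n => ((-2 + 24 * η * c ^ 4 * X n ^ 2)
        - z n ^ 12 * (-2 + 24 * η' * c ^ 4 * (X n * z n) ^ 2)) / X n ^ 2 * X n
        - 24 * η * c ^ 4 * X n + 24 * η' * c ^ 4 * X n * z n ^ 14) l
        (𝓝 (0 * 0 - 24 * η * c ^ 4 * 0 + 24 * η' * c ^ 4 * 0 * ω ^ 14)) :=
      ((hS.mul hX).sub (hX.const_mul _)).add ((hX.const_mul _).mul (hz.pow 14))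
    have h3 : (0 * 0 - 24 * η * c ^ 4 * 0 + 24 * η' * c ^ 4 * 0 * ω ^ 14 : ℂ) = 0 := by ring
    rw [h3] at h2
    refine h2.congr (fun n => ?_)
    have := hX0 n
    field_simp
    ring
  have e2 : Tendsto (fun n => 2 * c * d - z n ^ 13 * (2 * c * d')) l (𝓝 0) := by
    have h2 : Tendsto (fun n => ((-4 * c ^ 3 + 2 * c * d * X n
        + (12 * η * c - d ^ 2 / (6 * c)) * X n ^ 2)
        - z n ^ 12 * (-4 * c ^ 3 + 2 * c * d' * (X n * z n)
          + (12 * η' * c - d' ^ 2 / (6 * c)) * (X n * z n) ^ 2)) / X n ^ 2 * X n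
        - 2 * c ^ 3 * (2 * (z n ^ 12 - 1) / X n) - (12 * η * c - d ^ 2 / (6 * c)) * X n
        + (12 * η' * c - d' ^ 2 / (6 * c)) * X n * z n ^ 14) l
        (𝓝 (0 * 0 - 2 * c ^ 3 * 0 - (12 * η * c - d ^ 2 / (6 * c)) * 0
          + (12 * η' * c - d' ^ 2 / (6 * c)) * 0 * ω ^ 14)) :=
      (((hD.mul hX).sub (e1.const_mul _)).sub (hX.const_mul _)).add
        ((hX.const_mul _).mul (hz.pow 14))
    have h3 : (0 * 0 - 2 * c ^ 3 * 0 - (12 * η * c - d ^ 2 / (6 * c)) * 0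
          + (12 * η' * c - d' ^ 2 / (6 * c)) * 0 * ω ^ 14 : ℂ) = 0 := by ring
    rw [h3] at h2
    refine h2.congr (fun n => ?_)
    generalize 12 * η * c - d ^ 2 / (6 * c) = A
    generalize 12 * η' * c - d' ^ 2 / (6 * c) = B
    have := hX0 n
    field_simp
    ring
  have e3 : Tendsto (fun n => 2 * c * d - z n ^ 13 * (2 * c * d')) l
      (𝓝 (2 * c * d - ω ^ 13 * (2 * c * d'))) := ((hz.pow 13).mul_const _).const_sub _
  have e4 := tendsto_nhds_unique e2 e3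
  have e5 : c * (d - ω * d') = 0 := by
    linear_combination (-1 / 2 : ℂ) * e4 + (c * ω * d') * hω
  rcases mul_eq_zero.1 e5 with h2 | h2
  · exact absurd h2 hc
  · exact sub_eq_zero.1 h2

theorem alg1 (c d η d' η' : ℂ) (hc : c ≠ 0) (h : ArcRel c d η c d' η') :
    ∃ ω : ℂ, ω ^ 12 = 1 ∧ d = ω * d' := by
  obtain ⟨l, X, z, ω, hX0, hX, hz, hω, hd, hS, hD⟩ := alg_core1 c d η d' η' hc h
  exact ⟨ω, hω, hd⟩

theorem alg2 (c d η η' : ℂ) (hc : c ≠ 0) (hc1 : 4 * c ^ 6 ≠ 1) (hd : d ≠ 0)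
    (h : ArcRel c d η c d η') : η = η' := by
  obtain ⟨l, X, z, ω, hX0, hX, hz, hω, hdω, hS, hD⟩ := alg_core1 c d η d η' hc h
  have hω1 : ω = 1 := by
    have h1 : (ω - 1) * d = 0 := by linear_combination -hdω
    rcases mul_eq_zero.1 h1 with h2 | h2
    · exact sub_eq_zero.1 h2
    · exact absurd h2 hd
  subst hω1
  -- (z^12 - 1)/X^2 converges
  have e1 : Tendsto (fun n => (z n ^ 12 - 1) / X n ^ 2) l (𝓝 (12 * (η' - η) * c ^ 4)) := by
    have h2 : Tendsto (fun n => (1 / 2 : ℂ) * (((-2 + 24 * η * c ^ 4 * X n ^ 2)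
        - z n ^ 12 * (-2 + 24 * η' * c ^ 4 * (X n * z n) ^ 2)) / X n ^ 2)
        - 12 * η * c ^ 4 + 12 * η' * c ^ 4 * z n ^ 14) l
        (𝓝 ((1 / 2 : ℂ) * 0 - 12 * η * c ^ 4 + 12 * η' * c ^ 4 * 1 ^ 14)) :=
      ((hS.const_mul _).sub_const _).add ((hz.pow 14).const_mul _)
    have h3 : ((1 / 2 : ℂ) * 0 - 12 * η * c ^ 4 + 12 * η' * c ^ 4 * 1 ^ 14)
        = 12 * (η' - η) * c ^ 4 := by ring
    rw [h3] at h2
    refine h2.congr (fun n => ?_)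
    have := hX0 n
    field_simp
    ring
  set G : ℕ → ℂ := fun n => z n ^ 11 + z n ^ 10 + z n ^ 9 + z n ^ 8 + z n ^ 7 + z n ^ 6 + z n ^ 5
    + z n ^ 4 + z n ^ 3 + z n ^ 2 + z n + 1 with hG
  have hGt : Tendsto G l (𝓝 12) := by
    have h2 : Tendsto G l (𝓝 (1 ^ 11 + 1 ^ 10 + 1 ^ 9 + 1 ^ 8 + 1 ^ 7 + 1 ^ 6 + 1 ^ 5
        + 1 ^ 4 + 1 ^ 3 + 1 ^ 2 + 1 + 1)) :=
      ((((((((((((hz.pow 11).add (hz.pow 10)).add (hz.pow 9)).add (hz.pow 8)).add
        (hz.pow 7)).add (hz.pow 6)).add (hz.pow 5)).add (hz.pow 4)).add (hz.pow 3)).add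
        (hz.pow 2)).add hz).add_const 1)
    have h3 : ((1 : ℂ) ^ 11 + 1 ^ 10 + 1 ^ 9 + 1 ^ 8 + 1 ^ 7 + 1 ^ 6 + 1 ^ 5
        + 1 ^ 4 + 1 ^ 3 + 1 ^ 2 + 1 + 1) = 12 := by norm_num
    rwa [h3] at h2
  have hG0 : ∀ᶠ n in (l : Filter ℕ), G n ≠ 0 := hGt.eventually_ne (by norm_num)
  have e2 : Tendsto (fun n => (z n - 1) / X n ^ 2) l (𝓝 (12 * (η' - η) * c ^ 4 / 12)) := by
    refine (e1.div hGt (by norm_num)).congr' ?_
    filter_upwards [hG0] with n hn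
    have h4 : z n ^ 12 - 1 = (z n - 1) * G n := by
      rw [hG]
      ring
    simp only [Pi.div_apply]
    rw [h4]
    have := hX0 n
    field_simp
  -- (1 - z^13)/X tends to 0
  have e3 : Tendsto (fun n => (1 - z n ^ 13) / X n) l (𝓝 0) := by
    have h2 : Tendsto (fun n => -((z n ^ 12 - 1) / X n ^ 2 * (z n * X n)
        + (z n - 1) / X n ^ 2 * X n)) l
        (𝓝 (-((12 * (η' - η) * c ^ 4) * (1 * 0) + (12 * (η' - η) * c ^ 4 / 12) * 0))) :=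
      ((e1.mul (hz.mul hX)).add (e2.mul hX)).neg
    have h3 : (-((12 * (η' - η) * c ^ 4) * (1 * 0) + (12 * (η' - η) * c ^ 4 / 12) * 0) : ℂ)
        = 0 := by ring
    rw [h3] at h2
    refine h2.congr (fun n => ?_)
    have := hX0 n
    field_simp
    ring
  have e4 : Tendsto (fun n => ((-4 * c ^ 3 + 2 * c * d * X n
        + (12 * η * c - d ^ 2 / (6 * c)) * X n ^ 2)
        - z n ^ 12 * (-4 * c ^ 3 + 2 * c * d * (X n * z n)
          + (12 * η' * c - d ^ 2 / (6 * c)) * (X n * z n) ^ 2)) / X n ^ 2) l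
      (𝓝 (4 * c ^ 3 * (12 * (η' - η) * c ^ 4) + 2 * c * d * 0
        + (12 * η * c - d ^ 2 / (6 * c)) - (12 * η' * c - d ^ 2 / (6 * c)) * 1 ^ 14)) := by
    have h2 : Tendsto (fun n => 4 * c ^ 3 * ((z n ^ 12 - 1) / X n ^ 2)
        + 2 * c * d * ((1 - z n ^ 13) / X n) + (12 * η * c - d ^ 2 / (6 * c))
        - (12 * η' * c - d ^ 2 / (6 * c)) * z n ^ 14) l
        (𝓝 (4 * c ^ 3 * (12 * (η' - η) * c ^ 4) + 2 * c * d * 0
        + (12 * η * c - d ^ 2 / (6 * c)) - (12 * η' * c - d ^ 2 / (6 * c)) * 1 ^ 14)) :=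
      (((e1.const_mul _).add (e3.const_mul _)).add_const _).sub ((hz.pow 14).const_mul _)
    refine h2.congr (fun n => ?_)
    generalize 12 * η * c - d ^ 2 / (6 * c) = A
    generalize 12 * η' * c - d ^ 2 / (6 * c) = B
    have := hX0 n
    field_simp
    ring
  have e5 := tendsto_nhds_unique hD e4
  have e6 : (η - η') * (12 * c * (1 - 4 * c ^ 6)) = 0 := by
    linear_combination -e5
  rcases mul_eq_zero.1 e6 with h2 | h2
  · exact sub_eq_zero.1 h2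
  · exfalso
    rcases mul_eq_zero.1 h2 with h3 | h3
    · rcases mul_eq_zero.1 h3 with h4 | h4
      · norm_num at h4
      · exact hc h4
    · exact hc1 (by linear_combination -h3)

end H37.LM
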