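import Pool.Agent.H37.LM.LowDef

/-!
# Expansion near the critical points (used by LowArc and LowOsc)
-/

noncomputable section

open Set Filter Topology

namespace H37.LM

/-- `H = X ^ 12 * Ef (ν, X)` for `u = ν X ^ 4`. -/
def Ef (c d η ν X : ℂ) : ℂ :=
  ν ^ 3 - 3 * c ^ 2 * ν * (1 - η * X ^ 2 * ν) ^ 4 - (1 - η * X ^ 2 * ν) ^ 6 +
    d * ν * X * (1 - η * X ^ 2 * ν) ^ 4

/-- The derivative of `Ef` in `ν`. -/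
def Efν (c d η ν X : ℂ) : ℂ :=
  3 * ν ^ 2 - 3 * c ^ 2 * (1 - η * X ^ 2 * ν) ^ 4 +
    12 * c ^ 2 * η * X ^ 2 * ν * (1 - η * X ^ 2 * ν) ^ 3 +
    6 * η * X ^ 2 * (1 - η * X ^ 2 * ν) ^ 5 + d * X * (1 - η * X ^ 2 * ν) ^ 4 -
    4 * d * η * X ^ 3 * ν * (1 - η * X ^ 2 * ν) ^ 3

theorem Hf_eq_Ef (c d η X ν : ℂ) : Hf c d η (X, ν * X ^ 4) = X ^ 12 * Ef c d η ν X := by
  unfold Hf Ef
  ring

/-- Remainder of order two of `Efν`. -/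
def R1f (c d η ν X : ℂ) : ℂ :=
  3 * c ^ 2 * η * ν * ((1 - η * X ^ 2 * ν) ^ 3 + (1 - η * X ^ 2 * ν) ^ 2 + (1 - η * X ^ 2 * ν) + 1) +
    12 * c ^ 2 * η * ν * (1 - η * X ^ 2 * ν) ^ 3 + 6 * η * (1 - η * X ^ 2 * ν) ^ 5 -
    d * X * η * ν *
      ((1 - η * X ^ 2 * ν) ^ 3 + (1 - η * X ^ 2 * ν) ^ 2 + (1 - η * X ^ 2 * ν) + 1) -
    4 * d * η * X * ν * (1 - η * X ^ 2 * ν) ^ 3

theorem Efν_eq (c d η ν X : ℂ) :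
    Efν c d η ν X = 3 * ν ^ 2 - 3 * c ^ 2 + d * X + X ^ 2 * R1f c d η ν X := by
  unfold Efν R1f
  ring

/-- Remainder of order three of `Ef`. -/
def R2f (c d η ν X : ℂ) : ℂ :=
  -3 * c ^ 2 * ν * (X * η ^ 2 * ν ^ 2) *
      (6 - 4 * (η * X ^ 2 * ν) + (η * X ^ 2 * ν) ^ 2) -
    X * η ^ 2 * ν ^ 2 * (15 - 20 * (η * X ^ 2 * ν) + 15 * (η * X ^ 2 * ν) ^ 2 -
      6 * (η * X ^ 2 * ν) ^ 3 + (η * X ^ 2 * ν) ^ 4) -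
    d * ν * (η * ν) * (4 - 6 * (η * X ^ 2 * ν) + 4 * (η * X ^ 2 * ν) ^ 2 - (η * X ^ 2 * ν) ^ 3)

theorem Ef_eq (c d η ν X : ℂ) :
    Ef c d η ν X = (ν ^ 3 - 3 * c ^ 2 * ν - 1) + d * ν * X +
      X ^ 2 * (12 * c ^ 2 * η * ν ^ 2 + 6 * η * ν) + X ^ 3 * R2f c d η ν X := by
  unfold Ef R2f
  ring

theorem bound_compact (f : ℂ → ℂ → ℂ) (hf : Continuous fun p : ℂ × ℂ => f p.1 p.2) (M : ℝ) :
    ∃ B : ℝ, 0 ≤ B ∧ ∀ ν X : ℂ, ‖ν‖ ≤ M → ‖X‖ ≤ 1 → ‖f ν X‖ ≤ B := by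
  obtain ⟨B, hB⟩ := ((isCompact_closedBall (0 : ℂ) M).prod
    (isCompact_closedBall (0 : ℂ) 1)).exists_bound_of_continuousOn hf.continuousOn
  refine ⟨max B 0, le_max_right _ _, fun ν X h1 h2 => ?_⟩
  refine (hB (ν, X) ⟨?_, ?_⟩).trans (le_max_left _ _)
  · simpa using h1
  · simpa using h2

theorem bound_R1 (c d η : ℂ) (M : ℝ) :
    ∃ B : ℝ, 0 ≤ B ∧ ∀ ν X : ℂ, ‖ν‖ ≤ M → ‖X‖ ≤ 1 → ‖R1f c d η ν X‖ ≤ B :=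
  bound_compact _ (by unfold R1f; fun_prop) M

theorem bound_R2 (c d η : ℂ) (M : ℝ) :
    ∃ B : ℝ, 0 ≤ B ∧ ∀ ν X : ℂ, ‖ν‖ ≤ M → ‖X‖ ≤ 1 → ‖R2f c d η ν X‖ ≤ B :=
  bound_compact _ (by unfold R2f; fun_prop) M

/-- Comparison of `Ef` and `Vv` near `σ c`. -/
theorem Ef_sub_Vv (c d η ν X σ : ℂ) (hc : c ≠ 0) (hσ : σ = 1 ∨ σ = -1) :
    Ef c d η ν X - Vv c d η σ X =
      3 * σ * c * ((ν - σ * c) + σ * d * X / (6 * c)) ^ 2 + (ν - σ * c) ^ 3 +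
      X ^ 2 * (12 * c ^ 2 * η * (ν - σ * c) * (2 * σ * c + (ν - σ * c)) + 6 * η * (ν - σ * c)) +
      X ^ 3 * R2f c d η ν X := by
  rw [Ef_eq]
  unfold Vv
  rcases hσ with rfl | rfl
  · field_simp
    ring
  · field_simp
    ring

/-- If `ν - σ c = O(X)` and `Efν = O(X ^ 2)` then `Ef = Vv + O(X ^ 3)`. -/
theorem Ef_close (c d η : ℂ) (hc : c ≠ 0) (M C B3 : ℝ) (hC : 0 ≤ C) (hB3 : 0 ≤ B3) :
    ∃ B : ℝ, 0 ≤ B ∧ ∀ ν X σ : ℂ, (σ = 1 ∨ σ = -1) → ‖ν‖ ≤ M → ‖X‖ ≤ 1 →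
      ‖ν - σ * c‖ ≤ B3 * ‖X‖ → ‖Efν c d η ν X‖ ≤ C * ‖X‖ ^ 2 →
      ‖Ef c d η ν X - Vv c d η σ X‖ ≤ B * ‖X‖ ^ 3 := by
  obtain ⟨B1, hB1, hR1⟩ := bound_R1 c d η M
  obtain ⟨B2, hB2, hR2⟩ := bound_R2 c d η M
  have ha : 0 < ‖c‖ := norm_pos_iff.2 hc
  set B4 : ℝ := C + B1 + 3 * B3 ^ 2 with hB4
  have hB40 : 0 ≤ B4 := by positivity
  set B5 : ℝ := B4 / (6 * ‖c‖) with hB5
  have hB50 : 0 ≤ B5 := by positivity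
  refine ⟨3 * ‖c‖ * B5 ^ 2 + B3 ^ 3 + (12 * ‖c‖ ^ 2 * ‖η‖ * B3 * (2 * ‖c‖ + B3) + 6 * ‖η‖ * B3) + B2,
    by positivity, fun ν X σ hσ hν hX h1 h2 => ?_⟩
  have hσn : ‖σ‖ = 1 := by rcases hσ with rfl | rfl <;> simp
  have hσ2 : σ ^ 2 = 1 := by rcases hσ with rfl | rfl <;> norm_num
  set x := ‖X‖ with hx
  have hx0 : 0 ≤ x := norm_nonneg _
  set k := ν - σ * c with hk
  -- the second order estimate
  have h3 : 6 * σ * c * k + d * X = Efν c d η ν X - X ^ 2 * R1f c d η ν X - 3 * k ^ 2 := by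
    rw [Efν_eq, hk]
    linear_combination (-3 * c ^ 2) * hσ2
  have h4 : ‖6 * σ * c * k + d * X‖ ≤ B4 * x ^ 2 := by
    rw [h3]
    refine (norm_sub_le _ _).trans ?_
    have e1 := norm_sub_le (Efν c d η ν X) (X ^ 2 * R1f c d η ν X)
    have e2 : ‖X ^ 2 * R1f c d η ν X‖ ≤ x ^ 2 * B1 := by
      rw [norm_mul, norm_pow]
      gcongr
      exact hR1 ν X hν hX
    have e3 : ‖3 * k ^ 2‖ ≤ 3 * (B3 * x) ^ 2 := by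
      rw [norm_mul, norm_pow]
      simp only [Complex.norm_ofNat]
      gcongr
    rw [hB4]
    nlinarith
  have h5 : ‖k + σ * d * X / (6 * c)‖ ≤ B5 * x ^ 2 := by
    have e1 : k + σ * d * X / (6 * c) = σ * (6 * σ * c * k + d * X) / (6 * c) := by
      field_simp
      linear_combination (-6 * k * c) * hσ2
    rw [e1, norm_div, norm_mul, hσn, one_mul, norm_mul]
    simp only [Complex.norm_ofNat]
    rw [div_le_iff₀ (by positivity), hB5]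
    have : B4 / (6 * ‖c‖) * x ^ 2 * (6 * ‖c‖) = B4 * x ^ 2 := by field_simp
    rw [this]
    exact h4
  rw [Ef_sub_Vv c d η ν X σ hc hσ, ← hk]
  have n1 : ‖3 * σ * c * (k + σ * d * X / (6 * c)) ^ 2‖ ≤ 3 * ‖c‖ * B5 ^ 2 * x ^ 3 := by
    rw [norm_mul, norm_mul, norm_mul, norm_pow, hσn]
    simp only [Complex.norm_ofNat, mul_one]
    have : ‖k + σ * d * X / (6 * c)‖ ^ 2 ≤ B5 ^ 2 * x ^ 3 := by
      calc ‖k + σ * d * X / (6 * c)‖ ^ 2 ≤ (B5 * x ^ 2) ^ 2 := by gcongr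
        _ = B5 ^ 2 * x ^ 3 * x := by ring
        _ ≤ B5 ^ 2 * x ^ 3 * 1 := by gcongr
        _ = B5 ^ 2 * x ^ 3 := by ring
    calc 3 * ‖c‖ * ‖k + σ * d * X / (6 * c)‖ ^ 2 ≤ 3 * ‖c‖ * (B5 ^ 2 * x ^ 3) := by gcongr
      _ = 3 * ‖c‖ * B5 ^ 2 * x ^ 3 := by ring
  have n2 : ‖k ^ 3‖ ≤ B3 ^ 3 * x ^ 3 := by
    rw [norm_pow]
    calc ‖k‖ ^ 3 ≤ (B3 * x) ^ 3 := by gcongr
      _ = B3 ^ 3 * x ^ 3 := by ring
  have n3 : ‖X ^ 2 * (12 * c ^ 2 * η * k * (2 * σ * c + k) + 6 * η * k)‖ ≤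
      (12 * ‖c‖ ^ 2 * ‖η‖ * B3 * (2 * ‖c‖ + B3) + 6 * ‖η‖ * B3) * x ^ 3 := by
    rw [norm_mul, norm_pow]
    have e1 : ‖12 * c ^ 2 * η * k * (2 * σ * c + k) + 6 * η * k‖ ≤
        12 * ‖c‖ ^ 2 * ‖η‖ * (B3 * x) * (2 * ‖c‖ + B3) + 6 * ‖η‖ * (B3 * x) := by
      refine (norm_add_le _ _).trans ?_
      have e2 : ‖12 * c ^ 2 * η * k * (2 * σ * c + k)‖ ≤
          12 * ‖c‖ ^ 2 * ‖η‖ * (B3 * x) * (2 * ‖c‖ + B3) := by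
        rw [norm_mul, norm_mul, norm_mul, norm_mul, norm_pow]
        simp only [Complex.norm_ofNat]
        have e3 : ‖2 * σ * c + k‖ ≤ 2 * ‖c‖ + B3 := by
          refine (norm_add_le _ _).trans ?_
          rw [norm_mul, norm_mul, hσn]
          simp only [Complex.norm_ofNat, mul_one]
          have : ‖k‖ ≤ B3 := h1.trans (by
            calc B3 * x ≤ B3 * 1 := by gcongr
              _ = B3 := mul_one _)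
          linarith
        gcongr
      have e4 : ‖6 * η * k‖ ≤ 6 * ‖η‖ * (B3 * x) := by
        rw [norm_mul, norm_mul]
        simp only [Complex.norm_ofNat]
        gcongr
      linarith
    calc x ^ 2 * ‖12 * c ^ 2 * η * k * (2 * σ * c + k) + 6 * η * k‖ ≤
        x ^ 2 * (12 * ‖c‖ ^ 2 * ‖η‖ * (B3 * x) * (2 * ‖c‖ + B3) + 6 * ‖η‖ * (B3 * x)) := by gcongr
      _ = (12 * ‖c‖ ^ 2 * ‖η‖ * B3 * (2 * ‖c‖ + B3) + 6 * ‖η‖ * B3) * x ^ 3 := by ring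
  have n4 : ‖X ^ 3 * R2f c d η ν X‖ ≤ B2 * x ^ 3 := by
    rw [norm_mul, norm_pow, mul_comm]
    gcongr
    exact hR2 ν X hν hX
  refine (norm_add_le _ _).trans ?_
  have m1 := norm_add_le (3 * σ * c * (k + σ * d * X / (6 * c)) ^ 2 + k ^ 3)
    (X ^ 2 * (12 * c ^ 2 * η * k * (2 * σ * c + k) + 6 * η * k))
  have m2 := norm_add_le (3 * σ * c * (k + σ * d * X / (6 * c)) ^ 2) (k ^ 3)
  have m3 : (3 * ‖c‖ * B5 ^ 2 + B3 ^ 3 +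
      (12 * ‖c‖ ^ 2 * ‖η‖ * B3 * (2 * ‖c‖ + B3) + 6 * ‖η‖ * B3) + B2) * x ^ 3 =
      3 * ‖c‖ * B5 ^ 2 * x ^ 3 + B3 ^ 3 * x ^ 3 +
      (12 * ‖c‖ ^ 2 * ‖η‖ * B3 * (2 * ‖c‖ + B3) + 6 * ‖η‖ * B3) * x ^ 3 + B2 * x ^ 3 := by ring
  rw [m3]
  linarith

end H37.LM
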