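import Pool.Agent.H37.LM.LowArcA
import Pool.Agent.H37.LM.LowArcB

/-!
# Points with a very small gradient   [H37 LM LowArc]

See `LowArcA` for the notes.
-/

noncomputable section

open Set Filter Topology

namespace H37.LM

theorem HfU_eq_Efν (c d η X ν : ℂ) : HfU c d η X (ν * X ^ 4) = X ^ 8 * Efν c d η ν X := by
  unfold HfU Efν
  ring

/-- Points with a very small gradient. -/
theorem low_arc (c d η : ℂ) (hc : c ≠ 0) (C : ℝ) :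
    ∃ M > 0, ∃ ρ > 0, ∀ p : ℂ × ℂ, 0 < ‖p‖ → ‖p‖ < ρ →
      ‖fderiv ℂ (Hf c d η) p‖ ≤ C * ‖p‖ ^ 11 →
        ‖p.2‖ ≤ M * ‖p.1‖ ^ 4 ∧ ∃ σ : ℂ, (σ = 1 ∨ σ = -1) ∧
          ‖Hf c d η p - p.1 ^ 12 * Vv c d η σ p.1‖ ≤ M * ‖p.1‖ ^ 15 := by
  have ha : 0 < ‖c‖ := norm_pos_iff.2 hc
  set C1 : ℝ := max C 1 with hC1
  have hC1' : 1 ≤ C1 := le_max_right _ _
  obtain ⟨M, hM, ρ0, hρ0, hρ01, hA⟩ := low_arc_one c d η C1 hC1'
  obtain ⟨B1, hB1, hR1⟩ := bound_R1 c d η M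
  -- constant in `‖ν - c‖ ‖ν + c‖ ≤ B2 ‖X‖`
  set B2 : ℝ := C1 + ‖d‖ + B1 with hB2
  have hB20 : 0 ≤ B2 := by positivity
  set B3 : ℝ := B2 / ‖c‖ with hB3
  have hB30 : 0 ≤ B3 := by positivity
  obtain ⟨B, hB, hE⟩ := Ef_close c d η hc M C1 B3 (by linarith) hB30
  refine ⟨M + B + 1, by positivity, min ρ0 (1 / M), by positivity, fun p hp hpρ hgr => ?_⟩
  have hpρ0 : ‖p‖ < ρ0 := hpρ.trans_le (min_le_left _ _)
  have hpM : ‖p‖ < 1 / M := hpρ.trans_le (min_le_right _ _)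
  have hp1 : ‖p‖ ≤ 1 := (hpρ0.trans_le hρ01).le
  have hU : ‖HfU c d η p.1 p.2‖ ≤ C1 * ‖p‖ ^ 11 := by
    refine (hfU_le c d η p).trans (hgr.trans ?_)
    gcongr
    exact le_max_left _ _
  have h1 : ‖p.2‖ ≤ M * ‖p.1‖ ^ 4 := hA p.1 p.2 hpρ0 hU
  have hp1' : ‖p.1‖ ≤ ‖p‖ := norm_fst_le p
  have hX1 : ‖p.1‖ ≤ 1 := hp1'.trans hp1
  -- `‖p.2‖ ≤ ‖p.1‖`
  have h2 : ‖p.2‖ ≤ ‖p.1‖ := by
    refine h1.trans ?_
    have e1 : M * ‖p.1‖ ≤ 1 := by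
      have : ‖p.1‖ ≤ 1 / M := hp1'.trans hpM.le
      rw [le_div_iff₀ (by positivity)] at this
      linarith
    have e2 : ‖p.1‖ ^ 3 ≤ ‖p.1‖ := by
      calc ‖p.1‖ ^ 3 = ‖p.1‖ * ‖p.1‖ ^ 2 := by ring
        _ ≤ ‖p.1‖ * 1 := by
          gcongr
          exact pow_le_one₀ (norm_nonneg _) hX1
        _ = ‖p.1‖ := by ring
    calc M * ‖p.1‖ ^ 4 = (M * ‖p.1‖) * ‖p.1‖ ^ 3 := by ring
      _ ≤ 1 * ‖p.1‖ := by gcongr
      _ = ‖p.1‖ := by ring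
  have h3 : ‖p‖ = ‖p.1‖ := le_antisymm (by rw [Prod.norm_def]; exact max_le le_rfl h2) hp1'
  have hX0 : 0 < ‖p.1‖ := h3 ▸ hp
  have hXne : p.1 ≠ 0 := norm_pos_iff.1 hX0
  refine ⟨h1.trans (by gcongr; linarith), ?_⟩
  set X := p.1 with hX
  set x := ‖X‖ with hx
  set ν := p.2 / X ^ 4 with hν
  have hp2 : p.2 = ν * X ^ 4 := by rw [hν]; field_simp
  have hνM : ‖ν‖ ≤ M := by
    rw [hν, norm_div, norm_pow, div_le_iff₀ (by positivity)]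
    exact h1
  have h4 : ‖Efν c d η ν X‖ ≤ C1 * x ^ 3 := by
    rw [h3, hp2, HfU_eq_Efν, norm_mul, norm_pow] at hU
    have e1 : x ^ 8 * ‖Efν c d η ν X‖ ≤ x ^ 8 * (C1 * x ^ 3) := by
      calc x ^ 8 * ‖Efν c d η ν X‖ ≤ C1 * x ^ 11 := hU
        _ = x ^ 8 * (C1 * x ^ 3) := by ring
    exact le_of_mul_le_mul_left e1 (by positivity)
  have h5 : ‖Efν c d η ν X‖ ≤ C1 * x ^ 2 := by
    refine h4.trans ?_
    calc C1 * x ^ 3 = C1 * (x ^ 2 * x) := by ring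
      _ ≤ C1 * (x ^ 2 * 1) := by gcongr
      _ = C1 * x ^ 2 := by ring
  have h6 : ‖(ν - c) * (ν + c)‖ ≤ B2 * x := by
    have e1 : 3 * ((ν - c) * (ν + c)) = Efν c d η ν X - d * X - X ^ 2 * R1f c d η ν X := by
      rw [Efν_eq]
      ring
    have e2 : ‖(3 : ℂ) * ((ν - c) * (ν + c))‖ = 3 * ‖(ν - c) * (ν + c)‖ := by
      rw [norm_mul]
      simp
    have e3 : ‖Efν c d η ν X - d * X - X ^ 2 * R1f c d η ν X‖ ≤ C1 * x ^ 2 + ‖d‖ * x + x ^ 2 * B1 := by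
      refine (norm_sub_le _ _).trans ?_
      have f1 := norm_sub_le (Efν c d η ν X) (d * X)
      have f2 : ‖X ^ 2 * R1f c d η ν X‖ ≤ x ^ 2 * B1 := by
        rw [norm_mul, norm_pow]
        gcongr
        exact hR1 ν X hνM hX1
      rw [norm_mul] at f1
      linarith
    have e4 : x ^ 2 ≤ x := by
      calc x ^ 2 = x * x := by ring
        _ ≤ x * 1 := by gcongr
        _ = x := mul_one _
    have e5 : C1 * x ^ 2 ≤ C1 * x := by gcongr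
    have e6 : x ^ 2 * B1 ≤ x * B1 := by gcongr
    have e7 : 3 * ‖(ν - c) * (ν + c)‖ ≤ B2 * x := by
      rw [← e2, e1, hB2]
      linarith
    have e8 : 0 ≤ ‖(ν - c) * (ν + c)‖ := norm_nonneg _
    linarith
  have h7 : ∃ σ : ℂ, (σ = 1 ∨ σ = -1) ∧ ‖ν - σ * c‖ ≤ B3 * x := by
    rw [norm_mul] at h6
    have e1 : 2 * ‖c‖ ≤ ‖ν + c‖ + ‖ν - c‖ := by
      have : ‖(ν + c) - (ν - c)‖ = 2 * ‖c‖ := by
        rw [show (ν + c) - (ν - c) = 2 * c by ring, norm_mul]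
        simp
      rw [← this]
      exact norm_sub_le _ _
    rcases le_total ‖c‖ ‖ν + c‖ with h | h
    · refine ⟨1, Or.inl rfl, ?_⟩
      rw [one_mul, hB3, div_mul_eq_mul_div, le_div_iff₀ ha]
      calc ‖ν - c‖ * ‖c‖ ≤ ‖ν - c‖ * ‖ν + c‖ := by gcongr
        _ ≤ B2 * x := h6
    · refine ⟨-1, Or.inr rfl, ?_⟩
      have h' : ‖c‖ ≤ ‖ν - c‖ := by linarith
      rw [show ν - -1 * c = ν + c by ring, hB3, div_mul_eq_mul_div, le_div_iff₀ ha]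
      calc ‖ν + c‖ * ‖c‖ ≤ ‖ν + c‖ * ‖ν - c‖ := by gcongr
        _ = ‖ν - c‖ * ‖ν + c‖ := mul_comm _ _
        _ ≤ B2 * x := h6
  obtain ⟨σ, hσ, hσ2⟩ := h7
  refine ⟨σ, hσ, ?_⟩
  have h8 := hE ν X σ hσ hνM hX1 hσ2 h5
  have h9 : Hf c d η p = X ^ 12 * Ef c d η ν X := by
    rw [← Hf_eq_Ef, ← hp2]
  rw [h9, ← mul_sub, norm_mul, norm_pow]
  calc x ^ 12 * ‖Ef c d η ν X - Vv c d η σ X‖ ≤ x ^ 12 * (B * x ^ 3) := by gcongr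
    _ = B * x ^ 15 := by ring
    _ ≤ (M + B + 1) * x ^ 15 := by
      gcongr
      linarith

end H37.LM
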