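import Pool.Agent.H37.LM.LowDef

/-!
# Points with a very small gradient   [H37 LM LowArc]

`H = Hf c d η`, `p = (X, u)`, `Y = X ^ 2 - η u`:
`H_u = 3 u² - 3 c² Y⁴ + 12 c² η u Y³ + 6 η Y⁵ + d X Y⁴ - 4 d η u X Y³`, and
`‖H_u p‖ ≤ ‖fderiv ℂ H p‖` (apply it to `(0, 1)`; sup norm).

Step 1.  If `M` is large and `‖p‖` small, `‖u‖ > M ‖X‖ ^ 4` implies `‖H_u‖ ≥ ‖u‖ ^ 2`:
`‖Y‖ ≤ ‖X‖ ^ 2 + ‖η‖ ‖u‖ ≤ 2 (‖u‖ / M) ^ (1/2)` (i.e. `‖Y‖ ^ 2 ≤ 4 ‖u‖ / M`), so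
`‖3 c² Y⁴‖ ≤ 48 ‖c‖² ‖u‖² / M²`, and the other terms are `≤ const * ‖Y‖ * ‖u‖ ^ 2 ..`, small.
Then `‖u‖ ^ 2 ≤ C ‖p‖ ^ 11`, and `‖p‖ ^ 4 ≤ ‖u‖` (since `‖X‖ ^ 4 < ‖u‖ / M ≤ ‖u‖`, `‖u‖ ≤ 1`), so
`‖u‖ ^ 8 ≤ C ^ 4 (‖p‖ ^ 4) ^ 11 ≤ C ^ 4 ‖u‖ ^ 11`, `1 ≤ C ^ 4 ‖u‖ ^ 3`, impossible for small `‖u‖ > 0`; and
`u = 0` would give `‖u‖ > M ‖X‖ ^ 4` false.
Step 2.  So `‖u‖ ≤ M ‖X‖ ^ 4`, `X ≠ 0`, `‖p‖ = ‖X‖` (for `M ‖X‖ ^ 3 ≤ 1`).  Put `u = ν X ^ 4`, `‖ν‖ ≤ M`,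
`Y = X ^ 2 Z`, `Z = 1 - η X ^ 2 ν`.  `H = X ^ 12 E`, `E (ν, X) = ν³ - 3 c² ν Z⁴ - Z⁶ + d ν X Z⁴`, and
`H_u = X ^ 8 E'`, `E' = ∂E/∂ν = 3 ν² - 3 c² Z⁴ + 12 c² η X² ν Z³ + 6 η X² Z⁵ + d X Z⁴ - 4 d η X³ ν Z³`.
So `‖E'‖ ≤ C ‖X‖ ^ 3`.
Step 3.  `E' = 3 ν² - 3 c² + d X + O(X ^ 2)` uniformly for `‖ν‖ ≤ M`.  So
`‖ν - c‖ ‖ν + c‖ ≤ C' ‖X‖`: for one of `σ = 1, -1`, `‖ν - σ c‖ ≤ C'' ‖X‖` (as `c ≠ 0`); then
`3 (ν - σ c)(ν + σ c) = - d X + O(X ^ 2)` gives `ν = σ c - σ d X / (6 c) + O(X ^ 2)`.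
Step 4.  `E (ν, X) = (ν³ - 3 c² ν - 1) + d ν X + X² (12 c² η ν² + 6 η ν) + O(X ^ 3)`.  With
`ν = σ c + ν1 X + κ`, `ν1 = - σ d / (6 c)`, `κ = O(X ^ 2)`:
`ν³ - 3 c² ν = - 2 σ c³ + 3 σ c (ν1 X + κ)² + (ν1 X + κ)³ = - 2 σ c³ + 3 σ c ν1² X² + O(X ^ 3)`,
`d ν X = σ c d X + d ν1 X² + O(X ^ 3)`, so `E = Vv c d η σ X + O(X ^ 3)`
(`3 σ c ν1² + d ν1 = - σ d² / (12 c)`, `σ² = 1`).
-/

noncomputable section

open Set Filter Topology

namespace H37.LM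

/-- The partial derivative in the second variable. -/
def HfU (c d η X u : ℂ) : ℂ :=
  3 * u ^ 2 - 3 * c ^ 2 * (X ^ 2 - η * u) ^ 4 + 12 * c ^ 2 * η * u * (X ^ 2 - η * u) ^ 3 +
    6 * η * (X ^ 2 - η * u) ^ 5 + d * X * (X ^ 2 - η * u) ^ 4 -
    4 * d * η * u * X * (X ^ 2 - η * u) ^ 3

theorem hf_differentiable (c d η : ℂ) : Differentiable ℂ (Hf c d η) := by
  unfold Hf
  fun_prop

theorem hfU_le (c d η : ℂ) (p : ℂ × ℂ) : ‖HfU c d η p.1 p.2‖ ≤ ‖fderiv ℂ (Hf c d η) p‖ := by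
  have h1 : HasDerivAt (fun t : ℂ => Hf c d η (p.1, t)) (fderiv ℂ (Hf c d η) p (0, 1)) p.2 := by
    have h2 : HasFDerivAt (Hf c d η) (fderiv ℂ (Hf c d η) p) (p.1, p.2) :=
      (hf_differentiable c d η p).hasFDerivAt
    have h3 : HasDerivAt (fun t : ℂ => (p.1, t)) ((0 : ℂ), (1 : ℂ)) p.2 :=
      (hasDerivAt_const _ _).prodMk (hasDerivAt_id _)
    exact h2.comp_hasDerivAt p.2 h3
  have h4 : HasDerivAt (fun t : ℂ => Hf c d η (p.1, t)) (HfU c d η p.1 p.2) p.2 := by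
    have hid : HasDerivAt (fun t : ℂ => t) 1 p.2 := hasDerivAt_id _
    have hY : HasDerivAt (fun t : ℂ => p.1 ^ 2 - η * t) (-(η * 1)) p.2 := by
      simpa using (hid.const_mul η).const_sub (p.1 ^ 2)
    have hY4 := hY.pow 4
    have hY6 := hY.pow 6
    have h5 := (((hid.pow 3).sub ((hid.const_mul (3 * c ^ 2)).mul hY4)).sub hY6).add
      (((hid.const_mul d).mul_const p.1).mul hY4)
    refine (h5.congr_deriv ?_)
    unfold HfU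
    simp only [Pi.pow_apply]
    push_cast
    ring
  rw [h4.unique h1]
  have h6 := (fderiv ℂ (Hf c d η) p).le_opNorm (0, 1)
  have h7 : ‖((0 : ℂ), (1 : ℂ))‖ = 1 := by simp [Prod.norm_def]
  rw [h7, mul_one] at h6
  exact h6

theorem low_arc_one (c d η : ℂ) (C : ℝ) (hC : 1 ≤ C) : ∃ M ≥ 1, ∃ ρ > 0, ρ ≤ 1 ∧
    ∀ X u : ℂ, ‖(X, u)‖ < ρ → ‖HfU c d η X u‖ ≤ C * ‖(X, u)‖ ^ 11 → ‖u‖ ≤ M * ‖X‖ ^ 4 := by
  set a := ‖c‖ with ha
  set D := ‖d‖ with hD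
  set E := ‖η‖ with hE
  have ha0 : 0 ≤ a := norm_nonneg _
  have hD0 : 0 ≤ D := norm_nonneg _
  have hE0 : 0 ≤ E := norm_nonneg _
  set M : ℝ := 10 * (1 + a) with hM
  have hM1 : 10 ≤ M := by rw [hM]; linarith
  set L : ℝ := 1000 * (1 + a) ^ 2 * (1 + D) * (1 + E) ^ 2 * M * C ^ 4 with hL
  have hLpos : 0 < L := by positivity
  have g1 : 1 ≤ (1 + a) ^ 2 := one_le_pow₀ (by linarith)
  have g2 : 1 ≤ (1 + D) := by linarith
  have g3 : 1 ≤ (1 + E) ^ 2 := one_le_pow₀ (by linarith)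
  have g4 : 1 ≤ C ^ 4 := one_le_pow₀ hC
  have g5 : (1 : ℝ) ≤ M := by linarith
  refine ⟨M, by linarith, 1 / L, by positivity, ?_, fun X u hp hH => ?_⟩
  · rw [div_le_one hLpos, hL]
    have : (1 : ℝ) ≤ 1000 * 1 * 1 * 1 * 1 * 1 := by norm_num
    refine this.trans ?_
    gcongr
  by_contra hlt
  push Not at hlt
  set x := ‖X‖ with hx
  set U := ‖u‖ with hU
  set N := ‖(X, u)‖ with hN
  have hx0 : 0 ≤ x := norm_nonneg _
  have hN' : N = max x U := by rw [hN, Prod.norm_def]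
  have hxN : x ≤ N := by rw [hN']; exact le_max_left _ _
  have hUN : U ≤ N := by rw [hN']; exact le_max_right _ _
  have hU0 : 0 < U := lt_of_le_of_lt (by positivity) hlt
  have hNL : N * L < 1 := by
    rw [lt_div_iff₀ hLpos] at hp
    exact hp
  have hN0 : 0 < N := lt_of_lt_of_le hU0 hUN
  -- consequences of the smallness of `N`
  have hbig : ∀ t : ℝ, 0 ≤ t → t ≤ L → N * t ≤ 1 := fun t ht htL =>
    (mul_le_mul_of_nonneg_left htL hN0.le).trans hNL.le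
  have hN1 : N ≤ 1 := by
    have := hbig 1 (by norm_num) (by
      rw [hL]
      have : (1 : ℝ) ≤ 1000 * 1 * 1 * 1 * 1 * 1 := by norm_num
      refine this.trans ?_
      gcongr)
    linarith
  set y := ‖X ^ 2 - η * u‖ with hy
  have hy0 : 0 ≤ y := norm_nonneg _
  have hy1 : y ≤ x ^ 2 + E * U := by
    refine (norm_sub_le _ _).trans ?_
    rw [norm_pow, norm_mul]
  have hxN2 : x ^ 2 ≤ N := by
    calc x ^ 2 = x * x := sq x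
      _ ≤ N * 1 := mul_le_mul hxN (hxN.trans hN1) hx0 hN0.le
      _ = N := mul_one N
  have hyN : y ≤ (1 + E) * N := by
    calc y ≤ x ^ 2 + E * U := hy1
      _ ≤ N + E * N := by gcongr
      _ = (1 + E) * N := by ring
  have hy2 : y ^ 2 * M ≤ 4 * U := by
    have e1 : y ^ 2 ≤ 2 * x ^ 4 + 2 * E ^ 2 * U ^ 2 := by
      have e0 := sq_nonneg (x ^ 2 - E * U)
      calc y ^ 2 ≤ (x ^ 2 + E * U) ^ 2 := by gcongr
        _ = 2 * x ^ 4 + 2 * E ^ 2 * U ^ 2 - (x ^ 2 - E * U) ^ 2 := by ring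
        _ ≤ 2 * x ^ 4 + 2 * E ^ 2 * U ^ 2 := by linarith
    have e2 : E ^ 2 * U * M ≤ 1 := by
      have e3 : U * (E ^ 2 * M) ≤ N * (E ^ 2 * M) := by gcongr
      have e4 : N * (E ^ 2 * M) ≤ 1 := hbig _ (by positivity) (by
        rw [hL]
        have e5 : E ^ 2 ≤ (1 + E) ^ 2 := by gcongr; linarith
        calc E ^ 2 * M ≤ (1 + E) ^ 2 * M := by gcongr
          _ = 1 * 1 * 1 * (1 + E) ^ 2 * M * 1 := by ring
          _ ≤ 1000 * (1 + a) ^ 2 * (1 + D) * (1 + E) ^ 2 * M * C ^ 4 := by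
            gcongr
            norm_num)
      linarith
    calc y ^ 2 * M ≤ (2 * x ^ 4 + 2 * E ^ 2 * U ^ 2) * M := by gcongr
      _ = 2 * (M * x ^ 4) + 2 * U * (E ^ 2 * U * M) := by ring
      _ ≤ 2 * U + 2 * U * 1 := by gcongr
      _ = 4 * U := by ring
  -- bounds of the terms
  have t0 : y ^ 4 * M ^ 2 ≤ 16 * U ^ 2 := by
    calc y ^ 4 * M ^ 2 = (y ^ 2 * M) ^ 2 := by ring
      _ ≤ (4 * U) ^ 2 := by gcongr
      _ = 16 * U ^ 2 := by ring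
  have T1 : 3 * a ^ 2 * y ^ 4 ≤ U ^ 2 / 2 := by
    have e1 : 96 * a ^ 2 ≤ M ^ 2 := by
      have e3 : a ^ 2 ≤ (1 + a) ^ 2 := by gcongr; linarith
      have e4 : M ^ 2 = 100 * (1 + a) ^ 2 := by rw [hM]; ring
      rw [e4]
      linarith [sq_nonneg a]
    have e2 : 96 * a ^ 2 * y ^ 4 ≤ 16 * U ^ 2 := by
      calc 96 * a ^ 2 * y ^ 4 ≤ M ^ 2 * y ^ 4 := by gcongr
        _ = y ^ 4 * M ^ 2 := by ring
        _ ≤ 16 * U ^ 2 := t0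
    linarith
  have hyM : y ^ 2 ≤ 4 * U := by
    have : y ^ 2 * 1 ≤ y ^ 2 * M := by gcongr
    linarith
  have hy4 : y ^ 4 ≤ 16 * U ^ 2 := by
    calc y ^ 4 = (y ^ 2) ^ 2 := by ring
      _ ≤ (4 * U) ^ 2 := by gcongr
      _ = 16 * U ^ 2 := by ring
  have T2 : 12 * a ^ 2 * E * U * y ^ 3 ≤ U ^ 2 / 8 := by
    have e1 : 12 * a ^ 2 * E * U * y ^ 3 ≤ 12 * a ^ 2 * E * U * ((4 * U) * ((1 + E) * N)) := by
      have : y ^ 3 = y ^ 2 * y := by ring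
      rw [this]
      gcongr
    have e2 : N * (384 * a ^ 2 * E * (1 + E)) ≤ 1 := hbig _ (by positivity) (by
      rw [hL]
      have e3 : a ^ 2 ≤ (1 + a) ^ 2 := by gcongr; linarith
      have e4 : E * (1 + E) ≤ (1 + E) ^ 2 := by
        have e5 : E ≤ 1 + E := by linarith
        calc E * (1 + E) ≤ (1 + E) * (1 + E) := by gcongr
          _ = (1 + E) ^ 2 := by ring
      calc 384 * a ^ 2 * E * (1 + E) = 384 * a ^ 2 * (E * (1 + E)) := by ring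
        _ ≤ 384 * (1 + a) ^ 2 * (1 + E) ^ 2 := by gcongr
        _ = 384 * (1 + a) ^ 2 * 1 * (1 + E) ^ 2 * 1 * 1 := by ring
        _ ≤ 1000 * (1 + a) ^ 2 * (1 + D) * (1 + E) ^ 2 * M * C ^ 4 := by
            gcongr
            norm_num)
    calc 12 * a ^ 2 * E * U * y ^ 3 ≤ 12 * a ^ 2 * E * U * ((4 * U) * ((1 + E) * N)) := e1
      _ = U ^ 2 / 8 * (N * (384 * a ^ 2 * E * (1 + E))) := by ring
      _ ≤ U ^ 2 / 8 * 1 := by gcongr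
      _ = U ^ 2 / 8 := by ring
  have T3 : 6 * E * y ^ 5 ≤ U ^ 2 / 8 := by
    have e1 : 6 * E * y ^ 5 ≤ 6 * E * ((16 * U ^ 2) * ((1 + E) * N)) := by
      have : y ^ 5 = y ^ 4 * y := by ring
      rw [this]
      gcongr
    have e2 : N * (768 * E * (1 + E)) ≤ 1 := hbig _ (by positivity) (by
      rw [hL]
      have e4 : E * (1 + E) ≤ (1 + E) ^ 2 := by
        have e5 : E ≤ 1 + E := by linarith
        calc E * (1 + E) ≤ (1 + E) * (1 + E) := by gcongr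
          _ = (1 + E) ^ 2 := by ring
      calc 768 * E * (1 + E) = 768 * (E * (1 + E)) := by ring
        _ ≤ 768 * (1 + E) ^ 2 := by gcongr
        _ = 768 * 1 * 1 * (1 + E) ^ 2 * 1 * 1 := by ring
        _ ≤ 1000 * (1 + a) ^ 2 * (1 + D) * (1 + E) ^ 2 * M * C ^ 4 := by
            gcongr
            norm_num)
    calc 6 * E * y ^ 5 ≤ 6 * E * ((16 * U ^ 2) * ((1 + E) * N)) := e1
      _ = U ^ 2 / 8 * (N * (768 * E * (1 + E))) := by ring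
      _ ≤ U ^ 2 / 8 * 1 := by gcongr
      _ = U ^ 2 / 8 := by ring
  have T4 : D * x * y ^ 4 ≤ U ^ 2 / 8 := by
    have e1 : D * x * y ^ 4 ≤ D * N * (16 * U ^ 2) := by gcongr
    have e2 : N * (128 * D) ≤ 1 := hbig _ (by positivity) (by
      rw [hL]
      calc 128 * D ≤ 128 * (1 + D) := by linarith
        _ = 128 * 1 * (1 + D) * 1 * 1 * 1 := by ring
        _ ≤ 1000 * (1 + a) ^ 2 * (1 + D) * (1 + E) ^ 2 * M * C ^ 4 := by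
            gcongr
            norm_num)
    calc D * x * y ^ 4 ≤ D * N * (16 * U ^ 2) := e1
      _ = U ^ 2 / 8 * (N * (128 * D)) := by ring
      _ ≤ U ^ 2 / 8 * 1 := by gcongr
      _ = U ^ 2 / 8 := by ring
  have T5 : 4 * D * E * U * x * y ^ 3 ≤ U ^ 2 / 8 := by
    have e1 : 4 * D * E * U * x * y ^ 3 ≤ 4 * D * E * U * 1 * ((4 * U) * ((1 + E) * N)) := by
      have : y ^ 3 = y ^ 2 * y := by ring
      rw [this]
      have hx1 : x ≤ 1 := hxN.trans hN1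
      gcongr
    have e2 : N * (128 * D * E * (1 + E)) ≤ 1 := hbig _ (by positivity) (by
      rw [hL]
      have e4 : E * (1 + E) ≤ (1 + E) ^ 2 := by
        have e5 : E ≤ 1 + E := by linarith
        calc E * (1 + E) ≤ (1 + E) * (1 + E) := by gcongr
          _ = (1 + E) ^ 2 := by ring
      calc 128 * D * E * (1 + E) = 128 * D * (E * (1 + E)) := by ring
        _ ≤ 128 * (1 + D) * (1 + E) ^ 2 := by gcongr; linarith
        _ = 128 * 1 * (1 + D) * (1 + E) ^ 2 * 1 * 1 := by ring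
        _ ≤ 1000 * (1 + a) ^ 2 * (1 + D) * (1 + E) ^ 2 * M * C ^ 4 := by
            gcongr
            norm_num)
    calc 4 * D * E * U * x * y ^ 3 ≤ 4 * D * E * U * 1 * ((4 * U) * ((1 + E) * N)) := e1
      _ = U ^ 2 / 8 * (N * (128 * D * E * (1 + E))) := by ring
      _ ≤ U ^ 2 / 8 * 1 := by gcongr
      _ = U ^ 2 / 8 := by ring
  have hlow : 2 * U ^ 2 ≤ ‖HfU c d η X u‖ := by
    have e0 : 3 * u ^ 2 = HfU c d η X u + (3 * c ^ 2 * (X ^ 2 - η * u) ^ 4 -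
        12 * c ^ 2 * η * u * (X ^ 2 - η * u) ^ 3 - 6 * η * (X ^ 2 - η * u) ^ 5 -
        d * X * (X ^ 2 - η * u) ^ 4 + 4 * d * η * u * X * (X ^ 2 - η * u) ^ 3) := by
      unfold HfU; ring
    have e1 : ‖3 * u ^ 2‖ = 3 * U ^ 2 := by
      rw [norm_mul, norm_pow, hU]; simp
    have n1 : ‖3 * c ^ 2 * (X ^ 2 - η * u) ^ 4‖ = 3 * a ^ 2 * y ^ 4 := by
      simp [norm_mul, norm_pow, ha, hy]
    have n2 : ‖12 * c ^ 2 * η * u * (X ^ 2 - η * u) ^ 3‖ = 12 * a ^ 2 * E * U * y ^ 3 := by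
      simp [norm_mul, norm_pow, ha, hy, hE, hU]
    have n3 : ‖6 * η * (X ^ 2 - η * u) ^ 5‖ = 6 * E * y ^ 5 := by
      simp [norm_mul, norm_pow, hy, hE]
    have n4 : ‖d * X * (X ^ 2 - η * u) ^ 4‖ = D * x * y ^ 4 := by
      simp [norm_mul, norm_pow, hy, hD, hx]
    have n5 : ‖4 * d * η * u * X * (X ^ 2 - η * u) ^ 3‖ = 4 * D * E * U * x * y ^ 3 := by
      simp [norm_mul, norm_pow, hy, hD, hx, hE, hU]
    have e2 : ‖3 * c ^ 2 * (X ^ 2 - η * u) ^ 4 -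
        12 * c ^ 2 * η * u * (X ^ 2 - η * u) ^ 3 - 6 * η * (X ^ 2 - η * u) ^ 5 -
        d * X * (X ^ 2 - η * u) ^ 4 + 4 * d * η * u * X * (X ^ 2 - η * u) ^ 3‖ ≤ U ^ 2 := by
      refine (norm_add_le _ _).trans ?_
      have k1 := norm_sub_le (3 * c ^ 2 * (X ^ 2 - η * u) ^ 4 -
        12 * c ^ 2 * η * u * (X ^ 2 - η * u) ^ 3 - 6 * η * (X ^ 2 - η * u) ^ 5)
        (d * X * (X ^ 2 - η * u) ^ 4)
      have k2 := norm_sub_le (3 * c ^ 2 * (X ^ 2 - η * u) ^ 4 -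
        12 * c ^ 2 * η * u * (X ^ 2 - η * u) ^ 3) (6 * η * (X ^ 2 - η * u) ^ 5)
      have k3 := norm_sub_le (3 * c ^ 2 * (X ^ 2 - η * u) ^ 4)
        (12 * c ^ 2 * η * u * (X ^ 2 - η * u) ^ 3)
      rw [n1, n2] at k3
      rw [n3] at k2
      rw [n4] at k1
      rw [n5]
      linarith
    have e3 : ‖3 * u ^ 2‖ ≤ ‖HfU c d η X u‖ + U ^ 2 := by
      rw [e0]
      exact (norm_add_le _ _).trans (by linarith)
    rw [e1] at e3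
    linarith
  -- conclusion
  have hN4 : N ^ 4 ≤ U := by
    rw [hN']
    rcases max_cases x U with ⟨h1, _⟩ | ⟨h1, _⟩
    · rw [h1]
      have : 1 * x ^ 4 ≤ M * x ^ 4 := by gcongr
      linarith
    · rw [h1]
      have hU1 : U ≤ 1 := hUN.trans hN1
      calc U ^ 4 = U * U ^ 3 := by ring
        _ ≤ U * 1 := by
          gcongr
          exact pow_le_one₀ hU0.le hU1
        _ = U := by ring
  have h8 : U ^ 2 ≤ C * N ^ 11 := by linarith [sq_nonneg U]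
  have h9 : (U ^ 2) ^ 4 ≤ (C * N ^ 11) ^ 4 := by gcongr
  have h10 : (C * N ^ 11) ^ 4 ≤ C ^ 4 * U ^ 11 := by
    calc (C * N ^ 11) ^ 4 = C ^ 4 * (N ^ 4) ^ 11 := by ring
      _ ≤ C ^ 4 * U ^ 11 := by gcongr
  have h11 : U ^ 8 * 1 ≤ U ^ 8 * (C ^ 4 * U ^ 3) := by
    calc U ^ 8 * 1 = (U ^ 2) ^ 4 := by ring
      _ ≤ C ^ 4 * U ^ 11 := h9.trans h10
      _ = U ^ 8 * (C ^ 4 * U ^ 3) := by ring
  have h12 : 1 ≤ C ^ 4 * U ^ 3 := le_of_mul_le_mul_left h11 (by positivity)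
  have h13 : N * (1000 * C ^ 4) ≤ 1 := hbig _ (by positivity) (by
    rw [hL]
    calc 1000 * C ^ 4 = 1000 * 1 * 1 * 1 * 1 * C ^ 4 := by ring
      _ ≤ 1000 * (1 + a) ^ 2 * (1 + D) * (1 + E) ^ 2 * M * C ^ 4 := by gcongr)
  have h14 : C ^ 4 * U ^ 3 ≤ C ^ 4 * N := by
    have hU1 : U ≤ 1 := hUN.trans hN1
    have : U ^ 3 ≤ U := by
      calc U ^ 3 = U * U ^ 2 := by ring
        _ ≤ U * 1 := by
          gcongr
          exact pow_le_one₀ hU0.le hU1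
        _ = U := by ring
    have h15 : U ^ 3 ≤ N := this.trans hUN
    gcongr
  have h16 : N * (1000 * C ^ 4) = 1000 * (C ^ 4 * N) := by ring
  linarith

end H37.LM
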