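import Pool.Agent.H37.LM.LipBasic

/-!
# Lower bound: definitions

* `famJ k ε s δ` : the jet of `u ^ 3 + s u y ^ 4 - y ^ 6 + δ u x y ^ 4`, `u = x ^ 2 - ε y` (`7 ≤ k`).
* `Hf c d η` : the same function in the coordinates `x = √ε X`, `y = X ^ 2 - η u`, with `η = 1 / ε`,
  `s = - 3 c ^ 2`, `d = δ √ε`.
* `Vv c d η σ` : critical values, up to order 2.
* `Nar z` : `z` is in a narrow sector around the positive real axis and `‖z‖ < 1 / 100`.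
* `famS k` : the family.
-/

noncomputable section

open Set Filter Topology

namespace H37.LM

/-- Coefficients of `u ^ 3 + s u y ^ 4 - y ^ 6 + δ u x y ^ 4`, `u = x ^ 2 - ε y`. -/
def famC (ε s δ : ℂ) (i j : ℕ) : ℂ :=
  if i = 6 ∧ j = 0 then 1
  else if i = 4 ∧ j = 1 then -3 * ε
  else if i = 2 ∧ j = 2 then 3 * ε ^ 2
  else if i = 0 ∧ j = 3 then -ε ^ 3
  else if i = 2 ∧ j = 4 then s
  else if i = 0 ∧ j = 5 then -(s * ε)
  else if i = 3 ∧ j = 4 then δ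
  else if i = 1 ∧ j = 5 then -(δ * ε)
  else if i = 0 ∧ j = 6 then -1
  else 0

/-- The jet with these coefficients. -/
def famJ (k : ℕ) (ε s δ : ℂ) : Jet k := fun q => famC ε s δ q.1.1 q.1.2

/-- The jet of `x ^ 6 - y ^ 6`. -/
def fJet (k : ℕ) : Jet k := famJ k 0 0 0

/-- The function in the new coordinates `(X, u)`. -/
def Hf (c d η : ℂ) (p : ℂ × ℂ) : ℂ :=
  p.2 ^ 3 - 3 * c ^ 2 * p.2 * (p.1 ^ 2 - η * p.2) ^ 4 - (p.1 ^ 2 - η * p.2) ^ 6 +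
    d * p.2 * p.1 * (p.1 ^ 2 - η * p.2) ^ 4

/-- The critical values along the two arcs, up to order two. -/
def Vv (c d η σ X : ℂ) : ℂ :=
  -(1 + 2 * σ * c ^ 3) + σ * c * d * X +
    (η * (12 * c ^ 4 + 6 * σ * c) - σ * d ^ 2 / (12 * c)) * X ^ 2

/-- A narrow sector. -/
def Nar (z : ℂ) : Prop := 100 * |z.im| < z.re ∧ z.re ^ 2 + z.im ^ 2 < 1 / 10000

/-- The family. -/
def famS (k : ℕ) : Set (Jet k) :=
  {c | ∃ ε s δ : ℂ, Nar ε ∧ Nar s ∧ Nar δ ∧ c = famJ k ε s δ}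

/-- Comparison of the critical values of two functions on real arcs. -/
def ArcRel (c d η c' d' η' : ℂ) : Prop :=
  ∃ C > 0, ∃ ρ > 0, ∀ X : ℝ, 0 < X → X < ρ → ∃ (X' τ : ℂ), (τ = 1 ∨ τ = -1) ∧
    X ≤ C * ‖X'‖ ∧ ‖X'‖ ≤ C * X ∧
    ∀ σ : ℂ, (σ = 1 ∨ σ = -1) →
      ‖(X : ℂ) ^ 12 * Vv c d η σ X - X' ^ 12 * Vv c' d' η' (τ * σ) X'‖ ≤ C * X ^ 15

end H37.LM
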