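import Pool.Agent.H37.LM.LowDef

/-!
# The family has dimension 6 at `x ^ 6 - y ^ 6`   [H37 LM LowDim]

For `r > 0` small put `σ t = famJ k ε s δ` with `ε = r (2 + t 0 + I t 1 / 200)`,
`s = r (2 + t 2 + I t 3 / 200)`, `δ = r (2 + t 4 + I t 5 / 200)`, `t : Fin 6 → ℝ`, `‖t‖ < 1`.
Then `re ε > r`, `100 |im ε| < r / 2`, `‖ε‖ ≤ 4 r`: `Nar ε` for `r < 1 / 1000`, etc.  `σ` is smooth (every
coordinate is a polynomial in `t`), injective, and `fderiv ℝ σ t` is injective: `ε = - σ_{41} / 3`,
`s = σ_{24}`, `δ = σ_{34}` are (affine) functions of `t` with injective linear part, and are linear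
functions of `σ t`.  All coordinates of `σ t - fJet k` are bounded by `100 r`, so `σ t` is in the given
neighbourhood of `fJet k = famJ k 0 0 0` if `r` is small.
-/

noncomputable section

open Set Filter Topology
open scoped ContDiff

namespace H37.LM

namespace LowDimAux

/-- one complex parameter -/
def par (r : ℝ) (u v : ℝ) : ℂ := (r : ℂ) * (2 + (u : ℂ) + Complex.I * (v : ℂ) / 200)

theorem par_re (r u v : ℝ) : (par r u v).re = r * (2 + u) := by
  have h : par r u v = ⟨r * (2 + u), r * v / 200⟩ := by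
    apply Complex.ext
    · simp [par]
    · simp [par]
      ring
  rw [h]

theorem par_im (r u v : ℝ) : (par r u v).im = r * v / 200 := by
  have h : par r u v = ⟨r * (2 + u), r * v / 200⟩ := by
    apply Complex.ext
    · simp [par]
    · simp [par]
      ring
  rw [h]

theorem par_nar {r u v : ℝ} (hr : 0 < r) (hr1 : r < 1 / 1000) (hu : |u| < 1) (hv : |v| < 1) :
    Nar (par r u v) := by
  rw [abs_lt] at hu hv
  refine ⟨?_, ?_⟩
  · rw [par_re, par_im]
    have h1 : |r * v / 200| < r / 200 := by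
      rw [abs_lt]; constructor <;> nlinarith
    nlinarith
  · rw [par_re, par_im]
    have h1 : 0 < r * (2 + u) := by nlinarith
    have h2 : r * (2 + u) < 3 / 1000 := by nlinarith
    have h3 : |r * v / 200| < 1 / 1000 := by
      rw [abs_lt]; constructor <;> nlinarith
    rw [abs_lt] at h3
    nlinarith

theorem par_norm {r u v : ℝ} (hr : 0 < r) (hu : |u| < 1) (hv : |v| < 1) :
    ‖par r u v‖ < 4 * r := by
  rw [abs_lt] at hu hv
  have h1 := Complex.norm_le_abs_re_add_abs_im (par r u v)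
  rw [par_re, par_im] at h1
  have h2 : |r * (2 + u)| < 3 * r := by
    rw [abs_lt]; constructor <;> nlinarith
  have h3 : |r * v / 200| < r := by
    rw [abs_lt]; constructor <;> nlinarith
  linarith

theorem par_contDiff (r : ℝ) (i j : Fin 6) :
    ContDiff ℝ ∞ (fun t : Fin 6 → ℝ => par r (t i) (t j)) := by
  have h : ∀ i : Fin 6, ContDiff ℝ ∞ (fun t : Fin 6 → ℝ => ((t i : ℝ) : ℂ)) := fun i =>
    Complex.ofRealCLM.contDiff.comp (contDiff_apply ℝ ℝ i)
  unfold par
  exact contDiff_const.mul ((contDiff_const.add (h i)).add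
    ((contDiff_const.mul (h j)).div_const _))

/-- the family depends smoothly on its parameters -/
theorem famJ_contDiff (k : ℕ) {e s d : (Fin 6 → ℝ) → ℂ} (he : ContDiff ℝ ∞ e)
    (hs : ContDiff ℝ ∞ s) (hd : ContDiff ℝ ∞ d) :
    ContDiff ℝ ∞ (fun t => famJ k (e t) (s t) (d t)) := by
  rw [contDiff_pi]
  intro q
  simp only [famJ, famC]
  split_ifs
  · exact contDiff_const
  · exact contDiff_const.mul he
  · exact contDiff_const.mul (he.pow 2)
  · exact (he.pow 3).neg
  · exact hs
  · exact (hs.mul he).neg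
  · exact hd
  · exact (hd.mul he).neg
  · exact contDiff_const
  · exact contDiff_const

theorem famJ_continuous (k : ℕ) :
    Continuous (fun z : ℂ × ℂ × ℂ => famJ k z.1 z.2.1 z.2.2) := by
  refine continuous_pi fun q => ?_
  simp only [famJ, famC]
  split_ifs <;> fun_prop

/-- the index `(i, j)` -/
def ix (k i j : ℕ) (h : 1 ≤ i + j ∧ i + j ≤ k) : Idx k :=
  ⟨(⟨i, by omega⟩, ⟨j, by omega⟩), by simpa using h⟩

/-- the left inverse -/
def back (k : ℕ) (hk : 7 ≤ k) (r : ℝ) (c : Jet k) : Fin 6 → ℝ :=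
  ![Complex.reCLM (c (ix k 4 1 (by omega))) * (-(3 * r))⁻¹ - 2,
    Complex.imCLM (c (ix k 4 1 (by omega))) * (200 * (-(3 * r))⁻¹),
    Complex.reCLM (c (ix k 2 4 (by omega))) * r⁻¹ - 2,
    Complex.imCLM (c (ix k 2 4 (by omega))) * (200 * r⁻¹),
    Complex.reCLM (c (ix k 3 4 (by omega))) * r⁻¹ - 2,
    Complex.imCLM (c (ix k 3 4 (by omega))) * (200 * r⁻¹)]

theorem back_differentiable (k : ℕ) (hk : 7 ≤ k) (r : ℝ) :
    Differentiable ℝ (back k hk r) := by
  have h1 : ∀ q : Idx k, Differentiable ℝ (fun c : Jet k => Complex.reCLM (c q)) := fun q =>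
    Complex.reCLM.differentiable.comp (differentiable_apply q)
  have h2 : ∀ q : Idx k, Differentiable ℝ (fun c : Jet k => Complex.imCLM (c q)) := fun q =>
    Complex.imCLM.differentiable.comp (differentiable_apply q)
  rw [differentiable_pi]
  intro i
  fin_cases i
  · exact ((h1 _).mul_const _).sub_const _
  · exact (h2 _).mul_const _
  · exact ((h1 _).mul_const _).sub_const _
  · exact (h2 _).mul_const _
  · exact ((h1 _).mul_const _).sub_const _
  · exact (h2 _).mul_const _

theorem back_famJ (k : ℕ) (hk : 7 ≤ k) {r : ℝ} (hr : 0 < r) (t : Fin 6 → ℝ) :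
    back k hk r (famJ k (par r (t 0) (t 1)) (par r (t 2) (t 3)) (par r (t 4) (t 5))) = t := by
  have hr' : r ≠ 0 := hr.ne'
  have a1 : famJ k (par r (t 0) (t 1)) (par r (t 2) (t 3)) (par r (t 4) (t 5))
      (ix k 4 1 (by omega)) = -3 * par r (t 0) (t 1) := by
    simp [famJ, famC, ix]
  have a2 : famJ k (par r (t 0) (t 1)) (par r (t 2) (t 3)) (par r (t 4) (t 5))
      (ix k 2 4 (by omega)) = par r (t 2) (t 3) := by
    simp [famJ, famC, ix]
  have a3 : famJ k (par r (t 0) (t 1)) (par r (t 2) (t 3)) (par r (t 4) (t 5))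
      (ix k 3 4 (by omega)) = par r (t 4) (t 5) := by
    simp [famJ, famC, ix]
  funext i
  fin_cases i
  · change Complex.re (famJ k _ _ _ _) * _ - 2 = t 0
    rw [a1]
    simp only [Complex.mul_re, par_re, par_im]
    simp
    field_simp
    ring
  · change Complex.im (famJ k _ _ _ _) * _ = t 1
    rw [a1]
    simp only [Complex.mul_im, par_re, par_im]
    simp
    field_simp
  · change Complex.re (famJ k _ _ _ _) * _ - 2 = t 2
    rw [a2, par_re]
    field_simp
    ring
  · change Complex.im (famJ k _ _ _ _) * _ = t 3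
    rw [a2, par_im]
    field_simp
  · change Complex.re (famJ k _ _ _ _) * _ - 2 = t 4
    rw [a3, par_re]
    field_simp
    ring
  · change Complex.im (famJ k _ _ _ _) * _ = t 5
    rw [a3, par_im]
    field_simp

end LowDimAux

open LowDimAux in
theorem famS_dim (k : ℕ) (hk : 7 ≤ k) : LocalDimGE (famS k) (fJet k) 6 := by
  intro U hU
  have hc := (famJ_continuous k).continuousAt (x := (0 : ℂ × ℂ × ℂ))
  have hpre : (fun z : ℂ × ℂ × ℂ => famJ k z.1 z.2.1 z.2.2) ⁻¹' U ∈ 𝓝 (0 : ℂ × ℂ × ℂ) :=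
    hc.preimage_mem_nhds hU
  obtain ⟨ρ, hρ, hball⟩ := Metric.mem_nhds_iff.1 hpre
  obtain ⟨r, hr0, hr1, hr2⟩ : ∃ r : ℝ, 0 < r ∧ r < 1 / 1000 ∧ 4 * r < ρ := by
    refine ⟨min (1 / 2000) (ρ / 8), by positivity, ?_, ?_⟩
    · exact lt_of_le_of_lt (min_le_left _ _) (by norm_num)
    · have := min_le_right (1 / 2000 : ℝ) (ρ / 8)
      linarith
  set σ : (Fin 6 → ℝ) → Jet k := fun t =>
    famJ k (par r (t 0) (t 1)) (par r (t 2) (t 3)) (par r (t 4) (t 5)) with hσ
  have hsm : ContDiff ℝ ∞ σ :=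
    famJ_contDiff k (par_contDiff r 0 1) (par_contDiff r 2 3) (par_contDiff r 4 5)
  have hinv : ∀ t, back k hk r (σ t) = t := fun t => back_famJ k hk hr0 t
  refine ⟨σ, hsm.contDiffOn, ?_, ?_, ?_⟩
  · intro t _ t' _ h
    exact (hinv t).symm.trans ((congrArg (back k hk r) h).trans (hinv t'))
  · intro t _
    have h1 : HasFDerivAt σ (fderiv ℝ σ t) t :=
      (hsm.differentiable (by simp)).differentiableAt.hasFDerivAt
    have h2 : HasFDerivAt (back k hk r) (fderiv ℝ (back k hk r) (σ t)) (σ t) :=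
      (back_differentiable k hk r).differentiableAt.hasFDerivAt
    have h3 := h2.comp t h1
    have h4 : (back k hk r) ∘ σ = id := funext hinv
    have h3' : HasFDerivAt (id : (Fin 6 → ℝ) → Fin 6 → ℝ)
        ((fderiv ℝ (back k hk r) (σ t)).comp (fderiv ℝ σ t)) t := h4 ▸ h3
    have h5 := h3'.unique (hasFDerivAt_id t)
    intro v w hvw
    have hv := congrArg (fun L : (Fin 6 → ℝ) →L[ℝ] (Fin 6 → ℝ) => L v) h5
    have hw := congrArg (fun L : (Fin 6 → ℝ) →L[ℝ] (Fin 6 → ℝ) => L w) h5
    simp only [ContinuousLinearMap.comp_apply, ContinuousLinearMap.id_apply] at hv hw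
    rw [← hv, ← hw, hvw]
  · intro t ht
    have hti : ∀ i, |t i| < 1 := by
      intro i
      have h1 := norm_le_pi_norm t i
      rw [mem_ball_zero_iff] at ht
      rw [← Real.norm_eq_abs]
      exact lt_of_le_of_lt h1 ht
    refine ⟨⟨_, _, _, par_nar hr0 hr1 (hti 0) (hti 1), par_nar hr0 hr1 (hti 2) (hti 3),
      par_nar hr0 hr1 (hti 4) (hti 5), rfl⟩, ?_⟩
    have hmem : ((par r (t 0) (t 1), par r (t 2) (t 3), par r (t 4) (t 5)) : ℂ × ℂ × ℂ) ∈
        Metric.ball (0 : ℂ × ℂ × ℂ) ρ := by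
      rw [mem_ball_zero_iff, Prod.norm_def, Prod.norm_def]
      have e1 := par_norm (r := r) hr0 (hti 0) (hti 1)
      have e2 := par_norm (r := r) hr0 (hti 2) (hti 3)
      have e3 := par_norm (r := r) hr0 (hti 4) (hti 5)
      exact max_lt (by linarith) (max_lt (by linarith) (by linarith))
    have h6 := hball hmem
    rw [mem_preimage] at h6
    exact h6

end H37.LM
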