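import Pool.Agent.H37.LM.LowDef

/-!
# Lower bound: evaluation and change of coordinates   [H37 LM LowEval]

* `evalJet_famJ`: `coef (famJ k ε s δ) i j = famC ε s δ i j` for all `i, j` (for `7 ≤ k`, all nonzero
  coefficients have `1 ≤ i + j ≤ 7`), then expand the finite sum (only nine nonzero terms).
* `lip_change`: `x = r X`, `y = X ^ 2 - η u` with `r ^ 2 = ε`, `η ε = 1`: `Φ (X, u) = (r X, X ^ 2 - η u)` is a
  polynomial map with `Φ 0 = 0`, derivative `(X, u) ↦ (r X, - η u)` at `0`, invertible.  And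
  `x ^ 2 - ε y = u`, so `evalJet (famJ k ε s δ) ∘ Φ = Hf c d η` with `s = - 3 c ^ 2`, `d = δ r`.
  Use `lipEquiv_comp`, `LipEquiv.symm`.
-/

noncomputable section

open Set Filter Topology

namespace H37.LM

theorem coef_famJ (k : ℕ) (hk : 7 ≤ k) (ε s δ : ℂ) (i j : ℕ) :
    coef (famJ k ε s δ) i j = famC ε s δ i j := by
  unfold coef
  split_ifs with h
  · rfl
  · symm
    unfold famC
    rw [if_neg (by omega), if_neg (by omega), if_neg (by omega), if_neg (by omega),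
      if_neg (by omega), if_neg (by omega), if_neg (by omega), if_neg (by omega),
      if_neg (by omega)]

private theorem lowEval_zero (ε s δ : ℂ) (i j : ℕ) (h : 7 ≤ i ∨ 7 ≤ j) : famC ε s δ i j = 0 := by
  unfold famC
  rw [if_neg (by omega), if_neg (by omega), if_neg (by omega), if_neg (by omega),
    if_neg (by omega), if_neg (by omega), if_neg (by omega), if_neg (by omega),
    if_neg (by omega)]

theorem evalJet_famJ (k : ℕ) (hk : 7 ≤ k) (ε s δ : ℂ) (p : ℂ × ℂ) :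
    evalJet (famJ k ε s δ) p = (p.1 ^ 2 - ε * p.2) ^ 3 + s * (p.1 ^ 2 - ε * p.2) * p.2 ^ 4 -
      p.2 ^ 6 + δ * (p.1 ^ 2 - ε * p.2) * p.1 * p.2 ^ 4 := by
  unfold evalJet ev
  have h1 : ∑ i ∈ Finset.range (k + 1), ∑ j ∈ Finset.range (k + 1),
      coef (famJ k ε s δ) i j * p.1 ^ i * p.2 ^ j =
      ∑ i ∈ Finset.range 7, ∑ j ∈ Finset.range 7, famC ε s δ i j * p.1 ^ i * p.2 ^ j := by
    have h2 : ∀ i : ℕ, ∑ j ∈ Finset.range (k + 1),
        coef (famJ k ε s δ) i j * p.1 ^ i * p.2 ^ j =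
        ∑ j ∈ Finset.range 7, famC ε s δ i j * p.1 ^ i * p.2 ^ j := by
      intro i
      rw [Finset.sum_congr rfl fun j _ => by rw [coef_famJ k hk]]
      symm
      apply Finset.sum_subset
      · intro j hj
        rw [Finset.mem_range] at hj ⊢
        omega
      · intro j _ hj
        rw [Finset.mem_range, not_lt] at hj
        rw [lowEval_zero ε s δ i j (Or.inr hj)]
        ring
    rw [Finset.sum_congr rfl fun i _ => h2 i]
    symm
    apply Finset.sum_subset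
    · intro i hi
      rw [Finset.mem_range] at hi ⊢
      omega
    · intro i _ hi
      rw [Finset.mem_range, not_lt] at hi
      apply Finset.sum_eq_zero
      intro j _
      rw [lowEval_zero ε s δ i j (Or.inl hi)]
      ring
  rw [h1]
  simp [Finset.sum_range_succ, famC]
  ring

theorem lip_change (k : ℕ) (hk : 7 ≤ k) (ε s δ r c : ℂ) (hr : r ^ 2 = ε) (hε : ε ≠ 0)
    (hc : s = -3 * c ^ 2) :
    LipEquiv (evalJet (famJ k ε s δ)) (Hf c (δ * r) ε⁻¹) := by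
  have hr0 : r ≠ 0 := by
    rintro rfl
    apply hε
    rw [← hr]
    ring
  let Φ : ℂ × ℂ → ℂ × ℂ := fun p => (r * p.1, p.1 ^ 2 - ε⁻¹ * p.2)
  have hcomp : evalJet (famJ k ε s δ) ∘ Φ = Hf c (δ * r) ε⁻¹ := by
    funext p
    rw [Function.comp_apply, evalJet_famJ k hk]
    simp only [Φ, Hf]
    have e : (r * p.1) ^ 2 - ε * (p.1 ^ 2 - ε⁻¹ * p.2) = p.2 := by
      rw [mul_pow, hr]
      field_simp
      ring
    rw [e, hc]
    ring
  rw [← hcomp]
  let f₁ : (ℂ × ℂ) →L[ℝ] (ℂ × ℂ) :=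
    (r • ContinuousLinearMap.fst ℝ ℂ ℂ).prod ((-ε⁻¹) • ContinuousLinearMap.snd ℝ ℂ ℂ)
  let f₂ : (ℂ × ℂ) →L[ℝ] (ℂ × ℂ) :=
    (r⁻¹ • ContinuousLinearMap.fst ℝ ℂ ℂ).prod ((-ε) • ContinuousLinearMap.snd ℝ ℂ ℂ)
  have h12 : Function.LeftInverse f₂ f₁ := by
    intro p
    ext
    · show r⁻¹ * (r * p.1) = p.1
      rw [← mul_assoc, inv_mul_cancel₀ hr0, one_mul]
    · show (-ε) * ((-ε⁻¹) * p.2) = p.2
      field_simp
  have h21 : Function.RightInverse f₂ f₁ := by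
    intro p
    ext
    · show r * (r⁻¹ * p.1) = p.1
      rw [← mul_assoc, mul_inv_cancel₀ hr0, one_mul]
    · show (-ε⁻¹) * ((-ε) * p.2) = p.2
      field_simp
  refine LipEquiv.symm (lipEquiv_comp _ Φ ?_ ?_ (ContinuousLinearEquiv.equivOfInverse f₁ f₂ h12 h21)
    ?_)
  · simp [Φ]
  · simp only [Φ]
    fun_prop
  · show HasFDerivAt Φ f₁ 0
    have h1 : HasFDerivAt (fun p : ℂ × ℂ => r * p.1) (r • ContinuousLinearMap.fst ℝ ℂ ℂ)
        (0 : ℂ × ℂ) := hasFDerivAt_fst.const_mul r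
    have h2 : HasFDerivAt (fun p : ℂ × ℂ => p.1 ^ 2) (0 : (ℂ × ℂ) →L[ℝ] ℂ) (0 : ℂ × ℂ) := by
      have h := (hasFDerivAt_fst (𝕜 := ℝ) (E := ℂ) (F := ℂ) (p := (0 : ℂ × ℂ))).pow 2
      refine h.congr_fderiv ?_
      ext x <;> simp
    have h3 : HasFDerivAt (fun p : ℂ × ℂ => ε⁻¹ * p.2) (ε⁻¹ • ContinuousLinearMap.snd ℝ ℂ ℂ)
        (0 : ℂ × ℂ) := hasFDerivAt_snd.const_mul ε⁻¹
    have h4 := h1.prodMk (h2.sub h3)
    refine h4.congr_fderiv ?_
    simp only [f₁]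
    congr 1
    rw [zero_sub]
    ext x <;> simp

end H37.LM
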