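import Pool.Agent.H37.LM.LowDef

/-!
# Narrow sectors   [H37 LM LowSector]

`Cone t z`: `0 < re z` and `|im z| ≤ t re z`.
* `cone_mul`: `re (z z') ≥ (1 - t t') re z re z'`, `|im (z z')| ≤ (t + t') re z re z'`.
* `cone_inv`: `z⁻¹ = conj z / ‖z‖ ^ 2`.
* `cone_sqrt`: a square root `r = a + b I` of `z ≠ 0` with `a ≥ 0` (choose the sign; `a = 0` would give
  `re z = - b ^ 2 ≤ 0`): `2 |a b| = |im z| ≤ t (a ^ 2 - b ^ 2) ≤ t a ^ 2`, so `|b| ≤ t a / 2`.
* `root_one`: `‖ω‖ = 1`, `Cone (1 / 20) ω` imply `‖ω - 1‖ ≤ 1 / 15`; so `‖ω ^ k - 1‖ ≤ k / 15 < 1` for `k ≤ 11`,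
  and `re (ω ^ k) > 0`.  If `ω ≠ 1` then `∑_{k < 12} ω ^ k = 0` (geometric sum), contradiction.
-/

noncomputable section

open Set Filter Topology

namespace H37.LM

/-- A cone around the positive real axis. -/
def Cone (t : ℝ) (z : ℂ) : Prop := 0 < z.re ∧ |z.im| ≤ t * z.re

theorem cone_mul (t t' : ℝ) (h0 : 0 ≤ t) (h0' : 0 ≤ t') (h : t * t' < 1) (z z' : ℂ)
    (hz : Cone t z) (hz' : Cone t' z') : Cone ((t + t') / (1 - t * t')) (z * z') := by
  obtain ⟨ha, hb⟩ := hz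
  obtain ⟨ha', hb'⟩ := hz'
  have h1 : 0 < 1 - t * t' := by linarith
  have haa : 0 < z.re * z'.re := mul_pos ha ha'
  have hbb : |z.im| * |z'.im| ≤ (t * z.re) * (t' * z'.re) :=
    mul_le_mul hb hb' (abs_nonneg _) (mul_nonneg h0 ha.le)
  have hbb2 : z.im * z'.im ≤ t * t' * (z.re * z'.re) := by
    calc z.im * z'.im ≤ |z.im * z'.im| := le_abs_self _
      _ = |z.im| * |z'.im| := abs_mul _ _
      _ ≤ (t * z.re) * (t' * z'.re) := hbb
      _ = t * t' * (z.re * z'.re) := by ring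
  have hre : (1 - t * t') * (z.re * z'.re) ≤ (z * z').re := by
    rw [Complex.mul_re]
    nlinarith
  have him : |(z * z').im| ≤ (t + t') * (z.re * z'.re) := by
    rw [Complex.mul_im]
    calc |z.re * z'.im + z.im * z'.re| ≤ |z.re * z'.im| + |z.im * z'.re| := abs_add_le _ _
      _ = z.re * |z'.im| + |z.im| * z'.re := by
          rw [abs_mul, abs_mul, abs_of_pos ha, abs_of_pos ha']
      _ ≤ z.re * (t' * z'.re) + (t * z.re) * z'.re := by
          gcongr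
      _ = (t + t') * (z.re * z'.re) := by ring
  refine ⟨lt_of_lt_of_le (mul_pos h1 haa) hre, him.trans ?_⟩
  rw [div_mul_eq_mul_div, le_div_iff₀ h1]
  calc (t + t') * (z.re * z'.re) * (1 - t * t') = (t + t') * ((1 - t * t') * (z.re * z'.re)) := by
        ring
    _ ≤ (t + t') * (z * z').re := by
        gcongr

theorem cone_inv (t : ℝ) (z : ℂ) (hz : Cone t z) : Cone t z⁻¹ := by
  obtain ⟨ha, hb⟩ := hz
  have hz0 : z ≠ 0 := by
    rintro rfl
    simp at ha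
  have hN : 0 < Complex.normSq z := Complex.normSq_pos.2 hz0
  refine ⟨?_, ?_⟩
  · rw [Complex.inv_re]
    exact div_pos ha hN
  · rw [Complex.inv_re, Complex.inv_im, abs_div, abs_neg, abs_of_pos hN, ← mul_div_assoc]
    gcongr

theorem cone_sqrt (t : ℝ) (h0 : 0 ≤ t) (z : ℂ) (hz : Cone t z) :
    ∃ r : ℂ, r ^ 2 = z ∧ Cone (t / 2) r := by
  obtain ⟨ha, hb⟩ := hz
  have key : ∀ r : ℂ, r ^ 2 = z → 0 ≤ r.re → Cone (t / 2) r := by
    intro r hr hre
    have h1 : z.re = r.re ^ 2 - r.im ^ 2 := by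
      rw [← hr, pow_two, Complex.mul_re]; ring
    have h2 : z.im = 2 * (r.re * r.im) := by
      rw [← hr, pow_two, Complex.mul_im]; ring
    rw [h1] at ha hb
    rw [h2, abs_mul, abs_mul, abs_of_nonneg hre, abs_of_pos (by norm_num : (0 : ℝ) < 2)] at hb
    have hre0 : 0 < r.re := by
      rcases hre.lt_or_eq with h | h
      · exact h
      · rw [← h] at ha
        nlinarith [sq_nonneg r.im]
    refine ⟨hre0, ?_⟩
    have h3 : r.re * (2 * |r.im|) ≤ r.re * (t * r.re) := by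
      nlinarith [sq_nonneg r.im, mul_nonneg h0 (sq_nonneg r.im)]
    have h4 := le_of_mul_le_mul_left h3 hre0
    linarith
  obtain ⟨r, hr⟩ := IsAlgClosed.exists_pow_nat_eq z (n := 2) two_pos
  rcases le_total 0 r.re with h | h
  · exact ⟨r, hr, key r hr h⟩
  · refine ⟨-r, by rw [neg_sq, hr], key (-r) (by rw [neg_sq, hr]) ?_⟩
    rw [Complex.neg_re]
    linarith

theorem root_one (ω : ℂ) (h : ω ^ 12 = 1) (hω : Cone (1 / 20) ω) : ω = 1 := by
  have hn : ‖ω‖ = 1 := Complex.norm_eq_one_of_pow_eq_one h (by norm_num)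
  obtain ⟨ha, hb⟩ := hω
  have hsq : ω.re ^ 2 + ω.im ^ 2 = 1 := by
    have h1 := Complex.sq_norm ω
    rw [hn, Complex.normSq_apply] at h1
    nlinarith
  have hb2 : ω.im ^ 2 ≤ (1 / 20 * ω.re) ^ 2 := by
    rw [← sq_abs ω.im]
    exact pow_le_pow_left₀ (abs_nonneg _) hb 2
  have hre1 : ω.re ≤ 1 := by nlinarith [sq_nonneg ω.im]
  have hre2 : 1 - 1 / 400 ≤ ω.re := by nlinarith
  have hd : ‖ω - 1‖ ≤ 1 / 12 := by
    have h2 : ‖ω - 1‖ ^ 2 ≤ (1 / 12) ^ 2 := by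
      rw [Complex.sq_norm, Complex.normSq_apply]
      simp only [Complex.sub_re, Complex.one_re, Complex.sub_im, Complex.one_im, sub_zero]
      nlinarith
    exact abs_le_of_sq_le_sq' h2 (by norm_num) |>.2
  have hd2 : ‖ω - 1‖ ≤ 1 / 12 := hd
  have hk : ∀ k : ℕ, ‖ω ^ k - 1‖ ≤ k * (1 / 12) := by
    intro k
    induction k with
    | zero => simp
    | succ k ih =>
      have e : ω ^ (k + 1) - 1 = ω * (ω ^ k - 1) + (ω - 1) := by ring
      rw [e]
      calc ‖ω * (ω ^ k - 1) + (ω - 1)‖ ≤ ‖ω * (ω ^ k - 1)‖ + ‖ω - 1‖ := norm_add_le _ _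
        _ = ‖ω ^ k - 1‖ + ‖ω - 1‖ := by rw [norm_mul, hn, one_mul]
        _ ≤ k * (1 / 12) + 1 / 12 := by gcongr
        _ = ((k + 1 : ℕ) : ℝ) * (1 / 12) := by push_cast; ring
  have hpos : ∀ k ∈ Finset.range 12, 0 < (ω ^ k).re := by
    intro k hk12
    have h1 := hk k
    have h2 : (k : ℝ) ≤ 11 := by
      have := Finset.mem_range.1 hk12
      exact_mod_cast (by omega : k ≤ 11)
    have h3 := Complex.abs_re_le_norm (ω ^ k - 1)
    rw [Complex.sub_re, Complex.one_re] at h3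
    have h4 := (abs_le.1 h3).1
    nlinarith
  have hsum : 0 < (∑ k ∈ Finset.range 12, ω ^ k).re := by
    rw [Complex.re_sum]
    exact Finset.sum_pos hpos ⟨0, by simp⟩
  have hne : (∑ k ∈ Finset.range 12, ω ^ k) ≠ 0 := by
    intro h0
    rw [h0] at hsum
    simp at hsum
  have hg := geom_sum_mul ω 12
  rw [h, sub_self] at hg
  exact sub_eq_zero.1 ((mul_eq_zero.1 hg).resolve_left hne)

theorem nar_cone (z : ℂ) (h : Nar z) : Cone (1 / 100) z ∧ z ≠ 0 ∧ ‖z‖ < 1 / 100 := by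
  obtain ⟨h1, h2⟩ := h
  have h3 : 0 < z.re := by
    have := abs_nonneg z.im
    linarith
  refine ⟨⟨h3, by linarith⟩, ?_, ?_⟩
  · rintro rfl
    simp at h3
  · have h4 : ‖z‖ ^ 2 < (1 / 100) ^ 2 := by
      rw [Complex.sq_norm, Complex.normSq_apply]
      nlinarith
    exact lt_of_pow_lt_pow_left₀ 2 (by norm_num) h4

end H37.LM
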