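import Pool.Agent.H37.LM.LowDef

/-!
# Points with a very small gradient exist   [H37 LM LowOsc]

`H = Hf c d η`, `X > 0` real and small, `q = (X, X ^ 4 ν)` with `ν = σ c + ν1 X + ν2 X ^ 2`,
`ν1 = - σ d / (6 c)`, and `ν2` such that `E' (ν, X) = O(X ^ 3)` (notation of `LowArc.lean`:
`E' = 3 ν² - 3 c² + d X + X² (24 c² η ν + 6 η) + O(X ^ 3)`, so
`6 σ c ν2 + 3 ν1² + 24 c² η σ c + 6 η = 0`).
* `H q = X ^ 12 E (ν, X) = X ^ 12 (Vv c d η σ X + O(X ^ 3))`.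
* `H_u q = X ^ 8 E' = O(X ^ 11)`.
* `H_X q = - 24 c² u X Y³ - 12 X Y⁵ + d u Y⁴ + 8 d u X² Y³ = O(X ^ 11)` (`u = O(X ^ 4)`, `Y = O(X ^ 2)`).
* For `‖p - q‖ ≤ X ^ 7` (`X ≤ 1`): with `p = (X1, u1)`, `‖X1‖ ≤ 2 X`, `‖u1‖ ≤ C X ^ 4`, `‖Y1‖ ≤ C X ^ 2`, all second
  partial derivatives of `H` at `p` are `≤ C X ^ 4`.  So
  `‖H p - H q‖ ≤ ‖∇H q‖ X ^ 7 + C X ^ 4 X ^ 14 ≤ C X ^ 18`.
  (Or: the mean value inequality with the first derivatives, which are `≤ C X ^ 11` on the whole ball: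
  `H_u` at `p` differs from `H_u q` by at most `sup ‖D² H‖ * X ^ 7 ≤ C X ^ 11`.)
-/

noncomputable section

open Set Filter Topology

namespace H37.LM

/-- the rescaled function: `p = (x a, x ^ 4 b)` -/
private def loE (c d η a b x : ℂ) : ℂ :=
  b ^ 3 - 3 * c ^ 2 * b * (a ^ 2 - η * x ^ 2 * b) ^ 4 - (a ^ 2 - η * x ^ 2 * b) ^ 6 +
    d * b * a * x * (a ^ 2 - η * x ^ 2 * b) ^ 4

private theorem lo_scale (c d η a b x : ℂ) :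
    Hf c d η (x * a, x ^ 4 * b) = x ^ 12 * loE c d η a b x := by
  unfold Hf loE
  ring

private def loT (c d η a b x Z' Z : ℂ) : ℂ :=
  (a + 1) * (-3 * c ^ 2 * b * ((Z' + Z) * (Z' ^ 2 + Z ^ 2)) -
    (Z' ^ 5 + Z' ^ 4 * Z + Z' ^ 3 * Z ^ 2 + Z' ^ 2 * Z ^ 3 + Z' * Z ^ 4 + Z ^ 5)) +
    d * b * x * (Z' ^ 4 + (a + 1) * ((Z' + Z) * (Z' ^ 2 + Z ^ 2))) + 0 * η

private theorem lo_a (c d η a b x : ℂ) : loE c d η a b x - loE c d η 1 b x =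
    (a - 1) * loT c d η a b x (a ^ 2 - η * x ^ 2 * b) (1 - η * x ^ 2 * b) := by
  unfold loE loT
  ring

private def loEb (c d η b x Z : ℂ) : ℂ :=
  3 * b ^ 2 - 3 * c ^ 2 * Z ^ 4 + 12 * c ^ 2 * η * x ^ 2 * b * Z ^ 3 + 6 * η * x ^ 2 * Z ^ 5 +
    d * x * Z ^ 4 - 4 * d * η * x ^ 3 * b * Z ^ 3

private def loS (c d η b t x Z ζ : ℂ) : ℂ :=
  (3 * b + t) - 3 * c ^ 2 * ((b + t) * η ^ 2 * x ^ 4 * (6 * Z ^ 2 - 4 * Z * ζ + ζ ^ 2) -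
    4 * η * x ^ 2 * Z ^ 3) -
    η ^ 2 * x ^ 4 * (15 * Z ^ 4 - 20 * Z ^ 3 * ζ + 15 * Z ^ 2 * ζ ^ 2 - 6 * Z * ζ ^ 3 + ζ ^ 4) +
    d * x * ((b + t) * η ^ 2 * x ^ 4 * (6 * Z ^ 2 - 4 * Z * ζ + ζ ^ 2) - 4 * η * x ^ 2 * Z ^ 3)

private theorem lo_b (c d η b t x : ℂ) : loE c d η 1 (b + t) x - loE c d η 1 b x =
    t * loEb c d η b x (1 - η * x ^ 2 * b) +
      t ^ 2 * loS c d η b t x (1 - η * x ^ 2 * b) (η * x ^ 2 * t) := by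
  unfold loE loEb loS
  ring

/-- the remainder of the derivative -/
private def loR1 (c d η ν1 ν2 x ν w Z : ℂ) : ℂ :=
  6 * ν1 * ν2 + 3 * ν2 ^ 2 * x + 24 * c ^ 2 * η * (ν1 + ν2 * x) -
    3 * c ^ 2 * x * (6 * w ^ 2 - 4 * x ^ 2 * w ^ 3 + x ^ 4 * w ^ 4) +
    12 * c ^ 2 * η * x * ν * (-3 * w + 3 * x ^ 2 * w ^ 2 - x ^ 4 * w ^ 3) +
    6 * η * x * (-5 * w + 10 * x ^ 2 * w ^ 2 - 10 * x ^ 4 * w ^ 3 + 5 * x ^ 6 * w ^ 4 -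
      x ^ 8 * w ^ 5) -
    4 * d * w + d * x ^ 2 * (6 * w ^ 2 - 4 * x ^ 2 * w ^ 3 + x ^ 4 * w ^ 4) -
    4 * d * η * ν * Z ^ 3

private theorem lo_Eb (c d η σ ν1 ν2 x : ℂ) (hσ : σ ^ 2 = 1) (h1 : 6 * σ * c * ν1 + d = 0)
    (h2 : 6 * σ * c * ν2 + 3 * ν1 ^ 2 + 24 * c ^ 2 * η * (σ * c) + 6 * η = 0) (ν : ℂ)
    (hν : ν = σ * c + x * (ν1 + ν2 * x)) :
    loEb c d η ν x (1 - x ^ 2 * (η * ν)) =
      x ^ 3 * loR1 c d η ν1 ν2 x ν (η * ν) (1 - x ^ 2 * (η * ν)) := by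
  have e1 : ∀ w : ℂ, (1 - x ^ 2 * w) ^ 4 = 1 - 4 * x ^ 2 * w +
      x ^ 4 * (6 * w ^ 2 - 4 * x ^ 2 * w ^ 3 + x ^ 4 * w ^ 4) := fun w => by ring
  have e2 : ∀ w : ℂ, (1 - x ^ 2 * w) ^ 3 = 1 +
      x ^ 2 * (-3 * w + 3 * x ^ 2 * w ^ 2 - x ^ 4 * w ^ 3) := fun w => by ring
  have e3 : ∀ w : ℂ, (1 - x ^ 2 * w) ^ 5 = 1 + x ^ 2 * (-5 * w + 10 * x ^ 2 * w ^ 2 -
      10 * x ^ 4 * w ^ 3 + 5 * x ^ 6 * w ^ 4 - x ^ 8 * w ^ 5) := fun w => by ring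
  unfold loEb loR1
  rw [e1, e3]
  have e4 : 3 * ν ^ 2 - 3 * c ^ 2 + d * x + x ^ 2 * (24 * c ^ 2 * (η * ν) + 6 * η) =
      x ^ 3 * (6 * ν1 * ν2 + 3 * ν2 ^ 2 * x + 24 * c ^ 2 * η * (ν1 + ν2 * x)) := by
    rw [hν]
    linear_combination x * h1 + x ^ 2 * h2 + 3 * c ^ 2 * hσ
  have e5 : 12 * c ^ 2 * η * x ^ 2 * ν * (1 - x ^ 2 * (η * ν)) ^ 3 = 12 * c ^ 2 * η * x ^ 2 * ν *
      (1 + x ^ 2 * (-3 * (η * ν) + 3 * x ^ 2 * (η * ν) ^ 2 - x ^ 4 * (η * ν) ^ 3)) := by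
    rw [e2]
  rw [e5]
  linear_combination e4

/-- the remainder of the value -/
private def loR (c d η σ ν1 ν2 x ν w : ℂ) : ℂ :=
  (ν1 + ν2 * x) ^ 3 + 3 * σ * c * (2 * ν1 * ν2 + ν2 ^ 2 * x) -
    3 * c ^ 2 * ν * x * (6 * w ^ 2 - 4 * x ^ 2 * w ^ 3 + x ^ 4 * w ^ 4) +
    12 * c ^ 2 * η * (2 * σ * c * (ν1 + ν2 * x) + x * (ν1 + ν2 * x) ^ 2) -
    x * (15 * w ^ 2 - 20 * x ^ 2 * w ^ 3 + 15 * x ^ 4 * w ^ 4 - 6 * x ^ 6 * w ^ 5 +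
      x ^ 8 * w ^ 6) + 6 * η * (ν1 + ν2 * x) + d * ν2 +
    d * ν * (-4 * w + x ^ 2 * (6 * w ^ 2 - 4 * x ^ 2 * w ^ 3 + x ^ 4 * w ^ 4))

private theorem lo_E (c d η σ ν1 ν2 x : ℂ) (hc : c ≠ 0) (hσ : σ ^ 2 = 1)
    (h1 : 6 * σ * c * ν1 + d = 0) (ν : ℂ) (hν : ν = σ * c + x * (ν1 + ν2 * x)) :
    loE c d η 1 ν x = Vv c d η σ x + x ^ 3 * loR c d η σ ν1 ν2 x ν (η * ν) := by
  have hV : σ * d ^ 2 / (12 * c) = -(3 * σ * c * ν1 ^ 2 + d * ν1) := by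
    have hd : d = -(6 * σ * c * ν1) := by linear_combination h1
    rw [div_eq_iff (mul_ne_zero (by norm_num) hc), hd]
    linear_combination (36 * σ * c ^ 2 * ν1 ^ 2) * hσ
  have e1 : ∀ w : ℂ, (1 - x ^ 2 * w) ^ 4 = 1 - 4 * x ^ 2 * w +
      x ^ 4 * (6 * w ^ 2 - 4 * x ^ 2 * w ^ 3 + x ^ 4 * w ^ 4) := fun w => by ring
  have e3 : ∀ w : ℂ, (1 - x ^ 2 * w) ^ 6 = 1 - 6 * x ^ 2 * w + x ^ 4 * (15 * w ^ 2 -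
      20 * x ^ 2 * w ^ 3 + 15 * x ^ 4 * w ^ 4 - 6 * x ^ 6 * w ^ 5 + x ^ 8 * w ^ 6) :=
    fun w => by ring
  have e0 : (1 : ℂ) ^ 2 - η * x ^ 2 * ν = 1 - x ^ 2 * (η * ν) := by ring
  unfold loE Vv loR
  rw [e0, e1, e3, hV]
  have e4 : ν ^ 3 - 3 * c ^ 2 * ν = -2 * σ * c ^ 3 + 3 * σ * c * x ^ 2 * (ν1 + ν2 * x) ^ 2 +
      x ^ 3 * (ν1 + ν2 * x) ^ 3 := by
    rw [hν]
    linear_combination (σ * c ^ 3 + 3 * c ^ 2 * x * (ν1 + ν2 * x)) * hσ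
  have e5 : 12 * c ^ 2 * η * ν ^ 2 = 12 * c ^ 4 * η +
      x * (12 * c ^ 2 * η * (2 * σ * c * (ν1 + ν2 * x) + x * (ν1 + ν2 * x) ^ 2)) := by
    rw [hν]
    linear_combination (12 * c ^ 4 * η) * hσ
  have e6 : 6 * η * ν = 6 * η * σ * c + x * (6 * η * (ν1 + ν2 * x)) := by
    rw [hν]
    ring
  have e7 : d * ν * x = d * σ * c * x + d * ν1 * x ^ 2 + d * ν2 * x ^ 3 := by
    rw [hν]
    ring
  linear_combination e4 + x ^ 2 * e5 + x ^ 2 * e6 + e7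

theorem low_osc (c d η : ℂ) (hc : c ≠ 0) (σ : ℂ) (hσ : σ = 1 ∨ σ = -1) :
    ∃ C > 0, ∃ ρ > 0, ∀ X : ℝ, 0 < X → X < ρ → ∃ q : ℂ × ℂ, q.1 = X ∧ ‖q.2‖ ≤ C * X ^ 4 ∧
      ‖Hf c d η q - (X : ℂ) ^ 12 * Vv c d η σ X‖ ≤ C * X ^ 15 ∧
      ∀ p : ℂ × ℂ, ‖p - q‖ ≤ X ^ 7 → ‖Hf c d η p - Hf c d η q‖ ≤ C * X ^ 18 := by
  have hσ2 : σ ^ 2 = 1 := by
    rcases hσ with h | h <;> rw [h] <;> norm_num
  have hσ0 : σ ≠ 0 := by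
    rcases hσ with h | h <;> rw [h] <;> norm_num
  obtain ⟨ν1, hν1⟩ : ∃ ν1 : ℂ, ν1 = -d / (6 * σ * c) := ⟨_, rfl⟩
  obtain ⟨ν2, hν2⟩ : ∃ ν2 : ℂ,
      ν2 = -(3 * ν1 ^ 2 + 24 * c ^ 2 * η * (σ * c) + 6 * η) / (6 * σ * c) := ⟨_, rfl⟩
  have h6 : 6 * σ * c ≠ 0 := mul_ne_zero (mul_ne_zero (by norm_num) hσ0) hc
  have h1 : 6 * σ * c * ν1 + d = 0 := by
    rw [hν1]
    field_simp
    ring
  have h2 : 6 * σ * c * ν2 + 3 * ν1 ^ 2 + 24 * c ^ 2 * η * (σ * c) + 6 * η = 0 := by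
    rw [hν2, mul_div_cancel₀ _ h6]
    ring
  -- the functions
  obtain ⟨ν, hν⟩ : ∃ ν : ℝ → ℂ, ν = fun X : ℝ => σ * c + (X : ℂ) * (ν1 + ν2 * X) := ⟨_, rfl⟩
  have hνc : Continuous ν := by
    rw [hν]
    fun_prop
  obtain ⟨R, hR⟩ : ∃ R : ℝ → ℂ, R = fun X : ℝ => loR c d η σ ν1 ν2 X (ν X) (η * ν X) := ⟨_, rfl⟩
  have hRc : Continuous R := by
    rw [hR]
    unfold loR
    fun_prop
  obtain ⟨Φ, hΦ⟩ : ∃ Φ : ℝ × ℂ × ℂ → ℂ, Φ = fun y =>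
      y.2.1 * loT c d η (1 + (y.1 : ℂ) ^ 6 * y.2.1) (ν y.1 + (y.1 : ℂ) ^ 3 * y.2.2) y.1
        ((1 + (y.1 : ℂ) ^ 6 * y.2.1) ^ 2 - η * (y.1 : ℂ) ^ 2 * (ν y.1 + (y.1 : ℂ) ^ 3 * y.2.2))
        (1 - η * (y.1 : ℂ) ^ 2 * (ν y.1 + (y.1 : ℂ) ^ 3 * y.2.2)) +
      y.2.2 * loR1 c d η ν1 ν2 y.1 (ν y.1) (η * ν y.1) (1 - (y.1 : ℂ) ^ 2 * (η * ν y.1)) +
      y.2.2 ^ 2 * loS c d η (ν y.1) ((y.1 : ℂ) ^ 3 * y.2.2) y.1 (1 - η * (y.1 : ℂ) ^ 2 * ν y.1)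
        (η * (y.1 : ℂ) ^ 2 * ((y.1 : ℂ) ^ 3 * y.2.2)) := ⟨_, rfl⟩
  have hΦc : Continuous Φ := by
    rw [hΦ]
    unfold loT loR1 loS
    fun_prop
  obtain ⟨M1, hM1⟩ := (isCompact_Icc (a := (0 : ℝ)) (b := 1)).exists_bound_of_continuousOn
    hνc.continuousOn
  obtain ⟨M2, hM2⟩ := (isCompact_Icc (a := (0 : ℝ)) (b := 1)).exists_bound_of_continuousOn
    hRc.continuousOn
  obtain ⟨M3, hM3⟩ := ((isCompact_Icc (a := (0 : ℝ)) (b := 1)).prod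
    ((isCompact_closedBall (0 : ℂ) 1).prod (isCompact_closedBall (0 : ℂ) 1))).exists_bound_of_continuousOn
    hΦc.continuousOn
  have hM1' : 0 ≤ M1 := (norm_nonneg _).trans (hM1 0 ⟨le_rfl, zero_le_one⟩)
  have hM2' : 0 ≤ M2 := (norm_nonneg _).trans (hM2 0 ⟨le_rfl, zero_le_one⟩)
  have hM3' : 0 ≤ M3 := (norm_nonneg _).trans (hM3 (0, 0, 0)
    ⟨⟨le_rfl, zero_le_one⟩, by simp, by simp⟩)
  refine ⟨M1 + M2 + M3 + 1, by linarith, 1, one_pos, fun X hX hX1 => ?_⟩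
  have hXI : X ∈ Icc (0 : ℝ) 1 := ⟨hX.le, hX1.le⟩
  have hXn : ‖(X : ℂ)‖ = X := by rw [Complex.norm_real, Real.norm_of_nonneg hX.le]
  have hX0 : (X : ℂ) ≠ 0 := by
    rw [Ne, Complex.ofReal_eq_zero]
    exact hX.ne'
  have hνX : ν X = σ * c + (X : ℂ) * (ν1 + ν2 * X) := by rw [hν]
  have hq : Hf c d η ((X : ℂ), (X : ℂ) ^ 4 * ν X) = (X : ℂ) ^ 12 * loE c d η 1 (ν X) X := by
    rw [← lo_scale, mul_one]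
  refine ⟨((X : ℂ), (X : ℂ) ^ 4 * ν X), rfl, ?_, ?_, ?_⟩
  · show ‖(X : ℂ) ^ 4 * ν X‖ ≤ _
    rw [norm_mul, norm_pow, hXn, mul_comm]
    refine mul_le_mul_of_nonneg_right ?_ (by positivity)
    linarith [hM1 X hXI]
  · rw [hq, lo_E c d η σ ν1 ν2 X hc hσ2 h1 (ν X) hνX]
    have e : (X : ℂ) ^ 12 * (Vv c d η σ X + (X : ℂ) ^ 3 * loR c d η σ ν1 ν2 X (ν X) (η * ν X)) -
        (X : ℂ) ^ 12 * Vv c d η σ X = (X : ℂ) ^ 15 * R X := by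
      rw [hR]
      ring
    rw [e, norm_mul, norm_pow, hXn, mul_comm]
    refine mul_le_mul_of_nonneg_right ?_ (by positivity)
    linarith [hM2 X hXI]
  · intro p hp
    have hp1 : ‖p.1 - X‖ ≤ X ^ 7 := (norm_fst_le (p - ((X : ℂ), (X : ℂ) ^ 4 * ν X))).trans hp
    have hp2 : ‖p.2 - (X : ℂ) ^ 4 * ν X‖ ≤ X ^ 7 :=
      (norm_snd_le (p - ((X : ℂ), (X : ℂ) ^ 4 * ν X))).trans hp
    obtain ⟨α, hα⟩ : ∃ α : ℂ, α = (p.1 - X) / (X : ℂ) ^ 7 := ⟨_, rfl⟩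
    obtain ⟨β, hβ⟩ : ∃ β : ℂ, β = (p.2 - (X : ℂ) ^ 4 * ν X) / (X : ℂ) ^ 7 := ⟨_, rfl⟩
    have hX7 : (X : ℂ) ^ 7 ≠ 0 := pow_ne_zero 7 hX0
    have hX7' : 0 < X ^ 7 := by positivity
    have hα1 : ‖α‖ ≤ 1 := by
      rw [hα, norm_div, norm_pow, hXn, div_le_one hX7']
      exact hp1
    have hβ1 : ‖β‖ ≤ 1 := by
      rw [hβ, norm_div, norm_pow, hXn, div_le_one hX7']
      exact hp2
    have hp1' : p.1 = (X : ℂ) * (1 + (X : ℂ) ^ 6 * α) := by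
      rw [hα]
      field_simp
      ring
    have hp2' : p.2 = (X : ℂ) ^ 4 * (ν X + (X : ℂ) ^ 3 * β) := by
      have e : (X : ℂ) ^ 7 * β = p.2 - (X : ℂ) ^ 4 * ν X := by
        rw [hβ, mul_div_cancel₀ _ hX7]
      linear_combination -e
    have hpp : p = ((X : ℂ) * (1 + (X : ℂ) ^ 6 * α), (X : ℂ) ^ 4 * (ν X + (X : ℂ) ^ 3 * β)) :=
      Prod.ext hp1' hp2'
    have key : Hf c d η p - Hf c d η ((X : ℂ), (X : ℂ) ^ 4 * ν X) =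
        (X : ℂ) ^ 18 * Φ (X, α, β) := by
      rw [hq, hpp, lo_scale]
      have ea := lo_a c d η (1 + (X : ℂ) ^ 6 * α) (ν X + (X : ℂ) ^ 3 * β) X
      have eb := lo_b c d η (ν X) ((X : ℂ) ^ 3 * β) X
      have ec := lo_Eb c d η σ ν1 ν2 X hσ2 h1 h2 (ν X) hνX
      have ed : 1 - η * (X : ℂ) ^ 2 * ν X = 1 - (X : ℂ) ^ 2 * (η * ν X) := by ring
      have ee : loEb c d η (ν X) X (1 - η * (X : ℂ) ^ 2 * ν X) =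
          (X : ℂ) ^ 3 * loR1 c d η ν1 ν2 X (ν X) (η * ν X) (1 - (X : ℂ) ^ 2 * (η * ν X)) := by
        rw [ed, ec]
      rw [ee] at eb
      rw [hΦ]
      simp only
      linear_combination (X : ℂ) ^ 12 * ea + (X : ℂ) ^ 12 * eb
    rw [key, norm_mul, norm_pow, hXn, mul_comm]
    refine mul_le_mul_of_nonneg_right ?_ (by positivity)
    have h3 := hM3 (X, α, β) ⟨hXI, by simpa using hα1, by simpa using hβ1⟩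
    linarith

end H37.LM
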