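import Pool.Agent.H37.LM.LowArc
import Pool.Agent.H37.LM.LowOsc

/-!
# Bi-Lipschitz equivalence compares the critical values   [H37 LM LowTrans]

`cauchy_grad`: for a unit vector `v` the function `t ↦ f (q + t v)` is entire, and bounded by `A`
(after subtracting `f q`) on `‖t‖ ≤ r`: its derivative at `0` is `≤ A / r`
(`Complex.norm_deriv_le_of_forall_mem_sphere_norm_le`).

`low_trans`.  Let `H = Hf c d η = H' ∘ φ` near `0`, `H' = Hf c' d' η'`, `φ`, `ψ` `K`-Lipschitz, inverse to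
each other near `0`.  `X > 0` small.  For `σ = ± 1` let `q_σ` be the point of `low_osc` (for `H`),
`q_σ' = φ q_σ`.  `‖q_σ‖ = X` (`X` small), so `X / K ≤ ‖q_σ'‖ ≤ K X`.
* If `‖p' - q_σ'‖ ≤ X ^ 7 / K` then `p' = φ (ψ p')`, `‖ψ p' - q_σ‖ ≤ X ^ 7`, so
  `‖H' p' - H' q_σ'‖ = ‖H (ψ p') - H q_σ‖ ≤ C X ^ 18`.  `cauchy_grad`:
  `‖fderiv ℂ H' q_σ'‖ ≤ C K X ^ 11 ≤ C K ^ 12 ‖q_σ'‖ ^ 11`.
* `low_arc` for `H'` : with `q_σ' = (X_σ', u_σ')`, `‖u_σ'‖ ≤ M ‖X_σ'‖ ^ 4`, so `‖q_σ'‖ = ‖X_σ'‖` for small `X`; there is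
  `t σ = ± 1` with `H' q_σ' = X_σ' ^ 12 Vv c' d' η' (t σ) X_σ' + O(X ^ 15)`.  And `H' q_σ' = H q_σ =
  X ^ 12 Vv c d η σ X + O(X ^ 15)`.
* `‖X_1' - X_{-1}'‖ ≤ ‖q_1' - q_{-1}'‖ ≤ K ‖q_1 - q_{-1}‖ ≤ 2 K C X ^ 4` (same first coordinate).  So
  `X' := X_{-1}'` works for both signs, with error `O(X ^ 15)` (`X_1' ^ 12 - X' ^ 12 = O(X ^ 11 X ^ 4)`).
* If `t 1 = t (-1)` then `X ^ 12 (Vv .. 1 X - Vv .. (-1) X) = O(X ^ 15)`, but
  `Vv .. 1 X - Vv .. (-1) X → - 4 c ^ 3 ≠ 0`: impossible for small `X`.  So `t σ = τ σ` with `τ = t 1`.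
-/

noncomputable section

open Set Filter Topology

namespace H37.LM

theorem cauchy_grad (f : ℂ × ℂ → ℂ) (hf : Differentiable ℂ f) (q : ℂ × ℂ) (r A : ℝ) (hr : 0 < r)
    (h : ∀ p, ‖p - q‖ ≤ r → ‖f p - f q‖ ≤ A) : ‖fderiv ℂ f q‖ ≤ A / r := by
  have hA : 0 ≤ A := by
    have := h q (by simpa using hr.le)
    simpa using this
  refine ContinuousLinearMap.opNorm_le_bound _ (by positivity) fun v => ?_
  by_cases hv : v = 0
  · subst hv; simp
  have hv0 : 0 < ‖v‖ := norm_pos_iff.2 hv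
  set g : ℂ → ℂ := fun t => f (q + t • v) - f q with hg
  have hlin : ∀ t : ℂ, HasDerivAt (fun t : ℂ => q + t • v) v t := by
    intro t
    have := ((hasDerivAt_id t).smul_const v).const_add q
    simpa using this
  have hgd : Differentiable ℂ g := by
    intro t
    exact ((hf _).comp t (hlin t).differentiableAt).sub_const _
  have hder : deriv g 0 = fderiv ℂ f q v := by
    have h1 : HasDerivAt g (fderiv ℂ f (q + (0 : ℂ) • v) v) 0 :=
      ((hf (q + (0 : ℂ) • v)).hasFDerivAt.comp_hasDerivAt (0 : ℂ) (hlin 0)).sub_const _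
    rw [h1.deriv, zero_smul, add_zero]
  have hbound := Complex.norm_deriv_le_of_forall_mem_sphere_norm_le (f := g) (c := 0)
    (R := r / ‖v‖) (C := A) (div_pos hr hv0) hgd.diffContOnCl (by
      intro z hz
      apply h
      rw [mem_sphere_zero_iff_norm] at hz
      rw [add_sub_cancel_left, norm_smul, hz]
      apply le_of_eq
      field_simp)
  rw [hder] at hbound
  refine hbound.trans (le_of_eq ?_)
  field_simp

theorem differentiable_Hf (c d η : ℂ) : Differentiable ℂ (Hf c d η) := by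
  unfold Hf
  fun_prop

/-- The setting: a bi-Lipschitz equivalence on a small ball. -/
structure Setting (H H' : ℂ × ℂ → ℂ) (φ ψ : ℂ × ℂ → ℂ × ℂ) (r L : ℝ) : Prop where
  hr : 0 < r
  hL : 1 ≤ L
  φ0 : φ 0 = 0
  ψ0 : ψ 0 = 0
  φL : ∀ p q, ‖p‖ < r → ‖q‖ < r → ‖φ p - φ q‖ ≤ L * ‖p - q‖
  ψL : ∀ p q, ‖p‖ < r → ‖q‖ < r → ‖ψ p - ψ q‖ ≤ L * ‖p - q‖
  inv : ∀ p, ‖p‖ < r → ψ (φ p) = p ∧ φ (ψ p) = p ∧ H p = H' (φ p)

theorem exists_setting {H H' : ℂ × ℂ → ℂ} (h : LipEquiv H H') :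
    ∃ φ ψ r L, Setting H H' φ ψ r L := by
  obtain ⟨φ, ψ, r, K, hr, hφ0, hψ0, hφ, hψ, hev⟩ := h
  obtain ⟨r', hr', hball⟩ := Metric.eventually_nhds_iff_ball.1 hev
  refine ⟨φ, ψ, min r r', max (K : ℝ) 1, lt_min hr hr', le_max_right _ _, hφ0, hψ0, ?_, ?_, ?_⟩
  · intro p q hp hq
    have h1 := hφ.dist_le_mul p (by simpa using lt_of_lt_of_le hp (min_le_left _ _)) q
      (by simpa using lt_of_lt_of_le hq (min_le_left _ _))
    rw [dist_eq_norm, dist_eq_norm] at h1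
    exact h1.trans (mul_le_mul_of_nonneg_right (le_max_left _ _) (norm_nonneg _))
  · intro p q hp hq
    have h1 := hψ.dist_le_mul p (by simpa using lt_of_lt_of_le hp (min_le_left _ _)) q
      (by simpa using lt_of_lt_of_le hq (min_le_left _ _))
    rw [dist_eq_norm, dist_eq_norm] at h1
    exact h1.trans (mul_le_mul_of_nonneg_right (le_max_left _ _) (norm_nonneg _))
  · intro p hp
    exact hball p (by simpa using lt_of_lt_of_le hp (min_le_right _ _))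

/-- One arc. -/
theorem one_arc (c d η c' d' η' : ℂ) (hc : c ≠ 0) (hc' : c' ≠ 0) (φ ψ : ℂ × ℂ → ℂ × ℂ) (r L : ℝ)
    (hS : Setting (Hf c d η) (Hf c' d' η') φ ψ r L) (σ : ℂ) (hσ : σ = 1 ∨ σ = -1) :
    ∃ C > 0, ∃ B > 0, ∀ X : ℝ, 0 < X → B * X < 1 → ∃ q : ℂ × ℂ, q.1 = X ∧ ‖q.2‖ ≤ C * X ^ 4 ∧
      ‖q‖ < r ∧ X ≤ L * ‖(φ q).1‖ ∧ ‖(φ q).1‖ ≤ L * X ∧ ∃ s : ℂ, (s = 1 ∨ s = -1) ∧
      ‖(X : ℂ) ^ 12 * Vv c d η σ X - (φ q).1 ^ 12 * Vv c' d' η' s (φ q).1‖ ≤ C * X ^ 15 := by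
  obtain ⟨C1, hC1, ρ1, hρ1, h1⟩ := low_osc c d η hc σ hσ
  obtain ⟨M, hM, ρ2, hρ2, h2⟩ := low_arc c' d' η' hc' (C1 * L ^ 12)
  have hr := hS.hr
  have hL := hS.hL
  have hL0 : 0 < L := by linarith
  refine ⟨C1 + M * L ^ 15, by positivity,
    1 / ρ1 + C1 + M * L + L + 2 * L / r + L / ρ2 + 1, by positivity, fun X hX hBX => ?_⟩
  have p1 : 0 < 1 / ρ1 * X := by positivity
  have p2 : 0 < C1 * X := by positivity
  have p3 : 0 < M * L * X := by positivity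
  have p4 : 0 < L * X := by positivity
  have p5 : 0 < 2 * L / r * X := by positivity
  have p6 : 0 < L / ρ2 * X := by positivity
  have hsum : 1 / ρ1 * X + C1 * X + M * L * X + L * X + 2 * L / r * X + L / ρ2 * X + X < 1 := by
    calc 1 / ρ1 * X + C1 * X + M * L * X + L * X + 2 * L / r * X + L / ρ2 * X + X
        = (1 / ρ1 + C1 + M * L + L + 2 * L / r + L / ρ2 + 1) * X := by ring
      _ < 1 := hBX
  have b1 : X < ρ1 := by
    have : 1 / ρ1 * X < 1 := by linarith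
    rwa [one_div, inv_mul_lt_iff₀ hρ1, mul_one] at this
  have b2 : C1 * X < 1 := by linarith
  have b3 : M * L * X < 1 := by linarith
  have b4 : L * X < 1 := by linarith
  have b5 : 2 * L * X < r := by
    have : 2 * L / r * X < 1 := by linarith
    rwa [div_mul_eq_mul_div, div_lt_one hr] at this
  have b6 : L * X < ρ2 := by
    have : L / ρ2 * X < 1 := by linarith
    rwa [div_mul_eq_mul_div, div_lt_one hρ2] at this
  have b7 : X < 1 := by linarith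
  have hXL : X ≤ L * X := le_mul_of_one_le_left hX.le hL
  obtain ⟨q, hq1, hq2, hq3, hq4⟩ := h1 X hX b1
  have hXn : ‖q.1‖ = X := by rw [hq1, Complex.norm_real, Real.norm_of_nonneg hX.le]
  have hq2X : ‖q.2‖ ≤ X := by
    refine hq2.trans ?_
    have e : C1 * X ^ 4 = (C1 * X) * X ^ 3 := by ring
    rw [e]
    have h3 : X ^ 3 ≤ X := by
      have := pow_le_pow_of_le_one hX.le b7.le (show 1 ≤ 3 by norm_num)
      simpa using this
    calc (C1 * X) * X ^ 3 ≤ 1 * X := by gcongr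
      _ = X := one_mul X
  have hqn : ‖q‖ = X := by
    rw [Prod.norm_def, hXn]
    exact max_eq_left hq2X
  have hqr : ‖q‖ < r := by rw [hqn]; linarith
  -- the image
  have hφq : ‖φ q‖ ≤ L * X := by
    have h3 := hS.φL q 0 hqr (by simpa using hr)
    rw [hS.φ0, sub_zero, sub_zero, hqn] at h3
    exact h3
  have hφqr : ‖φ q‖ < r := by linarith
  obtain ⟨i1, i2, i3⟩ := hS.inv q hqr
  have hψq : X ≤ L * ‖φ q‖ := by
    have h3 := hS.ψL (φ q) 0 hφqr (by simpa using hr)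
    rw [hS.ψ0, sub_zero, sub_zero, i1, hqn] at h3
    exact h3
  have hX7 : X ^ 7 ≤ X := by
    have := pow_le_pow_of_le_one hX.le b7.le (show 1 ≤ 7 by norm_num)
    simpa using this
  -- the gradient
  have hgrad : ‖fderiv ℂ (Hf c' d' η') (φ q)‖ ≤ C1 * L ^ 12 * ‖φ q‖ ^ 11 := by
    have h3 : ‖fderiv ℂ (Hf c' d' η') (φ q)‖ ≤ (C1 * X ^ 18) / (X ^ 7 / L) := by
      refine cauchy_grad _ (differentiable_Hf c' d' η') (φ q) (X ^ 7 / L) (C1 * X ^ 18)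
        (by positivity) fun p hp => ?_
      have hp1 : L * ‖p - φ q‖ ≤ X ^ 7 := by
        rw [le_div_iff₀ hL0] at hp
        linarith
      have hp2 : ‖p - φ q‖ ≤ X := by
        have h4 : ‖p - φ q‖ ≤ L * ‖p - φ q‖ := le_mul_of_one_le_left (norm_nonneg _) hL
        linarith
      have hpr : ‖p‖ < r := by
        have h4 : ‖p‖ ≤ ‖p - φ q‖ + ‖φ q‖ := by
          calc ‖p‖ = ‖(p - φ q) + φ q‖ := by rw [sub_add_cancel]
            _ ≤ _ := norm_add_le _ _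
        linarith
      have hψp : ‖ψ p - q‖ ≤ X ^ 7 := by
        have h4 := hS.ψL p (φ q) hpr hφqr
        rw [i1] at h4
        linarith
      have hψpr : ‖ψ p‖ < r := by
        have h4 : ‖ψ p‖ ≤ ‖ψ p - q‖ + ‖q‖ := by
          calc ‖ψ p‖ = ‖(ψ p - q) + q‖ := by rw [sub_add_cancel]
            _ ≤ _ := norm_add_le _ _
        rw [hqn] at h4
        linarith
      have h5 := hq4 (ψ p) hψp
      rw [(hS.inv (ψ p) hψpr).2.2, (hS.inv p hpr).2.1, i3] at h5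
      exact h5
    refine h3.trans ?_
    have h4 : (C1 * X ^ 18) / (X ^ 7 / L) = C1 * L * X ^ 11 := by
      field_simp
    rw [h4]
    calc C1 * L * X ^ 11 ≤ C1 * L * (L * ‖φ q‖) ^ 11 := by gcongr
      _ = C1 * L ^ 12 * ‖φ q‖ ^ 11 := by ring
  have hφpos : 0 < ‖φ q‖ := by
    rcases (norm_nonneg (φ q)).lt_or_eq with h3 | h3
    · exact h3
    · rw [← h3, mul_zero] at hψq
      linarith
  obtain ⟨g1, s, hs, g2⟩ := h2 (φ q) hφpos (lt_of_le_of_lt hφq b6) hgrad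
  have hfst : ‖(φ q).1‖ ≤ L * X := (norm_fst_le (φ q)).trans hφq
  have hsnd : ‖(φ q).2‖ ≤ ‖(φ q).1‖ := by
    refine g1.trans ?_
    have h3 : ‖(φ q).1‖ ^ 3 ≤ ‖(φ q).1‖ := by
      have := pow_le_pow_of_le_one (norm_nonneg (φ q).1) (hfst.trans b4.le)
        (show 1 ≤ 3 by norm_num)
      simpa using this
    calc M * ‖(φ q).1‖ ^ 4 = (M * ‖(φ q).1‖ ^ 3) * ‖(φ q).1‖ := by ring
      _ ≤ (M * ‖(φ q).1‖) * ‖(φ q).1‖ := by gcongr
      _ ≤ (M * (L * X)) * ‖(φ q).1‖ := by gcongr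
      _ ≤ 1 * ‖(φ q).1‖ := by
          gcongr
          linarith
      _ = ‖(φ q).1‖ := one_mul _
  have hnorm : ‖φ q‖ = ‖(φ q).1‖ := by
    rw [Prod.norm_def]
    exact max_eq_left hsnd
  refine ⟨q, hq1, ?_, hqr, ?_, hfst, s, hs, ?_⟩
  · refine hq2.trans ?_
    have : 0 ≤ M * L ^ 15 * X ^ 4 := by positivity
    linarith
  · rw [← hnorm]; exact hψq
  · have e : (X : ℂ) ^ 12 * Vv c d η σ X - (φ q).1 ^ 12 * Vv c' d' η' s (φ q).1 =
        -(Hf c d η q - (X : ℂ) ^ 12 * Vv c d η σ X) +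
          (Hf c' d' η' (φ q) - (φ q).1 ^ 12 * Vv c' d' η' s (φ q).1) := by
      rw [i3]; ring
    rw [e]
    refine (norm_add_le _ _).trans ?_
    rw [norm_neg]
    have h4 : M * ‖(φ q).1‖ ^ 15 ≤ M * (L * X) ^ 15 := by gcongr
    calc ‖Hf c d η q - (X : ℂ) ^ 12 * Vv c d η σ X‖ +
          ‖Hf c' d' η' (φ q) - (φ q).1 ^ 12 * Vv c' d' η' s (φ q).1‖
        ≤ C1 * X ^ 15 + M * (L * X) ^ 15 := add_le_add hq3 (g2.trans h4)
      _ = (C1 + M * L ^ 15) * X ^ 15 := by ring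

theorem norm_pow_sub_le (n : ℕ) (z w : ℂ) (B : ℝ) (hz : ‖z‖ ≤ B) (hw : ‖w‖ ≤ B) :
    ‖z ^ (n + 1) - w ^ (n + 1)‖ ≤ (n + 1) * B ^ n * ‖z - w‖ := by
  have hB : 0 ≤ B := (norm_nonneg z).trans hz
  induction n with
  | zero => simp
  | succ n ih =>
    have e : z ^ (n + 1 + 1) - w ^ (n + 1 + 1) =
        z * (z ^ (n + 1) - w ^ (n + 1)) + w ^ (n + 1) * (z - w) := by ring
    rw [e]
    refine (norm_add_le _ _).trans ?_
    rw [norm_mul, norm_mul, norm_pow]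
    have h1 : ‖z‖ * ‖z ^ (n + 1) - w ^ (n + 1)‖ ≤ B * ((n + 1) * B ^ n * ‖z - w‖) := by
      gcongr
    have h2 : ‖w‖ ^ (n + 1) * ‖z - w‖ ≤ B ^ (n + 1) * ‖z - w‖ := by gcongr
    calc ‖z‖ * ‖z ^ (n + 1) - w ^ (n + 1)‖ + ‖w‖ ^ (n + 1) * ‖z - w‖
        ≤ B * ((n + 1) * B ^ n * ‖z - w‖) + B ^ (n + 1) * ‖z - w‖ := add_le_add h1 h2
      _ = (((n + 1 : ℕ) : ℝ) + 1) * B ^ (n + 1) * ‖z - w‖ := by push_cast; ring

/-- Continuity of `z ^ 12 * Vv z`. -/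
theorem Vv_lip (c d η : ℂ) : ∃ A > 0, ∀ (s z w : ℂ) (B : ℝ), (s = 1 ∨ s = -1) → ‖z‖ ≤ B →
    ‖w‖ ≤ B → B ≤ 1 → ‖z ^ 12 * Vv c d η s z - w ^ 12 * Vv c d η s w‖ ≤ A * B ^ 11 * ‖z - w‖ := by
  set a : ℂ → ℂ := fun s => -(1 + 2 * s * c ^ 3) with ha
  set b : ℂ → ℂ := fun s => s * c * d with hb
  set e : ℂ → ℂ := fun s => η * (12 * c ^ 4 + 6 * s * c) - s * d ^ 2 / (12 * c) with he
  have key : ∀ s : ℂ, ∃ A > 0, ∀ (z w : ℂ) (B : ℝ), ‖z‖ ≤ B → ‖w‖ ≤ B → B ≤ 1 →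
      ‖z ^ 12 * Vv c d η s z - w ^ 12 * Vv c d η s w‖ ≤ A * B ^ 11 * ‖z - w‖ := by
    intro s
    refine ⟨12 * ‖a s‖ + 13 * ‖b s‖ + 14 * ‖e s‖ + 1, by positivity, ?_⟩
    intro z w B hz hw hB1
    have hB : 0 ≤ B := (norm_nonneg z).trans hz
    have h1 := norm_pow_sub_le 11 z w B hz hw
    have h2 := norm_pow_sub_le 12 z w B hz hw
    have h3 := norm_pow_sub_le 13 z w B hz hw
    have hid : z ^ 12 * Vv c d η s z - w ^ 12 * Vv c d η s w =
        a s * (z ^ (11 + 1) - w ^ (11 + 1)) + b s * (z ^ (12 + 1) - w ^ (12 + 1)) +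
          e s * (z ^ (13 + 1) - w ^ (13 + 1)) := by
      simp only [ha, hb, he, Vv]
      ring
    rw [hid]
    clear hid
    generalize a s = u1
    generalize b s = u2
    generalize e s = u3
    have h12 : B ^ 12 ≤ B ^ 11 := pow_le_pow_of_le_one hB hB1 (by norm_num)
    have h13 : B ^ 13 ≤ B ^ 11 := pow_le_pow_of_le_one hB hB1 (by norm_num)
    have k2 : ‖z ^ (12 + 1) - w ^ (12 + 1)‖ ≤ 13 * B ^ 11 * ‖z - w‖ := by
      refine h2.trans ?_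
      push_cast
      norm_num
      gcongr
    have k3 : ‖z ^ (13 + 1) - w ^ (13 + 1)‖ ≤ 14 * B ^ 11 * ‖z - w‖ := by
      refine h3.trans ?_
      push_cast
      norm_num
      gcongr
    have k1 : ‖z ^ (11 + 1) - w ^ (11 + 1)‖ ≤ 12 * B ^ 11 * ‖z - w‖ := by
      refine h1.trans ?_
      push_cast
      norm_num
    refine ((norm_add_le _ _).trans (add_le_add_left (norm_add_le _ _) _)).trans ?_
    rw [norm_mul, norm_mul, norm_mul]
    calc ‖u1‖ * ‖z ^ (11 + 1) - w ^ (11 + 1)‖ + ‖u2‖ * ‖z ^ (12 + 1) - w ^ (12 + 1)‖ +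
          ‖u3‖ * ‖z ^ (13 + 1) - w ^ (13 + 1)‖
        ≤ ‖u1‖ * (12 * B ^ 11 * ‖z - w‖) + ‖u2‖ * (13 * B ^ 11 * ‖z - w‖) +
          ‖u3‖ * (14 * B ^ 11 * ‖z - w‖) := by gcongr
      _ = (12 * ‖u1‖ + 13 * ‖u2‖ + 14 * ‖u3‖) * B ^ 11 * ‖z - w‖ := by ring
      _ ≤ (12 * ‖u1‖ + 13 * ‖u2‖ + 14 * ‖u3‖ + 1) * B ^ 11 * ‖z - w‖ := by
          exact mul_le_mul_of_nonneg_right (mul_le_mul_of_nonneg_right (by linarith)
            (by positivity)) (norm_nonneg _)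
  obtain ⟨A1, hA1, k1⟩ := key 1
  obtain ⟨A2, hA2, k2⟩ := key (-1)
  refine ⟨max A1 A2, lt_max_of_lt_left hA1, ?_⟩
  intro s z w B hs hz hw hB1
  have hB : 0 ≤ B := (norm_nonneg z).trans hz
  rcases hs with rfl | rfl
  · refine (k1 z w B hz hw hB1).trans ?_
    gcongr
    exact le_max_left _ _
  · refine (k2 z w B hz hw hB1).trans ?_
    gcongr
    exact le_max_right _ _

/-- The two critical values are different. -/
theorem Vv_sep (c d η : ℂ) (hc : c ≠ 0) (C : ℝ) : ∃ B > 0, ∀ X : ℝ, 0 < X → B * X < 1 →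
    ¬ (‖(X : ℂ) ^ 12 * Vv c d η 1 X - (X : ℂ) ^ 12 * Vv c d η (-1) X‖ ≤ C * X ^ 15) := by
  set a := ‖4 * c ^ 3‖ with ha
  have ha0 : 0 < a := norm_pos_iff.2 (mul_ne_zero (by norm_num) (pow_ne_zero 3 hc))
  set b := ‖2 * c * d‖ with hb
  set e := ‖12 * η * c - d ^ 2 / (6 * c)‖ with he
  have hb0 : 0 ≤ b := norm_nonneg _
  have he0 : 0 ≤ e := norm_nonneg _
  refine ⟨(|C| + b + e) / a + 1, by positivity, fun X hX hBX hcon => ?_⟩
  have hX1 : X < 1 := by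
    have : 0 ≤ (|C| + b + e) / a * X := by positivity
    nlinarith
  have hsmall : (|C| + b + e) * X < a := by
    have h1 : (|C| + b + e) / a * X < 1 := by nlinarith
    rwa [div_mul_eq_mul_div, div_lt_one ha0] at h1
  have hXn : ‖(X : ℂ)‖ = X := by rw [Complex.norm_real, Real.norm_of_nonneg hX.le]
  have h1 : (X : ℂ) ^ 12 * Vv c d η 1 X - (X : ℂ) ^ 12 * Vv c d η (-1) X =
      (X : ℂ) ^ 12 * (-(4 * c ^ 3) + 2 * c * d * X + (12 * η * c - d ^ 2 / (6 * c)) * X ^ 2) := by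
    unfold Vv
    field_simp
    ring
  rw [h1, norm_mul, norm_pow, hXn] at hcon
  have h2 : ‖-(4 * c ^ 3) + 2 * c * d * X + (12 * η * c - d ^ 2 / (6 * c)) * X ^ 2‖ ≤
      C * X ^ 3 := by
    have h3 : X ^ 12 * ‖-(4 * c ^ 3) + 2 * c * d * X + (12 * η * c - d ^ 2 / (6 * c)) * X ^ 2‖ ≤
        X ^ 12 * (C * X ^ 3) := by
      calc _ ≤ C * X ^ 15 := hcon
        _ = X ^ 12 * (C * X ^ 3) := by ring
    exact le_of_mul_le_mul_left h3 (by positivity)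
  have h4 : a ≤ C * X ^ 3 + b * X + e * X ^ 2 := by
    have h5 : 4 * c ^ 3 = -(-(4 * c ^ 3) + 2 * c * d * X +
        (12 * η * c - d ^ 2 / (6 * c)) * X ^ 2) + 2 * c * d * X +
        (12 * η * c - d ^ 2 / (6 * c)) * X ^ 2 := by ring
    calc a = ‖-(-(4 * c ^ 3) + 2 * c * d * X +
        (12 * η * c - d ^ 2 / (6 * c)) * X ^ 2) + 2 * c * d * X +
        (12 * η * c - d ^ 2 / (6 * c)) * X ^ 2‖ := by rw [← h5]
      _ ≤ ‖-(-(4 * c ^ 3) + 2 * c * d * X + (12 * η * c - d ^ 2 / (6 * c)) * X ^ 2)‖ +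
          ‖2 * c * d * X‖ + ‖(12 * η * c - d ^ 2 / (6 * c)) * X ^ 2‖ := norm_add₃_le
      _ ≤ C * X ^ 3 + b * X + e * X ^ 2 := by
        rw [norm_neg, norm_mul (2 * c * d), norm_mul (12 * η * c - d ^ 2 / (6 * c)), norm_pow, hXn]
        gcongr
  have h6 : C * X ^ 3 ≤ |C| * X := by
    have h7 : X ^ 3 ≤ X := by
      have := pow_le_pow_of_le_one hX.le hX1.le (show 1 ≤ 3 by norm_num)
      simpa using this
    calc C * X ^ 3 ≤ |C| * X ^ 3 := by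
          gcongr
          exact le_abs_self C
      _ ≤ |C| * X := by gcongr
  have h8 : e * X ^ 2 ≤ e * X := by
    have h7 : X ^ 2 ≤ X := by nlinarith
    gcongr
  linarith

theorem low_trans (c d η c' d' η' : ℂ) (hc : c ≠ 0) (hc' : c' ≠ 0)
    (h : LipEquiv (Hf c d η) (Hf c' d' η')) : ArcRel c d η c' d' η' := by
  obtain ⟨φ, ψ, r, L, hS⟩ := exists_setting h
  have hL := hS.hL
  have hL0 : 0 < L := by linarith
  obtain ⟨C1, hC1, B1, hB1, k1⟩ := one_arc c d η c' d' η' hc hc' φ ψ r L hS 1 (Or.inl rfl)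
  obtain ⟨C2, hC2, B2, hB2, k2⟩ := one_arc c d η c' d' η' hc hc' φ ψ r L hS (-1) (Or.inr rfl)
  obtain ⟨A, hA, kA⟩ := Vv_lip c' d' η'
  set D := C1 + A * L ^ 12 * (C1 + C2) with hD
  have hD0 : 0 < D := by positivity
  obtain ⟨B3, hB3, k3⟩ := Vv_sep c d η hc (D + C2)
  set C := L + D + C2 with hCdef
  refine ⟨C, by positivity, 1 / (B1 + B2 + B3 + L), by positivity, fun X hX hXρ => ?_⟩
  have hBX : (B1 + B2 + B3 + L) * X < 1 := by
    have h0 : 0 < B1 + B2 + B3 + L := by positivity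
    rw [lt_div_iff₀ h0] at hXρ
    linarith
  have q1 : 0 < B1 * X := by positivity
  have q2 : 0 < B2 * X := by positivity
  have q3 : 0 < B3 * X := by positivity
  have q4 : 0 < L * X := by positivity
  have hsum : B1 * X + B2 * X + B3 * X + L * X < 1 := by
    calc B1 * X + B2 * X + B3 * X + L * X = (B1 + B2 + B3 + L) * X := by ring
      _ < 1 := hBX
  obtain ⟨p, p1, p2, p3, p4, p5, s, hs, p6⟩ := k1 X hX (by linarith)
  obtain ⟨q, r1, r2, r3, r4, r5, t, ht, r6⟩ := k2 X hX (by linarith)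
  -- distance of the two images
  have hdist : ‖(φ p).1 - (φ q).1‖ ≤ L * ((C1 + C2) * X ^ 4) := by
    have h1 : ‖(φ p).1 - (φ q).1‖ ≤ ‖φ p - φ q‖ := by
      rw [← Prod.fst_sub]
      exact norm_fst_le _
    have h2 : ‖p - q‖ ≤ (C1 + C2) * X ^ 4 := by
      rw [Prod.norm_def, Prod.fst_sub, Prod.snd_sub, p1, r1, sub_self, norm_zero]
      apply max_le (by positivity)
      calc ‖p.2 - q.2‖ ≤ ‖p.2‖ + ‖q.2‖ := norm_sub_le _ _
        _ ≤ C1 * X ^ 4 + C2 * X ^ 4 := add_le_add p2 r2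
        _ = (C1 + C2) * X ^ 4 := by ring
    calc ‖(φ p).1 - (φ q).1‖ ≤ ‖φ p - φ q‖ := h1
      _ ≤ L * ‖p - q‖ := hS.φL p q p3 r3
      _ ≤ L * ((C1 + C2) * X ^ 4) := by gcongr
  -- transfer to the point of `q`
  have hp : ‖(X : ℂ) ^ 12 * Vv c d η 1 X - (φ q).1 ^ 12 * Vv c' d' η' s (φ q).1‖ ≤
      D * X ^ 15 := by
    have h1 := kA s (φ p).1 (φ q).1 (L * X) hs p5 r5 (by linarith)
    have e : (X : ℂ) ^ 12 * Vv c d η 1 X - (φ q).1 ^ 12 * Vv c' d' η' s (φ q).1 =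
        ((X : ℂ) ^ 12 * Vv c d η 1 X - (φ p).1 ^ 12 * Vv c' d' η' s (φ p).1) +
        ((φ p).1 ^ 12 * Vv c' d' η' s (φ p).1 - (φ q).1 ^ 12 * Vv c' d' η' s (φ q).1) := by
      ring
    rw [e]
    refine (norm_add_le _ _).trans ?_
    calc ‖(X : ℂ) ^ 12 * Vv c d η 1 X - (φ p).1 ^ 12 * Vv c' d' η' s (φ p).1‖ +
          ‖(φ p).1 ^ 12 * Vv c' d' η' s (φ p).1 - (φ q).1 ^ 12 * Vv c' d' η' s (φ q).1‖
        ≤ C1 * X ^ 15 + A * (L * X) ^ 11 * (L * ((C1 + C2) * X ^ 4)) := by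
          refine add_le_add p6 (h1.trans ?_)
          gcongr
      _ = D * X ^ 15 := by rw [hD]; ring
  -- the signs are different
  have hst : s ≠ t := by
    rintro rfl
    apply k3 X hX (by linarith)
    have e : (X : ℂ) ^ 12 * Vv c d η 1 X - (X : ℂ) ^ 12 * Vv c d η (-1) X =
        ((X : ℂ) ^ 12 * Vv c d η 1 X - (φ q).1 ^ 12 * Vv c' d' η' s (φ q).1) -
        ((X : ℂ) ^ 12 * Vv c d η (-1) X - (φ q).1 ^ 12 * Vv c' d' η' s (φ q).1) := by ring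
    rw [e]
    refine (norm_sub_le _ _).trans ?_
    calc _ ≤ D * X ^ 15 + C2 * X ^ 15 := add_le_add hp r6
      _ = (D + C2) * X ^ 15 := by ring
  have hts : t = -s := by
    rcases hs with rfl | rfl <;> rcases ht with rfl | rfl
    · exact absurd rfl hst
    · rfl
    · rw [neg_neg]
    · exact absurd rfl hst
  refine ⟨(φ q).1, s, hs, ?_, ?_, ?_⟩
  · refine r4.trans ?_
    have : L ≤ C := by rw [hCdef]; linarith
    gcongr
  · refine r5.trans ?_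
    have : L ≤ C := by rw [hCdef]; linarith
    gcongr
  · rintro σ (rfl | rfl)
    · rw [mul_one]
      refine hp.trans ?_
      have : D ≤ C := by rw [hCdef]; linarith
      gcongr
    · rw [mul_neg, mul_one, ← hts]
      refine r6.trans ?_
      have : C2 ≤ C := by rw [hCdef]; linarith
      gcongr

end H37.LM
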