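import Pool.Agent.H37.LM.LowEval
import Pool.Agent.H37.LM.LowTrans
import Pool.Agent.H37.LM.LowAlg
import Pool.Agent.H37.LM.LowSector

/-!
# The members of the family are pairwise inequivalent   [H37 LM LowIneq]

Let `(ε, s, δ)`, `(ε', s', δ')` be in the narrow sectors (`nar_cone`), with equivalent germs.  Choose
`a ^ 2 = s / 3`, `a' ^ 2 = s' / 3`, `r ^ 2 = ε`, `r' ^ 2 = ε'` in `Cone (1 / 200)` (`cone_sqrt`); `c = I a`,
`c' = I a'`, `d = δ r`, `d' = δ' r'`.  `lip_change`, `LipEquiv.symm`, `LipEquiv.trans`, `low_trans`: `ArcRel`.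
* `alg0`: `a ^ 3 = ± a' ^ 3`, so `(a / a') ^ 12 = 1`; `a / a' ∈ Cone (1 / 20)` (`cone_mul`, `cone_inv`, monotonicity
  in `t`), so `a = a'` (`root_one`), `s = s'`.
* `alg1`: `d = ω d'`, `ω ^ 12 = 1`, `ω = (δ / δ') (r / r') ∈ Cone (1 / 20)`: `ω = 1`, `d = d'`.
* `alg2`: `4 c ^ 6 ≠ 1` as `‖c‖ ^ 2 = ‖s‖ / 3 < 1 / 300`; so `ε⁻¹ = ε'⁻¹`, `ε = ε'`; then `r = ± r'`, and
  `r = r'` since both have positive real part; `δ = d / r = δ'`.
-/

noncomputable section

open Set Filter Topology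

namespace H37.LM

theorem li_mono {t t' : ℝ} (h : t ≤ t') {z : ℂ} (hz : Cone t z) : Cone t' z := by
  obtain ⟨h1, h2⟩ := hz
  exact ⟨h1, h2.trans (mul_le_mul_of_nonneg_right h h1.le)⟩

theorem li_ne {t : ℝ} {z : ℂ} (hz : Cone t z) : z ≠ 0 := by
  rintro rfl
  have := hz.1
  simp at this

theorem li_third {t : ℝ} {z : ℂ} (hz : Cone t z) : Cone t (z / 3) := by
  obtain ⟨h1, h2⟩ := hz
  have e1 : (z / 3).re = z.re / 3 := by
    have : (z / 3) = z / ((3 : ℝ) : ℂ) := by norm_num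
    rw [this, Complex.div_ofReal_re]
  have e2 : (z / 3).im = z.im / 3 := by
    have : (z / 3) = z / ((3 : ℝ) : ℂ) := by norm_num
    rw [this, Complex.div_ofReal_im]
  refine ⟨?_, ?_⟩
  · rw [e1]
    positivity
  · rw [e1, e2, abs_div, abs_of_pos (by norm_num : (0 : ℝ) < 3)]
    linarith

theorem li_div {t t' u : ℝ} (h0 : 0 ≤ t) (h0' : 0 ≤ t') (h : t * t' < 1)
    (hu : (t + t') / (1 - t * t') ≤ u) {z z' : ℂ}
    (hz : Cone t z) (hz' : Cone t' z') : Cone u (z / z') := by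
  rw [div_eq_mul_inv]
  exact li_mono hu (cone_mul t t' h0 h0' h z z'⁻¹ hz (cone_inv t' z' hz'))

theorem famS_ineq (k : ℕ) (hk : 7 ≤ k) : PairwiseInequiv (famS k) := by
  intro cc hcc cc' hcc' hne hLE
  obtain ⟨ε, s, δ, hε, hs, hδ, rfl⟩ := hcc
  obtain ⟨ε', s', δ', hε', hs', hδ', rfl⟩ := hcc'
  apply hne
  obtain ⟨kε, nε, -⟩ := nar_cone ε hε
  obtain ⟨ks, ns, bs⟩ := nar_cone s hs
  obtain ⟨kδ, nδ, -⟩ := nar_cone δ hδ
  obtain ⟨kε', nε', -⟩ := nar_cone ε' hε'
  obtain ⟨ks', ns', -⟩ := nar_cone s' hs'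
  obtain ⟨kδ', nδ', -⟩ := nar_cone δ' hδ'
  obtain ⟨a, ha, ka⟩ := cone_sqrt (1 / 100) (by norm_num) (s / 3) (li_third ks)
  obtain ⟨a', ha', ka'⟩ := cone_sqrt (1 / 100) (by norm_num) (s' / 3) (li_third ks')
  obtain ⟨r, hr, kr⟩ := cone_sqrt (1 / 100) (by norm_num) ε kε
  obtain ⟨r', hr', kr'⟩ := cone_sqrt (1 / 100) (by norm_num) ε' kε'
  have na := li_ne ka
  have na' := li_ne ka'
  have nr := li_ne kr
  have nr' := li_ne kr'
  have I2 : Complex.I ^ 2 = -1 := Complex.I_sq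
  have hcs : s = -3 * (Complex.I * a) ^ 2 := by
    rw [mul_pow, I2, ha]
    ring
  have hcs' : s' = -3 * (Complex.I * a') ^ 2 := by
    rw [mul_pow, I2, ha']
    ring
  have nc : Complex.I * a ≠ 0 := mul_ne_zero Complex.I_ne_zero na
  have nc' : Complex.I * a' ≠ 0 := mul_ne_zero Complex.I_ne_zero na'
  have e1 := lip_change k hk ε s δ r (Complex.I * a) hr nε hcs
  have e2 := lip_change k hk ε' s' δ' r' (Complex.I * a') hr' nε' hcs'
  have h1 : LipEquiv (Hf (Complex.I * a) (δ * r) ε⁻¹) (Hf (Complex.I * a') (δ' * r') ε'⁻¹) :=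
    (e1.symm.trans hLE).trans e2
  have hA := low_trans _ _ _ _ _ _ nc nc' h1
  -- first step
  have haa : a = a' := by
    have h3 := alg0 _ _ _ _ _ _ hA
    have h4 : ((Complex.I * a) ^ 3) ^ 4 = ((Complex.I * a') ^ 3) ^ 4 := by
      rcases h3 with h | h
      · rw [h]
      · rw [h]
        ring
    have h5 : a ^ 12 = a' ^ 12 := by
      have hI : Complex.I ^ 12 ≠ 0 := pow_ne_zero _ Complex.I_ne_zero
      apply mul_left_cancel₀ hI
      linear_combination h4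
    have h6 : (a / a') ^ 12 = 1 := by
      rw [div_pow, h5, div_self (pow_ne_zero _ na')]
    have h7 : Cone (1 / 20) (a / a') :=
      li_div (by norm_num) (by norm_num) (by norm_num) (by norm_num) ka ka'
    exact (div_eq_one_iff_eq na').1 (root_one _ h6 h7)
  subst haa
  have hss : s = s' := by rw [hcs, hcs']
  subst hss
  -- second step
  obtain ⟨ω, hω, hd⟩ := alg1 _ _ _ _ _ nc hA
  have hdd : δ * r = δ' * r' := by
    have h2 : ω = (δ / δ') * (r / r') := by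
      field_simp
      rw [hd]
      ring
    have k1 : Cone (1 / 49) (δ / δ') :=
      li_div (by norm_num) (by norm_num) (by norm_num) (by norm_num) kδ kδ'
    have k2 : Cone (1 / 99) (r / r') :=
      li_div (by norm_num) (by norm_num) (by norm_num) (by norm_num) kr kr'
    have k3 : Cone (1 / 20) ω := by
      rw [h2]
      exact li_mono (by norm_num) (cone_mul (1 / 49) (1 / 99) (by norm_num) (by norm_num)
        (by norm_num) _ _ k1 k2)
    rw [hd, root_one ω hω k3, one_mul]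
  rw [← hdd] at hA
  -- third step
  have hc1 : 4 * (Complex.I * a) ^ 6 ≠ 1 := by
    intro h
    have h2 : (Complex.I * a) ^ 6 = -(s / 3) ^ 3 := by
      rw [← ha]
      linear_combination (a ^ 6 * (Complex.I ^ 4 - Complex.I ^ 2 + 1)) * I2
    rw [h2] at h
    have h3 : ‖(4 : ℂ) * -(s / 3) ^ 3‖ = 1 := by
      rw [h, norm_one]
    rw [norm_mul, norm_neg, norm_pow, norm_div] at h3
    have h4 : ‖(4 : ℂ)‖ = 4 := by norm_num
    have h5 : ‖(3 : ℂ)‖ = 3 := by norm_num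
    rw [h4, h5] at h3
    have h6 : ‖s‖ / 3 ≤ 1 / 3 := by linarith
    have h7 : (‖s‖ / 3) ^ 3 ≤ (1 / 3) ^ 3 := pow_le_pow_left₀ (by positivity) h6 3
    norm_num at h7 h3
    linarith
  have hη := alg2 _ _ _ _ nc hc1 (mul_ne_zero nδ nr) hA
  have hee : ε = ε' := inv_injective hη
  subst hee
  have hrr : r = r' := by
    have h2 : r ^ 2 = r' ^ 2 := by rw [hr, hr']
    rcases sq_eq_sq_iff_eq_or_eq_neg.1 h2 with h | h
    · exact h
    · exfalso
      have h3 := kr.1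
      have h4 := kr'.1
      rw [h, Complex.neg_re] at h3
      linarith
  rw [← hrr] at hdd
  have hδδ : δ = δ' := mul_right_cancel₀ nr hdd
  rw [hδδ]

end H37.LM
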