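import Pool.Agent.H37.LM.LowDef

/-!
# The family is semialgebraic   [H37 LM LowSemi]

`c ∈ famS k` iff, with `ε := - c_{41} / 3`, `s := c_{24}`, `δ := c_{34}` (`c_{ij} = c ⟨(i, j), _⟩`),
`Nar ε`, `Nar s`, `Nar δ`, and `c q = famC ε s δ q.1.1 q.1.2` for all `q : Idx k`.
All these conditions are polynomial equations or strict inequalities in the real coordinates
`realCoord c (q, false) = re (c q)`, `realCoord c (q, true) = im (c q)`:
* `100 * |im| < re` is `0 < re - 100 im` and `0 < re + 100 im`.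
* The real and imaginary parts of `famC ε s δ i j` are real polynomials in the real and imaginary
  parts of `c_{41}, c_{24}, c_{34}`.
Closure properties of `IsSemialgebraic` to prove first: intersections (`compl` of union of `compl`),
finite intersections, `univ`, sets `{P = 0}` (complement of `{P > 0} ∪ {- P > 0}`).  It is convenient to
prove: if `f g : Jet k → ℂ` are such that `re f`, `im f`, `re g`, `im g` are given by polynomials
(`MvPolynomial (Idx k × Bool) ℝ`), then so are `f + g`, `f * g`, and constants and coordinates.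
-/

noncomputable section

open Set Filter Topology

namespace H37.LM

/-- Real functions on jets given by polynomials in the real coordinates. -/
def lsR {k : ℕ} (f : Jet k → ℝ) : Prop :=
  ∃ P : MvPolynomial (Idx k × Bool) ℝ, ∀ c, MvPolynomial.eval (realCoord c) P = f c

/-- Complex functions on jets whose real and imaginary parts are polynomials. -/
def lsC {k : ℕ} (f : Jet k → ℂ) : Prop :=
  lsR (fun c => (f c).re) ∧ lsR (fun c => (f c).im)

theorem lsR_const {k : ℕ} (a : ℝ) : lsR (fun _ : Jet k => a) :=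
  ⟨MvPolynomial.C a, fun c => by simp⟩

theorem lsR_add {k : ℕ} {f g : Jet k → ℝ} (hf : lsR f) (hg : lsR g) :
    lsR (fun c => f c + g c) := by
  obtain ⟨P, hP⟩ := hf
  obtain ⟨Q, hQ⟩ := hg
  exact ⟨P + Q, fun c => by rw [map_add, hP, hQ]⟩

theorem lsR_mul {k : ℕ} {f g : Jet k → ℝ} (hf : lsR f) (hg : lsR g) :
    lsR (fun c => f c * g c) := by
  obtain ⟨P, hP⟩ := hf
  obtain ⟨Q, hQ⟩ := hg
  exact ⟨P * Q, fun c => by rw [map_mul, hP, hQ]⟩

theorem lsR_neg {k : ℕ} {f : Jet k → ℝ} (hf : lsR f) : lsR (fun c => -f c) := by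
  obtain ⟨P, hP⟩ := hf
  exact ⟨-P, fun c => by rw [map_neg, hP]⟩

theorem lsR_sub {k : ℕ} {f g : Jet k → ℝ} (hf : lsR f) (hg : lsR g) :
    lsR (fun c => f c - g c) := by
  obtain ⟨P, hP⟩ := hf
  obtain ⟨Q, hQ⟩ := hg
  exact ⟨P - Q, fun c => by rw [map_sub, hP, hQ]⟩

theorem lsC_const {k : ℕ} (a : ℂ) : lsC (fun _ : Jet k => a) := ⟨lsR_const _, lsR_const _⟩

theorem lsC_coord {k : ℕ} (q : Idx k) : lsC (fun c : Jet k => c q) :=
  ⟨⟨MvPolynomial.X (q, false), fun c => by simp [realCoord]⟩,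
    ⟨MvPolynomial.X (q, true), fun c => by simp [realCoord]⟩⟩

theorem lsC_mul {k : ℕ} {f g : Jet k → ℂ} (hf : lsC f) (hg : lsC g) :
    lsC (fun c => f c * g c) := by
  refine ⟨?_, ?_⟩
  · simp only [Complex.mul_re]
    exact lsR_sub (lsR_mul hf.1 hg.1) (lsR_mul hf.2 hg.2)
  · simp only [Complex.mul_im]
    exact lsR_add (lsR_mul hf.1 hg.2) (lsR_mul hf.2 hg.1)

theorem lsC_neg {k : ℕ} {f : Jet k → ℂ} (hf : lsC f) : lsC (fun c => -f c) := by
  refine ⟨?_, ?_⟩
  · simp only [Complex.neg_re]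
    exact lsR_neg hf.1
  · simp only [Complex.neg_im]
    exact lsR_neg hf.2

theorem lsC_sub {k : ℕ} {f g : Jet k → ℂ} (hf : lsC f) (hg : lsC g) :
    lsC (fun c => f c - g c) := by
  refine ⟨?_, ?_⟩
  · simp only [Complex.sub_re]
    exact lsR_sub hf.1 hg.1
  · simp only [Complex.sub_im]
    exact lsR_sub hf.2 hg.2

theorem ls_pos {k : ℕ} {f : Jet k → ℝ} (hf : lsR f) : IsSemialgebraic {c : Jet k | 0 < f c} := by
  obtain ⟨P, hP⟩ := hf
  have h := IsSemialgebraic.pos (k := k) P
  simp only [hP] at h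
  exact h

theorem ls_inter {k : ℕ} {S T : Set (Jet k)} (hS : IsSemialgebraic S) (hT : IsSemialgebraic T) :
    IsSemialgebraic (S ∩ T) := by
  have h := (hS.compl.union hT.compl).compl
  rw [compl_union, compl_compl, compl_compl] at h
  exact h

theorem ls_zero {k : ℕ} {f : Jet k → ℝ} (hf : lsR f) : IsSemialgebraic {c : Jet k | f c = 0} := by
  have h := ((ls_pos hf).union (ls_pos (lsR_neg hf))).compl
  convert h using 1
  ext c
  simp only [mem_setOf_eq, mem_compl_iff, mem_union, not_or, not_lt]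
  constructor
  · intro h0
    rw [h0]
    simp
  · rintro ⟨h1, h2⟩
    linarith

theorem ls_univ {k : ℕ} : IsSemialgebraic (univ : Set (Jet k)) := by
  have h := ls_pos (k := k) (lsR_const (1 : ℝ))
  convert h using 1
  ext c
  simp

theorem ls_eq {k : ℕ} {f g : Jet k → ℂ} (hf : lsC f) (hg : lsC g) :
    IsSemialgebraic {c : Jet k | f c = g c} := by
  have h := ls_inter (ls_zero (lsC_sub hf hg).1) (ls_zero (lsC_sub hf hg).2)
  convert h using 1
  ext c
  simp only [mem_setOf_eq, mem_inter_iff, Complex.sub_re, Complex.sub_im, sub_eq_zero]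
  exact Complex.ext_iff

theorem ls_iInter {k : ℕ} {ι : Type*} (t : Finset ι) (S : ι → Set (Jet k))
    (hS : ∀ i ∈ t, IsSemialgebraic (S i)) : IsSemialgebraic {c : Jet k | ∀ i ∈ t, c ∈ S i} := by
  classical
  induction t using Finset.induction_on with
  | empty =>
    convert ls_univ (k := k) using 1
    ext c
    simp
  | insert a t ha ih =>
    have h := ls_inter (hS a (Finset.mem_insert_self a t))
      (ih fun i hi => hS i (Finset.mem_insert_of_mem hi))
    convert h using 1
    ext c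
    simp

theorem ls_nar {k : ℕ} {f : Jet k → ℂ} (hf : lsC f) : IsSemialgebraic {c : Jet k | Nar (f c)} := by
  have h1 := ls_pos (lsR_sub hf.1 (lsR_mul (lsR_const (100 : ℝ)) hf.2))
  have h2 := ls_pos (lsR_add hf.1 (lsR_mul (lsR_const (100 : ℝ)) hf.2))
  have h3 := ls_pos (lsR_sub (lsR_const (1 / 10000 : ℝ))
    (lsR_add (lsR_mul hf.1 hf.1) (lsR_mul hf.2 hf.2)))
  have h := ls_inter (ls_inter h1 h2) h3
  convert h using 1
  ext c
  simp only [mem_setOf_eq, mem_inter_iff, Nar]
  constructor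
  · rintro ⟨a1, a2⟩
    have a3 := le_abs_self (f c).im
    have a4 := neg_abs_le (f c).im
    refine ⟨⟨by linarith, by linarith⟩, by nlinarith⟩
  · rintro ⟨⟨a1, a2⟩, a3⟩
    refine ⟨?_, by nlinarith⟩
    rcases abs_cases (f c).im with ⟨a4, -⟩ | ⟨a4, -⟩
    · rw [a4]
      linarith
    · rw [a4]
      linarith

theorem ls_famC {k : ℕ} {ε s δ : Jet k → ℂ} (hε : lsC ε) (hs : lsC s) (hδ : lsC δ) (i j : ℕ) :
    lsC (fun c => famC (ε c) (s c) (δ c) i j) := by
  unfold famC
  split_ifs
  · exact lsC_const 1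
  · exact lsC_mul (lsC_const (-3)) hε
  · have h := lsC_mul (lsC_const 3) (lsC_mul hε hε)
    simpa only [← pow_two] using h
  · have h := lsC_neg (lsC_mul hε (lsC_mul hε hε))
    convert h using 2
    ring
  · exact hs
  · exact lsC_neg (lsC_mul hs hε)
  · exact hδ
  · exact lsC_neg (lsC_mul hδ hε)
  · exact lsC_const (-1)
  · exact lsC_const 0

theorem famS_semi (k : ℕ) (hk : 7 ≤ k) : IsSemialgebraic (famS k) := by
  set q1 : Idx k := ⟨(⟨4, by omega⟩, ⟨1, by omega⟩), by
    constructor <;> simp only <;> omega⟩ with hq1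
  set q2 : Idx k := ⟨(⟨2, by omega⟩, ⟨4, by omega⟩), by
    constructor <;> simp only <;> omega⟩ with hq2
  set q3 : Idx k := ⟨(⟨3, by omega⟩, ⟨4, by omega⟩), by
    constructor <;> simp only <;> omega⟩ with hq3
  have h1 : lsC (fun c : Jet k => (-1 / 3 : ℂ) * c q1) := lsC_mul (lsC_const _) (lsC_coord q1)
  have h2 : lsC (fun c : Jet k => c q2) := lsC_coord q2
  have h3 : lsC (fun c : Jet k => c q3) := lsC_coord q3
  have hN := ls_inter (ls_inter (ls_nar h1) (ls_nar h2)) (ls_nar h3)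
  have hE := ls_iInter (Finset.univ : Finset (Idx k))
    (fun q => {c : Jet k | c q = famC ((-1 / 3 : ℂ) * c q1) (c q2) (c q3) q.1.1 q.1.2})
    (fun q _ => ls_eq (lsC_coord q) (ls_famC h1 h2 h3 q.1.1 q.1.2))
  have h := ls_inter hN hE
  convert h using 1
  ext c
  simp only [mem_inter_iff, mem_setOf_eq, Finset.mem_univ, true_implies]
  constructor
  · rintro ⟨ε, s, δ, hε, hs, hδ, rfl⟩
    have e1 : (-1 / 3 : ℂ) * famJ k ε s δ q1 = ε := by
      simp only [famJ, famC, hq1]
      norm_num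
      ring
    have e2 : famJ k ε s δ q2 = s := by
      simp only [famJ, famC, hq2]
      norm_num
    have e3 : famJ k ε s δ q3 = δ := by
      simp only [famJ, famC, hq3]
      norm_num
    rw [e1, e2, e3]
    exact ⟨⟨⟨hε, hs⟩, hδ⟩, fun q => rfl⟩
  · rintro ⟨⟨⟨a1, a2⟩, a3⟩, a4⟩
    exact ⟨_, _, _, a1, a2, a3, funext a4⟩

end H37.LM
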