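import Pool.Agent.H37.LM.Upper
import Pool.Agent.H37.LM.LowIneq
import Pool.Agent.H37.LM.LowSemi
import Pool.Agent.H37.LM.LowDim
import Pool.Agent.H37.LM.FG

/-!
# Bounds for the Lipschitz modality
-/

noncomputable section

open Set Filter Topology
open scoped ContDiff

namespace H37.LM

theorem modSet_bddAbove (k : ℕ) (c : Jet k) : BddAbove (modSet k c) := by
  refine ⟨Module.finrank ℝ (Jet k), ?_⟩
  rintro m ⟨S, -, -, hS⟩
  obtain ⟨σ, -, -, hinj, -⟩ := hS univ Filter.univ_mem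
  have h0 : (0 : Fin m → ℝ) ∈ Metric.ball (0 : Fin m → ℝ) 1 := by simp
  have h1 := LinearMap.finrank_le_finrank_of_injective
    (f := ((fderiv ℝ σ 0 : (Fin m → ℝ) →L[ℝ] Jet k) : (Fin m → ℝ) →ₗ[ℝ] Jet k)) (hinj 0 h0)
  simpa using h1

theorem lmod_f (k : ℕ) (hk : 7 ≤ k) : 3 ≤ Lmod k (fJet k) := by
  have h1 : 6 ∈ modSet k (fJet k) := ⟨famS k, famS_semi k hk, famS_ineq k hk, famS_dim k hk⟩
  have h2 : 6 ≤ sSup (modSet k (fJet k)) := le_csSup (modSet_bddAbove k _) h1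
  unfold Lmod
  omega

theorem lmod_g (k : ℕ) (hk : 6 ≤ k) : Lmod k (gJet k) ≤ 2 := by
  have h2 : sSup (modSet k (gJet k)) ≤ 4 := by
    refine csSup_le' ?_
    rintro m ⟨S, -, hS, hdim⟩
    by_contra hlt
    obtain ⟨U, hU, hup⟩ := upper k hk
    obtain ⟨σ, hσ, hinj, -, hmem⟩ := hdim U hU
    obtain ⟨s0, hs0, s1, hs1, hne, hlip⟩ := hup m (by omega) σ hσ fun s hs => (hmem s hs).2
    exact hS (σ s0) (hmem s0 hs0).1 (σ s1) (hmem s1 hs1).1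
      (fun h => hne (hinj hs1 hs0 h.symm)) hlip
  unfold Lmod
  omega

theorem evalJet_fJet (k : ℕ) (hk : 7 ≤ k) (p : ℂ × ℂ) :
    evalJet (fJet k) p = p.1 ^ 6 - p.2 ^ 6 := by
  unfold fJet
  rw [evalJet_famJ k hk]
  ring

theorem sum_single (k a b : ℕ) (ha : a < k + 1) (hb : b < k + 1) (v : ℂ) :
    (∑ i ∈ Finset.range (k + 1), ∑ j ∈ Finset.range (k + 1),
      if i = a then (if j = b then v else 0) else 0) = v := by
  rw [Finset.sum_eq_single a, Finset.sum_eq_single b]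
  · simp
  · intro j _ hj; simp [hj]
  · intro h; exact absurd (Finset.mem_range.2 hb) h
  · intro i _ hi; simp [hi]
  · intro h; exact absurd (Finset.mem_range.2 ha) h

theorem evalJet_gJet (k : ℕ) (hk : 6 ≤ k) (p : ℂ × ℂ) :
    evalJet (gJet k) p = p.1 ^ 6 + p.1 * p.2 ^ 5 := by
  have h1 : ∀ i j, coef (gJet k) i j * p.1 ^ i * p.2 ^ j =
      (if i = 6 then (if j = 0 then p.1 ^ 6 else 0) else 0) +
      (if i = 1 then (if j = 5 then p.1 * p.2 ^ 5 else 0) else 0) := by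
    intro i j
    rw [coef_gJet k hk]
    unfold gS
    by_cases a1 : i = 6
    · subst a1
      by_cases a2 : j = 0
      · subst a2; simp
      · simp [a2]
    · by_cases a3 : i = 1
      · subst a3
        by_cases a4 : j = 5
        · subst a4; simp
        · simp [a4]
      · simp [a1, a3]
  unfold evalJet ev
  simp only [h1, Finset.sum_add_distrib]
  rw [sum_single k 6 0 (by omega) (by omega), sum_single k 1 5 (by omega) (by omega)]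

/-- `x ^ 6 - y ^ 6` has an isolated singularity. -/
theorem isolated_f (p : ℂ × ℂ) (h : fderiv ℂ (fun p : ℂ × ℂ => p.1 ^ 6 - p.2 ^ 6) p = 0) :
    p = 0 := by
  have h1 : HasFDerivAt (𝕜 := ℂ) (fun p : ℂ × ℂ => p.1 ^ 6 - p.2 ^ 6)
      ((6 * p.1 ^ 5) • ContinuousLinearMap.fst ℂ ℂ ℂ -
        (6 * p.2 ^ 5) • ContinuousLinearMap.snd ℂ ℂ ℂ) p := by
    have a1 : HasFDerivAt (𝕜 := ℂ) (fun p : ℂ × ℂ => p.1 ^ 6)
        ((((6 : ℕ) : ℂ) * p.1 ^ (6 - 1)) • ContinuousLinearMap.fst ℂ ℂ ℂ) p :=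
      (hasDerivAt_pow 6 p.1).comp_hasFDerivAt p hasFDerivAt_fst
    have a2 : HasFDerivAt (𝕜 := ℂ) (fun p : ℂ × ℂ => p.2 ^ 6)
        ((((6 : ℕ) : ℂ) * p.2 ^ (6 - 1)) • ContinuousLinearMap.snd ℂ ℂ ℂ) p :=
      (hasDerivAt_pow 6 p.2).comp_hasFDerivAt p hasFDerivAt_snd
    exact a1.sub a2
  rw [h1.fderiv] at h
  have hx := congrArg (fun L : ℂ × ℂ →L[ℂ] ℂ => L (1, 0)) h
  have hy := congrArg (fun L : ℂ × ℂ →L[ℂ] ℂ => L (0, 1)) h
  simp at hx hy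
  exact Prod.ext hx hy

/-- `x ^ 6 + x y ^ 5` has an isolated singularity. -/
theorem isolated_g (p : ℂ × ℂ) (h : fderiv ℂ (fun p : ℂ × ℂ => p.1 ^ 6 + p.1 * p.2 ^ 5) p = 0) :
    p = 0 := by
  have h1 : HasFDerivAt (𝕜 := ℂ) (fun p : ℂ × ℂ => p.1 ^ 6 + p.1 * p.2 ^ 5)
      ((((6 : ℕ) : ℂ) * p.1 ^ (6 - 1)) • ContinuousLinearMap.fst ℂ ℂ ℂ +
        (p.1 • ((((5 : ℕ) : ℂ) * p.2 ^ (5 - 1)) • ContinuousLinearMap.snd ℂ ℂ ℂ) +
          p.2 ^ 5 • ContinuousLinearMap.fst ℂ ℂ ℂ)) p := by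
    have a1 : HasFDerivAt (𝕜 := ℂ) (fun p : ℂ × ℂ => p.1 ^ 6)
        ((((6 : ℕ) : ℂ) * p.1 ^ (6 - 1)) • ContinuousLinearMap.fst ℂ ℂ ℂ) p :=
      (hasDerivAt_pow 6 p.1).comp_hasFDerivAt p hasFDerivAt_fst
    have a2 : HasFDerivAt (𝕜 := ℂ) (fun p : ℂ × ℂ => p.2 ^ 5)
        ((((5 : ℕ) : ℂ) * p.2 ^ (5 - 1)) • ContinuousLinearMap.snd ℂ ℂ ℂ) p :=
      (hasDerivAt_pow 5 p.2).comp_hasFDerivAt p hasFDerivAt_snd
    exact a1.add (hasFDerivAt_fst.mul a2)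
  rw [h1.fderiv] at h
  have hx := congrArg (fun L : ℂ × ℂ →L[ℂ] ℂ => L (1, 0)) h
  have hy := congrArg (fun L : ℂ × ℂ →L[ℂ] ℂ => L (0, 1)) h
  simp at hx hy
  rcases hy with hy | hy
  · rw [hy] at hx
    simp at hx
    exact Prod.ext hy hx
  · rw [hy] at hx
    simp at hx
    exact Prod.ext hx hy

end H37.LM
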