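import Pool.Agent.H37.LM.Wei

/-!
# Normal forms   [H37 LM NF]

Put `w' = X - C c` (so `Wh w' = 1`, and `Wh (C a) = 0`, `Wh` is a derivation).

* `nf_lin`: `lin_div` twice: `f = C v + w' * q`, `Wh f = q + w' * Wh q`, so `w' ∣ q`.
* `nf_quad`: `quad_div`: `f = C f0 + C f1 * w' + P * G`, `G = C g0 + C g1 * w' + P * H`,
  `P = w' ^ 2 - C κ`.  Then `Wh f = C f1 + 2 w' G + P * Wh G`, which is congruent mod `P` to
  `C (f1 + 2 κ g1) + C (2 g0) * w'` (`w' ^ 2 ≡ C κ`).  By `quad_zero`, `f1 = - 2 κ g1` and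
  `2 g0 = 0`, so `g0 = 0`.  Finally `- 2 κ g1 w' + P g1 w' = g1 (w' ^ 3 - 3 κ w')`.
* `prep_lin`, `prep_quad`: `wei_prep` for `Wh f`, with `n = 1` resp. `n = 2` (`cf_Wh`; the
  characteristic is `0`); a distinguished polynomial of degree `1` is `X - C c` with
  `constantCoeff c = 0`; one of degree `2` is `X ^ 2 + C p1 * X + C p0 = (X - C c) ^ 2 - C κ`,
  `c = - p1 / 2`, `κ = p1 ^ 2 / 4 - p0`.
* `nf_g1`: compare the coefficients of `x ^ 0 * w ^ 3` (`cf · 0 3`); modulo `x` (apply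
  `PowerSeries.map constantCoeff`) the equation is `f = f0(0) + g1(0) X ^ 3 + X ^ 4 * H(0, X)`.
  It also gives `constantCoeff f0 = 0`.
-/

noncomputable section

open PowerSeries

namespace H37.LM

variable {F : Type*} [Field F] [CharZero F]

omit [CharZero F] in
theorem nf_Wh_add (f g : F⟦X⟧⟦X⟧) : Wh (f + g) = Wh f + Wh g := map_add _ _ _

omit [CharZero F] in
theorem nf_Wh_sub (f g : F⟦X⟧⟦X⟧) : Wh (f - g) = Wh f - Wh g := map_sub _ _ _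

theorem nf_leib {R : Type*} [CommRing R] (f g : R⟦X⟧) :
    PowerSeries.derivative R (f * g) =
      f * PowerSeries.derivative R g + g * PowerSeries.derivative R f := by
  rw [Derivation.leibniz, smul_eq_mul, smul_eq_mul]

omit [CharZero F] in
theorem nf_Wh_mul (f g : F⟦X⟧⟦X⟧) : Wh (f * g) = f * Wh g + g * Wh f := nf_leib f g

omit [CharZero F] in
theorem nf_Wh_C (a : F⟦X⟧) : Wh (C a) = 0 := by
  unfold Wh
  exact derivative_C

omit [CharZero F] in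
theorem nf_Wh_X : Wh (X : F⟦X⟧⟦X⟧) = 1 := by
  unfold Wh
  exact derivative_X

omit [CharZero F] in
theorem nf_Wh_w (c : F⟦X⟧) : Wh (X - C c : F⟦X⟧⟦X⟧) = 1 := by
  rw [nf_Wh_sub, nf_Wh_X, nf_Wh_C, sub_zero]

omit [CharZero F] in
theorem nf_Wh_P (c κ : F⟦X⟧) : Wh ((X - C c) ^ 2 - C κ : F⟦X⟧⟦X⟧) = 2 * (X - C c) := by
  rw [nf_Wh_sub, nf_Wh_C, pow_two, nf_Wh_mul, nf_Wh_w]
  ring

theorem nf_lin (f : F⟦X⟧⟦X⟧) (c : F⟦X⟧) (hc : constantCoeff c = 0) (h : (X - C c) ∣ Wh f) :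
    ∃ (v : F⟦X⟧) (H : F⟦X⟧⟦X⟧), f = C v + (X - C c) ^ 2 * H := by
  obtain ⟨q, v, hf⟩ := lin_div c hc f
  have h1 : Wh f = (X - C c) * Wh q + q := by
    rw [hf, nf_Wh_add, nf_Wh_C, nf_Wh_mul, nf_Wh_w]
    ring
  rw [h1] at h
  obtain ⟨H, hH⟩ := (dvd_add_right (dvd_mul_right _ _)).1 h
  exact ⟨v, H, by rw [hf, hH]; ring⟩

theorem nf_quad (f : F⟦X⟧⟦X⟧) (c κ : F⟦X⟧) (hc : constantCoeff c = 0) (hκ : constantCoeff κ = 0)
    (h : ((X - C c) ^ 2 - C κ) ∣ Wh f) :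
    ∃ (f0 g1 : F⟦X⟧) (H : F⟦X⟧⟦X⟧),
      f = C f0 + C g1 * ((X - C c) ^ 3 - 3 * C κ * (X - C c)) +
        ((X - C c) ^ 2 - C κ) ^ 2 * H := by
  obtain ⟨G, f0, f1, hf⟩ := quad_div c κ hc hκ f
  obtain ⟨H, g0, g1, hG⟩ := quad_div c κ hc hκ G
  have h1 : Wh f = C f1 + 2 * (X - C c) * G + ((X - C c) ^ 2 - C κ) * Wh G := by
    conv_lhs => rw [hf]
    rw [nf_Wh_add, nf_Wh_add, nf_Wh_C, nf_Wh_mul, nf_Wh_mul, nf_Wh_C, nf_Wh_w, nf_Wh_P]
    ring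
  have h2 : Wh f = C (f1 + 2 * κ * g1) + C (2 * g0) * (X - C c) +
      ((X - C c) ^ 2 - C κ) * (Wh G + 2 * C g1 + 2 * (X - C c) * H) := by
    rw [h1]
    generalize Wh G = W
    rw [hG]
    simp only [map_add, map_mul, map_ofNat]
    ring
  rw [h2] at h
  obtain ⟨q, hq⟩ := (dvd_add_left (dvd_mul_right _ _)).1 h
  obtain ⟨h3, h4⟩ := quad_zero c κ hc hκ q _ _ hq
  have h5 : g0 = 0 := by
    have h6 : (C (2 : F) : F⟦X⟧) ≠ 0 := by
      rw [Ne, map_eq_zero_iff _ C_injective]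
      exact two_ne_zero
    rw [map_ofNat] at h6
    exact (mul_eq_zero.1 h4).resolve_left h6
  have h7 : f1 = -(2 * κ * g1) := by linear_combination h3
  refine ⟨f0, g1, H, ?_⟩
  rw [hf, hG, h5, h7]
  simp only [map_neg, map_mul, map_ofNat, map_zero]
  ring

theorem prep_lin (f : F⟦X⟧⟦X⟧) (h0 : ∀ j < 2, cf f 0 j = 0) (h2 : cf f 0 2 ≠ 0) :
    ∃ (c : F⟦X⟧) (u : F⟦X⟧⟦X⟧), constantCoeff c = 0 ∧ IsUnit u ∧ Wh f = (X - C c) * u := by
  obtain ⟨P, u, hP, hd, hu, he⟩ := wei_prep (Wh f) 1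
    (fun j hj => by
      rw [cf_Wh, h0 (j + 1) (by omega), mul_zero])
    (by
      rw [cf_Wh]
      refine mul_ne_zero ?_ h2
      norm_num)
  refine ⟨-(P.coeff 0), u, ?_, hu, ?_⟩
  · rw [map_neg, hP.2 0 (by omega), neg_zero]
  · rw [he]
    conv_lhs => rw [hP.1.eq_X_add_C hd]
    simp only [Polynomial.coe_add, Polynomial.coe_X, Polynomial.coe_C, map_neg]
    ring

theorem prep_quad (f : F⟦X⟧⟦X⟧) (h0 : ∀ j < 3, cf f 0 j = 0) (h3 : cf f 0 3 ≠ 0) :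
    ∃ (c κ : F⟦X⟧) (u : F⟦X⟧⟦X⟧), constantCoeff c = 0 ∧ constantCoeff κ = 0 ∧ IsUnit u ∧
      Wh f = ((X - C c) ^ 2 - C κ) * u := by
  obtain ⟨P, u, hP, hd, hu, he⟩ := wei_prep (Wh f) 2
    (fun j hj => by
      rw [cf_Wh, h0 (j + 1) (by omega), mul_zero])
    (by
      rw [cf_Wh]
      refine mul_ne_zero ?_ h3
      norm_num)
  have hdeg : P.degree ≤ 2 := by
    rw [Polynomial.degree_eq_natDegree hP.1.ne_zero, hd]
    exact le_refl _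
  have hc2 : P.coeff 2 = 1 := by
    have := hP.1.coeff_natDegree
    rwa [hd] at this
  have hPe := Polynomial.eq_quadratic_of_degree_le_two hdeg
  rw [hc2] at hPe
  have hh : (2 : F⟦X⟧) * C (2⁻¹ : F) = 1 := by
    have h1 : (2 : F⟦X⟧) = C (2 : F) := (map_ofNat _ 2).symm
    rw [h1, ← map_mul, mul_inv_cancel₀ two_ne_zero, map_one]
  refine ⟨-(C (2⁻¹ : F) * P.coeff 1), (C (2⁻¹ : F) * P.coeff 1) ^ 2 - P.coeff 0, u, ?_, ?_, hu, ?_⟩
  · rw [map_neg, map_mul, hP.2 1 (by omega), mul_zero, neg_zero]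
  · rw [map_sub, map_pow, map_mul, hP.2 1 (by omega), hP.2 0 (by omega)]
    simp
  · rw [he]
    congr 1
    conv_lhs => rw [hPe]
    simp only [Polynomial.coe_add, Polynomial.coe_mul, Polynomial.coe_pow, Polynomial.coe_X,
      Polynomial.coe_C]
    generalize P.coeff 0 = p0
    generalize P.coeff 1 = p1
    have hh2 : (2 : F⟦X⟧⟦X⟧) * C (C (2⁻¹ : F)) = 1 := by
      have h1 : (2 : F⟦X⟧⟦X⟧) = C (2 : F⟦X⟧) := (map_ofNat _ 2).symm
      rw [h1, ← map_mul, hh, map_one]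
    simp only [map_neg, map_sub, map_mul, map_pow, map_one]
    linear_combination (-(C p1 * X)) * hh2

theorem nf_g1 (f : F⟦X⟧⟦X⟧) (h0 : ∀ j < 3, cf f 0 j = 0) (h3 : cf f 0 3 ≠ 0) (c κ : F⟦X⟧)
    (hc : constantCoeff c = 0) (hκ : constantCoeff κ = 0) (f0 g1 : F⟦X⟧) (H : F⟦X⟧⟦X⟧)
    (h : f = C f0 + C g1 * ((X - C c) ^ 3 - 3 * C κ * (X - C c)) +
        ((X - C c) ^ 2 - C κ) ^ 2 * H) :
    constantCoeff g1 ≠ 0 ∧ constantCoeff f0 = 0 := by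
  have hcf : ∀ j, cf f 0 j = coeff j (f.map (constantCoeff : F⟦X⟧ →+* F)) := by
    intro j
    rw [coeff_map]
    unfold cf
    rw [coeff_zero_eq_constantCoeff_apply]
  have hm : f.map (constantCoeff : F⟦X⟧ →+* F) = C (constantCoeff f0) +
      C (constantCoeff g1) * X ^ 3 + X ^ 4 * H.map (constantCoeff : F⟦X⟧ →+* F) := by
    rw [h]
    simp only [map_add, map_mul, map_sub, map_pow, PowerSeries.map_C, PowerSeries.map_X, hc, hκ,
      map_zero, map_ofNat]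
    ring
  have e0 := hcf 0
  have e3 := hcf 3
  rw [h0 0 (by norm_num), hm, map_add, map_add, coeff_C_mul, coeff_X_pow, coeff_X_pow_mul',
    coeff_zero_C] at e0
  rw [hm, map_add, map_add, coeff_C_mul, coeff_X_pow, coeff_X_pow_mul', coeff_C] at e3
  norm_num at e0 e3
  refine ⟨?_, e0.symm⟩
  rw [← e3]
  exact h3

end H37.LM
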