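import Pool.Agent.H37.LM.Alg0

/-!
# Near the germ `g = x ^ 6 + x y ^ 5`: definitions

* `shr l a` : coefficients of `h (x + l y, y)`.
* `gS` : coefficients of `g`.
* `ContactP P c` : contact of `P` (outer variable `y`, inner variable `x`) with the curve `y = c (x)`.
* `fA, fB, fC` : three functionals vanishing on the cube of the ideal
  `(κ0 x ^ 2 + κ1 x y - κ2 y, y ^ 2)` and on polynomials of degree `≤ 5`.
-/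

noncomputable section

open Polynomial

namespace H37.LM

/-- The coefficients of `h (x + l y, y)`. -/
def shr {R : Type*} [CommRing R] (l : R) (a : ℕ → ℕ → R) (i j : ℕ) : R :=
  ∑ n ∈ Finset.range (j + 1), a (i + n) (j - n) * ((i + n).choose i : R) * l ^ n

/-- The coefficients of `g = x ^ 6 + x y ^ 5`. -/
def gS (i j : ℕ) : ℂ := if (i = 6 ∧ j = 0) ∨ (i = 1 ∧ j = 5) then 1 else 0

/-- Contact with the curve `y = c (x)`. -/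
def ContactP {F : Type*} [Field F] (P : F[X][X]) (c : F[X]) : Prop :=
  X ^ 12 ∣ P.eval c ∧ X ^ 8 ∣ (derivative P).eval c ∧ X ^ 4 ∣ (derivative (derivative P)).eval c

/-- The linear functional with values `φ i j` on `x ^ i y ^ j` (outer variable `y`). -/
def Lf (φ : ℕ → ℕ → ℂ) (P : ℂ[X][X]) : ℂ :=
  P.sum fun j q => q.sum fun i c => φ i j * c

def fA (k0 k1 k2 : ℂ) (i j : ℕ) : ℂ :=
  if 6 ≤ i + j ∧ j ≤ 5 then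
    (-1) ^ i * ((5 - j).choose (i + j - 6) : ℂ) * k2 ^ (i + j - 6) * k1 ^ (11 - i - 2 * j) * k0 ^ j
  else 0

def fB0 (k0 k1 k2 : ℂ) (i j : ℕ) : ℂ :=
  if 5 ≤ i + j ∧ j ≤ 4 then
    (-1) ^ i * ((4 - j).choose (i + j - 5) : ℂ) * k2 ^ (i + j - 5) * k1 ^ (9 - i - 2 * j) * k0 ^ j
  else 0

def fB (k0 k1 k2 : ℂ) (i j : ℕ) : ℂ :=
  if 6 ≤ i + j ∧ j ≤ 4 then
    (-1) ^ i * ((4 - j).choose (i + j - 5) : ℂ) * ((i + j - 5 : ℕ) : ℂ) * k2 ^ (i + j - 6) *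
      k1 ^ (9 - i - 2 * j) * k0 ^ j
  else 0

def fC0 (k0 k1 k2 : ℂ) (i j : ℕ) : ℂ :=
  if 4 ≤ i + j ∧ j ≤ 3 then
    (-1) ^ i * ((3 - j).choose (i + j - 4) : ℂ) * k2 ^ (i + j - 4) * k1 ^ (7 - i - 2 * j) * k0 ^ j
  else 0

def fC1 (k0 k1 k2 : ℂ) (i j : ℕ) : ℂ :=
  if 5 ≤ i + j ∧ j ≤ 3 then
    (-1) ^ i * ((3 - j).choose (i + j - 4) : ℂ) * ((i + j - 4 : ℕ) : ℂ) * k2 ^ (i + j - 5) *
      k1 ^ (7 - i - 2 * j) * k0 ^ j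
  else 0

def fC (k0 k1 k2 : ℂ) (i j : ℕ) : ℂ :=
  if 6 ≤ i + j ∧ j ≤ 3 then
    (-1) ^ i * ((3 - j).choose (i + j - 4) : ℂ) * ((i + j - 4).choose 2 : ℂ) * k2 ^ (i + j - 6) *
      k1 ^ (7 - i - 2 * j) * k0 ^ j
  else 0

/-- `u = κ0 x ^ 2 + κ1 x y - κ2 y`. -/
def uP (k0 k1 k2 : ℂ) : ℂ[X][X] := C (C k0 * X ^ 2) + C (C k1 * X - C k2) * X

/-- The coefficients of `g (r X + s Y, t X + q Y)`: `X ^ 6`, `X ^ 5 Y`, ... -/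
def m6 (r _s t _q : ℂ) : ℂ := r ^ 6 + r * t ^ 5
def m5 (r s t q : ℂ) : ℂ := 6 * r ^ 5 * s + 5 * r * t ^ 4 * q + s * t ^ 5
def m4 (r s t q : ℂ) : ℂ := 15 * r ^ 4 * s ^ 2 + 10 * r * t ^ 3 * q ^ 2 + 5 * s * t ^ 4 * q
def m3 (r s t q : ℂ) : ℂ := 20 * r ^ 3 * s ^ 3 + 10 * r * t ^ 2 * q ^ 3 + 10 * s * t ^ 3 * q ^ 2
def m2 (r s t q : ℂ) : ℂ := 15 * r ^ 2 * s ^ 4 + 5 * r * t * q ^ 4 + 10 * s * t ^ 2 * q ^ 3
def m1 (r s t q : ℂ) : ℂ := 6 * r * s ^ 5 + r * q ^ 5 + 5 * s * t * q ^ 4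

end H37.LM
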