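import Mathlib

/-!
# A polynomial vanishing at the origin vanishes on the boundary of the bidisc   [H37 LM ZeroBdry]

Proof.  Suppose `P (x, y) ≠ 0` whenever `max ‖x‖ ‖y‖ = 1` (`P (x, y) = P.evalEval x y`).  Let
`E = {x | ‖x‖ ≤ 1 ∧ ∃ y, ‖y‖ ≤ 1 ∧ P (x, y) = 0}`.
* `0 ∈ E`; `E` is closed (projection of a compact set); points of `E` satisfy `‖x‖ < 1`.
* `E` is open: let `x0 ∈ E`, `P (x0, y0) = 0`, so `‖x0‖ < 1` and `‖y0‖ < 1`.  Let
  `μ = min_{‖y‖ = 1} ‖P (x0, y)‖ > 0`.  For `x` close to `x0`, `‖P (x, y) - P (x0, y)‖ < μ / 3` for all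
  `‖y‖ ≤ 1` (uniform continuity).  If `P (x, ·)` had no zero in the closed unit disc, then `1 / P (x, ·)` is
  holomorphic on a neighbourhood of it and the maximum principle gives
  `1 / ‖P (x, y0)‖ ≤ max_{‖y‖=1} 1 / ‖P (x, y)‖ ≤ 3 / (2 μ)`, but `‖P (x, y0)‖ < μ / 3`
  (`Complex.norm_le_of_forall_mem_frontier_norm_le`).
* `E` is a nonempty subset of `ℂ`, open and closed, bounded: contradiction (`IsClopen.eq_univ`).
-/

noncomputable section

open Polynomial

namespace H37.LM

private theorem zb_cont (P : ℂ[X][X]) : Continuous (fun p : ℂ × ℂ => P.evalEval p.1 p.2) := by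
  have h1 : ∀ p : ℂ × ℂ, P.evalEval p.1 p.2 =
      ∑ i ∈ Finset.range (P.natDegree + 1), (P.coeff i).eval p.1 * p.2 ^ i := by
    intro p
    rw [← map_evalRingHom_eval, eval_map, eval₂_eq_sum_range]
    simp
  simp only [h1]
  refine continuous_finsetSum _ (fun i _ => ?_)
  exact ((P.coeff i).continuous.comp continuous_fst).mul (continuous_snd.pow i)

private theorem zb_diff (P : ℂ[X][X]) (x : ℂ) : Differentiable ℂ (fun y => P.evalEval x y) := by
  have h1 : (fun y => P.evalEval x y) = fun y => (P.map (evalRingHom x)).eval y := by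
    funext y
    rw [map_evalRingHom_eval]
  rw [h1]
  exact (P.map (evalRingHom x)).differentiable

theorem zero_boundary (P : ℂ[X][X]) (h : P.evalEval 0 0 = 0) :
    ∃ x y : ℂ, max ‖x‖ ‖y‖ = 1 ∧ P.evalEval x y = 0 := by
  by_contra hcon
  push Not at hcon
  have hc := zb_cont P
  let E : Set ℂ := {x | ‖x‖ ≤ 1 ∧ ∃ y, ‖y‖ ≤ 1 ∧ P.evalEval x y = 0}
  have hclosed : IsClosed E := by
    have h1 : E = Prod.fst '' ((Metric.closedBall (0 : ℂ) 1 ×ˢ Metric.closedBall (0 : ℂ) 1) ∩
        {p : ℂ × ℂ | P.evalEval p.1 p.2 = 0}) := by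
      ext x
      constructor
      · rintro ⟨hx, y, hy, hxy⟩
        exact ⟨(x, y), ⟨⟨by simpa using hx, by simpa using hy⟩, hxy⟩, rfl⟩
      · rintro ⟨p, ⟨⟨hx, hy⟩, hp⟩, rfl⟩
        exact ⟨by simpa using hx, p.2, by simpa using hy, hp⟩
    rw [h1]
    apply IsCompact.isClosed
    apply IsCompact.image _ continuous_fst
    apply IsCompact.inter_right
    · exact (isCompact_closedBall _ _).prod (isCompact_closedBall _ _)
    · exact isClosed_eq hc continuous_const
  have hopen : IsOpen E := by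
    rw [isOpen_iff_mem_nhds]
    rintro x0 ⟨hx0, y0, hy0, h0⟩
    have hx0' : ‖x0‖ < 1 := by
      refine lt_of_le_of_ne hx0 (fun e => ?_)
      exact hcon x0 y0 (by rw [e, max_eq_left hy0]) h0
    have hcx : Continuous (fun y => P.evalEval x0 y) :=
      hc.comp (continuous_const.prodMk continuous_id)
    obtain ⟨y1, hy1, hmin⟩ := (isCompact_sphere (0 : ℂ) 1).exists_isMinOn
      (NormedSpace.sphere_nonempty.2 zero_le_one) hcx.norm.continuousOn
    set μ := ‖P.evalEval x0 y1‖ with hμ
    have hμ0 : 0 < μ := by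
      rw [hμ, norm_pos_iff]
      apply hcon x0 y1
      have : ‖y1‖ = 1 := by simpa using hy1
      rw [this, max_eq_right hx0]
    have hmin' : ∀ y : ℂ, ‖y‖ = 1 → μ ≤ ‖P.evalEval x0 y‖ := by
      intro y hy
      exact hmin (show y ∈ Metric.sphere (0 : ℂ) 1 by simpa using hy)
    have hev : ∀ᶠ x in nhds x0, ∀ y ∈ Metric.closedBall (0 : ℂ) 1,
        ‖P.evalEval x y - P.evalEval x0 y‖ < μ / 3 := by
      apply IsCompact.eventually_forall_of_forall_eventually (isCompact_closedBall _ _)
      intro y _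
      have hcc : Continuous (fun z : ℂ × ℂ => ‖P.evalEval z.1 z.2 - P.evalEval x0 z.2‖) :=
        (hc.sub (hcx.comp continuous_snd)).norm
      have h2 := hcc.tendsto (x0, y)
      simp only [sub_self, norm_zero] at h2
      exact h2.eventually (gt_mem_nhds (by positivity))
    have hev2 : ∀ᶠ x in nhds x0, ‖x‖ < 1 :=
      continuous_norm.tendsto x0 |>.eventually (gt_mem_nhds hx0')
    filter_upwards [hev, hev2] with x hx hx1
    refine ⟨hx1.le, ?_⟩
    by_contra hno
    push Not at hno
    have hne : ∀ y ∈ Metric.closedBall (0 : ℂ) 1, P.evalEval x y ≠ 0 := by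
      intro y hy
      exact hno y (by simpa using hy)
    have hcl : closure (Metric.ball (0 : ℂ) 1) = Metric.closedBall 0 1 :=
      closure_ball _ one_ne_zero
    have hd : DiffContOnCl ℂ (fun y => (P.evalEval x y)⁻¹) (Metric.ball 0 1) := by
      apply DifferentiableOn.diffContOnCl
      rw [hcl]
      intro y hy
      exact ((zb_diff P x y).inv (hne y hy)).differentiableWithinAt
    have hfr : ∀ z ∈ frontier (Metric.ball (0 : ℂ) 1), ‖(P.evalEval x z)⁻¹‖ ≤ 3 / (2 * μ) := by
      intro z hz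
      rw [frontier_ball _ one_ne_zero] at hz
      have hz1 : ‖z‖ = 1 := by simpa using hz
      have h3 := hmin' z hz1
      have h4 := hx z (by simp [hz1])
      have h5 : 2 * μ / 3 ≤ ‖P.evalEval x z‖ := by
        have h6 : ‖P.evalEval x0 z‖ ≤ ‖P.evalEval x z‖ + ‖P.evalEval x z - P.evalEval x0 z‖ := by
          have := norm_sub_norm_le (P.evalEval x0 z) (P.evalEval x z)
          rw [norm_sub_rev] at this
          linarith
        linarith
      rw [norm_inv, inv_le_comm₀ (by linarith) (by positivity), inv_div]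
      exact h5
    have h7 := Complex.norm_le_of_forall_mem_frontier_norm_le Metric.isBounded_ball hd hfr
      (show y0 ∈ closure (Metric.ball (0 : ℂ) 1) by rw [hcl]; simpa using hy0)
    have hy0b : y0 ∈ Metric.closedBall (0 : ℂ) 1 := by simpa using hy0
    have h8 := hx y0 hy0b
    rw [h0, sub_zero] at h8
    have h9 : 0 < ‖P.evalEval x y0‖ := norm_pos_iff.2 (hne y0 hy0b)
    rw [norm_inv, inv_le_comm₀ h9 (by positivity), inv_div] at h7
    linarith
  have hE : E = Set.univ := by
    apply IsClopen.eq_univ ⟨hclosed, hopen⟩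
    exact ⟨0, by simp, 0, by simp, h⟩
  have h2 : (2 : ℂ) ∈ E := by rw [hE]; trivial
  have h3 := h2.1
  norm_num at h3

end H37.LM
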