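import Pool.Agent.H37.LM.Shear
import Pool.Agent.H37.LM.ZeroBdry

/-!
# Condition (G3) near `g`   [H37 LM NearThree]

Proof.  `evX K gS = 6 x ^ 5 + y ^ 5`, `evY K gS = 5 x y ^ 4` vanish simultaneously only at the origin, so
`‖evX‖ + ‖evY‖ ≥ 2 η > 0` on the compact set `1 / 7 ≤ max ‖x‖ ‖y‖ ≤ 7`, and `≥ η` for `a` close to `gS`
(finitely many coefficients `i, j ≤ K`).  If `hxP K (shr lam a) = P * Q1`, `hyP K (shr lam a) = P * Q2` and
`P.evalEval 0 0 = 0`, take `(x, y)` from `zero_boundary`.  By `evalEval_hxP`, `evalEval_hyP`, `evX_shr`,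
`evY_shr` both partial derivatives `evX K a`, `evY K a` vanish at `(x + lam y, y)`, and
`1 / 7 ≤ max ‖x + lam y‖ ‖y‖ ≤ 7` because `max ‖x‖ ‖y‖ = 1`, `‖lam‖ ≤ 6`.
-/

noncomputable section

open Polynomial

namespace H37.LM

theorem nt_sum_gS (K : ℕ) (hK : 6 ≤ K) (f : ℕ → ℕ → ℂ) :
    ∑ i ∈ Finset.range (K + 1), ∑ j ∈ Finset.range (K + 1), gS i j * f i j = f 6 0 + f 1 5 := by
  have h : ∀ i j, gS i j * f i j = (if i = 6 then (if j = 0 then f i j else 0) else 0) +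
      (if i = 1 then (if j = 5 then f i j else 0) else 0) := by
    intro i j
    unfold gS
    by_cases h1 : i = 6
    · subst h1
      by_cases h2 : j = 0
      · subst h2; simp
      · simp [h2]
    · by_cases h3 : i = 1
      · subst h3
        by_cases h2 : j = 5
        · subst h2; simp
        · simp [h2]
      · simp [h1, h3]
  simp only [h, Finset.sum_add_distrib]
  congr 1
  · rw [Finset.sum_eq_single 6]
    · rw [Finset.sum_eq_single 0]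
      · simp
      · intro j _ hj; simp [hj]
      · intro hj; exact absurd (Finset.mem_range.2 (by omega)) hj
    · intro i _ hi; simp [hi]
    · intro hi; exact absurd (Finset.mem_range.2 (by omega)) hi
  · rw [Finset.sum_eq_single 1]
    · rw [Finset.sum_eq_single 5]
      · simp
      · intro j _ hj; simp [hj]
      · intro hj; exact absurd (Finset.mem_range.2 (by omega)) hj
    · intro i _ hi; simp [hi]
    · intro hi; exact absurd (Finset.mem_range.2 (by omega)) hi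

/-- small perturbations of the coefficients change such sums by a small amount -/
theorem nt_close (K : ℕ) (hK : 6 ≤ K) (a : ℕ → ℕ → ℂ) (f : ℕ → ℕ → ℂ) (δ B : ℝ) (hδ : 0 ≤ δ)
    (ha : ∀ i j, ‖a i j - gS i j‖ ≤ δ) (hf : ∀ i j, i ≤ K → j ≤ K → ‖f i j‖ ≤ B) :
    ‖∑ i ∈ Finset.range (K + 1), ∑ j ∈ Finset.range (K + 1), a i j * f i j -
      (f 6 0 + f 1 5)‖ ≤ (K + 1) * ((K + 1) * (δ * B)) := by
  rw [← nt_sum_gS K hK f, ← Finset.sum_sub_distrib]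
  refine (norm_sum_le_of_le (n := fun _ => (K + 1) * (δ * B)) _ ?_).trans ?_
  · intro i hi
    rw [← Finset.sum_sub_distrib]
    refine (norm_sum_le_of_le (n := fun _ => δ * B) _ ?_).trans ?_
    · intro j hj
      rw [← sub_mul, norm_mul]
      exact mul_le_mul (ha i j) (hf i j (by simpa [Nat.lt_succ_iff] using hi)
        (by simpa [Nat.lt_succ_iff] using hj)) (norm_nonneg _) hδ
    · simp
  · simp

theorem near_g3 (K : ℕ) (hK : 6 ≤ K) : ∃ δ > 0, ∀ a : ℕ → ℕ → ℂ,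
    (∀ i j, K < i + j → a i j = 0) → (∀ i j, ‖a i j - gS i j‖ < δ) → ∀ lam : ℂ, ‖lam‖ ≤ 6 →
    ∀ P Q1 Q2 : ℂ[X][X], hxP K (shr lam a) = P * Q1 → hyP K (shr lam a) = P * Q2 →
      P.evalEval 0 0 ≠ 0 := by
  have hB : (0 : ℝ) < (K + 1) * ((K + 1) * (K * 7 ^ K * 7 ^ K)) := by
    have : (0 : ℝ) < K := by exact_mod_cast (by omega : 0 < K)
    positivity
  set B : ℝ := (K + 1) * ((K + 1) * (K * 7 ^ K * 7 ^ K)) with hBdef
  refine ⟨1 / 10 ^ 8 / B, by positivity, fun a ha hd lam hlam P Q1 Q2 h1 h2 h0 => ?_⟩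
  obtain ⟨x, y, hxy, hP⟩ := zero_boundary P h0
  have hx1 : ‖x‖ ≤ 1 := hxy ▸ le_max_left _ _
  have hy1 : ‖y‖ ≤ 1 := hxy ▸ le_max_right _ _
  have e1 : evX K (shr lam a) (x, y) = 0 := by
    rw [← evalEval_hxP, h1, evalEval_mul, hP, zero_mul]
  have e2 : evY K (shr lam a) (x, y) = 0 := by
    rw [← evalEval_hyP, h2, evalEval_mul, hP, zero_mul]
  rw [evX_shr K lam a ha] at e1
  rw [evY_shr K lam a ha] at e2
  simp only at e1 e2
  rw [e1, mul_zero, zero_add] at e2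
  have hly : ‖lam * y‖ ≤ 6 * ‖y‖ := by
    rw [norm_mul]; gcongr
  have hu7 : ‖x + lam * y‖ ≤ 7 := by
    refine (norm_add_le _ _).trans ?_
    nlinarith
  have hv7 : ‖y‖ ≤ 7 := by linarith
  have hmax : 1 / 7 ≤ ‖x + lam * y‖ ∨ 1 / 14 ≤ ‖y‖ := by
    by_contra hcon
    push Not at hcon
    obtain ⟨hc1, hc2⟩ := hcon
    rcases max_choice ‖x‖ ‖y‖ with h | h
    · rw [h] at hxy
      have h3 : ‖x‖ ≤ ‖x + lam * y‖ + ‖lam * y‖ := by
        have := norm_sub_le (x + lam * y) (lam * y)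
        rwa [add_sub_cancel_right] at this
      linarith
    · rw [h] at hxy
      linarith
  generalize x + lam * y = u at e1 e2 hu7 hmax
  have hpow : ∀ (z : ℂ) (n : ℕ), ‖z‖ ≤ 7 → n ≤ K → ‖z ^ n‖ ≤ 7 ^ K := by
    intro z n hz hn
    rw [norm_pow]
    calc ‖z‖ ^ n ≤ 7 ^ n := pow_le_pow_left₀ (norm_nonneg _) hz n
      _ ≤ 7 ^ K := pow_le_pow_right₀ (by norm_num) hn
  have hKn : ∀ i : ℕ, i ≤ K → ‖(i : ℂ)‖ ≤ K := by
    intro i hi
    rw [Complex.norm_natCast]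
    exact_mod_cast hi
  have bX := nt_close K hK a (fun i j => (i * u ^ (i - 1)) * y ^ j) (1 / 10 ^ 8 / B)
    (K * 7 ^ K * 7 ^ K) (by positivity) (fun i j => (hd i j).le) (by
      intro i j hi hj
      rw [norm_mul, norm_mul]
      have t1 := hKn i hi
      have t2 := hpow u (i - 1) hu7 (by omega)
      have t3 := hpow y j hv7 hj
      gcongr)
  have bY := nt_close K hK a (fun i j => u ^ i * (j * y ^ (j - 1))) (1 / 10 ^ 8 / B)
    (K * 7 ^ K * 7 ^ K) (by positivity) (fun i j => (hd i j).le) (by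
      intro i j hi hj
      rw [norm_mul, norm_mul]
      have t1 := hKn j hj
      have t2 := hpow u i hu7 (by omega)
      have t3 := hpow y (j - 1) hv7 (by omega)
      calc ‖u ^ i‖ * (‖(j : ℂ)‖ * ‖y ^ (j - 1)‖) ≤ 7 ^ K * (K * 7 ^ K) := by gcongr
        _ = K * 7 ^ K * 7 ^ K := by ring)
  have hcoef : (K + 1) * ((K + 1) * (1 / 10 ^ 8 / B * (K * 7 ^ K * 7 ^ K))) = 1 / (10 ^ 8 : ℝ) := by
    have : (K + 1) * ((K + 1) * (1 / 10 ^ 8 / B * (K * 7 ^ K * 7 ^ K))) =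
      1 / 10 ^ 8 / B * ((K + 1) * ((K + 1) * (K * 7 ^ K * 7 ^ K))) := by ring
    rw [this, ← hBdef, div_mul_cancel₀ _ hB.ne']
  rw [hcoef] at bX bY
  have s1 : ∑ i ∈ Finset.range (K + 1), ∑ j ∈ Finset.range (K + 1),
      a i j * ((i * u ^ (i - 1)) * y ^ j) = 0 := by
    rw [← e1]
    unfold evX
    refine Finset.sum_congr rfl fun i _ => Finset.sum_congr rfl fun j _ => ?_
    ring
  have s2 : ∑ i ∈ Finset.range (K + 1), ∑ j ∈ Finset.range (K + 1),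
      a i j * (u ^ i * (j * y ^ (j - 1))) = 0 := by
    rw [← e2]
    unfold evY
    refine Finset.sum_congr rfl fun i _ => Finset.sum_congr rfl fun j _ => ?_
    ring
  simp only [s1, s2, zero_sub, norm_neg] at bX bY
  norm_num at bX bY
  have l1 : 6 * ‖u‖ ^ 5 ≤ ‖6 * u ^ 5 + y ^ 5‖ + ‖y‖ ^ 5 := by
    have e : 6 * u ^ 5 = (6 * u ^ 5 + y ^ 5) - y ^ 5 := by ring
    calc 6 * ‖u‖ ^ 5 = ‖6 * u ^ 5‖ := by rw [norm_mul, norm_pow, Complex.norm_ofNat]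
      _ = ‖(6 * u ^ 5 + y ^ 5) - y ^ 5‖ := by rw [← e]
      _ ≤ ‖6 * u ^ 5 + y ^ 5‖ + ‖y ^ 5‖ := norm_sub_le _ _
      _ = _ := by rw [norm_pow]
  have l2 : ‖y‖ ^ 5 ≤ ‖6 * u ^ 5 + y ^ 5‖ + 6 * ‖u‖ ^ 5 := by
    have e : y ^ 5 = (6 * u ^ 5 + y ^ 5) - 6 * u ^ 5 := by ring
    calc ‖y‖ ^ 5 = ‖y ^ 5‖ := by rw [norm_pow]
      _ = ‖(6 * u ^ 5 + y ^ 5) - 6 * u ^ 5‖ := by rw [← e]
      _ ≤ ‖6 * u ^ 5 + y ^ 5‖ + ‖6 * u ^ 5‖ := norm_sub_le _ _
      _ = _ := by rw [norm_mul 6, norm_pow, Complex.norm_ofNat]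
  by_cases hv : 1 / 14 ≤ ‖y‖
  · have q1 : (1 / 14 : ℝ) ^ 4 ≤ ‖y‖ ^ 4 := pow_le_pow_left₀ (by norm_num) hv 4
    have q2 : (1 / 14 : ℝ) ^ 5 ≤ ‖y‖ ^ 5 := pow_le_pow_left₀ (by norm_num) hv 5
    have q3 : ‖u‖ * (1 / 14 : ℝ) ^ 4 ≤ ‖u‖ * ‖y‖ ^ 4 := by gcongr
    have q4 : ‖u‖ ≤ 1 / 1000 := by
      norm_num at q3 q1 q2 ⊢
      nlinarith
    have q5 : ‖u‖ ^ 5 ≤ (1 / 1000 : ℝ) ^ 5 := pow_le_pow_left₀ (norm_nonneg _) q4 5
    norm_num at q2 q5
    linarith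
  · push Not at hv
    have hu : 1 / 7 ≤ ‖u‖ := by
      rcases hmax with h | h
      · exact h
      · exact absurd h (not_le.2 hv)
    have q1 : (1 / 7 : ℝ) ^ 5 ≤ ‖u‖ ^ 5 := pow_le_pow_left₀ (by norm_num) hu 5
    have q2 : ‖y‖ ^ 5 ≤ (1 / 14 : ℝ) ^ 5 := pow_le_pow_left₀ (norm_nonneg _) hv.le 5
    norm_num at q1 q2
    linarith

end H37.LM
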