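import Pool.Agent.H37.LM.Near0

/-!
# Linear changes of coordinates in terms of coefficients   [H37 LM Shear]

`shr l a i j` is the coefficient of `x ^ i y ^ j` in `∑ a i' j' (x + l y) ^ i' y ^ j'` (binomial theorem:
`i' = i + n`, `j' = j - n`).  It preserves the total degree, so all sums may be taken over
`i, j ≤ K` (by `high`).

* `ev_shr`, `evX_shr`, `evY_shr`: values of `h (x + l y, y)` and of its partial derivatives.  (The last
  two: differentiate `ev_shr` with `hasFDerivAt_ev`, or compute with coefficients.)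
* `formP_shr`: `formP n (shr l a)` at `w` is `∑_{i + j = n} a i j (1 + l w) ^ i w ^ j` (the homogeneous
  component of degree `n` of `h (x + l y, y)` at `(1, w)`).
* `hyP_eq`, `hyyP_eq`: outer derivatives of `hP`.
* `evalEval_hxP`, `evalEval_hyP`: as `evalEval_FtP`.
-/

noncomputable section

open Polynomial

namespace H37.LM

theorem shr_high {R : Type*} [CommRing R] (K : ℕ) (l : R) (a : ℕ → ℕ → R)
    (h : ∀ i j, K < i + j → a i j = 0) (i j : ℕ) (hij : K < i + j) : shr l a i j = 0 := by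
  unfold shr
  refine Finset.sum_eq_zero fun n hn => ?_
  rw [Finset.mem_range] at hn
  rw [h (i + n) (j - n) (by omega)]
  ring

theorem shr_low {R : Type*} [CommRing R] (e : ℕ) (l : R) (a : ℕ → ℕ → R)
    (h : ∀ i j, i + j < e → a i j = 0) (i j : ℕ) (hij : i + j < e) : shr l a i j = 0 := by
  unfold shr
  refine Finset.sum_eq_zero fun n hn => ?_
  rw [Finset.mem_range] at hn
  rw [h (i + n) (j - n) (by omega)]
  ring

theorem shr_zero_left {R : Type*} [CommRing R] (l : R) (a : ℕ → ℕ → R) (e : ℕ) :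
    shr l a 0 e = ∑ n ∈ Finset.range (e + 1), a n (e - n) * l ^ n := by
  unfold shr
  refine Finset.sum_congr rfl fun n _ => ?_
  simp

/-- The binomial theorem in one degree. -/
theorem shr_core (d : ℕ) (l x y : ℂ) (a : ℕ → ℕ → ℂ) :
    ∑ q ∈ Finset.HasAntidiagonal.antidiagonal d, shr l a q.1 q.2 * x ^ q.1 * y ^ q.2 =
      ∑ q ∈ Finset.HasAntidiagonal.antidiagonal d, a q.1 q.2 * (x + l * y) ^ q.1 * y ^ q.2 := by
  have h1 : ∀ q ∈ Finset.HasAntidiagonal.antidiagonal d, shr l a q.1 q.2 * x ^ q.1 * y ^ q.2 =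
      ∑ r ∈ Finset.HasAntidiagonal.antidiagonal q.2,
        a (q.1 + r.1) r.2 * ((q.1 + r.1).choose q.1 : ℂ) * l ^ r.1 * x ^ q.1 * y ^ (r.1 + r.2) := by
    intro q _
    unfold shr
    rw [Finset.Nat.sum_antidiagonal_eq_sum_range_succ_mk, Finset.sum_mul, Finset.sum_mul]
    refine Finset.sum_congr rfl fun n hn => ?_
    rw [Finset.mem_range] at hn
    have : n + (q.2 - n) = q.2 := by omega
    simp only [this]
  have h2 : ∀ q ∈ Finset.HasAntidiagonal.antidiagonal d, a q.1 q.2 * (x + l * y) ^ q.1 * y ^ q.2 =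
      ∑ r ∈ Finset.HasAntidiagonal.antidiagonal q.1,
        a (r.1 + r.2) q.2 * ((r.1 + r.2).choose r.1 : ℂ) * l ^ r.2 * x ^ r.1 * y ^ (r.2 + q.2) := by
    intro q _
    rw [Finset.Nat.sum_antidiagonal_eq_sum_range_succ_mk, add_pow, Finset.mul_sum, Finset.sum_mul]
    refine Finset.sum_congr rfl fun n hn => ?_
    rw [Finset.mem_range] at hn
    have : n + (q.1 - n) = q.1 := by omega
    simp only [this, mul_pow, pow_add]
    ring
  rw [Finset.sum_congr rfl h1, Finset.sum_congr rfl h2, Finset.sum_sigma', Finset.sum_sigma']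
  refine Finset.sum_nbij' (fun z => ⟨(z.1.1 + z.2.1, z.2.2), (z.1.1, z.2.1)⟩)
    (fun z => ⟨(z.2.1, z.2.2 + z.1.2), (z.2.2, z.1.2)⟩) ?_ ?_ ?_ ?_ ?_
  · rintro ⟨⟨i, j⟩, ⟨n, j'⟩⟩ h
    simp only [Finset.mem_sigma, Finset.HasAntidiagonal.mem_antidiagonal] at h ⊢
    obtain ⟨h3, h4⟩ := h
    exact ⟨by omega, trivial⟩
  · rintro ⟨⟨i, j⟩, ⟨n, j'⟩⟩ h
    simp only [Finset.mem_sigma, Finset.HasAntidiagonal.mem_antidiagonal] at h ⊢
    obtain ⟨h3, h4⟩ := h
    exact ⟨by omega, trivial⟩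
  · rintro ⟨⟨i, j⟩, ⟨n, j'⟩⟩ h
    simp only [Finset.mem_sigma, Finset.HasAntidiagonal.mem_antidiagonal] at h ⊢
    obtain ⟨h3, h4⟩ := h
    subst h4
    rfl
  · rintro ⟨⟨i, j⟩, ⟨n, j'⟩⟩ h
    simp only [Finset.mem_sigma, Finset.HasAntidiagonal.mem_antidiagonal] at h ⊢
    obtain ⟨h3, h4⟩ := h
    subst h4
    rfl
  · rintro ⟨⟨i, j⟩, ⟨n, j'⟩⟩ h
    rfl

/-- Summation by total degree. -/
theorem sum_square_eq (K : ℕ) (f : ℕ → ℕ → ℂ) (h : ∀ i j, K < i + j → f i j = 0) :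
    ∑ i ∈ Finset.range (K + 1), ∑ j ∈ Finset.range (K + 1), f i j =
      ∑ d ∈ Finset.range (K + 1), ∑ q ∈ Finset.HasAntidiagonal.antidiagonal d, f q.1 q.2 := by
  rw [← Finset.sum_product', Finset.sum_sigma']
  have h1 : ∑ x ∈ Finset.range (K + 1) ×ˢ Finset.range (K + 1), f x.1 x.2 =
      ∑ x ∈ (Finset.range (K + 1) ×ˢ Finset.range (K + 1)).filter (fun x => x.1 + x.2 ≤ K),
        f x.1 x.2 := by
    rw [Finset.sum_filter]
    refine Finset.sum_congr rfl fun x _ => ?_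
    split_ifs with hx
    · rfl
    · exact h _ _ (by omega)
  rw [h1]
  refine Finset.sum_nbij' (fun x => ⟨x.1 + x.2, x⟩) (fun z => z.2) ?_ ?_ ?_ ?_ ?_
  · rintro ⟨i, j⟩ hx
    simp only [Finset.mem_filter, Finset.mem_product, Finset.mem_range, Finset.mem_sigma,
      Finset.HasAntidiagonal.mem_antidiagonal] at hx ⊢
    exact ⟨by omega, trivial⟩
  · rintro ⟨d, ⟨i, j⟩⟩ hx
    simp only [Finset.mem_filter, Finset.mem_product, Finset.mem_range, Finset.mem_sigma,
      Finset.HasAntidiagonal.mem_antidiagonal] at hx ⊢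
    omega
  · rintro ⟨i, j⟩ hx
    rfl
  · rintro ⟨d, ⟨i, j⟩⟩ hx
    simp only [Finset.mem_sigma, Finset.mem_range, Finset.HasAntidiagonal.mem_antidiagonal] at hx ⊢
    obtain ⟨-, rfl⟩ := hx
    rfl
  · rintro ⟨i, j⟩ hx
    rfl

theorem ev_shr (K : ℕ) (l : ℂ) (a : ℕ → ℕ → ℂ) (h : ∀ i j, K < i + j → a i j = 0) (p : ℂ × ℂ) :
    ev K (shr l a) p = ev K a (p.1 + l * p.2, p.2) := by
  unfold ev
  rw [sum_square_eq K (fun i j => shr l a i j * p.1 ^ i * p.2 ^ j)
      (fun i j hij => by rw [shr_high K l a h i j hij]; ring),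
    sum_square_eq K (fun i j => a i j * (p.1 + l * p.2, p.2).1 ^ i * (p.1 + l * p.2, p.2).2 ^ j)
      (fun i j hij => by rw [h i j hij]; ring)]
  exact Finset.sum_congr rfl fun d _ => shr_core d l p.1 p.2 a

theorem shr_fderiv (K : ℕ) (l : ℂ) (a : ℕ → ℕ → ℂ) (h : ∀ i j, K < i + j → a i j = 0)
    (p : ℂ × ℂ) (v : ℂ × ℂ) :
    evX K (shr l a) p * v.1 + evY K (shr l a) p * v.2 =
      evX K a (p.1 + l * p.2, p.2) * (v.1 + l * v.2) + evY K a (p.1 + l * p.2, p.2) * v.2 := by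
  have h1 := hasFDerivAt_ev K (shr l a) p
  have hL : HasFDerivAt (𝕜 := ℂ) (fun p : ℂ × ℂ => (p.1 + l * p.2, p.2))
      ((ContinuousLinearMap.fst ℂ ℂ ℂ + l • ContinuousLinearMap.snd ℂ ℂ ℂ).prod
        (ContinuousLinearMap.snd ℂ ℂ ℂ)) p :=
    (hasFDerivAt_fst.add (hasFDerivAt_snd.const_mul l)).prodMk hasFDerivAt_snd
  have h2 := (hasFDerivAt_ev K a (p.1 + l * p.2, p.2)).comp p hL
  have h3 : (ev K a ∘ fun p : ℂ × ℂ => (p.1 + l * p.2, p.2)) = ev K (shr l a) := by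
    funext p
    exact (ev_shr K l a h p).symm
  rw [h3] at h2
  have h4 := congrArg (fun L : ℂ × ℂ →L[ℂ] ℂ => L v) (h1.unique h2)
  rw [mul_add]
  simpa using h4

theorem evX_shr (K : ℕ) (l : ℂ) (a : ℕ → ℕ → ℂ) (h : ∀ i j, K < i + j → a i j = 0) (p : ℂ × ℂ) :
    evX K (shr l a) p = evX K a (p.1 + l * p.2, p.2) := by
  simpa using shr_fderiv K l a h p (1, 0)

theorem evY_shr (K : ℕ) (l : ℂ) (a : ℕ → ℕ → ℂ) (h : ∀ i j, K < i + j → a i j = 0) (p : ℂ × ℂ) :
    evY K (shr l a) p = l * evX K a (p.1 + l * p.2, p.2) + evY K a (p.1 + l * p.2, p.2) := by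
  have := shr_fderiv K l a h p (0, 1)
  simp only [mul_zero, zero_add, mul_one] at this
  rw [this, mul_comm]

theorem formP_shr (n : ℕ) (l : ℂ) (a : ℕ → ℕ → ℂ) (w : ℂ) :
    (formP n (shr l a)).eval w =
      ∑ i ∈ Finset.range (n + 1), a i (n - i) * (1 + l * w) ^ i * w ^ (n - i) := by
  have h1 := shr_core n l 1 w a
  rw [Finset.Nat.sum_antidiagonal_eq_sum_range_succ_mk
    (f := fun q : ℕ × ℕ => a q.1 q.2 * (1 + l * w) ^ q.1 * w ^ q.2)] at h1
  rw [← h1]
  unfold formP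
  rw [eval_finsetSum, ← Finset.Nat.sum_antidiagonal_swap,
    Finset.Nat.sum_antidiagonal_eq_sum_range_succ_mk]
  refine Finset.sum_congr rfl fun j _ => ?_
  simp [eval_monomial]

theorem hyP_eq {F : Type*} [Field F] (K : ℕ) (a : ℕ → ℕ → F) :
    hyP K a = derivative (hP K a) := by
  unfold hyP hP
  rw [derivative_sum]
  refine Finset.sum_congr rfl fun i _ => ?_
  rw [derivative_sum]
  refine Finset.sum_congr rfl fun j _ => ?_
  rw [derivative_monomial]
  congr 1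
  rw [← nsmul_eq_mul, mul_comm, ← nsmul_eq_mul, map_nsmul]

theorem hyyP_eq {F : Type*} [Field F] (K : ℕ) (a : ℕ → ℕ → F) :
    hyyP K a = derivative (derivative (hP K a)) := by
  rw [← hyP_eq]
  unfold hyyP hyP
  rw [derivative_sum]
  refine Finset.sum_congr rfl fun i _ => ?_
  rw [derivative_sum]
  refine Finset.sum_congr rfl fun j _ => ?_
  rw [derivative_monomial]
  rcases j with _ | j
  · simp
  · congr 1
    have h1 : ((j + 1 - 1 : ℕ) : F[X]) = C ((j : ℕ) : F) := by simp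
    rw [h1, mul_comm (monomial i _) (C _), C_mul_monomial]
    congr 1
    push_cast
    ring

theorem evalEval_hxP (K : ℕ) (a : ℕ → ℕ → ℂ) (x y : ℂ) :
    (hxP K a).evalEval x y = evX K a (x, y) := by
  unfold hxP evX
  simp only [evalEval, eval_finsetSum]
  refine Finset.sum_congr rfl fun i _ => ?_
  refine Finset.sum_congr rfl fun j _ => ?_
  simp only [eval_monomial, eval_mul, eval_pow, eval_C]
  ring

theorem evalEval_hyP (K : ℕ) (a : ℕ → ℕ → ℂ) (x y : ℂ) :
    (hyP K a).evalEval x y = evY K a (x, y) := by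
  unfold hyP evY
  simp only [evalEval, eval_finsetSum]
  refine Finset.sum_congr rfl fun i _ => ?_
  refine Finset.sum_congr rfl fun j _ => ?_
  simp only [eval_monomial, eval_mul, eval_pow, eval_C]
  ring

end H37.LM
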