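import Pool.Agent.H37.LM.Near0

/-!
# No linear substitution makes `x ^ 6 + x y ^ 5` even   [H37 LM Uneven]

`m6, ..., m1` are the coefficients of `X ^ i Y ^ (6 - i)` in `g (r X + s Y, t X + q Y)`.

* `nondeg`: if `m6 = m5 = 0`: `m6 = r (r ^ 5 + t ^ 5)`.  If `r = 0` then `m5 = s t ^ 5 = 0`, but
  `r q - s t = - s t ≠ 0`.  Otherwise `r ^ 5 = - t ^ 5` (`t ≠ 0`), and
  `m5 = - 6 t ^ 5 s + 5 r t ^ 4 q + s t ^ 5 = 5 t ^ 4 (r q - s t) ≠ 0`.
* `uneven_zero` (the case `τ = 0`: the odd coefficients `m5, m3, m1` do not all vanish).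
  If `t = 0` (`r, q ≠ 0`): `m5 = 6 r ^ 5 s = 0` gives `s = 0`, then `m1 = r q ^ 5 ≠ 0`.
  If `q = 0` (`s, t ≠ 0`): `m3 = 20 r ^ 3 s ^ 3 = 0` gives `r = 0`, then `m5 = s t ^ 5 ≠ 0`.
  Otherwise put `P = r / t`, `Q = s / q`, `P ≠ Q`; dividing by `t ^ 5 q`, `10 t ^ 3 q ^ 3`, `t q ^ 5`:
  `6 P ^ 5 Q + 5 P + Q = 0`, `2 P ^ 3 Q ^ 3 + P + Q = 0`, `6 P Q ^ 5 + P + 5 Q = 0`.
  Difference of the first and the third, divided by `2 (P - Q)`: `3 P Q (P + Q) (P ^ 2 + Q ^ 2) = - 2`.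
  Sum divided by `6`: `P Q (P ^ 4 + Q ^ 4) + (P + Q) = 0`; subtract the second:
  `P Q (P ^ 2 - Q ^ 2) ^ 2 = 0`; `P Q ≠ 0` and `P ≠ Q`, so `P + Q = 0`, contradiction.
* `uneven`: the polynomial `G = ∑ m_i X ^ i Y ^ (6 - i)` satisfies the three relations iff
  `G (X - (τ / 2) Y, Y)` has vanishing coefficients of `X ^ 5 Y`, `X ^ 3 Y ^ 3`, `X Y ^ 5`; this is
  `g` after the substitution `(r, s - r τ / 2; t, q - t τ / 2)` with the same determinant:
  check `m5 (r, s - r τ/2, t, q - t τ/2) = m5 - 3 τ m6`,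
  `m3 (..) = m3 - 2 τ m4 + 5 τ ^ 2 / 2 * m5 - 5 τ ^ 3 / 2 * m6`,
  `m1 (..) = m1 - τ m2 + 3 τ^2/4 m3 - τ^3/2 m4 + 5 τ^4/16 m5 - 3 τ^5/16 m6` (`ring`), and these
  vanish if the relations hold.
-/

noncomputable section

namespace H37.LM

theorem nondeg (r s t q : ℂ) (h : r * q - s * t ≠ 0) : ¬ (m6 r s t q = 0 ∧ m5 r s t q = 0) := by
  rintro ⟨h6, h5⟩
  unfold m6 at h6
  unfold m5 at h5
  by_cases hr : r = 0
  · subst hr
    have h1 : s * t ^ 5 = 0 := by linear_combination h5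
    rcases mul_eq_zero.1 h1 with h2 | h2
    · apply h; rw [h2]; ring
    · have h3 : t = 0 := by simpa using h2
      apply h; rw [h3]; ring
  · have h1 : r * (r ^ 5 + t ^ 5) = 0 := by linear_combination h6
    have h2 : r ^ 5 + t ^ 5 = 0 := (mul_eq_zero.1 h1).resolve_left hr
    have h3 : 5 * t ^ 4 * (r * q - s * t) = 0 := by linear_combination h5 - 6 * s * h2
    have h4 : (5 : ℂ) * t ^ 4 = 0 := (mul_eq_zero.1 h3).resolve_right h
    have h5' : t = 0 := by simpa using h4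
    rw [h5'] at h2
    apply hr
    simpa using h2

theorem uneven_zero (r s t q : ℂ) (h : r * q - s * t ≠ 0) :
    ¬ (m5 r s t q = 0 ∧ m3 r s t q = 0 ∧ m1 r s t q = 0) := by
  rintro ⟨h5, h3, h1⟩
  unfold m5 at h5
  unfold m3 at h3
  unfold m1 at h1
  by_cases ht : t = 0
  · subst ht
    have hrq : r * q ≠ 0 := by simpa using h
    have hr : r ≠ 0 := left_ne_zero_of_mul hrq
    have hq : q ≠ 0 := right_ne_zero_of_mul hrq
    have h6 : r ^ 5 * s = 0 := by linear_combination (1 / 6) * h5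
    have hs : s = 0 := (mul_eq_zero.1 h6).resolve_left (pow_ne_zero 5 hr)
    subst hs
    have h7 : r * q ^ 5 = 0 := by linear_combination h1
    exact (mul_ne_zero hr (pow_ne_zero 5 hq)) h7
  by_cases hq : q = 0
  · subst hq
    have hst : s ≠ 0 := by
      rintro rfl
      apply h; ring
    have h6 : r ^ 3 * s ^ 3 = 0 := by linear_combination (1 / 20) * h3
    have hr : r = 0 := by
      have := (mul_eq_zero.1 h6).resolve_right (pow_ne_zero 3 hst)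
      simpa using this
    subst hr
    have h7 : s * t ^ 5 = 0 := by linear_combination h5
    exact (mul_ne_zero hst (pow_ne_zero 5 ht)) h7
  obtain ⟨P, hP⟩ : ∃ P, r = P * t := ⟨r / t, by field_simp⟩
  obtain ⟨Q, hQ⟩ : ∃ Q, s = Q * q := ⟨s / q, by field_simp⟩
  subst hP
  subst hQ
  have hPQ : P - Q ≠ 0 := by
    intro h0
    apply h
    linear_combination t * q * h0
  have e1 : 6 * P ^ 5 * Q + 5 * P + Q = 0 := by
    have h6 : t ^ 5 * q * (6 * P ^ 5 * Q + 5 * P + Q) = 0 := by linear_combination h5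
    exact (mul_eq_zero.1 h6).resolve_left (mul_ne_zero (pow_ne_zero 5 ht) hq)
  have e2 : 2 * P ^ 3 * Q ^ 3 + P + Q = 0 := by
    have h6 : t ^ 3 * q ^ 3 * (2 * P ^ 3 * Q ^ 3 + P + Q) = 0 := by
      linear_combination (1 / 10) * h3
    exact (mul_eq_zero.1 h6).resolve_left (mul_ne_zero (pow_ne_zero 3 ht) (pow_ne_zero 3 hq))
  have e3 : 6 * P * Q ^ 5 + P + 5 * Q = 0 := by
    have h6 : t * q ^ 5 * (6 * P * Q ^ 5 + P + 5 * Q) = 0 := by linear_combination h1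
    exact (mul_eq_zero.1 h6).resolve_left (mul_ne_zero ht (pow_ne_zero 5 hq))
  have e4 : 3 * P * Q * (P + Q) * (P ^ 2 + Q ^ 2) + 2 = 0 := by
    have h6 : (P - Q) * (3 * P * Q * (P + Q) * (P ^ 2 + Q ^ 2) + 2) = 0 := by
      linear_combination (1 / 2) * e1 - (1 / 2) * e3
    exact (mul_eq_zero.1 h6).resolve_left hPQ
  have e5 : P * Q * (P - Q) ^ 2 * (P + Q) ^ 2 = 0 := by
    linear_combination (1 / 6) * e1 + (1 / 6) * e3 - e2
  have hPQ0 : P * Q ≠ 0 := by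
    intro h0
    have h6 : (2 : ℂ) = 0 := by linear_combination e4 - 3 * (P + Q) * (P ^ 2 + Q ^ 2) * h0
    norm_num at h6
  have e6 : (P + Q) ^ 2 = 0 :=
    (mul_eq_zero.1 e5).resolve_left (mul_ne_zero hPQ0 (pow_ne_zero 2 hPQ))
  have e7 : P + Q = 0 := by simpa using e6
  have h6 : (2 : ℂ) = 0 := by linear_combination e4 - 3 * P * Q * (P ^ 2 + Q ^ 2) * e7
  norm_num at h6

theorem uneven (r s t q τ : ℂ) (h : r * q - s * t ≠ 0) :
    ¬ (m5 r s t q = 3 * τ * m6 r s t q ∧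
      m3 r s t q = 2 * τ * m4 r s t q - 5 * τ ^ 3 * m6 r s t q ∧
      m1 r s t q = τ * m2 r s t q - τ ^ 3 * m4 r s t q + 3 * τ ^ 5 * m6 r s t q) := by
  rintro ⟨h5, h3, h1⟩
  have hdet : r * (q - t * τ / 2) - (s - r * τ / 2) * t ≠ 0 := by
    intro h0
    apply h
    linear_combination h0
  have i5 : m5 r (s - r * τ / 2) t (q - t * τ / 2) = m5 r s t q - 3 * τ * m6 r s t q := by
    unfold m5 m6; ring
  have i3 : m3 r (s - r * τ / 2) t (q - t * τ / 2) = m3 r s t q - 2 * τ * m4 r s t q +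
      5 * τ ^ 2 / 2 * m5 r s t q - 5 * τ ^ 3 / 2 * m6 r s t q := by
    unfold m3 m4 m5 m6; ring
  have i1 : m1 r (s - r * τ / 2) t (q - t * τ / 2) = m1 r s t q - τ * m2 r s t q +
      3 * τ ^ 2 / 4 * m3 r s t q - τ ^ 3 / 2 * m4 r s t q + 5 * τ ^ 4 / 16 * m5 r s t q -
      3 * τ ^ 5 / 16 * m6 r s t q := by
    unfold m1 m2 m3 m4 m5 m6; ring
  refine uneven_zero r (s - r * τ / 2) t (q - t * τ / 2) hdet ⟨?_, ?_, ?_⟩
  · rw [i5, h5]; ring
  · rw [i3, h3, h5]; ring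
  · rw [i1, h1, h3, h5]; ring

end H37.LM
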