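import Pool.Agent.H37.LM.ContactLim
import Pool.Agent.H37.LM.Uneven
import Pool.Agent.H37.LM.Shear

/-!
# Condition (G2) near `g`   [H37 LM NearTwo]

Proof.  Suppose not: for every `n` there are `a n` with `‖a n i j - gS i j‖ < 1 / (n + 1)`, and `p n`,
`c1 n`, `c2 n`, `‖p n‖ ≤ 3`, with contact.  Take a free ultrafilter `l` on `ℕ` (`hyperfilter ℕ`);
`p n → p` along `l`.  Let `P n = (hP K (shr lam (a n))).comp (X + C (C (p n) * X))`, i.e. `y ↦ y + p x`.
* `ContactP` is preserved: `(P n).eval (C c1 * X ^ 2 + C c2 * X ^ 3) =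
  (hP ..).eval (C p * X + C c1 * X ^ 2 + C c2 * X ^ 3)`, and the same for the two outer derivatives
  (`derivative_comp`).
* The coefficients of `P n` are polynomials in `lam`, `p n` and the `a n i j`, `i + j ≤ K`, so they
  converge to those of `g` after the substitution `(x, y) ↦ ((1 + lam p) x + lam y, p x + y)`:
  `g i j := lim`, with `g i j = 0` for `i + j ≠ 6` and
  `g 6 0 = m6 r s t q`, ..., `g 1 5 = m1 r s t q`, `r = 1 + lam p`, `s = lam`, `t = p`, `q = 1`,
  `r q - s t = 1`.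
* `contact_lim` contradicts `nondeg` and `uneven`.
-/

noncomputable section

open Polynomial Filter Topology

namespace H37.LM

/-- the coefficients of `g ((1 + lam p) x + lam y, p x + y)` -/
def nt_g (lam p : ℂ) (i j : ℕ) : ℂ :=
  ∑ m ∈ Finset.range (i + 1), shr lam gS (i - m) (j + m) * ((j + m).choose j : ℂ) * p ^ m

theorem nt_coeff (K : ℕ) (b : ℕ → ℕ → ℂ) (p : ℂ) (i0 j0 : ℕ) (hb : ∀ i j, K < i + j → b i j = 0) :
    (((hP K b).comp (X + C (C p * X))).coeff j0).coeff i0 =
      ∑ n ∈ Finset.range (i0 + 1), b (i0 - n) (j0 + n) * ((j0 + n).choose j0 : ℂ) * p ^ n := by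
  classical
  have h1 : (((hP K b).comp (X + C (C p * X))).coeff j0).coeff i0 =
      ∑ i ∈ Finset.range (K + 1), ∑ j ∈ Finset.range (K + 1),
        if i + (j - j0) = i0 ∧ j0 ≤ j then b i j * (j.choose j0 : ℂ) * p ^ (j - j0) else 0 := by
    unfold hP
    rw [Polynomial.sum_comp, finsetSum_coeff, finsetSum_coeff]
    refine Finset.sum_congr rfl fun i _ => ?_
    rw [Polynomial.sum_comp, finsetSum_coeff, finsetSum_coeff]
    refine Finset.sum_congr rfl fun j _ => ?_
    rw [monomial_comp, coeff_C_mul, coeff_X_add_C_pow]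
    have h2 : (monomial i) (b i j) * ((C p * X) ^ (j - j0) * ((j.choose j0 : ℕ) : ℂ[X])) =
        C (b i j * (j.choose j0 : ℂ) * p ^ (j - j0)) * X ^ (i + (j - j0)) := by
      rw [← C_mul_X_pow_eq_monomial, mul_pow, ← C_pow, C_mul, C_mul, pow_add, C_eq_natCast]
      ring
    rw [h2, coeff_C_mul_X_pow]
    by_cases h3 : i + (j - j0) = i0
    · by_cases h4 : j0 ≤ j
      · rw [if_pos h3.symm, if_pos ⟨h3, h4⟩]
      · rw [if_pos h3.symm, if_neg (fun h => h4 h.2), Nat.choose_eq_zero_of_lt (not_le.1 h4)]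
        simp
    · rw [if_neg (fun h => h3 h.symm), if_neg (fun h => h3 h.1)]
  rw [h1, ← Finset.sum_product', ← Finset.sum_filter]
  have h2 : ∑ n ∈ Finset.range (i0 + 1), b (i0 - n) (j0 + n) * ((j0 + n).choose j0 : ℂ) * p ^ n =
      ∑ n ∈ (Finset.range (i0 + 1)).filter (fun n => i0 - n ≤ K ∧ j0 + n ≤ K),
        b (i0 - n) (j0 + n) * ((j0 + n).choose j0 : ℂ) * p ^ n := by
    rw [Finset.sum_filter]
    refine Finset.sum_congr rfl fun n _ => ?_
    split_ifs with h
    · rfl
    · rw [hb _ _ (by omega)]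
      ring
  rw [h2]
  refine Finset.sum_nbij' (fun x => x.2 - j0) (fun n => (i0 - n, j0 + n)) ?_ ?_ ?_ ?_ ?_
  · rintro ⟨i, j⟩ hx
    simp only [Finset.mem_filter, Finset.mem_product, Finset.mem_range] at hx ⊢
    omega
  · intro n hn
    simp only [Finset.mem_filter, Finset.mem_product, Finset.mem_range] at hn ⊢
    omega
  · rintro ⟨i, j⟩ hx
    simp only [Finset.mem_filter, Finset.mem_product, Finset.mem_range] at hx ⊢
    have h3 : i0 - (j - j0) = i := by omega
    have h4 : j0 + (j - j0) = j := by omega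
    rw [h3, h4]
  · intro n hn
    simp only [Finset.mem_filter, Finset.mem_range] at hn ⊢
    omega
  · rintro ⟨i, j⟩ hx
    simp only [Finset.mem_filter, Finset.mem_product, Finset.mem_range] at hx ⊢
    have h3 : i0 - (j - j0) = i := by omega
    have h4 : j0 + (j - j0) = j := by omega
    rw [h3, h4]

theorem nt_g60 (lam p : ℂ) : nt_g lam p 6 0 = m6 (1 + lam * p) lam p 1 := by
  unfold nt_g m6 shr gS
  simp only [Finset.sum_range_succ, Finset.sum_range_zero]
  norm_num [Nat.choose]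
  ring

theorem nt_g51 (lam p : ℂ) : nt_g lam p 5 1 = m5 (1 + lam * p) lam p 1 := by
  unfold nt_g m5 shr gS
  simp only [Finset.sum_range_succ, Finset.sum_range_zero]
  norm_num [Nat.choose]
  ring

theorem nt_g42 (lam p : ℂ) : nt_g lam p 4 2 = m4 (1 + lam * p) lam p 1 := by
  unfold nt_g m4 shr gS
  simp only [Finset.sum_range_succ, Finset.sum_range_zero]
  norm_num [Nat.choose]
  ring

theorem nt_g33 (lam p : ℂ) : nt_g lam p 3 3 = m3 (1 + lam * p) lam p 1 := by
  unfold nt_g m3 shr gS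
  simp only [Finset.sum_range_succ, Finset.sum_range_zero]
  norm_num [Nat.choose]
  ring

theorem nt_g24 (lam p : ℂ) : nt_g lam p 2 4 = m2 (1 + lam * p) lam p 1 := by
  unfold nt_g m2 shr gS
  simp only [Finset.sum_range_succ, Finset.sum_range_zero]
  norm_num [Nat.choose]
  ring

theorem nt_g15 (lam p : ℂ) : nt_g lam p 1 5 = m1 (1 + lam * p) lam p 1 := by
  unfold nt_g m1 shr gS
  simp only [Finset.sum_range_succ, Finset.sum_range_zero]
  norm_num [Nat.choose]
  ring

theorem near_g2 (K : ℕ) (hK : 6 ≤ K) (lam : ℂ) : ∃ δ > 0, ∀ a : ℕ → ℕ → ℂ,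
    (∀ i j, K < i + j → a i j = 0) → (∀ i j, ‖a i j - gS i j‖ < δ) →
    ∀ p c1 c2 : ℂ, ‖p‖ ≤ 3 →
      ¬ ContactP (hP K (shr lam a)) (C p * X + C c1 * X ^ 2 + C c2 * X ^ 3) := by
  by_contra hcon
  push Not at hcon
  have hex : ∀ n : ℕ, ∃ a : ℕ → ℕ → ℂ, (∀ i j, K < i + j → a i j = 0) ∧
      (∀ i j, ‖a i j - gS i j‖ < 1 / ((n : ℝ) + 1)) ∧ ∃ p c1 c2 : ℂ, ‖p‖ ≤ 3 ∧
      ContactP (hP K (shr lam a)) (C p * X + C c1 * X ^ 2 + C c2 * X ^ 3) :=
    fun n => hcon (1 / ((n : ℝ) + 1)) (by positivity)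
  choose a ha ha' p c1 c2 hp hc using hex
  set l : Ultrafilter ℕ := hyperfilter ℕ with hl
  obtain ⟨p0, hp0⟩ := cl_bdd l p 3 (Eventually.of_forall hp)
  have h1n : Tendsto (fun n : ℕ => 1 / ((n : ℝ) + 1)) (l : Filter ℕ) (𝓝 0) :=
    tendsto_one_div_add_atTop_nhds_zero_nat.mono_left Nat.hyperfilter_le_atTop
  have haT : ∀ i j, Tendsto (fun n => a n i j) (l : Filter ℕ) (𝓝 (gS i j)) := by
    intro i j
    rw [tendsto_iff_norm_sub_tendsto_zero]
    exact squeeze_zero (fun n => norm_nonneg _) (fun n => (ha' n i j).le) h1n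
  have hshr : ∀ i j, Tendsto (fun n => shr lam (a n) i j) (l : Filter ℕ)
      (𝓝 (shr lam gS i j)) := by
    intro i j
    unfold shr
    refine tendsto_finsetSum _ fun m _ => ?_
    exact ((haT _ _).mul_const _).mul_const _
  have hPn := contact_lim l (fun n => (hP K (shr lam (a n))).comp (X + C (C (p n) * X))) c1 c2
    (nt_g lam p0) (by
      intro i j
      have h2 : (fun n => (((hP K (shr lam (a n))).comp (X + C (C (p n) * X))).coeff j).coeff i) =
          fun n => ∑ m ∈ Finset.range (i + 1), shr lam (a n) (i - m) (j + m) *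
            ((j + m).choose j : ℂ) * p n ^ m := by
        funext n
        exact nt_coeff K _ _ i j (shr_high K lam (a n) (ha n))
      rw [h2]
      unfold nt_g
      refine tendsto_finsetSum _ fun m _ => ?_
      exact ((hshr _ _).mul_const _).mul (hp0.pow m)) (by
      intro i j hij
      unfold nt_g
      refine Finset.sum_eq_zero fun m hm => ?_
      rw [Finset.mem_range] at hm
      rw [shr_low 6 lam gS (fun i' j' h' => by unfold gS; rw [if_neg (by omega)]) _ _ (by omega)]
      ring) (Eventually.of_forall fun n => by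
      have h3 := hc n
      have h4 : (X + C (C (p n) * X) : ℂ[X][X]).eval (C (c1 n) * X ^ 2 + C (c2 n) * X ^ 3) =
          C (p n) * X + C (c1 n) * X ^ 2 + C (c2 n) * X ^ 3 := by
        rw [eval_add, eval_X, eval_C]
        ring
      have h5 : ∀ Q : ℂ[X][X], derivative (Q.comp (X + C (C (p n) * X))) =
          (derivative Q).comp (X + C (C (p n) * X)) := by
        intro Q
        rw [derivative_comp, derivative_add, derivative_X, derivative_C, add_zero, one_mul]
      refine ⟨?_, ?_, ?_⟩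
      · rw [eval_comp, h4]
        exact h3.1
      · rw [h5, eval_comp, h4]
        exact h3.2.1
      · rw [h5, h5, eval_comp, h4]
        exact h3.2.2)
  rw [nt_g60, nt_g51, nt_g42, nt_g33, nt_g24, nt_g15] at hPn
  have hdet : (1 + lam * p0) * 1 - lam * p0 ≠ 0 := by
    have : (1 + lam * p0) * 1 - lam * p0 = 1 := by ring
    rw [this]
    exact one_ne_zero
  rcases hPn with h | ⟨τ, h⟩
  · exact nondeg _ _ _ _ hdet h
  · exact uneven _ _ _ _ τ hdet h

end H37.LM
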