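import Pool.Agent.H37.LM.NearOne
import Pool.Agent.H37.LM.NearTwo
import Pool.Agent.H37.LM.NearThree

/-!
# Jets near `g` are good after a shear   [H37 LM NearGood]

`lead n a z = ∑_{i ≤ n} a i (n - i) z ^ i` is the homogeneous component of degree `n` at `(z, 1)`.

* `near_good`: `δ` = minimum of the `δ`s of `near_g1`, `near_g3` and of `near_g2` for
  `lam = 0, ..., 6`, and `1 / 2` (so that `a 6 0 ≠ 0`, hence `e ≤ 6`).  `Good K e (shr lam a)`:
  `high`, `low`: `shr_high`, `shr_low`; `inf`: `shr lam a 0 e = lead e a lam ≠ 0` (`shr_zero_left`) by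
  `hz` with `z = lam`; `g2`: if `(formP e (shr lam a)).eval p = 0` then `‖p‖ ≤ 3`: `p = 0`, or, by `formP_shr`,
  `p ^ e * lead e a (1 / p + lam) = 0`, so `‖1 / p‖ > 1 / 3` by `hz`; the three polynomials of `g2` are the ones
  of `ContactP` by `hyP_eq`, `hyyP_eq`.
* `choose_lam`: if `lead e a` is not identically zero (`h`), it has at most `6` zeros, and every zero
  is at distance `< 1 / 2` from at most one integer; so some `lam ∈ {0, ..., 6}` is at distance
  `≥ 1 / 2` from all zeros.
-/

noncomputable section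

open Polynomial

namespace H37.LM

/-- The homogeneous component of degree `n` at `(z, 1)`. -/
def lead (n : ℕ) (a : ℕ → ℕ → ℂ) (z : ℂ) : ℂ := ∑ i ∈ Finset.range (n + 1), a i (n - i) * z ^ i

theorem near_good (K : ℕ) (hK : 6 ≤ K) : ∃ δ > 0, ∀ a : ℕ → ℕ → ℂ,
    (∀ i j, K < i + j → a i j = 0) → (∀ i j, ‖a i j - gS i j‖ < δ) →
    ∀ (e lam : ℕ), 1 ≤ e → lam ≤ 6 → (∀ i j, i + j < e → a i j = 0) →
    (∀ z : ℂ, ‖z - lam‖ ≤ 1 / 3 → lead e a z ≠ 0) → e ≤ 6 ∧ Good K e (shr (lam : ℂ) a) := by
  obtain ⟨δ1, hδ1, H1⟩ := near_g1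
  obtain ⟨δ3, hδ3, H3⟩ := near_g3 K hK
  choose δ2 hδ2 H2 using fun lam : ℕ => near_g2 K hK (lam : ℂ)
  have hne : (Finset.range 7).Nonempty := ⟨0, by simp⟩
  have hm : 0 < (Finset.range 7).inf' hne δ2 := by
    rw [Finset.lt_inf'_iff]
    intro i _
    exact hδ2 i
  refine ⟨min (min δ1 δ3) (min ((Finset.range 7).inf' hne δ2) (1 / 2)),
    lt_min (lt_min hδ1 hδ3) (lt_min hm (by norm_num)), ?_⟩
  intro a ha hd e lam he hlam hlow hz
  have d1 : ∀ i j, ‖a i j - gS i j‖ < δ1 := fun i j =>
    (hd i j).trans_le ((min_le_left _ _).trans (min_le_left _ _))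
  have d3 : ∀ i j, ‖a i j - gS i j‖ < δ3 := fun i j =>
    (hd i j).trans_le ((min_le_left _ _).trans (min_le_right _ _))
  have d2 : ∀ i j, ‖a i j - gS i j‖ < δ2 lam := fun i j =>
    (hd i j).trans_le ((min_le_right _ _).trans ((min_le_left _ _).trans
      (Finset.inf'_le _ (Finset.mem_range.2 (by omega)))))
  have d4 : ∀ i j, ‖a i j - gS i j‖ < 1 / 2 := fun i j =>
    (hd i j).trans_le ((min_le_right _ _).trans (min_le_right _ _))
  have he6 : e ≤ 6 := by
    by_contra hcon
    have h := d4 6 0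
    rw [hlow 6 0 (by omega)] at h
    simp only [gS] at h
    norm_num at h
  refine ⟨he6, ?_⟩
  refine
    { high := shr_high K (lam : ℂ) a ha
      low := shr_low e (lam : ℂ) a hlow
      one_le := he
      le_six := he6
      inf := ?_
      g1 := H1 a d1 lam
      g2 := ?_
      g3 := ?_ }
  · rw [shr_zero_left]
    exact hz lam (by rw [sub_self, norm_zero]; norm_num)
  · intro p c1 c2 hp
    have hp3 : ‖p‖ ≤ 3 := by
      by_cases hp0 : p = 0
      · rw [hp0, norm_zero]; norm_num
      · rw [formP_shr] at hp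
        have h1 : p ^ e * lead e a (p⁻¹ + lam) = 0 := by
          rw [← hp]
          unfold lead
          rw [Finset.mul_sum]
          refine Finset.sum_congr rfl fun i hi => ?_
          rw [Finset.mem_range] at hi
          have h2 : p ^ e = p ^ i * p ^ (e - i) := by
            rw [← pow_add]; congr 1; omega
          have h3 : 1 + (lam : ℂ) * p = p * (p⁻¹ + lam) := by
            rw [mul_add, mul_inv_cancel₀ hp0]; ring
          rw [h2, h3, mul_pow]
          ring
        rcases mul_eq_zero.1 h1 with h2 | h2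
        · exact absurd h2 (pow_ne_zero _ hp0)
        · by_contra hcon
          push Not at hcon
          refine hz (p⁻¹ + lam) ?_ h2
          rw [add_sub_cancel_right, norm_inv, inv_eq_one_div]
          exact one_div_le_one_div_of_le (by norm_num) hcon.le
    have h4 := H2 lam a ha d2 p c1 c2 hp3
    unfold ContactP at h4
    rw [hyP_eq, hyyP_eq]
    exact h4
  · intro P Q1 Q2 h1 h2 _
    refine H3 a ha d3 lam ?_ P Q1 Q2 h1 h2
    rw [Complex.norm_natCast]
    exact_mod_cast hlam

theorem choose_lam (e : ℕ) (he : e ≤ 6) (a : ℕ → ℕ → ℂ) (i j : ℕ) (hij : i + j = e)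
    (h : a i j ≠ 0) :
    ∃ lam : ℕ, lam ≤ 6 ∧ ∀ z : ℂ, ‖z - lam‖ < 1 / 2 → lead e a z ≠ 0 := by
  by_contra hcon
  push Not at hcon
  set q : ℂ[X] := ∑ i ∈ Finset.range (e + 1), monomial i (a i (e - i)) with hq
  have hev : ∀ z, q.eval z = lead e a z := by
    intro z
    rw [hq, eval_finsetSum]
    unfold lead
    exact Finset.sum_congr rfl fun i _ => by rw [eval_monomial]
  have hc : q.coeff i = a i j := by
    rw [hq, finsetSum_coeff]
    simp only [coeff_monomial]
    rw [Finset.sum_ite_eq' (Finset.range (e + 1)) i (fun x => a x (e - x)),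
      if_pos (Finset.mem_range.2 (by omega))]
    congr 1
    omega
  have hq0 : q ≠ 0 := by
    intro h0
    rw [h0, coeff_zero] at hc
    exact h hc.symm
  have hdeg : q.natDegree ≤ 6 := by
    refine (natDegree_sum_le_of_forall_le _ _ (n := e) ?_).trans he
    intro i hi
    rw [Finset.mem_range] at hi
    exact (natDegree_monomial_le _).trans (by omega)
  choose z hz using fun l : Fin 7 => hcon l.1 (by omega)
  have hinj : Function.Injective z := by
    intro l m hlm
    have h1 := (hz l).1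
    have h2 := (hz m).1
    rw [← hlm] at h2
    have h3 : ‖((l.1 : ℂ)) - (m.1 : ℂ)‖ < 1 := by
      calc ‖((l.1 : ℂ)) - (m.1 : ℂ)‖ = ‖(z l - m.1) - (z l - l.1)‖ := by congr 1; ring
        _ ≤ ‖z l - m.1‖ + ‖z l - l.1‖ := norm_sub_le _ _
        _ < 1 := by linarith
    have h4 : ((l.1 : ℂ)) - (m.1 : ℂ) = (((l.1 : ℤ) - (m.1 : ℤ) : ℤ) : ℂ) := by push_cast; ring
    rw [h4, Complex.norm_intCast] at h3
    have h5 : |((l.1 : ℤ) - (m.1 : ℤ))| < 1 := by exact_mod_cast h3
    have h6 := abs_lt.1 h5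
    apply Fin.ext
    omega
  have hsub : Finset.univ.image z ⊆ q.roots.toFinset := by
    intro w hw
    rw [Finset.mem_image] at hw
    obtain ⟨l, _, rfl⟩ := hw
    rw [Multiset.mem_toFinset, mem_roots hq0, IsRoot.def, hev]
    exact (hz l).2
  have hcard := Finset.card_le_card hsub
  rw [Finset.card_image_of_injective _ hinj, Finset.card_univ, Fintype.card_fin] at hcard
  have h7 : q.roots.toFinset.card ≤ 6 :=
    (Multiset.toFinset_card_le _).trans ((card_roots' q).trans hdeg)
  omega

end H37.LM
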