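import Pool.Agent.H37.LM.Shear

/-!
# Condition (G1) near `g`   [H37 LM NearOne]

Proof.  Let `Hx (a, x, y) = ∑_{i + j = 6} i a i j x ^ (i-1) y ^ j`, `Hy` similarly (partial derivatives of the
homogeneous component of degree 6).  For `a = gS`: `Hx = 6 x ^ 5 + y ^ 5`, `Hy = 5 x y ^ 4`, which vanish
simultaneously only at `(0, 0)`.  On the compact set `max ‖x‖ ‖y‖ = 1`, `‖Hx‖ + ‖Hy‖ ≥ 2 η > 0`; for
`‖a i j - gS i j‖ < δ` small, `‖Hx‖ + ‖Hy‖ ≥ η` there, and by homogeneity `(Hx, Hy) ≠ 0` outside of the origin.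
Now let `F w = (formP 6 (shr lam a)).eval w = H (1 + lam w, w)` (`formP_shr`), `F' w = lam Hx + Hy` at
`(x, y) = (1 + lam w, w)`.  Euler: `6 H = x Hx + y Hy`.  If `F w = F' w = 0` then `Hy = - lam Hx` and
`0 = (1 + lam w) Hx - lam w Hx = Hx`, `Hy = 0`, but `(1 + lam w, w) ≠ (0, 0)`.
-/

noncomputable section

open Polynomial

namespace H37.LM

theorem near_term (k i j : ℕ) (e x y : ℂ) (δ M : ℝ) (hδ : 0 ≤ δ) (hM : 0 ≤ M) (he : ‖e‖ ≤ δ)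
    (hx : ‖x‖ ≤ M) (hy : ‖y‖ ≤ M) (hij : i + j = 5) :
    ‖(k : ℂ) * e * x ^ i * y ^ j‖ ≤ k * δ * M ^ 5 := by
  rw [norm_mul, norm_mul, norm_mul, norm_pow, norm_pow, Complex.norm_natCast, ← hij, pow_add,
    ← mul_assoc]
  gcongr

/-- The two partial derivatives of a small perturbation of `g` have no common zero. -/
theorem near_zero (e0 e1 e2 e3 e4 e5 e6 x y : ℂ) (h0 : ‖e0‖ ≤ 1 / 100) (h1 : ‖e1‖ ≤ 1 / 100)
    (h2 : ‖e2‖ ≤ 1 / 100) (h3 : ‖e3‖ ≤ 1 / 100) (h4 : ‖e4‖ ≤ 1 / 100) (h5 : ‖e5‖ ≤ 1 / 100)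
    (h6 : ‖e6‖ ≤ 1 / 100)
    (hX : (e1 + 1) * y ^ 5 + 2 * e2 * x * y ^ 4 + 3 * e3 * x ^ 2 * y ^ 3 +
      4 * e4 * x ^ 3 * y ^ 2 + 5 * e5 * x ^ 4 * y + 6 * (e6 + 1) * x ^ 5 = 0)
    (hY : 6 * e0 * y ^ 5 + 5 * (e1 + 1) * x * y ^ 4 + 4 * e2 * x ^ 2 * y ^ 3 +
      3 * e3 * x ^ 3 * y ^ 2 + 2 * e4 * x ^ 4 * y + e5 * x ^ 5 = 0) : x = 0 ∧ y = 0 := by
  have key : ∀ M : ℝ, ‖x‖ ≤ M → ‖y‖ ≤ M → ‖6 * x ^ 5 + y ^ 5‖ ≤ 21 / 100 * M ^ 5 ∧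
      ‖5 * x * y ^ 4‖ ≤ 21 / 100 * M ^ 5 := by
    intro M hx hy
    have hM : 0 ≤ M := (norm_nonneg x).trans hx
    have t := fun (k i j : ℕ) (e : ℂ) (he : ‖e‖ ≤ 1 / 100) (hij : i + j = 5) =>
      near_term k i j e x y (1 / 100) M (by norm_num) hM he hx hy hij
    constructor
    · have e : 6 * x ^ 5 + y ^ 5 = -(((1 : ℕ) : ℂ) * e1 * x ^ 0 * y ^ 5 +
          ((2 : ℕ) : ℂ) * e2 * x ^ 1 * y ^ 4 + ((3 : ℕ) : ℂ) * e3 * x ^ 2 * y ^ 3 +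
          ((4 : ℕ) : ℂ) * e4 * x ^ 3 * y ^ 2 + ((5 : ℕ) : ℂ) * e5 * x ^ 4 * y ^ 1 +
          ((6 : ℕ) : ℂ) * e6 * x ^ 5 * y ^ 0) := by
        push_cast
        linear_combination hX
      rw [e, norm_neg]
      have b1 := t 1 0 5 e1 h1 rfl
      have b2 := t 2 1 4 e2 h2 rfl
      have b3 := t 3 2 3 e3 h3 rfl
      have b4 := t 4 3 2 e4 h4 rfl
      have b5 := t 5 4 1 e5 h5 rfl
      have b6 := t 6 5 0 e6 h6 rfl
      refine (norm_add_le _ _).trans ?_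
      refine (add_le_add_left ((norm_add_le _ _).trans (add_le_add_left ((norm_add_le _ _).trans
        (add_le_add_left ((norm_add_le _ _).trans (add_le_add_left (norm_add_le _ _) _)) _))
        _)) _).trans ?_
      push_cast at b1 b2 b3 b4 b5 b6 ⊢
      linarith
    · have e : 5 * x * y ^ 4 = -(((6 : ℕ) : ℂ) * e0 * x ^ 0 * y ^ 5 +
          ((5 : ℕ) : ℂ) * e1 * x ^ 1 * y ^ 4 + ((4 : ℕ) : ℂ) * e2 * x ^ 2 * y ^ 3 +
          ((3 : ℕ) : ℂ) * e3 * x ^ 3 * y ^ 2 + ((2 : ℕ) : ℂ) * e4 * x ^ 4 * y ^ 1 +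
          ((1 : ℕ) : ℂ) * e5 * x ^ 5 * y ^ 0) := by
        push_cast
        linear_combination hY
      rw [e, norm_neg]
      have b1 := t 6 0 5 e0 h0 rfl
      have b2 := t 5 1 4 e1 h1 rfl
      have b3 := t 4 2 3 e2 h2 rfl
      have b4 := t 3 3 2 e3 h3 rfl
      have b5 := t 2 4 1 e4 h4 rfl
      have b6 := t 1 5 0 e5 h5 rfl
      refine (norm_add_le _ _).trans ?_
      refine (add_le_add_left ((norm_add_le _ _).trans (add_le_add_left ((norm_add_le _ _).trans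
        (add_le_add_left ((norm_add_le _ _).trans (add_le_add_left (norm_add_le _ _) _)) _))
        _)) _).trans ?_
      push_cast at b1 b2 b3 b4 b5 b6 ⊢
      linarith
  have hXY : ‖5 * x * y ^ 4‖ = 5 * ‖x‖ * ‖y‖ ^ 4 := by
    rw [norm_mul, norm_mul, norm_pow, Complex.norm_ofNat]
  have l1 : 6 * ‖x‖ ^ 5 ≤ ‖6 * x ^ 5 + y ^ 5‖ + ‖y‖ ^ 5 := by
    have e : 6 * x ^ 5 = (6 * x ^ 5 + y ^ 5) - y ^ 5 := by ring
    calc 6 * ‖x‖ ^ 5 = ‖6 * x ^ 5‖ := by rw [norm_mul, norm_pow, Complex.norm_ofNat]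
      _ = ‖(6 * x ^ 5 + y ^ 5) - y ^ 5‖ := by rw [← e]
      _ ≤ ‖6 * x ^ 5 + y ^ 5‖ + ‖y ^ 5‖ := norm_sub_le _ _
      _ = _ := by rw [norm_pow]
  have l2 : ‖y‖ ^ 5 ≤ ‖6 * x ^ 5 + y ^ 5‖ + 6 * ‖x‖ ^ 5 := by
    have e : y ^ 5 = (6 * x ^ 5 + y ^ 5) - 6 * x ^ 5 := by ring
    calc ‖y‖ ^ 5 = ‖y ^ 5‖ := by rw [norm_pow]
      _ = ‖(6 * x ^ 5 + y ^ 5) - 6 * x ^ 5‖ := by rw [← e]
      _ ≤ ‖6 * x ^ 5 + y ^ 5‖ + ‖6 * x ^ 5‖ := norm_sub_le _ _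
      _ = _ := by rw [norm_mul 6, norm_pow, Complex.norm_ofNat]
  rcases le_total ‖y‖ ‖x‖ with h | h
  · obtain ⟨k1, k2⟩ := key ‖x‖ le_rfl h
    have h7 : ‖y‖ ^ 5 ≤ ‖x‖ ^ 5 := pow_le_pow_left₀ (norm_nonneg _) h 5
    have h8 : ‖x‖ ^ 5 ≤ 0 := by linarith
    have h9 : ‖x‖ = 0 := by
      have h10 : ‖x‖ ^ 5 = 0 := le_antisymm h8 (by positivity)
      simpa using h10
    have h10 : ‖y‖ = 0 := le_antisymm (by linarith) (norm_nonneg _)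
    exact ⟨norm_eq_zero.1 h9, norm_eq_zero.1 h10⟩
  · obtain ⟨k1, k2⟩ := key ‖y‖ h le_rfl
    rw [hXY] at k2
    by_cases hy0 : ‖y‖ = 0
    · refine ⟨norm_eq_zero.1 (le_antisymm (by linarith) (norm_nonneg _)), norm_eq_zero.1 hy0⟩
    · exfalso
      have hypos : 0 < ‖y‖ := lt_of_le_of_ne (norm_nonneg _) (Ne.symm hy0)
      have h7 : ‖x‖ ≤ ‖y‖ / 2 := by
        have h8 : ‖y‖ ^ 4 * (5 * ‖x‖) ≤ ‖y‖ ^ 4 * (21 / 100 * ‖y‖) := by
          calc ‖y‖ ^ 4 * (5 * ‖x‖) = 5 * ‖x‖ * ‖y‖ ^ 4 := by ring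
            _ ≤ 21 / 100 * ‖y‖ ^ 5 := k2
            _ = ‖y‖ ^ 4 * (21 / 100 * ‖y‖) := by ring
        have h9 := le_of_mul_le_mul_left h8 (by positivity)
        linarith
      have h8 : ‖x‖ ^ 5 ≤ (‖y‖ / 2) ^ 5 := pow_le_pow_left₀ (norm_nonneg _) h7 5
      rw [div_pow] at h8
      have h9 : 0 < ‖y‖ ^ 5 := by positivity
      norm_num at h8
      linarith

theorem near_g1 : ∃ δ > 0, ∀ a : ℕ → ℕ → ℂ, (∀ i j, ‖a i j - gS i j‖ < δ) → ∀ lam p : ℂ,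
    ¬ ((formP 6 (shr lam a)).eval p = 0 ∧ (derivative (formP 6 (shr lam a))).eval p = 0) := by
  refine ⟨1 / 100, by norm_num, fun a ha lam p => ?_⟩
  rintro ⟨hF, hF'⟩
  have hQ : formP 6 (shr lam a) = ∑ i ∈ Finset.range (6 + 1),
      C (a i (6 - i)) * (1 + C lam * X) ^ i * X ^ (6 - i) := by
    apply Polynomial.funext
    intro w
    rw [formP_shr, eval_finsetSum]
    refine Finset.sum_congr rfl fun i _ => ?_
    simp
  rw [formP_shr] at hF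
  rw [hQ] at hF'
  have d : ∀ i j : ℕ, derivative (C (a i j) * (1 + C lam * X) ^ i * X ^ j : ℂ[X]) =
      C (a i j) * (C (i : ℂ) * (1 + C lam * X) ^ (i - 1) * C lam) * X ^ j +
        C (a i j) * (1 + C lam * X) ^ i * (C (j : ℂ) * X ^ (j - 1)) := by
    intro i j
    rw [derivative_mul, derivative_mul, derivative_C, derivative_pow, derivative_X_pow]
    simp
  rw [derivative_sum, eval_finsetSum] at hF'
  simp only [d] at hF'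
  simp only [Finset.sum_range_succ, Finset.sum_range_zero, eval_add, eval_mul, eval_pow, eval_C,
    eval_X, eval_one] at hF hF'
  norm_num at hF hF'
  have b := fun i j => (ha i j).le
  have b0 := b 0 6
  have b1 := b 1 5
  have b2 := b 2 4
  have b3 := b 3 3
  have b4 := b 4 2
  have b5 := b 5 1
  have b6 := b 6 0
  simp only [gS] at b0 b1 b2 b3 b4 b5 b6
  norm_num at b0 b1 b2 b3 b4 b5 b6
  obtain ⟨hx0, hy0⟩ := near_zero (a 0 6) (a 1 5 - 1) (a 2 4) (a 3 3) (a 4 2) (a 5 1) (a 6 0 - 1)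
    (1 + lam * p) p (by norm_num; exact b0) (by norm_num; exact b1) (by norm_num; exact b2)
    (by norm_num; exact b3) (by norm_num; exact b4) (by norm_num; exact b5)
    (by norm_num; exact b6)
    (by linear_combination 6 * hF - p * hF')
    (by linear_combination (-6 * lam) * hF + (1 + lam * p) * hF')
  rw [hy0] at hx0
  simp at hx0

end H37.LM
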