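import Pool.Agent.H37.LM.Alg0

/-!
# Common divisors from a common zero   [H37 LM PolyGcd]

Proof.  Let `φ : F[X][X] →+* Ω` be injective on `F[X]`.  Let `H ∈ {H1, H2}` be nonzero with `φ H = 0`.
`F[X][X]` is a unique factorisation domain; `φ H = 0` and `Ω` is a domain, so some irreducible factor
`P` of `H` satisfies `φ P = 0`.  `P` is not constant in the outer variable (`φ` is injective on
constants), so `P` is primitive and irreducible over `K = FractionRing F[X]`
(`Polynomial.IsPrimitive.irreducible_iff_irreducible_map_fraction_map`; irreducible of positive degree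
implies primitive: `Irreducible.isPrimitive`).
For `G` with `φ G = 0`: if `P` does not divide `G`, then over `K` they are coprime (`K[X]` is a PID), so
`A * P + B * G = C c` with `A, B ∈ F[X][X]` and `0 ≠ c ∈ F[X]` after clearing denominators, and applying
`φ` gives `φ (C c) = 0`, a contradiction.  (Gauss: `P ∣ G` over `K` implies `P ∣ G` over `F[X]`:
`Polynomial.IsPrimitive.dvd_iff_fraction_map_dvd_fraction_map` or
`Polynomial.IsPrimitive.Int...`; see `Mathlib/RingTheory/Polynomial/GaussLemma.lean`.)
-/

noncomputable section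

open Polynomial

namespace H37.LM

variable {F : Type*} [Field F]

theorem clear_denom (A : (FractionRing F[X])[X]) :
    ∃ (c : F[X]) (B : F[X][X]), c ≠ 0 ∧
      B.map (algebraMap F[X] (FractionRing F[X])) = C (algebraMap F[X] (FractionRing F[X]) c) * A := by
  obtain ⟨b, hbm, hb⟩ := IsLocalization.integerNormalization_spec (nonZeroDivisors F[X]) A
  refine ⟨b, IsLocalization.integerNormalization (nonZeroDivisors F[X]) A,
    nonZeroDivisors.ne_zero hbm, ?_⟩
  · rw [hb]
    ext n
    rw [coeff_C_mul, coeff_smul]
    rw [Algebra.smul_def]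

theorem poly_gcd {Ω : Type*} [Field Ω] (φ : F[X][X] →+* Ω)
    (hφ : Function.Injective (φ.comp (Polynomial.C : F[X] →+* F[X][X]))) (H1 H2 : F[X][X])
    (h1 : φ H1 = 0) (h2 : φ H2 = 0) (hne : H1 ≠ 0 ∨ H2 ≠ 0) :
    ∃ P : F[X][X], P ≠ 0 ∧ P ∣ H1 ∧ P ∣ H2 ∧ φ P = 0 := by
  classical
  have key : ∀ H : F[X][X], H ≠ 0 → φ H = 0 → ∃ P : F[X][X], Irreducible P ∧ φ P = 0 := by
    intro H hH hφH
    obtain ⟨f, hf, hfa⟩ := UniqueFactorizationMonoid.exists_prime_factors H hH
    have hprod : φ f.prod = 0 := by
      obtain ⟨u, hu⟩ := hfa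
      have h3 : φ f.prod * φ (u : F[X][X]) = 0 := by
        rw [← map_mul, hu, hφH]
      rcases mul_eq_zero.1 h3 with h4 | h4
      · exact h4
      · exfalso
        have h5 : φ ((u : F[X][X]) * ((u⁻¹ : (F[X][X])ˣ) : F[X][X])) = 1 := by
          rw [Units.mul_inv, map_one]
        rw [map_mul, h4, zero_mul] at h5
        exact zero_ne_one h5
    rw [map_multiset_prod, Multiset.prod_eq_zero_iff, Multiset.mem_map] at hprod
    obtain ⟨P, hP, hP0⟩ := hprod
    exact ⟨P, (hf P hP).irreducible, hP0⟩
  have hC : ∀ c : F[X], φ (C c) = 0 → c = 0 := by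
    intro c hc
    apply hφ
    rw [RingHom.comp_apply, hc, RingHom.comp_apply, map_zero, map_zero]
  obtain ⟨P, hPi, hP0⟩ : ∃ P : F[X][X], Irreducible P ∧ φ P = 0 := by
    rcases hne with h | h
    · exact key H1 h h1
    · exact key H2 h h2
  have hdeg : P.natDegree ≠ 0 := by
    intro h0
    rw [natDegree_eq_zero] at h0
    obtain ⟨c, hc⟩ := h0
    have : c = 0 := hC c (by rw [hc, hP0])
    rw [this, map_zero] at hc
    exact hPi.ne_zero hc.symm
  have hprime : Prime P := hPi.prime
  have hdvd : ∀ G : F[X][X], φ G = 0 → P ∣ G := by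
    intro G hG
    have hPK : Irreducible (P.map (algebraMap F[X] (FractionRing F[X]))) :=
      (IsPrimitive.irreducible_iff_irreducible_map_fraction_map
        (hPi.isPrimitive hdeg)).1 hPi
    have hinj : Function.Injective (Polynomial.map (algebraMap F[X] (FractionRing F[X]))) :=
      Polynomial.map_injective _ (IsFractionRing.injective _ _)
    by_cases hd : P.map (algebraMap F[X] (FractionRing F[X])) ∣
        G.map (algebraMap F[X] (FractionRing F[X]))
    · obtain ⟨A, hA⟩ := hd
      obtain ⟨c, B, hc, hB⟩ := clear_denom A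
      have h3 : C c * G = P * B := by
        apply hinj
        rw [Polynomial.map_mul, Polynomial.map_mul, map_C, hB, hA]
        ring
      have h4 : P ∣ C c * G := ⟨B, h3⟩
      rcases hprime.dvd_or_dvd h4 with h5 | h5
      · exfalso
        have h6 := natDegree_le_of_dvd h5 (by simpa using hc)
        rw [natDegree_C] at h6
        omega
      · exact h5
    · exfalso
      have hcop : IsCoprime (P.map (algebraMap F[X] (FractionRing F[X])))
          (G.map (algebraMap F[X] (FractionRing F[X]))) :=
        (hPK.coprime_iff_not_dvd).2 hd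
      obtain ⟨a, b, hab⟩ := hcop
      obtain ⟨c, A, hc, hA⟩ := clear_denom a
      obtain ⟨d, B, hd', hB⟩ := clear_denom b
      have h3 : C (c * d) = C d * A * P + C c * B * G := by
        apply hinj
        rw [Polynomial.map_add, Polynomial.map_mul, Polynomial.map_mul, Polynomial.map_mul,
          Polynomial.map_mul, map_C, map_C, map_C, hA, hB, map_mul, C_mul]
        linear_combination (-(C (algebraMap F[X] (FractionRing F[X]) c) *
          C (algebraMap F[X] (FractionRing F[X]) d))) * hab
      have h4 : φ (C (c * d)) = 0 := by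
        rw [h3, map_add, map_mul φ (C d * A) P, map_mul φ (C c * B) G, hP0, hG, mul_zero,
          mul_zero, add_zero]
      exact mul_ne_zero hc hd' (hC _ h4)
  exact ⟨P, hPi.ne_zero, hdvd H1 h1, hdvd H2 h2, hP0⟩

end H37.LM
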