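import Pool.Agent.H37.LM.Fun

/-!
# Local solutions from polynomial identities   [H37 LM PolyLoc]

Proof.  Take `α = - A / U`, `β = - B / U` (evaluations at `(x, w)`); the evaluation map
`(s, w, x) ↦ (P s).evalEval x w` of a `SmoothPoly` is a finite sum
`∑ ((P s).coeff j).coeff i * x ^ i * w ^ j` near `s0`, hence smooth at `(s0, w0, 0)`, and `U` does
not vanish there, nor nearby.
-/

noncomputable section

open Set Filter Topology Polynomial
open scoped ContDiff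

namespace H37.LM

/-- A family of polynomials in two variables of bounded degree with coefficients smooth on `V`. -/
def SmoothPoly {m : ℕ} (V : Set (Fin m → ℝ)) (P : (Fin m → ℝ) → ℂ[X][X]) : Prop :=
  (∃ N : ℕ, ∀ s ∈ V, ∀ i j, N < i + j → ((P s).coeff j).coeff i = 0) ∧
  ∀ i j, ContDiffOn ℝ ∞ (fun s => ((P s).coeff j).coeff i) V

private theorem polyLoc_evalEval {N : ℕ} (p : ℂ[X][X])
    (h : ∀ i j, N < i + j → (p.coeff j).coeff i = 0) (x w : ℂ) :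
    p.evalEval x w = ∑ j ∈ Finset.range (N + 1), ∑ i ∈ Finset.range (N + 1),
      (p.coeff j).coeff i * x ^ i * w ^ j := by
  have h1 : p.natDegree < N + 1 := by
    rw [Nat.lt_succ_iff, Polynomial.natDegree_le_iff_coeff_eq_zero]
    intro j hj
    ext i
    rw [Polynomial.coeff_zero]
    exact h i j (by omega)
  have h2 : ∀ j, (p.coeff j).natDegree < N + 1 := by
    intro j
    rw [Nat.lt_succ_iff, Polynomial.natDegree_le_iff_coeff_eq_zero]
    intro i hi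
    exact h i j (by omega)
  unfold Polynomial.evalEval
  rw [Polynomial.eval_eq_sum_range' h1, Polynomial.eval_finsetSum]
  refine Finset.sum_congr rfl fun j _ => ?_
  rw [Polynomial.eval_mul, Polynomial.eval_pow, Polynomial.eval_C,
    Polynomial.eval_eq_sum_range' (h2 j), Finset.sum_mul]

theorem SmoothPoly.contDiffAt {m : ℕ} {V : Set (Fin m → ℝ)} {P : (Fin m → ℝ) → ℂ[X][X]}
    (hP : SmoothPoly V P) (hV : IsOpen V) {s0 : Fin m → ℝ} (hs0 : s0 ∈ V) (w0 x0 : ℂ) :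
    ContDiffAt ℝ 1 (fun z : (Fin m → ℝ) × ℂ × ℂ => (P z.1).evalEval z.2.2 z.2.1)
      (s0, w0, x0) := by
  obtain ⟨⟨N, hN⟩, hs⟩ := hP
  have h1 : ContDiffAt ℝ 1 (fun z : (Fin m → ℝ) × ℂ × ℂ =>
      ∑ j ∈ Finset.range (N + 1), ∑ i ∈ Finset.range (N + 1),
        ((P z.1).coeff j).coeff i * z.2.2 ^ i * z.2.1 ^ j) (s0, w0, x0) := by
    refine ContDiffAt.sum fun j _ => ContDiffAt.sum fun i _ => ?_
    have h2 : ContDiffAt ℝ 1 (fun s => ((P s).coeff j).coeff i) s0 :=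
      ((hs i j).contDiffAt (hV.mem_nhds hs0)).of_le (by exact_mod_cast le_top)
    have h3 : ContDiffAt ℝ 1 (fun z : (Fin m → ℝ) × ℂ × ℂ => ((P z.1).coeff j).coeff i)
        (s0, w0, x0) := h2.comp (s0, w0, x0) contDiffAt_fst
    have h4 : ContDiffAt ℝ 1 (fun z : (Fin m → ℝ) × ℂ × ℂ => z.2.2) (s0, w0, x0) :=
      (contDiff_snd.comp contDiff_snd).contDiffAt
    have h5 : ContDiffAt ℝ 1 (fun z : (Fin m → ℝ) × ℂ × ℂ => z.2.1) (s0, w0, x0) :=
      (contDiff_fst.comp contDiff_snd).contDiffAt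
    exact (h3.mul (h4.pow i)).mul (h5.pow j)
  refine h1.congr_of_eventuallyEq ?_
  have h2 : ∀ᶠ z : (Fin m → ℝ) × ℂ × ℂ in 𝓝 (s0, w0, x0), z.1 ∈ V :=
    continuousAt_fst.eventually (hV.mem_nhds hs0)
  filter_upwards [h2] with z hz
  exact polyLoc_evalEval (P z.1) (hN z.1 hz) z.2.2 z.2.1

theorem polyLoc {m : ℕ} {V : Set (Fin m → ℝ)} (hV : IsOpen V) {s0 : Fin m → ℝ} (hs0 : s0 ∈ V)
    (w0 : ℂ) (A B U T Q W : (Fin m → ℝ) → ℂ[X][X])
    (hA : SmoothPoly V A) (hB : SmoothPoly V B) (hU : SmoothPoly V U)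
    (h0 : (U s0).evalEval 0 w0 ≠ 0) (hid : ∀ s ∈ V, U s * T s = A s * Q s + B s * W s) :
    ∃ α β : (Fin m → ℝ) × ℂ × ℂ → ℂ,
      ContDiffAt ℝ 1 α (s0, w0, (0 : ℂ)) ∧ ContDiffAt ℝ 1 β (s0, w0, (0 : ℂ)) ∧
      ∀ᶠ z in 𝓝 (s0, w0, (0 : ℂ)),
        (T z.1).evalEval z.2.2 z.2.1 + α z * (Q z.1).evalEval z.2.2 z.2.1 +
          β z * (W z.1).evalEval z.2.2 z.2.1 = 0 := by
  have cA := hA.contDiffAt hV hs0 w0 0
  have cB := hB.contDiffAt hV hs0 w0 0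
  have cU := hU.contDiffAt hV hs0 w0 0
  have cI : ContDiffAt ℝ 1 (fun z : (Fin m → ℝ) × ℂ × ℂ => ((U z.1).evalEval z.2.2 z.2.1)⁻¹)
      (s0, w0, 0) := cU.inv h0
  refine ⟨fun z => -((A z.1).evalEval z.2.2 z.2.1 * ((U z.1).evalEval z.2.2 z.2.1)⁻¹),
    fun z => -((B z.1).evalEval z.2.2 z.2.1 * ((U z.1).evalEval z.2.2 z.2.1)⁻¹), ?_, ?_, ?_⟩
  · exact (cA.mul cI).neg
  · exact (cB.mul cI).neg
  · have h1 : ∀ᶠ z : (Fin m → ℝ) × ℂ × ℂ in 𝓝 (s0, w0, (0 : ℂ)), z.1 ∈ V :=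
      continuousAt_fst.eventually (hV.mem_nhds hs0)
    have h2 : ∀ᶠ z : (Fin m → ℝ) × ℂ × ℂ in 𝓝 (s0, w0, (0 : ℂ)),
        (U z.1).evalEval z.2.2 z.2.1 ≠ 0 := cU.continuousAt.eventually_ne h0
    filter_upwards [h1, h2] with z hz hzU
    have h3 := congrArg (Polynomial.evalEval z.2.2 z.2.1) (hid z.1 hz)
    rw [Polynomial.evalEval_mul, Polynomial.evalEval_add, Polynomial.evalEval_mul,
      Polynomial.evalEval_mul] at h3
    field_simp
    linear_combination h3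

end H37.LM
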