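import Pool.Agent.H37.LM.QuadDef

/-!
# The quadratic system, unequal orders   [H37 LM QuadB]

All statements are about divisibility by powers of `X` in `F⟦X⟧`.  `D1 D` and `th F` preserve
divisibility by `X ^ n` (`IsDer.dvd` for `D1 D`, since `D1 D X = 0`; for `th F` use `coeff_th` and
`X_pow_dvd_iff`).

* `w1_dvd`: `Q0q` and `D1 D f0` are divisible by `X ^ B`, `Q1q` and `T1q` by `X ^ (A + C)`.
* `quadB`: `Q0q e f0 = X ^ B * ((e + B) u + th u)`, and the constant coefficient of the second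
  factor is `(e + B) u(0) ≠ 0` (characteristic `0`, `1 ≤ e`).  `κ Q1q ^ 2` is divisible by
  `X ^ (3 A + 2 C)` and `2 B < 3 A + 2 C`, so `Dlt = X ^ (2 B) * unit`.  `W0q` is divisible by
  `X ^ (2 B)`.  Apply `quadSol_of_dvd`.
* `quadC`: `κ = X ^ A * k`, `g1 = X ^ C * g`: `Q1q = - X ^ (A + C) * ((2 e + 2 C + 3 A) k g +
  2 k th g + 3 g th k)`, with constant coefficient `- (2 e + 2 C + 3 A) k(0) g(0) ≠ 0`.  `Q0q ^ 2` is
  divisible by `X ^ (2 B)`, `2 B > 3 A + 2 C`, so `Dlt = X ^ (3 A + 2 C) * unit`; `W0q` is divisible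
  by `X ^ (3 A + 2 C)`.
-/

noncomputable section

open PowerSeries

namespace H37.LM

variable {F : Type*} [Field F] [CharZero F]

omit [CharZero F] in
theorem th_X_pow_mul (n : ℕ) (u : F⟦X⟧) :
    th F (X ^ n * u) = X ^ n * ((n : F⟦X⟧) * u + th F u) := by
  rw [th_isDer, th_isDer.pow, th_X]
  rcases n with _ | n
  · simp
  · rw [Nat.add_sub_cancel]
    ring

omit [CharZero F] in
theorem qb_D1_X_pow (D : Derivation ℤ F F) (n : ℕ) : D1 D ((X : F⟦X⟧) ^ n) = 0 := by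
  rw [(D1_isDer D).pow, D1_X, mul_zero]

omit [CharZero F] in
theorem qb_D1_dvd (D : Derivation ℤ F F) {n : ℕ} {f : F⟦X⟧} (h : (X : F⟦X⟧) ^ n ∣ f) :
    (X : F⟦X⟧) ^ n ∣ D1 D f :=
  (D1_isDer D).dvd (qb_D1_X_pow D n) h

omit [CharZero F] in
theorem qb_th_dvd {n : ℕ} {f : F⟦X⟧} (h : (X : F⟦X⟧) ^ n ∣ f) :
    (X : F⟦X⟧) ^ n ∣ th F f := by
  obtain ⟨u, rfl⟩ := h
  rw [th_X_pow_mul]
  exact dvd_mul_right _ _

omit [CharZero F] in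
theorem qb_Q0q_dvd (e : ℕ) {B : ℕ} {f0 : F⟦X⟧} (hf : (X : F⟦X⟧) ^ B ∣ f0) :
    (X : F⟦X⟧) ^ B ∣ Q0q e f0 :=
  dvd_add (dvd_mul_of_dvd_right hf _) (qb_th_dvd hf)

omit [CharZero F] in
theorem qb_T1q_dvd {A C' : ℕ} {κ g1 : F⟦X⟧} (hκ : (X : F⟦X⟧) ^ A ∣ κ)
    (hg : (X : F⟦X⟧) ^ C' ∣ g1) (D : Derivation ℤ F F) :
    (X : F⟦X⟧) ^ (A + C') ∣ T1q κ g1 D := by
  unfold T1q
  rw [dvd_neg]
  have h1 : (X : F⟦X⟧) ^ (A + C') ∣ κ * D1 D g1 := by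
    rw [pow_add]; exact mul_dvd_mul hκ (qb_D1_dvd D hg)
  have h2 : (X : F⟦X⟧) ^ (A + C') ∣ D1 D κ * g1 := by
    rw [pow_add]; exact mul_dvd_mul (qb_D1_dvd D hκ) hg
  have h : 2 * κ * D1 D g1 + 3 * g1 * D1 D κ = 2 * (κ * D1 D g1) + 3 * (D1 D κ * g1) := by
    ring
  rw [h]
  exact dvd_add (dvd_mul_of_dvd_right h1 _) (dvd_mul_of_dvd_right h2 _)

omit [CharZero F] in
theorem qb_Q1q_dvd (e : ℕ) {A C' : ℕ} {κ g1 : F⟦X⟧} (hκ : (X : F⟦X⟧) ^ A ∣ κ)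
    (hg : (X : F⟦X⟧) ^ C' ∣ g1) :
    (X : F⟦X⟧) ^ (A + C') ∣ Q1q e κ g1 := by
  unfold Q1q
  rw [dvd_neg]
  have h0 : (X : F⟦X⟧) ^ (A + C') ∣ κ * g1 := by
    rw [pow_add]; exact mul_dvd_mul hκ hg
  have h1 : (X : F⟦X⟧) ^ (A + C') ∣ κ * th F g1 := by
    rw [pow_add]; exact mul_dvd_mul hκ (qb_th_dvd hg)
  have h2 : (X : F⟦X⟧) ^ (A + C') ∣ th F κ * g1 := by
    rw [pow_add]; exact mul_dvd_mul (qb_th_dvd hκ) hg
  have h : 2 * (e : F⟦X⟧) * κ * g1 + 2 * κ * th F g1 + 3 * g1 * th F κ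
      = 2 * (e : F⟦X⟧) * (κ * g1) + 2 * (κ * th F g1) + 3 * (th F κ * g1) := by
    ring
  rw [h]
  exact dvd_add (dvd_add (dvd_mul_of_dvd_right h0 _) (dvd_mul_of_dvd_right h1 _))
    (dvd_mul_of_dvd_right h2 _)

omit [CharZero F] in
theorem w1_dvd (e : ℕ) (f0 κ g1 : F⟦X⟧) (A B C' : ℕ) (hf : X ^ B ∣ f0) (hκ : X ^ A ∣ κ)
    (hg : X ^ C' ∣ g1) (D : Derivation ℤ F F) :
    (X : F⟦X⟧) ^ (A + B + C') ∣ W1q e f0 κ g1 D := by
  unfold W1q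
  have h : A + B + C' = B + (A + C') := by ring
  rw [h]
  refine dvd_sub ?_ ?_
  · rw [pow_add]
    exact mul_dvd_mul (qb_Q0q_dvd e hf) (qb_T1q_dvd hκ hg D)
  · rw [add_comm B (A + C'), pow_add]
    exact mul_dvd_mul (qb_Q1q_dvd e hκ hg) (qb_D1_dvd D hf)

omit [CharZero F] in
theorem qb_w0_dvd (e : ℕ) (f0 κ g1 : F⟦X⟧) (A B C' n : ℕ) (hf : X ^ B ∣ f0) (hκ : X ^ A ∣ κ)
    (hg : X ^ C' ∣ g1) (hn1 : n ≤ 2 * B) (hn2 : n ≤ 3 * A + 2 * C') (D : Derivation ℤ F F) :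
    (X : F⟦X⟧) ^ n ∣ W0q e f0 κ g1 D := by
  unfold W0q
  refine dvd_sub ?_ ?_
  · refine (pow_dvd_pow _ hn1).trans ?_
    rw [two_mul, pow_add]
    exact mul_dvd_mul (qb_Q0q_dvd e hf) (qb_D1_dvd D hf)
  · refine (pow_dvd_pow _ hn2).trans ?_
    have h : 3 * A + 2 * C' = A + (A + C') + (A + C') := by ring
    rw [h, pow_add, pow_add X A (A + C')]
    exact mul_dvd_mul (mul_dvd_mul hκ (qb_Q1q_dvd e hκ hg)) (qb_T1q_dvd hκ hg D)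

omit [CharZero F] in
/-- `X ^ n` times a series with nonzero constant coefficient. -/
theorem qb_dlt_dvd {n : ℕ} {d v w : F⟦X⟧} (hd : d = X ^ n * v) (hv : constantCoeff v ≠ 0)
    (hw : X ^ n ∣ w) : d ∣ w := by
  obtain ⟨w', rfl⟩ := hw
  have hu : IsUnit v := PowerSeries.isUnit_iff_constantCoeff.2 (isUnit_iff_ne_zero.2 hv)
  rw [hd]
  exact mul_dvd_mul_left _ (hu.dvd)

omit [CharZero F] in
theorem qb_dlt_ne {n : ℕ} {d v : F⟦X⟧} (hd : d = X ^ n * v) (hv : constantCoeff v ≠ 0) : d ≠ 0 := by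
  rw [hd]
  refine mul_ne_zero (pow_ne_zero _ X_ne_zero) ?_
  rintro rfl
  exact hv (map_zero _)

omit [CharZero F] in
theorem qb_constantCoeff_th (f : F⟦X⟧) : constantCoeff (th F f) = 0 := by
  rw [th_apply, map_mul, constantCoeff_X, zero_mul]

theorem quadB (e : ℕ) (he : 1 ≤ e) (f0 κ g1 u : F⟦X⟧) (A B C' : ℕ) (hf : f0 = X ^ B * u)
    (hu : constantCoeff u ≠ 0) (hκ : X ^ A ∣ κ) (hg : X ^ C' ∣ g1) (h : 2 * B < 3 * A + 2 * C') :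
    Dlt e f0 κ g1 ≠ 0 ∧ ∀ D : Derivation ℤ F F, X ^ (2 * B) ∣ W1q e f0 κ g1 D →
      ∃ s0 s1, QuadSol e f0 κ g1 s0 s1 D := by
  have hfd : (X : F⟦X⟧) ^ B ∣ f0 := by rw [hf]; exact dvd_mul_right _ _
  have hQ : Q0q e f0 = X ^ B * (((e + B : ℕ) : F⟦X⟧) * u + th F u) := by
    unfold Q0q
    rw [hf, th_X_pow_mul]
    push_cast
    ring
  have hK : (X : F⟦X⟧) ^ (2 * B + 1) ∣ κ * Q1q e κ g1 ^ 2 := by
    refine (pow_dvd_pow _ (by omega : 2 * B + 1 ≤ 3 * A + 2 * C')).trans ?_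
    have h : 3 * A + 2 * C' = A + ((A + C') + (A + C')) := by ring
    rw [h, pow_add, pow_add X (A + C') (A + C'), ← pow_two]
    exact mul_dvd_mul hκ (pow_dvd_pow_of_dvd (qb_Q1q_dvd e hκ hg) 2)
  obtain ⟨r, hr⟩ := hK
  have hD : Dlt e f0 κ g1 =
      X ^ (2 * B) * ((((e + B : ℕ) : F⟦X⟧) * u + th F u) ^ 2 - X * r) := by
    unfold Dlt
    rw [hr, hQ]
    ring
  have hc : constantCoeff ((((e + B : ℕ) : F⟦X⟧) * u + th F u) ^ 2 - X * r) ≠ 0 := by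
    rw [map_sub, map_pow, map_add, map_mul, qb_constantCoeff_th, map_mul, constantCoeff_X,
      map_natCast, zero_mul, sub_zero, add_zero]
    refine pow_ne_zero _ (mul_ne_zero ?_ hu)
    exact Nat.cast_ne_zero.2 (by omega)
  refine ⟨qb_dlt_ne hD hc, fun D hW => quadSol_of_dvd e f0 κ g1 D (qb_dlt_ne hD hc) ?_
    (qb_dlt_dvd hD hc hW)⟩
  exact qb_dlt_dvd hD hc (qb_w0_dvd e f0 κ g1 A B C' (2 * B) hfd hκ hg le_rfl h.le D)

theorem quadC (e : ℕ) (he : 1 ≤ e) (f0 κ g1 k g : F⟦X⟧) (A B C' : ℕ) (hf : X ^ B ∣ f0)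
    (hκ : κ = X ^ A * k) (hk : constantCoeff k ≠ 0) (hg1 : g1 = X ^ C' * g)
    (hg : constantCoeff g ≠ 0) (h : 3 * A + 2 * C' < 2 * B) :
    Dlt e f0 κ g1 ≠ 0 ∧ ∀ D : Derivation ℤ F F, X ^ (3 * A + 2 * C') ∣ W1q e f0 κ g1 D →
      ∃ s0 s1, QuadSol e f0 κ g1 s0 s1 D := by
  have hκd : (X : F⟦X⟧) ^ A ∣ κ := by rw [hκ]; exact dvd_mul_right _ _
  have hgd : (X : F⟦X⟧) ^ C' ∣ g1 := by rw [hg1]; exact dvd_mul_right _ _
  have hQ : Q1q e κ g1 = X ^ (A + C') * -(((2 * e + 2 * C' + 3 * A : ℕ) : F⟦X⟧) * (k * g) +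
      2 * k * th F g + 3 * g * th F k) := by
    unfold Q1q
    rw [hκ, hg1, th_X_pow_mul, th_X_pow_mul, pow_add]
    push_cast
    ring
  have hK : (X : F⟦X⟧) ^ (3 * A + 2 * C' + 1) ∣ Q0q e f0 ^ 2 := by
    refine (pow_dvd_pow _ (by omega : 3 * A + 2 * C' + 1 ≤ B * 2)).trans ?_
    rw [pow_mul]
    exact pow_dvd_pow_of_dvd (qb_Q0q_dvd e hf) 2
  obtain ⟨r, hr⟩ := hK
  have hD : Dlt e f0 κ g1 = X ^ (3 * A + 2 * C') * (X * r - k *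
      (-(((2 * e + 2 * C' + 3 * A : ℕ) : F⟦X⟧) * (k * g) +
      2 * k * th F g + 3 * g * th F k)) ^ 2) := by
    unfold Dlt
    rw [hr, hQ]
    generalize (-(((2 * e + 2 * C' + 3 * A : ℕ) : F⟦X⟧) * (k * g) +
      2 * k * th F g + 3 * g * th F k)) = z
    rw [hκ]
    ring
  have hc : constantCoeff (X * r - k *
      (-(((2 * e + 2 * C' + 3 * A : ℕ) : F⟦X⟧) * (k * g) +
      2 * k * th F g + 3 * g * th F k)) ^ 2) ≠ 0 := by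
    rw [map_sub, map_mul, constantCoeff_X, zero_mul, zero_sub, neg_ne_zero, map_mul, map_pow,
      map_neg, map_add, map_add, map_mul, map_mul, map_mul _ _ (th F g), map_mul _ _ (th F k),
      qb_constantCoeff_th, qb_constantCoeff_th, map_natCast, mul_zero, mul_zero, add_zero, add_zero]
    refine mul_ne_zero hk (pow_ne_zero _ (neg_ne_zero.2 (mul_ne_zero ?_ (mul_ne_zero hk hg))))
    exact Nat.cast_ne_zero.2 (by omega)
  refine ⟨qb_dlt_ne hD hc, fun D hW => quadSol_of_dvd e f0 κ g1 D (qb_dlt_ne hD hc) ?_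
    (qb_dlt_dvd hD hc hW)⟩
  exact qb_dlt_dvd hD hc (qb_w0_dvd e f0 κ g1 A B C' (3 * A + 2 * C') hf hκd hgd h.le le_rfl D)

end H37.LM
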