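import Pool.Agent.H37.LM.Alg0

/-!
# The quadratic system: definitions and easy lemmas

Modulo `P = w' ^ 2 - κ` one has `D2 D f ≡ D1 D f0 + (T1q κ g1 D) w'` and
`Qh e f ≡ Q0q e f0 + (Q1q e κ g1) w'` for `f = f0 + g1 (w' ^ 3 - 3 κ w') + P ^ 2 H`.
`QuadSol` says that the first element is `s0 + s1 w'` times the second one.
-/

noncomputable section

open PowerSeries

namespace H37.LM

variable {F : Type*} [Field F]

def T1q (κ g1 : F⟦X⟧) (D : Derivation ℤ F F) : F⟦X⟧ :=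
  -(2 * κ * D1 D g1 + 3 * g1 * D1 D κ)

def Q0q (e : ℕ) (f0 : F⟦X⟧) : F⟦X⟧ := e * f0 + th F f0

def Q1q (e : ℕ) (κ g1 : F⟦X⟧) : F⟦X⟧ :=
  -(2 * e * κ * g1 + 2 * κ * th F g1 + 3 * g1 * th F κ)

def QuadSol (e : ℕ) (f0 κ g1 s0 s1 : F⟦X⟧) (D : Derivation ℤ F F) : Prop :=
  D1 D f0 = Q0q e f0 * s0 + κ * Q1q e κ g1 * s1 ∧
    T1q κ g1 D = Q0q e f0 * s1 + Q1q e κ g1 * s0

/-- The determinant. -/
def Dlt (e : ℕ) (f0 κ g1 : F⟦X⟧) : F⟦X⟧ := Q0q e f0 ^ 2 - κ * Q1q e κ g1 ^ 2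

def W0q (e : ℕ) (f0 κ g1 : F⟦X⟧) (D : Derivation ℤ F F) : F⟦X⟧ :=
  Q0q e f0 * D1 D f0 - κ * Q1q e κ g1 * T1q κ g1 D

def W1q (e : ℕ) (f0 κ g1 : F⟦X⟧) (D : Derivation ℤ F F) : F⟦X⟧ :=
  Q0q e f0 * T1q κ g1 D - Q1q e κ g1 * D1 D f0

theorem quadSol_of_mul (e : ℕ) (f0 κ g1 s0 s1 : F⟦X⟧) (D : Derivation ℤ F F)
    (hΔ : Dlt e f0 κ g1 ≠ 0) (h0 : W0q e f0 κ g1 D = Dlt e f0 κ g1 * s0)
    (h1 : W1q e f0 κ g1 D = Dlt e f0 κ g1 * s1) : QuadSol e f0 κ g1 s0 s1 D := by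
  constructor
  · refine mul_left_cancel₀ hΔ ?_
    unfold W0q at h0
    unfold W1q at h1
    rw [Dlt] at *
    linear_combination Q0q e f0 * h0 + κ * Q1q e κ g1 * h1
  · refine mul_left_cancel₀ hΔ ?_
    unfold W0q at h0
    unfold W1q at h1
    rw [Dlt] at *
    linear_combination Q0q e f0 * h1 + Q1q e κ g1 * h0

theorem QuadSol.w0 {e : ℕ} {f0 κ g1 s0 s1 : F⟦X⟧} {D : Derivation ℤ F F}
    (h : QuadSol e f0 κ g1 s0 s1 D) : W0q e f0 κ g1 D = Dlt e f0 κ g1 * s0 := by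
  unfold W0q Dlt
  linear_combination Q0q e f0 * h.1 - κ * Q1q e κ g1 * h.2

theorem QuadSol.w1 {e : ℕ} {f0 κ g1 s0 s1 : F⟦X⟧} {D : Derivation ℤ F F}
    (h : QuadSol e f0 κ g1 s0 s1 D) : W1q e f0 κ g1 D = Dlt e f0 κ g1 * s1 := by
  unfold W1q Dlt
  linear_combination Q0q e f0 * h.2 - Q1q e κ g1 * h.1

theorem quadSol_of_dvd (e : ℕ) (f0 κ g1 : F⟦X⟧) (D : Derivation ℤ F F)
    (hΔ : Dlt e f0 κ g1 ≠ 0) (h0 : Dlt e f0 κ g1 ∣ W0q e f0 κ g1 D)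
    (h1 : Dlt e f0 κ g1 ∣ W1q e f0 κ g1 D) : ∃ s0 s1, QuadSol e f0 κ g1 s0 s1 D := by
  obtain ⟨s0, hs0⟩ := h0
  obtain ⟨s1, hs1⟩ := h1
  exact ⟨s0, s1, quadSol_of_mul e f0 κ g1 s0 s1 D hΔ hs0 hs1⟩

/-- Division of a linear map. -/
theorem lin_divide {M : Type*} [AddCommGroup M] [Module F M] (φ : M →ₗ[F] F⟦X⟧) (d : F⟦X⟧)
    (hd : d ≠ 0) (h : ∀ m, d ∣ φ m) : ∃ ψ : M →ₗ[F] F⟦X⟧, ∀ m, φ m = d * ψ m := by
  choose g hg using h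
  refine ⟨{ toFun := g, map_add' := fun m m' => ?_, map_smul' := fun c m => ?_ }, hg⟩
  · refine mul_left_cancel₀ hd ?_
    rw [← hg, map_add, hg m, hg m', mul_add]
  · refine mul_left_cancel₀ hd ?_
    rw [← hg, map_smul, hg m, RingHom.id_apply, mul_smul_comm]

/-- `D ↦ T1q κ g1 D` is linear. -/
def T1lin (κ g1 : F⟦X⟧) : Derivation ℤ F F →ₗ[F] F⟦X⟧ :=
  -(2 • (LinearMap.mulLeft F κ).comp (evD g1) + 3 • (LinearMap.mulLeft F g1).comp (evD κ))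

theorem T1lin_apply (κ g1 : F⟦X⟧) (D : Derivation ℤ F F) : T1lin κ g1 D = T1q κ g1 D := by
  simp [T1lin, T1q]
  ring

/-- `D ↦ W0q e f0 κ g1 D` is linear. -/
def W0lin (e : ℕ) (f0 κ g1 : F⟦X⟧) : Derivation ℤ F F →ₗ[F] F⟦X⟧ :=
  (LinearMap.mulLeft F (Q0q e f0)).comp (evD f0) -
    (LinearMap.mulLeft F (κ * Q1q e κ g1)).comp (T1lin κ g1)

theorem W0lin_apply (e : ℕ) (f0 κ g1 : F⟦X⟧) (D : Derivation ℤ F F) :
    W0lin e f0 κ g1 D = W0q e f0 κ g1 D := by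
  simp [W0lin, W0q, T1lin_apply, mul_assoc]

/-- `D ↦ W1q e f0 κ g1 D` is linear. -/
def W1lin (e : ℕ) (f0 κ g1 : F⟦X⟧) : Derivation ℤ F F →ₗ[F] F⟦X⟧ :=
  (LinearMap.mulLeft F (Q0q e f0)).comp (T1lin κ g1) -
    (LinearMap.mulLeft F (Q1q e κ g1)).comp (evD f0)

theorem W1lin_apply (e : ℕ) (f0 κ g1 : F⟦X⟧) (D : Derivation ℤ F F) :
    W1lin e f0 κ g1 D = W1q e f0 κ g1 D := by
  simp [W1lin, W1q, T1lin_apply]

/-- If all quadratic systems are solvable, the solution is linear in `D`. -/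
theorem quadSol_linear (e : ℕ) (f0 κ g1 : F⟦X⟧) (hΔ : Dlt e f0 κ g1 ≠ 0)
    (h : ∀ D : Derivation ℤ F F, ∃ s0 s1, QuadSol e f0 κ g1 s0 s1 D) :
    ∃ S0 S1 : Derivation ℤ F F →ₗ[F] F⟦X⟧, ∀ D, QuadSol e f0 κ g1 (S0 D) (S1 D) D := by
  obtain ⟨S0, h0⟩ := lin_divide (W0lin e f0 κ g1) (Dlt e f0 κ g1) hΔ fun D => by
    obtain ⟨s0, s1, hs⟩ := h D
    rw [W0lin_apply]
    exact ⟨s0, hs.w0⟩
  obtain ⟨S1, h1⟩ := lin_divide (W1lin e f0 κ g1) (Dlt e f0 κ g1) hΔ fun D => by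
    obtain ⟨s0, s1, hs⟩ := h D
    rw [W1lin_apply]
    exact ⟨s1, hs.w1⟩
  refine ⟨S0, S1, fun D => quadSol_of_mul e f0 κ g1 _ _ D hΔ ?_ ?_⟩
  · rw [← W0lin_apply, h0]
  · rw [← W1lin_apply, h1]

/-- Conditions on two consecutive coefficients. -/
theorem codimTwo_of_dvd (S : Derivation ℤ F F → Prop) (φ : Derivation ℤ F F →ₗ[F] F⟦X⟧)
    (n N : ℕ) (hN : N ≤ n + 2) (h : ∀ D, X ^ n ∣ φ D) (hS : ∀ D, X ^ N ∣ φ D → S D) :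
    CodimTwo F S := by
  refine ⟨LinearMap.pi ![(PowerSeries.coeff n).comp φ, (PowerSeries.coeff (n + 1)).comp φ],
    fun D hD => hS D ?_⟩
  have h0 : coeff n (φ D) = 0 := by simpa using congrFun hD 0
  have h1 : coeff (n + 1) (φ D) = 0 := by simpa using congrFun hD 1
  rw [X_pow_dvd_iff]
  intro m hm
  rcases lt_or_ge m n with h2 | h2
  · exact (X_pow_dvd_iff.1 (h D)) m h2
  · have : m = n ∨ m = n + 1 := by omega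
    rcases this with rfl | rfl
    · exact h0
    · exact h1

end H37.LM
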