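import Pool.Agent.H37.LM.QuadB
import Pool.Agent.H37.LM.Wei

/-!
# The quadratic system, equal orders   [H37 LM QuadE]

* `sqrt_ps`: `F⟦X⟧` is Henselian, or solve for the coefficients recursively, or
  `PowerSeries` binomial series; e.g. take `s = C s0 * t`, `s0 ^ 2 = u(0)` (`F` algebraically
  closed), and `t` with `t ^ 2 = 1 + X * _` (recursion on coefficients: the coefficient of `X ^ n` in
  `t ^ 2` is `2 t_n + (terms with smaller index)`).
* `lin_quot`: `v = X ^ n * u`, `u(0) ≠ 0`; `e v + th v = X ^ n * ((e + n) u + th u)` and the second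
  factor is a unit; `D1 D v = X ^ n * D1 D u`.  Take `a D = (unit)⁻¹ * D1 D u`, or use `lin_divide`.
* `quadE`: put `v± = f0 ∓ 2 κ c g1` and `a±` from `lin_quot` for `v±`.  One has
  `D1 D f0 ± c * T1q κ g1 D = D1 D v±` and `Q0q ± c * Q1q = e v± + th v±` (because `κ = c ^ 2`,
  `D κ = 2 c D c`).  If `X ^ m ∣ a+ D - a- D` then `s0 = (a+ + a-) / 2`, `s1 = (a+ - a-) / (2 c)`
  (`c = X ^ m * u`) solve the system (check after multiplying the second equation by `c`).  Use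
  `codimTwo_of_dvd` with `φ = a+ - a-`, `n = 0`, `N = m ≤ 2`.
-/

noncomputable section

open PowerSeries

namespace H37.LM

variable {F : Type*} [Field F] [CharZero F]

omit [CharZero F] in
/-- Every nonzero power series is `X ^ n * u` with `u(0) ≠ 0`. -/
theorem exists_ord (v : F⟦X⟧) (hv : v ≠ 0) :
    ∃ (n : ℕ) (u : F⟦X⟧), v = X ^ n * u ∧ constantCoeff u ≠ 0 := by
  obtain ⟨n, u, hu, h⟩ := WfDvdMonoid.max_power_factor hv (X_irreducible (R := F))
  exact ⟨n, u, h, fun h0 => hu (X_dvd_iff.2 h0)⟩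

theorem sqrt_ps [IsAlgClosed F] (u : F⟦X⟧) (hu : constantCoeff u ≠ 0) :
    ∃ s : F⟦X⟧, s ^ 2 = u := by
  obtain ⟨s0, hs0⟩ := IsAlgClosed.exists_pow_nat_eq (constantCoeff u) (n := 2) (by norm_num)
  have hs0ne : s0 ≠ 0 := by
    rintro rfl
    exact hu (by rw [← hs0]; simp)
  have hmem : ∀ z : F⟦X⟧, constantCoeff z = 0 → z ∈ IsLocalRing.maximalIdeal F⟦X⟧ := by
    intro z hz
    rw [IsLocalRing.mem_maximalIdeal, mem_nonunits_iff, isUnit_iff_constantCoeff, hz]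
    simp
  have hmonic : (Polynomial.X ^ 2 - Polynomial.C u : Polynomial F⟦X⟧).Monic :=
    Polynomial.monic_X_pow_sub_C u (by norm_num)
  have h2 : IsUnit (2 * C s0 : F⟦X⟧) := by
    rw [isUnit_iff_constantCoeff, map_mul, constantCoeff_C, map_ofNat]
    exact (mul_ne_zero two_ne_zero hs0ne).isUnit
  obtain ⟨a, ha, -⟩ := HenselianRing.is_henselian (I := IsLocalRing.maximalIdeal F⟦X⟧)
    (Polynomial.X ^ 2 - Polynomial.C u) hmonic (C s0)
    (hmem _ (by simp [hs0])) (by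
      have : (Polynomial.derivative (Polynomial.X ^ 2 - Polynomial.C u : Polynomial F⟦X⟧)).eval
          (C s0) = 2 * C s0 := by simp [one_add_one_eq_two]
      rw [this]
      exact h2.map _)
  refine ⟨a, ?_⟩
  have := ha
  rw [Polynomial.IsRoot.def, Polynomial.eval_sub, Polynomial.eval_pow, Polynomial.eval_X,
    Polynomial.eval_C, sub_eq_zero] at this
  exact this

theorem lin_quot (e : ℕ) (he : 1 ≤ e) (v : F⟦X⟧) (hv : v ≠ 0) :
    ∃ a : Derivation ℤ F F →ₗ[F] F⟦X⟧, ∀ D, D1 D v = a D * (e * v + th F v) := by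
  obtain ⟨n, u, hvu, hu⟩ := exists_ord v hv
  have h1 : (e : F⟦X⟧) * v + th F v = X ^ n * (((e + n : ℕ) : F⟦X⟧) * u + th F u) := by
    rw [hvu, th_X_pow_mul]
    push_cast
    ring
  have hc : constantCoeff (((e + n : ℕ) : F⟦X⟧) * u + th F u) ≠ 0 := by
    rw [map_add, map_mul, qb_constantCoeff_th, add_zero, map_natCast]
    exact mul_ne_zero (Nat.cast_ne_zero.2 (by omega)) hu
  obtain ⟨ψ, hψ⟩ := lin_divide (evD v) ((e : F⟦X⟧) * v + th F v) (qb_dlt_ne h1 hc) fun D => by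
    rw [evD_apply]
    exact qb_dlt_dvd h1 hc (qb_D1_dvd D ⟨u, hvu⟩)
  exact ⟨ψ, fun D => by rw [← evD_apply, hψ, mul_comm]⟩

theorem quadE (e : ℕ) (he : 1 ≤ e) (f0 κ g1 c u : F⟦X⟧) (m : ℕ) (hc : c = X ^ m * u)
    (hu : constantCoeff u ≠ 0) (hm : m ≤ 2) (hκ : c ^ 2 = κ)
    (h1 : f0 - 2 * κ * c * g1 ≠ 0) (h2 : f0 + 2 * κ * c * g1 ≠ 0) :
    CodimTwo F (fun D => ∃ s0 s1, QuadSol e f0 κ g1 s0 s1 D) := by
  subst hκ
  obtain ⟨ap, hap⟩ := lin_quot e he _ h1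
  obtain ⟨am, ham⟩ := lin_quot e he _ h2
  have hcne : c ≠ 0 := qb_dlt_ne hc hu
  refine codimTwo_of_dvd _ (ap - am) 0 m (by omega) (fun D => by simp) fun D hD => ?_
  obtain ⟨t, ht⟩ : c ∣ (ap - am) D := qb_dlt_dvd hc hu hD
  rw [LinearMap.sub_apply] at ht
  have e1 : D1 D (f0 - 2 * c ^ 2 * c * g1) = D1 D f0 + c * T1q (c ^ 2) g1 D := by
    have h3 : f0 - 2 * c ^ 2 * c * g1 = f0 - (((2 : ℕ) : F⟦X⟧) * (c ^ 3 * g1)) := by
      push_cast; ring
    rw [h3, map_sub, (D1_isDer D).nat_mul, (D1_isDer D) (c ^ 3) g1, (D1_isDer D).pow]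
    unfold T1q
    rw [(D1_isDer D).pow]
    push_cast
    norm_num
    ring
  have e2 : D1 D (f0 + 2 * c ^ 2 * c * g1) = D1 D f0 - c * T1q (c ^ 2) g1 D := by
    have h3 : f0 + 2 * c ^ 2 * c * g1 = f0 + (((2 : ℕ) : F⟦X⟧) * (c ^ 3 * g1)) := by
      push_cast; ring
    rw [h3, map_add, (D1_isDer D).nat_mul, (D1_isDer D) (c ^ 3) g1, (D1_isDer D).pow]
    unfold T1q
    rw [(D1_isDer D).pow]
    push_cast
    norm_num
    ring
  have e3 : (e : F⟦X⟧) * (f0 - 2 * c ^ 2 * c * g1) + th F (f0 - 2 * c ^ 2 * c * g1) =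
      Q0q e f0 + c * Q1q e (c ^ 2) g1 := by
    have h3 : f0 - 2 * c ^ 2 * c * g1 = f0 - (((2 : ℕ) : F⟦X⟧) * (c ^ 3 * g1)) := by
      push_cast; ring
    rw [h3, map_sub, th_isDer.nat_mul, th_isDer (c ^ 3) g1, th_isDer.pow]
    unfold Q0q Q1q
    rw [th_isDer.pow]
    push_cast
    norm_num
    ring
  have e4 : (e : F⟦X⟧) * (f0 + 2 * c ^ 2 * c * g1) + th F (f0 + 2 * c ^ 2 * c * g1) =
      Q0q e f0 - c * Q1q e (c ^ 2) g1 := by
    have h3 : f0 + 2 * c ^ 2 * c * g1 = f0 + (((2 : ℕ) : F⟦X⟧) * (c ^ 3 * g1)) := by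
      push_cast; ring
    rw [h3, map_add, th_isDer.nat_mul, th_isDer (c ^ 3) g1, th_isDer.pow]
    unfold Q0q Q1q
    rw [th_isDer.pow]
    push_cast
    norm_num
    ring
  have hp := hap D
  have hmn := ham D
  rw [e1, e3] at hp
  rw [e2, e4] at hmn
  have h2ne : (2 : F⟦X⟧) ≠ 0 := by
    intro h
    have := congrArg (constantCoeff (R := F)) h
    rw [map_ofNat, map_zero] at this
    exact two_ne_zero this
  have hhalf : (2 : F⟦X⟧) * C (2⁻¹ : F) = 1 := by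
    have : (2 : F⟦X⟧) = C (2 : F) := (map_ofNat C 2).symm
    rw [this, ← map_mul, mul_inv_cancel₀ two_ne_zero, map_one]
  refine ⟨C (2⁻¹ : F) * (ap D + am D), C (2⁻¹ : F) * t, ?_, ?_⟩
  · refine mul_left_cancel₀ h2ne ?_
    linear_combination hp + hmn + (- Q0q e f0 * (ap D + am D) - c ^ 2 * Q1q e (c ^ 2) g1 * t) *
      hhalf + (c * Q1q e (c ^ 2) g1) * ht
  · refine mul_left_cancel₀ (mul_ne_zero h2ne hcne) ?_
    linear_combination hp - hmn + (-Q0q e f0 * c * t - c * Q1q e (c ^ 2) g1 * (ap D + am D)) *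
      hhalf + Q0q e f0 * ht

end H37.LM
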