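import Pool.Agent.H37.LM.NF

/-!
# Quadruple roots, factorisation of the critical locus   [H37 LM RFourFac]

Proof.  `W := Wh f`; `cf W 0 j = (j + 1) cf f 0 (j + 1)` (`cf_Wh`), so `wei_prep` with `n = 3`:
`W = P * u`, `P = w ^ 3 + p2 w ^ 2 + p1 w + p0`, `p_i(0) = 0`.  Comparing the coefficients of `x w ^ 0`
and of `x w ^ 1`: `cf W 1 0 = cf f 1 1 = 0` gives `X ^ 2 ∣ p0`; `cf W 1 1 = 2 cf f 1 2 ≠ 0` gives
`p1 = X * q1`, `q1(0) ≠ 0`; write `p0 = X ^ 2 * q0`, `p2 = X * q2`.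
`P (x z) = x ^ 2 (x z ^ 3 + x q2 z ^ 2 + q1 z + q0)`.  The polynomial `g z = X z ^ 3 + X q2 z ^ 2 + q1 z + q0`
over `F⟦X⟧` has a root `z0`: its reduction modulo `X` is `q1(0) z + q0(0)`.  (Apply `wei_prep` with
`n = 1` to the power series of `g (z + C ζ)`, `ζ = - q0(0) / q1(0)`: it is `(z - d) * unit`; then
`g (ζ + d) = 0` by `lin_zero`.  Or Hensel, or successive approximation.)  Put `c0 = X * z0`; then
`P = (w - c0) (w ^ 2 + r1 w + r0)` with `r1 = p2 + c0`, `r0 = p1 + c0 r1`, so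
`w ^ 2 + r1 w + r0 = (w - c1) ^ 2 - κ1`, `c1 = - r1 / 2`, `κ1 = r1 ^ 2 / 4 - r0 = X * v`, `v(0) = - q1(0) ≠ 0`.
-/

noncomputable section

open PowerSeries

namespace H37.LM

variable {F : Type*} [Field F] [CharZero F]

section fix

omit [CharZero F]

/-- fixed points of contractions -/
theorem rf_fix (T : F⟦X⟧ → F⟦X⟧)
    (hT : ∀ (a b : F⟦X⟧) (n : ℕ), X ^ n ∣ a - b → X ^ (n + 1) ∣ T a - T b) :
    ∃ L, T L = L := by
  let z : ℕ → F⟦X⟧ := fun n => T^[n] 0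
  have hz : ∀ n, z (n + 1) = T (z n) := fun n => Function.iterate_succ_apply' T n 0
  have h1 : ∀ n, X ^ n ∣ z n - z (n + 1) := by
    intro n
    induction n with
    | zero => simp
    | succ n ih =>
      rw [hz n, hz (n + 1)]
      exact hT _ _ n ih
  have h2 : ∀ m k, X ^ m ∣ z m - z (m + k) := by
    intro m k
    induction k with
    | zero => simp
    | succ k ih =>
      have h3 : z m - z (m + (k + 1)) = (z m - z (m + k)) + (z (m + k) - z (m + k + 1)) := by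
        rw [← add_assoc]
        ring
      rw [h3]
      exact dvd_add ih ((pow_dvd_pow X (Nat.le_add_right m k)).trans (h1 (m + k)))
  obtain ⟨L, hL⟩ := IsPrecomplete.prec' (I := IsLocalRing.maximalIdeal F⟦X⟧) z (by
    intro m n hmn
    obtain ⟨k, rfl⟩ := Nat.exists_eq_add_of_le hmn
    rw [SModEq.sub_mem, smul_eq_mul, Ideal.mul_top, maximalIdeal_eq_span_X,
      Ideal.span_singleton_pow, Ideal.mem_span_singleton]
    exact h2 m k)
  have hL' : ∀ n, X ^ n ∣ z n - L := by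
    intro n
    have := hL n
    rwa [SModEq.sub_mem, smul_eq_mul, Ideal.mul_top, maximalIdeal_eq_span_X,
      Ideal.span_singleton_pow, Ideal.mem_span_singleton] at this
  refine ⟨L, ?_⟩
  have h3 : ∀ n, X ^ (n + 1) ∣ T L - L := by
    intro n
    have e1 := hT _ _ n (hL' n)
    rw [← hz] at e1
    have e2 := hL' (n + 1)
    have e3 : T L - L = (z (n + 1) - L) - (z (n + 1) - T L) := by ring
    rw [e3]
    exact dvd_sub e2 e1
  rw [← sub_eq_zero]
  ext n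
  rw [X_pow_dvd_iff.1 (h3 n) n (Nat.lt_succ_self n), map_zero]

/-- the root of the cubic -/
theorem rf_root (q0 q1 q2 : F⟦X⟧) (h : constantCoeff q1 ≠ 0) :
    ∃ L : F⟦X⟧, X * L ^ 3 + X * q2 * L ^ 2 + q1 * L + q0 = 0 := by
  have hu : IsUnit q1 := isUnit_iff_constantCoeff.2 (isUnit_iff_ne_zero.2 h)
  obtain ⟨q1', hq⟩ := hu.exists_right_inv
  obtain ⟨L, hL⟩ := rf_fix (fun z => -q1' * (q0 + X * (z ^ 3 + q2 * z ^ 2))) (by
    intro a b n hab
    obtain ⟨y, hy⟩ := hab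
    refine ⟨-q1' * y * ((a ^ 2 + a * b + b ^ 2) + q2 * (a + b)), ?_⟩
    rw [pow_succ]
    linear_combination (-q1' * X * ((a ^ 2 + a * b + b ^ 2) + q2 * (a + b))) * hy)
  refine ⟨L, ?_⟩
  linear_combination (-q1) * hL + (-(q0 + X * (L ^ 3 + q2 * L ^ 2))) * hq

end fix

theorem r4_fac (f : F⟦X⟧⟦X⟧) (h0 : ∀ j < 4, cf f 0 j = 0) (h1 : cf f 0 4 ≠ 0)
    (h2 : cf f 1 1 = 0) (h3 : cf f 1 2 ≠ 0) :
    ∃ (c0 c1 v : F⟦X⟧) (u : F⟦X⟧⟦X⟧), constantCoeff c0 = 0 ∧ constantCoeff c1 = 0 ∧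
      constantCoeff v ≠ 0 ∧ IsUnit u ∧
      Wh f = (X - C c0) * ((X - C c1) ^ 2 - C (X * v)) * u := by
  have hW : ∀ i j, cf (Wh f) i j = ((j : F) + 1) * cf f i (j + 1) := cf_Wh f
  obtain ⟨P, u, hP, hdeg, hu, hPu⟩ := wei_prep (Wh f) 3
    (fun j hj => by rw [hW, h0 (j + 1) (by omega), mul_zero])
    (by
      rw [hW]
      refine mul_ne_zero ?_ h1
      norm_num)
  -- the coefficients
  obtain ⟨p0, hp0⟩ : ∃ p, P.coeff 0 = p := ⟨_, rfl⟩
  obtain ⟨p1, hp1⟩ : ∃ p, P.coeff 1 = p := ⟨_, rfl⟩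
  obtain ⟨p2, hp2⟩ : ∃ p, P.coeff 2 = p := ⟨_, rfl⟩
  have c0 : constantCoeff p0 = 0 := by
    rw [← hp0]
    exact hP.2 0 (by omega)
  have c1 : constantCoeff p1 = 0 := by
    rw [← hp1]
    exact hP.2 1 (by omega)
  have c2 : constantCoeff p2 = 0 := by
    rw [← hp2]
    exact hP.2 2 (by omega)
  have hPs : (P : F⟦X⟧⟦X⟧) = X ^ 3 + C p2 * X ^ 2 + C p1 * X + C p0 := by
    have h4 := hP.1.as_sum
    rw [hdeg, Finset.sum_range_succ, Finset.sum_range_succ, Finset.sum_range_one, hp0, hp1, hp2,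
      pow_zero, mul_one, pow_one] at h4
    rw [h4]
    simp only [Polynomial.coe_add, Polynomial.coe_mul, Polynomial.coe_C, Polynomial.coe_X,
      Polynomial.coe_pow]
    ring
  have u00 : constantCoeff (constantCoeff u) ≠ 0 := by
    have h4 := (isUnit_iff_cf u).1 hu
    unfold cf at h4
    rwa [coeff_zero_eq_constantCoeff_apply, coeff_zero_eq_constantCoeff_apply] at h4
  -- coefficient of `x`
  have hw10 : coeff 1 p0 = 0 := by
    have h4 := hW 1 0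
    rw [h2, mul_zero] at h4
    unfold cf at h4
    rw [hPu, coeff_zero_eq_constantCoeff_apply, map_mul, ← coeff_zero_eq_constantCoeff_apply
      (P : F⟦X⟧⟦X⟧), Polynomial.coeff_coe, hp0, coeff_one_mul, c0, mul_zero, add_zero] at h4
    exact (mul_eq_zero.1 h4).resolve_right u00
  have hw11 : coeff 1 p1 ≠ 0 := by
    intro h5
    have h4 := hW 1 1
    unfold cf at h4
    rw [hPu, coeff_one_mul, ← coeff_zero_eq_constantCoeff_apply
      (P : F⟦X⟧⟦X⟧), Polynomial.coeff_coe, Polynomial.coeff_coe, hp0, hp1, map_add,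
      coeff_one_mul, coeff_one_mul, c0, c1, hw10, h5] at h4
    have h6 : ((1 : ℕ) : F) + 1 ≠ 0 := by norm_num
    have h7 : cf f 1 2 = 0 := by
      have h8 : (((1 : ℕ) : F) + 1) * cf f 1 2 = 0 := by
        unfold cf
        rw [← h4]
        ring
      exact (mul_eq_zero.1 h8).resolve_left h6
    exact h3 h7
  obtain ⟨q0, hq0⟩ : X ^ 2 ∣ p0 := by
    rw [X_pow_dvd_iff]
    intro m hm
    interval_cases m
    · rw [coeff_zero_eq_constantCoeff_apply, c0]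
    · exact hw10
  obtain ⟨q1, hq1⟩ := X_dvd_iff.2 c1
  obtain ⟨q2, hq2⟩ := X_dvd_iff.2 c2
  have hq1' : constantCoeff q1 ≠ 0 := by
    have h5 : coeff 1 (X * q1) = constantCoeff q1 := by
      rw [← coeff_zero_eq_constantCoeff_apply]
      exact coeff_succ_X_mul 0 q1
    rw [hq1, h5] at hw11
    exact hw11
  obtain ⟨L, hL⟩ := rf_root q0 q1 q2 hq1'
  -- one half
  obtain ⟨t, ht⟩ : ∃ t : F⟦X⟧, 2 * t = 1 := by
    refine ⟨C (2 : F)⁻¹, ?_⟩
    have h4 : (2 : F⟦X⟧) = C 2 := (map_ofNat _ 2).symm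
    rw [h4, ← map_mul, mul_inv_cancel₀ two_ne_zero, map_one]
  refine ⟨X * L, -(t * (p2 + X * L)), t ^ 2 * X * (q2 + L) ^ 2 - q1 - X * L * (q2 + L), u,
    ?_, ?_, ?_, hu, ?_⟩
  · simp
  · simp [c2]
  · simpa using hq1'
  · rw [hPu, hPs]
    congr 1
    have hr : (C p0 : F⟦X⟧⟦X⟧) = - (C (X * L) * C (p1 + X * L * (p2 + X * L))) := by
      rw [← map_mul, ← map_neg]
      congr 1
      rw [hq0, hq1, hq2]
      linear_combination X ^ 2 * hL
    have hv : (C (X * (t ^ 2 * X * (q2 + L) ^ 2 - q1 - X * L * (q2 + L))) : F⟦X⟧⟦X⟧) =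
        C (t ^ 2 * (p2 + X * L) ^ 2 - (p1 + X * L * (p2 + X * L))) := by
      congr 1
      rw [hq1, hq2]
      ring
    have ht' : (2 : F⟦X⟧⟦X⟧) * C t = 1 := by
      have h4 : (2 : F⟦X⟧⟦X⟧) = C 2 := (map_ofNat _ 2).symm
      rw [h4, ← map_mul, ht, map_one]
    rw [hv, hr]
    simp only [map_neg, map_sub, map_add, map_mul, map_pow]
    linear_combination (-(X - C X * C L) * (C p2 + C X * C L) * X) * ht'

end H37.LM
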