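import Pool.Agent.H37.LM.NF
import Pool.Agent.H37.LM.Mem
import Pool.Agent.H37.LM.QuadE

/-!
# Double roots   [H37 LM RTwo]

`prep_lin`: `Wh f = (X - C c) * u`, `u` a unit; `nf_lin`: `f = C v + (X - C c) ^ 2 * H`.
`v ≠ 0`: otherwise `lin_both` contradicts `G3loc e f` for the distinguished polynomial
`Polynomial.X - Polynomial.C c`.  `lin_quot` gives `a : F⟦X⟧` (depending on `D`) with
`D1 D v = a * (e * v + th F v)`, so by `lin_mem` `X - C c` divides `D2 D f - C a * Qh e f`; and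
`X - C c ∈ span {Qh e f, Wh f}` because `u` is a unit.
-/

noncomputable section

open PowerSeries

namespace H37.LM

variable {F : Type*} [Field F] [CharZero F]

theorem dist_lin (c : F⟦X⟧) (hc : constantCoeff c = 0) :
    Dist (Polynomial.X - Polynomial.C c) ∧
      0 < (Polynomial.X - Polynomial.C c : Polynomial F⟦X⟧).natDegree ∧
      ((Polynomial.X - Polynomial.C c : Polynomial F⟦X⟧) : F⟦X⟧⟦X⟧) = X - C c := by
  refine ⟨⟨Polynomial.monic_X_sub_C c, ?_⟩, ?_, ?_⟩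
  · intro i hi
    rw [Polynomial.natDegree_X_sub_C] at hi
    have : i = 0 := by omega
    subst this
    simp [hc]
  · rw [Polynomial.natDegree_X_sub_C]; exact one_pos
  · rw [Polynomial.coe_sub, Polynomial.coe_X, Polynomial.coe_C]

theorem r2_mem (e : ℕ) (he : 1 ≤ e) (f : F⟦X⟧⟦X⟧) (h0 : ∀ j < 2, cf f 0 j = 0)
    (h2 : cf f 0 2 ≠ 0) (hG3 : G3loc e f) (D : Derivation ℤ F F) :
    D2 D f ∈ Ideal.span {Qh e f, Wh f} := by
  obtain ⟨c, u, hc, hu, hW⟩ := prep_lin f h0 h2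
  obtain ⟨v, H, hf⟩ := nf_lin f c hc ⟨u, hW⟩
  have hv : v ≠ 0 := by
    rintro rfl
    rw [map_zero, zero_add] at hf
    obtain ⟨d1, d2, d3⟩ := dist_lin c hc
    refine hG3 _ d1 d2 ?_
    rw [d3]
    exact lin_both e f c H hf
  obtain ⟨a, ha⟩ := lin_quot e he v hv
  obtain ⟨hD, hQ⟩ := lin_mem e f c v H hf
  have hP : (X - C c) ∈ Ideal.span {Qh e f, Wh f} := by
    obtain ⟨u', rfl⟩ := hu
    have : (X - C c) = (↑u'⁻¹ : F⟦X⟧⟦X⟧) * Wh f := by
      rw [hW, mul_comm (X - C c) (u' : F⟦X⟧⟦X⟧), ← mul_assoc, Units.inv_mul, one_mul]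
    rw [this]
    exact Ideal.mul_mem_left _ _ (Ideal.subset_span (by simp))
  have h1 : (X - C c) ∣ D2 D f - C (a D) * Qh e f := by
    have e1 : D2 D f - C (a D) * Qh e f = (D2 D f - C (D1 D v)) -
        C (a D) * (Qh e f - C (e * v + th F v)) := by
      rw [ha D, map_mul]
      ring
    rw [e1]
    exact dvd_sub (hD D) (Dvd.dvd.mul_left hQ _)
  obtain ⟨z, hz⟩ := h1
  have e2 : D2 D f = (X - C c) * z + C (a D) * Qh e f := by rw [← hz]; ring
  rw [e2]
  exact Ideal.add_mem _ (Ideal.mul_mem_right _ _ hP)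
    (Ideal.mul_mem_left _ _ (Ideal.subset_span (by simp)))

end H37.LM
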