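import Pool.Agent.H37.LM.NearGood

/-!
# Choice of the multiplicity and of the shear   [H37 LM Select]

Proof.  `δ` from `near_good` (with `K = k`), at most `1 / 2`.  Let `σ` be given.  If the ball is empty there is
nothing to do (it is not: `0`).  `coef (σ s) 6 0 ≠ 0`, so there is a least `e ≤ 6` such that
`coef (σ s0) i j ≠ 0` for some `s0` in the ball and some `i + j = e`; `1 ≤ e` because `coef c 0 0 = 0`.  All
coefficients with `i + j < e` vanish for all `s` in the ball.  `choose_lam` at `s0` gives `lam ≤ 6` with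
`lead e (coef (σ s0)) z ≠ 0` for `‖z - lam‖ < 1 / 2`, in particular on the compact disc `‖z - lam‖ ≤ 1 / 3`;
`(s, z) ↦ lead e (coef (σ s)) z` is continuous on `ball × ℂ`, so this persists for `s` in an open
neighbourhood `B` of `s0` (`generalized_tube_lemma`).  `near_good` gives `Good`.
-/

noncomputable section

open Set Filter Topology
open scoped ContDiff

namespace H37.LM

theorem coef_high' {k : ℕ} (c : Jet k) (i j : ℕ) (h : k < i + j) : coef c i j = 0 := by
  unfold coef
  rw [dif_neg]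
  omega

theorem coef_zero' {k : ℕ} (c : Jet k) : coef c 0 0 = 0 := by
  unfold coef
  rw [dif_neg]
  omega

theorem continuous_coef {k : ℕ} (i j : ℕ) : Continuous (fun c : Jet k => coef c i j) := by
  unfold coef
  by_cases h : 1 ≤ i + j ∧ i + j ≤ k
  · simp only [dif_pos h]
    exact continuous_apply _
  · simp only [dif_neg h]
    exact continuous_const

theorem select (k : ℕ) (hk : 6 ≤ k) : ∃ δ > 0, ∀ (m : ℕ) (σ : (Fin m → ℝ) → Jet k),
    ContDiffOn ℝ ∞ σ (Metric.ball 0 1) →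
    (∀ s ∈ Metric.ball (0 : Fin m → ℝ) 1, ∀ i j, ‖coef (σ s) i j - gS i j‖ < δ) →
    ∃ (B : Set (Fin m → ℝ)) (e lam : ℕ), IsOpen B ∧ B.Nonempty ∧ B ⊆ Metric.ball 0 1 ∧
      ∀ s ∈ B, Good k e (shr (lam : ℂ) (coef (σ s))) := by
  classical
  obtain ⟨δ, hδ, hg⟩ := near_good k hk
  refine ⟨min δ (1 / 2), lt_min hδ (by norm_num), fun m σ hσ hnear => ?_⟩
  have h0 : (0 : Fin m → ℝ) ∈ Metric.ball (0 : Fin m → ℝ) 1 := Metric.mem_ball_self one_pos
  have hex : ∃ e : ℕ, ∃ s ∈ Metric.ball (0 : Fin m → ℝ) 1, ∃ i j, i + j = e ∧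
      coef (σ s) i j ≠ 0 := by
    refine ⟨6, 0, h0, 6, 0, rfl, fun hc => ?_⟩
    have h1 := hnear 0 h0 6 0
    rw [hc] at h1
    simp only [gS] at h1
    norm_num at h1
  have he6 : Nat.find hex ≤ 6 := by
    refine Nat.find_min' hex ⟨0, h0, 6, 0, rfl, fun hc => ?_⟩
    have h1 := hnear 0 h0 6 0
    rw [hc] at h1
    simp only [gS] at h1
    norm_num at h1
  obtain ⟨e, he⟩ : ∃ e, e = Nat.find hex := ⟨_, rfl⟩
  obtain ⟨s0, hs0, i0, j0, hij, hne⟩ := Nat.find_spec hex
  rw [← he] at hij he6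
  have hlow : ∀ s ∈ Metric.ball (0 : Fin m → ℝ) 1, ∀ i j, i + j < e → coef (σ s) i j = 0 := by
    intro s hs i j hlt
    by_contra hc
    rw [he] at hlt
    exact Nat.find_min hex hlt ⟨s, hs, i, j, rfl, hc⟩
  have he1 : 1 ≤ e := by
    rcases Nat.eq_zero_or_pos e with h | h
    · exfalso
      have hi : i0 = 0 := by omega
      have hj : j0 = 0 := by omega
      subst hi
      subst hj
      exact hne (coef_zero' _)
    · exact h
  obtain ⟨lam, hlam, hz⟩ := choose_lam e he6 (coef (σ s0)) i0 j0 hij hne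
  have hσc : ContinuousAt σ s0 := hσ.continuousOn.continuousAt (Metric.isOpen_ball.mem_nhds hs0)
  have hlead : ∀ z : ℂ, ContinuousAt
      (fun w : (Fin m → ℝ) × ℂ => lead e (coef (σ w.1)) w.2) (s0, z) := by
    intro z
    unfold lead
    refine tendsto_finsetSum _ fun i _ => ?_
    have h1 : ContinuousAt (fun w : (Fin m → ℝ) × ℂ => σ w.1) (s0, z) :=
      ContinuousAt.comp (g := σ) (f := fun w : (Fin m → ℝ) × ℂ => w.1) hσc continuousAt_fst
    have h2 : ContinuousAt (fun w : (Fin m → ℝ) × ℂ => coef (σ w.1) i (e - i)) (s0, z) :=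
      (continuous_coef i (e - i)).continuousAt.comp h1
    exact h2.mul (continuousAt_snd.pow i)
  have hev : ∀ᶠ s in 𝓝 s0, ∀ z ∈ Metric.closedBall (lam : ℂ) (1 / 3),
      lead e (coef (σ s)) z ≠ 0 := by
    refine (isCompact_closedBall (lam : ℂ) (1 / 3)).eventually_forall_of_forall_eventually ?_
    intro z hz'
    refine (hlead z).eventually_ne (hz z ?_)
    rw [mem_closedBall_iff_norm] at hz'
    linarith
  obtain ⟨U, hU, hUo, hs0U⟩ := eventually_nhds_iff.1 hev
  refine ⟨U ∩ Metric.ball 0 1, e, lam, hUo.inter Metric.isOpen_ball, ⟨s0, hs0U, hs0⟩,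
    inter_subset_right, fun s hs => ?_⟩
  refine (hg (coef (σ s)) (fun i j hij' => coef_high' _ i j hij')
    (fun i j => lt_of_lt_of_le (hnear s hs.2 i j) (min_le_left _ _)) e lam he1 hlam
    (hlow s hs.2) (fun z hz' => hU s hs.1 z ?_)).2
  rw [mem_closedBall_iff_norm]
  exact hz'

end H37.LM
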