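import Pool.Agent.H37.LM.Alg0

/-!
# Staircase ideals and Nakayama   [H37 LM Stair]

For an antitone `n : ℕ → ℕ`, `St n` is the ideal of all `z ∈ F⟦X⟧⟦X⟧` such that `X ^ n j` divides the
coefficient of `w ^ j`, for all `j` (the monomial ideal generated by the `x ^ n j * w ^ j`).

* `St`: closed under multiplication, because the coefficient of `w ^ j` in `c * z` is a sum of
  multiples of coefficients of `w ^ i` in `z`, `i ≤ j`, and `n j ≤ n i`.
* `St_eq_span`: if `n N = 0` then `z = ∑_{j < N} C (coeff j z) * X ^ j + X ^ N * z'`.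
* `mem_mSt`: `z = ∑_{j ≤ N} C (coeff j z) X ^ j + X ^ (N + 1) z'`; `X ^ (n 0 + 1) ∣ coeff 0 z` gives
  `C (coeff 0 z) ∈ (C X) * St n`; for `j + 1` the coefficient is a multiple of `X ^ (n (j + 1) + 1)` (then
  `C (..) X ^ (j + 1) ∈ (C X) * St n`) or of `X ^ n j` (then it is in `(X) * St n`): the minimum of the two
  exponents is one of them; and `X ^ (N + 1) = X * X ^ N ∈ (X) * St n`.
* `nak_St`: `St n` is finitely generated (`St_eq_span`) and `mm = span {X, C X}` is contained in the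
  Jacobson radical of the local ring `F⟦X⟧⟦X⟧`
  (`Submodule.le_of_le_smul_of_le_jacobson_bot` with `N = St n`, `N' = I`).
-/

noncomputable section

open PowerSeries

namespace H37.LM

variable {F : Type*} [Field F]

/-- The monomial ideal of a staircase. -/
def St (F : Type*) [Field F] (n : ℕ → ℕ) (hn : Antitone n) : Ideal F⟦X⟧⟦X⟧ where
  carrier := {z | ∀ j, X ^ n j ∣ coeff j z}
  add_mem' := fun {a b} ha hb j => by
    rw [map_add]
    exact dvd_add (ha j) (hb j)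
  zero_mem' := fun j => by simp
  smul_mem' := fun c z hz j => by
    rw [smul_eq_mul, coeff_mul]
    refine Finset.dvd_sum fun p hp => ?_
    have hle : p.2 ≤ j := by
      rw [Finset.HasAntidiagonal.mem_antidiagonal] at hp
      omega
    exact Dvd.dvd.mul_left ((pow_dvd_pow _ (hn hle)).trans (hz p.2)) _

theorem mem_St_iff (n : ℕ → ℕ) (hn : Antitone n) (z : F⟦X⟧⟦X⟧) :
    z ∈ St F n hn ↔ ∀ j, X ^ n j ∣ coeff j z := Iff.rfl

theorem mem_St (n : ℕ → ℕ) (hn : Antitone n) (z : F⟦X⟧⟦X⟧) :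
    z ∈ St F n hn ↔ ∀ i j, i < n j → cf z i j = 0 := by
  rw [mem_St_iff]
  constructor
  · intro h i j hij
    exact (PowerSeries.X_pow_dvd_iff.1 (h j)) i hij
  · intro h j
    exact PowerSeries.X_pow_dvd_iff.2 (fun m hm => h m j hm)

/-- The maximal ideal `(w, x)`. -/
def mm (F : Type*) [Field F] : Ideal F⟦X⟧⟦X⟧ := Ideal.span {X, C X}

theorem decomp_lt (N : ℕ) (z : F⟦X⟧⟦X⟧) :
    ∃ z' : F⟦X⟧⟦X⟧, z = ∑ j ∈ Finset.range N, C (coeff j z) * X ^ j + X ^ N * z' := by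
  have h : (X : F⟦X⟧⟦X⟧) ^ N ∣ z - ∑ j ∈ Finset.range N, C (coeff j z) * X ^ j := by
    rw [PowerSeries.X_pow_dvd_iff]
    intro m hm
    rw [map_sub, map_sum, sub_eq_zero]
    rw [Finset.sum_eq_single m]
    · rw [coeff_C_mul, coeff_X_pow_self, mul_one]
    · intro b _ hb
      rw [coeff_C_mul, coeff_X_pow, if_neg (Ne.symm hb), mul_zero]
    · intro hm'
      exact absurd (Finset.mem_range.2 hm) hm'
  obtain ⟨z', hz'⟩ := h
  exact ⟨z', by rw [← hz']; ring⟩

theorem mem_mm (z : F⟦X⟧⟦X⟧) : z ∈ mm F ↔ cf z 0 0 = 0 := by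
  unfold mm
  rw [Ideal.mem_span_pair]
  constructor
  · rintro ⟨a, b, rfl⟩
    unfold cf
    rw [map_add, coeff_zero_mul_X, zero_add, mul_comm, coeff_C_mul, mul_comm, coeff_zero_mul_X]
  · intro h
    obtain ⟨z', hz'⟩ := decomp_lt 1 z
    have hX : (X : F⟦X⟧) ∣ coeff 0 z := by
      rw [PowerSeries.X_dvd_iff]
      rw [← coeff_zero_eq_constantCoeff_apply]
      exact h
    obtain ⟨c, hc⟩ := hX
    refine ⟨z', C c, ?_⟩
    rw [hz']
    rw [Finset.sum_range_one, hc, map_mul]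
    ring

theorem gen_mem_St (n : ℕ → ℕ) (hn : Antitone n) (j : ℕ) :
    (C (X ^ n j) * X ^ j : F⟦X⟧⟦X⟧) ∈ St F n hn := by
  rw [mem_St_iff]
  intro i
  rw [coeff_C_mul, coeff_X_pow]
  split_ifs with h
  · rw [h, mul_one]
  · rw [mul_zero]
    exact dvd_zero _

theorem St_eq_span (n : ℕ → ℕ) (hn : Antitone n) (N : ℕ) (hN : n N = 0) :
    St F n hn = Ideal.span ((fun j => C (X ^ n j) * X ^ j) '' Set.Iic N) := by
  apply le_antisymm
  · intro z hz
    obtain ⟨z', hz'⟩ := decomp_lt N z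
    rw [hz']
    have hg : ∀ j, j ≤ N → (C (X ^ n j) * X ^ j : F⟦X⟧⟦X⟧) ∈
        Ideal.span ((fun j => (C (X ^ n j) * X ^ j : F⟦X⟧⟦X⟧)) '' Set.Iic N) := by
      intro j hj
      exact Ideal.subset_span ⟨j, hj, rfl⟩
    refine Ideal.add_mem _ (Ideal.sum_mem _ ?_) ?_
    · intro j hj
      obtain ⟨c, hc⟩ := (mem_St_iff n hn z).1 hz j
      rw [hc, map_mul]
      have : (C (X ^ n j) * C c * X ^ j : F⟦X⟧⟦X⟧) = C c * (C (X ^ n j) * X ^ j) := by ring
      rw [this]
      exact Ideal.mul_mem_left _ _ (hg j (Finset.mem_range.1 hj).le)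
    · have h1 := hg N le_rfl
      rw [hN, pow_zero, map_one, one_mul] at h1
      rw [mul_comm]
      exact Ideal.mul_mem_left _ _ h1
  · rw [Ideal.span_le]
    rintro _ ⟨j, _, rfl⟩
    exact gen_mem_St n hn j

theorem mem_mSt (n : ℕ → ℕ) (hn : Antitone n) (N : ℕ) (hN : n N = 0) (z : F⟦X⟧⟦X⟧)
    (h0 : ∀ i, i ≤ n 0 → cf z i 0 = 0)
    (h : ∀ i j, i < min (n (j + 1) + 1) (n j) → cf z i (j + 1) = 0) :
    z ∈ mm F * St F n hn := by
  have hX : (X : F⟦X⟧⟦X⟧) ∈ mm F := Ideal.subset_span (by simp)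
  have hCX : (C X : F⟦X⟧⟦X⟧) ∈ mm F := Ideal.subset_span (by simp)
  have hA : ∀ j, (C (X ^ (n j + 1)) * X ^ j : F⟦X⟧⟦X⟧) ∈ mm F * St F n hn := by
    intro j
    have : (C (X ^ (n j + 1)) * X ^ j : F⟦X⟧⟦X⟧) = C X * (C (X ^ n j) * X ^ j) := by
      rw [pow_succ, map_mul]; ring
    rw [this]
    exact Ideal.mul_mem_mul hCX (gen_mem_St n hn j)
  have hB : ∀ j, (C (X ^ n j) * X ^ (j + 1) : F⟦X⟧⟦X⟧) ∈ mm F * St F n hn := by
    intro j
    have : (C (X ^ n j) * X ^ (j + 1) : F⟦X⟧⟦X⟧) = X * (C (X ^ n j) * X ^ j) := by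
      ring
    rw [this]
    exact Ideal.mul_mem_mul hX (gen_mem_St n hn j)
  obtain ⟨z', hz'⟩ := decomp_lt (N + 1) z
  rw [hz']
  refine Ideal.add_mem _ (Ideal.sum_mem _ ?_) ?_
  · intro j hj
    rcases j with _ | j
    · have hd : (X : F⟦X⟧) ^ (n 0 + 1) ∣ coeff 0 z := by
        rw [PowerSeries.X_pow_dvd_iff]
        intro m hm
        exact h0 m (by omega)
      obtain ⟨c, hc⟩ := hd
      rw [hc, map_mul]
      have : (C (X ^ (n 0 + 1)) * C c * X ^ 0 : F⟦X⟧⟦X⟧) = C c * (C (X ^ (n 0 + 1)) * X ^ 0) := by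
        ring
      rw [this]
      exact Ideal.mul_mem_left _ _ (hA 0)
    · have hd : (X : F⟦X⟧) ^ (min (n (j + 1) + 1) (n j)) ∣ coeff (j + 1) z := by
        rw [PowerSeries.X_pow_dvd_iff]
        intro m hm
        exact h m j hm
      obtain ⟨c, hc⟩ := hd
      rw [hc, map_mul]
      have : (C (X ^ (min (n (j + 1) + 1) (n j))) * C c * X ^ (j + 1) : F⟦X⟧⟦X⟧) =
          C c * (C (X ^ (min (n (j + 1) + 1) (n j))) * X ^ (j + 1)) := by
        ring
      rw [this]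
      apply Ideal.mul_mem_left
      rcases le_total (n (j + 1) + 1) (n j) with hle | hle
      · rw [min_eq_left hle]
        exact hA (j + 1)
      · rw [min_eq_right hle]
        exact hB j
  · have h1 := hB N
    rw [hN, pow_zero, map_one, one_mul] at h1
    exact Ideal.mul_mem_right _ _ h1

theorem nak_St (n : ℕ → ℕ) (hn : Antitone n) (N : ℕ) (hN : n N = 0) (I : Ideal F⟦X⟧⟦X⟧)
    (h : ∀ j ≤ N, C (X ^ n j) * X ^ j ∈ I ⊔ mm F * St F n hn) : St F n hn ≤ I := by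
  have hFG : (St F n hn).FG := by
    rw [St_eq_span n hn N hN]
    exact Submodule.fg_span (Set.Finite.image _ (Set.finite_Iic N))
  apply Submodule.le_of_le_smul_of_le_jacobson_bot (I := mm F) hFG
  · rw [IsLocalRing.jacobson_eq_maximalIdeal ⊥ bot_ne_top]
    intro z hz
    rw [mem_mm] at hz
    rw [IsLocalRing.mem_maximalIdeal, mem_nonunits_iff]
    intro hu
    rw [PowerSeries.isUnit_iff_constantCoeff, PowerSeries.isUnit_iff_constantCoeff] at hu
    apply hu.ne_zero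
    rw [← coeff_zero_eq_constantCoeff_apply, ← coeff_zero_eq_constantCoeff_apply]
    exact hz
  · have h1 : St F n hn ≤ I ⊔ mm F * St F n hn := by
      conv_lhs => rw [St_eq_span n hn N hN]
      rw [Ideal.span_le]
      rintro _ ⟨j, hj, rfl⟩
      exact h j hj
    exact h1

end H37.LM
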