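import Pool.Agent.H37.LM.Flow
import Pool.Agent.H37.LM.Glue
import Pool.Agent.H37.LM.Chart
import Pool.Agent.H37.LM.ChartInf

/-!
# Trivialisation theorem, one-parameter families   [H37 LM TTCore]

Proof.  `b t i j = 0` for `i + j < e`, `t` near `0` (derivative of a function which vanishes near
`t`).  Every unit vector `u` satisfies `LocField`: `chart_locField` with the `α, β` of `hloc` at
`w0 = u.2 / u.1` if `u.1 ≠ 0`, `chartInf_locField` if `u.1 = 0`.  `glue` gives a field `X` on a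
ball; at `p = 0` the equation holds too, because `ev K (b t) 0 = b t 0 0 = 0` (`0 < e`) and
`X t 0 = 0`.  The function `(t, p) ↦ ev K (a t) p` has derivative
`(τ, v) ↦ τ * ev K (b t) p + evX K (a t) p * v.1 + evY K (a t) p * v.2`
(finite sum of products of functions of `t` and of `p`, see `hasFDerivAt_ev`), for `t` near `0`.
Apply `flow_equiv`.
-/

noncomputable section

open Set Filter Topology
open scoped ContDiff

namespace H37.LM

theorem contDiffAt_one_of_hasDerivAt {f g : ℝ → ℂ} {t0 : ℝ}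
    (h : ∀ᶠ t in 𝓝 t0, HasDerivAt f (g t) t) (hg : ContDiffAt ℝ 1 g t0) :
    ContDiffAt ℝ 1 f t0 := by
  have h1 : ContDiffAt ℝ (((0 : ℕ) : WithTop ℕ∞) + 1) f t0 := by
    rw [contDiffAt_succ_iff_hasFDerivAt (n := 0)]
    refine ⟨fun t => ContinuousLinearMap.toSpanSingleton ℝ (g t), ?_, ?_⟩
    · exact eventually_iff_exists_mem.1 (h.mono fun t ht => ht.hasFDerivAt)
    · have h2 : ContDiffAt ℝ ((0 : ℕ) : WithTop ℕ∞) g t0 := hg.of_le (by norm_num)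
      have h3 : ContDiff ℝ ((0 : ℕ) : WithTop ℕ∞)
          (fun z : ℂ => ContinuousLinearMap.toSpanSingleton ℝ z) :=
        (ContinuousLinearMap.toSpanSingletonCLE (𝕜 := ℝ) (E := ℂ)).contDiff
      exact h3.contDiffAt.comp t0 h2
  simpa using h1

/-- derivative of the family in both variables -/
theorem hasFDerivAt_family (K : ℕ) (a b : ℝ → ℕ → ℕ → ℂ) (t : ℝ) (p : ℂ × ℂ)
    (h : ∀ i ∈ Finset.range (K + 1), ∀ j ∈ Finset.range (K + 1),
      HasDerivAt (fun t => a t i j) (b t i j) t) :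
    ∃ L : ℝ × (ℂ × ℂ) →L[ℝ] ℂ,
      HasFDerivAt (fun z : ℝ × (ℂ × ℂ) => ev K (a z.1) z.2) L (t, p) ∧
      ∀ v : ℂ × ℂ, L (1, v) = ev K (b t) p + evX K (a t) p * v.1 + evY K (a t) p * v.2 := by
  have hx : HasFDerivAt (𝕜 := ℝ) (fun z : ℝ × (ℂ × ℂ) => z.2.1)
      ((ContinuousLinearMap.fst ℝ ℂ ℂ).comp (ContinuousLinearMap.snd ℝ ℝ (ℂ × ℂ))) (t, p) :=
    ((ContinuousLinearMap.fst ℝ ℂ ℂ).comp (ContinuousLinearMap.snd ℝ ℝ (ℂ × ℂ))).hasFDerivAt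
  have hy : HasFDerivAt (𝕜 := ℝ) (fun z : ℝ × (ℂ × ℂ) => z.2.2)
      ((ContinuousLinearMap.snd ℝ ℂ ℂ).comp (ContinuousLinearMap.snd ℝ ℝ (ℂ × ℂ))) (t, p) :=
    ((ContinuousLinearMap.snd ℝ ℂ ℂ).comp (ContinuousLinearMap.snd ℝ ℝ (ℂ × ℂ))).hasFDerivAt
  have key : ∀ i ∈ Finset.range (K + 1), ∀ j ∈ Finset.range (K + 1),
      ∃ L : ℝ × (ℂ × ℂ) →L[ℝ] ℂ,
      HasFDerivAt (fun z : ℝ × (ℂ × ℂ) => a z.1 i j * z.2.1 ^ i * z.2.2 ^ j) L (t, p) ∧
      ∀ v : ℂ × ℂ, L (1, v) = b t i j * p.1 ^ i * p.2 ^ j +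
        a t i j * (i * p.1 ^ (i - 1)) * p.2 ^ j * v.1 +
        a t i j * p.1 ^ i * (j * p.2 ^ (j - 1)) * v.2 := by
    intro i hi j hj
    have h1 : HasFDerivAt (𝕜 := ℝ) (fun z : ℝ × (ℂ × ℂ) => a z.1 i j) _ (t, p) :=
      ((h i hi j hj).hasFDerivAt (x := (t, p).1)).comp (t, p) hasFDerivAt_fst
    have h2 := hx.pow i
    have h3 := hy.pow j
    have h4 := (h1.mul h2).mul h3
    refine ⟨_, h4, fun v => ?_⟩
    simp
    ring
  choose! L hL hLv using key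
  refine ⟨∑ i ∈ Finset.range (K + 1), ∑ j ∈ Finset.range (K + 1), L i j, ?_, ?_⟩
  · exact HasFDerivAt.fun_sum fun i hi => HasFDerivAt.fun_sum fun j hj => hL i hi j hj
  · intro v
    unfold ev evX evY
    simp only [_root_.sum_apply, Finset.sum_mul, ← Finset.sum_add_distrib]
    refine Finset.sum_congr rfl fun i hi => ?_
    refine Finset.sum_congr rfl fun j hj => ?_
    rw [hLv i hi j hj]

theorem TT_core (K e : ℕ) (he : 1 ≤ e) (heK : e ≤ K) (a b : ℝ → ℕ → ℕ → ℂ)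
    (hab : ∀ i j, ∀ᶠ t in 𝓝 (0 : ℝ), HasDerivAt (fun t => a t i j) (b t i j) t)
    (hb : ∀ i j, ContDiffAt ℝ 1 (fun t => b t i j) 0)
    (hlow : ∀ᶠ t in 𝓝 (0 : ℝ), ∀ i j, i + j < e → a t i j = 0)
    (hinf : a 0 0 e ≠ 0)
    (hloc : ∀ w0 : ℂ, ∃ α β : ℝ × ℂ × ℂ → ℂ,
      ContDiffAt ℝ 1 α ((0 : ℝ), w0, (0 : ℂ)) ∧ ContDiffAt ℝ 1 β ((0 : ℝ), w0, (0 : ℂ)) ∧
      ∀ᶠ z in 𝓝 ((0 : ℝ), w0, (0 : ℂ)),
        Ft K e (b z.1) z.2.1 z.2.2 + α z * Qf K e (a z.1) z.2.1 z.2.2 +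
          β z * Wf K e (a z.1) z.2.1 z.2.2 = 0) :
    ∃ ε > 0, ∀ t ∈ Icc (0 : ℝ) ε, LipEquiv (ev K (a 0)) (ev K (a t)) := by
  have ha : ∀ i j, ContDiffAt ℝ 1 (fun t => a t i j) 0 := fun i j =>
    contDiffAt_one_of_hasDerivAt (hab i j) (hb i j)
  -- the derivatives of small order vanish
  have hlowb : ∀ᶠ t in 𝓝 (0 : ℝ), ∀ i j, i + j < e → b t i j = 0 := by
    have hfin : ∀ᶠ t in 𝓝 (0 : ℝ), ∀ i ∈ Finset.range e, ∀ j ∈ Finset.range e,
        HasDerivAt (fun t => a t i j) (b t i j) t := by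
      rw [Filter.eventually_all_finset]
      intro i _
      rw [Filter.eventually_all_finset]
      intro j _
      exact hab i j
    filter_upwards [hlow.eventually_nhds, hfin] with t h1 h2 i j hij
    have h3 := h2 i (Finset.mem_range.2 (by omega)) j (Finset.mem_range.2 (by omega))
    have h4 : (fun t => a t i j) =ᶠ[𝓝 t] fun _ => (0 : ℂ) := by
      filter_upwards [h1] with s hs using hs i j hij
    have h5 : HasDerivAt (fun _ : ℝ => (0 : ℂ)) (b t i j) t := h3.congr_of_eventuallyEq h4.symm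
    exact h5.unique (hasDerivAt_const t (0 : ℂ))
  -- local fields
  have hfield : ∀ u : ℂ × ℂ, ‖u‖ = 1 →
      LocField (fun t => ev K (b t)) (fun t => evX K (a t)) (fun t => evY K (a t)) u := by
    intro u hu
    by_cases hu1 : u.1 = 0
    · exact chartInf_locField K e he heK a b ha hb hlow hlowb hinf u hu hu1
    · obtain ⟨α, β, hα, hβ, heq⟩ := hloc (u.2 / u.1)
      exact chart_locField K e a b hlow hlowb u hu hu1 α β hα hβ heq
  obtain ⟨ρ, hρ, C, hC, X, hX0, hXL, hXc, hXe⟩ := glue _ _ _ hfield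
  have hfin : ∀ᶠ t in 𝓝 (0 : ℝ), (∀ i ∈ Finset.range (K + 1), ∀ j ∈ Finset.range (K + 1),
      HasDerivAt (fun t => a t i j) (b t i j) t) ∧ (∀ i j, i + j < e → b t i j = 0) := by
    refine Filter.Eventually.and ?_ hlowb
    rw [Filter.eventually_all_finset]
    intro i _
    rw [Filter.eventually_all_finset]
    intro j _
    exact hab i j
  obtain ⟨δ0, hδ0, hball⟩ := Metric.eventually_nhds_iff_ball.1 hfin
  set δ := min δ0 ρ with hδ
  have hδpos : 0 < δ := lt_min hδ0 hρ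
  have hδρ : Ioo (-δ) δ ⊆ Ioo (-ρ) ρ :=
    Ioo_subset_Ioo (neg_le_neg (min_le_right _ _)) (min_le_right _ _)
  have hδδ : ∀ t ∈ Ioo (-δ) δ, t ∈ Metric.ball (0 : ℝ) δ0 := by
    intro t ht
    rw [mem_ball_zero_iff, Real.norm_eq_abs, abs_lt]
    exact ⟨lt_of_le_of_lt (neg_le_neg (min_le_left _ _)) ht.1,
      lt_of_lt_of_le ht.2 (min_le_left _ _)⟩
  refine flow_equiv (fun t => ev K (a t)) X ρ δ C hρ hδpos hC (fun t ht => hX0 t (hδρ ht))
    (fun t ht => hXL t (hδρ ht)) (fun p hp => (hXc p hp).mono hδρ) ?_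
  intro t ht p hp
  obtain ⟨h1, h2⟩ := hball t (hδδ t ht)
  obtain ⟨L, hL, hLv⟩ := hasFDerivAt_family K a b t p h1
  refine ⟨L, hL, ?_⟩
  rw [hLv]
  by_cases hp0 : p = 0
  · subst hp0
    rw [hX0 t (hδρ ht)]
    have h3 : ev K (b t) 0 = 0 := by
      unfold ev
      refine Finset.sum_eq_zero fun i _ => Finset.sum_eq_zero fun j _ => ?_
      rcases Nat.eq_zero_or_pos i with hi | hi
      · rcases Nat.eq_zero_or_pos j with hj | hj
        · subst hi; subst hj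
          simp [h2 0 0 (by omega)]
        · simp [hj.ne']
      · simp [hi.ne']
    simp [h3]
  · exact hXe t (hδρ ht) p hp hp0

theorem contDiffAt_Ft (K e : ℕ) (b : ℝ → ℕ → ℕ → ℂ)
    (hb : ∀ i j, ContDiffAt ℝ 1 (fun t => b t i j) 0) (w0 : ℂ) :
    ContDiffAt ℝ 1 (fun z : ℝ × ℂ × ℂ => Ft K e (b z.1) z.2.1 z.2.2)
      ((0 : ℝ), w0, (0 : ℂ)) := by
  unfold Ft
  refine ContDiffAt.sum fun i _ => ContDiffAt.sum fun j _ => ?_
  have h1 : ContDiffAt ℝ 1 (fun z : ℝ × ℂ × ℂ => b z.1 i j) ((0 : ℝ), w0, (0 : ℂ)) :=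
    ContDiffAt.comp (g := fun t => b t i j) (f := fun z : ℝ × ℂ × ℂ => z.1)
      ((0 : ℝ), w0, (0 : ℂ)) (hb i j) contDiffAt_fst
  exact (h1.mul (contDiffAt_snd.fst.pow j)).mul (contDiffAt_snd.snd.pow _)

theorem contDiffAt_Qf (K e : ℕ) (b : ℝ → ℕ → ℕ → ℂ)
    (hb : ∀ i j, ContDiffAt ℝ 1 (fun t => b t i j) 0) (w0 : ℂ) :
    ContDiffAt ℝ 1 (fun z : ℝ × ℂ × ℂ => Qf K e (b z.1) z.2.1 z.2.2)
      ((0 : ℝ), w0, (0 : ℂ)) := by
  unfold Qf
  refine ContDiffAt.sum fun i _ => ContDiffAt.sum fun j _ => ?_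
  have h1 : ContDiffAt ℝ 1 (fun z : ℝ × ℂ × ℂ => b z.1 i j) ((0 : ℝ), w0, (0 : ℂ)) :=
    ContDiffAt.comp (g := fun t => b t i j) (f := fun z : ℝ × ℂ × ℂ => z.1)
      ((0 : ℝ), w0, (0 : ℂ)) (hb i j) contDiffAt_fst
  exact ((contDiffAt_const.mul h1).mul (contDiffAt_snd.fst.pow j)).mul
    (contDiffAt_snd.snd.pow _)

theorem contDiffAt_Wf (K e : ℕ) (b : ℝ → ℕ → ℕ → ℂ)
    (hb : ∀ i j, ContDiffAt ℝ 1 (fun t => b t i j) 0) (w0 : ℂ) :
    ContDiffAt ℝ 1 (fun z : ℝ × ℂ × ℂ => Wf K e (b z.1) z.2.1 z.2.2)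
      ((0 : ℝ), w0, (0 : ℂ)) := by
  unfold Wf
  refine ContDiffAt.sum fun i _ => ContDiffAt.sum fun j _ => ?_
  have h1 : ContDiffAt ℝ 1 (fun z : ℝ × ℂ × ℂ => b z.1 i j) ((0 : ℝ), w0, (0 : ℂ)) :=
    ContDiffAt.comp (g := fun t => b t i j) (f := fun z : ℝ × ℂ × ℂ => z.1)
      ((0 : ℝ), w0, (0 : ℂ)) (hb i j) contDiffAt_fst
  exact (h1.mul (contDiffAt_const.mul (contDiffAt_snd.fst.pow _))).mul
    (contDiffAt_snd.snd.pow _)

/-- Directions where `Ft` or its `w`-derivative does not vanish are harmless. -/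
theorem loc_of_simple (K e : ℕ) (he : 1 ≤ e) (a b : ℝ → ℕ → ℕ → ℂ)
    (ha : ∀ i j, ContDiffAt ℝ 1 (fun t => a t i j) 0)
    (hb : ∀ i j, ContDiffAt ℝ 1 (fun t => b t i j) 0)
    (w0 : ℂ) (h : Ft K e (a 0) w0 0 ≠ 0 ∨ Wf K e (a 0) w0 0 ≠ 0)
    (hlow : ∀ i j, i + j < e → a 0 i j = 0) :
    ∃ α β : ℝ × ℂ × ℂ → ℂ,
      ContDiffAt ℝ 1 α ((0 : ℝ), w0, (0 : ℂ)) ∧ ContDiffAt ℝ 1 β ((0 : ℝ), w0, (0 : ℂ)) ∧
      ∀ᶠ z in 𝓝 ((0 : ℝ), w0, (0 : ℂ)),
        Ft K e (b z.1) z.2.1 z.2.2 + α z * Qf K e (a z.1) z.2.1 z.2.2 +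
          β z * Wf K e (a z.1) z.2.1 z.2.2 = 0 := by
  have hQ : Qf K e (a 0) w0 0 = e * Ft K e (a 0) w0 0 := by
    unfold Qf Ft
    rw [Finset.mul_sum]
    refine Finset.sum_congr rfl fun i _ => ?_
    rw [Finset.mul_sum]
    refine Finset.sum_congr rfl fun j _ => ?_
    rcases lt_trichotomy (i + j) e with hij | hij | hij
    · simp [hlow i j hij]
    · have h1 : (e : ℂ) = (i : ℂ) + j := by rw [← hij]; push_cast; ring
      rw [h1]; ring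
    · have h1 : i + j - e ≠ 0 := by omega
      simp [h1]
  have hF := contDiffAt_Ft K e b hb w0
  rcases h with h | h
  · have hQ0 : Qf K e (a 0) w0 0 ≠ 0 := by
      rw [hQ]
      exact mul_ne_zero (by exact_mod_cast (by omega : e ≠ 0)) h
    have hQc := contDiffAt_Qf K e a ha w0
    refine ⟨fun z => -(Ft K e (b z.1) z.2.1 z.2.2 * (Qf K e (a z.1) z.2.1 z.2.2)⁻¹), fun _ => 0,
      (hF.mul (hQc.inv hQ0)).neg, contDiffAt_const, ?_⟩
    have hne := hQc.continuousAt.eventually_ne hQ0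
    filter_upwards [hne] with z hz
    field_simp
    ring
  · have hWc := contDiffAt_Wf K e a ha w0
    refine ⟨fun _ => 0, fun z => -(Ft K e (b z.1) z.2.1 z.2.2 * (Wf K e (a z.1) z.2.1 z.2.2)⁻¹),
      contDiffAt_const, (hF.mul (hWc.inv h)).neg, ?_⟩
    have hne := hWc.continuousAt.eventually_ne h
    filter_upwards [hne] with z hz
    field_simp
    ring

end H37.LM
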