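import Pool.Agent.H37.LM.TTCore

/-!
# Trivialisation along an integral curve   [H37 LM TTMulti]

Proof.  `v` is smooth near `s0`, so there is an integral curve `s : ℝ → (Fin m → ℝ)`, `s 0 = s0`,
`s' t = v (s t)` for `t` near `0` (`exists_forall_hasDerivAt_Ioo_eq_of_contDiffAt`), with values in
`V`; `s` is `C¹` near `0` (its derivative `v ∘ s` is continuous) and `s t ≠ s0` for small `t ≠ 0`
because `s' 0 = v s0 ≠ 0` (`HasDerivAt.eventually_ne`).  Put `a t i j = c i j (s t)`,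
`b t i j = fderiv ℝ (c i j) (s t) (v (s t))`.  `HasDerivAt (a · i j) (b t i j) t` by the chain rule;
`b` is `C¹` at `0` (composition of the smooth map `s ↦ fderiv ℝ (c i j) s (v s)`, smooth on the open
set `V`, with the `C¹` curve `s`).  The `α, β` of `hloc`, composed with
`(t, w, x) ↦ (s t, w, x)`, satisfy the hypotheses of `TT_core`.  `TT_core` gives
`LipEquiv (ev K (a 0)) (ev K (a t))` for all small `t ≥ 0`; take a small `t > 0`.
-/

noncomputable section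

open Set Filter Topology
open scoped ContDiff

namespace H37.LM

theorem contDiffAt_one_of_hasDerivAt_curve {F : Type*} [NormedAddCommGroup F] [NormedSpace ℝ F]
    {f g : ℝ → F} {t0 : ℝ} (h : ∀ᶠ t in 𝓝 t0, HasDerivAt f (g t) t)
    (hg : ContDiffAt ℝ 0 g t0) : ContDiffAt ℝ 1 f t0 := by
  have h1 : ContDiffAt ℝ (((0 : ℕ) : WithTop ℕ∞) + 1) f t0 := by
    rw [contDiffAt_succ_iff_hasFDerivAt (n := 0)]
    refine ⟨fun t => ContinuousLinearMap.toSpanSingleton ℝ (g t), ?_, ?_⟩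
    · exact eventually_iff_exists_mem.1 (h.mono fun t ht => ht.hasFDerivAt)
    · have h2 : ContDiffAt ℝ ((0 : ℕ) : WithTop ℕ∞) g t0 := by simpa using hg
      have h3 : ContDiff ℝ ((0 : ℕ) : WithTop ℕ∞)
          (fun z : F => ContinuousLinearMap.toSpanSingleton ℝ z) :=
        (ContinuousLinearMap.toSpanSingletonCLE (𝕜 := ℝ) (E := F)).contDiff
      exact h3.contDiffAt.comp t0 h2
  simpa using h1

theorem TT_multi {m : ℕ} (K e : ℕ) (he : 1 ≤ e) (heK : e ≤ K) (V : Set (Fin m → ℝ))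
    (hV : IsOpen V) (s0 : Fin m → ℝ) (hs0 : s0 ∈ V) (c : ℕ → ℕ → (Fin m → ℝ) → ℂ)
    (hc : ∀ i j, ContDiffOn ℝ ∞ (c i j) V)
    (hlow : ∀ s ∈ V, ∀ i j, i + j < e → c i j s = 0) (hinf : c 0 e s0 ≠ 0)
    (v : (Fin m → ℝ) → (Fin m → ℝ)) (hv : ContDiffOn ℝ ∞ v V) (hv0 : v s0 ≠ 0)
    (hloc : ∀ w0 : ℂ, ∃ α β : (Fin m → ℝ) × ℂ × ℂ → ℂ,
      ContDiffAt ℝ 1 α (s0, w0, (0 : ℂ)) ∧ ContDiffAt ℝ 1 β (s0, w0, (0 : ℂ)) ∧
      ∀ᶠ z in 𝓝 (s0, w0, (0 : ℂ)),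
        Ft K e (fun i j => fderiv ℝ (c i j) z.1 (v z.1)) z.2.1 z.2.2 +
          α z * Qf K e (fun i j => c i j z.1) z.2.1 z.2.2 +
          β z * Wf K e (fun i j => c i j z.1) z.2.1 z.2.2 = 0) :
    ∃ s1 ∈ V, s1 ≠ s0 ∧
      LipEquiv (ev K (fun i j => c i j s0)) (ev K (fun i j => c i j s1)) := by
  have hVn : V ∈ 𝓝 s0 := hV.mem_nhds hs0
  have hv1 : ContDiffAt ℝ 1 v s0 := (hv.contDiffAt hVn).of_le (by norm_num)
  obtain ⟨s, hs00, ε, hε, hs⟩ :=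
    hv1.exists_forall_mem_closedBall_exists_eq_forall_mem_Ioo_hasDerivAt₀ 0
  simp only [zero_sub, zero_add] at hs
  have hmem : Ioo (-ε) ε ∈ 𝓝 (0 : ℝ) := Ioo_mem_nhds (by linarith) hε
  have hsder : ∀ᶠ t in 𝓝 (0 : ℝ), HasDerivAt s (v (s t)) t := by
    filter_upwards [hmem] with t ht using hs t ht
  have hs0der : HasDerivAt s (v s0) 0 := by
    have := hsder.self_of_nhds
    rwa [hs00] at this
  have hsc : ContinuousAt s 0 := hs0der.continuousAt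
  have hsV : ∀ᶠ t in 𝓝 (0 : ℝ), s t ∈ V := by
    refine hsc.eventually ?_
    rw [hs00]
    exact hVn
  have hsC0 : ContDiffAt ℝ 0 s 0 := by
    rw [contDiffAt_zero]
    exact ⟨Ioo (-ε) ε, hmem, fun t ht => (hs t ht).continuousAt.continuousWithinAt⟩
  have hsC : ContDiffAt ℝ 1 s 0 := by
    refine contDiffAt_one_of_hasDerivAt_curve hsder ?_
    have h1 : ContDiffAt ℝ 0 v (s 0) := by
      rw [hs00]
      exact hv1.of_le (by norm_num)
    exact h1.comp 0 hsC0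
  have hab : ∀ i j, ∀ᶠ t in 𝓝 (0 : ℝ), HasDerivAt (fun t => c i j (s t))
      (fderiv ℝ (c i j) (s t) (v (s t))) t := by
    intro i j
    filter_upwards [hsV, hsder] with t h1 h2
    have h3 : DifferentiableAt ℝ (c i j) (s t) :=
      ((hc i j).contDiffAt (hV.mem_nhds h1)).differentiableAt (by norm_num)
    exact h3.hasFDerivAt.comp_hasDerivAt t h2
  have hb : ∀ i j, ContDiffAt ℝ 1 (fun t => fderiv ℝ (c i j) (s t) (v (s t))) 0 := by
    intro i j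
    have h1 : ContDiffAt ℝ 1 (fderiv ℝ (c i j)) s0 :=
      ((hc i j).contDiffAt hVn).fderiv_right (WithTop.coe_le_coe.2 le_top)
    have h2 : ContDiffAt ℝ 1 (fun σ => fderiv ℝ (c i j) σ (v σ)) (s 0) := by
      rw [hs00]
      exact h1.clm_apply hv1
    exact h2.comp 0 hsC
  have hlow' : ∀ᶠ t in 𝓝 (0 : ℝ), ∀ i j, i + j < e → c i j (s t) = 0 := by
    filter_upwards [hsV] with t ht using hlow _ ht
  have hinf' : c 0 e (s 0) ≠ 0 := by rwa [hs00]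
  have hloc' : ∀ w0 : ℂ, ∃ α β : ℝ × ℂ × ℂ → ℂ,
      ContDiffAt ℝ 1 α ((0 : ℝ), w0, (0 : ℂ)) ∧ ContDiffAt ℝ 1 β ((0 : ℝ), w0, (0 : ℂ)) ∧
      ∀ᶠ z in 𝓝 ((0 : ℝ), w0, (0 : ℂ)),
        Ft K e (fun i j => fderiv ℝ (c i j) (s z.1) (v (s z.1))) z.2.1 z.2.2 +
          α z * Qf K e (fun i j => c i j (s z.1)) z.2.1 z.2.2 +
          β z * Wf K e (fun i j => c i j (s z.1)) z.2.1 z.2.2 = 0 := by
    intro w0
    obtain ⟨α, β, hα, hβ, heq⟩ := hloc w0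
    have hmap : ContDiffAt ℝ 1 (fun z : ℝ × ℂ × ℂ => (s z.1, z.2)) ((0 : ℝ), w0, (0 : ℂ)) := by
      refine ContDiffAt.prodMk ?_ contDiffAt_snd
      exact ContDiffAt.comp (g := s) (f := fun z : ℝ × ℂ × ℂ => z.1)
        ((0 : ℝ), w0, (0 : ℂ)) hsC contDiffAt_fst
    refine ⟨fun z => α (s z.1, z.2), fun z => β (s z.1, z.2), ?_, ?_, ?_⟩
    · refine ContDiffAt.comp (g := α) (f := fun z : ℝ × ℂ × ℂ => (s z.1, z.2))
        ((0 : ℝ), w0, (0 : ℂ)) ?_ hmap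
      simpa only [hs00] using hα
    · refine ContDiffAt.comp (g := β) (f := fun z : ℝ × ℂ × ℂ => (s z.1, z.2))
        ((0 : ℝ), w0, (0 : ℂ)) ?_ hmap
      simpa only [hs00] using hβ
    · have h1 : Tendsto (fun z : ℝ × ℂ × ℂ => (s z.1, z.2)) (𝓝 ((0 : ℝ), w0, (0 : ℂ)))
          (𝓝 (s0, w0, (0 : ℂ))) := by
        have := hmap.continuousAt.tendsto
        simpa only [hs00] using this
      exact h1.eventually heq
  obtain ⟨ε1, hε1, hfin⟩ := TT_core K e he heK (fun t i j => c i j (s t))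
    (fun t i j => fderiv ℝ (c i j) (s t) (v (s t))) hab hb hlow' hinf' hloc'
  have hne : ∀ᶠ t in 𝓝[>] (0 : ℝ), s t ≠ s0 :=
    (hs0der.eventually_ne hv0 (c := s0)).filter_mono (nhdsWithin_mono _ fun t ht => ne_of_gt ht)
  have hV' : ∀ᶠ t in 𝓝[>] (0 : ℝ), s t ∈ V := hsV.filter_mono nhdsWithin_le_nhds
  have hI : ∀ᶠ t in 𝓝[>] (0 : ℝ), t ∈ Ioc (0 : ℝ) ε1 := Ioc_mem_nhdsGT hε1
  obtain ⟨t, ht1, ht2, ht3⟩ := (hne.and (hV'.and hI)).exists
  refine ⟨s t, ht2, ht1, ?_⟩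
  have := hfin t ⟨ht3.1.le, ht3.2⟩
  simpa [hs00] using this

end H37.LM
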