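import Pool.Agent.H37.LM.UpperLocal
import Pool.Agent.H37.LM.Select
import Pool.Agent.H37.LM.Shear
import Pool.Agent.H37.LM.LipBasic

/-!
# Upper bound
-/

noncomputable section

open Set Filter Topology
open scoped ContDiff

namespace H37.LM

/-- The jet of `x ^ 6 + x y ^ 5`. -/
def gJet (k : ℕ) : Jet k := fun q => gS q.1.1 q.1.2

theorem coef_of_le {k : ℕ} (c : Jet k) (i j : ℕ) (h : 1 ≤ i + j ∧ i + j ≤ k) :
    coef c i j = c ⟨(⟨i, by omega⟩, ⟨j, by omega⟩), by simpa using h⟩ := by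
  unfold coef
  rw [dif_pos h]

theorem coef_of_not {k : ℕ} (c : Jet k) (i j : ℕ) (h : ¬ (1 ≤ i + j ∧ i + j ≤ k)) :
    coef c i j = 0 := by
  unfold coef
  rw [dif_neg h]

theorem coef_gJet (k : ℕ) (hk : 6 ≤ k) (i j : ℕ) : coef (gJet k) i j = gS i j := by
  by_cases h : 1 ≤ i + j ∧ i + j ≤ k
  · rw [coef_of_le _ _ _ h]
    rfl
  · rw [coef_of_not _ _ _ h]
    unfold gS
    rw [if_neg]
    rintro (⟨rfl, rfl⟩ | ⟨rfl, rfl⟩) <;> omega

theorem coef_smooth {k m : ℕ} {σ : (Fin m → ℝ) → Jet k} {B : Set (Fin m → ℝ)}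
    (hσ : ContDiffOn ℝ ∞ σ B) (i j : ℕ) : ContDiffOn ℝ ∞ (fun s => coef (σ s) i j) B := by
  by_cases h : 1 ≤ i + j ∧ i + j ≤ k
  · have : (fun s => coef (σ s) i j) =
        fun s => σ s ⟨(⟨i, by omega⟩, ⟨j, by omega⟩), by simpa using h⟩ := by
      funext s
      exact coef_of_le _ _ _ h
    rw [this]
    exact (contDiffOn_pi.1 hσ) _
  · have : (fun s => coef (σ s) i j) = fun _ => 0 := by
      funext s
      exact coef_of_not _ _ _ h
    rw [this]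
    exact contDiffOn_const

theorem upper (k : ℕ) (hk : 6 ≤ k) : ∃ U ∈ 𝓝 (gJet k), ∀ (m : ℕ), 5 ≤ m →
    ∀ σ : (Fin m → ℝ) → Jet k, ContDiffOn ℝ ∞ σ (Metric.ball 0 1) →
    (∀ s ∈ Metric.ball (0 : Fin m → ℝ) 1, σ s ∈ U) →
    ∃ s0 ∈ Metric.ball (0 : Fin m → ℝ) 1, ∃ s1 ∈ Metric.ball (0 : Fin m → ℝ) 1, s1 ≠ s0 ∧
      LipEquiv (evalJet (σ s0)) (evalJet (σ s1)) := by
  obtain ⟨δ, hδ, hsel⟩ := select k hk
  refine ⟨Metric.ball (gJet k) δ, Metric.ball_mem_nhds _ hδ, fun m hm σ hσ hU => ?_⟩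
  have hnear : ∀ s ∈ Metric.ball (0 : Fin m → ℝ) 1, ∀ i j, ‖coef (σ s) i j - gS i j‖ < δ := by
    intro s hs i j
    have h1 := hU s hs
    rw [Metric.mem_ball, dist_eq_norm] at h1
    by_cases h : 1 ≤ i + j ∧ i + j ≤ k
    · rw [← coef_gJet k hk, coef_of_le _ _ _ h, coef_of_le _ _ _ h]
      exact lt_of_le_of_lt (norm_le_pi_norm (σ s - gJet k) _) h1
    · rw [← coef_gJet k hk, coef_of_not _ _ _ h, coef_of_not _ _ _ h]
      simpa using hδ
  obtain ⟨B, e, lam, hB, hBne, hBsub, hgood⟩ := hsel m σ hσ hnear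
  obtain ⟨G, hGB⟩ := exists_genData B hB hBne
  have hsm : ∀ i j, ContDiffOn ℝ ∞ (fun s => shr (lam : ℂ) (coef (σ s)) i j) B := by
    intro i j
    unfold shr
    refine ContDiffOn.sum fun n _ => ?_
    exact ((coef_smooth (hσ.mono hBsub) _ _).mul contDiffOn_const).mul contDiffOn_const
  let a : ℕ → ℕ → SR G := fun i j =>
    ⟨fun s => shr (lam : ℂ) (coef (σ s)) i j, B, by
      rw [hGB]
      exact DenseOpenIn.self hB, hsm i j⟩
  obtain ⟨s0, hs0, s1, hs1, hne, hlip⟩ := upper_local G hm k e a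
    (fun i j => by rw [hGB]; exact hsm i j)
    (fun s hs => by rw [hGB] at hs; exact hgood s hs)
  rw [hGB] at hs0 hs1
  refine ⟨s0, hBsub hs0, s1, hBsub hs1, hne, ?_⟩
  have key : ∀ s, LipEquiv (ev k (shr (lam : ℂ) (coef (σ s)))) (evalJet (σ s)) := by
    intro s
    have hhigh : ∀ i j, k < i + j → coef (σ s) i j = 0 := fun i j hij =>
      coef_of_not _ _ _ (by omega)
    have h1 := lipEquiv_linear (evalJet (σ s)) 1 (lam : ℂ) 0 1 (by simp)
    refine h1.congr (Eventually.of_forall fun p => ?_) (Eventually.of_forall fun p => rfl)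
    rw [ev_shr k _ _ hhigh]
    simp [evalJet]
  exact ((key s0).symm.trans hlip).trans (key s1)

end H37.LM
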