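import Pool.Agent.H37.LM.GenGood
import Pool.Agent.H37.LM.GenRoots
import Pool.Agent.H37.LM.GenC
import Pool.Agent.H37.LM.GenD
import Pool.Agent.H37.LM.AlgMain
import Pool.Agent.H37.LM.LocSimple
import Pool.Agent.H37.LM.TTMulti

/-!
# Good families with five real parameters are not injective up to equivalence
-/

noncomputable section

open Set Filter Topology Polynomial
open scoped ContDiff

namespace H37.LM

variable {m : ℕ}

theorem Ft_zero (K e : ℕ) (a : ℕ → ℕ → ℂ) (high : ∀ i j, K < i + j → a i j = 0)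
    (low : ∀ i j, i + j < e → a i j = 0) (w : ℂ) : Ft K e a w 0 = (formP e a).eval w := by
  have h1 : ∀ i ∈ Finset.range (K + 1), ∀ j ∈ Finset.range (K + 1),
      a i j * w ^ j * (0 : ℂ) ^ (i + j - e) = if i + j = e then a i j * w ^ j else 0 := by
    intro i _ j _
    rcases lt_trichotomy (i + j) e with h | h | h
    · rw [low i j h, if_neg h.ne]; ring
    · rw [if_pos h, h, Nat.sub_self, pow_zero, mul_one]
    · rw [if_neg h.ne', zero_pow (by omega), mul_zero]
  unfold Ft formP
  rw [Finset.sum_congr rfl fun i hi => Finset.sum_congr rfl fun j hj => h1 i hi j hj]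
  rw [Finset.sum_comm, eval_finsetSum]
  simp only [eval_monomial]
  have h2 : ∀ j ∈ Finset.range (K + 1),
      (∑ i ∈ Finset.range (K + 1), if i + j = e then a i j * w ^ j else 0) =
        if j ≤ e then a (e - j) j * w ^ j else 0 := by
    intro j hj
    split_ifs with hje
    · by_cases hK : e - j ∈ Finset.range (K + 1)
      · rw [Finset.sum_eq_single (e - j)]
        · rw [if_pos (by omega)]
        · intro i _ hi
          rw [if_neg (by omega)]
        · intro h; exact absurd hK h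
      · rw [high (e - j) j (by rw [Finset.mem_range] at hK; omega), zero_mul]
        refine Finset.sum_eq_zero fun i hi => ?_
        rw [Finset.mem_range] at hi hK
        rw [if_neg (by omega)]
    · refine Finset.sum_eq_zero fun i hi => ?_
      rw [if_neg (by omega)]
  rw [Finset.sum_congr rfl h2]
  rw [← Finset.sum_filter]
  have h3 : ∀ j ∈ Finset.range (e + 1), j ∉ Finset.filter (fun j => j ≤ e)
      (Finset.range (K + 1)) → a (e - j) j * w ^ j = 0 := by
    intro j hj hj'
    rw [Finset.mem_filter, Finset.mem_range] at hj'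
    rw [Finset.mem_range] at hj
    rw [high (e - j) j (by omega), zero_mul]
  refine Finset.sum_subset ?_ h3
  intro j hj
  rw [Finset.mem_filter] at hj
  rw [Finset.mem_range]
  omega

theorem Wf_zero (K e : ℕ) (a : ℕ → ℕ → ℂ) (high : ∀ i j, K < i + j → a i j = 0)
    (low : ∀ i j, i + j < e → a i j = 0) (w : ℂ) :
    Wf K e a w 0 = (derivative (formP e a)).eval w := by
  have h1 : ∀ i ∈ Finset.range (K + 1), ∀ j ∈ Finset.range (K + 1),
      a i j * (j * w ^ (j - 1)) * (0 : ℂ) ^ (i + j - e) =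
        if i + j = e then a i j * (j * w ^ (j - 1)) else 0 := by
    intro i _ j _
    rcases lt_trichotomy (i + j) e with h | h | h
    · rw [low i j h, if_neg h.ne]; ring
    · rw [if_pos h, h, Nat.sub_self, pow_zero, mul_one]
    · rw [if_neg h.ne', zero_pow (by omega), mul_zero]
  unfold Wf formP
  rw [Finset.sum_congr rfl fun i hi => Finset.sum_congr rfl fun j hj => h1 i hi j hj]
  rw [Finset.sum_comm, derivative_sum, eval_finsetSum]
  simp only [derivative_monomial, eval_monomial]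
  have h2 : ∀ j ∈ Finset.range (K + 1),
      (∑ i ∈ Finset.range (K + 1), if i + j = e then a i j * (j * w ^ (j - 1)) else 0) =
        if j ≤ e then a (e - j) j * j * w ^ (j - 1) else 0 := by
    intro j hj
    split_ifs with hje
    · by_cases hK : e - j ∈ Finset.range (K + 1)
      · rw [Finset.sum_eq_single (e - j)]
        · rw [if_pos (by omega)]; ring
        · intro i _ hi
          rw [if_neg (by omega)]
        · intro h; exact absurd hK h
      · rw [high (e - j) j (by rw [Finset.mem_range] at hK; omega), zero_mul, zero_mul]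
        refine Finset.sum_eq_zero fun i hi => ?_
        rw [Finset.mem_range] at hi hK
        rw [if_neg (by omega)]
    · refine Finset.sum_eq_zero fun i hi => ?_
      rw [if_neg (by omega)]
  rw [Finset.sum_congr rfl h2]
  rw [← Finset.sum_filter]
  have h3 : ∀ j ∈ Finset.range (e + 1), j ∉ Finset.filter (fun j => j ≤ e)
      (Finset.range (K + 1)) → a (e - j) j * j * w ^ (j - 1) = 0 := by
    intro j hj hj'
    rw [Finset.mem_filter, Finset.mem_range] at hj'
    rw [Finset.mem_range] at hj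
    rw [high (e - j) j (by omega), zero_mul, zero_mul]
  refine Finset.sum_subset ?_ h3
  intro j hj
  rw [Finset.mem_filter] at hj
  rw [Finset.mem_range]
  omega

theorem lin_comb_zero {F : Type*} [Field F] (O : Derivation ℤ F F →ₗ[F] (Fin 2 → F))
    (c : Fin m → F) (D : Fin m → Derivation ℤ F F) (h : ∀ l, ∑ i, c i * O (D i) l = 0) :
    O (∑ i, c i • D i) = 0 := by
  ext l
  rw [map_sum, Finset.sum_apply]
  simpa [map_smul] using h l

theorem upper_local (G : GenData m) (hm : 5 ≤ m) (K e : ℕ) (a : ℕ → ℕ → SR G)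
    (hsm : ∀ i j, ContDiffOn ℝ ∞ (a i j : (Fin m → ℝ) → ℂ) G.B)
    (h : ∀ s ∈ G.B, Good K e (fun i j => (a i j : (Fin m → ℝ) → ℂ) s)) :
    ∃ s0 ∈ G.B, ∃ s1 ∈ G.B, s1 ≠ s0 ∧
      LipEquiv (ev K (fun i j => (a i j : (Fin m → ℝ) → ℂ) s0))
        (ev K (fun i j => (a i j : (Fin m → ℝ) → ℂ) s1)) := by
  have hG := gen_good G K e a h
  obtain ⟨O, hO⟩ := alg_main K e _ hG
  obtain ⟨v, hvim, ⟨i0, hi0⟩, hv⟩ := exists_real_vec G hm (fun i l => O (G.der i) l)
  -- the derivation
  have hOD : O (G.derV v) = 0 := lin_comb_zero O (fun i => G.cl (v i)) G.der hv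
  choose a' ha' ha'' using fun i j => derV_cl G v hvim (a i j)
  have hfun : (fun i j => (G.derV v) (G.cl (a i j))) = fun i j => G.cl (a' i j) := by
    funext i j
    exact ha' i j
  have hDall : ∀ p : G.F, (formP e (fun i j => G.cl (a i j))).eval p = 0 →
      (derivative (formP e (fun i j => G.cl (a i j)))).eval p = 0 →
      ∃ A B U : G.F[X][X], U.evalEval 0 p ≠ 0 ∧
        U * FtP K e (fun i j => G.cl (a' i j)) =
          A * QfP K e (fun i j => G.cl (a i j)) + B * WfP K e (fun i j => G.cl (a i j)) := by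
    intro p h1 h2
    obtain ⟨A, B, U, hU, hid⟩ := hO _ hOD p h1 h2
    exact ⟨A, B, U, hU, hfun ▸ hid⟩
  obtain ⟨V, hV, hroots⟩ := gen_roots G K e a a' hG hDall
  -- `v` is nonzero and smooth on a big set
  obtain ⟨V1, hV1, hne⟩ := (cl_ne_zero_iff G (v i0)).1 hi0
  choose W hW hWs using fun i => smooth_big G (v i)
  obtain ⟨V2, hV2, hsub⟩ := GenData.big_biInter Finset.univ W (fun i _ => hW i)
  have hbig := (hV.inter hV1).inter hV2
  obtain ⟨s0, ⟨hs0V, hs01⟩, hs02⟩ := hbig.nonempty
  set Om := V ∩ V1 ∩ V2 with hOm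
  have hOmB : Om ⊆ G.B := hbig.2.1
  set vv : (Fin m → ℝ) → (Fin m → ℝ) := fun s i => ((v i : (Fin m → ℝ) → ℂ) s).re with hvv
  have hvvs : ContDiffOn ℝ ∞ vv Om := by
    rw [contDiffOn_pi]
    intro i
    exact Complex.reCLM.contDiff.comp_contDiffOn
      ((hWs i).mono fun s hs => hsub i (Finset.mem_univ i) hs.2)
  have hvv0 : vv s0 ≠ 0 := by
    intro h0
    apply hne s0 hs01
    apply Complex.ext
    · exact congrFun h0 i0
    · exact hvim i0 s0
  have hder : ∀ i j, ∀ s ∈ Om, (a' i j : (Fin m → ℝ) → ℂ) s =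
      fderiv ℝ (a i j : (Fin m → ℝ) → ℂ) s (vv s) := fun i j s hs =>
    ha'' i j G.B G.isOpen (hsm i j) s (hOmB hs)
  have hsmOm : ∀ i j, ContDiffOn ℝ ∞ (a i j : (Fin m → ℝ) → ℂ) Om := fun i j =>
    (hsm i j).mono hOmB
  have hb : ∀ i j, ContDiffOn ℝ ∞ (fun s => fderiv ℝ (a i j : (Fin m → ℝ) → ℂ) s (vv s)) Om := by
    intro i j
    exact ((contDiffOn_infty_iff_fderiv_of_isOpen hbig.1).1 (hsmOm i j)).2.clm_apply hvvs
  have hgood := fun s (hs : s ∈ Om) => h s (hOmB hs)
  have he := hG.one_le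
  have heK : e ≤ K := by
    by_contra hlt
    exact (hgood s0 ⟨⟨hs0V, hs01⟩, hs02⟩).inf
      ((hgood s0 ⟨⟨hs0V, hs01⟩, hs02⟩).high 0 e (by omega))
  have hs0 : s0 ∈ Om := ⟨⟨hs0V, hs01⟩, hs02⟩
  obtain ⟨s1, hs1, hne1, hlip⟩ := TT_multi K e he heK Om hbig.1 s0 hs0
    (fun i j => (a i j : (Fin m → ℝ) → ℂ)) hsmOm (fun s hs i j hij => (hgood s hs).low i j hij)
    (hgood s0 hs0).inf vv hvvs hvv0 (by
      intro w0
      rcases hroots s0 hs0V w0 with h1 | h1 | ⟨A, B, U, hA, hB, hU, hU0, hid⟩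
      · exact loc_simple_multi K e he Om hbig.1 s0 hs0 (fun i j => (a i j : (Fin m → ℝ) → ℂ))
          (fun i j s => fderiv ℝ (a i j : (Fin m → ℝ) → ℂ) s (vv s)) hsmOm hb w0
          (Or.inl (by rwa [Ft_zero K e _ (hgood s0 hs0).high (hgood s0 hs0).low]))
          (hgood s0 hs0).low
      · exact loc_simple_multi K e he Om hbig.1 s0 hs0 (fun i j => (a i j : (Fin m → ℝ) → ℂ))
          (fun i j s => fderiv ℝ (a i j : (Fin m → ℝ) → ℂ) s (vv s)) hsmOm hb w0
          (Or.inr (by rwa [Wf_zero K e _ (hgood s0 hs0).high (hgood s0 hs0).low]))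
          (hgood s0 hs0).low
      · have hmono : ∀ {P : (Fin m → ℝ) → ℂ[X][X]}, SmoothPoly V P → SmoothPoly Om P := by
          intro P hP
          refine ⟨?_, fun i j => (hP.2 i j).mono fun s hs => hs.1.1⟩
          obtain ⟨N, hN⟩ := hP.1
          exact ⟨N, fun s hs => hN s hs.1.1⟩
        obtain ⟨α, β, hα, hβ, heq⟩ := polyLoc hbig.1 hs0 w0 A B U
          (fun s => FtP K e (fun i j => (a' i j : (Fin m → ℝ) → ℂ) s))
          (fun s => QfP K e (fun i j => (a i j : (Fin m → ℝ) → ℂ) s))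
          (fun s => WfP K e (fun i j => (a i j : (Fin m → ℝ) → ℂ) s))
          (hmono hA) (hmono hB) (hmono hU) hU0 (fun s hs => hid s hs.1.1)
        refine ⟨α, β, hα, hβ, ?_⟩
        have hmem : ∀ᶠ z : (Fin m → ℝ) × ℂ × ℂ in 𝓝 (s0, w0, (0 : ℂ)), z.1 ∈ Om :=
          (continuous_fst.tendsto (s0, w0, (0 : ℂ))).eventually (hbig.1.mem_nhds hs0)
        filter_upwards [heq, hmem] with z hz hzm
        rw [evalEval_FtP, evalEval_QfP, evalEval_WfP] at hz
        have e1 : (fun i j => (a' i j : (Fin m → ℝ) → ℂ) z.1) =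
            fun i j => fderiv ℝ (a i j : (Fin m → ℝ) → ℂ) z.1 (vv z.1) := by
          funext i j
          exact hder i j z.1 hzm
        rw [e1] at hz
        exact hz)
  exact ⟨s0, hOmB hs0, s1, hOmB hs1, hne1, hlip⟩

end H37.LM
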